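import Mathlib

/-!
# King and rook against king on boards with north and east exits

Squares are pairs `(x, y)` (file, rank) of natural numbers.  `m n : ℕ∞` are the numbers of files
and ranks; `m = n = ⊤` is the quarter-infinite board.
-/

set_option autoImplicit false

namespace Pool.Agent.R186.KRK

/-- A square `(file, rank)`. -/
abbrev Sq := ℕ × ℕ

/-- A position: the squares of the White king, the White rook and the Black king. -/
structure Pos where
  wk : Sq
  wr : Sq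
  bk : Sq

/-- The board with `m` files and `n` ranks. -/
def OnBoard (m n : ℕ∞) (s : Sq) : Prop :=
  1 ≤ s.1 ∧ (s.1 : ℕ∞) ≤ m ∧ 1 ≤ s.2 ∧ (s.2 : ℕ∞) ≤ n

/-- The king on `s` can leave the board across the east or the north edge. -/
def CanLeave (m n : ℕ∞) (s : Sq) : Prop := (s.1 : ℕ∞) = m ∨ (s.2 : ℕ∞) = n

/-- `a` and `b` are equal or adjacent (also diagonally). -/
def Near (a b : Sq) : Prop :=
  a.1 ≤ b.1 + 1 ∧ b.1 ≤ a.1 + 1 ∧ a.2 ≤ b.2 + 1 ∧ b.2 ≤ a.2 + 1

/-- `b` is strictly between `a` and `c`. -/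
def Btw (a b c : ℕ) : Prop := (a < b ∧ b < c) ∨ (c < b ∧ b < a)

/-- The rook on `wr` attacks `t` (only the White king on `wk` can interpose; the Black king does
not shield the squares behind it when it moves). -/
def Attacks (wk wr t : Sq) : Prop :=
  (wr.1 = t.1 ∧ wr.2 ≠ t.2 ∧ ¬ (wk.1 = t.1 ∧ Btw wr.2 wk.2 t.2)) ∨
  (wr.2 = t.2 ∧ wr.1 ≠ t.1 ∧ ¬ (wk.2 = t.2 ∧ Btw wr.1 wk.1 t.1))

/-- Nothing stands strictly between `a` and `t` on their common file or rank, where the kings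
stand on `wk` and `bk`. -/
def ClearLine (wk bk a t : Sq) : Prop :=
  (a.1 = t.1 ∧ a.2 ≠ t.2 ∧ ¬ (wk.1 = t.1 ∧ Btw a.2 wk.2 t.2) ∧
    ¬ (bk.1 = t.1 ∧ Btw a.2 bk.2 t.2)) ∨
  (a.2 = t.2 ∧ a.1 ≠ t.1 ∧ ¬ (wk.2 = t.2 ∧ Btw a.1 wk.1 t.1) ∧
    ¬ (bk.2 = t.2 ∧ Btw a.1 bk.1 t.1))

/-- The White moves on the board: a king move to a free square not next to the Black king, or a
rook move along a file or rank over free squares to a free square. -/
def WMove (m n : ℕ∞) (p q : Pos) : Prop :=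
  (∃ t, OnBoard m n t ∧ Near p.wk t ∧ t ≠ p.wk ∧ t ≠ p.wr ∧ ¬ Near t p.bk ∧
    q = ⟨t, p.wr, p.bk⟩) ∨
  (∃ t, OnBoard m n t ∧ ClearLine p.wk p.bk p.wr t ∧ t ≠ p.wk ∧ t ≠ p.bk ∧
    q = ⟨p.wk, t, p.bk⟩)

/-- The Black king may move to the board square `t` (possibly capturing the rook): `t` is next to
the Black king, not next to the White king and not attacked by the rook. -/
def BMove (m n : ℕ∞) (p : Pos) (t : Sq) : Prop :=
  OnBoard m n t ∧ Near p.bk t ∧ t ≠ p.bk ∧ ¬ Near p.wk t ∧ ¬ Attacks p.wk p.wr t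

/-- Black to move is checkmated. -/
def Mated (m n : ℕ∞) (p : Pos) : Prop :=
  Attacks p.wk p.wr p.bk ∧ ¬ CanLeave m n p.bk ∧ ∀ t, ¬ BMove m n p t

/-- With White to move, White can force checkmate within `k` White moves. -/
def WinsIn (m n : ℕ∞) : ℕ → Pos → Prop
  | 0, _ => False
  | k + 1, p => ∃ q, WMove m n p q ∧
      (Mated m n q ∨
        (¬ CanLeave m n q.bk ∧ (∃ t, BMove m n q t) ∧
          ∀ t, BMove m n q t → t ≠ q.wr ∧ WinsIn m n k ⟨q.wk, q.wr, t⟩))

/-- The starting position: White king a1, White rook b2, Black king c3. -/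
def start : Pos := ⟨(1, 1), (2, 2), (3, 3)⟩

/-! ### Monotonicity -/

theorem onBoard_mono {m n m' n' : ℕ∞} (hm : m ≤ m') (hn : n ≤ n') {s : Sq}
    (h : OnBoard m n s) : OnBoard m' n' s :=
  ⟨h.1, h.2.1.trans hm, h.2.2.1, h.2.2.2.trans hn⟩

theorem wmove_mono {m n m' n' : ℕ∞} (hm : m ≤ m') (hn : n ≤ n') {p q : Pos}
    (h : WMove m n p q) : WMove m' n' p q := by
  rcases h with ⟨t, h1, h2⟩ | ⟨t, h1, h2⟩
  · exact Or.inl ⟨t, onBoard_mono hm hn h1, h2⟩
  · exact Or.inr ⟨t, onBoard_mono hm hn h1, h2⟩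

/-- All pieces are on the board. -/
def On (m n : ℕ∞) (p : Pos) : Prop := OnBoard m n p.bk

theorem wmove_bk {m n : ℕ∞} {p q : Pos} (h : WMove m n p q) : q.bk = p.bk := by
  rcases h with ⟨t, _, _, _, _, _, rfl⟩ | ⟨t, _, _, _, _, rfl⟩ <;> rfl

theorem lt_of_not_canLeave {m n : ℕ∞} {s : Sq} (hs : OnBoard m n s) (h : ¬ CanLeave m n s) :
    (s.1 : ℕ∞) < m ∧ (s.2 : ℕ∞) < n := by
  unfold CanLeave at h
  rw [not_or] at h
  exact ⟨lt_of_le_of_ne hs.2.1 h.1, lt_of_le_of_ne hs.2.2.2 h.2⟩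

theorem bmove_iff_mono {m n m' n' : ℕ∞} (hm : m ≤ m') (hn : n ≤ n') {p : Pos} {t : Sq}
    (hp : OnBoard m n p.bk) (h : ¬ CanLeave m n p.bk) :
    BMove m n p t ↔ BMove m' n' p t := by
  constructor
  · rintro ⟨h1, h2⟩
    exact ⟨onBoard_mono hm hn h1, h2⟩
  · rintro ⟨h1, h2⟩
    refine ⟨⟨h1.1, ?_, h1.2.2.1, ?_⟩, h2⟩
    · have h3 := (lt_of_not_canLeave hp h).1
      have h4 : (t.1 : ℕ∞) ≤ (p.bk.1 : ℕ∞) + 1 := by
        have := h2.1.2.1
        exact_mod_cast this
      exact h4.trans (Order.add_one_le_of_lt h3)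
    · have h3 := (lt_of_not_canLeave hp h).2
      have h4 : (t.2 : ℕ∞) ≤ (p.bk.2 : ℕ∞) + 1 := by
        have := h2.1.2.2.2
        exact_mod_cast this
      exact h4.trans (Order.add_one_le_of_lt h3)

theorem not_canLeave_mono {m n m' n' : ℕ∞} (hm : m ≤ m') (hn : n ≤ n') {s : Sq}
    (hs : OnBoard m n s) (h : ¬ CanLeave m n s) : ¬ CanLeave m' n' s := by
  have h3 := lt_of_not_canLeave hs h
  unfold CanLeave
  rw [not_or]
  exact ⟨ne_of_lt (h3.1.trans_le hm), ne_of_lt (h3.2.trans_le hn)⟩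

theorem winsIn_mono {m n m' n' : ℕ∞} (hm : m ≤ m') (hn : n ≤ n') :
    ∀ (k : ℕ) (p : Pos), OnBoard m n p.bk → WinsIn m n k p → WinsIn m' n' k p := by
  intro k
  induction k with
  | zero => intro p _ h; exact h
  | succ k ih =>
    intro p hp h
    obtain ⟨q, hq, h⟩ := h
    have hb : q.bk = p.bk := wmove_bk hq
    have hqb : OnBoard m n q.bk := by rw [hb]; exact hp
    refine ⟨q, wmove_mono hm hn hq, ?_⟩
    rcases h with ⟨h1, h2, h3⟩ | ⟨h1, ⟨t, ht⟩, h3⟩
    · left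
      refine ⟨h1, not_canLeave_mono hm hn hqb h2, ?_⟩
      intro t ht
      exact h3 t ((bmove_iff_mono hm hn hqb h2).2 ht)
    · right
      refine ⟨not_canLeave_mono hm hn hqb h1, ⟨t, (bmove_iff_mono hm hn hqb h1).1 ht⟩, ?_⟩
      intro t ht
      have ht' := (bmove_iff_mono hm hn hqb h1).2 ht
      exact ⟨(h3 t ht').1, ih _ ht'.1 (h3 t ht').2⟩

theorem winsIn_succ {m n : ℕ∞} : ∀ (k : ℕ) (p : Pos), WinsIn m n k p → WinsIn m n (k + 1) p := by
  intro k
  induction k with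
  | zero => intro p h; exact h.elim
  | succ k ih =>
    intro p h
    obtain ⟨q, hq, h⟩ := h
    refine ⟨q, hq, ?_⟩
    rcases h with h | ⟨h1, h2, h3⟩
    · exact Or.inl h
    · exact Or.inr ⟨h1, h2, fun t ht => ⟨(h3 t ht).1, ih _ (h3 t ht).2⟩⟩

theorem winsIn_le {m n : ℕ∞} {k l : ℕ} (hkl : k ≤ l) {p : Pos} (h : WinsIn m n k p) :
    WinsIn m n l p := by
  induction hkl with
  | refl => exact h
  | step _ ih => exact winsIn_succ _ _ ih

/-! ### Transposition -/

/-- Transposed square. -/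
def tr (s : Sq) : Sq := (s.2, s.1)

/-- Transposed position. -/
def trp (p : Pos) : Pos := ⟨tr p.wk, tr p.wr, tr p.bk⟩

theorem tr_tr (s : Sq) : tr (tr s) = s := rfl

theorem tr_inj {a b : Sq} (h : a ≠ b) : tr a ≠ tr b := by
  intro h'
  apply h
  rw [← tr_tr a, h', tr_tr]

theorem onBoard_tr {m n : ℕ∞} {s : Sq} (h : OnBoard m n s) : OnBoard n m (tr s) :=
  ⟨h.2.2.1, h.2.2.2, h.1, h.2.1⟩

theorem canLeave_tr {m n : ℕ∞} {s : Sq} (h : CanLeave m n s) : CanLeave n m (tr s) :=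
  h.symm

theorem near_tr {a b : Sq} (h : Near a b) : Near (tr a) (tr b) :=
  ⟨h.2.2.1, h.2.2.2, h.1, h.2.1⟩

theorem attacks_tr {wk wr t : Sq} (h : Attacks wk wr t) : Attacks (tr wk) (tr wr) (tr t) :=
  h.symm

theorem clearLine_tr {wk bk a t : Sq} (h : ClearLine wk bk a t) :
    ClearLine (tr wk) (tr bk) (tr a) (tr t) :=
  h.symm

theorem wmove_tr {m n : ℕ∞} {p q : Pos} (h : WMove m n p q) : WMove n m (trp p) (trp q) := by
  rcases h with ⟨t, h1, h2, h3, h4, h5, rfl⟩ | ⟨t, h1, h2, h3, h4, rfl⟩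
  · exact Or.inl ⟨tr t, onBoard_tr h1, near_tr h2, tr_inj h3, tr_inj h4,
      fun h => h5 (near_tr h), rfl⟩
  · exact Or.inr ⟨tr t, onBoard_tr h1, clearLine_tr h2, tr_inj h3, tr_inj h4, rfl⟩

theorem bmove_tr {m n : ℕ∞} {p : Pos} {t : Sq} (h : BMove m n p t) :
    BMove n m (trp p) (tr t) :=
  ⟨onBoard_tr h.1, near_tr h.2.1, tr_inj h.2.2.1, fun h' => h.2.2.2.1 (near_tr h'),
    fun h' => h.2.2.2.2 (attacks_tr h')⟩

theorem winsIn_tr {m n : ℕ∞} : ∀ (k : ℕ) (p : Pos), WinsIn m n k p → WinsIn n m k (trp p) := by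
  intro k
  induction k with
  | zero => intro p h; exact h
  | succ k ih =>
    intro p h
    obtain ⟨q, hq, h⟩ := h
    refine ⟨trp q, wmove_tr hq, ?_⟩
    rcases h with ⟨h1, h2, h3⟩ | ⟨h1, ⟨t, ht⟩, h3⟩
    · left
      refine ⟨attacks_tr h1, fun h => h2 (canLeave_tr h), ?_⟩
      intro t ht
      exact h3 (tr t) (bmove_tr ht)
    · right
      refine ⟨fun h => h1 (canLeave_tr h), ⟨tr t, bmove_tr ht⟩, ?_⟩
      intro t ht
      have := h3 (tr t) (bmove_tr ht)
      refine ⟨?_, ?_⟩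
      · have h5 := tr_inj this.1
        exact h5
      · exact ih _ this.2

/-! ### Safe sets for Black -/

/-- After White's move to `q`, Black can leave the board, is stalemated, captures the rook or
reaches the set `Safe`. -/
def Reply (m n : ℕ∞) (Safe : Pos → Prop) (q : Pos) : Prop :=
  CanLeave m n q.bk ∨ (¬ Attacks q.wk q.wr q.bk ∧ ∀ t, ¬ BMove m n q t) ∨
    ∃ t, BMove m n q t ∧ (t = q.wr ∨ Safe ⟨q.wk, q.wr, t⟩)

theorem not_winsIn_of_safe {m n : ℕ∞} (Safe : Pos → Prop)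
    (h : ∀ p q, Safe p → WMove m n p q → Reply m n Safe q) :
    ∀ (k : ℕ) (p : Pos), Safe p → ¬ WinsIn m n k p := by
  intro k
  induction k with
  | zero => intro p _ h; exact h
  | succ k ih =>
    intro p hp hw
    obtain ⟨q, hq, hw⟩ := hw
    rcases h p q hp hq with h1 | ⟨h1, h2⟩ | ⟨t, ht, h1⟩
    · rcases hw with hw | hw
      · exact hw.2.1 h1
      · exact hw.1 h1
    · rcases hw with hw | ⟨_, ⟨t, ht⟩, _⟩
      · exact h1 hw.1
      · exact h2 t ht
    · rcases hw with hw | hw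
      · exact hw.2.2 t ht
      · have := hw.2.2 t ht
        rcases h1 with h1 | h1
        · exact this.1 h1
        · exact ih _ h1 this.2

/-- The east-running condition: White king far below, relative to the distance to the exit. -/
def East (m : ℕ) (p : Pos) : Prop :=
  p.bk.1 = m ∨ p.wk.2 + m + 2 ≤ p.bk.1 + p.bk.2

theorem east_reply {m : ℕ} {n : ℕ∞} {p q : Pos} (hb : OnBoard m n p.bk)
    (hp : East m p) (hq : WMove m n p q) :
    CanLeave m n q.bk ∨ ∃ t, BMove m n q t ∧ (t = q.wr ∨ East m ⟨q.wk, q.wr, t⟩) := by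
  have hbk : q.bk = p.bk := wmove_bk hq
  have hwk : q.wk.2 ≤ p.wk.2 + 1 := by
    rcases hq with ⟨t, _, h2, _, _, _, rfl⟩ | ⟨t, _, _, _, _, rfl⟩
    · exact h2.2.2.2
    · exact Nat.le_succ _
  by_cases hx : CanLeave m n q.bk
  · exact Or.inl hx
  right
  have hlt := lt_of_not_canLeave (hbk ▸ hb) hx
  have hxm : q.bk.1 < m := by exact_mod_cast hlt.1
  have hcond : p.wk.2 + m + 2 ≤ q.bk.1 + q.bk.2 := by
    rcases hp with h | h
    · rw [← hbk] at h
      omega
    · rw [hbk]; exact h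
  have hb1 : 1 ≤ q.bk.1 := by rw [hbk]; exact hb.1
  have hb2 : 1 ≤ q.bk.2 := by rw [hbk]; exact hb.2.2.1
  obtain ⟨wk, wr, bk⟩ := q
  obtain ⟨u, v⟩ := wk
  obtain ⟨r, s⟩ := wr
  obtain ⟨x, y⟩ := bk
  simp only at *
  have hm1 : ((x + 1 : ℕ) : ℕ∞) ≤ m := by
    exact_mod_cast hxm
  have hn1 : ((y + 1 : ℕ) : ℕ∞) ≤ n := by
    push_cast
    exact Order.add_one_le_of_lt hlt.2
  have hn0 : ((y : ℕ) : ℕ∞) ≤ n := hlt.2.le
  have hm0 : ((x : ℕ) : ℕ∞) ≤ m := hlt.1.le
  by_cases hr : r = x + 1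
  · by_cases hs : s = y ∨ s = y + 1
    · refine ⟨(r, s), ⟨⟨?_, ?_, ?_, ?_⟩, ?_, ?_, ?_, ?_⟩, Or.inl rfl⟩
      · show 1 ≤ r
        omega
      · show ((r : ℕ) : ℕ∞) ≤ m
        rw [hr]; exact hm1
      · show 1 ≤ s
        omega
      · show ((s : ℕ) : ℕ∞) ≤ n
        rcases hs with hs | hs
        · rw [hs]; exact hn0
        · rw [hs]; exact hn1
      · unfold Near
        simp only
        omega
      · intro h
        rw [Prod.mk.injEq] at h
        omega
      · unfold Near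
        simp only
        omega
      · unfold Attacks
        simp
    · rw [not_or] at hs
      refine ⟨(x, y + 1), ⟨⟨hb1, hm0, by simp, hn1⟩, ?_, ?_, ?_, ?_⟩, Or.inr (Or.inr ?_)⟩
      · unfold Near
        simp only
        omega
      · intro h
        rw [Prod.mk.injEq] at h
        omega
      · unfold Near
        simp only
        omega
      · unfold Attacks
        simp only
        omega
      · simp only
        omega
  · by_cases hs : s = y
    · refine ⟨(x + 1, y + 1), ⟨⟨by simp, hm1, by simp, hn1⟩, ?_, ?_, ?_, ?_⟩,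
        Or.inr (Or.inr ?_)⟩
      · unfold Near
        simp only
        omega
      · intro h
        rw [Prod.mk.injEq] at h
        omega
      · unfold Near
        simp only
        omega
      · unfold Attacks
        simp only
        omega
      · simp only
        omega
    · refine ⟨(x + 1, y), ⟨⟨by simp, hm1, hb2, hn0⟩, ?_, ?_, ?_, ?_⟩, Or.inr (Or.inr ?_)⟩
      · unfold Near
        simp only
        omega
      · intro h
        rw [Prod.mk.injEq] at h
        omega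
      · unfold Near
        simp only
        omega
      · unfold Attacks
        simp only
        omega
      · simp only
        omega

end Pool.Agent.R186.KRK
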