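import Pool.Agent.R186.NatTree
import Pool.Agent.R186.KRK.Defs

/-!
# Boolean versions of the chess predicates, for kernel computations
-/

set_option autoImplicit false

namespace Pool.Agent.R186.KRK

/-- Boolean version of `Near`. -/
def nearB (a b c d : ℕ) : Bool :=
  Nat.ble a (c + 1) && (Nat.ble c (a + 1) && (Nat.ble b (d + 1) && Nat.ble d (b + 1)))

theorem nearB_iff {a b c d : ℕ} : nearB a b c d = true ↔ Near (a, b) (c, d) := by
  unfold nearB Near
  simp only [Bool.and_eq_true, Nat.ble_eq]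

/-- Boolean version of `Btw`. -/
def btwB (a b c : ℕ) : Bool :=
  (Nat.blt a b && Nat.blt b c) || (Nat.blt c b && Nat.blt b a)

theorem btwB_iff {a b c : ℕ} : btwB a b c = true ↔ Btw a b c := by
  unfold btwB Btw
  simp only [Bool.or_eq_true, Bool.and_eq_true, Nat.blt_eq]

theorem beq_iff {a b : ℕ} : Nat.beq a b = true ↔ a = b := by
  constructor
  · exact Nat.eq_of_beq_eq_true
  · intro h
    subst h
    exact Nat.beq_refl a

/-- Boolean version of `Attacks`. -/
def attB (u v r s x y : ℕ) : Bool :=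
  (Nat.beq r x && (!(Nat.beq s y) && !(Nat.beq u x && btwB s v y))) ||
  (Nat.beq s y && (!(Nat.beq r x) && !(Nat.beq v y && btwB r u x)))

theorem not_iff_false {b : Bool} : (!b) = true ↔ ¬ b = true := by
  cases b <;> simp

theorem attB_iff {u v r s x y : ℕ} : attB u v r s x y = true ↔ Attacks (u, v) (r, s) (x, y) := by
  unfold attB Attacks
  simp only [Bool.or_eq_true, Bool.and_eq_true, not_iff_false, beq_iff, btwB_iff, ne_eq]

/-- Boolean version of `ClearLine`. -/
def clearB (u v x y r s tx ty : ℕ) : Bool :=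
  (Nat.beq r tx && (!(Nat.beq s ty) &&
    (!(Nat.beq u tx && btwB s v ty) && !(Nat.beq x tx && btwB s y ty)))) ||
  (Nat.beq s ty && (!(Nat.beq r tx) &&
    (!(Nat.beq v ty && btwB r u tx) && !(Nat.beq y ty && btwB r x tx))))

theorem clearB_iff {u v x y r s tx ty : ℕ} : clearB u v x y r s tx ty = true ↔
    ClearLine (u, v) (x, y) (r, s) (tx, ty) := by
  unfold clearB ClearLine
  simp only [Bool.or_eq_true, Bool.and_eq_true, not_iff_false, beq_iff, btwB_iff, ne_eq]

/-- Boolean equality of squares. -/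
def sqB (a b c d : ℕ) : Bool := Nat.beq a c && Nat.beq b d

theorem sqB_iff {a b c d : ℕ} : sqB a b c d = true ↔ ((a, b) : ℕ × ℕ) = (c, d) := by
  unfold sqB
  simp only [Bool.and_eq_true, beq_iff, Prod.mk.injEq]

/-- `f` holds at all eight neighbours. -/
def all8 (f : ℕ → ℕ → Bool) (x y : ℕ) : Bool :=
  f (x - 1) (y - 1) && (f (x - 1) y && (f (x - 1) (y + 1) && (f x (y - 1) &&
    (f x (y + 1) && (f (x + 1) (y - 1) && (f (x + 1) y && f (x + 1) (y + 1)))))))

theorem all8_spec {f : ℕ → ℕ → Bool} {x y : ℕ} (h : all8 f x y = true) {tx ty : ℕ}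
    (h1 : 1 ≤ tx) (h2 : 1 ≤ ty) (h3 : Near (x, y) (tx, ty)) (h4 : (tx, ty) ≠ (x, y)) :
    f tx ty = true := by
  unfold all8 at h
  simp only [Bool.and_eq_true] at h
  obtain ⟨a1, a2, a3, a4, a5, a6, a7, a8⟩ := h
  unfold Near at h3
  simp only at h3
  have hx : tx = x - 1 ∨ tx = x ∨ tx = x + 1 := by omega
  have hy : ty = y - 1 ∨ ty = y ∨ ty = y + 1 := by omega
  rcases hx with rfl | rfl | rfl <;> rcases hy with rfl | rfl | rfl <;>
    first
      | assumption
      | exact absurd rfl h4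

/-- `f` holds at some of the eight neighbours. -/
def any8 (f : ℕ → ℕ → Bool) (x y : ℕ) : Bool :=
  f (x + 1) (y + 1) || (f x (y + 1) || (f (x + 1) y || (f (x + 1) (y - 1) ||
    (f (x - 1) (y + 1) || (f (x - 1) y || (f x (y - 1) || f (x - 1) (y - 1)))))))

theorem any8_spec {f : ℕ → ℕ → Bool} {x y : ℕ} (hx : 1 ≤ x) (hy : 1 ≤ y)
    (h : any8 f x y = true) :
    ∃ tx ty, f tx ty = true ∧ Near (x, y) (tx, ty) ∧ (tx, ty) ≠ (x, y) := by
  have key : ∀ tx ty, f tx ty = true → (tx = x - 1 ∨ tx = x ∨ tx = x + 1) →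
      (ty = y - 1 ∨ ty = y ∨ ty = y + 1) → ¬ (tx = x ∧ ty = y) →
      ∃ tx ty, f tx ty = true ∧ Near (x, y) (tx, ty) ∧ (tx, ty) ≠ (x, y) := by
    intro tx ty hf h1 h2 h3
    refine ⟨tx, ty, hf, ?_, ?_⟩
    · unfold Near
      simp only
      omega
    · intro h
      rw [Prod.mk.injEq] at h
      exact h3 h
  unfold any8 at h
  simp only [Bool.or_eq_true] at h
  rcases h with h | h | h | h | h | h | h | h
  all_goals
    refine key _ _ h ?_ ?_ ?_ <;> omega

/-- The code of a position. -/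
def code (u v r s x y : ℕ) : ℕ := u + 16 * (v + 16 * (r + 16 * (s + 16 * (x + 16 * y))))

theorem decode {u v r s x y : ℕ} (hu : u < 16) (hv : v < 16) (hr : r < 16) (hs : s < 16)
    (hx : x < 16) (hy : y < 16) :
    code u v r s x y % 16 = u ∧ code u v r s x y / 16 % 16 = v ∧
    code u v r s x y / 256 % 16 = r ∧ code u v r s x y / 4096 % 16 = s ∧
    code u v r s x y / 65536 % 16 = x ∧ code u v r s x y / 1048576 % 16 = y := by
  unfold code
  refine ⟨?_, ?_, ?_, ?_, ?_, ?_⟩ <;> omega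

end Pool.Agent.R186.KRK
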