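import Pool.Agent.R186.KRK.Bool

/-!
# Checking a safe set for Black on the board with 10 files and 10 ranks
-/

set_option autoImplicit false

namespace Pool.Agent.R186.KRK

/-- the reply is legal on the 10 x 10 board -/
def legalS (u v r s px py : ℕ) : Bool :=
  Nat.ble 1 px && (Nat.ble px 10 && (Nat.ble 1 py && (Nat.ble py 10 &&
    (!(nearB u v px py) && !(attB u v r s px py)))))

/-- the position (White to move) is safe -/
def safeS (T : NatTree) (u v r s x y : ℕ) : Bool :=
  (Nat.beq x 10 || Nat.ble (v + 12) (x + y)) || ((Nat.beq y 10 || Nat.ble (u + 12) (x + y)) ||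
    T.mem (code u v r s x y))

/-- the reply is legal and leads to a safe position or captures the rook -/
def repS (T : NatTree) (u v r s px py : ℕ) : Bool :=
  legalS u v r s px py && (sqB px py r s || safeS T u v r s px py)

/-- Black to move is fine -/
def blackS (T : NatTree) (u v r s x y : ℕ) : Bool :=
  Nat.beq x 10 || (Nat.beq y 10 || (any8 (repS T u v r s) x y ||
    (!(attB u v r s x y) && !(any8 (legalS u v r s) x y))))

/-- `f` holds for `1, ..., 10` -/
def all10 (f : ℕ → Bool) : Bool :=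
  f 1 && (f 2 && (f 3 && (f 4 && (f 5 && (f 6 && (f 7 && (f 8 && (f 9 && f 10))))))))

theorem all10_spec {f : ℕ → Bool} (h : all10 f = true) {t : ℕ} (h1 : 1 ≤ t) (h2 : t ≤ 10) :
    f t = true := by
  unfold all10 at h
  simp only [Bool.and_eq_true] at h
  obtain ⟨a1, a2, a3, a4, a5, a6, a7, a8, a9, a10⟩ := h
  have : t = 1 ∨ t = 2 ∨ t = 3 ∨ t = 4 ∨ t = 5 ∨ t = 6 ∨ t = 7 ∨ t = 8 ∨ t = 9 ∨ t = 10 := by
    omega
  rcases this with rfl | rfl | rfl | rfl | rfl | rfl | rfl | rfl | rfl | rfl <;> assumption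

/-- all king moves of White are fine -/
def kingS (T : NatTree) (r s x y tx ty : ℕ) : Bool :=
  !(Nat.ble 1 tx && (Nat.ble tx 10 && (Nat.ble 1 ty && (Nat.ble ty 10 &&
    (!(sqB tx ty r s) && !(nearB tx ty x y)))))) || blackS T tx ty r s x y

/-- the rook move to `(tx, ty)` is fine -/
def rookS (T : NatTree) (u v r s x y tx ty : ℕ) : Bool :=
  !(clearB u v x y r s tx ty && (!(sqB tx ty u v) && !(sqB tx ty x y))) ||
    blackS T u v tx ty x y

/-- White to move: all moves are fine -/
def whiteS (T : NatTree) (u v r s x y : ℕ) : Bool :=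
  all8 (kingS T r s x y) u v &&
    (all10 (fun tx => rookS T u v r s x y tx s) && all10 (fun ty => rookS T u v r s x y r ty))

/-- the check of a table entry -/
def chkS (T : NatTree) (key : ℕ) : Bool :=
  whiteS T (key % 16) (key / 16 % 16) (key / 256 % 16) (key / 4096 % 16) (key / 65536 % 16)
    (key / 1048576 % 16)

theorem onBoard_10 {x y : ℕ} : OnBoard 10 10 (x, y) ↔ 1 ≤ x ∧ x ≤ 10 ∧ 1 ≤ y ∧ y ≤ 10 := by
  unfold OnBoard
  simp only
  constructor
  · rintro ⟨h1, h2, h3, h4⟩
    exact ⟨h1, by exact_mod_cast h2, h3, by exact_mod_cast h4⟩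
  · rintro ⟨h1, h2, h3, h4⟩
    exact ⟨h1, by exact_mod_cast h2, h3, by exact_mod_cast h4⟩

theorem legalS_iff {u v r s x y px py : ℕ} (h1 : Near (x, y) (px, py))
    (h2 : (px, py) ≠ (x, y)) : legalS u v r s px py = true ↔
    BMove 10 10 ⟨(u, v), (r, s), (x, y)⟩ (px, py) := by
  unfold legalS BMove
  rw [onBoard_10]
  simp only [Bool.and_eq_true, Nat.ble_eq, not_iff_false, nearB_iff, attB_iff]
  tauto

/-- The safe positions. -/
def Safe10 (T : NatTree) (p : Pos) : Prop :=
  (OnBoard 10 10 p.wk ∧ OnBoard 10 10 p.wr ∧ OnBoard 10 10 p.bk) ∧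
    (East 10 p ∨ East 10 (trp p) ∨
      T.mem (code p.wk.1 p.wk.2 p.wr.1 p.wr.2 p.bk.1 p.bk.2) = true)

theorem safeS_iff {T : NatTree} {u v r s x y : ℕ} (h : safeS T u v r s x y = true) :
    East 10 ⟨(u, v), (r, s), (x, y)⟩ ∨ East 10 (trp ⟨(u, v), (r, s), (x, y)⟩) ∨
      T.mem (code u v r s x y) = true := by
  unfold safeS at h
  simp only [Bool.or_eq_true, Nat.ble_eq, beq_iff] at h
  rcases h with h | h | h
  · left
    rcases h with h | h
    · exact Or.inl h
    · exact Or.inr (by simpa using h)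
  · right; left
    rcases h with h | h
    · exact Or.inl h
    · refine Or.inr ?_
      simp only [trp, tr]
      omega
  · exact Or.inr (Or.inr h)

theorem blackS_spec {T : NatTree} {u v r s x y : ℕ} (h : blackS T u v r s x y = true)
    (hk : OnBoard 10 10 (u, v)) (hr : OnBoard 10 10 (r, s)) (hb : OnBoard 10 10 (x, y)) :
    Reply 10 10 (Safe10 T) ⟨(u, v), (r, s), (x, y)⟩ := by
  unfold blackS at h
  simp only [Bool.or_eq_true, Bool.and_eq_true, beq_iff, not_iff_false] at h
  rcases h with h | h | h | ⟨h1, h2⟩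
  · left; left
    simp only
    exact_mod_cast h
  · left; right
    simp only
    exact_mod_cast h
  · right; right
    obtain ⟨px, py, h1, h2, h3⟩ := any8_spec hb.1 hb.2.2.1 h
    unfold repS at h1
    simp only [Bool.and_eq_true, Bool.or_eq_true, sqB_iff] at h1
    have h4 := (legalS_iff h2 h3).1 h1.1
    refine ⟨(px, py), h4, ?_⟩
    rcases h1.2 with h5 | h5
    · exact Or.inl h5
    · exact Or.inr ⟨⟨hk, hr, h4.1⟩, safeS_iff h5⟩
  · right; left
    refine ⟨fun h => h1 (attB_iff.2 h), ?_⟩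
    rintro ⟨px, py⟩ ht
    apply h2
    -- some neighbour is legal
    have hleg := (legalS_iff ht.2.1 ht.2.2.1).2 ht
    have hb' := onBoard_10.1 hb
    have ht' := onBoard_10.1 ht.1
    have hn := ht.2.1
    unfold Near at hn
    simp only at hn
    have hne := ht.2.2.1
    have hx : px = x - 1 ∨ px = x ∨ px = x + 1 := by omega
    have hy : py = y - 1 ∨ py = y ∨ py = y + 1 := by omega
    unfold any8
    simp only [Bool.or_eq_true]
    rcases hx with rfl | rfl | rfl <;> rcases hy with rfl | rfl | rfl <;>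
      first
        | exact absurd rfl hne
        | tauto

theorem safe10_closed {T : NatTree} (hT : T.all (chkS T) = true) (p q : Pos)
    (hp : Safe10 T p) (hq : WMove 10 10 p q) : Reply 10 10 (Safe10 T) q := by
  obtain ⟨⟨hk, hr, hb⟩, hp⟩ := hp
  have hon : OnBoard 10 10 q.wk ∧ OnBoard 10 10 q.wr ∧ OnBoard 10 10 q.bk := by
    rcases hq with ⟨t, h1, _, _, _, _, rfl⟩ | ⟨t, h1, _, _, _, rfl⟩
    · exact ⟨h1, hr, hb⟩
    · exact ⟨hk, h1, hb⟩
  rcases hp with hp | hp | hp
  · rcases east_reply (m := 10) (n := 10) (by exact hb) hp hq with h | ⟨t, h1, h2⟩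
    · exact Or.inl h
    · refine Or.inr (Or.inr ⟨t, h1, ?_⟩)
      rcases h2 with h2 | h2
      · exact Or.inl h2
      · exact Or.inr ⟨⟨hon.1, hon.2.1, h1.1⟩, Or.inl h2⟩
  · rcases east_reply (m := 10) (n := 10) (onBoard_tr hb) hp (wmove_tr hq) with h | ⟨t, h1, h2⟩
    · exact Or.inl (canLeave_tr h)
    · refine Or.inr (Or.inr ⟨tr t, bmove_tr h1, ?_⟩)
      rcases h2 with h2 | h2
      · left
        rw [h2]
        rfl
      · exact Or.inr ⟨⟨hon.1, hon.2.1, onBoard_tr h1.1⟩, Or.inr (Or.inl h2)⟩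
  · obtain ⟨wk, wr, bk⟩ := p
    obtain ⟨u, v⟩ := wk
    obtain ⟨r, s⟩ := wr
    obtain ⟨x, y⟩ := bk
    simp only at *
    have hk' := onBoard_10.1 hk
    have hr' := onBoard_10.1 hr
    have hb' := onBoard_10.1 hb
    have hc := NatTree.of_all hT hp
    unfold chkS at hc
    obtain ⟨e1, e2, e3, e4, e5, e6⟩ := decode (u := u) (v := v) (r := r) (s := s) (x := x)
      (y := y) (by omega) (by omega) (by omega) (by omega) (by omega) (by omega)
    rw [e1, e2, e3, e4, e5, e6] at hc
    unfold whiteS at hc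
    simp only [Bool.and_eq_true] at hc
    obtain ⟨c1, c2, c3⟩ := hc
    rcases hq with ⟨t, h1, h2, h3, h4, h5, rfl⟩ | ⟨t, h1, h2, h3, h4, rfl⟩
    · obtain ⟨tx, ty⟩ := t
      simp only at *
      have ht' := onBoard_10.1 h1
      have := all8_spec c1 ht'.1 ht'.2.2.1 h2 h3
      unfold kingS at this
      simp only [Bool.or_eq_true, not_iff_false, Bool.and_eq_true, Nat.ble_eq, sqB_iff,
        nearB_iff] at this
      rcases this with h6 | h6
      · exfalso
        exact h6 ⟨ht'.1, ht'.2.1, ht'.2.2.1, ht'.2.2.2, h4, h5⟩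
      · exact blackS_spec h6 h1 hr hb
    · obtain ⟨tx, ty⟩ := t
      simp only at *
      have ht' := onBoard_10.1 h1
      have hcl := h2
      have hr6 : rookS T u v r s x y tx ty = true := by
        rcases h2 with ⟨g1, _⟩ | ⟨g1, _⟩
        · simp only at g1
          subst g1
          exact all10_spec c3 ht'.2.2.1 ht'.2.2.2
        · simp only at g1
          subst g1
          exact all10_spec c2 ht'.1 ht'.2.1
      unfold rookS at hr6
      simp only [Bool.or_eq_true, not_iff_false, Bool.and_eq_true, sqB_iff, clearB_iff] at hr6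
      rcases hr6 with h6 | h6
      · exfalso
        exact h6 ⟨hcl, h3, h4⟩
      · exact blackS_spec h6 hk h1 hb

theorem no_win_10 {T : NatTree} (hT : T.all (chkS T) = true)
    (hst : T.mem (code 1 1 2 2 3 3) = true) (k : ℕ) : ¬ WinsIn 10 10 k start := by
  refine not_winsIn_of_safe (Safe10 T) (safe10_closed hT) k start ⟨⟨?_, ?_, ?_⟩, ?_⟩
  · exact onBoard_10.2 (by decide)
  · exact onBoard_10.2 (by decide)
  · exact onBoard_10.2 (by decide)
  · exact Or.inr (Or.inr hst)

end Pool.Agent.R186.KRK
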