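import Pool.Agent.R186.NatTree

/-!
# A safe set for Black on the board with 10 files and 10 ranks (data)
-/

set_option autoImplicit false
set_option maxRecDepth 100000

namespace Pool.Agent.R186.KRK.SafeData

open Pool.Agent.R186

def c0 : NatTree := (.node (.node (.node (.node (.node (.node (.node (.node .leaf 2707794 .leaf) 3351057 .leaf) 3690769 (.node (.node .leaf 3690770 .leaf) 3690771 .leaf)) 3690772 (.node (.node (.node .leaf 3690785 .leaf) 3690801 .leaf) 3690817 (.node .leaf 3691025 .leaf))) 3691026 (.node (.node (.node (.node .leaf 3691027 .leaf) 3691028 .leaf) 3691029 (.node (.node .leaf 3691041 .leaf) 3691057 .leaf)) 3691073 (.node (.node (.node .leaf 3691089 .leaf) 3691281 .leaf) 3691282 (.node .leaf 3691283 .leaf)))) 3691284 (.node (.node (.node (.node (.node .leaf 3691297 .leaf) 3691313 .leaf) 3691329 (.node (.node .leaf 3691537 .leaf) 3691538 .leaf)) 3691539 (.node (.node (.node .leaf 3691540 .leaf) 3691553 .leaf) 3691569 (.node .leaf 3691585 .leaf))) 3691793 (.node (.node (.node (.node .leaf 3691794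 .leaf) 3691795 .leaf) 3691796 (.node .leaf 3691809 .leaf)) 3691825 (.node (.node (.node .leaf 3691841 .leaf) 3693073 .leaf) 3693074 (.node .leaf 3693075 .leaf))))) 3693076 (.node (.node (.node (.node (.node (.node .leaf 3693089 .leaf) 3693105 .leaf) 3693121 (.node (.node .leaf 3744051 .leaf) 3744052 .leaf)) 3744067 (.node (.node (.node .leaf 3744068 .leaf) 3744308 .leaf) 3744309 (.node .leaf 3744323 .leaf))) 3744325 (.node (.node (.node (.node .leaf 3744339 .leaf) 3744564 .leaf) 3744580 (.node .leaf 3744835 .leaf)) 3745075 (.node (.node (.node .leaf 3745076 .leaf) 3745091 .leaf) 3745092 (.node .leaf 3748147 .leaf)))) 3748148 (.node (.node (.node (.node (.node .leaf 3748403 .leaf) 3748404 .leaf) 3748405 (.node (.node .leaf 3748660 .leaf) 3752209 .leaf)) 3752210 (.node (.node (.node .leaf 3752211 .leaf) 3752212 .leaf) 3752225 (.node .leaf 3752241 .leaf))) 3752243 (.node (.node (.node (.node .leaf 3752244 .leaf) 3752259 .leaf) 3752260 (.node .leaf 3752465 .leaf)) 3752466 (.node (.node (.node .leaf 3752467 .leaf) 3752468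 .leaf) 3752469 (.node .leaf 3752481 .leaf)))))) 3752497 (.node (.node (.node (.node (.node (.node (.node .leaf 3752499 .leaf) 3752500 .leaf) 3752501 (.node (.node .leaf 3752513 .leaf) 3752515 .leaf)) 3752517 (.node (.node (.node .leaf 3752529 .leaf) 3752531 .leaf) 3752721 (.node .leaf 3752722 .leaf))) 3752723 (.node (.node (.node (.node .leaf 3752724 .leaf) 3752737 .leaf) 3752753 (.node (.node .leaf 3752756 .leaf) 3752769 .leaf)) 3752772 (.node (.node (.node .leaf 3752977 .leaf) 3752978 .leaf) 3752979 (.node .leaf 3752980 .leaf)))) 3752993 (.node (.node (.node (.node (.node .leaf 3753009 .leaf) 3753012 .leaf) 3753025 (.node (.node .leaf 3753027 .leaf) 3753233 .leaf)) 3753234 (.node (.node (.node .leaf 3753235 .leaf) 3753236 .leaf) 3753249 (.node .leaf 3753265 .leaf))) 3753267 (.node (.node (.node (.node .leaf 3753268 .leaf) 3753281 .leaf) 3753283 (.node .leaf 3753284 .leaf)) 3754513 (.node (.node (.node .leaf 3754514 .leaf) 3754515 .leaf) 3754516 (.node .leaf 3754529 .leaf))))) 3754545 (.node (.node (.node (.node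 (.node (.node .leaf 3754561 .leaf) 3756371 .leaf) 3756372 (.node (.node .leaf 3756373 .leaf) 3756627 .leaf)) 3756630 (.node (.node (.node .leaf 3756884 .leaf) 3756885 .leaf) 3757141 (.node .leaf 3760739 .leaf))) 4461073 (.node (.node (.node (.node .leaf 4464913 .leaf) 4465170 .leaf) 4465185 (.node .leaf 4465937 .leaf)) 4466193 (.node (.node (.node .leaf 4466449 .leaf) 4466705 .leaf) 4466961 (.node .leaf 4467217 .leaf)))) 4477457 (.node (.node (.node (.node (.node .leaf 4481553 .leaf) 4485649 .leaf) 4489745 (.node (.node .leaf 4493841 .leaf) 4497937 .leaf)) 4542737 (.node (.node (.node .leaf 4542993 .leaf) 4542994 .leaf) 4543009 (.node .leaf 4543010 .leaf))) 4544017 (.node (.node (.node (.node .leaf 4544273 .leaf) 4544529 .leaf) 4544785 (.node .leaf 4545041 .leaf)) 4608273 (.node (.node (.node .leaf 4608274 .leaf) 4608289 .leaf) 4608290 (.node .leaf 4608529 .leaf)))))))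

def c1 : NatTree := (.node (.node (.node (.node (.node (.node (.node (.node .leaf 4608531 .leaf) 4608545 .leaf) 4608546 (.node (.node .leaf 4608547 .leaf) 4608561 .leaf)) 4608562 (.node (.node (.node .leaf 4608563 .leaf) 4608785 .leaf) 4608786 (.node .leaf 4608801 .leaf))) 4608802 (.node (.node (.node (.node .leaf 4609809 .leaf) 4609810 .leaf) 4609825 (.node (.node .leaf 4609826 .leaf) 4610065 .leaf)) 4610066 (.node (.node (.node .leaf 4610081 .leaf) 4610082 .leaf) 4610321 (.node .leaf 4610322 .leaf)))) 4610337 (.node (.node (.node (.node (.node .leaf 4610338 .leaf) 4610577 .leaf) 4610578 (.node (.node .leaf 4610593 .leaf) 4610594 .leaf)) 4673809 (.node (.node (.node .leaf 4673810 .leaf) 4673811 .leaf) 4673825 (.node .leaf 4673826 .leaf))) 4673827 (.node (.node (.node (.node .leaf 4673841 .leaf) 4673842 .leaf) 4673843 (.node .leaf 4674065 .leaf)) 4674066 (.node (.node (.node .leaf 4674067 .leaf) 4674068 .leaf) 4674081 (.node .leaf 4674082 .leaf))))) 4674083 (.node (.node (.node (.node (.node (.node .leaf 4674084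 .leaf) 4674097 .leaf) 4674098 (.node (.node .leaf 4674099 .leaf) 4674100 .leaf)) 4674113 (.node (.node (.node .leaf 4674114 .leaf) 4674115 .leaf) 4674116 (.node .leaf 4674321 .leaf))) 4674322 (.node (.node (.node (.node .leaf 4674323 .leaf) 4674337 .leaf) 4674338 (.node .leaf 4674339 .leaf)) 4674353 (.node (.node (.node .leaf 4674354 .leaf) 4674355 .leaf) 4674577 (.node .leaf 4674578 .leaf)))) 4674579 (.node (.node (.node (.node (.node .leaf 4674593 .leaf) 4674594 .leaf) 4674595 (.node (.node .leaf 4674609 .leaf) 4674610 .leaf)) 4674611 (.node (.node (.node .leaf 4675601 .leaf) 4675602 .leaf) 4675603 (.node .leaf 4675617 .leaf))) 4675618 (.node (.node (.node (.node .leaf 4675619 .leaf) 4675633 .leaf) 4675634 (.node .leaf 4675635 .leaf)) 4675857 (.node (.node (.node .leaf 4675858 .leaf) 4675859 .leaf) 4675873 (.node .leaf 4675874 .leaf)))))) 4675875 (.node (.node (.node (.node (.node (.node (.node .leaf 4675889 .leaf) 4675890 .leaf) 4675891 (.node (.node .leaf 4676113 .leaf) 4676114 .leaf)) 4676115 (.node (.node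 (.node .leaf 4676129 .leaf) 4676130 .leaf) 4676131 (.node .leaf 4676145 .leaf))) 4676146 (.node (.node (.node (.node .leaf 4676147 .leaf) 4677905 .leaf) 4677906 (.node (.node .leaf 4677907 .leaf) 4677921 .leaf)) 4677937 (.node (.node (.node .leaf 4678161 .leaf) 4678162 .leaf) 4678163 (.node .leaf 4678164 .leaf)))) 4678177 (.node (.node (.node (.node (.node .leaf 4678193 .leaf) 4678209 .leaf) 4678417 (.node (.node .leaf 4678418 .leaf) 4678419 .leaf)) 4678433 (.node (.node (.node .leaf 4678449 .leaf) 4678673 .leaf) 4678674 (.node .leaf 4678675 .leaf))) 4678689 (.node (.node (.node (.node .leaf 4678705 .leaf) 4679953 .leaf) 4679954 (.node .leaf 4679955 .leaf)) 4679969 (.node (.node (.node .leaf 4679985 .leaf) 4680209 .leaf) 4680210 (.node .leaf 4680211 .leaf))))) 4680225 (.node (.node (.node (.node (.node (.node .leaf 4680241 .leaf) 4731187 .leaf) 4731444 (.node (.node .leaf 4735555 .leaf) 4739362 .leaf)) 4739363 (.node (.node (.node .leaf 4739364 .leaf) 4739378 .leaf) 4739379 (.node .leaf 4739380 .leaf))) 4739394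 (.node (.node (.node (.node .leaf 4739395 .leaf) 4739396 .leaf) 4739618 (.node .leaf 4739619 .leaf)) 4739620 (.node (.node (.node .leaf 4739621 .leaf) 4739634 .leaf) 4739635 (.node .leaf 4739636 .leaf)))) 4739637 (.node (.node (.node (.node (.node .leaf 4739650 .leaf) 4739651 .leaf) 4739652 (.node (.node .leaf 4739653 .leaf) 4739667 .leaf)) 4739874 (.node (.node (.node .leaf 4739875 .leaf) 4739876 .leaf) 4739890 (.node .leaf 4739891 .leaf))) 4739892 (.node (.node (.node (.node .leaf 4739906 .leaf) 4739907 .leaf) 4739908 (.node .leaf 4740130 .leaf)) 4740131 (.node (.node (.node .leaf 4740132 .leaf) 4740146 .leaf) 4740147 (.node .leaf 4740148 .leaf)))))))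

def c2 : NatTree := (.node (.node (.node (.node (.node (.node (.node (.node .leaf 4740163 .leaf) 4740164 .leaf) 4740386 (.node (.node .leaf 4740387 .leaf) 4740388 .leaf)) 4740402 (.node (.node (.node .leaf 4740403 .leaf) 4740404 .leaf) 4740418 (.node .leaf 4740419 .leaf))) 4740420 (.node (.node (.node (.node .leaf 4741393 .leaf) 4741394 .leaf) 4741395 (.node (.node .leaf 4741396 .leaf) 4741397 .leaf)) 4741409 (.node (.node (.node .leaf 4741410 .leaf) 4741411 .leaf) 4741412 (.node .leaf 4741425 .leaf)))) 4741426 (.node (.node (.node (.node (.node .leaf 4741427 .leaf) 4741428 .leaf) 4741441 (.node (.node .leaf 4741442 .leaf) 4741443 .leaf)) 4741444 (.node (.node (.node .leaf 4741457 .leaf) 4741666 .leaf) 4741667 (.node .leaf 4741668 .leaf))) 4741682 (.node (.node (.node (.node .leaf 4741683 .leaf) 4741684 .leaf) 4741698 (.node .leaf 4741699 .leaf)) 4741700 (.node (.node (.node .leaf 4743458 .leaf) 4743459 .leaf) 4743460 (.node .leaf 4743474 .leaf))))) 4743490 (.node (.node (.node (.node (.node (.node .leaf 4743714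 .leaf) 4743715 .leaf) 4743716 (.node (.node .leaf 4743717 .leaf) 4743730 .leaf)) 4743746 (.node (.node (.node .leaf 4743762 .leaf) 4743970 .leaf) 4743971 (.node .leaf 4743972 .leaf))) 4743986 (.node (.node (.node (.node .leaf 4744002 .leaf) 4744226 .leaf) 4744227 (.node .leaf 4744228 .leaf)) 4744242 (.node (.node (.node .leaf 4744258 .leaf) 4744482 .leaf) 4744483 (.node .leaf 4744484 .leaf)))) 4744498 (.node (.node (.node (.node (.node .leaf 4744514 .leaf) 4745762 .leaf) 4745763 (.node (.node .leaf 4745764 .leaf) 4745778 .leaf)) 4745794 (.node (.node (.node .leaf 4796739 .leaf) 4796740 .leaf) 4796995 (.node .leaf 4796996 .leaf))) 4796997 (.node (.node (.node (.node .leaf 4797011 .leaf) 4797012 .leaf) 4797013 (.node .leaf 4797252 .leaf)) 4797507 (.node (.node (.node .leaf 4797747 .leaf) 4797748 .leaf) 4797763 (.node .leaf 4797764 .leaf)))))) 4798020 (.node (.node (.node (.node (.node (.node (.node .leaf 4798276 .leaf) 4798532 .leaf) 4800836 (.node (.node .leaf 4801092 .leaf) 4801093 .leaf)) 4801348 (.node (.node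 (.node .leaf 4804898 .leaf) 4804899 .leaf) 4804900 (.node .leaf 4804901 .leaf))) 4804914 (.node (.node (.node (.node .leaf 4804915 .leaf) 4804916 .leaf) 4804917 (.node (.node .leaf 4804930 .leaf) 4804931 .leaf)) 4804932 (.node (.node (.node .leaf 4804933 .leaf) 4804948 .leaf) 4804949 (.node .leaf 4805154 .leaf)))) 4805155 (.node (.node (.node (.node (.node .leaf 4805156 .leaf) 4805157 .leaf) 4805158 (.node (.node .leaf 4805170 .leaf) 4805171 .leaf)) 4805172 (.node (.node (.node .leaf 4805173 .leaf) 4805174 .leaf) 4805186 (.node .leaf 4805187 .leaf))) 4805188 (.node (.node (.node (.node .leaf 4805189 .leaf) 4805190 .leaf) 4805204 (.node .leaf 4805205 .leaf)) 4805206 (.node (.node (.node .leaf 4805218 .leaf) 4805219 .leaf) 4805220 (.node .leaf 4805221 .leaf))))) 4805222 (.node (.node (.node (.node (.node (.node .leaf 4805410 .leaf) 4805411 .leaf) 4805412 (.node (.node .leaf 4805413 .leaf) 4805426 .leaf)) 4805427 (.node (.node (.node .leaf 4805428 .leaf) 4805429 .leaf) 4805442 (.node .leaf 4805443 .leaf))) 4805444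 (.node (.node (.node (.node .leaf 4805445 .leaf) 4805458 .leaf) 4805460 (.node .leaf 4805461 .leaf)) 4805666 (.node (.node (.node .leaf 4805667 .leaf) 4805668 .leaf) 4805669 (.node .leaf 4805682 .leaf)))) 4805683 (.node (.node (.node (.node (.node .leaf 4805684 .leaf) 4805685 .leaf) 4805698 (.node (.node .leaf 4805699 .leaf) 4805700 .leaf)) 4805701 (.node (.node (.node .leaf 4805714 .leaf) 4805715 .leaf) 4805717 (.node .leaf 4805922 .leaf))) 4805923 (.node (.node (.node (.node .leaf 4805924 .leaf) 4805925 .leaf) 4805938 (.node .leaf 4805939 .leaf)) 4805940 (.node (.node (.node .leaf 4805941 .leaf) 4805954 .leaf) 4805955 (.node .leaf 4805956 .leaf)))))))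

def c3 : NatTree := (.node (.node (.node (.node (.node (.node (.node (.node .leaf 4805970 .leaf) 4805971 .leaf) 4805972 (.node (.node .leaf 4806178 .leaf) 4806179 .leaf)) 4806180 (.node (.node (.node .leaf 4806181 .leaf) 4806194 .leaf) 4806195 (.node .leaf 4806196 .leaf))) 4806197 (.node (.node (.node (.node .leaf 4806210 .leaf) 4806211 .leaf) 4806212 (.node (.node .leaf 4806213 .leaf) 4807202 .leaf)) 4807203 (.node (.node (.node .leaf 4807204 .leaf) 4807205 .leaf) 4807218 (.node .leaf 4807219 .leaf)))) 4807220 (.node (.node (.node (.node (.node .leaf 4807221 .leaf) 4807234 .leaf) 4807235 (.node (.node .leaf 4807236 .leaf) 4807237 .leaf)) 4807250 (.node (.node (.node .leaf 4807251 .leaf) 4807252 .leaf) 4807253 (.node .leaf 4809316 .leaf))) 4809317 (.node (.node (.node (.node .leaf 4809318 .leaf) 5510417 .leaf) 5514513 (.node .leaf 5514514 .leaf)) 5514529 (.node (.node (.node .leaf 5514530 .leaf) 5530897 .leaf) 5534993 (.node .leaf 5539089 .leaf))))) 5543185 (.node (.node (.node (.node (.node (.node .leaf 5547281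 .leaf) 5575185 .leaf) 5575201 (.node (.node .leaf 5575202 .leaf) 5575441 .leaf)) 5575697 (.node (.node (.node .leaf 5576209 .leaf) 5576465 .leaf) 5576721 (.node .leaf 5576977 .leaf))) 5577233 (.node (.node (.node (.node .leaf 5579025 .leaf) 5579026 .leaf) 5579042 (.node .leaf 5579281 .leaf)) 5579282 (.node (.node (.node .leaf 5579283 .leaf) 5579297 .leaf) 5579299 (.node .leaf 5579313 .leaf)))) 5579314 (.node (.node (.node (.node (.node .leaf 5579537 .leaf) 5579538 .leaf) 5579553 (.node (.node .leaf 5579793 .leaf) 5579794 .leaf)) 5579809 (.node (.node (.node .leaf 5580305 .leaf) 5580306 .leaf) 5580321 (.node .leaf 5580322 .leaf))) 5580561 (.node (.node (.node (.node .leaf 5580562 .leaf) 5580577 .leaf) 5580578 (.node .leaf 5580817 .leaf)) 5580818 (.node (.node (.node .leaf 5580833 .leaf) 5580834 .leaf) 5581073 (.node .leaf 5581074 .leaf)))))) 5581089 (.node (.node (.node (.node (.node (.node (.node .leaf 5581090 .leaf) 5581329 .leaf) 5581330 (.node (.node .leaf 5581345 .leaf) 5581346 .leaf)) 5583121 (.node (.node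 (.node .leaf 5583377 .leaf) 5583378 .leaf) 5583393 (.node .leaf 5584401 .leaf))) 5584657 (.node (.node (.node (.node .leaf 5584913 .leaf) 5585169 .leaf) 5585425 (.node (.node .leaf 5587217 .leaf) 5587473 .leaf)) 5587474 (.node (.node (.node .leaf 5587489 .leaf) 5588497 .leaf) 5588753 (.node .leaf 5589009 .leaf)))) 5589265 (.node (.node (.node (.node (.node .leaf 5589521 .leaf) 5595409 .leaf) 5595665 (.node (.node .leaf 5595666 .leaf) 5595681 .leaf)) 5595682 (.node (.node (.node .leaf 5595921 .leaf) 5596177 .leaf) 5596689 (.node .leaf 5596945 .leaf))) 5597201 (.node (.node (.node (.node .leaf 5597457 .leaf) 5597713 .leaf) 5599505 (.node .leaf 5599761 .leaf)) 5599762 (.node (.node (.node .leaf 5599777 .leaf) 5599778 .leaf) 5600017 (.node .leaf 5600273 .leaf))))) 5600785 (.node (.node (.node (.node (.node (.node .leaf 5601041 .leaf) 5601297 .leaf) 5601553 (.node (.node .leaf 5601809 .leaf) 5603601 .leaf)) 5603857 (.node (.node (.node .leaf 5603858 .leaf) 5603873 .leaf) 5603874 (.node .leaf 5604113 .leaf))) 5604369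 (.node (.node (.node (.node .leaf 5604881 .leaf) 5605137 .leaf) 5605393 (.node .leaf 5605649 .leaf)) 5605905 (.node (.node (.node .leaf 5607697 .leaf) 5607953 .leaf) 5607954 (.node .leaf 5607969 .leaf)))) 5607970 (.node (.node (.node (.node (.node .leaf 5608209 .leaf) 5608465 .leaf) 5608977 (.node (.node .leaf 5609233 .leaf) 5609489 .leaf)) 5609745 (.node (.node (.node .leaf 5610001 .leaf) 5611793 .leaf) 5612049 (.node .leaf 5612050 .leaf))) 5612065 (.node (.node (.node (.node .leaf 5612066 .leaf) 5612305 .leaf) 5612561 (.node .leaf 5613073 .leaf)) 5613329 (.node (.node (.node .leaf 5613585 .leaf) 5613841 .leaf) 5614097 (.node .leaf 5640482 .leaf)))))))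

def c4 : NatTree := (.node (.node (.node (.node (.node (.node (.node (.node .leaf 5640994 .leaf) 5642002 .leaf) 5642017 (.node (.node .leaf 5642018 .leaf) 5642257 .leaf)) 5642258 (.node (.node (.node .leaf 5642259 .leaf) 5642273 .leaf) 5642289 (.node .leaf 5645090 .leaf))) 5646114 (.node (.node (.node (.node .leaf 5646353 .leaf) 5646354 .leaf) 5646355 (.node (.node .leaf 5646369 .leaf) 5646385 .leaf)) 5648674 (.node (.node (.node .leaf 5648930 .leaf) 5648931 .leaf) 5649186 (.node .leaf 5650450 .leaf)))) 5650465 (.node (.node (.node (.node (.node .leaf 5653026 .leaf) 5660945 .leaf) 5660946 (.node (.node .leaf 5660961 .leaf) 5660962 .leaf)) 5661201 (.node (.node (.node .leaf 5661202 .leaf) 5661203 .leaf) 5661217 (.node .leaf 5661218 .leaf))) 5661219 (.node (.node (.node (.node .leaf 5661233 .leaf) 5661234 .leaf) 5661235 (.node .leaf 5661457 .leaf)) 5661458 (.node (.node (.node .leaf 5661473 .leaf) 5661474 .leaf) 5662481 (.node .leaf 5662482 .leaf))))) 5662497 (.node (.node (.node (.node (.node (.node .leaf 5662498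 .leaf) 5662737 .leaf) 5662738 (.node (.node .leaf 5662753 .leaf) 5662754 .leaf)) 5662993 (.node (.node (.node .leaf 5662994 .leaf) 5663009 .leaf) 5663010 (.node .leaf 5663249 .leaf))) 5663250 (.node (.node (.node (.node .leaf 5663265 .leaf) 5663266 .leaf) 5665041 (.node .leaf 5665042 .leaf)) 5665043 (.node (.node (.node .leaf 5665057 .leaf) 5665073 .leaf) 5665297 (.node .leaf 5665298 .leaf)))) 5665299 (.node (.node (.node (.node (.node .leaf 5665313 .leaf) 5665329 .leaf) 5665553 (.node (.node .leaf 5665554 .leaf) 5665569 .leaf)) 5665809 (.node (.node (.node .leaf 5665810 .leaf) 5665825 .leaf) 5666578 (.node .leaf 5666593 .leaf))) 5666594 (.node (.node (.node (.node .leaf 5666833 .leaf) 5666834 .leaf) 5666835 (.node .leaf 5666849 .leaf)) 5666865 (.node (.node (.node .leaf 5667089 .leaf) 5667090 .leaf) 5667091 (.node .leaf 5667105 .leaf)))))) 5667121 (.node (.node (.node (.node (.node (.node (.node .leaf 5667345 .leaf) 5667346 .leaf) 5667347 (.node (.node .leaf 5667361 .leaf) 5667377 .leaf)) 5670674 (.node (.node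 (.node .leaf 5670689 .leaf) 5670690 .leaf) 5670929 (.node .leaf 5670930 .leaf))) 5670931 (.node (.node (.node (.node .leaf 5670945 .leaf) 5670961 .leaf) 5674770 (.node (.node .leaf 5674785 .leaf) 5674786 .leaf)) 5675025 (.node (.node (.node .leaf 5675026 .leaf) 5675027 .leaf) 5675041 (.node .leaf 5675057 .leaf)))) 5678865 (.node (.node (.node (.node (.node .leaf 5678866 .leaf) 5678881 .leaf) 5678882 (.node (.node .leaf 5679121 .leaf) 5679122 .leaf)) 5679123 (.node (.node (.node .leaf 5679137 .leaf) 5679153 .leaf) 5706002 (.node .leaf 5706035 .leaf))) 5706259 (.node (.node (.node (.node .leaf 5706289 .leaf) 5706291 .leaf) 5706292 (.node .leaf 5706307 .leaf)) 5706514 (.node (.node (.node .leaf 5706529 .leaf) 5706803 .leaf) 5707810 (.node .leaf 5707811 .leaf))))) 5707826 (.node (.node (.node (.node (.node (.node .leaf 5707827 .leaf) 5708050 .leaf) 5708065 (.node (.node .leaf 5708066 .leaf) 5708067 .leaf)) 5708068 (.node (.node (.node .leaf 5708082 .leaf) 5708098 .leaf) 5708305 (.node .leaf 5708306 .leaf))) 5708321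 (.node (.node (.node (.node .leaf 5708322 .leaf) 5710114 .leaf) 5710131 (.node .leaf 5710371 .leaf)) 5710387 (.node (.node (.node .leaf 5710388 .leaf) 5710403 .leaf) 5710899 (.node .leaf 5711906 .leaf)))) 5711907 (.node (.node (.node (.node (.node .leaf 5711922 .leaf) 5711923 .leaf) 5712162 (.node (.node .leaf 5712163 .leaf) 5712164 .leaf)) 5712178 (.node (.node (.node .leaf 5712194 .leaf) 5712401 .leaf) 5712402 (.node .leaf 5712417 .leaf))) 5712418 (.node (.node (.node (.node .leaf 5714194 .leaf) 5714209 .leaf) 5714451 (.node .leaf 5714481 .leaf)) 5714483 (.node (.node (.node .leaf 5714499 .leaf) 5714705 .leaf) 5714706 (.node .leaf 5714721 .leaf)))))))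

def c5 : NatTree := (.node (.node (.node (.node (.node (.node (.node (.node .leaf 5716002 .leaf) 5716242 .leaf) 5716257 (.node (.node .leaf 5716258 .leaf) 5716259 .leaf)) 5716274 (.node (.node (.node .leaf 5716497 .leaf) 5716498 .leaf) 5716513 (.node .leaf 5716514 .leaf))) 5718290 (.node (.node (.node (.node .leaf 5718305 .leaf) 5718306 .leaf) 5718547 (.node (.node .leaf 5718563 .leaf) 5718577 .leaf)) 5718578 (.node (.node (.node .leaf 5718579 .leaf) 5718801 .leaf) 5718802 (.node .leaf 5718817 .leaf)))) 5718818 (.node (.node (.node (.node (.node .leaf 5720082 .leaf) 5720097 .leaf) 5720098 (.node (.node .leaf 5720338 .leaf) 5720353 .leaf)) 5720354 (.node (.node (.node .leaf 5720593 .leaf) 5720594 .leaf) 5720609 (.node .leaf 5720610 .leaf))) 5726498 (.node (.node (.node (.node .leaf 5726499 .leaf) 5726514 .leaf) 5726515 (.node .leaf 5726754 .leaf)) 5726755 (.node (.node (.node .leaf 5726756 .leaf) 5726770 .leaf) 5726771 (.node .leaf 5726772 .leaf))))) 5726786 (.node (.node (.node (.node (.node (.node .leaf 5726787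 .leaf) 5726788 .leaf) 5727010 (.node (.node .leaf 5727011 .leaf) 5727026 .leaf)) 5727027 (.node (.node (.node .leaf 5727266 .leaf) 5727267 .leaf) 5727282 (.node .leaf 5727283 .leaf))) 5728273 (.node (.node (.node (.node .leaf 5728274 .leaf) 5728275 .leaf) 5728276 (.node .leaf 5728289 .leaf)) 5728290 (.node (.node (.node .leaf 5728291 .leaf) 5728305 .leaf) 5728306 (.node .leaf 5728307 .leaf)))) 5728321 (.node (.node (.node (.node (.node .leaf 5728546 .leaf) 5728547 .leaf) 5728562 (.node (.node .leaf 5728563 .leaf) 5728802 .leaf)) 5728803 (.node (.node (.node .leaf 5728818 .leaf) 5728819 .leaf) 5730578 (.node .leaf 5730593 .leaf))) 5730594 (.node (.node (.node (.node .leaf 5730595 .leaf) 5730596 .leaf) 5730610 (.node .leaf 5730626 .leaf)) 5730835 (.node (.node (.node .leaf 5730850 .leaf) 5730851 .leaf) 5730852 (.node .leaf 5730866 .leaf)))))) 5730867 (.node (.node (.node (.node (.node (.node (.node .leaf 5730882 .leaf) 5731090 .leaf) 5731105 (.node (.node .leaf 5731106 .leaf) 5731107 .leaf)) 5731122 (.node (.node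 (.node .leaf 5731138 .leaf) 5731362 .leaf) 5731363 (.node .leaf 5731378 .leaf))) 5732386 (.node (.node (.node (.node .leaf 5732387 .leaf) 5732402 .leaf) 5732403 (.node (.node .leaf 5732626 .leaf) 5732641 .leaf)) 5732642 (.node (.node (.node .leaf 5732643 .leaf) 5732644 .leaf) 5732658 (.node .leaf 5732674 .leaf)))) 5732898 (.node (.node (.node (.node (.node .leaf 5732899 .leaf) 5732900 .leaf) 5732914 (.node (.node .leaf 5732930 .leaf) 5734674 .leaf)) 5734689 (.node (.node (.node .leaf 5734690 .leaf) 5734931 .leaf) 5734946 (.node .leaf 5734947 .leaf))) 5734961 (.node (.node (.node (.node .leaf 5734962 .leaf) 5734963 .leaf) 5735186 (.node .leaf 5735201 .leaf)) 5735202 (.node (.node (.node .leaf 5736482 .leaf) 5736483 .leaf) 5736498 (.node .leaf 5736499 .leaf))))) 5736722 (.node (.node (.node (.node (.node (.node .leaf 5736737 .leaf) 5736738 .leaf) 5736739 (.node (.node .leaf 5736740 .leaf) 5736754 .leaf)) 5736770 (.node (.node (.node .leaf 5736977 .leaf) 5736978 .leaf) 5736993 (.node .leaf 5736994 .leaf))) 5738770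 (.node (.node (.node (.node .leaf 5738785 .leaf) 5738786 .leaf) 5739027 (.node .leaf 5739042 .leaf)) 5739043 (.node (.node (.node .leaf 5739057 .leaf) 5739058 .leaf) 5739059 (.node .leaf 5739282 .leaf)))) 5739297 (.node (.node (.node (.node (.node .leaf 5739298 .leaf) 5740578 .leaf) 5740579 (.node (.node .leaf 5740594 .leaf) 5740595 .leaf)) 5740818 (.node (.node (.node .leaf 5740833 .leaf) 5740834 .leaf) 5740835 (.node .leaf 5740836 .leaf))) 5740850 (.node (.node (.node (.node .leaf 5740866 .leaf) 5741073 .leaf) 5741074 (.node .leaf 5741089 .leaf)) 5741090 (.node (.node (.node .leaf 5742865 .leaf) 5742866 .leaf) 5742881 (.node .leaf 5742882 .leaf)))))))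

def c6 : NatTree := (.node (.node (.node (.node (.node (.node (.node (.node .leaf 5743122 .leaf) 5743123 .leaf) 5743137 (.node (.node .leaf 5743138 .leaf) 5743139 .leaf)) 5743153 (.node (.node (.node .leaf 5743154 .leaf) 5743155 .leaf) 5743377 (.node .leaf 5743378 .leaf))) 5743393 (.node (.node (.node (.node .leaf 5743394 .leaf) 5744674 .leaf) 5744675 (.node (.node .leaf 5744690 .leaf) 5744691 .leaf)) 5744913 (.node (.node (.node .leaf 5744914 .leaf) 5744929 .leaf) 5744930 (.node .leaf 5744931 .leaf)))) 5744932 (.node (.node (.node (.node (.node .leaf 5744946 .leaf) 5744962 .leaf) 5745169 (.node (.node .leaf 5745170 .leaf) 5745185 .leaf)) 5745186 (.node (.node (.node .leaf 5771555 .leaf) 5771570 .leaf) 5771588 (.node .leaf 5771812 .leaf))) 5771844 (.node (.node (.node (.node .leaf 5771845 .leaf) 5772082 .leaf) 5772100 (.node .leaf 5772322 .leaf)) 5772323 (.node (.node (.node .leaf 5772338 .leaf) 5772612 .leaf) 5773619 (.node .leaf 5773620 .leaf))))) 5773635 (.node (.node (.node (.node (.node (.node .leaf 5773636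 .leaf) 5773859 .leaf) 5773874 (.node (.node .leaf 5773875 .leaf) 5773876 .leaf)) 5773877 (.node (.node (.node .leaf 5773891 .leaf) 5773907 .leaf) 5775651 (.node .leaf 5775666 .leaf))) 5775908 (.node (.node (.node (.node .leaf 5775940 .leaf) 5776178 .leaf) 5776418 (.node .leaf 5776419 .leaf)) 5776434 (.node (.node (.node .leaf 5777715 .leaf) 5777716 .leaf) 5777731 (.node .leaf 5777732 .leaf)))) 5777955 (.node (.node (.node (.node (.node .leaf 5777970 .leaf) 5777971 .leaf) 5777972 (.node (.node .leaf 5777973 .leaf) 5777987 .leaf)) 5778003 (.node (.node (.node .leaf 5779747 .leaf) 5779762 .leaf) 5780004 (.node .leaf 5780036 .leaf))) 5780259 (.node (.node (.node (.node .leaf 5780274 .leaf) 5780514 .leaf) 5780515 (.node .leaf 5780530 .leaf)) 5781811 (.node (.node (.node .leaf 5782051 .leaf) 5782066 .leaf) 5782067 (.node .leaf 5782068 .leaf)))))) 5782083 (.node (.node (.node (.node (.node (.node (.node .leaf 5783843 .leaf) 5783858 .leaf) 5783859 (.node (.node .leaf 5784100 .leaf) 5784116 .leaf)) 5784132 (.node (.node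 (.node .leaf 5784355 .leaf) 5784370 .leaf) 5784371 (.node .leaf 5784610 .leaf))) 5784611 (.node (.node (.node (.node .leaf 5784626 .leaf) 5784627 .leaf) 5785891 (.node (.node .leaf 5785906 .leaf) 5785907 .leaf)) 5786147 (.node (.node (.node .leaf 5786162 .leaf) 5786163 .leaf) 5788244 (.node .leaf 5788245 .leaf)))) 5792051 (.node (.node (.node (.node (.node .leaf 5792052 .leaf) 5792067 .leaf) 5792068 (.node (.node .leaf 5792307 .leaf) 5792308 .leaf)) 5792309 (.node (.node (.node .leaf 5792323 .leaf) 5792324 .leaf) 5792325 (.node .leaf 5792339 .leaf))) 5792340 (.node (.node (.node (.node .leaf 5792341 .leaf) 5792563 .leaf) 5792564 (.node .leaf 5792579 .leaf)) 5792580 (.node (.node (.node .leaf 5792819 .leaf) 5792820 .leaf) 5792835 (.node .leaf 5792836 .leaf))))) 5793075 (.node (.node (.node (.node (.node (.node .leaf 5793076 .leaf) 5793091 .leaf) 5793092 (.node (.node .leaf 5794082 .leaf) 5794083 .leaf)) 5794084 (.node (.node (.node .leaf 5794085 .leaf) 5794098 .leaf) 5794099 (.node .leaf 5794100 .leaf))) 5794114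 (.node (.node (.node (.node .leaf 5794115 .leaf) 5794116 .leaf) 5794130 (.node .leaf 5794355 .leaf)) 5794356 (.node (.node (.node .leaf 5794371 .leaf) 5794372 .leaf) 5796131 (.node .leaf 5796146 .leaf)))) 5796147 (.node (.node (.node (.node (.node .leaf 5796148 .leaf) 5796149 .leaf) 5796163 (.node (.node .leaf 5796179 .leaf) 5796388 .leaf)) 5796403 (.node (.node (.node .leaf 5796404 .leaf) 5796405 .leaf) 5796418 (.node .leaf 5796419 .leaf))) 5796420 (.node (.node (.node (.node .leaf 5796435 .leaf) 5796643 .leaf) 5796658 (.node .leaf 5796659 .leaf)) 5796660 (.node (.node (.node .leaf 5796661 .leaf) 5796675 .leaf) 5796691 (.node .leaf 5796898 .leaf)))))))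

def c7 : NatTree := (.node (.node (.node (.node (.node (.node (.node (.node .leaf 5796914 .leaf) 5796915 .leaf) 5796916 (.node (.node .leaf 5796931 .leaf) 5797171 .leaf)) 5797172 (.node (.node (.node .leaf 5797187 .leaf) 5797427 .leaf) 5798195 (.node .leaf 5798196 .leaf))) 5798211 (.node (.node (.node (.node .leaf 5798212 .leaf) 5798435 .leaf) 5798450 (.node (.node .leaf 5798451 .leaf) 5798452 .leaf)) 5798453 (.node (.node (.node .leaf 5798467 .leaf) 5798483 .leaf) 5800227 (.node .leaf 5800242 .leaf)))) 5800243 (.node (.node (.node (.node (.node .leaf 5800484 .leaf) 5800500 .leaf) 5800514 (.node (.node .leaf 5800515 .leaf) 5800516 .leaf)) 5800739 (.node (.node (.node .leaf 5800754 .leaf) 5800755 .leaf) 5800994 (.node .leaf 5800995 .leaf))) 5801010 (.node (.node (.node (.node .leaf 5801011 .leaf) 5802291 .leaf) 5802292 (.node .leaf 5802307 .leaf)) 5802308 (.node (.node (.node .leaf 5802531 .leaf) 5802546 .leaf) 5802547 (.node .leaf 5802548 .leaf))))) 5802549 (.node (.node (.node (.node (.node (.node .leaf 5802563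 .leaf) 5802579 .leaf) 5804323 (.node (.node .leaf 5804338 .leaf) 5804339 .leaf)) 5804580 (.node (.node (.node .leaf 5804596 .leaf) 5804610 .leaf) 5804611 (.node .leaf 5804612 .leaf))) 5804835 (.node (.node (.node (.node .leaf 5804850 .leaf) 5804851 .leaf) 5805090 (.node .leaf 5805091 .leaf)) 5805106 (.node (.node (.node .leaf 5805107 .leaf) 5806387 .leaf) 5806388 (.node .leaf 5806403 .leaf)))) 5806404 (.node (.node (.node (.node (.node .leaf 5806627 .leaf) 5806642 .leaf) 5806643 (.node (.node .leaf 5806644 .leaf) 5806645 .leaf)) 5806659 (.node (.node (.node .leaf 5806675 .leaf) 5808419 .leaf) 5808434 (.node .leaf 5808435 .leaf))) 5808452 (.node (.node (.node (.node .leaf 5808676 .leaf) 5808692 .leaf) 5808706 (.node .leaf 5808707 .leaf)) 5808708 (.node (.node (.node .leaf 5808709 .leaf) 5808931 .leaf) 5808946 (.node .leaf 5808947 .leaf)))))) 5808964 (.node (.node (.node (.node (.node (.node (.node .leaf 5809186 .leaf) 5809187 .leaf) 5809202 (.node (.node .leaf 5809203 .leaf) 5809220 .leaf)) 5809476 (.node (.node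 (.node .leaf 5810483 .leaf) 5810484 .leaf) 5810499 (.node .leaf 5810500 .leaf))) 5810723 (.node (.node (.node (.node .leaf 5810738 .leaf) 5810739 .leaf) 5810740 (.node (.node .leaf 5810741 .leaf) 5810755 .leaf)) 5810771 (.node (.node (.node .leaf 5837107 .leaf) 5837108 .leaf) 5837123 (.node .leaf 5837364 .leaf)))) 5837365 (.node (.node (.node (.node (.node .leaf 5837379 .leaf) 5837395 .leaf) 5837620 (.node (.node .leaf 5837891 .leaf) 5838131 .leaf)) 5838132 (.node (.node (.node .leaf 5838147 .leaf) 5839428 .leaf) 5839429 (.node .leaf 5839444 .leaf))) 5839445 (.node (.node (.node (.node .leaf 5843524 .leaf) 5843525 .leaf) 5843540 (.node .leaf 5843541 .leaf)) 5847620 (.node (.node (.node .leaf 5849429 .leaf) 5849684 .leaf) 5849685 (.node .leaf 5849686 .leaf))))) 5850197 (.node (.node (.node (.node (.node (.node .leaf 5850436 .leaf) 5850453 .leaf) 5851700 (.node (.node .leaf 5851715 .leaf) 5851716 .leaf)) 5853525 (.node (.node (.node .leaf 5853781 .leaf) 5853782 .leaf) 5854037 (.node .leaf 5854293 .leaf))) 5857587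 (.node (.node (.node (.node .leaf 5857588 .leaf) 5857589 .leaf) 5857603 (.node .leaf 5857604 .leaf)) 5857605 (.node (.node (.node .leaf 5857619 .leaf) 5857620 .leaf) 5857621 (.node .leaf 5857843 .leaf)))) 5857844 (.node (.node (.node (.node (.node .leaf 5857845 .leaf) 5857846 .leaf) 5857859 (.node (.node .leaf 5857860 .leaf) 5857861 .leaf)) 5857862 (.node (.node (.node .leaf 5857875 .leaf) 5857876 .leaf) 5857877 (.node .leaf 5857878 .leaf))) 5858099 (.node (.node (.node (.node .leaf 5858100 .leaf) 5858101 .leaf) 5858115 (.node .leaf 5858116 .leaf)) 5858117 (.node (.node (.node .leaf 5858131 .leaf) 5858132 .leaf) 5858133 (.node .leaf 5858355 .leaf)))))))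

def c8 : NatTree := (.node (.node (.node (.node (.node (.node (.node (.node .leaf 5858357 .leaf) 5858371 .leaf) 5858372 (.node (.node .leaf 5858373 .leaf) 5858387 .leaf)) 5858388 (.node (.node (.node .leaf 5858389 .leaf) 5858611 .leaf) 5858612 (.node .leaf 5858613 .leaf))) 5858627 (.node (.node (.node (.node .leaf 5858628 .leaf) 5858629 .leaf) 5858643 (.node (.node .leaf 5858644 .leaf) 5858645 .leaf)) 5858867 (.node (.node (.node .leaf 5858868 .leaf) 5858869 .leaf) 5858883 (.node .leaf 5858884 .leaf)))) 5858885 (.node (.node (.node (.node (.node .leaf 5858899 .leaf) 5858900 .leaf) 5858901 (.node (.node .leaf 5859891 .leaf) 5859892 .leaf)) 5859893 (.node (.node (.node .leaf 5859907 .leaf) 5859908 .leaf) 5859909 (.node .leaf 5859923 .leaf))) 5859924 (.node (.node (.node (.node .leaf 5859925 .leaf) 5861683 .leaf) 5861684 (.node .leaf 5861699 .leaf)) 5861700 (.node (.node (.node .leaf 5861940 .leaf) 5861941 .leaf) 5861955 (.node .leaf 5861957 .leaf))))) 5861971 (.node (.node (.node (.node (.node (.node .leaf 5862196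 .leaf) 5862211 .leaf) 5862212 (.node (.node .leaf 5862452 .leaf) 5862467 .leaf)) 5862468 (.node (.node (.node .leaf 5862707 .leaf) 5862708 .leaf) 5862723 (.node .leaf 5862724 .leaf))) 5864004 (.node (.node (.node (.node .leaf 5864005 .leaf) 5864020 .leaf) 5864021 (.node .leaf 5865779 .leaf)) 5865780 (.node (.node (.node .leaf 5865795 .leaf) 5865796 .leaf) 5866036 (.node .leaf 5866037 .leaf)))) 5866051 (.node (.node (.node (.node (.node .leaf 5866053 .leaf) 5866067 .leaf) 5866292 (.node (.node .leaf 5866307 .leaf) 5866308 .leaf)) 5866548 (.node (.node (.node .leaf 5866563 .leaf) 5866564 .leaf) 5866803 (.node .leaf 5866804 .leaf))) 5866819 (.node (.node (.node (.node .leaf 5866820 .leaf) 5868100 .leaf) 5868101 (.node .leaf 5868116 .leaf)) 5868117 (.node (.node (.node .leaf 5869875 .leaf) 5869876 .leaf) 5869891 (.node .leaf 5869892 .leaf)))))) 5870132 (.node (.node (.node (.node (.node (.node (.node .leaf 5870133 .leaf) 5870147 .leaf) 5870149 (.node (.node .leaf 5870163 .leaf) 5870388 .leaf)) 5870403 (.node (.node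 (.node .leaf 5870404 .leaf) 5870644 .leaf) 5870659 (.node .leaf 5870660 .leaf))) 5870899 (.node (.node (.node (.node .leaf 5870900 .leaf) 5870915 .leaf) 5870916 (.node (.node .leaf 5872196 .leaf) 5872197 .leaf)) 5872212 (.node (.node (.node .leaf 5872213 .leaf) 5873971 .leaf) 5873972 (.node .leaf 5873987 .leaf)))) 5874227 (.node (.node (.node (.node (.node .leaf 5874228 .leaf) 5874229 .leaf) 5874243 (.node (.node .leaf 5874259 .leaf) 5874484 .leaf)) 5874499 (.node (.node (.node .leaf 5874740 .leaf) 5874755 .leaf) 5874995 (.node .leaf 5874996 .leaf))) 5875011 (.node (.node (.node (.node .leaf 5876292 .leaf) 5876293 .leaf) 5876308 (.node .leaf 5876309 .leaf)) 6558993 (.node (.node (.node .leaf 6558994 .leaf) 6559009 .leaf) 6559010 (.node .leaf 6563089 .leaf))))) 6563090 (.node (.node (.node (.node (.node (.node .leaf 6563091 .leaf) 6563105 .leaf) 6563106 (.node (.node .leaf 6563107 .leaf) 6563121 .leaf)) 6563122 (.node (.node (.node .leaf 6563123 .leaf) 6567185 .leaf) 6567186 (.node .leaf 6567201 .leaf))) 6567202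 (.node (.node (.node (.node .leaf 6583569 .leaf) 6583570 .leaf) 6583585 (.node .leaf 6583586 .leaf)) 6587665 (.node (.node (.node .leaf 6587666 .leaf) 6587681 .leaf) 6587682 (.node .leaf 6591761 .leaf)))) 6591762 (.node (.node (.node (.node (.node .leaf 6591777 .leaf) 6591778 .leaf) 6595857 (.node (.node .leaf 6595858 .leaf) 6595873 .leaf)) 6595874 (.node (.node (.node .leaf 6623522 .leaf) 6624034 .leaf) 6624785 (.node .leaf 6624786 .leaf))) 6624801 (.node (.node (.node (.node .leaf 6624802 .leaf) 6625041 .leaf) 6625042 (.node .leaf 6625043 .leaf)) 6625057 (.node (.node (.node .leaf 6625073 .leaf) 6627634 .leaf) 6628130 (.node .leaf 6628146 .leaf)))))))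

def c9 : NatTree := (.node (.node (.node (.node (.node (.node (.node (.node .leaf 6628881 .leaf) 6628882 .leaf) 6628883 (.node (.node .leaf 6628897 .leaf) 6628898 .leaf)) 6628899 (.node (.node (.node .leaf 6628913 .leaf) 6628914 .leaf) 6628915 (.node .leaf 6629137 .leaf))) 6629138 (.node (.node (.node (.node .leaf 6629139 .leaf) 6629153 .leaf) 6629169 (.node (.node .leaf 6631714 .leaf) 6631970 .leaf)) 6632226 (.node (.node (.node .leaf 6632977 .leaf) 6632978 .leaf) 6632993 (.node .leaf 6632994 .leaf)))) 6633233 (.node (.node (.node (.node (.node .leaf 6633234 .leaf) 6633249 .leaf) 6637329 (.node (.node .leaf 6637330 .leaf) 6637345 .leaf)) 6648082 (.node (.node (.node .leaf 6648097 .leaf) 6648098 .leaf) 6648354 (.node .leaf 6649361 .leaf))) 6649362 (.node (.node (.node (.node .leaf 6649377 .leaf) 6649378 .leaf) 6649618 (.node .leaf 6649633 .leaf)) 6649634 (.node (.node (.node .leaf 6649874 .leaf) 6649889 .leaf) 6649890 (.node .leaf 6650130 .leaf))))) 6650145 (.node (.node (.node (.node (.node (.node .leaf 6650146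 .leaf) 6650385 .leaf) 6650386 (.node (.node .leaf 6650401 .leaf) 6650402 .leaf)) 6652177 (.node (.node (.node .leaf 6652178 .leaf) 6652179 .leaf) 6652193 (.node .leaf 6652209 .leaf))) 6652433 (.node (.node (.node (.node .leaf 6652434 .leaf) 6652435 .leaf) 6652449 (.node .leaf 6652465 .leaf)) 6652690 (.node (.node (.node .leaf 6652705 .leaf) 6653457 .leaf) 6653458 (.node .leaf 6653473 .leaf)))) 6653474 (.node (.node (.node (.node (.node .leaf 6653713 .leaf) 6653714 .leaf) 6653715 (.node (.node .leaf 6653729 .leaf) 6653745 .leaf)) 6653969 (.node (.node (.node .leaf 6653970 .leaf) 6653971 .leaf) 6653985 (.node .leaf 6654001 .leaf))) 6654225 (.node (.node (.node (.node .leaf 6654226 .leaf) 6654227 .leaf) 6654241 (.node .leaf 6654257 .leaf)) 6654481 (.node (.node (.node .leaf 6654482 .leaf) 6654483 .leaf) 6654497 (.node .leaf 6654513 .leaf)))))) 6657553 (.node (.node (.node (.node (.node (.node (.node .leaf 6657554 .leaf) 6657569 .leaf) 6657570 (.node (.node .leaf 6657809 .leaf) 6657810 .leaf)) 6657811 (.node (.node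 (.node .leaf 6657825 .leaf) 6657841 .leaf) 6661649 (.node .leaf 6661650 .leaf))) 6661665 (.node (.node (.node (.node .leaf 6661666 .leaf) 6661905 .leaf) 6661906 (.node (.node .leaf 6661907 .leaf) 6661921 .leaf)) 6661937 (.node (.node (.node .leaf 6689042 .leaf) 6689057 .leaf) 6689058 (.node .leaf 6689075 .leaf)))) 6689297 (.node (.node (.node (.node (.node .leaf 6689299 .leaf) 6689313 .leaf) 6689314 (.node (.node .leaf 6689315 .leaf) 6689329 .leaf)) 6689330 (.node (.node (.node .leaf 6689331 .leaf) 6689332 .leaf) 6689553 (.node .leaf 6689554 .leaf))) 6689569 (.node (.node (.node (.node .leaf 6689570 .leaf) 6689587 .leaf) 6689809 (.node .leaf 6689810 .leaf)) 6689825 (.node (.node (.node .leaf 6689826 .leaf) 6690065 .leaf) 6690081 (.node .leaf 6690082 .leaf))))) 6690594 (.node (.node (.node (.node (.node (.node .leaf 6690595 .leaf) 6690610 .leaf) 6690611 (.node (.node .leaf 6690833 .leaf) 6690849 .leaf)) 6690850 (.node (.node (.node .leaf 6690851 .leaf) 6690852 .leaf) 6690866 (.node .leaf 6690882 .leaf))) 6691089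 (.node (.node (.node (.node .leaf 6691090 .leaf) 6691105 .leaf) 6691106 (.node .leaf 6691345 .leaf)) 6691346 (.node (.node (.node .leaf 6691361 .leaf) 6691362 .leaf) 6693137 (.node .leaf 6693138 .leaf)))) 6693139 (.node (.node (.node (.node (.node .leaf 6693154 .leaf) 6693155 .leaf) 6693169 (.node (.node .leaf 6693170 .leaf) 6693171 .leaf)) 6693187 (.node (.node (.node .leaf 6693393 .leaf) 6693394 .leaf) 6693395 (.node .leaf 6693396 .leaf))) 6693409 (.node (.node (.node (.node .leaf 6693411 .leaf) 6693412 .leaf) 6693425 (.node .leaf 6693426 .leaf)) 6693427 (.node (.node (.node .leaf 6693428 .leaf) 6693441 .leaf) 6693442 (.node .leaf 6693443 .leaf)))))))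

def c10 : NatTree := (.node (.node (.node (.node (.node (.node (.node (.node .leaf 6693650 .leaf) 6693651 .leaf) 6693665 (.node (.node .leaf 6693666 .leaf) 6693681 .leaf)) 6693682 (.node (.node (.node .leaf 6693683 .leaf) 6693905 .leaf) 6693906 (.node .leaf 6693907 .leaf))) 6693921 (.node (.node (.node (.node .leaf 6693922 .leaf) 6693923 .leaf) 6693937 (.node (.node .leaf 6693938 .leaf) 6693939 .leaf)) 6694161 (.node (.node (.node .leaf 6694162 .leaf) 6694163 .leaf) 6694177 (.node .leaf 6694178 .leaf)))) 6694193 (.node (.node (.node (.node (.node .leaf 6694194 .leaf) 6694690 .leaf) 6694691 (.node (.node .leaf 6694706 .leaf) 6694707 .leaf)) 6694929 (.node (.node (.node .leaf 6694930 .leaf) 6694931 .leaf) 6694945 (.node .leaf 6694946 .leaf))) 6694947 (.node (.node (.node (.node .leaf 6694948 .leaf) 6694961 .leaf) 6694962 (.node .leaf 6694963 .leaf)) 6694978 (.node (.node (.node .leaf 6695185 .leaf) 6695186 .leaf) 6695187 (.node .leaf 6695201 .leaf))))) 6695202 (.node (.node (.node (.node (.node (.node .leaf 6695203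 .leaf) 6695217 .leaf) 6695218 (.node (.node .leaf 6695219 .leaf) 6695441 .leaf)) 6695442 (.node (.node (.node .leaf 6695443 .leaf) 6695457 .leaf) 6695458 (.node .leaf 6695459 .leaf))) 6695473 (.node (.node (.node (.node .leaf 6695474 .leaf) 6695475 .leaf) 6697233 (.node .leaf 6697234 .leaf)) 6697249 (.node (.node (.node .leaf 6697250 .leaf) 6697267 .leaf) 6697489 (.node .leaf 6697490 .leaf)))) 6697491 (.node (.node (.node (.node (.node .leaf 6697505 .leaf) 6697506 .leaf) 6697507 (.node (.node .leaf 6697521 .leaf) 6697523 .leaf)) 6697745 (.node (.node (.node .leaf 6697746 .leaf) 6697761 .leaf) 6698001 (.node .leaf 6698002 .leaf))) 6698017 (.node (.node (.node (.node .leaf 6698257 .leaf) 6698258 .leaf) 6698273 (.node .leaf 6698786 .leaf)) 6698787 (.node (.node (.node .leaf 6699025 .leaf) 6699026 .leaf) 6699041 (.node .leaf 6699042 .leaf)))))) 6699043 (.node (.node (.node (.node (.node (.node (.node .leaf 6699058 .leaf) 6699281 .leaf) 6699282 (.node (.node .leaf 6699297 .leaf) 6699298 .leaf)) 6699537 (.node (.node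 (.node .leaf 6699538 .leaf) 6699553 .leaf) 6699554 (.node .leaf 6701329 .leaf))) 6701330 (.node (.node (.node (.node .leaf 6701345 .leaf) 6701346 .leaf) 6701585 (.node (.node .leaf 6701586 .leaf) 6701587 .leaf)) 6701601 (.node (.node (.node .leaf 6701602 .leaf) 6701603 .leaf) 6701617 (.node .leaf 6701618 .leaf)))) 6701619 (.node (.node (.node (.node (.node .leaf 6701841 .leaf) 6701842 .leaf) 6701857 (.node (.node .leaf 6702882 .leaf) 6703121 .leaf)) 6703122 (.node (.node (.node .leaf 6703137 .leaf) 6703138 .leaf) 6703377 (.node .leaf 6703378 .leaf))) 6703393 (.node (.node (.node (.node .leaf 6703394 .leaf) 6703633 .leaf) 6703634 (.node .leaf 6703649 .leaf)) 6703650 (.node (.node (.node .leaf 6705425 .leaf) 6705426 .leaf) 6705442 (.node .leaf 6705681 .leaf))))) 6705682 (.node (.node (.node (.node (.node (.node .leaf 6705683 .leaf) 6705697 .leaf) 6705698 (.node (.node .leaf 6705699 .leaf) 6705713 .leaf)) 6705937 (.node (.node (.node .leaf 6705938 .leaf) 6705953 .leaf) 6706961 (.node .leaf 6706962 .leaf))) 6706977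 (.node (.node (.node (.node .leaf 6706978 .leaf) 6707217 .leaf) 6707218 (.node .leaf 6707233 .leaf)) 6707234 (.node (.node (.node .leaf 6707473 .leaf) 6707474 .leaf) 6707489 (.node .leaf 6707490 .leaf)))) 6707729 (.node (.node (.node (.node (.node .leaf 6707730 .leaf) 6707745 .leaf) 6707746 (.node (.node .leaf 6713634 .leaf) 6713635 .leaf)) 6713650 (.node (.node (.node .leaf 6713651 .leaf) 6713890 .leaf) 6713891 (.node .leaf 6713906 .leaf))) 6713907 (.node (.node (.node (.node .leaf 6714146 .leaf) 6714162 .leaf) 6714402 (.node .leaf 6714641 .leaf)) 6714642 (.node (.node (.node .leaf 6714657 .leaf) 6714658 .leaf) 6715153 (.node .leaf 6715154 .leaf)))))))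

def c11 : NatTree := (.node (.node (.node (.node (.node (.node (.node (.node .leaf 6715169 .leaf) 6715170 .leaf) 6715171 (.node (.node .leaf 6715185 .leaf) 6715186 .leaf)) 6715187 (.node (.node (.node .leaf 6715426 .leaf) 6715427 .leaf) 6715442 (.node .leaf 6715443 .leaf))) 6715682 (.node (.node (.node (.node .leaf 6715683 .leaf) 6715698 .leaf) 6715699 (.node (.node .leaf 6715938 .leaf) 6715939 .leaf)) 6715954 (.node (.node (.node .leaf 6715955 .leaf) 6717713 .leaf) 6717714 (.node .leaf 6717730 .leaf)))) 6717731 (.node (.node (.node (.node (.node .leaf 6717732 .leaf) 6717746 .leaf) 6717762 (.node (.node .leaf 6717969 .leaf) 6717970 .leaf)) 6717971 (.node (.node (.node .leaf 6717985 .leaf) 6717986 .leaf) 6717987 (.node .leaf 6717988 .leaf))) 6718001 (.node (.node (.node (.node .leaf 6718002 .leaf) 6718003 .leaf) 6718018 (.node .leaf 6718225 .leaf)) 6718226 (.node (.node (.node .leaf 6718241 .leaf) 6718242 .leaf) 6718243 (.node .leaf 6718258 .leaf))))) 6718481 (.node (.node (.node (.node (.node (.node .leaf 6718482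 .leaf) 6718497 .leaf) 6718498 (.node (.node .leaf 6718737 .leaf) 6718738 .leaf)) 6718753 (.node (.node (.node .leaf 6718754 .leaf) 6719266 .leaf) 6719267 (.node .leaf 6719282 .leaf))) 6719283 (.node (.node (.node (.node .leaf 6719505 .leaf) 6719522 .leaf) 6719523 (.node .leaf 6719524 .leaf)) 6719538 (.node (.node (.node .leaf 6719554 .leaf) 6719761 .leaf) 6719778 (.node .leaf 6719779 .leaf)))) 6719780 (.node (.node (.node (.node (.node .leaf 6719794 .leaf) 6719810 .leaf) 6720017 (.node (.node .leaf 6720018 .leaf) 6720033 .leaf)) 6720034 (.node (.node (.node .leaf 6720035 .leaf) 6720036 .leaf) 6720050 (.node .leaf 6720066 .leaf))) 6721809 (.node (.node (.node (.node .leaf 6721810 .leaf) 6721825 .leaf) 6721826 (.node .leaf 6722065 .leaf)) 6722066 (.node (.node (.node .leaf 6722067 .leaf) 6722081 .leaf) 6722082 (.node .leaf 6722083 .leaf)))))) 6722097 (.node (.node (.node (.node (.node (.node (.node .leaf 6722098 .leaf) 6722099 .leaf) 6722321 (.node (.node .leaf 6722322 .leaf) 6722337 .leaf)) 6722338 (.node (.node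 (.node .leaf 6722577 .leaf) 6722578 .leaf) 6722593 (.node .leaf 6722594 .leaf))) 6722833 (.node (.node (.node (.node .leaf 6722834 .leaf) 6722849 .leaf) 6722850 (.node (.node .leaf 6723362 .leaf) 6723363 .leaf)) 6723378 (.node (.node (.node .leaf 6723379 .leaf) 6723601 .leaf) 6723618 (.node .leaf 6723619 .leaf)))) 6723620 (.node (.node (.node (.node (.node .leaf 6723634 .leaf) 6723650 .leaf) 6723857 (.node (.node .leaf 6723858 .leaf) 6723873 .leaf)) 6723874 (.node (.node (.node .leaf 6724113 .leaf) 6724114 .leaf) 6724129 (.node .leaf 6724130 .leaf))) 6725905 (.node (.node (.node (.node .leaf 6725906 .leaf) 6725921 .leaf) 6725922 (.node .leaf 6726161 .leaf)) 6726162 (.node (.node (.node .leaf 6726163 .leaf) 6726177 .leaf) 6726178 (.node .leaf 6726179 .leaf))))) 6726193 (.node (.node (.node (.node (.node (.node .leaf 6726194 .leaf) 6726195 .leaf) 6726417 (.node (.node .leaf 6726418 .leaf) 6726433 .leaf)) 6726434 (.node (.node (.node .leaf 6726673 .leaf) 6726674 .leaf) 6726689 (.node .leaf 6726690 .leaf))) 6726929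 (.node (.node (.node (.node .leaf 6726930 .leaf) 6726945 .leaf) 6726946 (.node .leaf 6727458 .leaf)) 6727459 (.node (.node (.node .leaf 6727474 .leaf) 6727475 .leaf) 6727698 (.node .leaf 6727713 .leaf)))) 6727714 (.node (.node (.node (.node (.node .leaf 6727715 .leaf) 6727716 .leaf) 6727730 (.node (.node .leaf 6727746 .leaf) 6727953 .leaf)) 6727954 (.node (.node (.node .leaf 6727969 .leaf) 6727970 .leaf) 6728209 (.node .leaf 6728210 .leaf))) 6728225 (.node (.node (.node (.node .leaf 6728226 .leaf) 6754595 .leaf) 6754610 (.node .leaf 6754628 .leaf)) 6754850 (.node (.node (.node .leaf 6754852 .leaf) 6754884 .leaf) 6754885 (.node .leaf 6754900 .leaf)))))))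

def c12 : NatTree := (.node (.node (.node (.node (.node (.node (.node (.node .leaf 6755122 .leaf) 6755363 .leaf) 6755396 (.node (.node .leaf 6755619 .leaf) 6755874 .leaf)) 6755875 (.node (.node (.node .leaf 6756403 .leaf) 6756404 .leaf) 6756419 (.node .leaf 6756420 .leaf))) 6756643 (.node (.node (.node (.node .leaf 6756659 .leaf) 6756660 .leaf) 6756661 (.node (.node .leaf 6756675 .leaf) 6756691 .leaf)) 6756899 (.node (.node (.node .leaf 6758724 .leaf) 6758980 .leaf) 6758981 (.node .leaf 6758996 .leaf)))) 6759492 (.node (.node (.node (.node (.node .leaf 6759970 .leaf) 6760499 .leaf) 6760500 (.node (.node .leaf 6760515 .leaf) 6760516 .leaf)) 6760755 (.node (.node (.node .leaf 6760756 .leaf) 6760757 .leaf) 6760771 (.node .leaf 6760787 .leaf))) 6762787 (.node (.node (.node (.node .leaf 6762802 .leaf) 6762803 .leaf) 6763044 (.node .leaf 6763059 .leaf)) 6763060 (.node (.node (.node .leaf 6763076 .leaf) 6763092 .leaf) 6763298 (.node .leaf 6763299 .leaf))))) 6763314 (.node (.node (.node (.node (.node (.node .leaf 6763554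 .leaf) 6763555 .leaf) 6763588 (.node (.node .leaf 6763810 .leaf) 6763811 .leaf)) 6764066 (.node (.node (.node .leaf 6764067 .leaf) 6764595 .leaf) 6764611 (.node .leaf 6764835 .leaf))) 6764851 (.node (.node (.node (.node .leaf 6764852 .leaf) 6764867 .leaf) 6765091 (.node .leaf 6767138 .leaf)) 6767650 (.node (.node (.node .leaf 6768947 .leaf) 6771250 .leaf) 6771251 (.node .leaf 6771490 .leaf)))) 6779187 (.node (.node (.node (.node (.node .leaf 6779188 .leaf) 6779203 .leaf) 6779204 (.node (.node .leaf 6779443 .leaf) 6779444 .leaf)) 6779459 (.node (.node (.node .leaf 6779460 .leaf) 6779699 .leaf) 6779715 (.node .leaf 6779955 .leaf))) 6780450 (.node (.node (.node (.node .leaf 6780962 .leaf) 6780963 .leaf) 6780964 (.node .leaf 6780978 .leaf)) 6780979 (.node (.node (.node .leaf 6780980 .leaf) 6780994 .leaf) 6780995 (.node .leaf 6780996 .leaf)))))) 6781235 (.node (.node (.node (.node (.node (.node (.node .leaf 6781236 .leaf) 6781251 .leaf) 6781252 (.node (.node .leaf 6781491 .leaf) 6781492 .leaf)) 6781507 (.node (.node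 (.node .leaf 6781508 .leaf) 6783283 .leaf) 6783284 (.node .leaf 6783285 .leaf))) 6783299 (.node (.node (.node (.node .leaf 6783315 .leaf) 6783539 .leaf) 6783540 (.node (.node .leaf 6783541 .leaf) 6783555 .leaf)) 6783571 (.node (.node (.node .leaf 6783795 .leaf) 6783796 .leaf) 6783797 (.node .leaf 6783811 .leaf)))) 6784051 (.node (.node (.node (.node (.node .leaf 6784052 .leaf) 6784067 .leaf) 6784307 (.node (.node .leaf 6784546 .leaf) 6785075 .leaf)) 6785076 (.node (.node (.node .leaf 6785091 .leaf) 6785092 .leaf) 6785331 (.node .leaf 6785332 .leaf))) 6785333 (.node (.node (.node (.node .leaf 6785347 .leaf) 6785363 .leaf) 6785587 (.node .leaf 6785588 .leaf)) 6785589 (.node (.node (.node .leaf 6785603 .leaf) 6785619 .leaf) 6788642 (.node .leaf 6789171 .leaf))))) 6789172 (.node (.node (.node (.node (.node (.node .leaf 6789187 .leaf) 6789188 .leaf) 6789427 (.node (.node .leaf 6789428 .leaf) 6789429 .leaf)) 6789443 (.node (.node (.node .leaf 6789459 .leaf) 6792738 .leaf) 6793267 (.node .leaf 6793268 .leaf))) 6793283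 (.node (.node (.node (.node .leaf 6793284 .leaf) 6793523 .leaf) 6793524 (.node .leaf 6793525 .leaf)) 6793539 (.node (.node (.node .leaf 6793555 .leaf) 6820147 .leaf) 6820148 (.node .leaf 6820163 .leaf)))) 6820181 (.node (.node (.node (.node (.node .leaf 6820404 .leaf) 6820405 .leaf) 6820419 (.node (.node .leaf 6820435 .leaf) 6820437 .leaf)) 6820438 (.node (.node (.node .leaf 6820659 .leaf) 6820660 .leaf) 6820675 (.node .leaf 6820693 .leaf))) 6820915 (.node (.node (.node (.node .leaf 6820916 .leaf) 6820931 .leaf) 6821171 (.node .leaf 6821172 .leaf)) 6821187 (.node (.node (.node .leaf 6821205 .leaf) 6821427 .leaf) 6821428 (.node .leaf 6821443 .leaf)))))))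

def c13 : NatTree := (.node (.node (.node (.node (.node (.node (.node (.node .leaf 6821684 .leaf) 6821699 .leaf) 6822212 (.node (.node .leaf 6822213 .leaf) 6822228 .leaf)) 6822229 (.node (.node (.node .leaf 6822451 .leaf) 6822452 .leaf) 6822467 (.node .leaf 6822468 .leaf))) 6822469 (.node (.node (.node (.node .leaf 6822470 .leaf) 6822484 .leaf) 6822500 (.node (.node .leaf 6824243 .leaf) 6824244 .leaf)) 6824499 (.node (.node (.node .leaf 6824500 .leaf) 6824501 .leaf) 6824531 (.node .leaf 6824533 .leaf)))) 6824755 (.node (.node (.node (.node (.node .leaf 6824756 .leaf) 6824771 .leaf) 6825011 (.node (.node .leaf 6825012 .leaf) 6825027 .leaf)) 6825267 (.node (.node (.node .leaf 6825268 .leaf) 6825283 .leaf) 6825523 (.node .leaf 6825524 .leaf))) 6825539 (.node (.node (.node (.node .leaf 6825779 .leaf) 6825780 .leaf) 6825795 (.node .leaf 6826308 .leaf)) 6826309 (.node (.node (.node .leaf 6826324 .leaf) 6826325 .leaf) 6826547 (.node .leaf 6826548 .leaf))))) 6826563 (.node (.node (.node (.node (.node (.node .leaf 6826564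 .leaf) 6826565 .leaf) 6826566 (.node (.node .leaf 6826580 .leaf) 6826596 .leaf)) 6828355 (.node (.node (.node .leaf 6828595 .leaf) 6828611 .leaf) 6828627 (.node .leaf 6828867 .leaf))) 6829107 (.node (.node (.node (.node .leaf 6829123 .leaf) 6829363 .leaf) 6829379 (.node .leaf 6829619 .leaf)) 6829635 (.node (.node (.node .leaf 6829875 .leaf) 6829891 .leaf) 6830404 (.node .leaf 6830643 .leaf)))) 6830659 (.node (.node (.node (.node (.node .leaf 6830660 .leaf) 6830661 .leaf) 6830676 (.node (.node .leaf 6832691 .leaf) 6833459 .leaf)) 6834739 (.node (.node (.node .leaf 6834756 .leaf) 6836531 .leaf) 6836788 (.node .leaf 6836803 .leaf))) 6836804 (.node (.node (.node (.node .leaf 6837043 .leaf) 6837299 .leaf) 6838579 (.node .leaf 6838835 .leaf)) 6844740 (.node (.node (.node .leaf 6844741 .leaf) 6844756 .leaf) 6844757 (.node .leaf 6844996 .leaf)))))) 6844997 (.node (.node (.node (.node (.node (.node (.node .leaf 6845012 .leaf) 6845013 .leaf) 6845252 (.node (.node .leaf 6845268 .leaf) 6845508 .leaf)) 6845764 (.node (.node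 (.node .leaf 6846259 .leaf) 6846771 .leaf) 6846772 (.node .leaf 6846773 .leaf))) 6846787 (.node (.node (.node (.node .leaf 6846788 .leaf) 6846789 .leaf) 6846803 (.node (.node .leaf 6846804 .leaf) 6846805 .leaf)) 6847044 (.node (.node (.node .leaf 6847045 .leaf) 6847060 .leaf) 6847061 (.node .leaf 6848819 .leaf)))) 6848836 (.node (.node (.node (.node (.node .leaf 6848837 .leaf) 6848838 .leaf) 6848852 (.node (.node .leaf 6848868 .leaf) 6849075 .leaf)) 6849076 (.node (.node (.node .leaf 6849091 .leaf) 6849092 .leaf) 6849093 (.node .leaf 6849094 .leaf))) 6849108 (.node (.node (.node (.node .leaf 6849124 .leaf) 6849331 .leaf) 6849348 (.node .leaf 6849349 .leaf)) 6849350 (.node (.node (.node .leaf 6849364 .leaf) 6849604 .leaf) 6849605 (.node .leaf 6849620 .leaf))))) 6849860 (.node (.node (.node (.node (.node (.node .leaf 6849861 .leaf) 6849876 .leaf) 6850099 (.node (.node .leaf 6850116 .leaf) 6850355 .leaf)) 6850884 (.node (.node (.node .leaf 6850885 .leaf) 6850900 .leaf) 6850901 (.node .leaf 6851123 .leaf))) 6851140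 (.node (.node (.node (.node .leaf 6851141 .leaf) 6851142 .leaf) 6851156 (.node .leaf 6851172 .leaf)) 6852915 (.node (.node (.node .leaf 6853171 .leaf) 6853172 .leaf) 6853187 (.node .leaf 6853427 .leaf)))) 6853939 (.node (.node (.node (.node (.node .leaf 6854195 .leaf) 6854451 .leaf) 6854980 (.node (.node .leaf 6854981 .leaf) 6854996 .leaf)) 6854997 (.node (.node (.node .leaf 6855219 .leaf) 6855236 .leaf) 6855237 (.node .leaf 6855238 .leaf))) 6855252 (.node (.node (.node (.node .leaf 6855268 .leaf) 6857011 .leaf) 6857045 (.node .leaf 6857267 .leaf)) 6857268 (.node (.node (.node .leaf 6857283 .leaf) 6857301 .leaf) 6857302 (.node .leaf 6857523 .leaf)))))))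

def c14 : NatTree := (.node (.node (.node (.node (.node (.node (.node (.node .leaf 6857779 .leaf) 6857813 .leaf) 6858035 (.node (.node .leaf 6858069 .leaf) 6858291 .leaf)) 6858547 (.node (.node (.node .leaf 6859076 .leaf) 6859077 .leaf) 6859092 (.node .leaf 6859093 .leaf))) 6859315 (.node (.node (.node (.node .leaf 6859332 .leaf) 6859333 .leaf) 6859334 (.node (.node .leaf 6859348 .leaf) 6859364 .leaf)) 6885700 (.node (.node (.node .leaf 6885701 .leaf) 6885716 .leaf) 6885956 (.node .leaf 6885957 .leaf)))) 6885958 (.node (.node (.node (.node (.node .leaf 6885972 .leaf) 6886212 .leaf) 6886213 (.node (.node .leaf 6886228 .leaf) 6886469 .leaf)) 6886724 (.node (.node (.node .leaf 6886725 .leaf) 6886740 .leaf) 6886980 (.node .leaf 6886981 .leaf))) 6887236 (.node (.node (.node (.node .leaf 6887237 .leaf) 6887492 .leaf) 6887493 (.node .leaf 6888021 .leaf)) 6888022 (.node (.node (.node .leaf 6888037 .leaf) 6888038 .leaf) 6889796 (.node .leaf 6890052 .leaf))))) 6890053 (.node (.node (.node (.node (.node (.node .leaf 6890068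 .leaf) 6890308 .leaf) 6890820 (.node (.node .leaf 6891076 .leaf) 6891332 .leaf)) 6891588 (.node (.node (.node .leaf 6892117 .leaf) 6892118 .leaf) 6892133 (.node .leaf 6892134 .leaf))) 6896213 (.node (.node (.node (.node .leaf 6902118 .leaf) 6902374 .leaf) 6902630 (.node .leaf 6902886 .leaf)) 6903142 (.node (.node (.node .leaf 6904388 .leaf) 6906214 .leaf) 6906470 (.node .leaf 6906726 .leaf)))) 6906982 (.node (.node (.node (.node (.node .leaf 6907238 .leaf) 6910276 .leaf) 6910277 (.node (.node .leaf 6910278 .leaf) 6910292 .leaf)) 6910293 (.node (.node (.node .leaf 6910294 .leaf) 6910308 .leaf) 6910309 (.node .leaf 6910310 .leaf))) 6910532 (.node (.node (.node (.node .leaf 6910533 .leaf) 6910534 .leaf) 6910548 (.node .leaf 6910549 .leaf)) 6910550 (.node (.node (.node .leaf 6910564 .leaf) 6910565 .leaf) 6910566 (.node .leaf 6910788 .leaf)))))) 6910789 (.node (.node (.node (.node (.node (.node (.node .leaf 6910790 .leaf) 6910804 .leaf) 6910805 (.node (.node .leaf 6910820 .leaf) 6910821 .leaf)) 6910822 (.node (.node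 (.node .leaf 6911044 .leaf) 6911045 .leaf) 6911060 (.node .leaf 6911061 .leaf))) 6911078 (.node (.node (.node (.node .leaf 6911300 .leaf) 6911301 .leaf) 6911316 (.node (.node .leaf 6911317 .leaf) 6911334 .leaf)) 6911556 (.node (.node (.node .leaf 6911557 .leaf) 6911572 .leaf) 6911573 (.node .leaf 6911812 .leaf)))) 6912068 (.node (.node (.node (.node (.node .leaf 6912580 .leaf) 6912581 .leaf) 6912582 (.node (.node .leaf 6912596 .leaf) 6912597 .leaf)) 6912598 (.node (.node (.node .leaf 6912612 .leaf) 6912613 .leaf) 6912614 (.node .leaf 6914628 .leaf))) 6914644 (.node (.node (.node (.node .leaf 6914645 .leaf) 6915908 .leaf) 6916164 (.node .leaf 6916693 .leaf)) 6916694 (.node (.node (.node .leaf 6916709 .leaf) 6916710 .leaf) 6918468 (.node .leaf 6918724 .leaf))))) 6918725 (.node (.node (.node (.node (.node (.node .leaf 6918740 .leaf) 6918741 .leaf) 6918980 (.node (.node .leaf 6919236 .leaf) 6919748 .leaf)) 6920004 (.node (.node (.node .leaf 6920260 .leaf) 6920789 .leaf) 6920790 (.node .leaf 6920805 .leaf))) 6920806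 (.node (.node (.node (.node .leaf 6922564 .leaf) 6922565 .leaf) 6922580 (.node .leaf 6922820 .leaf)) 6922821 (.node (.node (.node .leaf 6922822 .leaf) 6922836 .leaf) 6923076 (.node .leaf 6923077 .leaf)))) 6923092 (.node (.node (.node (.node (.node .leaf 6923332 .leaf) 6923333 .leaf) 6923348 (.node (.node .leaf 6923588 .leaf) 6923589 .leaf)) 6923604 (.node (.node (.node .leaf 6923844 .leaf) 6923845 .leaf) 6924100 (.node .leaf 6924101 .leaf))) 6924356 (.node (.node (.node (.node .leaf 6924357 .leaf) 6924885 .leaf) 6924886 (.node .leaf 6924901 .leaf)) 6924902 (.node (.node (.node .leaf 7607569 .leaf) 7607570 .leaf) 7607571 (.node .leaf 7607585 .leaf)))))))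

def c15 : NatTree := (.node (.node (.node (.node (.node (.node (.node (.node .leaf 7607587 .leaf) 7607601 .leaf) 7607602 (.node (.node .leaf 7607603 .leaf) 7607825 .leaf)) 7607826 (.node (.node (.node .leaf 7607827 .leaf) 7607841 .leaf) 7607857 (.node .leaf 7611665 .leaf))) 7611666 (.node (.node (.node (.node .leaf 7611667 .leaf) 7611668 .leaf) 7611681 (.node (.node .leaf 7611682 .leaf) 7611683 .leaf)) 7611684 (.node (.node (.node .leaf 7611697 .leaf) 7611698 .leaf) 7611699 (.node .leaf 7611700 .leaf)))) 7611713 (.node (.node (.node (.node (.node .leaf 7611714 .leaf) 7611715 .leaf) 7611716 (.node (.node .leaf 7611921 .leaf) 7611922 .leaf)) 7611923 (.node (.node (.node .leaf 7611924 .leaf) 7611937 .leaf) 7611953 (.node .leaf 7611969 .leaf))) 7615761 (.node (.node (.node (.node .leaf 7615762 .leaf) 7615763 .leaf) 7615777 (.node .leaf 7615778 .leaf)) 7615779 (.node (.node (.node .leaf 7615793 .leaf) 7615794 .leaf) 7615795 (.node .leaf 7616017 .leaf))))) 7616018 (.node (.node (.node (.node (.node (.node .leaf 7616019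 .leaf) 7616033 .leaf) 7616049 (.node (.node .leaf 7619857 .leaf) 7619858 .leaf)) 7619859 (.node (.node (.node .leaf 7619873 .leaf) 7619874 .leaf) 7619875 (.node .leaf 7619889 .leaf))) 7619890 (.node (.node (.node (.node .leaf 7619891 .leaf) 7620113 .leaf) 7620114 (.node .leaf 7620115 .leaf)) 7620129 (.node (.node (.node .leaf 7620145 .leaf) 7636241 .leaf) 7636242 (.node .leaf 7636243 .leaf)))) 7636257 (.node (.node (.node (.node (.node .leaf 7636258 .leaf) 7636259 .leaf) 7636273 (.node (.node .leaf 7636274 .leaf) 7636275 .leaf)) 7640337 (.node (.node (.node .leaf 7640338 .leaf) 7640339 .leaf) 7640353 (.node .leaf 7640354 .leaf))) 7640355 (.node (.node (.node (.node .leaf 7640369 .leaf) 7640370 .leaf) 7640371 (.node .leaf 7640593 .leaf)) 7640594 (.node (.node (.node .leaf 7640595 .leaf) 7640609 .leaf) 7640625 (.node .leaf 7644433 .leaf)))))) 7644434 (.node (.node (.node (.node (.node (.node (.node .leaf 7644435 .leaf) 7644449 .leaf) 7644450 (.node (.node .leaf 7644451 .leaf) 7644465 .leaf)) 7644466 (.node (.node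 (.node .leaf 7644467 .leaf) 7644689 .leaf) 7644690 (.node .leaf 7644691 .leaf))) 7644705 (.node (.node (.node (.node .leaf 7644721 .leaf) 7672097 .leaf) 7672115 (.node .leaf 7672354 .leaf)) 7672371 (.node (.node (.node .leaf 7672594 .leaf) 7672609 .leaf) 7672850 (.node .leaf 7672865 .leaf)))) 7672866 (.node (.node (.node (.node (.node .leaf 7673378 .leaf) 7673379 .leaf) 7673394 (.node (.node .leaf 7673395 .leaf) 7673618 .leaf)) 7673633 (.node (.node (.node .leaf 7673634 .leaf) 7673635 .leaf) 7673636 (.node .leaf 7673650 .leaf))) 7673666 (.node (.node (.node (.node .leaf 7673874 .leaf) 7673889 .leaf) 7673890 (.node .leaf 7674130 .leaf)) 7674145 (.node (.node (.node .leaf 7674146 .leaf) 7674385 .leaf) 7674386 (.node .leaf 7674401 .leaf))))) 7674402 (.node (.node (.node (.node (.node (.node .leaf 7676179 .leaf) 7676209 .leaf) 7676211 (.node (.node .leaf 7676212 .leaf) 7676227 .leaf)) 7676466 (.node (.node (.node .leaf 7676467 .leaf) 7676468 .leaf) 7676483 (.node .leaf 7676691 .leaf))) 7676721 (.node (.node (.node (.node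 .leaf 7676723 .leaf) 7676724 .leaf) 7676947 (.node .leaf 7676963 .leaf)) 7676977 (.node (.node (.node .leaf 7676978 .leaf) 7676979 .leaf) 7677474 (.node .leaf 7677475 .leaf)))) 7677476 (.node (.node (.node (.node (.node .leaf 7677490 .leaf) 7677491 .leaf) 7677492 (.node (.node .leaf 7677506 .leaf) 7677507 .leaf)) 7677508 (.node (.node (.node .leaf 7677715 .leaf) 7677730 .leaf) 7677731 (.node .leaf 7677732 .leaf))) 7677746 (.node (.node (.node (.node .leaf 7677747 .leaf) 7677762 .leaf) 7677971 (.node .leaf 7677986 .leaf)) 7677987 (.node (.node (.node .leaf 7678001 .leaf) 7678002 .leaf) 7678003 (.node .leaf 7678227 .leaf)))))))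

def c16 : NatTree := (.node (.node (.node (.node (.node (.node (.node (.node .leaf 7678243 .leaf) 7678257 .leaf) 7678258 (.node (.node .leaf 7678259 .leaf) 7678481 .leaf)) 7678482 (.node (.node (.node .leaf 7678483 .leaf) 7678497 .leaf) 7678498 (.node .leaf 7678499 .leaf))) 7678513 (.node (.node (.node (.node .leaf 7678514 .leaf) 7678515 .leaf) 7680274 (.node (.node .leaf 7680289 .leaf) 7680785 .leaf)) 7680786 (.node (.node (.node .leaf 7680801 .leaf) 7681041 .leaf) 7681042 (.node .leaf 7681057 .leaf)))) 7681058 (.node (.node (.node (.node (.node .leaf 7681570 .leaf) 7681571 .leaf) 7681586 (.node (.node .leaf 7681587 .leaf) 7681810 .leaf)) 7681825 (.node (.node (.node .leaf 7681826 .leaf) 7681827 .leaf) 7681828 (.node .leaf 7681842 .leaf))) 7682066 (.node (.node (.node (.node .leaf 7682081 .leaf) 7682082 .leaf) 7682322 (.node .leaf 7682337 .leaf)) 7682338 (.node (.node (.node .leaf 7682577 .leaf) 7682578 .leaf) 7682593 (.node .leaf 7682594 .leaf))))) 7684403 (.node (.node (.node (.node (.node (.node .leaf 7684659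 .leaf) 7684915 .leaf) 7685666 (.node (.node .leaf 7685667 .leaf) 7685682 .leaf)) 7685683 (.node (.node (.node .leaf 7685922 .leaf) 7685923 .leaf) 7685938 (.node .leaf 7700770 .leaf))) 7700771 (.node (.node (.node (.node .leaf 7700786 .leaf) 7700787 .leaf) 7701026 (.node .leaf 7701027 .leaf)) 7701042 (.node (.node (.node .leaf 7701043 .leaf) 7701282 .leaf) 7701522 (.node .leaf 7701537 .leaf)))) 7701538 (.node (.node (.node (.node (.node .leaf 7702033 .leaf) 7702034 .leaf) 7702035 (.node (.node .leaf 7702036 .leaf) 7702049 .leaf)) 7702050 (.node (.node (.node .leaf 7702051 .leaf) 7702065 .leaf) 7702066 (.node .leaf 7702067 .leaf))) 7702081 (.node (.node (.node (.node .leaf 7702306 .leaf) 7702307 .leaf) 7702322 (.node .leaf 7702323 .leaf)) 7702562 (.node (.node (.node .leaf 7702563 .leaf) 7702578 .leaf) 7702579 (.node .leaf 7702818 .leaf)))))) 7702819 (.node (.node (.node (.node (.node (.node (.node .leaf 7702834 .leaf) 7702835 .leaf) 7703074 (.node (.node .leaf 7703075 .leaf) 7703090 .leaf)) 7703091 (.node (.node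 (.node .leaf 7704850 .leaf) 7704865 .leaf) 7704866 (.node .leaf 7704867 .leaf))) 7704868 (.node (.node (.node (.node .leaf 7704882 .leaf) 7704898 .leaf) 7705122 (.node (.node .leaf 7705123 .leaf) 7705124 .leaf)) 7705138 (.node (.node (.node .leaf 7705154 .leaf) 7705362 .leaf) 7705377 (.node .leaf 7705378 .leaf)))) 7705379 (.node (.node (.node (.node (.node .leaf 7705394 .leaf) 7705618 .leaf) 7705633 (.node (.node .leaf 7705634 .leaf) 7706146 .leaf)) 7706147 (.node (.node (.node .leaf 7706162 .leaf) 7706163 .leaf) 7706386 (.node .leaf 7706401 .leaf))) 7706402 (.node (.node (.node (.node .leaf 7706403 .leaf) 7706404 .leaf) 7706418 (.node .leaf 7706434 .leaf)) 7706642 (.node (.node (.node .leaf 7706657 .leaf) 7706658 .leaf) 7706659 (.node .leaf 7706660 .leaf))))) 7706674 (.node (.node (.node (.node (.node (.node .leaf 7706690 .leaf) 7706898 .leaf) 7706913 (.node (.node .leaf 7706914 .leaf) 7706915 .leaf)) 7706916 (.node (.node (.node .leaf 7706930 .leaf) 7706946 .leaf) 7707153 (.node .leaf 7707154 .leaf))) 7707169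 (.node (.node (.node (.node .leaf 7707170 .leaf) 7707171 .leaf) 7707172 (.node .leaf 7707186 .leaf)) 7707202 (.node (.node (.node .leaf 7708945 .leaf) 7708946 .leaf) 7708961 (.node .leaf 7708962 .leaf)))) 7709201 (.node (.node (.node (.node (.node .leaf 7709202 .leaf) 7709217 .leaf) 7709218 (.node (.node .leaf 7709457 .leaf) 7709458 .leaf)) 7709473 (.node (.node (.node .leaf 7709474 .leaf) 7709713 .leaf) 7709714 (.node .leaf 7709729 .leaf))) 7709730 (.node (.node (.node (.node .leaf 7710242 .leaf) 7710243 .leaf) 7710258 (.node .leaf 7710259 .leaf)) 7710481 (.node (.node (.node .leaf 7710498 .leaf) 7710499 .leaf) 7710500 (.node .leaf 7710514 .leaf)))))))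

def c17 : NatTree := (.node (.node (.node (.node (.node (.node (.node (.node .leaf 7710737 .leaf) 7710738 .leaf) 7710753 (.node (.node .leaf 7710754 .leaf) 7710993 .leaf)) 7710994 (.node (.node (.node .leaf 7711009 .leaf) 7711010 .leaf) 7711249 (.node .leaf 7711250 .leaf))) 7711265 (.node (.node (.node (.node .leaf 7711266 .leaf) 7737635 .leaf) 7737650 (.node (.node .leaf 7737668 .leaf) 7737924 .leaf)) 7738147 (.node (.node (.node .leaf 7738162 .leaf) 7739187 .leaf) 7739188 (.node .leaf 7739203 .leaf)))) 7739204 (.node (.node (.node (.node (.node .leaf 7739443 .leaf) 7739444 .leaf) 7739445 (.node (.node .leaf 7739459 .leaf) 7739475 .leaf)) 7741730 (.node (.node (.node .leaf 7741762 .leaf) 7741764 .leaf) 7741765 (.node .leaf 7741780 .leaf))) 7742020 (.node (.node (.node (.node .leaf 7742021 .leaf) 7742036 .leaf) 7742274 (.node .leaf 7742275 .leaf)) 7742276 (.node (.node (.node .leaf 7742277 .leaf) 7742498 .leaf) 7742755 (.node .leaf 7742771 .leaf))))) 7743283 (.node (.node (.node (.node (.node (.node .leaf 7743284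 .leaf) 7743299 .leaf) 7743300 (.node (.node .leaf 7743539 .leaf) 7743540 .leaf)) 7743541 (.node (.node (.node .leaf 7743555 .leaf) 7743571 .leaf) 7745827 (.node .leaf 7745842 .leaf))) 7746338 (.node (.node (.node (.node .leaf 7746339 .leaf) 7746354 .leaf) 7746850 (.node .leaf 7747379 .leaf)) 7747380 (.node (.node (.node .leaf 7747635 .leaf) 7747636 .leaf) 7747651 (.node .leaf 7747667 .leaf)))) 7749938 (.node (.node (.node (.node (.node .leaf 7749956 .leaf) 7750212 .leaf) 7750434 (.node (.node .leaf 7750450 .leaf) 7750468 .leaf)) 7750690 (.node (.node (.node .leaf 7751475 .leaf) 7751731 .leaf) 7751732 (.node .leaf 7751747 .leaf))) 7754034 (.node (.node (.node (.node .leaf 7754530 .leaf) 7754546 .leaf) 7755827 (.node .leaf 7758114 .leaf)) 7758130 (.node (.node (.node .leaf 7758370 .leaf) 7758626 .leaf) 7758642 (.node .leaf 7759650 .leaf)))))) 7759906 (.node (.node (.node (.node (.node (.node (.node .leaf 7760162 .leaf) 7760418 .leaf) 7766323 (.node (.node .leaf 7766324 .leaf) 7766339 .leaf)) 7766340 (.node (.node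 (.node .leaf 7766579 .leaf) 7766580 .leaf) 7766595 (.node .leaf 7766596 .leaf))) 7766835 (.node (.node (.node (.node .leaf 7766836 .leaf) 7767842 .leaf) 7767843 (.node (.node .leaf 7767844 .leaf) 7767858 .leaf)) 7767859 (.node (.node (.node .leaf 7767860 .leaf) 7767874 .leaf) 7767875 (.node .leaf 7767876 .leaf)))) 7768115 (.node (.node (.node (.node (.node .leaf 7768116 .leaf) 7768131 .leaf) 7768132 (.node (.node .leaf 7768371 .leaf) 7768372 .leaf)) 7768387 (.node (.node (.node .leaf 7768388 .leaf) 7768627 .leaf) 7768628 (.node .leaf 7768643 .leaf))) 7768644 (.node (.node (.node (.node .leaf 7770418 .leaf) 7770419 .leaf) 7770420 (.node .leaf 7770421 .leaf)) 7770435 (.node (.node (.node .leaf 7770451 .leaf) 7770675 .leaf) 7770676 (.node .leaf 7770677 .leaf))))) 7770691 (.node (.node (.node (.node (.node (.node .leaf 7770707 .leaf) 7770930 .leaf) 7770931 (.node (.node .leaf 7770932 .leaf) 7770947 .leaf)) 7771187 (.node (.node (.node .leaf 7771955 .leaf) 7771956 .leaf) 7771971 (.node .leaf 7771972 .leaf))) 7772211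 (.node (.node (.node (.node .leaf 7772212 .leaf) 7772213 .leaf) 7772227 (.node .leaf 7772243 .leaf)) 7772467 (.node (.node (.node .leaf 7772468 .leaf) 7772469 .leaf) 7772483 (.node .leaf 7772499 .leaf)))) 7772723 (.node (.node (.node (.node (.node .leaf 7772724 .leaf) 7772725 .leaf) 7772739 (.node (.node .leaf 7772755 .leaf) 7774514 .leaf)) 7775026 (.node (.node (.node .leaf 7776051 .leaf) 7776052 .leaf) 7776067 (.node .leaf 7776068 .leaf))) 7776307 (.node (.node (.node (.node .leaf 7776308 .leaf) 7776309 .leaf) 7776323 (.node .leaf 7776339 .leaf)) 7803187 (.node (.node (.node .leaf 7803188 .leaf) 7803203 .leaf) 7803204 (.node .leaf 7803221 .leaf)))))))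

def c18 : NatTree := (.node (.node (.node (.node (.node (.node (.node (.node .leaf 7803444 .leaf) 7803445 .leaf) 7803459 (.node (.node .leaf 7803460 .leaf) 7803461 .leaf)) 7803477 (.node (.node (.node .leaf 7803493 .leaf) 7803699 .leaf) 7803700 (.node .leaf 7803715 .leaf))) 7803716 (.node (.node (.node (.node .leaf 7803955 .leaf) 7803956 .leaf) 7803989 (.node (.node .leaf 7804211 .leaf) 7804212 .leaf)) 7804467 (.node (.node (.node .leaf 7804468 .leaf) 7804996 .leaf) 7804997 (.node .leaf 7805012 .leaf)))) 7805013 (.node (.node (.node (.node (.node .leaf 7805235 .leaf) 7805236 .leaf) 7805252 (.node (.node .leaf 7805253 .leaf) 7805254 .leaf)) 7805268 (.node (.node (.node .leaf 7805284 .leaf) 7805491 .leaf) 7805492 (.node .leaf 7807283 .leaf))) 7807284 (.node (.node (.node (.node .leaf 7807299 .leaf) 7807300 .leaf) 7807315 (.node .leaf 7807316 .leaf)) 7807317 (.node (.node (.node .leaf 7807318 .leaf) 7807539 .leaf) 7807540 (.node .leaf 7807541 .leaf))))) 7807555 (.node (.node (.node (.node (.node (.node .leaf 7807556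 .leaf) 7807557 .leaf) 7807571 (.node (.node .leaf 7807572 .leaf) 7807573 .leaf)) 7807574 (.node (.node (.node .leaf 7807589 .leaf) 7807795 .leaf) 7807796 (.node .leaf 7807812 .leaf))) 7807829 (.node (.node (.node (.node .leaf 7807830 .leaf) 7808051 .leaf) 7808052 (.node .leaf 7808067 .leaf)) 7808068 (.node (.node (.node .leaf 7808085 .leaf) 7808308 .leaf) 7808323 (.node .leaf 7808563 .leaf)))) 7808564 (.node (.node (.node (.node (.node .leaf 7808579 .leaf) 7809092 .leaf) 7809093 (.node (.node .leaf 7809108 .leaf) 7809109 .leaf)) 7809331 (.node (.node (.node .leaf 7809332 .leaf) 7809347 .leaf) 7809348 (.node .leaf 7809349 .leaf))) 7809350 (.node (.node (.node (.node .leaf 7809364 .leaf) 7809380 .leaf) 7809587 (.node .leaf 7809588 .leaf)) 7809603 (.node (.node (.node .leaf 7809604 .leaf) 7811379 .leaf) 7811380 (.node .leaf 7811395 .leaf)))))) 7811396 (.node (.node (.node (.node (.node (.node (.node .leaf 7811651 .leaf) 7811652 .leaf) 7811669 (.node (.node .leaf 7811685 .leaf) 7812147 .leaf)) 7812181 (.node (.node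 (.node .leaf 7813188 .leaf) 7813204 .leaf) 7813427 (.node .leaf 7813444 .leaf))) 7813445 (.node (.node (.node (.node .leaf 7813460 .leaf) 7813683 .leaf) 7815475 (.node (.node .leaf 7815491 .leaf) 7815509 .leaf)) 7815731 (.node (.node (.node .leaf 7815732 .leaf) 7815747 .leaf) 7815748 (.node .leaf 7815765 .leaf)))) 7815987 (.node (.node (.node (.node (.node .leaf 7816021 .leaf) 7816243 .leaf) 7816499 (.node (.node .leaf 7816755 .leaf) 7817284 .leaf)) 7817523 (.node (.node (.node .leaf 7817540 .leaf) 7817541 .leaf) 7817556 (.node .leaf 7817779 .leaf))) 7819571 (.node (.node (.node (.node .leaf 7819587 .leaf) 7819828 .leaf) 7819843 (.node .leaf 7820339 .leaf)) 7821619 (.node (.node (.node .leaf 7821636 .leaf) 7821875 .leaf) 7823667 (.node .leaf 7823683 .leaf))))) 7823923 (.node (.node (.node (.node (.node (.node .leaf 7823924 .leaf) 7823939 .leaf) 7824435 (.node (.node .leaf 7825459 .leaf) 7825715 .leaf)) 7825971 (.node (.node (.node .leaf 7831876 .leaf) 7831877 .leaf) 7831892 (.node .leaf 7831893 .leaf))) 7832132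 (.node (.node (.node (.node .leaf 7832133 .leaf) 7832148 .leaf) 7832149 (.node .leaf 7832388 .leaf)) 7832389 (.node (.node (.node .leaf 7832644 .leaf) 7833139 .leaf) 7833651 (.node .leaf 7833652 .leaf)))) 7833653 (.node (.node (.node (.node (.node .leaf 7833667 .leaf) 7833668 .leaf) 7833669 (.node (.node .leaf 7833683 .leaf) 7833684 .leaf)) 7833685 (.node (.node (.node .leaf 7833924 .leaf) 7833925 .leaf) 7833940 (.node .leaf 7833941 .leaf))) 7834180 (.node (.node (.node (.node .leaf 7834181 .leaf) 7834196 .leaf) 7834197 (.node .leaf 7835955 .leaf)) 7835971 (.node (.node (.node .leaf 7835972 .leaf) 7835973 .leaf) 7835974 (.node .leaf 7835988 .leaf)))))))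

def c19 : NatTree := (.node (.node (.node (.node (.node (.node (.node (.node .leaf 7836211 .leaf) 7836212 .leaf) 7836227 (.node (.node .leaf 7836228 .leaf) 7836229 .leaf)) 7836230 (.node (.node (.node .leaf 7836244 .leaf) 7836260 .leaf) 7836467 (.node .leaf 7836484 .leaf))) 7836485 (.node (.node (.node (.node .leaf 7836500 .leaf) 7836723 .leaf) 7836740 (.node (.node .leaf 7836741 .leaf) 7836756 .leaf)) 7836979 (.node (.node (.node .leaf 7836996 .leaf) 7837235 .leaf) 7837764 (.node .leaf 7837765 .leaf)))) 7837780 (.node (.node (.node (.node (.node .leaf 7837781 .leaf) 7838003 .leaf) 7838020 (.node (.node .leaf 7838021 .leaf) 7838022 .leaf)) 7838036 (.node (.node (.node .leaf 7838052 .leaf) 7838259 .leaf) 7838276 (.node .leaf 7838277 .leaf))) 7838278 (.node (.node (.node (.node .leaf 7838292 .leaf) 7838308 .leaf) 7840051 (.node .leaf 7840067 .leaf)) 7840307 (.node (.node (.node .leaf 7840308 .leaf) 7840323 .leaf) 7840324 (.node .leaf 7840563 .leaf))))) 7840819 (.node (.node (.node (.node (.node (.node .leaf 7841075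 .leaf) 7841331 .leaf) 7841860 (.node (.node .leaf 7841861 .leaf) 7841876 .leaf)) 7841877 (.node (.node (.node .leaf 7842099 .leaf) 7842116 .leaf) 7842117 (.node .leaf 7842118 .leaf))) 7842132 (.node (.node (.node (.node .leaf 7842148 .leaf) 7842355 .leaf) 7868741 (.node .leaf 7868756 .leaf)) 7868774 (.node (.node (.node .leaf 7868998 .leaf) 7869012 .leaf) 7869028 (.node .leaf 7869030 .leaf)))) 7869253 (.node (.node (.node (.node (.node .leaf 7869268 .leaf) 7869286 .leaf) 7869508 (.node (.node .leaf 7869509 .leaf) 7869524 .leaf)) 7869764 (.node (.node (.node .leaf 7869765 .leaf) 7869780 .leaf) 7869798 (.node .leaf 7870020 .leaf))) 7870021 (.node (.node (.node (.node .leaf 7870036 .leaf) 7870276 .leaf) 7870277 (.node .leaf 7870292 .leaf)) 7870805 (.node (.node (.node .leaf 7870806 .leaf) 7870821 .leaf) 7870822 (.node .leaf 7871044 .leaf)))))) 7871045 (.node (.node (.node (.node (.node (.node (.node .leaf 7871060 .leaf) 7871061 .leaf) 7871062 (.node (.node .leaf 7871063 .leaf) 7871077 .leaf)) 7871093 (.node (.node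 (.node .leaf 7872836 .leaf) 7872837 .leaf) 7873094 (.node .leaf 7873124 .leaf))) 7873126 (.node (.node (.node (.node .leaf 7873348 .leaf) 7873349 .leaf) 7873364 (.node (.node .leaf 7873604 .leaf) 7873605 .leaf)) 7873620 (.node (.node (.node .leaf 7873860 .leaf) 7873861 .leaf) 7873876 (.node .leaf 7874116 .leaf)))) 7874117 (.node (.node (.node (.node (.node .leaf 7874132 .leaf) 7874372 .leaf) 7874373 (.node (.node .leaf 7874388 .leaf) 7874901 .leaf)) 7874902 (.node (.node (.node .leaf 7874917 .leaf) 7874918 .leaf) 7875141 (.node .leaf 7875156 .leaf))) 7875157 (.node (.node (.node (.node .leaf 7875158 .leaf) 7875159 .leaf) 7875173 (.node .leaf 7875189 .leaf)) 7876932 (.node (.node (.node .leaf 7876948 .leaf) 7877188 .leaf) 7877189 (.node .leaf 7877204 .leaf))))) 7877220 (.node (.node (.node (.node (.node (.node .leaf 7877444 .leaf) 7877460 .leaf) 7877700 (.node (.node .leaf 7877701 .leaf) 7877716 .leaf)) 7877956 (.node (.node (.node .leaf 7877972 .leaf) 7878212 .leaf) 7878228 (.node .leaf 7878468 .leaf))) 7878484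 (.node (.node (.node (.node .leaf 7878997 .leaf) 7879236 .leaf) 7879252 (.node .leaf 7879253 .leaf)) 7879254 (.node (.node (.node .leaf 7879269 .leaf) 7881028 .leaf) 7881285 (.node .leaf 7881300 .leaf)))) 7883093 (.node (.node (.node (.node (.node .leaf 7883332 .leaf) 7883349 .leaf) 7883350 (.node (.node .leaf 7883365 .leaf) 7885124 .leaf)) 7885381 (.node (.node (.node .leaf 7887428 .leaf) 7887445 .leaf) 7889220 (.node .leaf 7889476 .leaf))) 7889477 (.node (.node (.node (.node .leaf 7889492 .leaf) 7891268 .leaf) 7891524 (.node .leaf 7897429 .leaf)) 7897430 (.node (.node (.node .leaf 7897445 .leaf) 7897685 .leaf) 7897686 (.node .leaf 7897701 .leaf)))))))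

def c20 : NatTree := (.node (.node (.node (.node (.node (.node (.node (.node .leaf 7897942 .leaf) 7898197 .leaf) 7898453 (.node (.node .leaf 7898948 .leaf) 7899460 .leaf)) 7899461 (.node (.node (.node .leaf 7899462 .leaf) 7899476 .leaf) 7899477 (.node .leaf 7899478 .leaf))) 7899492 (.node (.node (.node (.node .leaf 7899493 .leaf) 7899494 .leaf) 7899733 (.node (.node .leaf 7899734 .leaf) 7899749 .leaf)) 7901508 (.node (.node (.node .leaf 7901525 .leaf) 7901526 .leaf) 7901527 (.node .leaf 7901541 .leaf)))) 7901557 (.node (.node (.node (.node (.node .leaf 7901781 .leaf) 7901782 .leaf) 7901783 (.node (.node .leaf 7901797 .leaf) 7901813 .leaf)) 7902020 (.node (.node (.node .leaf 7902037 .leaf) 7902038 .leaf) 7902053 (.node .leaf 7902293 .leaf))) 7902294 (.node (.node (.node (.node .leaf 7902309 .leaf) 7902549 .leaf) 7902550 (.node .leaf 7902565 .leaf)) 7902788 (.node (.node (.node .leaf 7902805 .leaf) 7903044 .leaf) 7903573 (.node .leaf 7903574 .leaf))))) 7903589 (.node (.node (.node (.node (.node (.node .leaf 7903590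 .leaf) 7903812 .leaf) 7903829 (.node (.node .leaf 7903830 .leaf) 7903831 .leaf)) 7903845 (.node (.node (.node .leaf 7903861 .leaf) 7905604 .leaf) 7905638 (.node .leaf 7905861 .leaf))) 7905876 (.node (.node (.node (.node .leaf 7905894 .leaf) 7906150 .leaf) 7906406 (.node .leaf 7906662 .leaf)) 7906884 (.node (.node (.node .leaf 7907140 .leaf) 7907669 .leaf) 7907670 (.node .leaf 7907685 .leaf)))) 7907686 (.node (.node (.node (.node (.node .leaf 7907908 .leaf) 7907925 .leaf) 7907926 (.node (.node .leaf 7907927 .leaf) 7907941 .leaf)) 7907957 (.node (.node (.node .leaf 7934293 .leaf) 7934294 .leaf) 7934309 (.node .leaf 7934549 .leaf))) 7934550 (.node (.node (.node (.node .leaf 7934805 .leaf) 7934806 .leaf) 7934821 (.node .leaf 7935062 .leaf)) 7935317 (.node (.node (.node .leaf 7935318 .leaf) 7935333 .leaf) 7935573 (.node .leaf 7935574 .leaf)))))) 7935829 (.node (.node (.node (.node (.node (.node (.node .leaf 7935830 .leaf) 7936085 .leaf) 7936086 (.node (.node .leaf 7936614 .leaf) 7936615 .leaf)) 7936630 (.node (.node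 (.node .leaf 7936631 .leaf) 7938389 .leaf) 7938645 (.node .leaf 7939413 .leaf))) 7939669 (.node (.node (.node (.node .leaf 7939925 .leaf) 7940181 .leaf) 7940710 (.node (.node .leaf 7940711 .leaf) 7940726 .leaf)) 7940727 (.node (.node (.node .leaf 7942485 .leaf) 7942741 .leaf) 7942742 (.node .leaf 7942997 .leaf)))) 7943509 (.node (.node (.node (.node (.node .leaf 7944806 .leaf) 7948902 .leaf) 7957077 (.node (.node .leaf 7962965 .leaf) 7962966 .leaf)) 7962967 (.node (.node (.node .leaf 7962981 .leaf) 7962982 .leaf) 7962997 (.node .leaf 7962998 .leaf))) 7963221 (.node (.node (.node (.node .leaf 7963222 .leaf) 7963223 .leaf) 7963237 (.node .leaf 7963238 .leaf)) 7963253 (.node (.node (.node .leaf 7963254 .leaf) 7963477 .leaf) 7963478 (.node .leaf 7963479 .leaf))))) 7963493 (.node (.node (.node (.node (.node (.node .leaf 7963494 .leaf) 7963733 .leaf) 7963734 (.node (.node .leaf 7963749 .leaf) 7963750 .leaf)) 7963989 (.node (.node (.node .leaf 7963990 .leaf) 7964005 .leaf) 7964006 (.node .leaf 7964245 .leaf))) 7964246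 (.node (.node (.node (.node .leaf 7964261 .leaf) 7964262 .leaf) 7964501 (.node .leaf 7964757 .leaf)) 7965269 (.node (.node (.node .leaf 7965270 .leaf) 7965271 .leaf) 7965285 (.node .leaf 7965286 .leaf)))) 7965287 (.node (.node (.node (.node (.node .leaf 7965301 .leaf) 7965302 .leaf) 7965303 (.node (.node .leaf 7967061 .leaf) 7967318 .leaf)) 7967573 (.node (.node (.node .leaf 7967829 .leaf) 7968597 .leaf) 7968853 (.node .leaf 7969382 .leaf))) 7969383 (.node (.node (.node (.node .leaf 7969398 .leaf) 7969399 .leaf) 7971157 (.node .leaf 7971158 .leaf)) 7971173 (.node (.node (.node .leaf 7971413 .leaf) 7971414 .leaf) 7971429 (.node .leaf 7971669 .leaf)))))))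

def c21 : NatTree := (.node (.node (.node (.node (.node (.node (.node (.node .leaf 7971685 .leaf) 7971925 .leaf) 7971926 (.node (.node .leaf 7971941 .leaf) 7972181 .leaf)) 7972182 (.node (.node (.node .leaf 7972197 .leaf) 7972437 .leaf) 7972438 (.node .leaf 7972693 .leaf))) 7972694 (.node (.node (.node (.node .leaf 7972949 .leaf) 7972950 .leaf) 7973478 (.node (.node .leaf 7973479 .leaf) 7973494 .leaf)) 7973495 (.node (.node (.node .leaf 8590609 .leaf) 8590610 .leaf) 8590611 (.node .leaf 8590612 .leaf)))) 8590625 (.node (.node (.node (.node (.node .leaf 8590641 .leaf) 8590657 .leaf) 8594705 (.node (.node .leaf 8594706 .leaf) 8594707 .leaf)) 8594708 (.node (.node (.node .leaf 8594709 .leaf) 8594721 .leaf) 8594737 (.node .leaf 8594753 .leaf))) 8594769 (.node (.node (.node (.node .leaf 8598801 .leaf) 8598802 .leaf) 8598803 (.node .leaf 8598804 .leaf)) 8598817 (.node (.node (.node .leaf 8598833 .leaf) 8598849 .leaf) 8602897 (.node .leaf 8602898 .leaf))))) 8602899 (.node (.node (.node (.node (.node (.node .leaf 8602900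 .leaf) 8602913 .leaf) 8602929 (.node (.node .leaf 8602945 .leaf) 8606993 .leaf)) 8606994 (.node (.node (.node .leaf 8606995 .leaf) 8606996 .leaf) 8607009 (.node .leaf 8607025 .leaf))) 8607041 (.node (.node (.node (.node .leaf 8627473 .leaf) 8627474 .leaf) 8627475 (.node .leaf 8627476 .leaf)) 8627489 (.node (.node (.node .leaf 8627505 .leaf) 8627521 .leaf) 8655667 (.node .leaf 8656162 .leaf)))) 8656163 (.node (.node (.node (.node (.node .leaf 8656164 .leaf) 8656178 .leaf) 8656179 (.node (.node .leaf 8656180 .leaf) 8656194 .leaf)) 8656195 (.node (.node (.node .leaf 8656196 .leaf) 8656418 .leaf) 8656419 (.node .leaf 8656420 .leaf))) 8656434 (.node (.node (.node (.node .leaf 8656450 .leaf) 8659779 .leaf) 8660020 (.node .leaf 8660258 .leaf)) 8660259 (.node (.node (.node .leaf 8660260 .leaf) 8660274 .leaf) 8660275 (.node .leaf 8660276 .leaf)))))) 8660277 (.node (.node (.node (.node (.node (.node (.node .leaf 8660290 .leaf) 8660291 .leaf) 8660292 (.node (.node .leaf 8660306 .leaf) 8660307 .leaf)) 8660308 (.node (.node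 (.node .leaf 8660514 .leaf) 8660515 .leaf) 8660516 (.node .leaf 8660517 .leaf))) 8660530 (.node (.node (.node (.node .leaf 8660546 .leaf) 8660562 .leaf) 8664354 (.node (.node .leaf 8664355 .leaf) 8664356 .leaf)) 8664370 (.node (.node (.node .leaf 8664371 .leaf) 8664372 .leaf) 8664386 (.node .leaf 8664387 .leaf)))) 8664388 (.node (.node (.node (.node (.node .leaf 8664610 .leaf) 8664611 .leaf) 8664612 (.node (.node .leaf 8664626 .leaf) 8664642 .leaf)) 8668450 (.node (.node (.node .leaf 8668451 .leaf) 8668452 .leaf) 8668466 (.node .leaf 8668467 .leaf))) 8668468 (.node (.node (.node (.node .leaf 8668482 .leaf) 8668483 .leaf) 8668484 (.node .leaf 8668706 .leaf)) 8668707 (.node (.node (.node .leaf 8668708 .leaf) 8668722 .leaf) 8668738 (.node .leaf 8672546 .leaf))))) 8672547 (.node (.node (.node (.node (.node (.node .leaf 8672548 .leaf) 8672562 .leaf) 8672563 (.node (.node .leaf 8672564 .leaf) 8672578 .leaf)) 8672579 (.node (.node (.node .leaf 8672580 .leaf) 8672802 .leaf) 8672803 (.node .leaf 8672804 .leaf))) 8672818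 (.node (.node (.node (.node .leaf 8672834 .leaf) 8688913 .leaf) 8688914 (.node .leaf 8688915 .leaf)) 8688916 (.node (.node (.node .leaf 8688917 .leaf) 8688929 .leaf) 8688930 (.node .leaf 8688931 .leaf)))) 8688932 (.node (.node (.node (.node (.node .leaf 8688945 .leaf) 8688946 .leaf) 8688947 (.node (.node .leaf 8688948 .leaf) 8688961 .leaf)) 8688962 (.node (.node (.node .leaf 8688963 .leaf) 8688964 .leaf) 8688977 (.node .leaf 8693026 .leaf))) 8693027 (.node (.node (.node (.node .leaf 8693028 .leaf) 8693042 .leaf) 8693043 (.node .leaf 8693044 .leaf)) 8693058 (.node (.node (.node .leaf 8693059 .leaf) 8693060 .leaf) 8693282 (.node .leaf 8693283 .leaf)))))))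

def c22 : NatTree := (.node (.node (.node (.node (.node (.node (.node (.node .leaf 8693298 .leaf) 8693314 .leaf) 8720675 (.node (.node .leaf 8720690 .leaf) 8720708 .leaf)) 8720931 (.node (.node (.node .leaf 8720946 .leaf) 8721187 .leaf) 8721202 (.node .leaf 8721443 .leaf))) 8721458 (.node (.node (.node (.node .leaf 8721459 .leaf) 8721971 .leaf) 8721972 (.node (.node .leaf 8721987 .leaf) 8721988 .leaf)) 8722211 (.node (.node (.node .leaf 8722226 .leaf) 8722227 .leaf) 8722228 (.node .leaf 8722229 .leaf)))) 8722243 (.node (.node (.node (.node (.node .leaf 8722259 .leaf) 8722467 .leaf) 8722482 (.node (.node .leaf 8722483 .leaf) 8722723 .leaf)) 8722738 (.node (.node (.node .leaf 8722739 .leaf) 8722979 .leaf) 8722994 (.node .leaf 8722995 .leaf))) 8723012 (.node (.node (.node (.node .leaf 8724802 .leaf) 8724804 .leaf) 8724820 (.node .leaf 8725058 .leaf)) 8725060 (.node (.node (.node .leaf 8725314 .leaf) 8725316 .leaf) 8725570 (.node .leaf 8725571 .leaf))))) 8725572 (.node (.node (.node (.node (.node (.node .leaf 8725829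 .leaf) 8725845 .leaf) 8726067 (.node (.node .leaf 8726068 .leaf) 8726069 .leaf)) 8726083 (.node (.node (.node .leaf 8726084 .leaf) 8726085 .leaf) 8726099 (.node .leaf 8726100 .leaf))) 8726101 (.node (.node (.node (.node .leaf 8726308 .leaf) 8726323 .leaf) 8726324 (.node .leaf 8726325 .leaf)) 8726338 (.node (.node (.node .leaf 8726339 .leaf) 8726340 .leaf) 8726355 (.node .leaf 8726564 .leaf)))) 8726580 (.node (.node (.node (.node (.node .leaf 8726594 .leaf) 8726595 .leaf) 8726596 (.node (.node .leaf 8726820 .leaf) 8726836 .leaf)) 8726850 (.node (.node (.node .leaf 8726851 .leaf) 8726852 .leaf) 8727076 (.node .leaf 8727092 .leaf))) 8727106 (.node (.node (.node (.node .leaf 8727107 .leaf) 8727108 .leaf) 8727124 (.node .leaf 8728867 .leaf)) 8728900 (.node (.node (.node .leaf 8729123 .leaf) 8729379 .leaf) 8729394 (.node .leaf 8729635 .leaf)))))) 8729650 (.node (.node (.node (.node (.node (.node (.node .leaf 8729651 .leaf) 8730163 .leaf) 8730164 (.node (.node .leaf 8730179 .leaf) 8730180 .leaf)) 8730403 (.node (.node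 (.node .leaf 8730418 .leaf) 8730419 .leaf) 8730420 (.node .leaf 8730421 .leaf))) 8730435 (.node (.node (.node (.node .leaf 8730451 .leaf) 8730659 .leaf) 8730674 (.node (.node .leaf 8730675 .leaf) 8730915 .leaf)) 8730930 (.node (.node (.node .leaf 8730931 .leaf) 8731171 .leaf) 8731186 (.node .leaf 8731187 .leaf)))) 8731204 (.node (.node (.node (.node (.node .leaf 8732962 .leaf) 8732963 .leaf) 8732978 (.node (.node .leaf 8733218 .leaf) 8733219 .leaf)) 8733234 (.node (.node (.node .leaf 8733474 .leaf) 8733475 .leaf) 8733490 (.node .leaf 8733730 .leaf))) 8733731 (.node (.node (.node (.node .leaf 8733746 .leaf) 8733747 .leaf) 8734259 (.node .leaf 8734260 .leaf)) 8734275 (.node (.node (.node .leaf 8734276 .leaf) 8734498 .leaf) 8734499 (.node .leaf 8734514 .leaf))))) 8734515 (.node (.node (.node (.node (.node (.node .leaf 8734516 .leaf) 8734531 .leaf) 8734754 (.node (.node .leaf 8734755 .leaf) 8734770 .leaf)) 8734771 (.node (.node (.node .leaf 8735010 .leaf) 8735011 .leaf) 8735026 (.node .leaf 8735027 .leaf))) 8735266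 (.node (.node (.node (.node .leaf 8735267 .leaf) 8735282 .leaf) 8735283 (.node .leaf 8735300 .leaf)) 8737092 (.node (.node (.node .leaf 8738355 .leaf) 8738356 .leaf) 8738371 (.node .leaf 8738372 .leaf)))) 8738611 (.node (.node (.node (.node (.node .leaf 8738612 .leaf) 8738627 .leaf) 8739396 (.node (.node .leaf 8742707 .leaf) 8753459 .leaf)) 8753460 (.node (.node (.node .leaf 8753475 .leaf) 8753476 .leaf) 8753715 (.node .leaf 8753716 .leaf))) 8753731 (.node (.node (.node (.node .leaf 8753732 .leaf) 8753971 .leaf) 8754211 (.node .leaf 8754226 .leaf)) 8754227 (.node (.node (.node .leaf 8754722 .leaf) 8754723 .leaf) 8754724 (.node .leaf 8754725 .leaf)))))))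

def c23 : NatTree := (.node (.node (.node (.node (.node (.node (.node (.node .leaf 8754739 .leaf) 8754740 .leaf) 8754754 (.node (.node .leaf 8754755 .leaf) 8754756 .leaf)) 8754770 (.node (.node (.node .leaf 8754995 .leaf) 8754996 .leaf) 8755011 (.node .leaf 8755012 .leaf))) 8755251 (.node (.node (.node (.node .leaf 8755252 .leaf) 8755267 .leaf) 8755268 (.node (.node .leaf 8755507 .leaf) 8755508 .leaf)) 8755523 (.node (.node (.node .leaf 8755524 .leaf) 8755763 .leaf) 8755764 (.node .leaf 8755779 .leaf)))) 8755780 (.node (.node (.node (.node (.node .leaf 8757539 .leaf) 8757554 .leaf) 8757555 (.node (.node .leaf 8757556 .leaf) 8757557 .leaf)) 8757571 (.node (.node (.node .leaf 8757587 .leaf) 8757795 .leaf) 8757810 (.node .leaf 8757811 .leaf))) 8757812 (.node (.node (.node (.node .leaf 8757813 .leaf) 8757827 .leaf) 8757843 (.node .leaf 8758051 .leaf)) 8758066 (.node (.node (.node .leaf 8758067 .leaf) 8758068 .leaf) 8758083 (.node .leaf 8758307 .leaf))))) 8758322 (.node (.node (.node (.node (.node (.node .leaf 8758323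 .leaf) 8758835 .leaf) 8758836 (.node (.node .leaf 8758851 .leaf) 8758852 .leaf)) 8759075 (.node (.node (.node .leaf 8759090 .leaf) 8759091 .leaf) 8759092 (.node .leaf 8759093 .leaf))) 8759107 (.node (.node (.node (.node .leaf 8759123 .leaf) 8759331 .leaf) 8759346 (.node .leaf 8759347 .leaf)) 8759348 (.node (.node (.node .leaf 8759349 .leaf) 8759363 .leaf) 8759379 (.node .leaf 8759587 .leaf)))) 8759602 (.node (.node (.node (.node (.node .leaf 8759603 .leaf) 8759604 .leaf) 8759605 (.node (.node .leaf 8759619 .leaf) 8759635 .leaf)) 8759843 (.node (.node (.node .leaf 8759858 .leaf) 8759859 .leaf) 8759860 (.node .leaf 8759861 .leaf))) 8759875 (.node (.node (.node (.node .leaf 8759891 .leaf) 8786227 .leaf) 8786228 (.node .leaf 8786243 .leaf)) 8786261 (.node (.node (.node .leaf 8786483 .leaf) 8786499 .leaf) 8786740 (.node .leaf 8787251 .leaf)))))) 8787780 (.node (.node (.node (.node (.node (.node (.node .leaf 8787781 .leaf) 8787796 .leaf) 8787797 (.node (.node .leaf 8788019 .leaf) 8788036 .leaf)) 8788037 (.node (.node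 (.node .leaf 8788038 .leaf) 8788052 .leaf) 8788068 (.node .leaf 8788275 .leaf))) 8788531 (.node (.node (.node (.node .leaf 8788565 .leaf) 8790324 .leaf) 8790325 (.node (.node .leaf 8790339 .leaf) 8790355 .leaf)) 8790357 (.node (.node (.node .leaf 8790373 .leaf) 8790579 .leaf) 8790581 (.node .leaf 8790595 .leaf)))) 8790611 (.node (.node (.node (.node (.node .leaf 8790613 .leaf) 8790835 .leaf) 8790836 (.node (.node .leaf 8790837 .leaf) 8791091 .leaf)) 8791348 (.node (.node (.node .leaf 8791363 .leaf) 8791364 .leaf) 8791876 (.node .leaf 8791877 .leaf))) 8791892 (.node (.node (.node (.node .leaf 8791893 .leaf) 8792115 .leaf) 8792116 (.node .leaf 8792131 .leaf)) 8792132 (.node (.node (.node .leaf 8792133 .leaf) 8792134 .leaf) 8792148 (.node .leaf 8792164 .leaf))))) 8792371 (.node (.node (.node (.node (.node (.node .leaf 8792372 .leaf) 8792387 .leaf) 8792627 (.node (.node .leaf 8792628 .leaf) 8792643 .leaf)) 8792661 (.node (.node (.node .leaf 8792677 .leaf) 8794419 .leaf) 8794420 (.node .leaf 8794435 .leaf))) 8794453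 (.node (.node (.node (.node .leaf 8794675 .leaf) 8794676 .leaf) 8794691 (.node .leaf 8794932 .leaf)) 8795443 (.node (.node (.node .leaf 8795972 .leaf) 8795973 .leaf) 8796211 (.node .leaf 8796228 .leaf)))) 8796229 (.node (.node (.node (.node (.node .leaf 8796244 .leaf) 8796260 .leaf) 8796467 (.node (.node .leaf 8796723 .leaf) 8796757 .leaf)) 8798515 (.node (.node (.node .leaf 8798516 .leaf) 8798531 .leaf) 8798771 (.node .leaf 8798772 .leaf))) 8798787 (.node (.node (.node (.node .leaf 8799027 .leaf) 8799028 .leaf) 8799539 (.node .leaf 8800068 .leaf)) 8800324 (.node (.node (.node .leaf 8800325 .leaf) 8800340 .leaf) 8800819 (.node .leaf 8800853 .leaf)))))))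

def c24 : NatTree := (.node (.node (.node (.node (.node (.node (.node (.node .leaf 8802612 .leaf) 8802627 .leaf) 8802645 (.node (.node .leaf 8802867 .leaf) 8802868 .leaf)) 8802883 (.node (.node (.node .leaf 8803123 .leaf) 8803124 .leaf) 8803379 (.node .leaf 8804164 .leaf))) 8804420 (.node (.node (.node (.node .leaf 8804421 .leaf) 8804436 .leaf) 8804659 (.node (.node .leaf 8804915 .leaf) 8804949 .leaf)) 8806707 (.node (.node (.node .leaf 8806708 .leaf) 8806723 .leaf) 8806963 (.node .leaf 8806964 .leaf)))) 8806979 (.node (.node (.node (.node (.node .leaf 8807219 .leaf) 8807220 .leaf) 8808499 (.node (.node .leaf 8808516 .leaf) 8808755 .leaf)) 8809011 (.node (.node (.node .leaf 8810803 .leaf) 8810804 .leaf) 8810819 (.node .leaf 8811059 .leaf))) 8811060 (.node (.node (.node (.node .leaf 8811075 .leaf) 8811315 .leaf) 8811316 (.node .leaf 8812339 .leaf)) 8812595 (.node (.node (.node .leaf 8812851 .leaf) 8813107 .leaf) 8819012 (.node .leaf 8819013 .leaf))))) 8819028 (.node (.node (.node (.node (.node (.node .leaf 8819029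 .leaf) 8819268 .leaf) 8819269 (.node (.node .leaf 8819284 .leaf) 8819285 .leaf)) 8819524 (.node (.node (.node .leaf 8820019 .leaf) 8820531 .leaf) 8820532 (.node .leaf 8820533 .leaf))) 8820547 (.node (.node (.node (.node .leaf 8820548 .leaf) 8820549 .leaf) 8820563 (.node .leaf 8820564 .leaf)) 8820565 (.node (.node (.node .leaf 8820804 .leaf) 8820805 .leaf) 8820820 (.node .leaf 8820821 .leaf)))) 8821060 (.node (.node (.node (.node (.node .leaf 8821061 .leaf) 8821076 .leaf) 8821077 (.node (.node .leaf 8821316 .leaf) 8821317 .leaf)) 8821332 (.node (.node (.node .leaf 8821333 .leaf) 8823091 .leaf) 8823092 (.node .leaf 8823107 .leaf))) 8823108 (.node (.node (.node (.node .leaf 8823109 .leaf) 8823110 .leaf) 8823124 (.node .leaf 8823140 .leaf)) 8823347 (.node (.node (.node .leaf 8823348 .leaf) 8823363 .leaf) 8823364 (.node .leaf 8823365 .leaf)))))) 8823366 (.node (.node (.node (.node (.node (.node (.node .leaf 8823380 .leaf) 8823396 .leaf) 8823603 (.node (.node .leaf 8823604 .leaf) 8823620 .leaf)) 8823621 (.node (.node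 (.node .leaf 8823636 .leaf) 8823859 .leaf) 8823876 (.node .leaf 8824115 .leaf))) 8824644 (.node (.node (.node (.node .leaf 8824645 .leaf) 8824660 .leaf) 8824661 (.node (.node .leaf 8824883 .leaf) 8824900 .leaf)) 8824901 (.node (.node (.node .leaf 8824902 .leaf) 8824916 .leaf) 8824932 (.node .leaf 8825139 .leaf)))) 8825156 (.node (.node (.node (.node (.node .leaf 8825157 .leaf) 8825158 .leaf) 8825172 (.node (.node .leaf 8825188 .leaf) 8825395 .leaf)) 8825412 (.node (.node (.node .leaf 8825413 .leaf) 8825414 .leaf) 8825428 (.node .leaf 8825444 .leaf))) 8851781 (.node (.node (.node (.node .leaf 8851796 .leaf) 8851814 .leaf) 8852036 (.node .leaf 8852052 .leaf)) 8852292 (.node (.node (.node .leaf 8852293 .leaf) 8852548 .leaf) 8852804 (.node .leaf 8853060 .leaf))))) 8853589 (.node (.node (.node (.node (.node (.node .leaf 8853590 .leaf) 8853605 .leaf) 8853828 (.node (.node .leaf 8853845 .leaf) 8853846 .leaf)) 8853847 (.node (.node (.node .leaf 8853861 .leaf) 8853877 .leaf) 8854084 (.node .leaf 8854118 .leaf))) 8855877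 (.node (.node (.node (.node .leaf 8855878 .leaf) 8855908 .leaf) 8855910 (.node .leaf 8856134 .leaf)) 8856164 (.node (.node (.node .leaf 8856166 .leaf) 8856388 .leaf) 8856389 (.node .leaf 8856390 .leaf)))) 8856404 (.node (.node (.node (.node (.node .leaf 8856645 .leaf) 8856660 .leaf) 8856916 (.node (.node .leaf 8857156 .leaf) 8857157 .leaf)) 8857172 (.node (.node (.node .leaf 8857685 .leaf) 8857686 .leaf) 8857701 (.node .leaf 8857941 .leaf))) 8857942 (.node (.node (.node (.node .leaf 8857943 .leaf) 8857957 .leaf) 8857973 (.node .leaf 8858181 .leaf)) 8858196 (.node (.node (.node .leaf 8858214 .leaf) 8859973 .leaf) 8859988 (.node .leaf 8860006 .leaf)))))))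

def c25 : NatTree := (.node (.node (.node (.node (.node (.node (.node (.node .leaf 8860229 .leaf) 8860244 .leaf) 8860484 (.node (.node .leaf 8860485 .leaf) 8861781 .leaf)) 8861797 (.node (.node (.node .leaf 8862020 .leaf) 8862037 .leaf) 8862038 (.node .leaf 8862053 .leaf))) 8862310 (.node (.node (.node (.node .leaf 8864068 .leaf) 8864069 .leaf) 8864084 (.node (.node .leaf 8864324 .leaf) 8864325 .leaf)) 8864340 (.node (.node (.node .leaf 8864580 .leaf) 8864581 .leaf) 8864596 (.node .leaf 8865877 .leaf)))) 8866133 (.node (.node (.node (.node (.node .leaf 8866134 .leaf) 8866149 .leaf) 8866406 (.node (.node .leaf 8868164 .leaf) 8868165 .leaf)) 8868180 (.node (.node (.node .leaf 8868198 .leaf) 8868420 .leaf) 8868421 (.node .leaf 8868436 .leaf))) 8868676 (.node (.node (.node (.node .leaf 8868677 .leaf) 8869973 .leaf) 8870229 (.node .leaf 8870230 .leaf)) 8870245 (.node (.node (.node .leaf 8870502 .leaf) 8872260 .leaf) 8872261 (.node .leaf 8872276 .leaf))))) 8872516 (.node (.node (.node (.node (.node (.node .leaf 8872517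 .leaf) 8872532 .leaf) 8872772 (.node (.node .leaf 8872773 .leaf) 8874308 .leaf)) 8874325 (.node (.node (.node .leaf 8874564 .leaf) 8876356 .leaf) 8876357 (.node .leaf 8876372 .leaf))) 8876612 (.node (.node (.node (.node .leaf 8876613 .leaf) 8876628 .leaf) 8876868 (.node .leaf 8876869 .leaf)) 8878148 (.node (.node (.node .leaf 8878404 .leaf) 8878660 .leaf) 8884565 (.node .leaf 8884566 .leaf)))) 8884581 (.node (.node (.node (.node (.node .leaf 8884582 .leaf) 8884821 .leaf) 8884822 (.node (.node .leaf 8884837 .leaf) 8884838 .leaf)) 8885077 (.node (.node (.node .leaf 8885333 .leaf) 8885828 .leaf) 8886340 (.node .leaf 8886341 .leaf))) 8886342 (.node (.node (.node (.node .leaf 8886356 .leaf) 8886357 .leaf) 8886358 (.node .leaf 8886372 .leaf)) 8886373 (.node (.node (.node .leaf 8886374 .leaf) 8886613 .leaf) 8886614 (.node .leaf 8886629 .leaf)))))) 8886630 (.node (.node (.node (.node (.node (.node (.node .leaf 8886869 .leaf) 8886870 .leaf) 8886885 (.node (.node .leaf 8886886 .leaf) 8888644 .leaf)) 8888645 (.node (.node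 (.node .leaf 8888660 .leaf) 8888661 .leaf) 8888662 (.node .leaf 8888663 .leaf))) 8888677 (.node (.node (.node (.node .leaf 8888693 .leaf) 8888901 .leaf) 8888916 (.node (.node .leaf 8888917 .leaf) 8888918 .leaf)) 8888919 (.node (.node (.node .leaf 8888933 .leaf) 8888949 .leaf) 8889156 (.node .leaf 8889157 .leaf)))) 8889173 (.node (.node (.node (.node (.node .leaf 8889174 .leaf) 8889189 .leaf) 8889412 (.node (.node .leaf 8889429 .leaf) 8889430 .leaf)) 8889445 (.node (.node (.node .leaf 8889668 .leaf) 8889685 .leaf) 8889924 (.node .leaf 8890453 .leaf))) 8890454 (.node (.node (.node (.node .leaf 8890469 .leaf) 8890692 .leaf) 8890709 (.node .leaf 8890710 .leaf)) 8890711 (.node (.node (.node .leaf 8890725 .leaf) 8890741 .leaf) 8890948 (.node .leaf 8890965 .leaf))))) 8890966 (.node (.node (.node (.node (.node (.node .leaf 8890967 .leaf) 8890981 .leaf) 8890997 (.node (.node .leaf 8917333 .leaf) 8917334 .leaf)) 8917349 (.node (.node (.node .leaf 8917589 .leaf) 8917590 .leaf) 8917605 (.node .leaf 8917621 .leaf))) 8917845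 (.node (.node (.node (.node .leaf 8917846 .leaf) 8917861 .leaf) 8918101 (.node .leaf 8918102 .leaf)) 8918117 (.node (.node (.node .leaf 8918357 .leaf) 8918373 .leaf) 8918613 (.node .leaf 8918629 .leaf)))) 8918869 (.node (.node (.node (.node (.node .leaf 8918885 .leaf) 8919398 .leaf) 8919414 (.node (.node .leaf 8919637 .leaf) 8919653 .leaf)) 8919654 (.node (.node (.node .leaf 8919655 .leaf) 8919670 .leaf) 8919686 (.node .leaf 8921429 .leaf))) 8921430 (.node (.node (.node (.node .leaf 8921431 .leaf) 8921445 .leaf) 8921685 (.node .leaf 8921686 .leaf)) 8921687 (.node (.node (.node .leaf 8921701 .leaf) 8921717 .leaf) 8921941 (.node .leaf 8921942 .leaf)))))))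

def c26 : NatTree := (.node (.node (.node (.node (.node (.node (.node (.node .leaf 8921957 .leaf) 8922197 .leaf) 8922198 (.node (.node .leaf 8922213 .leaf) 8922453 .leaf)) 8922454 (.node (.node (.node .leaf 8922469 .leaf) 8922709 .leaf) 8922710 (.node .leaf 8922725 .leaf))) 8922965 (.node (.node (.node (.node .leaf 8922966 .leaf) 8922981 .leaf) 8923494 (.node (.node .leaf 8923510 .leaf) 8923733 .leaf)) 8923734 (.node (.node (.node .leaf 8923749 .leaf) 8923750 .leaf) 8923751 (.node .leaf 8923766 .leaf)))) 8923782 (.node (.node (.node (.node (.node .leaf 8925525 .leaf) 8925526 .leaf) 8925541 (.node (.node .leaf 8925781 .leaf) 8925782 .leaf)) 8925797 (.node (.node (.node .leaf 8925813 .leaf) 8926037 .leaf) 8926038 (.node .leaf 8926053 .leaf))) 8926293 (.node (.node (.node (.node .leaf 8926294 .leaf) 8926309 .leaf) 8926549 (.node .leaf 8926565 .leaf)) 8926805 (.node (.node (.node .leaf 8926821 .leaf) 8927061 .leaf) 8927077 (.node .leaf 8927590 .leaf))))) 8927829 (.node (.node (.node (.node (.node (.node .leaf 8927845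 .leaf) 8927846 .leaf) 8927847 (.node (.node .leaf 8927862 .leaf) 8929621 .leaf)) 8929622 (.node (.node (.node .leaf 8929637 .leaf) 8929877 .leaf) 8929878 (.node .leaf 8929893 .leaf))) 8930133 (.node (.node (.node (.node .leaf 8930134 .leaf) 8930149 .leaf) 8930389 (.node .leaf 8930645 .leaf)) 8930901 (.node (.node (.node .leaf 8931157 .leaf) 8931686 .leaf) 8931925 (.node .leaf 8931942 .leaf)))) 8931943 (.node (.node (.node (.node (.node .leaf 8931958 .leaf) 8933717 .leaf) 8933718 (.node (.node .leaf 8933973 .leaf) 8933974 .leaf)) 8933989 (.node (.node (.node .leaf 8934229 .leaf) 8934230 .leaf) 8934485 (.node .leaf 8935782 .leaf))) 8936038 (.node (.node (.node (.node .leaf 8936039 .leaf) 8936054 .leaf) 8937813 (.node .leaf 8937814 .leaf)) 8938069 (.node (.node (.node .leaf 8938070 .leaf) 8938085 .leaf) 8938325 (.node .leaf 8938326 .leaf)))))) 8938581 (.node (.node (.node (.node (.node (.node (.node .leaf 8940117 .leaf) 8941909 .leaf) 8941910 (.node (.node .leaf 8942165 .leaf) 8942166 .leaf)) 8942181 (.node (.node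 (.node .leaf 8942421 .leaf) 8942422 .leaf) 8942677 (.node .leaf 8943957 .leaf))) 8944213 (.node (.node (.node (.node .leaf 8950118 .leaf) 8950119 .leaf) 8950374 (.node (.node .leaf 8950375 .leaf) 8950630 .leaf)) 8950886 (.node (.node (.node .leaf 8951142 .leaf) 8951637 .leaf) 8952149 (.node .leaf 8952150 .leaf)))) 8952151 (.node (.node (.node (.node (.node .leaf 8952165 .leaf) 8952166 .leaf) 8952167 (.node (.node .leaf 8952181 .leaf) 8952182 .leaf)) 8952422 (.node (.node (.node .leaf 8952423 .leaf) 8954197 .leaf) 8954198 (.node .leaf 8954214 .leaf))) 8954215 (.node (.node (.node (.node .leaf 8954216 .leaf) 8954230 .leaf) 8954453 (.node .leaf 8954454 .leaf)) 8954469 (.node (.node (.node .leaf 8954470 .leaf) 8954471 .leaf) 8954472 (.node .leaf 8954486 .leaf))))) 8954709 (.node (.node (.node (.node (.node (.node .leaf 8954710 .leaf) 8954726 .leaf) 8954727 (.node (.node .leaf 8954742 .leaf) 8954965 .leaf)) 8954982 (.node (.node (.node .leaf 8954983 .leaf) 8954998 .leaf) 8955238 (.node .leaf 8955239 .leaf))) 8955254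 (.node (.node (.node (.node .leaf 8955477 .leaf) 8955733 .leaf) 8956262 (.node .leaf 8956278 .leaf)) 8956501 (.node (.node (.node .leaf 8956518 .leaf) 8956519 .leaf) 8956520 (.node .leaf 8956534 .leaf)))) 8956550 (.node (.node (.node (.node (.node .leaf 8982886 .leaf) 8982902 .leaf) 8983142 (.node (.node .leaf 8983158 .leaf) 8983398 .leaf)) 8983414 (.node (.node (.node .leaf 8983654 .leaf) 8983910 .leaf) 8983926 (.node .leaf 8984166 .leaf))) 8984422 (.node (.node (.node (.node .leaf 8984678 .leaf) 8985207 .leaf) 8985223 (.node .leaf 8986982 .leaf)) 8987238 (.node (.node (.node .leaf 8987254 .leaf) 8987494 .leaf) 8987750 (.node .leaf 8988006 .leaf)))))))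

def c27 : NatTree := (.node (.node (.node (.node (.node (.node (.node (.node .leaf 8988518 .leaf) 8988774 .leaf) 8989303 (.node (.node .leaf 8989319 .leaf) 8991078 .leaf)) 8991334 (.node (.node (.node .leaf 8991590 .leaf) 8991846 .leaf) 8992102 (.node .leaf 8993399 .leaf))) 8995174 (.node (.node (.node (.node .leaf 8995430 .leaf) 8995686 .leaf) 8995942 (.node (.node .leaf 8996198 .leaf) 8997495 .leaf)) 9001591 (.node (.node (.node .leaf 9015654 .leaf) 9015655 .leaf) 9015656 (.node .leaf 9015670 .leaf)))) 9015686 (.node (.node (.node (.node (.node .leaf 9015910 .leaf) 9015911 .leaf) 9015912 (.node (.node .leaf 9015926 .leaf) 9015942 .leaf)) 9016166 (.node (.node (.node .leaf 9016167 .leaf) 9016182 .leaf) 9016422 (.node .leaf 9016423 .leaf))) 9016438 (.node (.node (.node (.node .leaf 9016678 .leaf) 9016679 .leaf) 9016694 (.node .leaf 9016934 .leaf)) 9016935 (.node (.node (.node .leaf 9016950 .leaf) 9017190 .leaf) 9017446 (.node .leaf 9017958 .leaf))))) 9017959 (.node (.node (.node (.node (.node (.node .leaf 9017960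 .leaf) 9017974 .leaf) 9017975 (.node (.node .leaf 9017990 .leaf) 9017991 .leaf)) 9019766 (.node (.node (.node .leaf 9020022 .leaf) 9020278 .leaf) 9020534 (.node .leaf 9020790 .leaf))) 9021030 (.node (.node (.node (.node .leaf 9021286 .leaf) 9021542 .leaf) 9022071 (.node .leaf 9022087 .leaf)) 9573669 (.node (.node (.node .leaf 9638451 .leaf) 9638452 .leaf) 9638467 (.node .leaf 9638468 .leaf)))) 9638707 (.node (.node (.node (.node (.node .leaf 9638723 .leaf) 9638929 .leaf) 9638930 (.node (.node .leaf 9638931 .leaf) 9638945 .leaf)) 9638961 (.node (.node (.node .leaf 9638963 .leaf) 9638964 .leaf) 9638977 (.node .leaf 9638979 .leaf))) 9638980 (.node (.node (.node (.node .leaf 9639221 .leaf) 9639237 .leaf) 9639253 (.node .leaf 9642548 .leaf)) 9642549 (.node (.node (.node .leaf 9642563 .leaf) 9642579 .leaf) 9642580 (.node .leaf 9642803 .leaf)))))) 9642819 (.node (.node (.node (.node (.node (.node (.node .leaf 9642835 .leaf) 9643025 .leaf) 9643026 (.node (.node .leaf 9643027 .leaf) 9643028 .leaf)) 9643029 (.node (.node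 (.node .leaf 9643041 .leaf) 9643057 .leaf) 9643059 (.node .leaf 9643060 .leaf))) 9643061 (.node (.node (.node (.node .leaf 9643073 .leaf) 9643075 .leaf) 9643089 (.node (.node .leaf 9643091 .leaf) 9643092 .leaf)) 9643317 (.node (.node (.node .leaf 9643365 .leaf) 9643574 .leaf) 9646659 (.node .leaf 9646660 .leaf)))) 9646915 (.node (.node (.node (.node (.node .leaf 9647121 .leaf) 9647122 .leaf) 9647123 (.node (.node .leaf 9647124 .leaf) 9647137 .leaf)) 9647153 (.node (.node (.node .leaf 9647169 .leaf) 9647171 .leaf) 9647172 (.node .leaf 9647429 .leaf))) 9647445 (.node (.node (.node (.node .leaf 9650740 .leaf) 9651217 .leaf) 9651218 (.node .leaf 9651219 .leaf)) 9651220 (.node (.node (.node .leaf 9651233 .leaf) 9651249 .leaf) 9651252 (.node .leaf 9651265 .leaf))))) 9651267 (.node (.node (.node (.node (.node (.node .leaf 9651541 .leaf) 9654835 .leaf) 9654836 (.node (.node .leaf 9654851 .leaf) 9654852 .leaf)) 9655313 (.node (.node (.node .leaf 9655314 .leaf) 9655315 .leaf) 9655316 (.node .leaf 9655329 .leaf))) 9655345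 (.node (.node (.node (.node .leaf 9655347 .leaf) 9655348 .leaf) 9655361 (.node .leaf 9655363 .leaf)) 9655364 (.node (.node (.node .leaf 9675793 .leaf) 9675794 .leaf) 9675795 (.node .leaf 9675796 .leaf)))) 9675809 (.node (.node (.node (.node (.node .leaf 9675825 .leaf) 9675841 .leaf) 9704244 (.node (.node .leaf 9704260 .leaf) 9704516 .leaf)) 9704738 (.node (.node (.node .leaf 9704739 .leaf) 9704740 .leaf) 9704754 (.node .leaf 9704755 .leaf))) 9704756 (.node (.node (.node (.node .leaf 9704770 .leaf) 9704771 .leaf) 9704772 (.node .leaf 9704773 .leaf)) 9704786 (.node (.node (.node .leaf 9704787 .leaf) 9704788 .leaf) 9708340 (.node .leaf 9708341 .leaf)))))))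

def c28 : NatTree := (.node (.node (.node (.node (.node (.node (.node (.node .leaf 9708357 .leaf) 9708372 .leaf) 9708373 (.node (.node .leaf 9708612 .leaf) 9708628 .leaf)) 9708834 (.node (.node (.node .leaf 9708835 .leaf) 9708836 .leaf) 9708838 (.node .leaf 9708850 .leaf))) 9708851 (.node (.node (.node (.node .leaf 9708852 .leaf) 9708854 .leaf) 9708866 (.node (.node .leaf 9708867 .leaf) 9708868 .leaf)) 9708869 (.node (.node (.node .leaf 9708870 .leaf) 9708882 .leaf) 9708883 (.node .leaf 9708884 .leaf)))) 9708885 (.node (.node (.node (.node (.node .leaf 9708886 .leaf) 9708898 .leaf) 9708899 (.node (.node .leaf 9708900 .leaf) 9708901 .leaf)) 9708902 (.node (.node (.node .leaf 9709126 .leaf) 9709142 .leaf) 9709158 (.node .leaf 9712452 .leaf))) 9712708 (.node (.node (.node (.node .leaf 9712930 .leaf) 9712931 .leaf) 9712932 (.node .leaf 9712933 .leaf)) 9712946 (.node (.node (.node .leaf 9712947 .leaf) 9712948 .leaf) 9712962 (.node .leaf 9712963 .leaf))))) 9712964 (.node (.node (.node (.node (.node (.node .leaf 9712965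 .leaf) 9712978 .leaf) 9712979 (.node (.node .leaf 9712980 .leaf) 9712981 .leaf)) 9716532 (.node (.node (.node .leaf 9717026 .leaf) 9717027 .leaf) 9717028 (.node .leaf 9717029 .leaf))) 9717042 (.node (.node (.node (.node .leaf 9717043 .leaf) 9717044 .leaf) 9717045 (.node .leaf 9717058 .leaf)) 9717059 (.node (.node (.node .leaf 9717060 .leaf) 9717074 .leaf) 9717075 (.node .leaf 9717076 .leaf)))) 9717077 (.node (.node (.node (.node (.node .leaf 9720627 .leaf) 9720628 .leaf) 9720643 (.node (.node .leaf 9720644 .leaf) 9721122 .leaf)) 9721123 (.node (.node (.node .leaf 9721124 .leaf) 9721125 .leaf) 9721138 (.node .leaf 9721139 .leaf))) 9721140 (.node (.node (.node (.node .leaf 9721141 .leaf) 9721154 .leaf) 9721155 (.node .leaf 9721156 .leaf)) 9721157 (.node (.node (.node .leaf 9721170 .leaf) 9721171 .leaf) 9721172 (.node .leaf 9724740 .leaf)))))) 9725218 (.node (.node (.node (.node (.node (.node (.node .leaf 9725219 .leaf) 9725220 .leaf) 9725234 (.node (.node .leaf 9725235 .leaf) 9725236 .leaf)) 9725250 (.node (.node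 (.node .leaf 9725251 .leaf) 9725252 .leaf) 9725266 (.node .leaf 9725267 .leaf))) 9725268 (.node (.node (.node (.node .leaf 9728836 .leaf) 9732932 .leaf) 9741602 (.node (.node .leaf 9741603 .leaf) 9741604 .leaf)) 9741605 (.node (.node (.node .leaf 9741618 .leaf) 9741619 .leaf) 9741620 (.node .leaf 9741621 .leaf)))) 9741634 (.node (.node (.node (.node (.node .leaf 9741635 .leaf) 9741636 .leaf) 9741637 (.node (.node .leaf 9741650 .leaf) 9741651 .leaf)) 9741652 (.node (.node (.node .leaf 9741653 .leaf) 9769267 .leaf) 9769268 (.node .leaf 9769283 .leaf))) 9770069 (.node (.node (.node (.node .leaf 9770325 .leaf) 9770547 .leaf) 9770548 (.node .leaf 9770549 .leaf)) 9770563 (.node (.node (.node .leaf 9770564 .leaf) 9770565 .leaf) 9770579 (.node .leaf 9770580 .leaf))))) 9770581 (.node (.node (.node (.node (.node (.node .leaf 9770803 .leaf) 9770804 .leaf) 9770819 (.node (.node .leaf 9770820 .leaf) 9771059 .leaf)) 9771060 (.node (.node (.node .leaf 9771075 .leaf) 9771076 .leaf) 9771315 (.node .leaf 9771316 .leaf))) 9771331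 (.node (.node (.node (.node .leaf 9771332 .leaf) 9771571 .leaf) 9771572 (.node .leaf 9771587 .leaf)) 9773364 (.node (.node (.node .leaf 9773365 .leaf) 9773379 .leaf) 9773395 (.node .leaf 9774149 .leaf)))) 9774165 (.node (.node (.node (.node (.node .leaf 9774181 .leaf) 9774421 .leaf) 9774437 (.node (.node .leaf 9774643 .leaf) 9774644 .leaf)) 9774645 (.node (.node (.node .leaf 9774659 .leaf) 9774660 .leaf) 9774661 (.node .leaf 9774675 .leaf))) 9774676 (.node (.node (.node (.node .leaf 9774677 .leaf) 9774691 .leaf) 9774692 (.node .leaf 9774693 .leaf)) 9774900 (.node (.node (.node .leaf 9774901 .leaf) 9774915 .leaf) 9774931 (.node .leaf 9774932 .leaf)))))))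

def c29 : NatTree := (.node (.node (.node (.node (.node (.node (.node (.node .leaf 9775157 .leaf) 9775171 .leaf) 9775187 (.node (.node .leaf 9775188 .leaf) 9775412 .leaf)) 9775413 (.node (.node (.node .leaf 9775427 .leaf) 9775443 .leaf) 9775444 (.node .leaf 9775667 .leaf))) 9775668 (.node (.node (.node (.node .leaf 9775669 .leaf) 9775683 .leaf) 9775699 (.node (.node .leaf 9777475 .leaf) 9778517 .leaf)) 9778739 (.node (.node (.node .leaf 9778740 .leaf) 9778741 .leaf) 9778755 (.node .leaf 9778756 .leaf)))) 9778757 (.node (.node (.node (.node (.node .leaf 9778771 .leaf) 9778772 .leaf) 9778773 (.node (.node .leaf 9778996 .leaf) 9779011 .leaf)) 9779012 (.node (.node (.node .leaf 9779252 .leaf) 9779267 .leaf) 9779268 (.node .leaf 9779508 .leaf))) 9779523 (.node (.node (.node (.node .leaf 9779524 .leaf) 9779764 .leaf) 9779779 (.node .leaf 9781556 .leaf)) 9782357 (.node (.node (.node .leaf 9782613 .leaf) 9782835 .leaf) 9782836 (.node .leaf 9782837 .leaf))))) 9782851 (.node (.node (.node (.node (.node (.node .leaf 9782852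 .leaf) 9782853 .leaf) 9782867 (.node (.node .leaf 9782868 .leaf) 9782869 .leaf)) 9783092 (.node (.node (.node .leaf 9783107 .leaf) 9783108 .leaf) 9783348 (.node .leaf 9783363 .leaf))) 9783364 (.node (.node (.node (.node .leaf 9783604 .leaf) 9783619 .leaf) 9783620 (.node .leaf 9783860 .leaf)) 9783875 (.node (.node (.node .leaf 9785651 .leaf) 9785652 .leaf) 9785667 (.node .leaf 9786436 .leaf)))) 9786453 (.node (.node (.node (.node (.node .leaf 9786931 .leaf) 9786932 .leaf) 9786933 (.node (.node .leaf 9786947 .leaf) 9786948 .leaf)) 9786949 (.node (.node (.node .leaf 9786963 .leaf) 9786964 .leaf) 9786965 (.node .leaf 9787187 .leaf))) 9787188 (.node (.node (.node (.node .leaf 9787203 .leaf) 9787204 .leaf) 9787443 (.node .leaf 9787444 .leaf)) 9787459 (.node (.node (.node .leaf 9787460 .leaf) 9787699 .leaf) 9787700 (.node .leaf 9787715 .leaf)))))) 9787716 (.node (.node (.node (.node (.node (.node (.node .leaf 9787955 .leaf) 9787956 .leaf) 9787971 (.node (.node .leaf 9791027 .leaf) 9791028 .leaf)) 9791029 (.node (.node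 (.node .leaf 9791043 .leaf) 9791044 .leaf) 9791045 (.node .leaf 9791059 .leaf))) 9791060 (.node (.node (.node (.node .leaf 9791061 .leaf) 9806148 .leaf) 9806149 (.node (.node .leaf 9806164 .leaf) 9806165 .leaf)) 9806404 (.node (.node (.node .leaf 9806405 .leaf) 9806420 .leaf) 9806421 (.node .leaf 9806660 .leaf)))) 9806900 (.node (.node (.node (.node (.node .leaf 9806915 .leaf) 9806916 .leaf) 9807411 (.node (.node .leaf 9807412 .leaf) 9807413 .leaf)) 9807427 (.node (.node (.node .leaf 9807428 .leaf) 9807429 .leaf) 9807443 (.node .leaf 9807444 .leaf))) 9807445 (.node (.node (.node (.node .leaf 9807684 .leaf) 9807685 .leaf) 9807700 (.node .leaf 9807701 .leaf)) 9807940 (.node (.node (.node .leaf 9807941 .leaf) 9807956 .leaf) 9807957 (.node .leaf 9808196 .leaf))))) 9808197 (.node (.node (.node (.node (.node (.node .leaf 9808212 .leaf) 9808213 .leaf) 9808452 (.node (.node .leaf 9808453 .leaf) 9808468 .leaf)) 9808469 (.node (.node (.node .leaf 9834820 .leaf) 9834821 .leaf) 9834836 (.node .leaf 9835076 .leaf))) 9835878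 (.node (.node (.node (.node .leaf 9836134 .leaf) 9836356 .leaf) 9836357 (.node .leaf 9836358 .leaf)) 9836372 (.node (.node (.node .leaf 9836373 .leaf) 9836374 .leaf) 9836388 (.node .leaf 9836389 .leaf)))) 9836390 (.node (.node (.node (.node (.node .leaf 9836868 .leaf) 9837124 .leaf) 9837125 (.node (.node .leaf 9837140 .leaf) 9838916 .leaf)) 9838917 (.node (.node (.node .leaf 9838932 .leaf) 9838948 .leaf) 9839172 (.node .leaf 9839173 .leaf))) 9839188 (.node (.node (.node (.node .leaf 9839974 .leaf) 9840230 .leaf) 9840452 (.node .leaf 9840453 .leaf)) 9840454 (.node (.node (.node .leaf 9840468 .leaf) 9840469 .leaf) 9840470 (.node .leaf 9840484 .leaf)))))))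

def c30 : NatTree := (.node (.node (.node (.node (.node (.node (.node (.node .leaf 9840486 .leaf) 9840708 .leaf) 9840709 (.node (.node .leaf 9840725 .leaf) 9840964 .leaf)) 9840965 (.node (.node (.node .leaf 9840980 .leaf) 9840981 .leaf) 9841220 (.node .leaf 9841221 .leaf))) 9841236 (.node (.node (.node (.node .leaf 9841252 .leaf) 9843012 .leaf) 9843013 (.node (.node .leaf 9843028 .leaf) 9843268 .leaf)) 9844070 (.node (.node (.node .leaf 9844326 .leaf) 9844548 .leaf) 9844549 (.node .leaf 9844550 .leaf)))) 9844564 (.node (.node (.node (.node (.node .leaf 9844565 .leaf) 9844566 .leaf) 9844580 (.node (.node .leaf 9844582 .leaf) 9845060 .leaf)) 9845316 (.node (.node (.node .leaf 9845317 .leaf) 9845332 .leaf) 9847124 (.node .leaf 9848166 .leaf))) 9848422 (.node (.node (.node (.node .leaf 9848644 .leaf) 9848645 .leaf) 9848660 (.node .leaf 9848661 .leaf)) 9848678 (.node (.node (.node .leaf 9849156 .leaf) 9849412 .leaf) 9849413 (.node .leaf 9849428 .leaf))))) 9851204 (.node (.node (.node (.node (.node (.node .leaf 9851205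 .leaf) 9851220 .leaf) 9851460 (.node (.node .leaf 9852262 .leaf) 9852518 .leaf)) 9852740 (.node (.node (.node .leaf 9852741 .leaf) 9852756 .leaf) 9852757 (.node .leaf 9852774 .leaf))) 9853508 (.node (.node (.node (.node .leaf 9853509 .leaf) 9853524 .leaf) 9855300 (.node .leaf 9855316 .leaf)) 9855556 (.node (.node (.node .leaf 9856836 .leaf) 9856837 .leaf) 9856852 (.node .leaf 9856853 .leaf)))) 9857348 (.node (.node (.node (.node (.node .leaf 9857604 .leaf) 9857620 .leaf) 9859396 (.node (.node .leaf 9859412 .leaf) 9859652 .leaf)) 9860932 (.node (.node (.node .leaf 9861188 .leaf) 9861444 .leaf) 9861700 (.node .leaf 9861716 .leaf))) 9863492 (.node (.node (.node (.node .leaf 9863508 .leaf) 9863748 .leaf) 9865028 (.node .leaf 9865284 .leaf)) 9865540 (.node (.node (.node .leaf 9865796 .leaf) 9865812 .leaf) 9871701 (.node .leaf 9871702 .leaf)))))) 9871717 (.node (.node (.node (.node (.node (.node (.node .leaf 9871718 .leaf) 9871957 .leaf) 9871958 (.node (.node .leaf 9871973 .leaf) 9871974 .leaf)) 9872213 (.node (.node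 (.node .leaf 9872708 .leaf) 9873220 .leaf) 9873221 (.node .leaf 9873222 .leaf))) 9873236 (.node (.node (.node (.node .leaf 9873237 .leaf) 9873238 .leaf) 9873252 (.node (.node .leaf 9873253 .leaf) 9873254 .leaf)) 9873493 (.node (.node (.node .leaf 9873494 .leaf) 9873509 .leaf) 9873510 (.node .leaf 9873749 .leaf)))) 9873750 (.node (.node (.node (.node (.node .leaf 9873765 .leaf) 9873766 .leaf) 9874005 (.node (.node .leaf 9874006 .leaf) 9874021 .leaf)) 9874022 (.node (.node (.node .leaf 9900373 .leaf) 9900374 .leaf) 9900389 (.node .leaf 9900629 .leaf))) 9900885 (.node (.node (.node (.node .leaf 9902165 .leaf) 9902166 .leaf) 9902167 (.node .leaf 9902181 .leaf)) 9902182 (.node (.node (.node .leaf 9902183 .leaf) 9902197 .leaf) 9902421 (.node .leaf 9902677 .leaf))))) 9902678 (.node (.node (.node (.node (.node (.node .leaf 9902693 .leaf) 9904469 .leaf) 9904485 (.node (.node .leaf 9904725 .leaf) 9904981 .leaf)) 9904997 (.node (.node (.node .leaf 9906261 .leaf) 9906262 .leaf) 9906263 (.node .leaf 9906277 .leaf))) 9906278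 (.node (.node (.node (.node .leaf 9906279 .leaf) 9906293 .leaf) 9906533 (.node .leaf 9906773 .leaf)) 9906774 (.node (.node (.node .leaf 9906789 .leaf) 9908565 .leaf) 9908566 (.node .leaf 9908581 .leaf)))) 9909077 (.node (.node (.node (.node (.node .leaf 9910357 .leaf) 9910358 .leaf) 9910373 (.node (.node .leaf 9910374 .leaf) 9910389 .leaf)) 9910613 (.node (.node (.node .leaf 9910869 .leaf) 9910870 .leaf) 9910885 (.node .leaf 9912677 .leaf))) 9914453 (.node (.node (.node (.node .leaf 9914454 .leaf) 9914469 .leaf) 9914470 (.node .leaf 9914709 .leaf)) 9914965 (.node (.node (.node .leaf 9914966 .leaf) 9914981 .leaf) 9916757 (.node .leaf 9916758 .leaf)))))))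

def c31 : NatTree := (.node (.node (.node (.node (.node (.node (.node (.node .leaf 9917013 .leaf) 9917269 .leaf) 9918549 (.node (.node .leaf 9918550 .leaf) 9918565 .leaf)) 9918566 (.node (.node (.node .leaf 9919061 .leaf) 9919062 .leaf) 9919077 (.node .leaf 9920853 .leaf))) 9920869 (.node (.node (.node (.node .leaf 9921109 .leaf) 9922645 .leaf) 9922646 (.node (.node .leaf 9922661 .leaf) 9922662 .leaf)) 9923157 (.node (.node (.node .leaf 9923173 .leaf) 9924949 .leaf) 9924965 (.node .leaf 9925205 .leaf)))) 9926741 (.node (.node (.node (.node (.node .leaf 9926997 .leaf) 9927253 .leaf) 9927269 (.node (.node .leaf 9929045 .leaf) 9929061 .leaf)) 9929301 (.node (.node (.node .leaf 9930837 .leaf) 9931093 .leaf) 9931349 (.node .leaf 9931365 .leaf))) 9937254 (.node (.node (.node (.node .leaf 9937255 .leaf) 9937270 .leaf) 9937271 (.node .leaf 9937510 .leaf)) 9937511 (.node (.node (.node .leaf 9937526 .leaf) 9937527 .leaf) 9937766 (.node .leaf 9938022 .leaf))))) 9938517 (.node (.node (.node (.node (.node (.node .leaf 9939029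 .leaf) 9939030 .leaf) 9939031 (.node (.node .leaf 9939045 .leaf) 9939046 .leaf)) 9939047 (.node (.node (.node .leaf 9939061 .leaf) 9939062 .leaf) 9939063 (.node .leaf 9939302 .leaf))) 9939303 (.node (.node (.node (.node .leaf 9939318 .leaf) 9939319 .leaf) 9939558 (.node .leaf 9939559 .leaf)) 9939574 (.node (.node (.node .leaf 9939575 .leaf) 9965926 .leaf) 9965927 (.node .leaf 9966182 .leaf)))) 9966438 (.node (.node (.node (.node (.node .leaf 9966694 .leaf) 9967974 .leaf) 9967975 (.node (.node .leaf 9967976 .leaf) 9967990 .leaf)) 9968006 (.node (.node (.node .leaf 9970022 .leaf) 9970023 .leaf) 9970278 (.node .leaf 9970279 .leaf))) 9970534 (.node (.node (.node (.node .leaf 9970790 .leaf) 9972070 .leaf) 9972071 (.node .leaf 9972072 .leaf)) 9972086 (.node (.node (.node .leaf 9972102 .leaf) 9974118 .leaf) 9974119 (.node .leaf 9974374 .leaf)))))) 9974630 (.node (.node (.node (.node (.node (.node (.node .leaf 9974886 .leaf) 9976166 .leaf) 9976167 (.node (.node .leaf 9976182 .leaf) 9978214 .leaf)) 9978470 (.node (.node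 (.node .leaf 9978726 .leaf) 9978982 .leaf) 9980262 (.node .leaf 9980263 .leaf))) 9980278 (.node (.node (.node (.node .leaf 9982310 .leaf) 9982311 .leaf) 9982566 (.node .leaf 9982822 .leaf)) 9983078 (.node (.node (.node .leaf 9984358 .leaf) 9984359 .leaf) 9984374 (.node .leaf 9984615 .leaf)))) 9986406 (.node (.node (.node (.node (.node .leaf 9986662 .leaf) 9988454 .leaf) 9988455 (.node (.node .leaf 9988470 .leaf) 9988710 .leaf)) 9990502 (.node (.node (.node .leaf 9990758 .leaf) 9992550 .leaf) 9992806 (.node .leaf 9994598 .leaf))) 9994854 (.node (.node (.node (.node .leaf 9996646 .leaf) 9996902 .leaf) 10002807 (.node .leaf 10002808 .leaf)) 10003063 (.node (.node (.node .leaf 10003064 .leaf) 10003319 .leaf) 10003575 (.node .leaf 10003831 .leaf))))) 10004838 (.node (.node (.node (.node (.node (.node .leaf 10004839 .leaf) 10004840 .leaf) 10004854 (.node (.node .leaf 10004855 .leaf) 10004856 .leaf)) 10004870 (.node (.node (.node .leaf 10005111 .leaf) 10005112 .leaf) 10033783 (.node .leaf 10033799 .leaf))) 10033815 (.node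 (.node (.node (.node .leaf 10037879 .leaf) 10037895 .leaf) 10037911 (.node .leaf 10041975 .leaf)) 10041991 (.node (.node (.node .leaf 10046071 .leaf) 10046087 .leaf) 10050167 (.node .leaf 10050183 .leaf)))) 10054263 (.node (.node (.node (.node (.node .leaf 10054279 .leaf) 10068343 .leaf) 10068344 (.node (.node .leaf 10068345 .leaf) 10068599 .leaf)) 10068600 (.node (.node (.node .leaf 10068601 .leaf) 10068855 .leaf) 10068856 (.node .leaf 10069111 .leaf))) 10069112 (.node (.node (.node (.node .leaf 10069367 .leaf) 10069368 .leaf) 10069623 (.node .leaf 10069624 .leaf)) 10070647 (.node (.node (.node .leaf 10070648 .leaf) 10070649 .leaf) 10070663 (.node .leaf 10070679 .leaf)))))))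

def table : NatTree := (.node (.node (.node (.node (.node c0 4608530 c1) 4740162 (.node c2 4805957 c3)) 5640739 (.node (.node c4 5714995 c5) 5743121 (.node c6 5796899 c7))) 5858356 (.node (.node (.node c8 6628386 c9) 6693649 (.node c10 6715155 c11)) 6755107 (.node (.node c12 6821683 c13) 6857557 (.node c14 7607586 c15)))) 7678242 (.node (.node (.node (.node c16 7710530 c17) 7803443 (.node c18 7836004 c19)) 7897941 (.node (.node c20 7971670 c21) 8693284 (.node c22 8754738 c23))) 8802611 (.node (.node (.node c24 8860228 c25) 8921943 (.node c26 8988262 c27)) 9708356 (.node (.node c28 9775156 c29) 9840485 (.node c30 9916773 c31)))))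

end Pool.Agent.R186.KRK.SafeData
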