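import Pool.Agent.R186.KRK.Safe10
import Pool.Agent.R186.KRK.SafeData

/-!
# Kernel check of the safe set for Black on the board with 10 files and 10 ranks
-/

set_option autoImplicit false

namespace Pool.Agent.R186.KRK

theorem allNodeS {p : ℕ → Bool} {l r : NatTree} {k : ℕ} (h : p k = true)
    (hl : l.all p = true) (hr : r.all p = true) : (NatTree.node l k r).all p = true := by
  rw [NatTree.all, h, hl, hr]
  rfl

namespace SafeData

theorem h0 : c0.all (chkS table) = true := by decide +kernel

theorem h1 : c1.all (chkS table) = true := by decide +kernel

theorem h2 : c2.all (chkS table) = true := by decide +kernel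

theorem h3 : c3.all (chkS table) = true := by decide +kernel

theorem h4 : c4.all (chkS table) = true := by decide +kernel

theorem h5 : c5.all (chkS table) = true := by decide +kernel

theorem h6 : c6.all (chkS table) = true := by decide +kernel

theorem h7 : c7.all (chkS table) = true := by decide +kernel

theorem h8 : c8.all (chkS table) = true := by decide +kernel

theorem h9 : c9.all (chkS table) = true := by decide +kernel

theorem h10 : c10.all (chkS table) = true := by decide +kernel

theorem h11 : c11.all (chkS table) = true := by decide +kernel

theorem h12 : c12.all (chkS table) = true := by decide +kernel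

theorem h13 : c13.all (chkS table) = true := by decide +kernel

theorem h14 : c14.all (chkS table) = true := by decide +kernel

theorem h15 : c15.all (chkS table) = true := by decide +kernel

theorem h16 : c16.all (chkS table) = true := by decide +kernel

theorem h17 : c17.all (chkS table) = true := by decide +kernel

theorem h18 : c18.all (chkS table) = true := by decide +kernel

theorem h19 : c19.all (chkS table) = true := by decide +kernel

theorem h20 : c20.all (chkS table) = true := by decide +kernel

theorem h21 : c21.all (chkS table) = true := by decide +kernel

theorem h22 : c22.all (chkS table) = true := by decide +kernel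

theorem h23 : c23.all (chkS table) = true := by decide +kernel

theorem h24 : c24.all (chkS table) = true := by decide +kernel

theorem h25 : c25.all (chkS table) = true := by decide +kernel

theorem h26 : c26.all (chkS table) = true := by decide +kernel

theorem h27 : c27.all (chkS table) = true := by decide +kernel

theorem h28 : c28.all (chkS table) = true := by decide +kernel

theorem h29 : c29.all (chkS table) = true := by decide +kernel

theorem h30 : c30.all (chkS table) = true := by decide +kernel

theorem h31 : c31.all (chkS table) = true := by decide +kernel

theorem table_ok : table.all (chkS table) = true :=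
  (allNodeS (by decide +kernel) (allNodeS (by decide +kernel) (allNodeS (by decide +kernel) (allNodeS (by decide +kernel) (allNodeS (by decide +kernel) h0 h1) (allNodeS (by decide +kernel) h2 h3)) (allNodeS (by decide +kernel) (allNodeS (by decide +kernel) h4 h5) (allNodeS (by decide +kernel) h6 h7))) (allNodeS (by decide +kernel) (allNodeS (by decide +kernel) (allNodeS (by decide +kernel) h8 h9) (allNodeS (by decide +kernel) h10 h11)) (allNodeS (by decide +kernel) (allNodeS (by decide +kernel) h12 h13) (allNodeS (by decide +kernel) h14 h15)))) (allNodeS (by decide +kernel) (allNodeS (by decide +kernel) (allNodeS (by decide +kernel) (allNodeS (by decide +kernel) h16 h17) (allNodeS (by decide +kernel) h18 h19)) (allNodeS (by decide +kernel) (allNodeS (by decide +kernel) h20 h21) (allNodeS (by decide +kernel) h22 h23))) (allNodeS (by decide +kernel) (allNodeS (by decide +kernel) (allNodeS (by decide +kernel) h24 h25) (allNodeS (by decide +kernel) h26 h27)) (allNodeS (by decide +kernel) (allNodeS (by decide +kernel) h28 h29) (allNodeS (by decide +kernel) h30 h31)))))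

end SafeData

theorem no_win_10_10 (k : ℕ) : ¬ WinsIn 10 10 k start :=
  no_win_10 SafeData.table_ok (by decide +kernel) k

end Pool.Agent.R186.KRK
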