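import Pool.Agent.R186.KRK.Bool

/-!
# Checking a safe set for Black on the strip with 8 files and infinitely many ranks

Ranks are taken relative to the Black king: the Black king is on coded rank 10, the White king on
coded rank `c = v + 10 - y` and the rook on coded rank `b = min 20 (s + 10 - y)`; moreover
`yc = min y 2`.
-/

set_option autoImplicit false

namespace Pool.Agent.R186.KRK

/-- membership, trivial for impossible positions -/
def memR (T : NatTree) (yc px u c r b : ℕ) : Bool :=
  (Nat.beq yc 1 && (Nat.blt b 10 || Nat.blt c 10)) || T.mem (code yc px u c r b)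

/-- all possible values of `yc` after the move to coded rank `tc` -/
def memY (T : NatTree) (yc tc px u c r b : ℕ) : Bool :=
  bif Nat.beq yc 1 then
    (bif Nat.beq tc 10 then memR T 1 px u c r b else memR T 2 px u c r b)
  else
    (memR T 2 px u c r b && (!(Nat.beq tc 9) || memR T 1 px u c r b))

/-- all possible values of `b` after the move to coded rank `tc` -/
def memB (T : NatTree) (yc tc px u c r b : ℕ) : Bool :=
  bif Nat.beq b 20 then
    (memY T yc tc px u c r 20 && (!(Nat.beq tc 11) || memY T yc tc px u c r 19))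
  else bif Nat.beq b 0 then
    (memY T yc tc px u c r 0 && (!(Nat.beq tc 9) || memY T yc tc px u c r 1))
  else memY T yc tc px u c r (b + 10 - tc)

/-- the position after the reply to `(px, tc)` is safe -/
def afterR (T : NatTree) (yc tc px u c r b : ℕ) : Bool :=
  Nat.beq px 8 || (Nat.ble (c + 10 - tc) px ||
    (Nat.ble (c + 10 - tc) 11 && memB T yc tc px u (c + 10 - tc) r b))

/-- the reply to `(px, tc)` is legal -/
def legalR (yc u c r b px tc : ℕ) : Bool :=
  Nat.ble 1 px && (Nat.ble px 8 && ((!(Nat.beq yc 1) || Nat.ble 10 tc) &&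
    (!(nearB u c px tc) && !(attB u c r b px tc))))

/-- the reply to `(px, tc)` is good -/
def repR (T : NatTree) (yc u c r b px tc : ℕ) : Bool :=
  legalR yc u c r b px tc && (sqB px tc r b || afterR T yc tc px u c r b)

/-- Black to move is fine -/
def blackR (T : NatTree) (yc x u c r b : ℕ) : Bool :=
  Nat.beq x 8 || any8 (repR T yc u c r b) x 10

/-- White's king move to `(tx, tc)` is fine -/
def kingR (T : NatTree) (yc x r b tx tc : ℕ) : Bool :=
  !(Nat.ble 1 tx && (Nat.ble tx 8 && ((!(Nat.beq yc 1) || Nat.ble 10 tc) &&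
    (!(sqB tx tc r b) && !(nearB tx tc x 10))))) || blackR T yc x tx tc r b

/-- White's horizontal rook move is fine -/
def rookH (T : NatTree) (yc x u c r b tx : ℕ) : Bool :=
  !(clearB u c x 10 r b tx b && (!(sqB tx b u c) && !(sqB tx b x 10))) || blackR T yc x u c tx b

/-- White's vertical rook move is fine -/
def rookV (T : NatTree) (yc x u c r b tb : ℕ) : Bool :=
  !((!(Nat.beq yc 1) || Nat.ble 10 tb) && ((!(Nat.beq b tb) || (Nat.beq b 0 || Nat.beq b 20)) &&
    (!(Nat.beq u r && (btwB b c tb || Nat.beq tb c)) &&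
      !(Nat.beq x r && (btwB b 10 tb || Nat.beq tb 10))))) || blackR T yc x u c r tb

/-- `f` holds for `1, ..., 8` -/
def allH (f : ℕ → Bool) : Bool :=
  f 1 && (f 2 && (f 3 && (f 4 && (f 5 && (f 6 && (f 7 && f 8))))))

/-- `f` holds for `0, ..., 20` -/
def allV (f : ℕ → Bool) : Bool :=
  f 0 && (f 1 && (f 2 && (f 3 && (f 4 && (f 5 && (f 6 && (f 7 && (f 8 && (f 9 && (f 10 &&
    (f 11 && (f 12 && (f 13 && (f 14 && (f 15 && (f 16 && (f 17 && (f 18 && (f 19 &&
      f 20)))))))))))))))))))

theorem allH_spec {f : ℕ → Bool} (h : allH f = true) {t : ℕ} (h1 : 1 ≤ t) (h2 : t ≤ 8) :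
    f t = true := by
  unfold allH at h
  simp only [Bool.and_eq_true] at h
  obtain ⟨a1, a2, a3, a4, a5, a6, a7, a8⟩ := h
  have : t = 1 ∨ t = 2 ∨ t = 3 ∨ t = 4 ∨ t = 5 ∨ t = 6 ∨ t = 7 ∨ t = 8 := by
    omega
  rcases this with rfl | rfl | rfl | rfl | rfl | rfl | rfl | rfl <;> assumption

theorem allV_spec {f : ℕ → Bool} (h : allV f = true) {t : ℕ} (h2 : t ≤ 20) :
    f t = true := by
  unfold allV at h
  simp only [Bool.and_eq_true] at h
  obtain ⟨a0, a1, a2, a3, a4, a5, a6, a7, a8, a9, a10, a11, a12, a13, a14, a15, a16, a17, a18,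
    a19, a20⟩ := h
  interval_cases t <;> assumption

/-- White to move: all moves are fine -/
def whiteR (T : NatTree) (yc x u c r b : ℕ) : Bool :=
  all8 (kingR T yc x r b) u c &&
    (allH (rookH T yc x u c r b) && allV (rookV T yc x u c r b))

/-- the check of a table entry -/
def chkR (T : NatTree) (key : ℕ) : Bool :=
  whiteR T (key % 16) (key / 16 % 16) (key / 256 % 16) (key / 4096 % 16) (key / 65536 % 16)
    (key / 1048576 % 32)

theorem decodeR {u v r s x y : ℕ} (hu : u < 16) (hv : v < 16) (hr : r < 16) (hs : s < 16)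
    (hx : x < 16) (hy : y < 32) :
    code u v r s x y % 16 = u ∧ code u v r s x y / 16 % 16 = v ∧
    code u v r s x y / 256 % 16 = r ∧ code u v r s x y / 4096 % 16 = s ∧
    code u v r s x y / 65536 % 16 = x ∧ code u v r s x y / 1048576 % 32 = y := by
  unfold code
  refine ⟨?_, ?_, ?_, ?_, ?_, ?_⟩ <;> omega

theorem onBoard_8 {x y : ℕ} : OnBoard 8 ⊤ (x, y) ↔ 1 ≤ x ∧ x ≤ 8 ∧ 1 ≤ y := by
  unfold OnBoard
  simp only
  constructor
  · rintro ⟨h1, h2, h3, _⟩
    exact ⟨h1, by exact_mod_cast h2, h3⟩
  · rintro ⟨h1, h2, h3⟩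
    exact ⟨h1, by exact_mod_cast h2, h3, le_top⟩

/-- The code of a position relative to the Black king. -/
def codeR (u v r s x y : ℕ) : ℕ := code (min y 2) x u (v + 10 - y) r (min 20 (s + 10 - y))

/-- The safe positions. -/
def Safe8 (T : NatTree) (p : Pos) : Prop :=
  (OnBoard 8 ⊤ p.wk ∧ OnBoard 8 ⊤ p.wr ∧ OnBoard 8 ⊤ p.bk) ∧
    (East 8 p ∨ (p.bk.2 ≤ p.wk.2 + 8 ∧ p.wk.2 ≤ p.bk.2 + 1 ∧
      T.mem (codeR p.wk.1 p.wk.2 p.wr.1 p.wr.2 p.bk.1 p.bk.2) = true))

theorem memR_spec {T : NatTree} {u v r s px y : ℕ} (hv : 1 ≤ v) (hs : 1 ≤ s) (_ : 1 ≤ y)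
    (h : memR T (min y 2) px u (v + 10 - y) r (min 20 (s + 10 - y)) = true) :
    T.mem (codeR u v r s px y) = true := by
  unfold memR at h
  simp only [Bool.or_eq_true, Bool.and_eq_true, beq_iff, Nat.blt_eq] at h
  rcases h with ⟨h1, h2⟩ | h
  · exfalso
    omega
  · exact h

theorem memY_spec {T : NatTree} {u v r s px y tc : ℕ} (hv : 1 ≤ v) (hs : 1 ≤ s) (hy : 1 ≤ y)
    (htc : tc = 9 ∨ tc = 10 ∨ tc = 11) (hy' : 1 ≤ y + tc - 10)
    (h : memY T (min y 2) tc px u (v + 10 - (y + tc - 10)) r (min 20 (s + 10 - (y + tc - 10)))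
      = true) :
    T.mem (codeR u v r s px (y + tc - 10)) = true := by
  unfold memY at h
  cases h1 : Nat.beq (min y 2) 1 with
  | true =>
    rw [h1, cond_true] at h
    have h1' : y = 1 := by
      have := beq_iff.1 h1
      omega
    cases h2 : Nat.beq tc 10 with
    | true =>
      rw [h2, cond_true] at h
      have h2' := beq_iff.1 h2
      refine memR_spec hv hs hy' ?_
      have h3 : min (y + tc - 10) 2 = 1 := by omega
      rw [h3]
      exact h
    | false =>
      rw [h2, cond_false] at h
      have h2' : tc ≠ 10 := by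
        intro h3
        rw [h3] at h2
        exact absurd h2 (by decide)
      refine memR_spec hv hs hy' ?_
      have h3 : min (y + tc - 10) 2 = 2 := by omega
      rw [h3]
      exact h
  | false =>
    rw [h1, cond_false] at h
    have h1' : 2 ≤ y := by
      by_contra hcon
      have : min y 2 = 1 := by omega
      rw [this] at h1
      exact absurd h1 (by decide)
    simp only [Bool.and_eq_true, Bool.or_eq_true, not_iff_false, beq_iff] at h
    obtain ⟨h2, h3⟩ := h
    refine memR_spec hv hs hy' ?_
    by_cases h4 : y + tc - 10 = 1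
    · have h5 : tc = 9 := by omega
      have h6 : min (y + tc - 10) 2 = 1 := by omega
      rw [h6]
      rcases h3 with h3 | h3
      · exact absurd h5 h3
      · exact h3
    · have h6 : min (y + tc - 10) 2 = 2 := by omega
      rw [h6]
      exact h2

theorem memB_spec {T : NatTree} {u v r s px y tc : ℕ} (hv : 1 ≤ v) (hs : 1 ≤ s) (hy : 1 ≤ y)
    (htc : tc = 9 ∨ tc = 10 ∨ tc = 11) (hy' : 1 ≤ y + tc - 10)
    (h : memB T (min y 2) tc px u (v + 10 - (y + tc - 10)) r (min 20 (s + 10 - y)) = true) :
    T.mem (codeR u v r s px (y + tc - 10)) = true := by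
  refine memY_spec hv hs hy htc hy' ?_
  unfold memB at h
  cases h1 : Nat.beq (min 20 (s + 10 - y)) 20 with
  | true =>
    rw [h1, cond_true] at h
    have h1' := beq_iff.1 h1
    simp only [Bool.and_eq_true, Bool.or_eq_true, not_iff_false, beq_iff] at h
    obtain ⟨h2, h3⟩ := h
    by_cases h4 : min 20 (s + 10 - (y + tc - 10)) = 20
    · rw [h4]; exact h2
    · have h5 : min 20 (s + 10 - (y + tc - 10)) = 19 := by omega
      rw [h5]
      rcases h3 with h3 | h3
      · exfalso; omega
      · exact h3
  | false =>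
    rw [h1, cond_false] at h
    have h1' : min 20 (s + 10 - y) ≠ 20 := by
      intro h3
      rw [h3] at h1
      exact absurd h1 (by decide)
    cases h2 : Nat.beq (min 20 (s + 10 - y)) 0 with
    | true =>
      rw [h2, cond_true] at h
      have h2' := beq_iff.1 h2
      simp only [Bool.and_eq_true, Bool.or_eq_true, not_iff_false, beq_iff] at h
      obtain ⟨h3, h4⟩ := h
      by_cases h5 : min 20 (s + 10 - (y + tc - 10)) = 0
      · rw [h5]; exact h3
      · have h6 : min 20 (s + 10 - (y + tc - 10)) = 1 := by omega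
        rw [h6]
        rcases h4 with h4 | h4
        · exfalso; omega
        · exact h4
    | false =>
      rw [h2, cond_false] at h
      have h2' : min 20 (s + 10 - y) ≠ 0 := by
        intro h3
        rw [h3] at h2
        exact absurd h2 (by decide)
      have h3 : min 20 (s + 10 - (y + tc - 10)) = min 20 (s + 10 - y) + 10 - tc := by omega
      rw [h3]
      exact h

theorem near_shift {u v px py y tc : ℕ}
    (hpy : py = y + tc - 10) (hy' : 1 ≤ py) (hc : y ≤ v + 9) :
    Near (u, v + 10 - y) (px, tc) ↔ Near (u, v) (px, py) := by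
  unfold Near
  simp only
  omega

theorem att_shift {u v r s px py y tc : ℕ} (htc : tc = 9 ∨ tc = 10 ∨ tc = 11)
    (hpy : py = y + tc - 10) (hy' : 1 ≤ py) (hc : y ≤ v + 9) (hv2 : v ≤ y + 5) :
    Attacks (u, v + 10 - y) (r, min 20 (s + 10 - y)) (px, tc) ↔
      Attacks (u, v) (r, s) (px, py) := by
  unfold Attacks Btw
  simp only
  omega

theorem blackR_spec {T : NatTree} {u v r s x y : ℕ}
    (h : blackR T (min y 2) x u (v + 10 - y) r (min 20 (s + 10 - y)) = true)
    (hk : OnBoard 8 ⊤ (u, v)) (hr : OnBoard 8 ⊤ (r, s)) (hb : OnBoard 8 ⊤ (x, y))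
    (hc : y ≤ v + 9) (hv2 : v ≤ y + 5) :
    Reply 8 ⊤ (Safe8 T) ⟨(u, v), (r, s), (x, y)⟩ := by
  have hk' := onBoard_8.1 hk
  have hr' := onBoard_8.1 hr
  have hb' := onBoard_8.1 hb
  unfold blackR at h
  simp only [Bool.or_eq_true, beq_iff] at h
  rcases h with h | h
  · left; left
    simp only
    exact_mod_cast h
  · right; right
    obtain ⟨px, tc, h1, h2, h3⟩ := any8_spec hb.1 (by norm_num) h
    have htc : tc = 9 ∨ tc = 10 ∨ tc = 11 := by
      unfold Near at h2
      simp only at h2
      omega
    unfold repR at h1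
    simp only [Bool.and_eq_true, Bool.or_eq_true, sqB_iff] at h1
    obtain ⟨hleg, hgood⟩ := h1
    unfold legalR at hleg
    simp only [Bool.and_eq_true, Bool.or_eq_true, not_iff_false, beq_iff, Nat.ble_eq,
      nearB_iff, attB_iff] at hleg
    obtain ⟨l1, l2, l3, l4, l5⟩ := hleg
    have hy' : 1 ≤ y + tc - 10 := by omega
    rw [near_shift (py := y + tc - 10) rfl hy' hc] at l4
    rw [att_shift (py := y + tc - 10) htc rfl hy' hc hv2] at l5
    have hmove : BMove 8 ⊤ ⟨(u, v), (r, s), (x, y)⟩ (px, y + tc - 10) := by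
      refine ⟨onBoard_8.2 ⟨l1, l2, hy'⟩, ?_, ?_, l4, l5⟩
      · unfold Near at h2 ⊢
        simp only at h2 ⊢
        omega
      · intro h4
        rw [Prod.mk.injEq] at h4
        apply h3
        rw [Prod.mk.injEq]
        omega
    refine ⟨(px, y + tc - 10), hmove, ?_⟩
    rcases hgood with hg | hg
    · left
      rw [Prod.mk.injEq] at hg
      simp only [Prod.mk.injEq]
      omega
    · right
      refine ⟨⟨hk, hr, hmove.1⟩, ?_⟩
      unfold afterR at hg
      simp only [Bool.or_eq_true, Bool.and_eq_true, beq_iff, Nat.ble_eq] at hg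
      rcases hg with hg | hg | hg
      · exact Or.inl (Or.inl hg)
      · left; right
        simp only
        omega
      · by_cases he : v + 10 ≤ px + (y + tc - 10)
        · left; right
          simp only
          omega
        · right
          have hc2 : v + 10 - y + 10 - tc = v + 10 - (y + tc - 10) := by omega
          rw [hc2] at hg
          simp only
          refine ⟨by omega, by omega, ?_⟩
          exact memB_spec hk'.2.2 hr'.2.2 hb'.2.2 htc hy' hg.2

theorem safe8_closed {T : NatTree} (hT : T.all (chkR T) = true) (p q : Pos)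
    (hp : Safe8 T p) (hq : WMove 8 ⊤ p q) : Reply 8 ⊤ (Safe8 T) q := by
  obtain ⟨⟨hk, hr, hb⟩, hp⟩ := hp
  have hon : OnBoard 8 ⊤ q.wk ∧ OnBoard 8 ⊤ q.wr ∧ OnBoard 8 ⊤ q.bk := by
    rcases hq with ⟨t, h1, _, _, _, _, rfl⟩ | ⟨t, h1, _, _, _, rfl⟩
    · exact ⟨h1, hr, hb⟩
    · exact ⟨hk, h1, hb⟩
  rcases hp with hp | ⟨hv1, hv2, hp⟩
  · rcases east_reply (m := 8) (n := ⊤) (by exact hb) hp hq with h | ⟨t, h1, h2⟩
    · exact Or.inl h
    · refine Or.inr (Or.inr ⟨t, h1, ?_⟩)
      rcases h2 with h2 | h2
      · exact Or.inl h2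
      · exact Or.inr ⟨⟨hon.1, hon.2.1, h1.1⟩, Or.inl h2⟩
  · obtain ⟨wk, wr, bk⟩ := p
    obtain ⟨u, v⟩ := wk
    obtain ⟨r, s⟩ := wr
    obtain ⟨x, y⟩ := bk
    simp only at *
    have hk' := onBoard_8.1 hk
    have hr' := onBoard_8.1 hr
    have hb' := onBoard_8.1 hb
    have hc := NatTree.of_all hT hp
    unfold chkR codeR at hc
    obtain ⟨e1, e2, e3, e4, e5, e6⟩ := decodeR (u := min y 2) (v := x) (r := u)
      (s := v + 10 - y) (x := r) (y := min 20 (s + 10 - y))
      (by omega) (by omega) (by omega) (by omega) (by omega) (by omega)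
    rw [e1, e2, e3, e4, e5, e6] at hc
    unfold whiteR at hc
    simp only [Bool.and_eq_true] at hc
    obtain ⟨c1, c2, c3⟩ := hc
    rcases hq with ⟨t, h1, h2, h3, h4, h5, rfl⟩ | ⟨t, h1, h2, h3, h4, rfl⟩
    · obtain ⟨tx, ty⟩ := t
      simp only at *
      have ht' := onBoard_8.1 h1
      have h2' := h2
      unfold Near at h2'
      simp only at h2'
      have hne : (tx, ty + 10 - y) ≠ (u, v + 10 - y) := by
        intro h6
        rw [Prod.mk.injEq] at h6
        apply h3
        rw [Prod.mk.injEq]
        omega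
      have := all8_spec c1 (tx := tx) (ty := ty + 10 - y) ht'.1 (by omega)
        (by
          unfold Near
          simp only
          omega) hne
      unfold kingR at this
      simp only [Bool.or_eq_true, not_iff_false, Bool.and_eq_true, Nat.ble_eq, sqB_iff,
        nearB_iff, beq_iff] at this
      rcases this with h6 | h6
      · exfalso
        apply h6
        refine ⟨ht'.1, ht'.2.1, ?_, ?_, ?_⟩
        · by_cases hy2 : min y 2 = 1
          · right; omega
          · left; exact hy2
        · intro h7
          rw [Prod.mk.injEq] at h7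
          apply h4
          rw [Prod.mk.injEq]
          omega
        · intro h7
          apply h5
          unfold Near at h7 ⊢
          simp only at h7 ⊢
          omega
      · exact blackR_spec h6 h1 hr hb (by omega) (by omega)
    · obtain ⟨tx, ty⟩ := t
      simp only at *
      have ht' := onBoard_8.1 h1
      rcases h2 with ⟨g1, g2, g3, g4⟩ | ⟨g1, g2, g3, g4⟩
      · simp only at g1 g2 g3 g4
        subst g1
        have hv6 := allV_spec c3 (t := min 20 (ty + 10 - y)) (by omega)
        unfold rookV at hv6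
        simp only [Bool.or_eq_true, not_iff_false, Bool.and_eq_true, Nat.ble_eq, beq_iff,
          btwB_iff] at hv6
        rcases hv6 with h6 | h6
        · exfalso
          apply h6
          refine ⟨?_, ?_, ?_, ?_⟩
          · by_cases hy2 : min y 2 = 1
            · right; omega
            · left; exact hy2
          · by_cases hbt : min 20 (s + 10 - y) = min 20 (ty + 10 - y)
            · right; omega
            · left; exact hbt
          · rintro ⟨i1, i2⟩
            subst i1
            unfold Btw at g3 i2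
            rcases i2 with i2 | i2
            · apply g3
              refine ⟨rfl, ?_⟩
              omega
            · apply h3
              rw [Prod.mk.injEq]
              omega
          · rintro ⟨i1, i2⟩
            subst i1
            unfold Btw at g4 i2
            rcases i2 with i2 | i2
            · apply g4
              refine ⟨rfl, ?_⟩
              omega
            · apply h4
              rw [Prod.mk.injEq]
              omega
        · exact blackR_spec h6 hk h1 hb (by omega) (by omega)
      · simp only at g1 g2 g3 g4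
        subst g1
        have hv6 := allH_spec c2 ht'.1 ht'.2.1
        unfold rookH at hv6
        simp only [Bool.or_eq_true, not_iff_false, Bool.and_eq_true, sqB_iff, clearB_iff] at hv6
        rcases hv6 with h6 | h6
        · exfalso
          apply h6
          refine ⟨?_, ?_, ?_⟩
          · right
            simp only
            refine ⟨trivial, g2, ?_, ?_⟩
            · rintro ⟨i1, i2⟩
              exact g3 ⟨by omega, i2⟩
            · rintro ⟨i1, i2⟩
              exact g4 ⟨by omega, i2⟩
          · intro h7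
            rw [Prod.mk.injEq] at h7
            apply h3
            rw [Prod.mk.injEq]
            omega
          · intro h7
            rw [Prod.mk.injEq] at h7
            apply h4
            rw [Prod.mk.injEq]
            omega
        · exact blackR_spec h6 hk h1 hb (by omega) (by omega)

theorem no_win_strip {T : NatTree} (hT : T.all (chkR T) = true)
    (hst : T.mem (codeR 1 1 2 2 3 3) = true) (k : ℕ) : ¬ WinsIn 8 ⊤ k start := by
  refine not_winsIn_of_safe (Safe8 T) (safe8_closed hT) k start ⟨⟨?_, ?_, ?_⟩, ?_⟩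
  · exact onBoard_8.2 (by decide)
  · exact onBoard_8.2 (by decide)
  · exact onBoard_8.2 (by decide)
  · exact Or.inr ⟨by decide, by decide, hst⟩

end Pool.Agent.R186.KRK
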