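import Pool.Agent.R186.NatTree

/-!
# A safe set for Black on the strip with 8 files (data)
-/

set_option autoImplicit false
set_option maxRecDepth 100000

namespace Pool.Agent.R186.KRK.StripData

open Pool.Agent.R186

def c0 : NatTree := (.node (.node (.node (.node (.node (.node (.node .leaf 90450 .leaf) 90706 .leaf) 90962 (.node (.node .leaf 91218 .leaf) 99186 .leaf)) 139538 (.node (.node (.node .leaf 140050 .leaf) 140306 .leaf) 140562 (.node .leaf 140818 .leaf))) 141074 (.node (.node (.node (.node .leaf 141330 .leaf) 155986 .leaf) 156498 (.node (.node .leaf 156754 .leaf) 160066 .leaf)) 160338 (.node (.node (.node .leaf 160610 .leaf) 164210 .leaf) 164722 (.node .leaf 209186 .leaf)))) 209442 (.node (.node (.node (.node (.node .leaf 209954 .leaf) 210210 .leaf) 210466 (.node (.node .leaf 210722 .leaf) 210978 .leaf)) 221522 (.node (.node (.node .leaf 221778 .leaf) 222034 .leaf) 222290 (.node .leaf 278834 .leaf))) 279090 (.node (.node (.node (.node .leaf 279346 .leaf) 279858 .leaf) 280114 (.node (.node .leaf 280370 .leaf) 280626 .leaf)) 287058 (.node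 (.node (.node .leaf 287314 .leaf) 287570 .leaf) 287826 (.node .leaf 295794 .leaf))))) 349762 (.node (.node (.node (.node (.node (.node .leaf 350018 .leaf) 350274 .leaf) 352578 (.node (.node .leaf 352834 .leaf) 353090 .leaf)) 353346 (.node (.node (.node .leaf 356674 .leaf) 356930 .leaf) 357186 (.node .leaf 357442 .leaf))) 357714 (.node (.node (.node (.node .leaf 357986 .leaf) 361330 .leaf) 418130 (.node (.node .leaf 418386 .leaf) 418642 .leaf)) 418898 (.node (.node (.node .leaf 419154 .leaf) 419666 .leaf) 419922 (.node .leaf 422226 .leaf)))) 422482 (.node (.node (.node (.node (.node .leaf 422738 .leaf) 422994 .leaf) 423250 (.node (.node .leaf 423522 .leaf) 483666 .leaf)) 483922 (.node (.node (.node .leaf 484178 .leaf) 484434 .leaf) 487778 (.node .leaf 488034 .leaf))) 488290 (.node (.node (.node (.node .leaf 488546 .leaf) 488802 .leaf) 489058 (.node .leaf 489570 .leaf)) 491874 (.node (.node (.node .leaf 492130 .leaf) 492386 .leaf) 492642 (.node .leaf 549202 .leaf))))))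

def c1 : NatTree := (.node (.node (.node (.node (.node (.node (.node .leaf 549714 .leaf) 549970 .leaf) 557426 (.node (.node .leaf 557682 .leaf) 557938 .leaf)) 558194 (.node (.node (.node .leaf 558450 .leaf) 561522 .leaf) 561778 (.node .leaf 562034 .leaf))) 562290 (.node (.node (.node (.node .leaf 562546 .leaf) 1139026 .leaf) 1139282 (.node (.node .leaf 1139538 .leaf) 1139794 .leaf)) 1147762 (.node (.node (.node .leaf 1188114 .leaf) 1188626 .leaf) 1188882 (.node .leaf 1189138 .leaf)))) 1189394 (.node (.node (.node (.node (.node .leaf 1189650 .leaf) 1189906 .leaf) 1204562 (.node (.node .leaf 1205074 .leaf) 1205330 .leaf)) 1208642 (.node (.node (.node .leaf 1208914 .leaf) 1209186 .leaf) 1212786 (.node .leaf 1213298 .leaf))) 1257762 (.node (.node (.node (.node .leaf 1258018 .leaf) 1258530 .leaf) 1258786 (.node (.node .leaf 1259042 .leaf) 1259298 .leaf)) 1259554 (.node (.node (.node .leaf 1270098 .leaf) 1270354 .leaf) 1270610 (.node .leaf 1270866 .leaf))))) 1327410 (.node (.node (.node (.node (.node (.node .leaf 1327666 .leaf) 1327922 .leaf) 1328434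 (.node (.node .leaf 1328690 .leaf) 1328946 .leaf)) 1329202 (.node (.node (.node .leaf 1335634 .leaf) 1335890 .leaf) 1336146 (.node .leaf 1336402 .leaf))) 1344370 (.node (.node (.node (.node .leaf 1398338 .leaf) 1398594 .leaf) 1398850 (.node (.node .leaf 1401154 .leaf) 1401410 .leaf)) 1401666 (.node (.node (.node .leaf 1401922 .leaf) 1405250 .leaf) 1405506 (.node .leaf 1405762 .leaf)))) 1406018 (.node (.node (.node (.node (.node .leaf 1406290 .leaf) 1406562 .leaf) 1409906 (.node (.node .leaf 1466706 .leaf) 1466962 .leaf)) 1467218 (.node (.node (.node .leaf 1467474 .leaf) 1467730 .leaf) 1468242 (.node .leaf 1468498 .leaf))) 1470802 (.node (.node (.node (.node .leaf 1471058 .leaf) 1471314 .leaf) 1471570 (.node .leaf 1471826 .leaf)) 1472098 (.node (.node (.node .leaf 1532242 .leaf) 1532498 .leaf) 1532754 (.node .leaf 1533010 .leaf))))))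

def c2 : NatTree := (.node (.node (.node (.node (.node (.node (.node .leaf 1536610 .leaf) 1536866 .leaf) 1537122 (.node (.node .leaf 1537378 .leaf) 1537634 .leaf)) 1538146 (.node (.node (.node .leaf 1540450 .leaf) 1540706 .leaf) 1540962 (.node .leaf 1541218 .leaf))) 1597778 (.node (.node (.node (.node .leaf 1598034 .leaf) 1598290 .leaf) 1598546 (.node (.node .leaf 1606002 .leaf) 1606258 .leaf)) 1606514 (.node (.node (.node .leaf 1606770 .leaf) 1607026 .leaf) 1610098 (.node .leaf 1610354 .leaf)))) 1610610 (.node (.node (.node (.node (.node .leaf 1610866 .leaf) 1611122 .leaf) 2187602 (.node (.node .leaf 2187858 .leaf) 2188114 .leaf)) 2188370 (.node (.node (.node .leaf 2196338 .leaf) 2236690 .leaf) 2237202 (.node .leaf 2237458 .leaf))) 2237714 (.node (.node (.node (.node .leaf 2237970 .leaf) 2238226 .leaf) 2238482 (.node (.node .leaf 2253138 .leaf) 2253650 .leaf)) 2253906 (.node (.node (.node .leaf 2257218 .leaf) 2257490 .leaf) 2257762 (.node .leaf 2261362 .leaf))))) 2261874 (.node (.node (.node (.node (.node (.node .leaf 2306338 .leaf) 2306594 .leaf)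 2307106 (.node (.node .leaf 2307362 .leaf) 2307618 .leaf)) 2307874 (.node (.node (.node .leaf 2308130 .leaf) 2318674 .leaf) 2318930 (.node .leaf 2319186 .leaf))) 2319442 (.node (.node (.node (.node .leaf 2375986 .leaf) 2376242 .leaf) 2376498 (.node (.node .leaf 2377010 .leaf) 2377266 .leaf)) 2377522 (.node (.node (.node .leaf 2377778 .leaf) 2384210 .leaf) 2384466 (.node .leaf 2384722 .leaf)))) 2384978 (.node (.node (.node (.node (.node .leaf 2392946 .leaf) 2446914 .leaf) 2447170 (.node (.node .leaf 2447426 .leaf) 2449730 .leaf)) 2449986 (.node (.node (.node .leaf 2450242 .leaf) 2450498 .leaf) 2453826 (.node .leaf 2454082 .leaf))) 2454338 (.node (.node (.node (.node .leaf 2454594 .leaf) 2454866 .leaf) 2455138 (.node .leaf 2458482 .leaf)) 2515282 (.node (.node (.node .leaf 2515538 .leaf) 2515794 .leaf) 2516050 (.node .leaf 2516306 .leaf))))))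

def c3 : NatTree := (.node (.node (.node (.node (.node (.node (.node .leaf 2517074 .leaf) 2519378 .leaf) 2519634 (.node (.node .leaf 2519890 .leaf) 2520146 .leaf)) 2520402 (.node (.node (.node .leaf 2520674 .leaf) 2580818 .leaf) 2581074 (.node .leaf 2581330 .leaf))) 2581586 (.node (.node (.node (.node .leaf 2584930 .leaf) 2585186 .leaf) 2585442 (.node (.node .leaf 2585698 .leaf) 2585954 .leaf)) 2586210 (.node (.node (.node .leaf 2586722 .leaf) 2589026 .leaf) 2589282 (.node .leaf 2589538 .leaf)))) 2589794 (.node (.node (.node (.node (.node .leaf 2646354 .leaf) 2646610 .leaf) 2646866 (.node (.node .leaf 2647122 .leaf) 2654578 .leaf)) 2654834 (.node (.node (.node .leaf 2655090 .leaf) 2655346 .leaf) 2655602 (.node .leaf 2658674 .leaf))) 2658930 (.node (.node (.node (.node .leaf 2659186 .leaf) 2659442 .leaf) 2659698 (.node .leaf 3236178 .leaf)) 3236434 (.node (.node (.node .leaf 3236690 .leaf) 3236946 .leaf) 3244914 (.node .leaf 3285266 .leaf))))) 3285522 (.node (.node (.node (.node (.node (.node .leaf 3285778 .leaf) 3286034 .leaf) 3286290 (.node (.node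 .leaf 3286546 .leaf) 3286802 .leaf)) 3287058 (.node (.node (.node .leaf 3301714 .leaf) 3302226 .leaf) 3302482 (.node .leaf 3305794 .leaf))) 3306066 (.node (.node (.node (.node .leaf 3306338 .leaf) 3309938 .leaf) 3310450 (.node (.node .leaf 3354914 .leaf) 3355170 .leaf)) 3355682 (.node (.node (.node .leaf 3355938 .leaf) 3356194 .leaf) 3356450 (.node .leaf 3356706 .leaf)))) 3367250 (.node (.node (.node (.node (.node .leaf 3367506 .leaf) 3367762 .leaf) 3368018 (.node (.node .leaf 3424562 .leaf) 3424818 .leaf)) 3425074 (.node (.node (.node .leaf 3425586 .leaf) 3425842 .leaf) 3426098 (.node .leaf 3426354 .leaf))) 3432786 (.node (.node (.node (.node .leaf 3433042 .leaf) 3433298 .leaf) 3433554 (.node .leaf 3441522 .leaf)) 3495490 (.node (.node (.node .leaf 3495746 .leaf) 3496002 .leaf) 3498306 (.node .leaf 3498562 .leaf))))))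

def c4 : NatTree := (.node (.node (.node (.node (.node (.node (.node .leaf 3499074 .leaf) 3502402 .leaf) 3502658 (.node (.node .leaf 3502914 .leaf) 3503170 .leaf)) 3503442 (.node (.node (.node .leaf 3503714 .leaf) 3507058 .leaf) 3563858 (.node .leaf 3564114 .leaf))) 3564370 (.node (.node (.node (.node .leaf 3564626 .leaf) 3564882 .leaf) 3565394 (.node (.node .leaf 3565650 .leaf) 3567954 .leaf)) 3568210 (.node (.node (.node .leaf 3568466 .leaf) 3568722 .leaf) 3568978 (.node .leaf 3569250 .leaf)))) 3629394 (.node (.node (.node (.node (.node .leaf 3629650 .leaf) 3629906 .leaf) 3630162 (.node (.node .leaf 3633506 .leaf) 3633762 .leaf)) 3634018 (.node (.node (.node .leaf 3634274 .leaf) 3634530 .leaf) 3634786 (.node .leaf 3635298 .leaf))) 3637602 (.node (.node (.node (.node .leaf 3637858 .leaf) 3638114 .leaf) 3638370 (.node (.node .leaf 3694930 .leaf) 3695186 .leaf)) 3695442 (.node (.node (.node .leaf 3695698 .leaf) 3703154 .leaf) 3703410 (.node .leaf 3703666 .leaf))))) 3703922 (.node (.node (.node (.node (.node (.node .leaf 3704178 .leaf) 3707250 .leaf)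 3707506 (.node (.node .leaf 3707762 .leaf) 3708018 .leaf)) 3708274 (.node (.node (.node .leaf 4284754 .leaf) 4285010 .leaf) 4285266 (.node .leaf 4285522 .leaf))) 4293490 (.node (.node (.node (.node .leaf 4333842 .leaf) 4334098 .leaf) 4334354 (.node (.node .leaf 4334610 .leaf) 4334866 .leaf)) 4335122 (.node (.node (.node .leaf 4335378 .leaf) 4335634 .leaf) 4350290 (.node .leaf 4350802 .leaf)))) 4351058 (.node (.node (.node (.node (.node .leaf 4354370 .leaf) 4354642 .leaf) 4354914 (.node (.node .leaf 4358514 .leaf) 4359026 .leaf)) 4403490 (.node (.node (.node .leaf 4403746 .leaf) 4404002 .leaf) 4404258 (.node .leaf 4404514 .leaf))) 4404770 (.node (.node (.node (.node .leaf 4405026 .leaf) 4405282 .leaf) 4415826 (.node .leaf 4416082 .leaf)) 4416338 (.node (.node (.node .leaf 4416594 .leaf) 4473138 .leaf) 4473394 (.node .leaf 4473650 .leaf))))))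

def c5 : NatTree := (.node (.node (.node (.node (.node (.node (.node .leaf 4474418 .leaf) 4474674 .leaf) 4474930 (.node (.node .leaf 4481362 .leaf) 4481618 .leaf)) 4481874 (.node (.node (.node .leaf 4482130 .leaf) 4490098 .leaf) 4543554 (.node .leaf 4544066 .leaf))) 4544322 (.node (.node (.node (.node .leaf 4544578 .leaf) 4546882 .leaf) 4547138 (.node (.node .leaf 4547394 .leaf) 4547650 .leaf)) 4547922 (.node (.node (.node .leaf 4550978 .leaf) 4551234 .leaf) 4551490 (.node .leaf 4551746 .leaf)))) 4552018 (.node (.node (.node (.node (.node .leaf 4555634 .leaf) 4612434 .leaf) 4612690 (.node (.node .leaf 4612946 .leaf) 4613202 .leaf)) 4613458 (.node (.node (.node .leaf 4613970 .leaf) 4614226 .leaf) 4616530 (.node .leaf 4616786 .leaf))) 4617042 (.node (.node (.node (.node .leaf 4617298 .leaf) 4617554 .leaf) 4617826 (.node (.node .leaf 4677970 .leaf) 4678226 .leaf)) 4678482 (.node (.node (.node .leaf 4678738 .leaf) 4682082 .leaf) 4682338 (.node .leaf 4682594 .leaf))))) 4682850 (.node (.node (.node (.node (.node (.node .leaf 4683106 .leaf) 4683362 .leaf)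 4683874 (.node (.node .leaf 4686178 .leaf) 4686434 .leaf)) 4686690 (.node (.node (.node .leaf 4686946 .leaf) 4743506 .leaf) 4743762 (.node .leaf 4744018 .leaf))) 4744274 (.node (.node (.node (.node .leaf 4751730 .leaf) 4751986 .leaf) 4752242 (.node (.node .leaf 4752498 .leaf) 4752754 .leaf)) 4755826 (.node (.node (.node .leaf 4756082 .leaf) 4756338 .leaf) 4756594 (.node .leaf 4756850 .leaf)))) 5333330 (.node (.node (.node (.node (.node .leaf 5333586 .leaf) 5333842 .leaf) 5342066 (.node (.node .leaf 5382418 .leaf) 5382674 .leaf)) 5382930 (.node (.node (.node .leaf 5383186 .leaf) 5383442 .leaf) 5383698 (.node .leaf 5383954 .leaf))) 5384210 (.node (.node (.node (.node .leaf 5399378 .leaf) 5402946 .leaf) 5403218 (.node .leaf 5407090 .leaf)) 5407346 (.node (.node (.node .leaf 5407602 .leaf) 5407858 .leaf) 5452066 (.node .leaf 5452322 .leaf))))))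

def c6 : NatTree := (.node (.node (.node (.node (.node (.node (.node .leaf 5452834 .leaf) 5453090 .leaf) 5453346 (.node (.node .leaf 5453602 .leaf) 5453858 .leaf)) 5464402 (.node (.node (.node .leaf 5464658 .leaf) 5464914 .leaf) 5521714 (.node .leaf 5521970 .leaf))) 5522226 (.node (.node (.node (.node .leaf 5522482 .leaf) 5522738 .leaf) 5522994 (.node (.node .leaf 5523250 .leaf) 5523506 .leaf)) 5529938 (.node (.node (.node .leaf 5530194 .leaf) 5530450 .leaf) 5538674 (.node .leaf 5591874 .leaf)))) 5592130 (.node (.node (.node (.node (.node .leaf 5592642 .leaf) 5592898 .leaf) 5593154 (.node (.node .leaf 5595458 .leaf) 5595714 .leaf)) 5595970 (.node (.node (.node .leaf 5596226 .leaf) 5596498 .leaf) 5599554 (.node .leaf 5599810 .leaf))) 5600066 (.node (.node (.node (.node .leaf 5600322 .leaf) 5604210 .leaf) 5661010 (.node (.node .leaf 5661266 .leaf) 5661522 .leaf)) 5661778 (.node (.node (.node .leaf 5662034 .leaf) 5662546 .leaf) 5662802 (.node .leaf 5665106 .leaf))))) 5665362 (.node (.node (.node (.node (.node (.node .leaf 5665618 .leaf) 5665874 .leaf)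 5666130 (.node (.node .leaf 5666402 .leaf) 5726546 .leaf)) 5726802 (.node (.node (.node .leaf 5727058 .leaf) 5730658 .leaf) 5730914 (.node .leaf 5731170 .leaf))) 5731426 (.node (.node (.node (.node .leaf 5731682 .leaf) 5731938 .leaf) 5732450 (.node (.node .leaf 5734754 .leaf) 5735010 .leaf)) 5735266 (.node (.node (.node .leaf 5735522 .leaf) 5792082 .leaf) 5792338 (.node .leaf 5792594 .leaf)))) 5800306 (.node (.node (.node (.node (.node .leaf 5800562 .leaf) 5800818 .leaf) 5801074 (.node (.node .leaf 5801330 .leaf) 5804402 .leaf)) 5804658 (.node (.node (.node .leaf 5804914 .leaf) 5805170 .leaf) 5805426 (.node .leaf 6386018 .leaf))) 6386274 (.node (.node (.node (.node .leaf 6386530 .leaf) 6390642 .leaf) 6430994 (.node .leaf 6431250 .leaf)) 6431506 (.node (.node (.node .leaf 6431762 .leaf) 6432018 .leaf) 6432274 (.node .leaf 6432530 .leaf))))))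

def c7 : NatTree := (.node (.node (.node (.node (.node (.node (.node .leaf 6451522 .leaf) 6451810 .leaf) 6452066 (.node (.node .leaf 6452322 .leaf) 6455650 .leaf)) 6455906 (.node (.node (.node .leaf 6456162 .leaf) 6500642 .leaf) 6500898 (.node .leaf 6501154 .leaf))) 6501410 (.node (.node (.node (.node .leaf 6501666 .leaf) 6501922 .leaf) 6502178 (.node (.node .leaf 6502434 .leaf) 6513234 .leaf)) 6517090 (.node (.node (.node .leaf 6517346 .leaf) 6570290 .leaf) 6570546 (.node .leaf 6570802 .leaf)))) 6571058 (.node (.node (.node (.node (.node .leaf 6571314 .leaf) 6571570 .leaf) 6571826 (.node (.node .leaf 6572082 .leaf) 6578770 .leaf)) 6582626 (.node (.node (.node .leaf 6582882 .leaf) 6587250 .leaf) 6640194 (.node .leaf 6640450 .leaf))) 6640706 (.node (.node (.node (.node .leaf 6640962 .leaf) 6641218 .leaf) 6641474 (.node .leaf 6641730 .leaf)) 6644034 (.node (.node (.node .leaf 6644290 .leaf) 6644546 .leaf) 6644802 (.node .leaf 6648130 .leaf))))) 6648386 (.node (.node (.node (.node (.node (.node .leaf 6648642 .leaf) 6652786 .leaf) 6709586 (.node (.node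 .leaf 6709842 .leaf) 6710098 .leaf)) 6710354 (.node (.node (.node .leaf 6710610 .leaf) 6711122 .leaf) 6711378 (.node .leaf 6713682 .leaf))) 6713938 (.node (.node (.node (.node .leaf 6714194 .leaf) 6714450 .leaf) 6714706 (.node (.node .leaf 6714978 .leaf) 6779234 .leaf)) 6779490 (.node (.node (.node .leaf 6779746 .leaf) 6780002 .leaf) 6780258 (.node .leaf 6780514 .leaf)))) 6781026 (.node (.node (.node (.node (.node .leaf 6783330 .leaf) 6783586 .leaf) 6783842 (.node (.node .leaf 6784098 .leaf) 6844770 .leaf)) 6845026 (.node (.node (.node .leaf 6845282 .leaf) 6848882 .leaf) 6849138 (.node .leaf 6849394 .leaf))) 6849650 (.node (.node (.node (.node .leaf 6849906 .leaf) 6852978 .leaf) 6853234 (.node .leaf 6853490 .leaf)) 6853746 (.node (.node (.node .leaf 6854002 .leaf) 7430482 .leaf) 7430738 (.node .leaf 7434834 .leaf))))))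

def c8 : NatTree := (.node (.node (.node (.node (.node (.node (.node .leaf 7479570 .leaf) 7479826 .leaf) 7480082 (.node (.node .leaf 7480338 .leaf) 7480594 .leaf)) 7480850 (.node (.node (.node .leaf 7481106 .leaf) 7481362 .leaf) 7496274 (.node .leaf 7496530 .leaf))) 7500098 (.node (.node (.node (.node .leaf 7500626 .leaf) 7504210 .leaf) 7504466 (.node (.node .leaf 7504754 .leaf) 7549218 .leaf)) 7549474 (.node (.node (.node .leaf 7549730 .leaf) 7549986 .leaf) 7550242 (.node .leaf 7550498 .leaf)))) 7550754 (.node (.node (.node (.node (.node .leaf 7551010 .leaf) 7561554 .leaf) 7561810 (.node (.node .leaf 7565650 .leaf) 7618866 .leaf)) 7619122 (.node (.node (.node .leaf 7619378 .leaf) 7619634 .leaf) 7619890 (.node .leaf 7620146 .leaf))) 7620402 (.node (.node (.node (.node .leaf 7620658 .leaf) 7627090 .leaf) 7627346 (.node (.node .leaf 7631186 .leaf) 7635826 .leaf)) 7688514 (.node (.node (.node .leaf 7688770 .leaf) 7689026 .leaf) 7689282 (.node .leaf 7689538 .leaf))))) 7689794 (.node (.node (.node (.node (.node (.node .leaf 7690050 .leaf) 7690306 .leaf)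 7692610 (.node (.node .leaf 7692866 .leaf) 7693122 .leaf)) 7693378 (.node (.node (.node .leaf 7696706 .leaf) 7696962 .leaf) 7701362 (.node .leaf 7758162 .leaf))) 7758418 (.node (.node (.node (.node .leaf 7758674 .leaf) 7758930 .leaf) 7759186 (.node (.node .leaf 7759442 .leaf) 7759698 .leaf)) 7759954 (.node (.node (.node .leaf 7762258 .leaf) 7762514 .leaf) 7762770 (.node .leaf 7763026 .leaf)))) 7763282 (.node (.node (.node (.node (.node .leaf 7823698 .leaf) 7823954 .leaf) 7827794 (.node (.node .leaf 7828050 .leaf) 7828322 .leaf)) 7828578 (.node (.node (.node .leaf 7828834 .leaf) 7829090 .leaf) 7829602 (.node .leaf 7831906 .leaf))) 7832162 (.node (.node (.node (.node .leaf 7832418 .leaf) 7832674 .leaf) 7889234 (.node .leaf 7889490 .leaf)) 7893330 (.node (.node (.node .leaf 7893586 .leaf) 7897458 .leaf) 7897714 (.node .leaf 7897970 .leaf))))))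

def c9 : NatTree := (.node (.node (.node (.node (.node (.node (.node .leaf 7898482 .leaf) 7901554 .leaf) 7901810 (.node (.node .leaf 7902066 .leaf) 7902322 .leaf)) 7902578 (.node (.node (.node .leaf 8479058 .leaf) 8483138 .leaf) 8487794 (.node .leaf 8544850 .leaf))) 8548706 (.node (.node (.node (.node .leaf 8548930 .leaf) 8552770 .leaf) 8552818 (.node (.node .leaf 8553330 .leaf) 8597794 .leaf)) 8598050 (.node (.node (.node .leaf 8598306 .leaf) 8598562 .leaf) 8598818 (.node .leaf 8599074 .leaf)))) 8599330 (.node (.node (.node (.node (.node .leaf 8599586 .leaf) 8667442 .leaf) 8667698 (.node (.node .leaf 8667954 .leaf) 8668210 .leaf)) 8668466 (.node (.node (.node .leaf 8668722 .leaf) 8668978 .leaf) 8669234 (.node .leaf 8684402 .leaf))) 8737090 (.node (.node (.node (.node .leaf 8737346 .leaf) 8737602 .leaf) 8737858 (.node (.node .leaf 8738114 .leaf) 8738370 .leaf)) 8738626 (.node (.node (.node .leaf 8738882 .leaf) 8745282 .leaf) 8806738 (.node .leaf 8806994 .leaf))))) 8808018 (.node (.node (.node (.node (.node (.node .leaf 8808274 .leaf) 8808530 .leaf)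 8810818 (.node (.node .leaf 8811858 .leaf) 8872274 .leaf)) 8876354 (.node (.node (.node .leaf 8877154 .leaf) 8877410 .leaf) 8877666 (.node .leaf 8877922 .leaf))) 8878178 (.node (.node (.node (.node .leaf 8880482 .leaf) 8880738 .leaf) 8880994 (.node (.node .leaf 8937810 .leaf) 8941890 .leaf)) 8946290 (.node (.node (.node .leaf 8946802 .leaf) 8950130 .leaf) 8950642 (.node .leaf 9527634 .leaf)))) 9536370 (.node (.node (.node (.node (.node .leaf 9597266 .leaf) 9601330 .leaf) 9601394 (.node (.node .leaf 9601650 .leaf) 9601906 .leaf)) 9646370 (.node (.node (.node .leaf 9646626 .leaf) 9646882 .leaf) 9647138 (.node .leaf 9647394 .leaf))) 9647650 (.node (.node (.node (.node .leaf 9647906 .leaf) 9648162 .leaf) 9716018 (.node .leaf 9716274 .leaf)) 9716530 (.node (.node (.node .leaf 9716786 .leaf) 9717042 .leaf) 9717298 (.node .leaf 9717554 .leaf))))))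

def c10 : NatTree := (.node (.node (.node (.node (.node (.node (.node .leaf 9732978 .leaf) 9785666 .leaf) 9785922 (.node (.node .leaf 9786178 .leaf) 9786434 .leaf)) 9786690 (.node (.node (.node .leaf 9786946 .leaf) 9787202 .leaf) 9787458 (.node .leaf 9856594 .leaf))) 9856850 (.node (.node (.node (.node .leaf 9857106 .leaf) 9920850 .leaf) 9925986 (.node (.node .leaf 9926242 .leaf) 9926498 .leaf)) 9926754 (.node (.node (.node .leaf 9929058 .leaf) 9929314 .leaf) 9929570 (.node .leaf 9986386 .leaf)))) 9994610 (.node (.node (.node (.node (.node .leaf 9994866 .leaf) 9995378 .leaf) 9998706 (.node (.node .leaf 9999218 .leaf) 11620674 .leaf)) 11620930 (.node (.node (.node .leaf 11621186 .leaf) 11621442 .leaf) 11621698 (.node .leaf 11621954 .leaf))) 11622210 (.node (.node (.node (.node .leaf 11622466 .leaf) 11624786 .leaf) 11625042 (.node (.node .leaf 11625298 .leaf) 11625554 .leaf)) 11625810 (.node (.node (.node .leaf 11626066 .leaf) 11626322 .leaf) 11626578 (.node .leaf 11628882 .leaf))))) 11628898 (.node (.node (.node (.node (.node (.node .leaf 11629154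 .leaf) 11629410 .leaf) 11629666 (.node (.node .leaf 11629922 .leaf) 11630178 .leaf)) 11630434 (.node (.node (.node .leaf 11630690 .leaf) 11632994 .leaf) 11633010 (.node .leaf 11633250 .leaf))) 11633266 (.node (.node (.node (.node .leaf 11633506 .leaf) 11633522 .leaf) 11633778 (.node (.node .leaf 11634034 .leaf) 11634290 .leaf)) 11634546 (.node (.node (.node .leaf 11634802 .leaf) 11637106 .leaf) 11637362 (.node .leaf 11637618 .leaf)))) 11637874 (.node (.node (.node (.node (.node .leaf 11673874 .leaf) 11674130 .leaf) 11674386 (.node (.node .leaf 11674642 .leaf) 11674898 .leaf)) 11675154 (.node (.node (.node .leaf 11675410 .leaf) 11675666 .leaf) 11677970 (.node .leaf 11678226 .leaf))) 11678482 (.node (.node (.node (.node .leaf 11678738 .leaf) 11678994 .leaf) 11679250 (.node .leaf 11679506 .leaf)) 11679762 (.node (.node (.node .leaf 11690322 .leaf) 11690834 .leaf) 11691090 (.node .leaf 11691346 .leaf))))))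

def c11 : NatTree := (.node (.node (.node (.node (.node (.node (.node .leaf 11691858 .leaf) 11692114 .leaf) 11694402 (.node (.node .leaf 11694418 .leaf) 11694674 .leaf)) 11694690 (.node (.node (.node .leaf 11694946 .leaf) 11695202 .leaf) 11695458 (.node .leaf 11695714 .leaf))) 11695970 (.node (.node (.node (.node .leaf 11696226 .leaf) 11698514 .leaf) 11698530 (.node (.node .leaf 11698770 .leaf) 11698786 .leaf)) 11699042 (.node (.node (.node .leaf 11699058 .leaf) 11699314 .leaf) 11699570 (.node .leaf 11699826 .leaf)))) 11700082 (.node (.node (.node (.node (.node .leaf 11700338 .leaf) 11702626 .leaf) 11702642 (.node (.node .leaf 11702882 .leaf) 11702898 .leaf)) 11703138 (.node (.node (.node .leaf 11703154 .leaf) 11703410 .leaf) 11706738 (.node .leaf 11706994 .leaf))) 11707250 (.node (.node (.node (.node .leaf 11707506 .leaf) 11743522 .leaf) 11743778 (.node .leaf 11744034 .leaf)) 11744290 (.node (.node (.node .leaf 11744546 .leaf) 11744802 .leaf) 11745058 (.node .leaf 11745314 .leaf))))) 11747618 (.node (.node (.node (.node (.node (.node .leaf 11747874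 .leaf) 11748130 .leaf) 11748386 (.node (.node .leaf 11748642 .leaf) 11748898 .leaf)) 11749154 (.node (.node (.node .leaf 11749410 .leaf) 11755858 .leaf) 11759970 (.node .leaf 11760226 .leaf))) 11760482 (.node (.node (.node (.node .leaf 11760738 .leaf) 11760994 .leaf) 11761250 (.node (.node .leaf 11761506 .leaf) 11761762 .leaf)) 11764066 (.node (.node (.node .leaf 11764082 .leaf) 11764322 .leaf) 11764338 (.node .leaf 11764578 .leaf)))) 11764594 (.node (.node (.node (.node (.node .leaf 11764850 .leaf) 11765106 .leaf) 11765362 (.node (.node .leaf 11765618 .leaf) 11765874 .leaf)) 11768178 (.node (.node (.node .leaf 11768434 .leaf) 11768690 .leaf) 11768946 (.node .leaf 11809058 .leaf))) 11809314 (.node (.node (.node (.node .leaf 11809570 .leaf) 11809826 .leaf) 11810082 (.node .leaf 11810338 .leaf)) 11810594 (.node (.node (.node .leaf 11810850 .leaf) 11813170 .leaf) 11813426 (.node .leaf 11813682 .leaf))))))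

def c12 : NatTree := (.node (.node (.node (.node (.node (.node (.node .leaf 11814194 .leaf) 11814450 .leaf) 11814706 (.node (.node .leaf 11814962 .leaf) 11817266 .leaf)) 11817522 (.node (.node (.node .leaf 11817778 .leaf) 11818034 .leaf) 11818290 (.node .leaf 11818546 .leaf))) 11818802 (.node (.node (.node (.node .leaf 11819058 .leaf) 11821394 .leaf) 11825506 (.node (.node .leaf 11825762 .leaf) 11826018 .leaf)) 11829618 (.node (.node (.node .leaf 11829874 .leaf) 11830130 .leaf) 11830386 (.node .leaf 11830642 .leaf)))) 11830898 (.node (.node (.node (.node (.node .leaf 11831154 .leaf) 11831410 .leaf) 11833714 (.node (.node .leaf 11833970 .leaf) 11834226 .leaf)) 11834482 (.node (.node (.node .leaf 11874594 .leaf) 11874850 .leaf) 11875106 (.node .leaf 11875362 .leaf))) 11875618 (.node (.node (.node (.node .leaf 11875874 .leaf) 11876130 .leaf) 11876386 (.node (.node .leaf 11878706 .leaf) 11878962 .leaf)) 11879218 (.node (.node (.node .leaf 11879474 .leaf) 11879730 .leaf) 11879986 (.node .leaf 11880242 .leaf))))) 11880498 (.node (.node (.node (.node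 (.node (.node .leaf 11882818 .leaf) 11883074 .leaf) 11883330 (.node (.node .leaf 11883586 .leaf) 11883842 .leaf)) 11884098 (.node (.node (.node .leaf 11884354 .leaf) 11884610 .leaf) 11886914 (.node .leaf 11887170 .leaf))) 11887426 (.node (.node (.node (.node .leaf 11887682 .leaf) 11887938 .leaf) 11888194 (.node (.node .leaf 11888450 .leaf) 11888706 .leaf)) 11891042 (.node (.node (.node .leaf 11891298 .leaf) 11891554 .leaf) 11895154 (.node .leaf 11895410 .leaf)))) 11895666 (.node (.node (.node (.node (.node .leaf 11895922 .leaf) 11940130 .leaf) 11940386 (.node (.node .leaf 11940642 .leaf) 11940898 .leaf)) 11941154 (.node (.node (.node .leaf 11941410 .leaf) 11941666 .leaf) 11941922 (.node .leaf 11944242 .leaf))) 11944498 (.node (.node (.node (.node .leaf 11944754 .leaf) 11945010 .leaf) 11945266 (.node .leaf 11945522 .leaf)) 11945778 (.node (.node (.node .leaf 11946034 .leaf) 11948354 .leaf) 11948610 (.node .leaf 11948866 .leaf))))))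

def c13 : NatTree := (.node (.node (.node (.node (.node (.node (.node .leaf 11949378 .leaf) 11949634 .leaf) 11949890 (.node (.node .leaf 11950146 .leaf) 11953234 .leaf)) 11953490 (.node (.node (.node .leaf 11953746 .leaf) 11954002 .leaf) 11954258 (.node .leaf 11956562 .leaf))) 11956818 (.node (.node (.node (.node .leaf 11957074 .leaf) 11957330 .leaf) 11957586 (.node (.node .leaf 11957842 .leaf) 11958098 .leaf)) 11958354 (.node (.node (.node .leaf 11960658 .leaf) 11960914 .leaf) 11961170 (.node .leaf 11961458 .leaf)))) 12005666 (.node (.node (.node (.node (.node .leaf 12005922 .leaf) 12006178 .leaf) 12006434 (.node (.node .leaf 12006690 .leaf) 12006946 .leaf)) 12007202 (.node (.node (.node .leaf 12007458 .leaf) 12009778 .leaf) 12010034 (.node .leaf 12010290 .leaf))) 12010546 (.node (.node (.node (.node .leaf 12010802 .leaf) 12011058 .leaf) 12011314 (.node (.node .leaf 12011570 .leaf) 12013890 .leaf)) 12014146 (.node (.node (.node .leaf 12014402 .leaf) 12014658 .leaf) 12014914 (.node .leaf 12015170 .leaf))))) 12015426 (.node (.node (.node (.node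 (.node (.node .leaf 12015682 .leaf) 12018002 .leaf) 12018258 (.node (.node .leaf 12018514 .leaf) 12018770 .leaf)) 12019026 (.node (.node (.node .leaf 12019282 .leaf) 12019538 .leaf) 12019794 (.node .leaf 12022098 .leaf))) 12023138 (.node (.node (.node (.node .leaf 12023394 .leaf) 12023650 .leaf) 12023906 (.node (.node .leaf 12026210 .leaf) 12026466 .leaf)) 12026722 (.node (.node (.node .leaf 12026978 .leaf) 12027234 .leaf) 12027490 (.node .leaf 12027746 .leaf)))) 12028002 (.node (.node (.node (.node (.node .leaf 12030306 .leaf) 12030562 .leaf) 12030818 (.node (.node .leaf 12031074 .leaf) 12071202 .leaf)) 12071458 (.node (.node (.node .leaf 12071714 .leaf) 12071970 .leaf) 12072226 (.node .leaf 12072482 .leaf))) 12072738 (.node (.node (.node (.node .leaf 12072994 .leaf) 12075314 .leaf) 12075570 (.node .leaf 12075826 .leaf)) 12076082 (.node (.node (.node .leaf 12076338 .leaf) 12076594 .leaf) 12076850 (.node .leaf 12077106 .leaf))))))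

def c14 : NatTree := (.node (.node (.node (.node (.node (.node (.node .leaf 12079682 .leaf) 12079938 .leaf) 12080194 (.node (.node .leaf 12080450 .leaf) 12080706 .leaf)) 12080962 (.node (.node (.node .leaf 12081218 .leaf) 12083538 .leaf) 12083794 (.node .leaf 12084050 .leaf))) 12084306 (.node (.node (.node (.node .leaf 12084562 .leaf) 12084818 .leaf) 12085074 (.node (.node .leaf 12085330 .leaf) 12087634 .leaf)) 12087650 (.node (.node (.node .leaf 12087906 .leaf) 12088162 .leaf) 12088418 (.node .leaf 12088674 .leaf)))) 12088930 (.node (.node (.node (.node (.node .leaf 12089186 .leaf) 12089442 .leaf) 12091746 (.node (.node .leaf 12092002 .leaf) 12092258 .leaf)) 12092530 (.node (.node (.node .leaf 12092786 .leaf) 12093042 .leaf) 12093298 (.node .leaf 12093554 .leaf))) 12095858 (.node (.node (.node (.node .leaf 12096114 .leaf) 12096370 .leaf) 12096626 (.node (.node .leaf 12096882 .leaf) 12099954 .leaf)) 12100210 (.node (.node (.node .leaf 12100466 .leaf) 12100722 .leaf) 12100978 (.node .leaf 12673362 .leaf))))) 12677474 (.node (.node (.node (.node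 (.node (.node .leaf 12677730 .leaf) 12677986 .leaf) 12681586 (.node (.node .leaf 12681842 .leaf) 12682098 .leaf)) 12682354 (.node (.node (.node .leaf 12722450 .leaf) 12722706 .leaf) 12722962 (.node .leaf 12723218 .leaf))) 12723474 (.node (.node (.node (.node .leaf 12723730 .leaf) 12723986 .leaf) 12724242 (.node (.node .leaf 12726546 .leaf) 12726802 .leaf)) 12727058 (.node (.node (.node .leaf 12727314 .leaf) 12727570 .leaf) 12727826 (.node .leaf 12728082 .leaf)))) 12728338 (.node (.node (.node (.node (.node .leaf 12738898 .leaf) 12742978 .leaf) 12743250 (.node (.node .leaf 12743522 .leaf) 12747122 .leaf)) 12747378 (.node (.node (.node .leaf 12747634 .leaf) 12747890 .leaf) 12792098 (.node .leaf 12792354 .leaf))) 12792610 (.node (.node (.node (.node .leaf 12792866 .leaf) 12793122 .leaf) 12793378 (.node .leaf 12793634 .leaf)) 12793890 (.node (.node (.node .leaf 12796194 .leaf) 12796450 .leaf) 12796706 (.node .leaf 12796962 .leaf))))))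

def c15 : NatTree := (.node (.node (.node (.node (.node (.node (.node .leaf 12797474 .leaf) 12797730 .leaf) 12797986 (.node (.node .leaf 12804434 .leaf) 12808546 .leaf)) 12808802 (.node (.node (.node .leaf 12809058 .leaf) 12812658 .leaf) 12812914 (.node .leaf 12813170 .leaf))) 12813426 (.node (.node (.node (.node .leaf 12861746 .leaf) 12862002 .leaf) 12862258 (.node (.node .leaf 12862514 .leaf) 12862770 .leaf)) 12863026 (.node (.node (.node .leaf 12863282 .leaf) 12863538 .leaf) 12865842 (.node .leaf 12866098 .leaf)))) 12866354 (.node (.node (.node (.node (.node .leaf 12866610 .leaf) 12866866 .leaf) 12867122 (.node (.node .leaf 12867378 .leaf) 12867634 .leaf)) 12869970 (.node (.node (.node .leaf 12874082 .leaf) 12874338 .leaf) 12874594 (.node .leaf 12878194 .leaf))) 12878450 (.node (.node (.node (.node .leaf 12878706 .leaf) 12878962 .leaf) 12931394 (.node .leaf 12931650 .leaf)) 12931906 (.node (.node (.node .leaf 12932162 .leaf) 12932418 .leaf) 12932674 (.node .leaf 12932930 .leaf))))) 12933186 (.node (.node (.node (.node (.node (.node .leaf 12935490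 .leaf) 12935746 .leaf) 12936002 (.node (.node .leaf 12936258 .leaf) 12936514 .leaf)) 12936770 (.node (.node (.node .leaf 12937026 .leaf) 12937282 .leaf) 12939618 (.node .leaf 12939874 .leaf))) 12940130 (.node (.node (.node (.node .leaf 12943730 .leaf) 12943986 .leaf) 12944242 (.node (.node .leaf 12944498 .leaf) 13001810 .leaf)) 13002066 (.node (.node (.node .leaf 13002322 .leaf) 13002578 .leaf) 13002834 (.node .leaf 13005138 .leaf)))) 13005394 (.node (.node (.node (.node (.node .leaf 13005650 .leaf) 13005906 .leaf) 13006162 (.node (.node .leaf 13006418 .leaf) 13006674 .leaf)) 13006930 (.node (.node (.node .leaf 13009234 .leaf) 13009490 .leaf) 13009746 (.node .leaf 13010034 .leaf))) 13066578 (.node (.node (.node (.node .leaf 13071714 .leaf) 13071970 .leaf) 13072226 (.node .leaf 13072482 .leaf)) 13074786 (.node (.node (.node .leaf 13075042 .leaf) 13075298 .leaf) 13075554 (.node .leaf 13076578 .leaf))))))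

def c16 : NatTree := (.node (.node (.node (.node (.node (.node (.node .leaf 13079138 .leaf) 13079394 .leaf) 13079650 (.node (.node .leaf 13132114 .leaf) 13136226 .leaf)) 13136482 (.node (.node (.node .leaf 13136738 .leaf) 13140338 .leaf) 13140594 (.node .leaf 13140850 .leaf))) 13141106 (.node (.node (.node (.node .leaf 13141362 .leaf) 13144434 .leaf) 13144690 (.node (.node .leaf 13144946 .leaf) 13145202 .leaf)) 13145458 (.node (.node (.node .leaf 13148530 .leaf) 13148786 .leaf) 13149042 (.node .leaf 13149298 .leaf)))) 13149554 (.node (.node (.node (.node (.node .leaf 13721938 .leaf) 13726050 .leaf) 13726306 (.node (.node .leaf 13726562 .leaf) 13730162 .leaf)) 13730418 (.node (.node (.node .leaf 13730674 .leaf) 13730930 .leaf) 13771026 (.node .leaf 13771282 .leaf))) 13771538 (.node (.node (.node (.node .leaf 13771794 .leaf) 13772050 .leaf) 13772306 (.node (.node .leaf 13772562 .leaf) 13772818 .leaf)) 13775122 (.node (.node (.node .leaf 13775378 .leaf) 13775634 .leaf) 13775890 (.node .leaf 13776146 .leaf))))) 13776402 (.node (.node (.node (.node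 (.node (.node .leaf 13776658 .leaf) 13776914 .leaf) 13787474 (.node (.node .leaf 13791554 .leaf) 13791826 .leaf)) 13792098 (.node (.node (.node .leaf 13795698 .leaf) 13795954 .leaf) 13796210 (.node .leaf 13796466 .leaf))) 13840674 (.node (.node (.node (.node .leaf 13840930 .leaf) 13841186 .leaf) 13841442 (.node (.node .leaf 13841698 .leaf) 13841954 .leaf)) 13842210 (.node (.node (.node .leaf 13842466 .leaf) 13844770 .leaf) 13845026 (.node .leaf 13845282 .leaf)))) 13845538 (.node (.node (.node (.node (.node .leaf 13845794 .leaf) 13846050 .leaf) 13846306 (.node (.node .leaf 13846562 .leaf) 13853010 .leaf)) 13857122 (.node (.node (.node .leaf 13857378 .leaf) 13857634 .leaf) 13861234 (.node .leaf 13861490 .leaf))) 13861746 (.node (.node (.node (.node .leaf 13862002 .leaf) 13910322 .leaf) 13910578 (.node .leaf 13910834 .leaf)) 13911090 (.node (.node (.node .leaf 13911346 .leaf) 13911602 .leaf) 13911858 (.node .leaf 13912114 .leaf))))))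

def c17 : NatTree := (.node (.node (.node (.node (.node (.node (.node .leaf 13914674 .leaf) 13914930 .leaf) 13915186 (.node (.node .leaf 13915442 .leaf) 13915698 .leaf)) 13915954 (.node (.node (.node .leaf 13916210 .leaf) 13918546 .leaf) 13922658 (.node .leaf 13922914 .leaf))) 13923170 (.node (.node (.node (.node .leaf 13926770 .leaf) 13927026 .leaf) 13927282 (.node (.node .leaf 13927538 .leaf) 13979970 .leaf)) 13980226 (.node (.node (.node .leaf 13980482 .leaf) 13980738 .leaf) 13980994 (.node .leaf 13981250 .leaf)))) 13981506 (.node (.node (.node (.node (.node .leaf 13981762 .leaf) 13984066 .leaf) 13984322 (.node (.node .leaf 13984578 .leaf) 13984834 .leaf)) 13985090 (.node (.node (.node .leaf 13985346 .leaf) 13985602 .leaf) 13985858 (.node .leaf 13988194 .leaf))) 13988450 (.node (.node (.node (.node .leaf 13988706 .leaf) 13992306 .leaf) 13992562 (.node (.node .leaf 13992818 .leaf) 13993074 .leaf)) 14050386 (.node (.node (.node .leaf 14050642 .leaf) 14050898 .leaf) 14051154 (.node .leaf 14051410 .leaf))))) 14053714 (.node (.node (.node (.node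 (.node (.node .leaf 14053970 .leaf) 14054226 .leaf) 14054482 (.node (.node .leaf 14054738 .leaf) 14054994 .leaf)) 14055250 (.node (.node (.node .leaf 14055506 .leaf) 14057810 .leaf) 14058066 (.node .leaf 14058322 .leaf))) 14058610 (.node (.node (.node (.node .leaf 14115154 .leaf) 14120290 .leaf) 14120546 (.node (.node .leaf 14120802 .leaf) 14121058 .leaf)) 14123362 (.node (.node (.node .leaf 14123618 .leaf) 14123874 .leaf) 14124130 (.node .leaf 14125154 .leaf)))) 14127458 (.node (.node (.node (.node (.node .leaf 14127714 .leaf) 14127970 .leaf) 14128226 (.node (.node .leaf 14180690 .leaf) 14184802 .leaf)) 14185058 (.node (.node (.node .leaf 14185314 .leaf) 14188914 .leaf) 14189170 (.node .leaf 14189426 .leaf))) 14189682 (.node (.node (.node (.node .leaf 14189938 .leaf) 14193010 .leaf) 14193266 (.node .leaf 14193522 .leaf)) 14193778 (.node (.node (.node .leaf 14194034 .leaf) 14197106 .leaf) 14197362 (.node .leaf 14197618 .leaf))))))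

def c18 : NatTree := (.node (.node (.node (.node (.node (.node (.node .leaf 14198130 .leaf) 14770514 .leaf) 14774626 (.node (.node .leaf 14774882 .leaf) 14775138 .leaf)) 14778738 (.node (.node (.node .leaf 14778994 .leaf) 14779250 .leaf) 14779506 (.node .leaf 14819602 .leaf))) 14819858 (.node (.node (.node (.node .leaf 14820114 .leaf) 14820370 .leaf) 14820626 (.node (.node .leaf 14820882 .leaf) 14821138 .leaf)) 14821394 (.node (.node (.node .leaf 14823698 .leaf) 14823954 .leaf) 14824210 (.node .leaf 14824466 .leaf)))) 14824722 (.node (.node (.node (.node (.node .leaf 14824978 .leaf) 14825234 .leaf) 14825490 (.node (.node .leaf 14836050 .leaf) 14840130 .leaf)) 14840402 (.node (.node (.node .leaf 14840674 .leaf) 14844274 .leaf) 14844530 (.node .leaf 14844786 .leaf))) 14845042 (.node (.node (.node (.node .leaf 14889250 .leaf) 14889506 .leaf) 14889762 (.node (.node .leaf 14890018 .leaf) 14890274 .leaf)) 14890530 (.node (.node (.node .leaf 14890786 .leaf) 14891042 .leaf) 14893346 (.node .leaf 14893602 .leaf))))) 14893858 (.node (.node (.node (.node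 (.node (.node .leaf 14894114 .leaf) 14894370 .leaf) 14894626 (.node (.node .leaf 14894882 .leaf) 14895138 .leaf)) 14901586 (.node (.node (.node .leaf 14905698 .leaf) 14905954 .leaf) 14906210 (.node .leaf 14909810 .leaf))) 14910066 (.node (.node (.node (.node .leaf 14910322 .leaf) 14910578 .leaf) 14958898 (.node (.node .leaf 14959154 .leaf) 14959410 .leaf)) 14959666 (.node (.node (.node .leaf 14959922 .leaf) 14960178 .leaf) 14960434 (.node .leaf 14960690 .leaf)))) 14962994 (.node (.node (.node (.node (.node .leaf 14963250 .leaf) 14963506 .leaf) 14963762 (.node (.node .leaf 14964018 .leaf) 14964274 .leaf)) 14964530 (.node (.node (.node .leaf 14964786 .leaf) 14967122 .leaf) 14971234 (.node .leaf 14971490 .leaf))) 14971746 (.node (.node (.node (.node .leaf 14975346 .leaf) 14975602 .leaf) 14975858 (.node .leaf 14976114 .leaf)) 15028546 (.node (.node (.node .leaf 15028802 .leaf) 15029058 .leaf) 15029314 (.node .leaf 15029570 .leaf))))))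

def c19 : NatTree := (.node (.node (.node (.node (.node (.node (.node .leaf 15030082 .leaf) 15030338 .leaf) 15032642 (.node (.node .leaf 15032898 .leaf) 15033154 .leaf)) 15033410 (.node (.node (.node .leaf 15033666 .leaf) 15033922 .leaf) 15034178 (.node .leaf 15034434 .leaf))) 15036770 (.node (.node (.node (.node .leaf 15037026 .leaf) 15037282 .leaf) 15040882 (.node (.node .leaf 15041138 .leaf) 15041394 .leaf)) 15041650 (.node (.node (.node .leaf 15098962 .leaf) 15099218 .leaf) 15099474 (.node .leaf 15099730 .leaf)))) 15099986 (.node (.node (.node (.node (.node .leaf 15102290 .leaf) 15102546 .leaf) 15102802 (.node (.node .leaf 15103058 .leaf) 15103314 .leaf)) 15103570 (.node (.node (.node .leaf 15103826 .leaf) 15104082 .leaf) 15106386 (.node .leaf 15106642 .leaf))) 15106898 (.node (.node (.node (.node .leaf 15107186 .leaf) 15163730 .leaf) 15168866 (.node .leaf 15169122 .leaf)) 15169378 (.node (.node (.node .leaf 15169634 .leaf) 15171938 .leaf) 15172194 (.node .leaf 15172450 .leaf))))) 15172706 (.node (.node (.node (.node (.node (.node .leaf 15173730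 .leaf) 15176034 .leaf) 15176290 (.node (.node .leaf 15176546 .leaf) 15176802 .leaf)) 15229266 (.node (.node (.node .leaf 15233378 .leaf) 15233634 .leaf) 15233890 (.node .leaf 15237490 .leaf))) 15237746 (.node (.node (.node (.node .leaf 15238002 .leaf) 15238258 .leaf) 15238514 (.node (.node .leaf 15241586 .leaf) 15241842 .leaf)) 15242098 (.node (.node (.node .leaf 15242354 .leaf) 15242610 .leaf) 15245682 (.node .leaf 15245938 .leaf)))) 15246194 (.node (.node (.node (.node (.node .leaf 15246450 .leaf) 15246706 .leaf) 15819090 (.node (.node .leaf 15823202 .leaf) 15823458 .leaf)) 15823714 (.node (.node (.node .leaf 15827314 .leaf) 15827570 .leaf) 15827826 (.node .leaf 15828082 .leaf))) 15868178 (.node (.node (.node (.node .leaf 15868434 .leaf) 15868690 .leaf) 15868946 (.node .leaf 15869202 .leaf)) 15869458 (.node (.node (.node .leaf 15869714 .leaf) 15869970 .leaf) 15872274 (.node .leaf 15872530 .leaf))))))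

def c20 : NatTree := (.node (.node (.node (.node (.node (.node (.node .leaf 15873042 .leaf) 15873298 .leaf) 15873554 (.node (.node .leaf 15873810 .leaf) 15874066 .leaf)) 15884626 (.node (.node (.node .leaf 15888706 .leaf) 15888978 .leaf) 15889250 (.node .leaf 15892850 .leaf))) 15893106 (.node (.node (.node (.node .leaf 15893362 .leaf) 15893618 .leaf) 15937826 (.node (.node .leaf 15938082 .leaf) 15938338 .leaf)) 15938594 (.node (.node (.node .leaf 15938850 .leaf) 15939106 .leaf) 15939362 (.node .leaf 15939618 .leaf)))) 15941922 (.node (.node (.node (.node (.node .leaf 15942178 .leaf) 15942434 .leaf) 15942690 (.node (.node .leaf 15942946 .leaf) 15943202 .leaf)) 15943458 (.node (.node (.node .leaf 15943714 .leaf) 15950162 .leaf) 15954274 (.node .leaf 15954530 .leaf))) 15954786 (.node (.node (.node (.node .leaf 15958386 .leaf) 15958642 .leaf) 15958898 (.node (.node .leaf 15959154 .leaf) 16007474 .leaf)) 16007730 (.node (.node (.node .leaf 16007986 .leaf) 16008242 .leaf) 16008498 (.node .leaf 16008754 .leaf))))) 16009010 (.node (.node (.node (.node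 (.node (.node .leaf 16009266 .leaf) 16011570 .leaf) 16011826 (.node (.node .leaf 16012082 .leaf) 16012338 .leaf)) 16012594 (.node (.node (.node .leaf 16012850 .leaf) 16013106 .leaf) 16013362 (.node .leaf 16015698 .leaf))) 16019810 (.node (.node (.node (.node .leaf 16020066 .leaf) 16020322 .leaf) 16023922 (.node (.node .leaf 16024178 .leaf) 16024434 .leaf)) 16024690 (.node (.node (.node .leaf 16077122 .leaf) 16077378 .leaf) 16077634 (.node .leaf 16077890 .leaf)))) 16078146 (.node (.node (.node (.node (.node .leaf 16078402 .leaf) 16078658 .leaf) 16078914 (.node (.node .leaf 16081218 .leaf) 16081474 .leaf)) 16081730 (.node (.node (.node .leaf 16081986 .leaf) 16082242 .leaf) 16082498 (.node .leaf 16082754 .leaf))) 16083010 (.node (.node (.node (.node .leaf 16085346 .leaf) 16085602 .leaf) 16085858 (.node .leaf 16089458 .leaf)) 16089714 (.node (.node (.node .leaf 16089970 .leaf) 16090226 .leaf) 16147538 (.node .leaf 16147794 .leaf))))))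

def c21 : NatTree := (.node (.node (.node (.node (.node (.node (.node .leaf 16148306 .leaf) 16148562 .leaf) 16150866 (.node (.node .leaf 16151122 .leaf) 16151378 .leaf)) 16151634 (.node (.node (.node .leaf 16151890 .leaf) 16152146 .leaf) 16152402 (.node .leaf 16152658 .leaf))) 16154962 (.node (.node (.node (.node .leaf 16155218 .leaf) 16155474 .leaf) 16155762 (.node (.node .leaf 16212306 .leaf) 16217442 .leaf)) 16217698 (.node (.node (.node .leaf 16217954 .leaf) 16218210 .leaf) 16220514 (.node .leaf 16220770 .leaf)))) 16221026 (.node (.node (.node (.node (.node .leaf 16221282 .leaf) 16222306 .leaf) 16224610 (.node (.node .leaf 16224866 .leaf) 16225122 .leaf)) 16225378 (.node (.node (.node .leaf 16277842 .leaf) 16281954 .leaf) 16282210 (.node .leaf 16282466 .leaf))) 16286066 (.node (.node (.node (.node .leaf 16286322 .leaf) 16286578 .leaf) 16286834 (.node (.node .leaf 16287090 .leaf) 16290162 .leaf)) 16290418 (.node (.node (.node .leaf 16290674 .leaf) 16290930 .leaf) 16291186 (.node .leaf 16294258 .leaf))))) 16294514 (.node (.node (.node (.node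 (.node (.node .leaf 16294770 .leaf) 16295026 .leaf) 16295282 (.node (.node .leaf 16867666 .leaf) 16871778 .leaf)) 16872034 (.node (.node (.node .leaf 16872290 .leaf) 16875890 .leaf) 16876146 (.node .leaf 16876402 .leaf))) 16876658 (.node (.node (.node (.node .leaf 16916754 .leaf) 16917010 .leaf) 16917266 (.node (.node .leaf 16917522 .leaf) 16917778 .leaf)) 16918034 (.node (.node (.node .leaf 16918290 .leaf) 16918546 .leaf) 16920850 (.node .leaf 16921106 .leaf)))) 16921362 (.node (.node (.node (.node (.node .leaf 16921618 .leaf) 16921874 .leaf) 16922130 (.node (.node .leaf 16922386 .leaf) 16922642 .leaf)) 16933202 (.node (.node (.node .leaf 16937282 .leaf) 16937554 .leaf) 16937826 (.node .leaf 16941426 .leaf))) 16941682 (.node (.node (.node (.node .leaf 16941938 .leaf) 16942194 .leaf) 16986402 (.node .leaf 16986658 .leaf)) 16986914 (.node (.node (.node .leaf 16987170 .leaf) 16987426 .leaf) 16987682 (.node .leaf 16987938 .leaf))))))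

def c22 : NatTree := (.node (.node (.node (.node (.node (.node (.node .leaf 16990498 .leaf) 16990754 .leaf) 16991010 (.node (.node .leaf 16991266 .leaf) 16991522 .leaf)) 16991778 (.node (.node (.node .leaf 16992034 .leaf) 16992290 .leaf) 16998738 (.node .leaf 17002850 .leaf))) 17003106 (.node (.node (.node (.node .leaf 17003362 .leaf) 17006962 .leaf) 17007218 (.node (.node .leaf 17007474 .leaf) 17007730 .leaf)) 17056050 (.node (.node (.node .leaf 17056306 .leaf) 17056562 .leaf) 17056818 (.node .leaf 17057074 .leaf)))) 17057330 (.node (.node (.node (.node (.node .leaf 17057586 .leaf) 17057842 .leaf) 17060146 (.node (.node .leaf 17060402 .leaf) 17060658 .leaf)) 17060914 (.node (.node (.node .leaf 17061170 .leaf) 17061426 .leaf) 17061682 (.node .leaf 17061938 .leaf))) 17064274 (.node (.node (.node (.node .leaf 17068386 .leaf) 17068642 .leaf) 17068898 (.node (.node .leaf 17072498 .leaf) 17072754 .leaf)) 17073010 (.node (.node (.node .leaf 17073266 .leaf) 17125698 .leaf) 17125954 (.node .leaf 17126210 .leaf))))) 17126466 (.node (.node (.node (.node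 (.node (.node .leaf 17126722 .leaf) 17126978 .leaf) 17127234 (.node (.node .leaf 17127490 .leaf) 17129794 .leaf)) 17130050 (.node (.node (.node .leaf 17130306 .leaf) 17130562 .leaf) 17130818 (.node .leaf 17131074 .leaf))) 17131330 (.node (.node (.node (.node .leaf 17131586 .leaf) 17133922 .leaf) 17134178 (.node (.node .leaf 17134434 .leaf) 17138034 .leaf)) 17138290 (.node (.node (.node .leaf 17138546 .leaf) 17138802 .leaf) 17196114 (.node .leaf 17196370 .leaf)))) 17196626 (.node (.node (.node (.node (.node .leaf 17196882 .leaf) 17197138 .leaf) 17199442 (.node (.node .leaf 17199698 .leaf) 17199954 .leaf)) 17200210 (.node (.node (.node .leaf 17200466 .leaf) 17200722 .leaf) 17200978 (.node .leaf 17201234 .leaf))) 17203538 (.node (.node (.node (.node .leaf 17203794 .leaf) 17204050 .leaf) 17204338 (.node .leaf 17260882 .leaf)) 17266018 (.node (.node (.node .leaf 17266274 .leaf) 17266530 .leaf) 17266786 (.node .leaf 17269090 .leaf))))))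

def c23 : NatTree := (.node (.node (.node (.node (.node (.node (.node .leaf 17269602 .leaf) 17269858 .leaf) 17270882 (.node (.node .leaf 17273186 .leaf) 17273442 .leaf)) 17273698 (.node (.node (.node .leaf 17273954 .leaf) 17326418 .leaf) 17330530 (.node .leaf 17330786 .leaf))) 17331042 (.node (.node (.node (.node .leaf 17334642 .leaf) 17334898 .leaf) 17335154 (.node (.node .leaf 17335410 .leaf) 17335666 .leaf)) 17338738 (.node (.node (.node .leaf 17338994 .leaf) 17339250 .leaf) 17339506 (.node .leaf 17339762 .leaf)))) 17342834 (.node (.node (.node (.node (.node .leaf 17343090 .leaf) 17343346 .leaf) 17343602 (.node (.node .leaf 17343858 .leaf) 17916242 .leaf)) 17920354 (.node (.node (.node .leaf 17920610 .leaf) 17920866 .leaf) 17924722 (.node .leaf 17924978 .leaf))) 17925234 (.node (.node (.node (.node .leaf 17965330 .leaf) 17965586 .leaf) 17965842 (.node .leaf 17966098 .leaf)) 17966354 (.node (.node (.node .leaf 17966610 .leaf) 17966866 .leaf) 17967122 (.node .leaf 17969426 .leaf))))) 17969682 (.node (.node (.node (.node (.node (.node .leaf 17969938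 .leaf) 17970194 .leaf) 17970450 (.node (.node .leaf 17970706 .leaf) 17970962 .leaf)) 17971218 (.node (.node (.node .leaf 17981778 .leaf) 17985858 .leaf) 17986130 (.node .leaf 17986402 .leaf))) 17990258 (.node (.node (.node (.node .leaf 17990514 .leaf) 17990770 .leaf) 18034978 (.node (.node .leaf 18035234 .leaf) 18035490 .leaf)) 18035746 (.node (.node (.node .leaf 18036002 .leaf) 18036258 .leaf) 18036514 (.node .leaf 18036770 .leaf)))) 18039074 (.node (.node (.node (.node (.node .leaf 18039330 .leaf) 18039586 .leaf) 18039842 (.node (.node .leaf 18040098 .leaf) 18040354 .leaf)) 18040610 (.node (.node (.node .leaf 18040866 .leaf) 18047314 .leaf) 18051426 (.node .leaf 18051682 .leaf))) 18051938 (.node (.node (.node (.node .leaf 18055794 .leaf) 18056050 .leaf) 18056306 (.node .leaf 18104626 .leaf)) 18104882 (.node (.node (.node .leaf 18105138 .leaf) 18105394 .leaf) 18105650 (.node .leaf 18105906 .leaf))))))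

def c24 : NatTree := (.node (.node (.node (.node (.node (.node (.node .leaf 18106418 .leaf) 18108722 .leaf) 18108978 (.node (.node .leaf 18109234 .leaf) 18109490 .leaf)) 18109746 (.node (.node (.node .leaf 18110002 .leaf) 18110258 .leaf) 18110514 (.node .leaf 18112850 .leaf))) 18116962 (.node (.node (.node (.node .leaf 18117218 .leaf) 18117474 .leaf) 18121330 (.node (.node .leaf 18121586 .leaf) 18121842 .leaf)) 18174274 (.node (.node (.node .leaf 18174530 .leaf) 18174786 .leaf) 18175042 (.node .leaf 18175298 .leaf)))) 18175554 (.node (.node (.node (.node (.node .leaf 18175810 .leaf) 18176066 .leaf) 18178370 (.node (.node .leaf 18178626 .leaf) 18178882 .leaf)) 18179138 (.node (.node (.node .leaf 18179394 .leaf) 18179650 .leaf) 18179906 (.node .leaf 18180162 .leaf))) 18182498 (.node (.node (.node (.node .leaf 18182754 .leaf) 18183010 .leaf) 18186866 (.node (.node .leaf 18187122 .leaf) 18187378 .leaf)) 18244690 (.node (.node (.node .leaf 18244946 .leaf) 18245202 .leaf) 18245458 (.node .leaf 18245714 .leaf))))) 18248018 (.node (.node (.node (.node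 (.node (.node .leaf 18248274 .leaf) 18248530 .leaf) 18248786 (.node (.node .leaf 18249042 .leaf) 18249298 .leaf)) 18249554 (.node (.node (.node .leaf 18249810 .leaf) 18252114 .leaf) 18252370 (.node .leaf 18252626 .leaf))) 18252914 (.node (.node (.node (.node .leaf 18309458 .leaf) 18314594 .leaf) 18314850 (.node (.node .leaf 18315106 .leaf) 18315362 .leaf)) 18317666 (.node (.node (.node .leaf 18317922 .leaf) 18318178 .leaf) 18318434 (.node .leaf 18319458 .leaf)))) 18321762 (.node (.node (.node (.node (.node .leaf 18322018 .leaf) 18322274 .leaf) 18322530 (.node (.node .leaf 18374994 .leaf) 18379106 .leaf)) 18379362 (.node (.node (.node .leaf 18379618 .leaf) 18383218 .leaf) 18383474 (.node .leaf 18383730 .leaf))) 18383986 (.node (.node (.node (.node .leaf 18384242 .leaf) 18387314 .leaf) 18387570 (.node .leaf 18387826 .leaf)) 18388082 (.node (.node (.node .leaf 18388338 .leaf) 18391410 .leaf) 18391666 (.node .leaf 18391922 .leaf))))))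

def c25 : NatTree := (.node (.node (.node (.node (.node (.node (.node .leaf 18392434 .leaf) 18956850 .leaf) 18957106 (.node (.node .leaf 18957362 .leaf) 18961730 .leaf)) 18961986 (.node (.node (.node .leaf 18964818 .leaf) 18965074 .leaf) 18965330 (.node .leaf 18965586 .leaf))) 18965842 (.node (.node (.node (.node .leaf 18974834 .leaf) 18977138 .leaf) 19013906 (.node (.node .leaf 19014162 .leaf) 19014418 .leaf)) 19014674 (.node (.node (.node .leaf 19014930 .leaf) 19015186 .leaf) 19015442 (.node .leaf 19015698 .leaf)))) 19018002 (.node (.node (.node (.node (.node .leaf 19018258 .leaf) 19018514 .leaf) 19018770 (.node (.node .leaf 19019026 .leaf) 19019282 .leaf)) 19019538 (.node (.node (.node .leaf 19019794 .leaf) 19030354 .leaf) 19030866 (.node .leaf 19031122 .leaf))) 19031378 (.node (.node (.node (.node .leaf 19034434 .leaf) 19034706 .leaf) 19038578 (.node (.node .leaf 19040370 .leaf) 19042674 .leaf)) 19083554 (.node (.node (.node .leaf 19083810 .leaf) 19084066 .leaf) 19084322 (.node .leaf 19084578 .leaf))))) 19084834 (.node (.node (.node (.node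 (.node (.node .leaf 19085090 .leaf) 19085346 .leaf) 19087650 (.node (.node .leaf 19087906 .leaf) 19088162 .leaf)) 19088418 (.node (.node (.node .leaf 19088674 .leaf) 19088930 .leaf) 19089186 (.node .leaf 19089442 .leaf))) 19092546 (.node (.node (.node (.node .leaf 19095890 .leaf) 19096146 .leaf) 19096402 (.node (.node .leaf 19096658 .leaf) 19104370 .leaf)) 19104626 (.node (.node (.node .leaf 19104882 .leaf) 19105906 .leaf) 19108210 (.node .leaf 19153202 .leaf)))) 19153458 (.node (.node (.node (.node (.node .leaf 19153714 .leaf) 19153970 .leaf) 19154226 (.node (.node .leaf 19154482 .leaf) 19154738 .leaf)) 19154994 (.node (.node (.node .leaf 19157298 .leaf) 19157554 .leaf) 19157810 (.node .leaf 19158066 .leaf))) 19158322 (.node (.node (.node (.node .leaf 19158578 .leaf) 19158834 .leaf) 19159090 (.node .leaf 19161426 .leaf)) 19171442 (.node (.node (.node .leaf 19173746 .leaf) 19222850 .leaf) 19223106 (.node .leaf 19223362 .leaf))))))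

def c26 : NatTree := (.node (.node (.node (.node (.node (.node (.node .leaf 19223874 .leaf) 19224130 .leaf) 19224386 (.node (.node .leaf 19224642 .leaf) 19226946 .leaf)) 19227202 (.node (.node (.node .leaf 19227458 .leaf) 19227714 .leaf) 19227970 (.node .leaf 19228226 .leaf))) 19228482 (.node (.node (.node (.node .leaf 19228738 .leaf) 19235442 .leaf) 19236978 (.node (.node .leaf 19239282 .leaf) 19284530 .leaf)) 19284786 (.node (.node (.node .leaf 19285042 .leaf) 19293266 .leaf) 19293778 (.node .leaf 19294034 .leaf)))) 19294290 (.node (.node (.node (.node (.node .leaf 19296594 .leaf) 19296850 .leaf) 19297106 (.node (.node .leaf 19297362 .leaf) 19297618 .leaf)) 19297874 (.node (.node (.node .leaf 19298130 .leaf) 19298386 .leaf) 19300690 (.node .leaf 19300946 .leaf))) 19301202 (.node (.node (.node (.node .leaf 19301490 .leaf) 19304818 .leaf) 19354690 (.node (.node .leaf 19363170 .leaf) 19363426 .leaf)) 19363682 (.node (.node (.node .leaf 19363938 .leaf) 19366242 .leaf) 19366498 (.node .leaf 19366754 .leaf))))) 19367010 (.node (.node (.node (.node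 (.node (.node .leaf 19368034 .leaf) 19370338 .leaf) 19370594 (.node (.node .leaf 19370850 .leaf) 19371106 .leaf)) 19419458 (.node (.node (.node .leaf 19419714 .leaf) 19419970 .leaf) 19424082 (.node .leaf 19424338 .leaf))) 19424594 (.node (.node (.node (.node .leaf 19424850 .leaf) 19431794 .leaf) 19432050 (.node (.node .leaf 19432306 .leaf) 19432562 .leaf)) 19432818 (.node (.node (.node .leaf 19435890 .leaf) 19436146 .leaf) 19436402 (.node .leaf 19436658 .leaf)))) 19436914 (.node (.node (.node (.node (.node .leaf 19439986 .leaf) 19440242 .leaf) 19440498 (.node (.node .leaf 19440754 .leaf) 19441010 .leaf)) 20005666 (.node (.node (.node .leaf 20010290 .leaf) 20013890 .leaf) 20014146 (.node .leaf 20021602 .leaf))) 20021858 (.node (.node (.node (.node .leaf 20023394 .leaf) 20025714 .leaf) 20025970 (.node .leaf 20026226 .leaf)) 20026482 (.node (.node (.node .leaf 20062482 .leaf) 20062738 .leaf) 20062994 (.node .leaf 20063250 .leaf))))))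

def c27 : NatTree := (.node (.node (.node (.node (.node (.node (.node .leaf 20063762 .leaf) 20064018 .leaf) 20064274 (.node (.node .leaf 20066578 .leaf) 20066834 .leaf)) 20067090 (.node (.node (.node .leaf 20067346 .leaf) 20067602 .leaf) 20067858 (.node .leaf 20068114 .leaf))) 20068370 (.node (.node (.node (.node .leaf 20079426 .leaf) 20079682 .leaf) 20083010 (.node (.node .leaf 20083282 .leaf) 20087394 .leaf)) 20088930 (.node (.node (.node .leaf 20091506 .leaf) 20091762 .leaf) 20092018 (.node .leaf 20136226 .leaf)))) 20136482 (.node (.node (.node (.node (.node .leaf 20136738 .leaf) 20136994 .leaf) 20137250 (.node (.node .leaf 20137506 .leaf) 20137762 .leaf)) 20138018 (.node (.node (.node .leaf 20144962 .leaf) 20152674 .leaf) 20152930 (.node .leaf 20153186 .leaf))) 20154466 (.node (.node (.node (.node .leaf 20156786 .leaf) 20205874 .leaf) 20206130 (.node .leaf 20206386 .leaf)) 20206642 (.node (.node (.node .leaf 20206898 .leaf) 20207154 .leaf) 20207410 (.node .leaf 20207666 .leaf))))) 20218210 (.node (.node (.node (.node (.node (.node .leaf 20218466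 .leaf) 20220002 .leaf) 20222322 (.node (.node .leaf 20222578 .leaf) 20222834 .leaf)) 20223090 (.node (.node (.node .leaf 20275522 .leaf) 20275778 .leaf) 20276034 (.node .leaf 20276274 .leaf))) 20276546 (.node (.node (.node (.node .leaf 20276802 .leaf) 20277058 .leaf) 20277314 (.node (.node .leaf 20283746 .leaf) 20284002 .leaf)) 20285538 (.node (.node (.node .leaf 20287858 .leaf) 20288370 .leaf) 20288626 (.node .leaf 20333346 .leaf)))) 20341826 (.node (.node (.node (.node (.node .leaf 20345154 .leaf) 20345426 .leaf) 20345682 (.node (.node .leaf 20345938 .leaf) 20346194 .leaf)) 20346450 (.node (.node (.node .leaf 20346706 .leaf) 20346962 .leaf) 20349266 (.node .leaf 20349522 .leaf))) 20349778 (.node (.node (.node (.node .leaf 20410706 .leaf) 20415586 .leaf) 20416354 (.node .leaf 20416610 .leaf)) 20418914 (.node (.node (.node .leaf 20419170 .leaf) 20419426 .leaf) 20419682 (.node .leaf 20468274 .leaf))))))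

def c28 : NatTree := (.node (.node (.node (.node (.node (.node (.node .leaf 20473154 .leaf) 20476242 .leaf) 20480866 (.node (.node .leaf 20481378 .leaf) 20482162 .leaf)) 20484466 (.node (.node (.node .leaf 20484722 .leaf) 20485234 .leaf) 20485490 (.node .leaf 20488546 .leaf))) 20488818 (.node (.node (.node (.node .leaf 20489074 .leaf) 20489330 .leaf) 20489586 (.node (.node .leaf 21053730 .leaf) 21053986 .leaf)) 21054242 (.node (.node (.node .leaf 21054498 .leaf) 21054754 .leaf) 21055010 (.node .leaf 21055266 .leaf)))) 21055522 (.node (.node (.node (.node (.node .leaf 21057842 .leaf) 21058098 .leaf) 21058610 (.node (.node .leaf 21058866 .leaf) 21059122 .leaf)) 21059378 (.node (.node (.node .leaf 21059634 .leaf) 21061954 .leaf) 21062210 (.node .leaf 21062466 .leaf))) 21062722 (.node (.node (.node (.node .leaf 21063234 .leaf) 21063490 .leaf) 21063746 (.node (.node .leaf 21066066 .leaf) 21066322 .leaf)) 21067090 (.node (.node (.node .leaf 21067346 .leaf) 21067602 .leaf) 21067858 (.node .leaf 21070178 .leaf))))) 21070434 (.node (.node (.node (.node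 (.node (.node .leaf 21070946 .leaf) 21071202 .leaf) 21071458 (.node (.node .leaf 21071714 .leaf) 21071970 .leaf)) 21074290 (.node (.node (.node .leaf 21074546 .leaf) 21074786 .leaf) 21074802 (.node .leaf 21075058 .leaf))) 21111058 (.node (.node (.node (.node .leaf 21111314 .leaf) 21111570 .leaf) 21111826 (.node (.node .leaf 21112082 .leaf) 21112338 .leaf)) 21112594 (.node (.node (.node .leaf 21112850 .leaf) 21115154 .leaf) 21115410 (.node .leaf 21115666 .leaf)))) 21115922 (.node (.node (.node (.node (.node .leaf 21116178 .leaf) 21116434 .leaf) 21116690 (.node (.node .leaf 21116946 .leaf) 21123378 .leaf)) 21123634 (.node (.node (.node .leaf 21123890 .leaf) 21124146 .leaf) 21124402 (.node .leaf 21124658 .leaf))) 21124914 (.node (.node (.node (.node .leaf 21125170 .leaf) 21127746 .leaf) 21128002 (.node .leaf 21128258 .leaf)) 21128514 (.node (.node (.node .leaf 21128770 .leaf) 21129026 .leaf) 21129282 (.node .leaf 21131586 .leaf))))))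

def c29 : NatTree := (.node (.node (.node (.node (.node (.node (.node .leaf 21131858 .leaf) 21132626 .leaf) 21132882 (.node (.node .leaf 21133138 .leaf) 21133394 .leaf)) 21135970 (.node (.node (.node .leaf 21136482 .leaf) 21136738 .leaf) 21136994 (.node .leaf 21137250 .leaf))) 21137506 (.node (.node (.node (.node .leaf 21139810 .leaf) 21139826 .leaf) 21140082 (.node (.node .leaf 21140322 .leaf) 21140338 .leaf)) 21140594 (.node (.node (.node .leaf 21143922 .leaf) 21184786 .leaf) 21184802 (.node .leaf 21185042 .leaf)))) 21185058 (.node (.node (.node (.node (.node .leaf 21185298 .leaf) 21185314 .leaf) 21185554 (.node (.node .leaf 21185570 .leaf) 21185810 .leaf)) 21185826 (.node (.node (.node .leaf 21186066 .leaf) 21186082 .leaf) 21186322 (.node .leaf 21186338 .leaf))) 21186578 (.node (.node (.node (.node .leaf 21186594 .leaf) 21193026 .leaf) 21193282 (.node .leaf 21193538 .leaf)) 21193794 (.node (.node (.node .leaf 21194050 .leaf) 21194306 .leaf) 21194562 (.node .leaf 21194818 .leaf))))) 21197138 (.node (.node (.node (.node (.node (.node .leaf 21197394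 .leaf) 21197906 .leaf) 21198162 (.node (.node .leaf 21198418 .leaf) 21198674 .leaf)) 21198930 (.node (.node (.node .leaf 21201250 .leaf) 21201506 .leaf) 21201762 (.node .leaf 21202018 .leaf))) 21202274 (.node (.node (.node (.node .leaf 21202530 .leaf) 21202786 .leaf) 21203042 (.node (.node .leaf 21205362 .leaf) 21206130 .leaf)) 21209970 (.node (.node (.node .leaf 21254434 .leaf) 21254450 .leaf) 21254690 (.node .leaf 21254706 .leaf)))) 21254946 (.node (.node (.node (.node (.node .leaf 21254962 .leaf) 21255202 .leaf) 21255218 (.node (.node .leaf 21255458 .leaf) 21255474 .leaf)) 21255714 (.node (.node (.node .leaf 21255730 .leaf) 21255970 .leaf) 21255986 (.node .leaf 21256226 .leaf))) 21256242 (.node (.node (.node (.node .leaf 21262674 .leaf) 21262930 .leaf) 21263954 (.node .leaf 21264210 .leaf)) 21264466 (.node (.node (.node .leaf 21266786 .leaf) 21267042 .leaf) 21267554 (.node .leaf 21267810 .leaf))))))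

def c30 : NatTree := (.node (.node (.node (.node (.node (.node (.node .leaf 21268322 .leaf) 21268578 .leaf) 21270898 (.node (.node .leaf 21271154 .leaf) 21271394 .leaf)) 21271410 (.node (.node (.node .leaf 21271666 .leaf) 21315874 .leaf) 21316130 (.node .leaf 21316386 .leaf))) 21316642 (.node (.node (.node (.node .leaf 21316898 .leaf) 21317154 .leaf) 21317410 (.node (.node .leaf 21317666 .leaf) 21324082 .leaf)) 21324098 (.node (.node (.node .leaf 21324338 .leaf) 21324354 .leaf) 21324594 (.node .leaf 21324610 .leaf)))) 21324850 (.node (.node (.node (.node (.node .leaf 21324866 .leaf) 21325106 .leaf) 21325122 (.node (.node .leaf 21325362 .leaf) 21325378 .leaf)) 21325618 (.node (.node (.node .leaf 21325634 .leaf) 21325874 .leaf) 21325890 (.node .leaf 21332322 .leaf))) 21332578 (.node (.node (.node (.node .leaf 21333090 .leaf) 21333346 .leaf) 21333602 (.node (.node .leaf 21333858 .leaf) 21334114 .leaf)) 21336434 (.node (.node (.node .leaf 21336930 .leaf) 21336946 .leaf) 21337202 (.node .leaf 21340786 .leaf))))) 21381410 (.node (.node (.node (.node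 (.node (.node .leaf 21381666 .leaf) 21381922 .leaf) 21382178 (.node (.node .leaf 21382434 .leaf) 21382690 .leaf)) 21382946 (.node (.node (.node .leaf 21383202 .leaf) 21385522 .leaf) 21385778 (.node .leaf 21386290 .leaf))) 21386546 (.node (.node (.node (.node .leaf 21386802 .leaf) 21387058 .leaf) 21387314 (.node (.node .leaf 21390146 .leaf) 21390402 .leaf)) 21390658 (.node (.node (.node .leaf 21393730 .leaf) 21393986 .leaf) 21394002 (.node .leaf 21394258 .leaf)))) 21394514 (.node (.node (.node (.node (.node .leaf 21394770 .leaf) 21395010 .leaf) 21395026 (.node (.node .leaf 21395266 .leaf) 21395282 .leaf)) 21395522 (.node (.node (.node .leaf 21395538 .leaf) 21397842 .leaf) 21398098 (.node .leaf 21398354 .leaf))) 21398866 (.node (.node (.node (.node .leaf 21402738 .leaf) 21406066 .leaf) 21406578 (.node .leaf 21446946 .leaf)) 21447202 (.node (.node (.node .leaf 21447458 .leaf) 21447714 .leaf) 21447970 (.node .leaf 21448226 .leaf))))))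

def c31 : NatTree := (.node (.node (.node (.node (.node (.node (.node .leaf 21448738 .leaf) 21451058 .leaf) 21451314 (.node (.node .leaf 21451570 .leaf) 21451826 .leaf)) 21452082 (.node (.node (.node .leaf 21452338 .leaf) 21452594 .leaf) 21452850 (.node .leaf 21455170 .leaf))) 21455426 (.node (.node (.node (.node .leaf 21455682 .leaf) 21455938 .leaf) 21456194 (.node (.node .leaf 21456450 .leaf) 21456706 .leaf)) 21456962 (.node (.node (.node .leaf 21459282 .leaf) 21459538 .leaf) 21459794 (.node .leaf 21464146 .leaf)))) 21464162 (.node (.node (.node (.node (.node .leaf 21464402 .leaf) 21464418 .leaf) 21464658 (.node (.node .leaf 21464674 .leaf) 21464914 .leaf)) 21464930 (.node (.node (.node .leaf 21465170 .leaf) 21465186 .leaf) 21467474 (.node .leaf 21467490 .leaf))) 21467730 (.node (.node (.node (.node .leaf 21467746 .leaf) 21467986 .leaf) 21468002 (.node .leaf 21468258 .leaf)) 21512482 (.node (.node (.node .leaf 21512738 .leaf) 21512994 .leaf) 21513250 (.node .leaf 21513506 .leaf))))) 21513762 (.node (.node (.node (.node (.node (.node .leaf 21514018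 .leaf) 21514274 .leaf) 21516594 (.node (.node .leaf 21516850 .leaf) 21517106 .leaf)) 21517362 (.node (.node (.node .leaf 21517618 .leaf) 21517874 .leaf) 21518130 (.node .leaf 21518386 .leaf))) 21520706 (.node (.node (.node (.node .leaf 21521218 .leaf) 21521474 .leaf) 21521730 (.node (.node .leaf 21521986 .leaf) 21522242 .leaf)) 21522498 (.node (.node (.node .leaf 21524818 .leaf) 21525074 .leaf) 21525330 (.node .leaf 21526098 .leaf)))) 21526354 (.node (.node (.node (.node (.node .leaf 21526610 .leaf) 21529442 .leaf) 21529954 (.node (.node .leaf 21530210 .leaf) 21530466 .leaf)) 21530722 (.node (.node (.node .leaf 21530738 .leaf) 21533026 .leaf) 21533042 (.node .leaf 21533282 .leaf))) 21533298 (.node (.node (.node (.node .leaf 21533794 .leaf) 21533810 .leaf) 21534066 (.node .leaf 21537122 .leaf)) 21537394 (.node (.node (.node .leaf 21537634 .leaf) 21537650 .leaf) 21537906 (.node .leaf 21538162 .leaf))))))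

def table : NatTree := (.node (.node (.node (.node (.node c0 549458 c1) 1536354 (.node c2 2516818 c3)) 3498818 (.node (.node c4 4474162 c5) 5452578 (.node c6 6432786 c7))) 7439218 (.node (.node (.node c8 7898226 c9) 9717810 (.node c10 11691602 c11)) 11813938 (.node (.node c12 11949122 c13) 12079426 (.node c14 12797218 c15)))) 13078882 (.node (.node (.node (.node c16 13914418 c17) 14197874 (.node c18 15029826 c19)) 15872786 (.node (.node c20 16148050 c21) 16988194 (.node c22 17269346 c23))) 18106162 (.node (.node (.node c24 18392178 c25) 19223618 (.node c26 20063506 c27)) 20472898 (.node (.node c28 21131602 c29) 21268066 (.node c30 21448482 c31)))))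

end Pool.Agent.R186.KRK.StripData
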