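import Pool.Agent.R186.KRK.Bool

/-!
# Checking a winning strategy for White on the board with 9 files and 11 ranks

The table `T` maps the code of a position (White to move) to `d + 64 * (kind + 2 * (tx + 16 * ty))`:
the move of the White king (`kind = 0`) or the rook (`kind = 1`) to `(tx, ty)` wins within `d`
moves.
-/

set_option autoImplicit false

namespace Pool.Agent.R186.KRK

/-- the target square is a legal reply for Black on the 9 x 11 board -/
def legalW (u v r s px py : ℕ) : Bool :=
  Nat.ble 1 px && (Nat.ble px 9 && (Nat.ble 1 py && (Nat.ble py 11 &&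
    (!(nearB u v px py) && !(attB u v r s px py)))))

/-- after the reply, the table has a smaller number of moves -/
def goodW (T : NatMap) (d u v r s px py : ℕ) : Bool :=
  !(sqB px py r s) &&
    (Nat.blt 0 (T.get 0 (code u v r s px py) % 64) &&
      Nat.blt (T.get 0 (code u v r s px py) % 64) d)

/-- the reply is illegal or good -/
def repW (T : NatMap) (d u v r s px py : ℕ) : Bool :=
  !(legalW u v r s px py) || goodW T d u v r s px py

/-- Black to move loses -/
def blackW (T : NatMap) (d u v r s x y : ℕ) : Bool :=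
  Nat.blt x 9 && (Nat.blt y 11 && (Nat.ble 1 x && (Nat.ble 1 y &&
    ((attB u v r s x y || any8 (legalW u v r s) x y) &&
      all8 (repW T d u v r s) x y))))

/-- White's move of the given kind to `(tx, ty)` is legal and wins -/
def whiteW (T : NatMap) (d kind tx ty u v r s x y : ℕ) : Bool :=
  Nat.ble 1 tx && (Nat.ble tx 9 && (Nat.ble 1 ty && (Nat.ble ty 11 &&
    (bif Nat.beq kind 0 then
      nearB u v tx ty && (!(sqB tx ty u v) && (!(sqB tx ty r s) && (!(nearB tx ty x y) &&
        blackW T d tx ty r s x y)))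
    else
      clearB u v x y r s tx ty && (!(sqB tx ty u v) && (!(sqB tx ty x y) &&
        blackW T d u v tx ty x y))))))

/-- the check of a table entry -/
def chkW (T : NatMap) (key val : ℕ) : Bool :=
  whiteW T (val % 64) (val / 64 % 2) (val / 128 % 16) (val / 2048 % 16)
    (key % 16) (key / 16 % 16) (key / 256 % 16) (key / 4096 % 16) (key / 65536 % 16)
    (key / 1048576 % 16)

theorem onBoard_9_11 {x y : ℕ} : OnBoard 9 11 (x, y) ↔ 1 ≤ x ∧ x ≤ 9 ∧ 1 ≤ y ∧ y ≤ 11 := by
  unfold OnBoard
  simp only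
  constructor
  · rintro ⟨h1, h2, h3, h4⟩
    exact ⟨h1, by exact_mod_cast h2, h3, by exact_mod_cast h4⟩
  · rintro ⟨h1, h2, h3, h4⟩
    exact ⟨h1, by exact_mod_cast h2, h3, by exact_mod_cast h4⟩

theorem legalW_iff {u v r s x y px py : ℕ} (h1 : Near (x, y) (px, py))
    (h2 : (px, py) ≠ (x, y)) : legalW u v r s px py = true ↔
    BMove 9 11 ⟨(u, v), (r, s), (x, y)⟩ (px, py) := by
  unfold legalW BMove
  rw [onBoard_9_11]
  simp only [Bool.and_eq_true, Nat.ble_eq, not_iff_false, nearB_iff, attB_iff]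
  tauto

theorem blackW_spec {T : NatMap} {d u v r s x y : ℕ} (h : blackW T (d + 1) u v r s x y = true)
    (ih : ∀ px py, BMove 9 11 ⟨(u, v), (r, s), (x, y)⟩ (px, py) →
      0 < T.get 0 (code u v r s px py) % 64 → T.get 0 (code u v r s px py) % 64 < d + 1 →
      WinsIn 9 11 d ⟨(u, v), (r, s), (px, py)⟩) :
    Mated 9 11 ⟨(u, v), (r, s), (x, y)⟩ ∨
        (¬ CanLeave 9 11 (x, y) ∧ (∃ t, BMove 9 11 ⟨(u, v), (r, s), (x, y)⟩ t) ∧
          ∀ t, BMove 9 11 ⟨(u, v), (r, s), (x, y)⟩ t →
            t ≠ (r, s) ∧ WinsIn 9 11 d ⟨(u, v), (r, s), t⟩) := by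
  unfold blackW at h
  simp only [Bool.and_eq_true, Nat.blt_eq, Nat.ble_eq, Bool.or_eq_true] at h
  obtain ⟨hx9, hy11, hx1, hy1, h3, h4⟩ := h
  have hleave : ¬ CanLeave 9 11 (x, y) := by
    unfold CanLeave
    simp only
    rintro (h | h)
    · have : x = 9 := by exact_mod_cast h
      omega
    · have : y = 11 := by exact_mod_cast h
      omega
  by_cases hex : ∃ t, BMove 9 11 ⟨(u, v), (r, s), (x, y)⟩ t
  · right
    refine ⟨hleave, hex, ?_⟩
    rintro ⟨px, py⟩ ht
    have hn : Near (x, y) (px, py) := ht.2.1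
    have hne : (px, py) ≠ (x, y) := ht.2.2.1
    have hb := onBoard_9_11.1 ht.1
    have h5 := all8_spec h4 hb.1 hb.2.2.1 hn hne
    unfold repW at h5
    have h6 := (legalW_iff hn hne).2 ht
    rw [h6] at h5
    simp only [Bool.not_true, Bool.false_or] at h5
    unfold goodW at h5
    simp only [Bool.and_eq_true, Nat.blt_eq, not_iff_false, sqB_iff] at h5
    exact ⟨h5.1, ih px py ht h5.2.1 h5.2.2⟩
  · left
    have hno : ∀ t, ¬ BMove 9 11 ⟨(u, v), (r, s), (x, y)⟩ t := by
      intro t ht
      exact hex ⟨t, ht⟩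
    refine ⟨?_, hleave, hno⟩
    rcases h3 with h3 | h3
    · exact attB_iff.1 h3
    · exfalso
      obtain ⟨px, py, h7, h8, h9⟩ := any8_spec hx1 hy1 h3
      exact hno _ ((legalW_iff h8 h9).1 h7)

theorem win_sound {T : NatMap} (hT : T.all (chkW T) = true) :
    ∀ (d u v r s x y : ℕ), u < 16 → v < 16 → r < 16 → s < 16 → x < 16 → y < 16 →
      0 < T.get 0 (code u v r s x y) % 64 → T.get 0 (code u v r s x y) % 64 ≤ d →
      WinsIn 9 11 d ⟨(u, v), (r, s), (x, y)⟩ := by
  intro d
  induction d using Nat.strong_induction_on with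
  | _ d ih =>
    intro u v r s x y hu hv hr hs hx hy h0 hd
    have hc : chkW T (code u v r s x y) (T.get 0 (code u v r s x y)) = true := by
      rcases NatMap.of_all (d := 0) hT (code u v r s x y) with h | h
      · rw [h] at h0
        exact absurd h0 (by decide)
      · exact h
    generalize hval : T.get 0 (code u v r s x y) = val at *
    unfold chkW at hc
    obtain ⟨e1, e2, e3, e4, e5, e6⟩ := decode hu hv hr hs hx hy
    rw [e1, e2, e3, e4, e5, e6] at hc
    obtain ⟨d', hd'⟩ : ∃ d', val % 64 = d' + 1 := ⟨val % 64 - 1, by omega⟩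
    rw [hd'] at hc
    suffices hs : WinsIn 9 11 (d' + 1) ⟨(u, v), (r, s), (x, y)⟩ from winsIn_le (by omega) hs
    unfold whiteW at hc
    simp only [Bool.and_eq_true, Nat.ble_eq] at hc
    obtain ⟨b1, b2, b3, b4, hc⟩ := hc
    generalize hk : val / 64 % 2 = kind at hc
    generalize htx : val / 128 % 16 = tx at *
    generalize hty : val / 2048 % 16 = ty at *
    cases hkb : Nat.beq kind 0 with
    | true =>
      rw [hkb, cond_true] at hc
      simp only [Bool.and_eq_true, not_iff_false, nearB_iff, sqB_iff] at hc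
      obtain ⟨c1, c2, c3, c4, c5⟩ := hc
      refine ⟨⟨(tx, ty), (r, s), (x, y)⟩,
        Or.inl ⟨(tx, ty), onBoard_9_11.2 ⟨b1, b2, b3, b4⟩, c1, c2, c3, c4, rfl⟩, ?_⟩
      refine blackW_spec c5 ?_
      intro px py hb g1 g2
      have hb1 := onBoard_9_11.1 hb.1
      exact ih d' (by omega) tx ty r s px py (by omega) (by omega) hr hs (by omega) (by omega)
        g1 (by omega)
    | false =>
      rw [hkb, cond_false] at hc
      simp only [Bool.and_eq_true, not_iff_false, clearB_iff, sqB_iff] at hc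
      obtain ⟨c1, c2, c3, c4⟩ := hc
      refine ⟨⟨(u, v), (tx, ty), (x, y)⟩,
        Or.inr ⟨(tx, ty), onBoard_9_11.2 ⟨b1, b2, b3, b4⟩, c1, c2, c3, rfl⟩, ?_⟩
      refine blackW_spec c4 ?_
      intro px py hb g1 g2
      have hb1 := onBoard_9_11.1 hb.1
      exact ih d' (by omega) u v tx ty px py hu hv (by omega) (by omega) (by omega) (by omega)
        g1 (by omega)

end Pool.Agent.R186.KRK
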