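import Pool.Agent.R186.NatTree

/-!
# A winning strategy for White on the board with 9 files and 11 ranks (data)
-/

set_option autoImplicit false
set_option maxRecDepth 100000

namespace Pool.Agent.R186.KRK.WinData

open Pool.Agent.R186

def c0 : NatMap := (.node (.node (.node (.node (.node (.node (.node (.node .leaf 1123108 6531 .leaf) 1123122 2497 (.node .leaf 1123124 6531 .leaf)) 1123348 4483 (.node (.node .leaf 1123378 2625 .leaf) 1123394 6402 (.node .leaf 1123395 6402 .leaf))) 1123396 6532 (.node (.node (.node .leaf 1123397 6661 .leaf) 1123604 4483 (.node .leaf 1123622 2693 .leaf)) 1123635 6402 (.node (.node .leaf 1123637 8708 .leaf) 1123638 4870 .leaf))) 1123651 6402 (.node (.node (.node (.node .leaf 1123653 6660 .leaf) 1123654 11014 (.node .leaf 1123655 8966 .leaf)) 1123669 8708 (.node (.node .leaf 1123670 8966 .leaf) 1123671 11014 .leaf)) 1123686 11014 (.node (.node (.node .leaf 1123687 11014 .leaf) 1123860 4483 (.node .leaf 1123891 6402 .leaf)) 1123895 6918 (.node (.node .leaf 1123907 6402 .leaf) 1123909 8708 .leaf)))) 1123910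 10886 (.node (.node (.node (.node (.node .leaf 1123924 8708 .leaf) 1123925 8708 (.node .leaf 1123926 10886 .leaf)) 1123927 11014 (.node (.node .leaf 1123942 10886 .leaf) 1123943 11014 .leaf)) 1124116 4483 (.node (.node (.node .leaf 1124147 6402 .leaf) 1124150 4934 (.node .leaf 1124151 6918 .leaf)) 1124152 7048 (.node (.node .leaf 1124163 6402 .leaf) 1124165 6660 .leaf))) 1124166 6918 (.node (.node (.node (.node .leaf 1124167 8966 .leaf) 1124168 7048 (.node .leaf 1124181 8708 .leaf)) 1124183 8966 (.node (.node .leaf 1124184 13320 .leaf) 1124198 10886 .leaf)) 1124215 13064 (.node (.node (.node .leaf 1124403 6402 .leaf) 1124419 6402 (.node .leaf 1124421 6660 .leaf)) 1124437 8708 (.node (.node .leaf 1124628 4483 .leaf) 1124630 2693 .leaf))))) 1124659 6402 (.node (.node (.node (.node (.node (.node .leaf 1124661 8708 .leaf) 1124675 6402 (.node .leaf 1126947 6337 .leaf)) 1126979 6659 (.node (.node .leaf 1127203 6337 .leaf) 1127218 2497 .leaf)) 1127220 6467 (.node (.node (.node .leaf 1127235 6403 .leaf) 1127236 6469 (.node .leaf 1127443 6337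 .leaf)) 1127444 4483 (.node (.node .leaf 1127459 6337 .leaf) 1127460 4483 .leaf))) 1127475 6402 (.node (.node (.node (.node .leaf 1127477 4613 .leaf) 1127490 6402 (.node .leaf 1127491 6402 .leaf)) 1127494 6790 (.node (.node .leaf 1127715 6337 .leaf) 1127716 2435 .leaf)) 1127717 6661 (.node (.node (.node .leaf 1127718 4806 .leaf) 1127731 6402 (.node .leaf 1127732 4483 .leaf)) 1127734 4806 (.node (.node .leaf 1127751 6920 .leaf) 1127767 4808 .leaf)))) 1127782 4808 (.node (.node (.node (.node (.node .leaf 1127783 4808 .leaf) 1127799 13195 (.node .leaf 1127955 6337 .leaf)) 1127956 4483 (.node (.node .leaf 1127957 4933 .leaf) 1127971 6337 .leaf)) 1127972 4483 (.node (.node (.node .leaf 1127974 2694 .leaf) 1127987 6402 (.node .leaf 1128003 6402 .leaf)) 1128004 4932 (.node (.node .leaf 1128006 4934 .leaf) 1128021 4934 .leaf))) 1128023 4936 (.node (.node (.node (.node .leaf 1128038 4936 .leaf) 1128039 4936 (.node .leaf 1128055 4938 .leaf)) 1128211 6337 (.node (.node .leaf 1128212 6467 .leaf) 1128213 5061 .leaf)) 1128227 6337 (.node (.node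 (.node .leaf 1128228 4483 .leaf) 1128230 2694 (.node .leaf 1128231 4872 .leaf)) 1128243 6402 (.node (.node .leaf 1128248 5064 .leaf) 1128260 5060 .leaf)))))) 1128262 5062 (.node (.node (.node (.node (.node (.node (.node .leaf 1128263 5064 .leaf) 1128277 5062 (.node .leaf 1128280 5064 .leaf)) 1128294 5064 (.node (.node .leaf 1128311 5066 .leaf) 1128467 6337 .leaf)) 1128483 6337 (.node (.node (.node .leaf 1128484 4483 .leaf) 1128485 6661 (.node .leaf 1128499 6402 .leaf)) 1128500 4483 (.node (.node .leaf 1128723 6337 .leaf) 1128724 6467 .leaf))) 1128739 6337 (.node (.node (.node (.node .leaf 1128740 2435 .leaf) 1128755 6402 (.node .leaf 1131043 8385 .leaf)) 1131060 4482 (.node (.node .leaf 1131073 6403 .leaf) 1131092 8581 .leaf)) 1131107 10501 (.node (.node (.node .leaf 1131109 16710 .leaf) 1131299 8385 (.node .leaf 1131300 4482 .leaf)) 1131314 2497 (.node (.node .leaf 1131315 4482 .leaf) 1131316 4482 .leaf)))) 1131329 6275 (.node (.node (.node (.node (.node .leaf 1131330 6275 .leaf) 1131347 8453 (.node .leaf 1131364 10630 .leaf)) 1131365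 8519 (.node (.node .leaf 1131366 12937 .leaf) 1131555 8385 .leaf)) 1131556 4482 (.node (.node (.node .leaf 1131571 4482 .leaf) 1131572 4482 (.node .leaf 1131586 6402 .leaf)) 1131587 6402 (.node (.node .leaf 1131589 6662 .leaf) 1131604 4678 .leaf))) 1131812 4482 (.node (.node (.node (.node .leaf 1131827 4482 .leaf) 1131828 4482 (.node .leaf 1131829 4613 .leaf)) 1131842 6402 (.node (.node .leaf 1131843 6402 .leaf) 1131846 4806 .leaf)) 1131862 4806 (.node (.node (.node .leaf 1131878 4808 .leaf) 1132067 8385 (.node .leaf 1132068 4482 .leaf)) 1132069 4613 (.node (.node .leaf 1132083 4482 .leaf) 1132084 4482 .leaf))))) 1132085 4613 (.node (.node (.node (.node (.node (.node .leaf 1132101 6662 .leaf) 1132118 4934 (.node .leaf 1132309 4613 .leaf)) 1132324 4482 (.node (.node .leaf 1132339 4482 .leaf) 1132340 4482 .leaf)) 1132341 4613 (.node (.node (.node .leaf 1132342 5062 .leaf) 1132343 6921 (.node .leaf 1132580 4482 .leaf)) 1132595 4482 (.node (.node .leaf 1132835 8385 .leaf) 1132836 4482 .leaf))) 1132851 4482 (.node (.node (.node (.node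 .leaf 1135155 4482 .leaf) 1135156 4482 (.node .leaf 1135169 6403 .leaf)) 1135187 8580 (.node (.node .leaf 1135188 8708 .leaf) 1135189 8708 .leaf)) 1135202 10373 (.node (.node (.node .leaf 1135203 12550 .leaf) 1135204 12678 (.node .leaf 1135205 12614 .leaf)) 1135218 12550 (.node (.node .leaf 1135219 12550 .leaf) 1135220 12678 .leaf)))) 1135221 12806 (.node (.node (.node (.node (.node .leaf 1135235 14727 .leaf) 1135236 14727 (.node .leaf 1135238 14664 .leaf)) 1135410 2497 (.node (.node .leaf 1135411 4482 .leaf) 1135426 6275 .leaf)) 1135427 6403 (.node (.node (.node .leaf 1135442 8581 .leaf) 1135444 8581 (.node .leaf 1135458 10566 .leaf)) 1135459 10566 (.node (.node .leaf 1135461 10566 .leaf) 1135462 10568 .leaf))) 1135475 10567 (.node (.node (.node (.node .leaf 1135476 12680 .leaf) 1135478 10568 (.node .leaf 1135479 13067 .leaf)) 1135492 10568 (.node (.node .leaf 1135652 4482 .leaf) 1135667 4482 .leaf)) 1135668 4482 (.node (.node (.node .leaf 1135682 6402 .leaf) 1135683 6402 (.node .leaf 1135684 6531 .leaf)) 1135699 8453 (.node (.node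 .leaf 1135701 4678 .leaf) 1135716 10566 .leaf)))))))

def c1 : NatMap := (.node (.node (.node (.node (.node (.node (.node (.node .leaf 1135718 10568 .leaf) 1135733 10568 (.node .leaf 1135735 13068 .leaf)) 1135750 10568 (.node (.node .leaf 1135908 4482 .leaf) 1135923 4482 (.node .leaf 1135924 4482 .leaf))) 1135938 6402 (.node (.node (.node .leaf 1135939 6402 .leaf) 1135956 8582 (.node .leaf 1135973 10566 .leaf)) 1135974 4808 (.node (.node .leaf 1136164 4482 .leaf) 1136179 4482 .leaf))) 1136180 4482 (.node (.node (.node (.node .leaf 1136181 4613 .leaf) 1136196 6531 (.node .leaf 1136198 6791 .leaf)) 1136230 4936 (.node (.node .leaf 1136419 10433 .leaf) 1136420 4482 .leaf)) 1136435 4482 (.node (.node (.node .leaf 1136436 4482 .leaf) 1136437 4613 (.node .leaf 1136438 5062 .leaf)) 1136454 5062 (.node (.node .leaf 1136675 10433 .leaf) 1136676 4482 .leaf)))) 1136691 4482 (.node (.node (.node (.node (.node .leaf 1136692 4482 .leaf) 1136931 10433 (.node .leaf 1136932 4482 .leaf)) 1136947 4482 (.node (.node .leaf 1139251 4482 .leaf) 1139252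 4482 .leaf)) 1139265 6403 (.node (.node (.node .leaf 1139284 8708 .leaf) 1139285 8708 (.node .leaf 1139300 12934 .leaf)) 1139301 10886 (.node (.node .leaf 1139316 12678 .leaf) 1139317 12934 .leaf))) 1139318 12934 (.node (.node (.node (.node .leaf 1139334 18760 .leaf) 1139505 2497 (.node .leaf 1139506 2497 .leaf)) 1139507 4482 (.node (.node .leaf 1139521 6403 .leaf) 1139522 6403 .leaf)) 1139524 12612 (.node (.node (.node .leaf 1139541 12614 .leaf) 1139556 12614 (.node .leaf 1139557 12614 .leaf)) 1139573 12616 (.node (.node .leaf 1139574 12616 .leaf) 1139762 2625 .leaf))))) 1139763 6402 (.node (.node (.node (.node (.node (.node .leaf 1139778 6402 .leaf) 1139779 6402 (.node .leaf 1139794 8453 .leaf)) 1139795 8453 (.node (.node .leaf 1139796 8582 .leaf) 1139811 10631 .leaf)) 1139813 12614 (.node (.node (.node .leaf 1139828 12616 .leaf) 1139829 12616 (.node .leaf 1139830 12616 .leaf)) 1140003 12481 (.node (.node .leaf 1140018 2753 .leaf) 1140019 6402 .leaf))) 1140034 6402 (.node (.node (.node (.node .leaf 1140035 6402 .leaf) 1140051 8453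 (.node .leaf 1140068 10631 .leaf)) 1140071 4808 (.node (.node .leaf 1140260 4482 .leaf) 1140275 4482 .leaf)) 1140290 6402 (.node (.node (.node .leaf 1140291 6402 .leaf) 1140516 4482 (.node .leaf 1140531 4482 .leaf)) 1140532 4482 (.node (.node .leaf 1140771 12481 .leaf) 1140772 4482 .leaf)))) 1140787 4482 (.node (.node (.node (.node (.node .leaf 1143347 4482 .leaf) 1143348 4482 (.node .leaf 1143361 6403 .leaf)) 1143379 8708 (.node (.node .leaf 1143380 8708 .leaf) 1143381 8708 .leaf)) 1143393 10373 (.node (.node (.node .leaf 1143395 10566 .leaf) 1143396 12614 (.node .leaf 1143397 18758 .leaf)) 1143398 10886 (.node (.node .leaf 1143411 12678 .leaf) 1143412 12806 .leaf))) 1143413 12934 (.node (.node (.node (.node .leaf 1143414 12934 .leaf) 1143415 15112 (.node .leaf 1143426 14471 .leaf)) 1143428 14856 (.node (.node .leaf 1143429 15112 .leaf) 1143430 15112 .leaf)) 1143431 15112 (.node (.node (.node .leaf 1143443 16776 .leaf) 1143444 17032 (.node .leaf 1143446 17032 .leaf)) 1143447 17160 (.node (.node .leaf 1143460 18825 .leaf) 1143463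 19210 .leaf)))))) 1143602 2497 (.node (.node (.node (.node (.node (.node (.node .leaf 1143603 4482 .leaf) 1143618 6403 (.node .leaf 1143619 6403 .leaf)) 1143634 8581 (.node (.node .leaf 1143650 10502 .leaf) 1143653 14662 .leaf)) 1143666 12552 (.node (.node (.node .leaf 1143668 14664 .leaf) 1143670 14664 (.node .leaf 1143671 14666 .leaf)) 1143683 14664 (.node (.node .leaf 1143685 14664 .leaf) 1143686 14664 .leaf))) 1143687 14666 (.node (.node (.node (.node .leaf 1143700 16778 .leaf) 1143702 14666 (.node .leaf 1143716 14666 .leaf)) 1143858 2625 (.node (.node .leaf 1143859 6402 .leaf) 1143874 6402 .leaf)) 1143875 6402 (.node (.node (.node .leaf 1143876 6531 .leaf) 1143890 8453 (.node .leaf 1143891 8453 .leaf)) 1143892 8582 (.node (.node .leaf 1143907 14662 .leaf) 1143909 14662 .leaf)))) 1143923 12681 (.node (.node (.node (.node (.node .leaf 1143940 14664 .leaf) 1144114 2753 (.node .leaf 1144115 6402 .leaf)) 1144130 6402 (.node (.node .leaf 1144131 6402 .leaf) 1144132 6531 .leaf)) 1144147 8453 (.node (.node (.node .leaf 1144149 14662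 .leaf) 1144163 14662 (.node .leaf 1144164 14662 .leaf)) 1144166 14664 (.node (.node .leaf 1144197 14664 .leaf) 1144370 2881 .leaf))) 1144371 4482 (.node (.node (.node (.node .leaf 1144386 6402 .leaf) 1144387 6402 (.node .leaf 1144403 8453 .leaf)) 1144404 4934 (.node (.node .leaf 1144611 14529 .leaf) 1144627 6402 .leaf)) 1144628 4482 (.node (.node (.node .leaf 1144643 6402 .leaf) 1144882 3137 (.node .leaf 1144883 6402 .leaf)) 1144899 6402 (.node (.node .leaf 1147443 4482 .leaf) 1147444 4482 .leaf))))) 1147457 6403 (.node (.node (.node (.node (.node (.node .leaf 1147476 8580 .leaf) 1147477 8708 (.node .leaf 1147489 10373 .leaf)) 1147491 10630 (.node (.node .leaf 1147492 12614 .leaf) 1147493 10886 .leaf)) 1147508 12806 (.node (.node (.node .leaf 1147509 12934 .leaf) 1147510 12934 (.node .leaf 1147521 14471 .leaf)) 1147524 14664 (.node (.node .leaf 1147526 18760 .leaf) 1147541 17160 .leaf))) 1147542 17160 (.node (.node (.node (.node .leaf 1147698 2497 .leaf) 1147699 4482 (.node .leaf 1147714 6275 .leaf)) 1147729 16709 (.node (.node .leaf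 1147746 10374 .leaf) 1147749 16710 .leaf)) 1147764 16712 (.node (.node (.node .leaf 1147766 16712 .leaf) 1147780 16712 (.node .leaf 1147797 16714 .leaf)) 1147954 2625 (.node (.node .leaf 1147955 6402 .leaf) 1147970 6402 .leaf)))) 1147971 6402 (.node (.node (.node (.node (.node .leaf 1147987 8453 .leaf) 1147988 8582 (.node .leaf 1148003 16710 .leaf)) 1148020 16712 (.node (.node .leaf 1148195 16577 .leaf) 1148211 6402 .leaf)) 1148226 6402 (.node (.node (.node .leaf 1148243 8453 .leaf) 1148466 2881 (.node .leaf 1148467 4482 .leaf)) 1148482 6402 (.node (.node .leaf 1148483 6402 .leaf) 1148499 8453 .leaf))) 1148723 6402 (.node (.node (.node (.node .leaf 1148724 4482 .leaf) 1148738 6402 (.node .leaf 1148963 16577 .leaf)) 1148978 3137 (.node (.node .leaf 1149219 16577 .leaf) 1149235 6402 .leaf)) 1151539 4482 (.node (.node (.node .leaf 1151540 4482 .leaf) 1151553 6403 (.node .leaf 1151572 8580 .leaf)) 1151585 10373 (.node (.node .leaf 1151587 14662 .leaf) 1151588 12614 .leaf)))))))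

def c2 : NatMap := (.node (.node (.node (.node (.node (.node (.node (.node .leaf 1151604 12678 .leaf) 1151605 12806 (.node .leaf 1151617 14471 .leaf)) 1151619 14728 (.node (.node .leaf 1151620 14664 .leaf) 1151622 14984 (.node .leaf 1151636 16776 .leaf))) 1151637 16904 (.node (.node (.node .leaf 1151652 18954 .leaf) 1151653 18954 (.node .leaf 1151654 19338 .leaf)) 1151794 2497 (.node (.node .leaf 1151795 4482 .leaf) 1151810 6403 .leaf))) 1151826 8453 (.node (.node (.node (.node .leaf 1151842 10502 .leaf) 1151844 18758 (.node .leaf 1151858 12552 .leaf)) 1151860 18760 (.node (.node .leaf 1151861 18760 .leaf) 1151876 18760 .leaf)) 1151893 18762 (.node (.node (.node .leaf 1151910 18762 .leaf) 1152050 2625 (.node .leaf 1152051 6402 .leaf)) 1152066 6402 (.node (.node .leaf 1152083 8453 .leaf) 1152099 18758 .leaf)))) 1152115 18760 (.node (.node (.node (.node (.node .leaf 1152116 18760 .leaf) 1152131 18760 (.node .leaf 1152132 18760 .leaf)) 1152291 18625 (.node (.node .leaf 1152307 4482 .leaf) 1152322 6402 .leaf)) 1152339 8453 (.node (.node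 (.node .leaf 1152372 18760 .leaf) 1152387 18760 (.node .leaf 1152563 6402 .leaf)) 1152564 4482 (.node (.node .leaf 1152578 6402 .leaf) 1152595 8453 .leaf))) 1152803 18625 (.node (.node (.node (.node .leaf 1152819 6402 .leaf) 1152834 6402 (.node .leaf 1153059 18625 .leaf)) 1153315 18625 (.node (.node .leaf 1155635 4482 .leaf) 1155636 4482 .leaf)) 1155649 6403 (.node (.node (.node .leaf 1155667 8580 .leaf) 1155681 10373 (.node .leaf 1155683 16710 .leaf)) 1155699 12678 (.node (.node .leaf 1155700 12678 .leaf) 1155713 14471 .leaf))))) 1155715 18760 (.node (.node (.node (.node (.node (.node .leaf 1155718 10568 .leaf) 1155729 16713 (.node .leaf 1155732 17032 .leaf)) 1155890 2497 (.node (.node .leaf 1155891 4482 .leaf) 1155906 6275 .leaf)) 1155921 20805 (.node (.node (.node .leaf 1155938 10374 .leaf) 1155954 12552 (.node .leaf 1155956 20808 .leaf)) 1155970 14601 (.node (.node .leaf 1156146 2625 .leaf) 1156147 6402 .leaf))) 1156162 6402 (.node (.node (.node (.node .leaf 1156163 6402 .leaf) 1156178 8453 (.node .leaf 1156179 8453 .leaf)) 1156195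 20806 (.node (.node .leaf 1156211 20808 .leaf) 1156227 20808 .leaf)) 1156387 20673 (.node (.node (.node .leaf 1156402 2753 .leaf) 1156403 6402 (.node .leaf 1156418 6402 .leaf)) 1156419 6402 (.node (.node .leaf 1156435 8453 .leaf) 1156643 20673 .leaf)))) 1156659 4482 (.node (.node (.node (.node (.node .leaf 1156674 6402 .leaf) 1156675 6402 (.node .leaf 1156691 8453 .leaf)) 1156899 20673 (.node (.node .leaf 1156914 3009 .leaf) 1156915 4482 .leaf)) 1156930 6402 (.node (.node (.node .leaf 1157155 20673 .leaf) 1157411 20673 (.node .leaf 1159731 4482 .leaf)) 1159732 4482 (.node (.node .leaf 1159745 6403 .leaf) 1159763 8580 .leaf))) 1159779 10566 (.node (.node (.node (.node .leaf 1159795 12678 .leaf) 1159796 12678 (.node .leaf 1159812 16712 .leaf)) 1159986 2497 (.node (.node .leaf 1159987 4482 .leaf) 1160002 6275 .leaf)) 1160018 8453 (.node (.node (.node .leaf 1160019 8453 .leaf) 1160034 10630 (.node .leaf 1160050 12552 .leaf)) 1160052 22856 (.node (.node .leaf 1160242 2625 .leaf) 1160243 6402 .leaf)))))) 1160258 6402 (.node (.node (.node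 (.node (.node (.node (.node .leaf 1160275 8453 .leaf) 1160291 22854 (.node .leaf 1160483 22721 .leaf)) 1160498 2753 (.node (.node .leaf 1160499 6402 .leaf) 1160514 6402 .leaf)) 1160515 6402 (.node (.node (.node .leaf 1160531 8453 .leaf) 1160739 22721 (.node .leaf 1160754 2881 .leaf)) 1160755 6402 (.node (.node .leaf 1160770 6402 .leaf) 1160995 22721 .leaf))) 1161010 3009 (.node (.node (.node (.node .leaf 1161011 6402 .leaf) 1161026 6402 (.node .leaf 1161251 22721 .leaf)) 1161507 22721 (.node (.node .leaf 1161522 3265 .leaf) 1188659 6402 .leaf)) 1188901 2564 (.node (.node (.node .leaf 1188914 2625 .leaf) 1188915 8771 (.node .leaf 1188916 4548 .leaf)) 1188917 4805 (.node (.node .leaf 1188930 6403 .leaf) 1188931 6403 .leaf)))) 1188948 8581 (.node (.node (.node (.node (.node .leaf 1188949 8709 .leaf) 1189141 2564 (.node .leaf 1189158 6789 .leaf)) 1189170 2753 (.node (.node .leaf 1189172 6531 .leaf) 1189174 6789 .leaf)) 1189187 6531 (.node (.node (.node .leaf 1189188 6531 .leaf) 1189190 6789 (.node .leaf 1189206 8837 .leaf)) 1189207 11015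 (.node (.node .leaf 1189222 10887 .leaf) 1189223 11143 .leaf))) 1189397 2564 (.node (.node (.node (.node .leaf 1189426 2881 .leaf) 1189428 6531 (.node .leaf 1189430 8837 .leaf)) 1189431 5063 (.node (.node .leaf 1189443 6531 .leaf) 1189444 6531 .leaf)) 1189446 8837 (.node (.node (.node .leaf 1189460 8837 .leaf) 1189461 8837 (.node .leaf 1189462 8837 .leaf)) 1189463 11015 (.node (.node .leaf 1189478 10887 .leaf) 1189479 11015 .leaf))))) 1189495 13193 (.node (.node (.node (.node (.node (.node .leaf 1189653 2564 .leaf) 1189654 5318 (.node .leaf 1189682 3009 .leaf)) 1189684 6531 (.node (.node .leaf 1189685 4805 .leaf) 1189686 8837 .leaf)) 1189687 6919 (.node (.node (.node .leaf 1189688 7047 .leaf) 1189699 6531 (.node .leaf 1189700 6531 .leaf)) 1189702 8837 (.node (.node .leaf 1189703 6919 .leaf) 1189704 7047 .leaf))) 1189717 8837 (.node (.node (.node (.node .leaf 1189720 9095 .leaf) 1189734 10887 (.node .leaf 1189736 11143 .leaf)) 1189751 13065 (.node (.node .leaf 1189938 3137 .leaf) 1189940 6531 .leaf)) 1189941 4805 (.node (.node (.node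 .leaf 1189942 8837 .leaf) 1189955 6531 (.node .leaf 1189956 6531 .leaf)) 1189957 4933 (.node (.node .leaf 1189958 8837 .leaf) 1189973 8837 .leaf)))) 1190165 2564 (.node (.node (.node (.node (.node .leaf 1190194 3265 .leaf) 1190196 6531 (.node .leaf 1190197 4805 .leaf)) 1190198 6789 (.node (.node .leaf 1190211 6531 .leaf) 1190212 6531 .leaf)) 1190231 4935 (.node (.node (.node .leaf 1192754 18882 .leaf) 1192756 4548 (.node .leaf 1192771 6402 .leaf)) 1192772 6662 (.node (.node .leaf 1192996 6531 .leaf) 1192997 2565 .leaf))) 1193010 2625 (.node (.node (.node (.node .leaf 1193011 6851 .leaf) 1193013 4613 (.node .leaf 1193026 6531 .leaf)) 1193027 6531 (.node (.node .leaf 1193028 6531 .leaf) 1193029 4678 .leaf)) 1193030 6791 (.node (.node (.node .leaf 1193252 6531 .leaf) 1193253 6661 (.node .leaf 1193254 4806 .leaf)) 1193266 2753 (.node (.node .leaf 1193267 10947 .leaf) 1193268 6531 .leaf)))))))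

def c3 : NatMap := (.node (.node (.node (.node (.node (.node (.node (.node .leaf 1193286 4807 .leaf) 1193287 4807 (.node .leaf 1193302 4807 .leaf)) 1193303 4807 (.node (.node .leaf 1193318 11146 .leaf) 1193319 11146 (.node .leaf 1193335 13195 .leaf))) 1193492 4932 (.node (.node (.node .leaf 1193493 2565 .leaf) 1193508 6531 (.node .leaf 1193509 2565 .leaf)) 1193510 2695 (.node (.node .leaf 1193522 2881 .leaf) 1193523 13123 .leaf))) 1193524 6531 (.node (.node (.node (.node .leaf 1193527 4935 .leaf) 1193539 6531 (.node .leaf 1193540 6531 .leaf)) 1193542 4935 (.node (.node .leaf 1193557 4935 .leaf) 1193559 4935 .leaf)) 1193574 4937 (.node (.node (.node .leaf 1193575 4937 .leaf) 1193591 13067 (.node .leaf 1193748 5060 .leaf)) 1193749 2565 (.node (.node .leaf 1193764 6531 .leaf) 1193765 2565 .leaf)))) 1193766 2695 (.node (.node (.node (.node (.node .leaf 1193767 4872 .leaf) 1193778 3009 (.node .leaf 1193779 6979 .leaf)) 1193780 6531 (.node (.node .leaf 1193784 5065 .leaf) 1193796 6531 .leaf)) 1193798 5063 (.node (.node (.node .leaf 1193799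 5063 .leaf) 1193800 5065 (.node .leaf 1193813 5063 .leaf)) 1193816 5065 (.node (.node .leaf 1193830 5065 .leaf) 1193847 5067 .leaf))) 1194020 6531 (.node (.node (.node (.node .leaf 1194021 6661 .leaf) 1194022 4743 (.node .leaf 1194034 3137 .leaf)) 1194036 6531 (.node (.node .leaf 1194069 5191 .leaf) 1194276 6531 .leaf)) 1194277 2565 (.node (.node (.node .leaf 1194290 3265 .leaf) 1194291 9411 (.node .leaf 1194292 6531 .leaf)) 1196324 6530 (.node (.node .leaf 1196594 8642 .leaf) 1196836 4548 .leaf))))) 1196849 12738 (.node (.node (.node (.node (.node (.node .leaf 1196851 6402 .leaf) 1196853 6662 (.node .leaf 1196865 6402 .leaf)) 1196866 6402 (.node (.node .leaf 1196883 8453 .leaf) 1196900 10630 .leaf)) 1196901 12808 (.node (.node (.node .leaf 1197092 6531 .leaf) 1197093 4613 (.node .leaf 1197106 2625 .leaf)) 1197107 8386 (.node (.node .leaf 1197108 6531 .leaf) 1197122 6531 .leaf))) 1197123 6531 (.node (.node (.node (.node .leaf 1197125 4678 .leaf) 1197140 8582 (.node .leaf 1197141 10759 .leaf)) 1197142 8841 (.node (.node .leaf 1197157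 10759 .leaf) 1197348 6531 .leaf)) 1197349 4613 (.node (.node (.node .leaf 1197362 2753 .leaf) 1197363 8386 (.node .leaf 1197364 6531 .leaf)) 1197365 4613 (.node (.node .leaf 1197378 6531 .leaf) 1197379 6531 .leaf)))) 1197380 6531 (.node (.node (.node (.node (.node .leaf 1197382 4807 .leaf) 1197396 8775 (.node .leaf 1197397 4807 .leaf)) 1197398 4807 (.node (.node .leaf 1197414 8650 .leaf) 1197415 11019 .leaf)) 1197604 6531 (.node (.node (.node .leaf 1197605 4613 .leaf) 1197619 8386 (.node .leaf 1197620 6531 .leaf)) 1197621 4613 (.node (.node .leaf 1197622 4743 .leaf) 1197636 6531 .leaf))) 1197637 4933 (.node (.node (.node (.node .leaf 1197654 4935 .leaf) 1197845 4613 (.node .leaf 1197860 6531 .leaf)) 1197862 2695 (.node (.node .leaf 1197875 8386 .leaf) 1197876 6531 .leaf)) 1197877 4613 (.node (.node (.node .leaf 1197878 5063 .leaf) 1197879 6921 (.node .leaf 1197892 6531 .leaf)) 1198116 6531 (.node (.node .leaf 1198131 8386 .leaf) 1198133 4613 .leaf)))))) 1198372 6531 (.node (.node (.node (.node (.node (.node (.node .leaf 1198387 8386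 .leaf) 1198389 4613 (.node .leaf 1200435 8386 .leaf)) 1200436 6530 (.node (.node .leaf 1200437 6662 .leaf) 1200450 6530 .leaf)) 1200451 6530 (.node (.node (.node .leaf 1200452 6530 .leaf) 1200690 10690 (.node .leaf 1200945 12738 .leaf)) 1200946 18882 (.node (.node .leaf 1200947 6402 .leaf) 1200962 6402 .leaf))) 1200963 6402 (.node (.node (.node (.node .leaf 1200994 10502 .leaf) 1200995 10502 (.node .leaf 1200997 10760 .leaf)) 1200998 8650 (.node (.node .leaf 1201012 12680 .leaf) 1201014 12938 .leaf)) 1201028 14728 (.node (.node (.node .leaf 1201188 6531 .leaf) 1201202 2625 (.node .leaf 1201203 10434 .leaf)) 1201204 6531 (.node (.node .leaf 1201205 4613 .leaf) 1201218 6531 .leaf)))) 1201219 6531 (.node (.node (.node (.node (.node .leaf 1201235 8582 .leaf) 1201237 8711 (.node .leaf 1201250 10631 .leaf)) 1201252 10631 (.node (.node .leaf 1201253 12809 .leaf) 1201254 12938 .leaf)) 1201269 12809 (.node (.node (.node .leaf 1201271 13068 .leaf) 1201286 14986 (.node .leaf 1201444 6531 .leaf)) 1201458 2753 (.node (.node .leaf 1201459 10434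 .leaf) 1201460 6531 .leaf))) 1201461 4613 (.node (.node (.node (.node .leaf 1201474 6531 .leaf) 1201475 6531 (.node .leaf 1201492 8583 .leaf)) 1201508 10825 (.node (.node .leaf 1201509 10761 .leaf) 1201510 4811 .leaf)) 1201511 4811 (.node (.node (.node .leaf 1201527 10700 .leaf) 1201700 6531 (.node .leaf 1201715 10434 .leaf)) 1201716 6531 (.node (.node .leaf 1201717 4613 .leaf) 1201731 6531 .leaf))))) 1201732 6531 (.node (.node (.node (.node (.node (.node .leaf 1201734 6793 .leaf) 1201749 4935 (.node .leaf 1201766 4937 .leaf)) 1201956 6531 (.node (.node .leaf 1201971 10434 .leaf) 1201972 6531 .leaf)) 1201973 4613 (.node (.node (.node .leaf 1201974 5063 .leaf) 1201988 6531 (.node .leaf 1201990 5063 .leaf)) 1202212 6531 (.node (.node .leaf 1202228 6531 .leaf) 1202229 4613 .leaf))) 1202468 6531 (.node (.node (.node (.node .leaf 1202483 10434 .leaf) 1202499 6531 (.node .leaf 1204531 10434 .leaf)) 1204546 6530 (.node (.node .leaf 1204547 6530 .leaf) 1204786 12738 .leaf)) 1205042 18882 (.node (.node (.node .leaf 1205043 6402 .leaf) 1205057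 6402 (.node .leaf 1205058 6402 .leaf)) 1205077 8712 (.node (.node .leaf 1205092 8648 .leaf) 1205109 12809 .leaf)))) 1205110 12938 (.node (.node (.node (.node (.node .leaf 1205298 2625 .leaf) 1205299 12482 (.node .leaf 1205314 6403 .leaf)) 1205315 6403 (.node (.node .leaf 1205330 8582 .leaf) 1205331 8582 .leaf)) 1205332 8582 (.node (.node (.node .leaf 1205347 10631 .leaf) 1205349 10759 (.node .leaf 1205364 12681 .leaf)) 1205365 14858 (.node (.node .leaf 1205366 12939 .leaf) 1205381 14858 .leaf))) 1205554 2753 (.node (.node (.node (.node .leaf 1205555 12482 .leaf) 1205570 6403 (.node .leaf 1205571 6403 .leaf)) 1205587 8454 (.node (.node .leaf 1205604 10633 .leaf) 1205607 4811 .leaf)) 1205621 12811 (.node (.node (.node .leaf 1205796 6531 .leaf) 1205810 2881 (.node .leaf 1205811 12482 .leaf)) 1205812 6531 (.node (.node .leaf 1205813 4613 .leaf) 1205826 6531 .leaf)))))))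

def c4 : NatMap := (.node (.node (.node (.node (.node (.node (.node (.node .leaf 1206052 6531 .leaf) 1206067 12482 (.node .leaf 1206068 6531 .leaf)) 1206069 4613 (.node (.node .leaf 1206084 6531 .leaf) 1206101 5063 (.node .leaf 1206308 6531 .leaf))) 1206323 12482 (.node (.node (.node .leaf 1206325 4613 .leaf) 1206339 6531 (.node .leaf 1208627 10434 .leaf)) 1208642 6530 (.node (.node .leaf 1208643 6530 .leaf) 1208882 14786 .leaf))) 1209138 18882 (.node (.node (.node (.node .leaf 1209139 6402 .leaf) 1209154 6402 (.node .leaf 1209155 6402 .leaf)) 1209170 8453 (.node (.node .leaf 1209186 10502 .leaf) 1209202 12552 .leaf)) 1209204 10697 (.node (.node (.node .leaf 1209206 12938 .leaf) 1209219 14601 (.node .leaf 1209221 14858 .leaf)) 1209222 17035 (.node (.node .leaf 1209223 15244 .leaf) 1209236 16778 .leaf)))) 1209238 17035 (.node (.node (.node (.node (.node .leaf 1209252 18955 .leaf) 1209394 2625 (.node .leaf 1209395 14530 .leaf)) 1209410 6403 (.node (.node .leaf 1209411 6403 .leaf) 1209412 6531 .leaf)) 1209426 14790 (.node (.node (.node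 .leaf 1209427 8582 .leaf) 1209428 8582 (.node .leaf 1209443 10631 .leaf)) 1209445 10759 (.node (.node .leaf 1209459 12681 .leaf) 1209462 12939 .leaf))) 1209476 14730 (.node (.node (.node (.node .leaf 1209478 14796 .leaf) 1209650 2753 (.node .leaf 1209651 14530 .leaf)) 1209666 6403 (.node (.node .leaf 1209667 6403 .leaf) 1209668 6531 .leaf)) 1209683 8454 (.node (.node (.node .leaf 1209685 8713 .leaf) 1209700 10633 (.node .leaf 1209702 10890 .leaf)) 1209716 12682 (.node (.node .leaf 1209719 14796 .leaf) 1209733 14795 .leaf))))) 1209906 2881 (.node (.node (.node (.node (.node (.node .leaf 1209907 14530 .leaf) 1209922 6403 (.node .leaf 1209923 6403 .leaf)) 1209939 8454 (.node (.node .leaf 1209940 8583 .leaf) 1209956 10761 .leaf)) 1210162 3009 (.node (.node (.node .leaf 1210163 14530 .leaf) 1210164 6531 (.node .leaf 1210179 6531 .leaf)) 1210180 6531 (.node (.node .leaf 1210418 3137 .leaf) 1210419 14530 .leaf))) 1210435 6403 (.node (.node (.node (.node .leaf 1212723 14530 .leaf) 1212978 16834 (.node .leaf 1213233 12738 .leaf)) 1213235 6402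 (.node (.node .leaf 1213250 6402 .leaf) 1213265 8453 .leaf)) 1213282 10374 (.node (.node (.node .leaf 1213300 10697 .leaf) 1213302 12938 (.node .leaf 1213316 10698 .leaf)) 1213333 16907 (.node (.node .leaf 1213490 2625 .leaf) 1213491 16578 .leaf)))) 1213506 6403 (.node (.node (.node (.node (.node .leaf 1213507 6403 .leaf) 1213523 8582 (.node .leaf 1213524 8582 .leaf)) 1213539 10759 (.node (.node .leaf 1213556 12681 .leaf) 1213746 2753 .leaf)) 1213747 16578 (.node (.node (.node .leaf 1213762 6531 .leaf) 1213763 6531 (.node .leaf 1213779 8454 .leaf)) 1213796 10633 (.node (.node .leaf 1214002 2881 .leaf) 1214003 16578 .leaf))) 1214018 6403 (.node (.node (.node (.node .leaf 1214019 6403 .leaf) 1214035 8454 (.node .leaf 1214036 16967 .leaf)) 1214052 10633 (.node (.node .leaf 1214258 3009 .leaf) 1214259 16578 .leaf)) 1214260 6531 (.node (.node (.node .leaf 1214274 6531 .leaf) 1214276 6531 (.node .leaf 1214515 16578 .leaf)) 1214531 6403 (.node (.node .leaf 1214770 3265 .leaf) 1214771 16578 .leaf)))))) 1214787 6531 (.node (.node (.node (.node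 (.node (.node (.node .leaf 1217074 18882 .leaf) 1217330 16834 (.node .leaf 1217331 6402 .leaf)) 1217346 6402 (.node (.node .leaf 1217362 8453 .leaf) 1217378 10502 .leaf)) 1217394 12552 (.node (.node (.node .leaf 1217396 10697 .leaf) 1217397 12809 (.node .leaf 1217412 10698 .leaf)) 1217429 16907 (.node (.node .leaf 1217446 19085 .leaf) 1217586 2625 .leaf))) 1217587 18626 (.node (.node (.node (.node .leaf 1217602 6403 .leaf) 1217619 8454 (.node .leaf 1217635 10631 .leaf)) 1217651 12681 (.node (.node .leaf 1217652 12681 .leaf) 1217667 14730 .leaf)) 1217668 14858 (.node (.node (.node .leaf 1217669 14858 .leaf) 1217685 16908 (.node .leaf 1217842 2753 .leaf)) 1217843 18626 (.node (.node .leaf 1217858 6531 .leaf) 1217859 6531 .leaf)))) 1217875 8454 (.node (.node (.node (.node (.node .leaf 1217892 10633 .leaf) 1217908 19018 (.node .leaf 1217923 14860 .leaf)) 1217940 16781 (.node (.node .leaf 1218098 2881 .leaf) 1218099 18626 .leaf)) 1218100 6531 (.node (.node (.node .leaf 1218114 6531 .leaf) 1218116 6531 (.node .leaf 1218131 8454 .leaf))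 1218133 4935 (.node (.node .leaf 1218148 10633 .leaf) 1218164 19018 .leaf))) 1218354 3009 (.node (.node (.node (.node .leaf 1218355 18626 .leaf) 1218370 6531 (.node .leaf 1218371 6531 .leaf)) 1221170 20930 (.node (.node .leaf 1221425 12738 .leaf) 1221427 6402 .leaf)) 1221442 6402 (.node (.node (.node .leaf 1221457 8453 .leaf) 1221474 10374 (.node .leaf 1221490 12552 .leaf)) 1221492 10697 (.node (.node .leaf 1221506 14601 .leaf) 1221682 2625 .leaf))))) 1221683 20674 (.node (.node (.node (.node (.node (.node .leaf 1221698 6403 .leaf) 1221699 6403 (.node .leaf 1221714 8582 .leaf)) 1221715 8582 (.node (.node .leaf 1221731 10631 .leaf) 1221747 12681 .leaf)) 1221763 14730 (.node (.node (.node .leaf 1221938 2753 .leaf) 1221939 20674 (.node .leaf 1221954 6403 .leaf)) 1221955 6403 (.node (.node .leaf 1221971 8454 .leaf) 1221988 10633 .leaf))) 1222194 2881 (.node (.node (.node (.node .leaf 1222195 20674 .leaf) 1222210 6531 (.node .leaf 1222211 6531 .leaf)) 1222227 8454 (.node (.node .leaf 1222228 4935 .leaf) 1222244 10633 .leaf)) 1222450 3009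 (.node (.node (.node .leaf 1222451 20674 .leaf) 1222466 6403 (.node .leaf 1225266 22978 .leaf)) 1225521 12738 (.node (.node .leaf 1225523 6402 .leaf) 1225538 6402 .leaf)))) 1225555 8453 (.node (.node (.node (.node (.node .leaf 1225570 10502 .leaf) 1225586 12552 (.node .leaf 1225588 10697 .leaf)) 1225778 2625 (.node (.node .leaf 1225779 22722 .leaf) 1225794 6403 .leaf)) 1225810 22982 (.node (.node (.node .leaf 1225811 8454 .leaf) 1225827 10631 (.node .leaf 1226034 2753 .leaf)) 1226035 22722 (.node (.node .leaf 1226050 6403 .leaf) 1226051 6403 .leaf))) 1226067 8454 (.node (.node (.node (.node .leaf 1226084 10633 .leaf) 1226290 2881 (.node .leaf 1226291 22722 .leaf)) 1226306 6403 (.node (.node .leaf 1226307 6403 .leaf) 1226546 3009 .leaf)) 1226547 22722 (.node (.node (.node .leaf 1226562 6403 .leaf) 1227059 22722 (.node .leaf 1227075 6403 .leaf)) 1254450 6722 (.node (.node .leaf 1254466 6532 .leaf) 1254467 6532 .leaf)))))))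

def c5 : NatMap := (.node (.node (.node (.node (.node (.node (.node (.node .leaf 1254469 6661 .leaf) 1254694 2693 (.node .leaf 1254707 2753 .leaf)) 1254708 5188 (.node (.node .leaf 1254709 6660 .leaf) 1254710 4934 (.node .leaf 1254723 6660 .leaf))) 1254725 6660 (.node (.node (.node .leaf 1254726 6918 .leaf) 1254727 8966 (.node .leaf 1254741 8966 .leaf)) 1254742 8966 (.node (.node .leaf 1254743 8966 .leaf) 1254758 11018 .leaf))) 1254759 11018 (.node (.node (.node (.node .leaf 1254934 2693 .leaf) 1254951 6918 (.node .leaf 1254963 2881 .leaf)) 1254965 6660 (.node (.node .leaf 1254967 6918 .leaf) 1254979 6660 .leaf)) 1254980 6660 (.node (.node (.node .leaf 1254981 6660 .leaf) 1254982 6918 (.node .leaf 1254983 6918 .leaf)) 1254996 8710 (.node (.node .leaf 1254997 8710 .leaf) 1254998 8966 .leaf)))) 1254999 8966 (.node (.node (.node (.node (.node .leaf 1255014 11144 .leaf) 1255015 11144 (.node .leaf 1255190 2693 .leaf)) 1255191 2823 (.node (.node .leaf 1255219 3009 .leaf) 1255220 5188 .leaf)) 1255221 6660 (.node (.node (.node .leaf 1255222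 4934 .leaf) 1255223 6918 (.node .leaf 1255224 7048 .leaf)) 1255235 6660 (.node (.node .leaf 1255236 6660 .leaf) 1255237 6660 .leaf))) 1255238 6790 (.node (.node (.node (.node .leaf 1255239 8966 .leaf) 1255240 7176 (.node .leaf 1255253 8966 .leaf)) 1255254 8966 (.node (.node .leaf 1255255 8966 .leaf) 1255256 9224 .leaf)) 1255270 10888 (.node (.node (.node .leaf 1255287 13322 .leaf) 1255441 5074 (.node .leaf 1255475 3137 .leaf)) 1255477 6660 (.node (.node .leaf 1255478 4934 .leaf) 1255491 6660 .leaf))))) 1255493 6660 (.node (.node (.node (.node (.node (.node .leaf 1255494 6790 .leaf) 1255509 8838 (.node .leaf 1255702 2693 .leaf)) 1255731 3265 (.node (.node .leaf 1255733 6660 .leaf) 1255734 4934 .leaf)) 1255747 6660 (.node (.node (.node .leaf 1255750 6918 .leaf) 1255783 11144 (.node .leaf 1258533 4677 .leaf)) 1258547 6402 (.node (.node .leaf 1258549 4678 .leaf) 1258562 6402 .leaf))) 1258563 6402 (.node (.node (.node (.node .leaf 1258564 6532 .leaf) 1258565 6791 (.node .leaf 1258566 6791 .leaf)) 1258769 4824 (.node (.node .leaf 1258789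 6661 .leaf) 1258790 4806 .leaf)) 1258803 2753 (.node (.node (.node .leaf 1258804 6532 .leaf) 1258806 4806 (.node .leaf 1258822 4806 .leaf)) 1258823 6920 (.node (.node .leaf 1258838 8969 .leaf) 1258839 8969 .leaf)))) 1258854 11146 (.node (.node (.node (.node (.node .leaf 1258855 11146 .leaf) 1259029 4933 (.node .leaf 1259045 6661 .leaf)) 1259046 2695 (.node (.node .leaf 1259059 2881 .leaf) 1259060 6532 .leaf)) 1259061 6661 (.node (.node (.node .leaf 1259063 4936 .leaf) 1259075 6532 (.node .leaf 1259076 6532 .leaf)) 1259078 4934 (.node (.node .leaf 1259093 4936 .leaf) 1259095 4936 .leaf))) 1259110 10890 (.node (.node (.node (.node .leaf 1259111 11147 .leaf) 1259285 5061 (.node .leaf 1259286 5063 .leaf)) 1259301 6661 (.node (.node .leaf 1259302 2695 .leaf) 1259303 4872 .leaf)) 1259315 3009 (.node (.node (.node .leaf 1259316 6532 .leaf) 1259317 6661 (.node .leaf 1259320 5064 .leaf)) 1259332 6532 (.node (.node .leaf 1259333 6661 .leaf) 1259335 5064 .leaf)))))) 1259336 5064 (.node (.node (.node (.node (.node (.node (.node .leaf 1259349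 5064 .leaf) 1259352 5064 (.node .leaf 1259366 10890 .leaf)) 1259537 5204 (.node (.node .leaf 1259557 6661 .leaf) 1259558 4743 .leaf)) 1259571 3137 (.node (.node (.node .leaf 1259572 5188 .leaf) 1259573 6661 (.node .leaf 1259589 6661 .leaf)) 1259590 5190 (.node (.node .leaf 1259605 5192 .leaf) 1259793 5335 .leaf))) 1259813 6661 (.node (.node (.node (.node .leaf 1259827 3265 .leaf) 1259828 6532 (.node .leaf 1261875 2241 .leaf)) 1262132 20802 (.node (.node .leaf 1262629 4677 .leaf) 1262643 6402 .leaf)) 1262644 8514 (.node (.node (.node .leaf 1262646 4743 .leaf) 1262658 6402 (.node .leaf 1262659 6402 .leaf)) 1262661 6662 (.node (.node .leaf 1262676 8582 .leaf) 1262677 10759 .leaf)))) 1262678 8841 (.node (.node (.node (.node (.node .leaf 1262693 10759 .leaf) 1262885 6662 (.node .leaf 1262886 4806 .leaf)) 1262899 2753 (.node (.node .leaf 1262900 8514 .leaf) 1262901 6662 .leaf)) 1262902 4806 (.node (.node (.node .leaf 1262914 6531 .leaf) 1262915 6531 (.node .leaf 1262916 6531 .leaf)) 1262918 4806 (.node (.node .leaf 1262932 8775 .leaf) 1262933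 10761 .leaf))) 1262934 4810 (.node (.node (.node (.node .leaf 1262935 6858 .leaf) 1262950 10890 (.node .leaf 1262951 11019 .leaf)) 1263141 6662 (.node (.node .leaf 1263142 4743 .leaf) 1263155 2881 .leaf)) 1263156 8514 (.node (.node (.node .leaf 1263157 6662 .leaf) 1263158 4743 (.node .leaf 1263172 6531 .leaf)) 1263173 6662 (.node (.node .leaf 1263189 4936 .leaf) 1263381 5061 .leaf))))) 1263398 2695 (.node (.node (.node (.node (.node (.node .leaf 1263411 3009 .leaf) 1263412 8514 (.node .leaf 1263413 5062 .leaf)) 1263414 5062 (.node (.node .leaf 1263415 4873 .leaf) 1263428 6531 .leaf)) 1263429 6662 (.node (.node (.node .leaf 1263667 3137 .leaf) 1263668 8514 (.node .leaf 1263669 5190 .leaf)) 1263670 5190 (.node (.node .leaf 1263685 5190 .leaf) 1263923 3265 .leaf))) 1263924 8514 (.node (.node (.node (.node .leaf 1263925 5318 .leaf) 1263926 5318 (.node .leaf 1263940 6531 .leaf)) 1265971 2241 (.node (.node .leaf 1265972 10562 .leaf) 1265973 6662 .leaf)) 1265986 6531 (.node (.node (.node .leaf 1265987 6531 .leaf) 1265988 6531 (.node .leaf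 1266228 20802 .leaf)) 1266499 6531 (.node (.node .leaf 1266739 6402 .leaf) 1266740 10562 .leaf)))) 1266741 4678 (.node (.node (.node (.node (.node .leaf 1266754 6402 .leaf) 1266755 6402 (.node .leaf 1266756 6531 .leaf)) 1266758 6792 (.node (.node .leaf 1266771 8582 .leaf) 1266786 10631 .leaf)) 1266788 10631 (.node (.node (.node .leaf 1266789 12809 .leaf) 1266790 14986 (.node .leaf 1266805 12809 .leaf)) 1266807 13068 (.node (.node .leaf 1266822 14986 .leaf) 1266995 2753 .leaf))) 1266996 10562 (.node (.node (.node (.node .leaf 1266997 6662 .leaf) 1266998 4806 (.node .leaf 1267010 6531 .leaf)) 1267011 6531 (.node (.node .leaf 1267012 6531 .leaf) 1267027 10823 .leaf)) 1267028 8584 (.node (.node (.node .leaf 1267044 10825 .leaf) 1267045 10761 (.node .leaf 1267046 10828 .leaf)) 1267047 4812 (.node (.node .leaf 1267061 10826 .leaf) 1267063 13197 .leaf)))))))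

def c6 : NatMap := (.node (.node (.node (.node (.node (.node (.node (.node .leaf 1267252 10562 .leaf) 1267253 6662 (.node .leaf 1267267 6531 .leaf)) 1267268 6531 (.node (.node .leaf 1267270 6793 .leaf) 1267284 4936 (.node .leaf 1267285 4936 .leaf))) 1267302 10890 (.node (.node (.node .leaf 1267319 10829 .leaf) 1267507 3009 (.node .leaf 1267508 10562 .leaf)) 1267509 5062 (.node (.node .leaf 1267510 5062 .leaf) 1267524 6531 .leaf))) 1267525 6662 (.node (.node (.node (.node .leaf 1267526 5062 .leaf) 1267763 3137 (.node .leaf 1267764 10562 .leaf)) 1267765 5190 (.node (.node .leaf 1267781 5190 .leaf) 1268019 3265 .leaf)) 1268020 10562 (.node (.node (.node .leaf 1268035 6531 .leaf) 1268036 6531 (.node .leaf 1270067 2241 .leaf)) 1270068 12610 (.node (.node .leaf 1270082 6531 .leaf) 1270083 6531 .leaf)))) 1270084 6531 (.node (.node (.node (.node (.node .leaf 1270324 20802 .leaf) 1270834 6722 (.node .leaf 1270850 6402 .leaf)) 1270851 6402 (.node (.node .leaf 1270867 8582 .leaf) 1270868 8582 .leaf)) 1270883 10631 (.node (.node (.node .leaf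 1270885 14858 .leaf) 1270900 12681 (.node .leaf 1270901 10826 .leaf)) 1270902 12939 (.node (.node .leaf 1270917 14858 .leaf) 1271090 12866 .leaf))) 1271091 2753 (.node (.node (.node (.node .leaf 1271106 6531 .leaf) 1271107 6531 (.node .leaf 1271123 12871 .leaf)) 1271140 10633 (.node (.node .leaf 1271143 8908 .leaf) 1271157 12811 .leaf)) 1271158 14988 (.node (.node (.node .leaf 1271347 2881 .leaf) 1271348 12610 (.node .leaf 1271349 6662 .leaf)) 1271362 6531 (.node (.node .leaf 1271363 6531 .leaf) 1271364 6531 .leaf))))) 1271365 6662 (.node (.node (.node (.node (.node (.node .leaf 1271380 4936 .leaf) 1271603 3009 (.node .leaf 1271604 12610 .leaf)) 1271605 5062 (.node (.node .leaf 1271620 6531 .leaf) 1271621 6662 .leaf)) 1271637 5064 (.node (.node (.node .leaf 1271654 10890 .leaf) 1271859 3137 (.node .leaf 1271860 12610 .leaf)) 1271861 5190 (.node (.node .leaf 1271875 6531 .leaf) 1271876 6531 .leaf))) 1274163 2241 (.node (.node (.node (.node .leaf 1274164 14658 .leaf) 1274178 6531 (.node .leaf 1274179 6531 .leaf)) 1274180 6531 (.node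 (.node .leaf 1274420 12610 .leaf) 1274930 12866 .leaf)) 1274931 6402 (.node (.node (.node .leaf 1274946 6402 .leaf) 1274947 6402 (.node .leaf 1274948 6531 .leaf)) 1274963 8582 (.node (.node .leaf 1274964 8582 .leaf) 1274979 10503 .leaf)))) 1274981 10826 (.node (.node (.node (.node (.node .leaf 1274995 12681 .leaf) 1274998 12939 (.node .leaf 1275012 14730 .leaf)) 1275014 10828 (.node (.node .leaf 1275186 14914 .leaf) 1275187 2753 .leaf)) 1275188 14658 (.node (.node (.node .leaf 1275202 6531 .leaf) 1275203 6531 (.node .leaf 1275204 6531 .leaf)) 1275219 14919 (.node (.node .leaf 1275221 8713 .leaf) 1275235 10633 .leaf))) 1275236 10633 (.node (.node (.node (.node .leaf 1275238 10890 .leaf) 1275252 12811 (.node .leaf 1275255 13069 .leaf)) 1275269 14860 (.node (.node .leaf 1275270 14925 .leaf) 1275442 14914 .leaf)) 1275444 14658 (.node (.node (.node .leaf 1275458 6531 .leaf) 1275459 6531 (.node .leaf 1275460 6531 .leaf)) 1275475 14919 (.node (.node .leaf 1275476 4936 .leaf) 1275492 10762 .leaf)))))) 1275509 12812 (.node (.node (.node (.node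 (.node (.node (.node .leaf 1275526 14925 .leaf) 1275699 3009 (.node .leaf 1275700 14658 .leaf)) 1275715 6531 (.node (.node .leaf 1275716 6531 .leaf) 1275733 5064 .leaf)) 1275954 14914 (.node (.node (.node .leaf 1275956 14658 .leaf) 1275971 6531 (.node .leaf 1275972 6531 .leaf)) 1278259 2241 (.node (.node .leaf 1278516 12610 .leaf) 1278993 6745 .leaf))) 1279026 14914 (.node (.node (.node (.node .leaf 1279042 6402 .leaf) 1279043 6402 (.node .leaf 1279059 8582 .leaf)) 1279060 8582 (.node (.node .leaf 1279075 10631 .leaf) 1279092 12681 .leaf)) 1279283 2753 (.node (.node (.node .leaf 1279298 6531 .leaf) 1279299 6531 (.node .leaf 1279315 16967 .leaf)) 1279332 10633 (.node (.node .leaf 1279348 12811 .leaf) 1279538 16962 .leaf)))) 1279540 16706 (.node (.node (.node (.node (.node .leaf 1279554 6531 .leaf) 1279555 6531 (.node .leaf 1279556 6531 .leaf)) 1279571 16967 (.node (.node .leaf 1279572 4936 .leaf) 1279588 10762 .leaf)) 1279795 3009 (.node (.node (.node .leaf 1279796 16706 .leaf) 1279810 6531 (.node .leaf 1279812 6531 .leaf)) 1280050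 16962 (.node (.node .leaf 1280052 16706 .leaf) 1280067 6531 .leaf))) 1280068 6531 (.node (.node (.node (.node .leaf 1280307 3265 .leaf) 1280308 16706 (.node .leaf 1280323 6531 .leaf)) 1280324 6531 (.node (.node .leaf 1282355 2241 .leaf) 1282612 10562 .leaf)) 1283122 16962 (.node (.node (.node .leaf 1283138 6402 .leaf) 1283155 8454 (.node .leaf 1283171 10631 .leaf)) 1283187 12681 (.node (.node .leaf 1283188 12681 .leaf) 1283203 14730 .leaf))))) 1283204 14730 (.node (.node (.node (.node (.node (.node .leaf 1283221 17037 .leaf) 1283379 2753 (.node .leaf 1283394 6531 .leaf)) 1283395 6531 (.node (.node .leaf 1283411 19015 .leaf) 1283427 10633 .leaf)) 1283428 10633 (.node (.node (.node .leaf 1283444 12811 .leaf) 1283459 14860 (.node .leaf 1283476 16782 .leaf)) 1283635 2881 (.node (.node .leaf 1283636 18754 .leaf) 1283650 6531 .leaf))) 1283652 6531 (.node (.node (.node (.node .leaf 1283667 19015 .leaf) 1283669 4936 (.node .leaf 1283684 10890 .leaf)) 1283700 12812 (.node (.node .leaf 1283717 19021 .leaf) 1283891 3009 .leaf)) 1283892 18754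 (.node (.node (.node .leaf 1283906 6531 .leaf) 1283907 6531 (.node .leaf 1283908 6531 .leaf)) 1286451 2241 (.node (.node .leaf 1286708 14658 .leaf) 1287218 16962 .leaf)))) 1287234 6402 (.node (.node (.node (.node (.node .leaf 1287235 6402 .leaf) 1287251 8582 (.node .leaf 1287267 10631 .leaf)) 1287283 12681 (.node (.node .leaf 1287299 14730 .leaf) 1287474 21058 .leaf)) 1287475 2753 (.node (.node (.node .leaf 1287490 6531 .leaf) 1287491 6531 (.node .leaf 1287506 21063 .leaf)) 1287507 21063 (.node (.node .leaf 1287523 10633 .leaf) 1287524 10633 .leaf))) 1287540 12811 (.node (.node (.node (.node .leaf 1287731 2881 .leaf) 1287732 20802 (.node .leaf 1287746 6531 .leaf)) 1287747 6531 (.node (.node .leaf 1287748 6531 .leaf) 1287763 21063 .leaf)) 1287764 4936 (.node (.node (.node .leaf 1287780 10762 .leaf) 1287986 21058 (.node .leaf 1287988 20802 .leaf)) 1288002 6531 (.node (.node .leaf 1288004 6531 .leaf) 1290547 2241 .leaf)))))))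

def c7 : NatMap := (.node (.node (.node (.node (.node (.node (.node (.node .leaf 1291281 6745 .leaf) 1291314 14914 (.node .leaf 1291330 6402 .leaf)) 1291347 8454 (.node (.node .leaf 1291363 10631 .leaf) 1291537 4824 (.node .leaf 1291570 23106 .leaf))) 1291571 2753 (.node (.node (.node .leaf 1291586 6531 .leaf) 1291587 6531 (.node .leaf 1291602 23111 .leaf)) 1291603 23111 (.node (.node .leaf 1291619 10633 .leaf) 1291620 10633 .leaf))) 1291636 12811 (.node (.node (.node (.node .leaf 1291826 23106 .leaf) 1291828 22850 (.node .leaf 1291842 6531 .leaf)) 1291843 6531 (.node (.node .leaf 1291844 6531 .leaf) 1291860 4936 .leaf)) 1292082 23106 (.node (.node (.node .leaf 1292084 22850 .leaf) 1292098 6531 (.node .leaf 1292100 6531 .leaf)) 1292594 23106 (.node (.node .leaf 1292596 22850 .leaf) 1292611 6531 .leaf)))) 1292612 6531 (.node (.node (.node (.node (.node .leaf 1320209 5207 .leaf) 1320230 6789 (.node .leaf 1320244 10947 .leaf)) 1320246 6789 (.node (.node .leaf 1320259 6661 .leaf) 1320262 6789 .leaf)) 1320278 5065 (.node (.node (.node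 .leaf 1320295 5323 .leaf) 1320487 2822 (.node .leaf 1320500 2881 .leaf)) 1320501 4805 (.node (.node .leaf 1320502 6789 .leaf) 1320503 5063 .leaf))) 1320516 6789 (.node (.node (.node (.node .leaf 1320518 6789 .leaf) 1320532 8711 (.node .leaf 1320533 8711 .leaf)) 1320535 9095 (.node (.node .leaf 1320721 4369 .leaf) 1320726 5318 .leaf)) 1320727 2822 (.node (.node (.node .leaf 1320744 7047 .leaf) 1320755 6663 (.node .leaf 1320756 3009 .leaf)) 1320757 4805 (.node (.node .leaf 1320758 6789 .leaf) 1320759 6919 .leaf))))) 1320760 7047 (.node (.node (.node (.node (.node (.node .leaf 1320772 6789 .leaf) 1320773 6789 (.node .leaf 1320774 6789 .leaf)) 1320775 6919 (.node (.node .leaf 1320776 7047 .leaf) 1320789 8711 .leaf)) 1320792 9095 (.node (.node (.node .leaf 1320808 11273 .leaf) 1320977 2323 (.node .leaf 1320994 6542 .leaf)) 1321012 3137 (.node (.node .leaf 1321013 4805 .leaf) 1321014 6789 .leaf))) 1321029 6789 (.node (.node (.node (.node .leaf 1321030 6789 .leaf) 1321031 8967 (.node .leaf 1321045 8967 .leaf)) 1321047 8967 (.node (.node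 .leaf 1321233 4374 .leaf) 1321239 2822 .leaf)) 1321268 3265 (.node (.node (.node .leaf 1321269 4805 .leaf) 1321270 6789 (.node .leaf 1321287 8967 .leaf)) 1321303 8967 (.node (.node .leaf 1324305 4375 .leaf) 1324326 4806 .leaf)))) 1324327 6920 (.node (.node (.node (.node (.node .leaf 1324339 8898 .leaf) 1324340 6530 (.node .leaf 1324342 4807 .leaf)) 1324358 6920 (.node (.node .leaf 1324359 6920 .leaf) 1324374 8969 .leaf)) 1324375 8969 (.node (.node (.node .leaf 1324582 6791 .leaf) 1324583 4935 (.node .leaf 1324595 6850 .leaf)) 1324596 2881 (.node (.node .leaf 1324597 6661 .leaf) 1324599 4935 .leaf))) 1324612 6661 (.node (.node (.node (.node .leaf 1324613 6661 .leaf) 1324614 6791 (.node .leaf 1324615 4935 .leaf)) 1324629 8713 (.node (.node .leaf 1324631 6858 .leaf) 1324647 11147 .leaf)) 1324822 5062 (.node (.node (.node .leaf 1324823 5064 .leaf) 1324838 6791 (.node .leaf 1324839 4872 .leaf)) 1324851 6850 (.node (.node .leaf 1324852 3009 .leaf) 1324853 6661 .leaf)))))) 1324856 5065 (.node (.node (.node (.node (.node (.node (.node .leaf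 1324868 6661 .leaf) 1324869 6661 (.node .leaf 1324872 5065 .leaf)) 1324885 5065 (.node (.node .leaf 1324888 5065 .leaf) 1324902 10891 .leaf)) 1325073 5207 (.node (.node (.node .leaf 1325090 6546 .leaf) 1325094 6791 (.node .leaf 1325107 6850 .leaf)) 1325108 3137 (.node (.node .leaf 1325109 6661 .leaf) 1325124 6661 .leaf))) 1325125 6661 (.node (.node (.node (.node .leaf 1325126 6791 .leaf) 1325141 5193 (.node .leaf 1325329 4377 .leaf)) 1325346 6549 (.node (.node .leaf 1325363 6850 .leaf) 1325364 3265 .leaf)) 1325365 6661 (.node (.node (.node .leaf 1325380 6661 .leaf) 1325381 6661 (.node .leaf 1325382 5319 .leaf)) 1327668 2369 (.node (.node .leaf 1327925 10690 .leaf) 1328180 8899 .leaf)))) 1328418 6530 (.node (.node (.node (.node (.node .leaf 1328422 4806 .leaf) 1328435 19138 (.node .leaf 1328436 6530 .leaf)) 1328437 8642 (.node (.node .leaf 1328439 6921 .leaf) 1328451 6530 .leaf)) 1328452 6530 (.node (.node (.node .leaf 1328454 6792 .leaf) 1328468 8584 (.node .leaf 1328469 10761 .leaf)) 1328470 8970 (.node (.node .leaf 1328471 8970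 .leaf) 1328486 10890 .leaf))) 1328487 11019 (.node (.node (.node (.node .leaf 1328678 6792 .leaf) 1328691 8898 (.node .leaf 1328692 2881 .leaf)) 1328693 8642 (.node (.node .leaf 1328694 6792 .leaf) 1328708 6659 .leaf)) 1328709 6659 (.node (.node (.node .leaf 1328711 4935 .leaf) 1328726 10890 (.node .leaf 1328727 4939 .leaf)) 1328934 6792 (.node (.node .leaf 1328947 8898 .leaf) 1328948 3009 .leaf))))) 1328949 8642 (.node (.node (.node (.node (.node (.node .leaf 1328950 5063 .leaf) 1328951 4873 (.node .leaf 1328964 6659 .leaf)) 1328965 6659 (.node (.node .leaf 1328966 5063 .leaf) 1328982 5065 .leaf)) 1329205 8642 (.node (.node (.node .leaf 1329206 5191 .leaf) 1329221 6659 (.node .leaf 1329222 5191 .leaf)) 1329459 8898 (.node (.node .leaf 1329461 8642 .leaf) 1329462 5319 .leaf))) 1329476 6659 (.node (.node (.node (.node .leaf 1329477 6659 .leaf) 1329478 5319 (.node .leaf 1331507 10946 .leaf)) 1331508 2241 (.node (.node .leaf 1331509 10690 .leaf) 1331523 6659 .leaf)) 1331524 6659 (.node (.node (.node .leaf 1331525 6659 .leaf) 1331764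 2369 (.node .leaf 1332019 10946 .leaf)) 1332021 8642 (.node (.node .leaf 1332036 6786 .leaf) 1332531 6850 .leaf)))) 1332532 6530 (.node (.node (.node (.node (.node .leaf 1332533 10690 .leaf) 1332534 4807 (.node .leaf 1332547 6530 .leaf)) 1332548 6530 (.node (.node .leaf 1332563 8456 .leaf) 1332564 8584 .leaf)) 1332580 10761 (.node (.node (.node .leaf 1332581 10761 .leaf) 1332582 14988 (.node .leaf 1332583 8908 .leaf)) 1332597 12811 (.node (.node .leaf 1332599 13069 .leaf) 1332787 10946 .leaf))) 1332788 2881 (.node (.node (.node (.node .leaf 1332789 10690 .leaf) 1332803 6659 (.node .leaf 1332804 6659 .leaf)) 1332805 6659 (.node (.node .leaf 1332820 10953 .leaf) 1332821 8713 .leaf)) 1332837 10762 (.node (.node (.node .leaf 1332838 10890 .leaf) 1332855 13070 (.node .leaf 1333043 10946 .leaf)) 1333044 3009 (.node (.node .leaf 1333045 10690 .leaf) 1333046 5063 .leaf)))))))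

def c8 : NatMap := (.node (.node (.node (.node (.node (.node (.node (.node .leaf 1333061 6659 .leaf) 1333077 5065 (.node .leaf 1333080 5065 .leaf)) 1333301 10690 (.node (.node .leaf 1333317 6659 .leaf) 1333318 5191 (.node .leaf 1333555 10946 .leaf))) 1333557 10690 (.node (.node (.node .leaf 1333571 6659 .leaf) 1333572 6659 (.node .leaf 1333573 6659 .leaf)) 1335603 12994 (.node (.node .leaf 1335605 12738 .leaf) 1335619 6659 .leaf))) 1335620 6659 (.node (.node (.node (.node .leaf 1335621 6659 .leaf) 1335860 2369 (.node .leaf 1336627 10946 .leaf)) 1336643 6530 (.node (.node .leaf 1336659 8584 .leaf) 1336676 10633 .leaf)) 1336679 8908 (.node (.node (.node .leaf 1336693 12811 .leaf) 1336694 14988 (.node .leaf 1336883 12994 .leaf)) 1336884 2881 (.node (.node .leaf 1336885 12738 .leaf) 1336899 6659 .leaf)))) 1336900 6659 (.node (.node (.node (.node (.node .leaf 1336901 6659 .leaf) 1336916 8713 (.node .leaf 1336919 6987 .leaf)) 1336932 10762 (.node (.node .leaf 1336933 10762 .leaf) 1337139 12994 .leaf)) 1337140 3009 (.node (.node (.node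 .leaf 1337141 12738 .leaf) 1337156 6659 (.node .leaf 1337157 6659 .leaf)) 1337173 5065 (.node (.node .leaf 1337190 10891 .leaf) 1337395 12994 .leaf))) 1337397 12738 (.node (.node (.node (.node .leaf 1337411 6659 .leaf) 1337412 6659 (.node .leaf 1337413 6659 .leaf)) 1339699 15042 (.node (.node .leaf 1339701 14786 .leaf) 1339715 6659 .leaf)) 1339716 6659 (.node (.node (.node .leaf 1339717 6659 .leaf) 1339956 2369 (.node .leaf 1340723 12994 .leaf)) 1340725 14786 (.node (.node .leaf 1340739 6530 .leaf) 1340740 6530 .leaf))))) 1340741 6659 (.node (.node (.node (.node (.node (.node .leaf 1340755 8456 .leaf) 1340757 8713 (.node .leaf 1340772 10633 .leaf)) 1340774 10891 (.node (.node .leaf 1340788 12811 .leaf) 1340791 13069 .leaf)) 1340805 14860 (.node (.node (.node .leaf 1340979 15042 .leaf) 1340980 2881 (.node .leaf 1340995 6659 .leaf)) 1340996 6659 (.node (.node .leaf 1341011 15049 .leaf) 1341012 8713 .leaf))) 1341013 8713 (.node (.node (.node (.node .leaf 1341028 10762 .leaf) 1341045 12814 (.node .leaf 1341062 15055 .leaf)) 1341235 15042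 (.node (.node .leaf 1341237 14786 .leaf) 1341251 6659 .leaf)) 1341252 6659 (.node (.node (.node .leaf 1341253 6659 .leaf) 1341269 8713 (.node .leaf 1341286 10891 .leaf)) 1341491 15042 (.node (.node .leaf 1341493 14786 .leaf) 1341507 6659 .leaf)))) 1341508 6659 (.node (.node (.node (.node (.node .leaf 1341509 6659 .leaf) 1344052 2369 (.node .leaf 1344819 15042 .leaf)) 1344835 6530 (.node (.node .leaf 1344851 8456 .leaf) 1344868 10633 .leaf)) 1344884 12811 (.node (.node (.node .leaf 1345075 17090 .leaf) 1345076 2881 (.node .leaf 1345091 6659 .leaf)) 1345092 6659 (.node (.node .leaf 1345107 17097 .leaf) 1345108 8713 .leaf))) 1345124 10762 (.node (.node (.node (.node .leaf 1345331 17090 .leaf) 1345333 16834 (.node .leaf 1345348 6659 .leaf)) 1345349 6659 (.node (.node .leaf 1345587 17090 .leaf) 1345589 16834 .leaf)) 1345603 6659 (.node (.node (.node .leaf 1345604 6659 .leaf) 1345605 6659 (.node .leaf 1345843 17090 .leaf)) 1345845 16834 (.node (.node .leaf 1345859 6659 .leaf) 1345860 6659 .leaf)))))) 1345861 6659 (.node (.node (.node (.node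 (.node (.node (.node .leaf 1348148 2369 .leaf) 1348915 23234 (.node .leaf 1348931 6530 .leaf)) 1348947 8456 (.node (.node .leaf 1348963 10633 .leaf) 1348964 10633 .leaf)) 1348980 12811 (.node (.node (.node .leaf 1348995 14860 .leaf) 1349012 16782 (.node .leaf 1349171 19138 .leaf)) 1349172 2881 (.node (.node .leaf 1349188 6659 .leaf) 1349203 19145 .leaf))) 1349205 8713 (.node (.node (.node (.node .leaf 1349220 10890 .leaf) 1349236 19148 (.node .leaf 1349253 14863 .leaf)) 1349427 19138 (.node (.node .leaf 1349429 18882 .leaf) 1349443 6659 .leaf)) 1349444 6659 (.node (.node (.node .leaf 1349445 6659 .leaf) 1352244 2369 (.node .leaf 1353011 12994 .leaf)) 1353027 6530 (.node (.node .leaf 1353042 8456 .leaf) 1353043 8456 .leaf)))) 1353059 10633 (.node (.node (.node (.node (.node .leaf 1353060 10633 .leaf) 1353076 12811 (.node .leaf 1353267 21186 .leaf)) 1353268 2881 (.node (.node .leaf 1353283 6659 .leaf) 1353284 6659 .leaf)) 1353299 21193 (.node (.node (.node .leaf 1353300 8713 .leaf) 1353316 10762 (.node .leaf 1353332 21196 .leaf)) 1353523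 21186 (.node (.node .leaf 1353525 20930 .leaf) 1353540 6659 .leaf))) 1353541 6659 (.node (.node (.node (.node .leaf 1356340 2369 .leaf) 1357073 6877 (.node .leaf 1357090 6530 .leaf)) 1357107 19138 (.node (.node .leaf 1357123 6530 .leaf) 1357138 8584 .leaf)) 1357139 8584 (.node (.node (.node .leaf 1357155 10633 .leaf) 1357156 10633 (.node .leaf 1357172 12683 .leaf)) 1357363 23234 (.node (.node .leaf 1357364 2881 .leaf) 1357379 6659 .leaf))))) 1357380 6659 (.node (.node (.node (.node (.node (.node .leaf 1357396 8713 .leaf) 1357412 10762 (.node .leaf 1357619 23234 .leaf)) 1357621 22978 (.node (.node .leaf 1357636 6659 .leaf) 1357637 6659 .leaf)) 1357877 22978 (.node (.node (.node .leaf 1358131 23234 .leaf) 1358133 22978 (.node .leaf 1358147 6659 .leaf)) 1358148 6659 (.node (.node .leaf 1358149 6659 .leaf) 1386023 6918 .leaf))) 1386037 11075 (.node (.node (.node (.node .leaf 1386039 6918 .leaf) 1386052 6790 (.node .leaf 1386055 6918 .leaf)) 1386071 5194 (.node (.node .leaf 1386263 5319 .leaf) 1386274 6544 .leaf)) 1386280 2951 (.node (.node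 (.node .leaf 1386292 6790 .leaf) 1386293 3009 (.node .leaf 1386294 6790 .leaf)) 1386295 6918 (.node (.node .leaf 1386296 5128 .leaf) 1386308 6790 .leaf)))) 1386309 6790 (.node (.node (.node (.node (.node .leaf 1386310 6918 .leaf) 1386311 6918 (.node .leaf 1386312 9096 .leaf)) 1386325 8840 (.node (.node .leaf 1386326 8840 .leaf) 1386328 9224 .leaf)) 1386513 4374 (.node (.node (.node .leaf 1386514 4498 .leaf) 1386547 6669 (.node .leaf 1386548 8840 .leaf)) 1386549 3137 (.node (.node .leaf 1386550 4934 .leaf) 1386551 6918 .leaf))) 1386565 6918 (.node (.node (.node (.node .leaf 1386566 6918 .leaf) 1386581 8840 (.node .leaf 1386786 4501 .leaf)) 1386805 3265 (.node (.node .leaf 1386806 4934 .leaf) 1386807 6918 .leaf)) 1386822 6918 (.node (.node (.node .leaf 1386840 9096 .leaf) 1386855 11146 (.node .leaf 1390119 4935 .leaf)) 1390132 13122 (.node (.node .leaf 1390133 6658 .leaf) 1390135 4936 .leaf)))))))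

def c9 : NatMap := (.node (.node (.node (.node (.node (.node (.node (.node .leaf 1390149 6658 .leaf) 1390150 6790 (.node .leaf 1390151 7050 .leaf)) 1390167 8970 (.node (.node .leaf 1390359 5063 .leaf) 1390375 6857 (.node .leaf 1390376 5064 .leaf))) 1390388 6978 (.node (.node (.node .leaf 1390389 3009 .leaf) 1390390 5062 (.node .leaf 1390392 5064 .leaf)) 1390404 6790 (.node (.node .leaf 1390405 6790 .leaf) 1390406 6790 .leaf))) 1390407 5064 (.node (.node (.node (.node .leaf 1390408 5064 .leaf) 1390421 8842 (.node .leaf 1390424 9228 .leaf)) 1390438 10892 (.node (.node .leaf 1390626 6549 .leaf) 1390643 8721 .leaf)) 1390644 6978 (.node (.node (.node .leaf 1390645 3137 .leaf) 1390646 5190 (.node .leaf 1390660 6790 .leaf)) 1390661 6790 (.node (.node .leaf 1390662 6790 .leaf) 1390865 4379 .leaf)))) 1390882 6552 (.node (.node (.node (.node (.node .leaf 1390899 8724 .leaf) 1390900 6978 (.node .leaf 1390902 6790 .leaf)) 1390916 6790 (.node (.node .leaf 1390917 6790 .leaf) 1390918 6790 .leaf)) 1390919 5320 (.node (.node (.node .leaf 1393461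 2497 .leaf) 1393718 12866 (.node .leaf 1393973 9027 .leaf)) 1394228 6978 (.node (.node .leaf 1394229 6658 .leaf) 1394230 8770 .leaf))) 1394244 6658 (.node (.node (.node (.node .leaf 1394245 6658 .leaf) 1394247 6922 (.node .leaf 1394261 8713 .leaf)) 1394263 11019 (.node (.node .leaf 1394484 9026 .leaf) 1394485 3009 .leaf)) 1394486 8770 (.node (.node (.node .leaf 1394500 6787 .leaf) 1394501 6787 (.node .leaf 1394502 6787 .leaf)) 1394504 5064 (.node (.node .leaf 1394519 11019 .leaf) 1394520 5068 .leaf))))) 1394740 9026 (.node (.node (.node (.node (.node (.node .leaf 1394742 8770 .leaf) 1394757 6787 (.node .leaf 1394758 6787 .leaf)) 1394759 5192 (.node (.node .leaf 1394996 9026 .leaf) 1394998 8770 .leaf)) 1395012 6787 (.node (.node (.node .leaf 1395013 6787 .leaf) 1395014 6787 (.node .leaf 1397044 11074 .leaf)) 1397046 10818 (.node (.node .leaf 1397060 6787 .leaf) 1397061 6787 .leaf))) 1397557 2497 (.node (.node (.node (.node .leaf 1397572 6787 .leaf) 1397814 12866 (.node .leaf 1397829 6914 .leaf)) 1397830 6914 (.node (.node .leaf 1398324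 13122 .leaf) 1398340 6658 .leaf)) 1398341 6658 (.node (.node (.node .leaf 1398356 8585 .leaf) 1398357 8713 (.node .leaf 1398373 10762 .leaf)) 1398374 10890 (.node (.node .leaf 1398391 13070 .leaf) 1398580 11074 .leaf)))) 1398581 3009 (.node (.node (.node (.node (.node .leaf 1398582 10818 .leaf) 1398596 6787 (.node .leaf 1398597 6787 .leaf)) 1398613 8842 (.node (.node .leaf 1398616 5068 .leaf) 1398630 10891 .leaf)) 1398836 11074 (.node (.node (.node .leaf 1398838 10818 .leaf) 1398853 6787 (.node .leaf 1398854 6787 .leaf)) 1399092 11074 (.node (.node .leaf 1399094 10818 .leaf) 1399108 6787 .leaf))) 1399109 6787 (.node (.node (.node (.node .leaf 1399110 6787 .leaf) 1401140 13122 (.node .leaf 1401142 12866 .leaf)) 1401156 6787 (.node (.node .leaf 1401157 6787 .leaf) 1401653 2497 .leaf)) 1402420 11074 (.node (.node (.node .leaf 1402436 6658 .leaf) 1402437 6658 (.node .leaf 1402452 8713 .leaf)) 1402455 6987 (.node (.node .leaf 1402468 10762 .leaf) 1402469 10762 .leaf)))))) 1402675 13129 (.node (.node (.node (.node (.node (.node (.node .leaf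 1402676 13122 .leaf) 1402677 3009 (.node .leaf 1402692 6787 .leaf)) 1402693 6787 (.node (.node .leaf 1402709 8714 .leaf) 1402726 10891 .leaf)) 1402931 13129 (.node (.node (.node .leaf 1402932 13122 .leaf) 1402934 12866 (.node .leaf 1402948 6787 .leaf)) 1402949 6787 (.node (.node .leaf 1402950 6787 .leaf) 1405236 15170 .leaf))) 1405238 14914 (.node (.node (.node (.node .leaf 1405252 6787 .leaf) 1405253 6787 (.node .leaf 1405749 2497 .leaf)) 1406277 6787 (.node (.node .leaf 1406293 15178 .leaf) 1406516 13122 .leaf)) 1406532 6658 (.node (.node (.node .leaf 1406548 8713 .leaf) 1406564 10762 (.node .leaf 1406581 12814 .leaf)) 1406598 14991 (.node (.node .leaf 1406771 15177 .leaf) 1406772 15170 .leaf)))) 1406773 3009 (.node (.node (.node (.node (.node .leaf 1406788 6787 .leaf) 1406789 6787 (.node .leaf 1406805 8714 .leaf)) 1406822 10891 (.node (.node .leaf 1407028 15170 .leaf) 1407030 14914 .leaf)) 1407044 6787 (.node (.node (.node .leaf 1407045 6787 .leaf) 1407046 6787 (.node .leaf 1409845 2497 .leaf)) 1410612 6978 (.node (.node .leaf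 1410628 6658 .leaf) 1410644 8713 .leaf))) 1410660 10762 (.node (.node (.node (.node .leaf 1410868 17218 .leaf) 1410869 3009 (.node .leaf 1410884 6787 .leaf)) 1410885 6787 (.node (.node .leaf 1410901 8714 .leaf) 1411124 17218 .leaf)) 1411126 16962 (.node (.node (.node .leaf 1411140 6787 .leaf) 1411141 6787 (.node .leaf 1411142 6787 .leaf)) 1411157 5194 (.node (.node .leaf 1411380 17218 .leaf) 1411382 16962 .leaf))))) 1411396 6787 (.node (.node (.node (.node (.node (.node .leaf 1411397 6787 .leaf) 1411398 6787 (.node .leaf 1413941 2497 .leaf)) 1414708 11074 (.node (.node .leaf 1414724 6658 .leaf) 1414741 8713 .leaf)) 1414756 10890 (.node (.node (.node .leaf 1414772 21326 .leaf) 1414789 14862 (.node .leaf 1414964 19266 .leaf)) 1414965 3009 (.node (.node .leaf 1414980 6787 .leaf) 1414981 6787 .leaf))) 1414997 19274 (.node (.node (.node (.node .leaf 1415222 19010 .leaf) 1415478 19010 (.node .leaf 1418037 2497 .leaf)) 1418804 15170 (.node (.node .leaf 1418820 6658 .leaf) 1418836 8713 .leaf)) 1418852 10762 (.node (.node (.node .leaf 1419060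 21314 .leaf) 1419061 3009 (.node .leaf 1419076 6787 .leaf)) 1419077 6787 (.node (.node .leaf 1422133 2497 .leaf) 1422900 13122 .leaf)))) 1422916 6658 (.node (.node (.node (.node (.node .leaf 1422932 8713 .leaf) 1422948 10762 (.node .leaf 1423156 23362 .leaf)) 1423157 3009 (.node (.node .leaf 1423172 6787 .leaf) 1423173 6787 .leaf)) 1423414 23106 (.node (.node (.node .leaf 1423429 6787 .leaf) 1423430 6787 (.node .leaf 1423668 23362 .leaf)) 1423670 23106 (.node (.node .leaf 1423684 6787 .leaf) 1423685 6787 .leaf))) 1423686 6787 (.node (.node (.node (.node .leaf 1451816 7047 .leaf) 1451827 15311 (.node .leaf 1451829 9154 .leaf)) 1451830 9155 (.node (.node .leaf 1451832 7047 .leaf) 1451845 6919 .leaf)) 1451847 6919 (.node (.node (.node .leaf 1451848 7047 .leaf) 1451864 5323 (.node .leaf 1452066 6549 .leaf)) 1452067 6673 (.node (.node .leaf 1452084 6796 .leaf) 1452086 3137 .leaf)))))))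

def c10 : NatMap := (.node (.node (.node (.node (.node (.node (.node (.node .leaf 1452088 7047 .leaf) 1452101 6919 (.node .leaf 1452102 7047 .leaf)) 1452103 7047 (.node (.node .leaf 1452117 8969 .leaf) 1452119 8969 (.node .leaf 1452323 4628 .leaf))) 1452341 8969 (.node (.node (.node .leaf 1452342 3265 .leaf) 1452343 5063 (.node .leaf 1452358 7047 .leaf)) 1452359 7047 (.node (.node .leaf 1452375 8969 .leaf) 1455912 5064 .leaf))) 1455925 9154 (.node (.node (.node (.node .leaf 1455928 5065 .leaf) 1455941 6786 (.node .leaf 1455942 6786 .leaf)) 1455943 6919 (.node (.node .leaf 1455944 7179 .leaf) 1455957 8842 .leaf)) 1455960 9228 (.node (.node (.node .leaf 1456179 13396 .leaf) 1456181 7106 (.node .leaf 1456182 3137 .leaf)) 1456196 7119 (.node (.node .leaf 1456197 6919 .leaf) 1456198 6919 .leaf)))) 1456199 6919 (.node (.node (.node (.node (.node .leaf 1456418 6554 .leaf) 1456435 8727 (.node .leaf 1456437 7106 .leaf)) 1456439 5319 (.node (.node .leaf 1456452 7119 .leaf) 1456453 6919 .leaf)) 1456454 6919 (.node (.node (.node .leaf 1456455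 6919 .leaf) 1459254 2625 (.node .leaf 1459511 21186 .leaf)) 1459766 9155 (.node (.node .leaf 1460021 7106 .leaf) 1460037 6786 .leaf))) 1460038 6786 (.node (.node (.node (.node .leaf 1460040 11148 .leaf) 1460054 8842 (.node .leaf 1460056 11148 .leaf)) 1460277 9154 (.node (.node .leaf 1460278 3137 .leaf) 1460292 9162 .leaf)) 1460293 6915 (.node (.node (.node .leaf 1460294 6915 .leaf) 1460295 6915 (.node .leaf 1460309 8971 .leaf)) 1460533 9154 (.node (.node .leaf 1460535 8898 .leaf) 1460548 9162 .leaf))))) 1460549 6915 (.node (.node (.node (.node (.node (.node .leaf 1460550 6915 .leaf) 1460551 6915 (.node .leaf 1462581 11202 .leaf)) 1462597 6915 (.node (.node .leaf 1463093 11202 .leaf) 1463350 2625 .leaf)) 1463365 6915 (.node (.node (.node .leaf 1463607 8898 .leaf) 1463622 7042 (.node .leaf 1464117 9154 .leaf)) 1464133 6786 (.node (.node .leaf 1464149 8842 .leaf) 1464152 7117 .leaf))) 1464166 10891 (.node (.node (.node (.node .leaf 1464372 11210 .leaf) 1464373 11202 (.node .leaf 1464374 3137 .leaf)) 1464389 6915 (.node (.node .leaf 1464390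 6915 .leaf) 1464629 11202 .leaf)) 1464631 10946 (.node (.node (.node .leaf 1464645 6915 .leaf) 1464646 6915 (.node .leaf 1464647 6915 .leaf)) 1466677 13250 (.node (.node .leaf 1466693 6915 .leaf) 1467446 2625 .leaf)))) 1468213 7106 (.node (.node (.node (.node (.node .leaf 1468228 6786 .leaf) 1468229 6786 (.node .leaf 1468245 8714 .leaf)) 1468262 10891 (.node (.node .leaf 1468467 13263 .leaf) 1468469 13250 .leaf)) 1468470 3137 (.node (.node (.node .leaf 1468484 13258 .leaf) 1468485 6915 (.node .leaf 1468486 6915 .leaf)) 1468501 13259 (.node (.node .leaf 1470773 15298 .leaf) 1470789 6915 .leaf))) 1471542 2625 (.node (.node (.node (.node .leaf 1471797 15298 .leaf) 1471813 6915 (.node .leaf 1472309 13250 .leaf)) 1472324 6786 (.node (.node .leaf 1472325 6786 .leaf) 1472341 8714 .leaf)) 1472358 10891 (.node (.node (.node .leaf 1472565 15298 .leaf) 1472566 3137 (.node .leaf 1472567 15042 .leaf)) 1472581 6915 (.node (.node .leaf 1472582 6915 .leaf) 1475638 2625 .leaf)))))) 1476405 15298 (.node (.node (.node (.node (.node (.node (.node .leaf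 1476420 6786 .leaf) 1476421 6786 (.node .leaf 1476437 8714 .leaf)) 1476661 17346 (.node (.node .leaf 1476662 3137 .leaf) 1476676 17354 .leaf)) 1476677 6915 (.node (.node (.node .leaf 1476678 6915 .leaf) 1476693 17355 (.node .leaf 1476694 8971 .leaf)) 1476710 10892 (.node (.node .leaf 1476917 17346 .leaf) 1476919 17090 .leaf))) 1476932 17354 (.node (.node (.node (.node .leaf 1476933 6915 .leaf) 1476934 6915 (.node .leaf 1476935 6915 .leaf)) 1479734 2625 (.node (.node .leaf 1480501 11202 .leaf) 1480517 6786 .leaf)) 1480533 8842 (.node (.node (.node .leaf 1480757 19394 .leaf) 1480758 3137 (.node .leaf 1480774 6915 .leaf)) 1481015 19138 (.node (.node .leaf 1481030 6915 .leaf) 1481031 6915 .leaf)))) 1484597 17346 (.node (.node (.node (.node (.node .leaf 1484613 6786 .leaf) 1487926 2625 (.node .leaf 1488693 9154 .leaf)) 1488709 6786 (.node (.node .leaf 1488949 23490 .leaf) 1488950 3137 .leaf)) 1488965 6915 (.node (.node (.node .leaf 1488966 6915 .leaf) 1488982 8843 (.node .leaf 1489205 23490 .leaf)) 1489207 23234 (.node (.node .leaf 1489221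 6915 .leaf) 1489222 6915 .leaf))) 1489223 6915 (.node (.node (.node (.node .leaf 1517619 13396 .leaf) 1517620 11344 (.node .leaf 1517621 11339 .leaf)) 1517622 11330 (.node (.node .leaf 1517623 15427 .leaf) 1517638 7048 .leaf)) 1517860 6803 (.node (.node (.node .leaf 1517879 3265 .leaf) 1517880 5192 (.node .leaf 1517894 7048 .leaf)) 1517895 7048 (.node (.node .leaf 1517912 9098 .leaf) 1521718 11330 .leaf))))) 1521732 13392 (.node (.node (.node (.node (.node (.node .leaf 1521733 6914 .leaf) 1521734 6914 (.node .leaf 1521735 6914 .leaf)) 1521971 8729 (.node (.node .leaf 1521974 7234 .leaf) 1521975 3265 .leaf)) 1521988 7252 (.node (.node (.node .leaf 1521989 7248 .leaf) 1521990 7048 (.node .leaf 1521991 7048 .leaf)) 1521992 7048 (.node (.node .leaf 1525047 2753 .leaf) 1525814 7234 .leaf))) 1525830 6914 (.node (.node (.node (.node .leaf 1525831 6914 .leaf) 1525845 8843 (.node .leaf 1526070 9282 .leaf)) 1526071 3265 (.node (.node .leaf 1526084 9300 .leaf) 1526085 9291 .leaf)) 1526086 7043 (.node (.node (.node .leaf 1526087 7043 .leaf) 1528118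 11330 (.node .leaf 1528886 11330 .leaf)) 1529143 2753 (.node (.node .leaf 1529158 7043 .leaf) 1529910 9282 .leaf)))) 1529925 6914 (.node (.node (.node (.node (.node .leaf 1529926 6914 .leaf) 1530166 11330 (.node .leaf 1530167 3265 .leaf)) 1530182 7043 (.node (.node .leaf 1530183 7043 .leaf) 1532214 13378 .leaf)) 1534003 8720 (.node (.node (.node .leaf 1534006 9282 .leaf) 1534020 6795 (.node .leaf 1534022 6914 .leaf)) 1534037 8971 (.node (.node .leaf 1536310 15426 .leaf) 1537334 15426 .leaf))) 1537335 2753 (.node (.node (.node (.node .leaf 1538102 11330 .leaf) 1538118 6914 (.node .leaf 1541431 2753 .leaf)) 1542198 15426 (.node (.node .leaf 1542212 6795 .leaf) 1542214 6914 .leaf)) 1542229 8843 (.node (.node (.node .leaf 1542246 10892 .leaf) 1542454 17474 (.node .leaf 1542455 3265 .leaf)) 1542468 17488 (.node (.node .leaf 1542470 7043 .leaf) 1542471 7043 .leaf)))))))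

def c11 : NatMap := (.node (.node (.node (.node (.node (.node (.node (.node .leaf 1542486 17484 .leaf) 1545527 2753 (.node .leaf 1546294 9282 .leaf)) 1546310 6914 (.node (.node .leaf 1546549 19531 .leaf) 1546550 19522 (.node .leaf 1546551 3265 .leaf))) 1546566 7043 (.node (.node (.node .leaf 1546567 7043 .leaf) 1549623 2753 (.node .leaf 1553719 2753 .leaf)) 1554486 9282 (.node (.node .leaf 1554501 6914 .leaf) 1554502 6914 .leaf))) 1554742 23618 (.node (.node (.node (.node .leaf 1554743 3265 .leaf) 1554757 23627 (.node .leaf 1554758 7043 .leaf)) 1554759 7043 (.node (.node .leaf 1554774 23628 .leaf) 1583413 19666 .leaf)) 1583415 23746 (.node (.node (.node .leaf 1583431 7177 .leaf) 1587511 23746 (.node .leaf 1587524 17622 .leaf)) 1587525 23762 (.node (.node .leaf 1587526 7042 .leaf) 1587527 7042 .leaf)))) 1587528 7042 (.node (.node (.node (.node (.node .leaf 1591607 23746 .leaf) 1591623 7042 (.node .leaf 1594679 11458 .leaf)) 1595703 23746 (.node (.node .leaf 1595719 7042 .leaf) 1607991 23746 .leaf)) 1608004 10898 (.node (.node (.node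 .leaf 1608006 7042 .leaf) 1608007 7042 (.node .leaf 1608021 8972 .leaf)) 1608022 8972 (.node (.node .leaf 1612087 11458 .leaf) 1612102 7042 .leaf))) 1612103 7042 (.node (.node (.node (.node .leaf 1620279 11458 .leaf) 1620293 6924 (.node .leaf 1620295 7042 .leaf)) 1620310 9100 (.node (.node .leaf 2167363 6468 .leaf) 2167379 14661 .leaf)) 2167394 10566 (.node (.node (.node .leaf 2167395 8518 .leaf) 2167396 16711 (.node .leaf 2167410 10567 .leaf)) 2167411 18759 (.node (.node .leaf 2167412 12615 .leaf) 2167427 10568 .leaf))))) 2167428 10568 (.node (.node (.node (.node (.node (.node .leaf 2167635 8453 .leaf) 2167650 10632 (.node .leaf 2167652 10632 .leaf)) 2167666 12553 (.node (.node .leaf 2167668 12809 .leaf) 2167684 14858 .leaf)) 2167874 6530 (.node (.node (.node .leaf 2167891 8454 .leaf) 2167906 10632 (.node .leaf 2167940 14731 .leaf)) 2168115 2882 (.node (.node .leaf 2168116 6530 .leaf) 2168131 6530 .leaf))) 2168147 8582 (.node (.node (.node (.node .leaf 2168164 10633 .leaf) 2168371 3010 (.node .leaf 2168372 6530 .leaf)) 2171939 6722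 (.node (.node .leaf 2172195 6850 .leaf) 2172451 6978 .leaf)) 2172707 7106 (.node (.node (.node .leaf 2173219 7362 .leaf) 2175508 4482 (.node .leaf 2175540 4482 .leaf)) 2175556 8580 (.node (.node .leaf 2175796 4482 .leaf) 2175811 6468 .leaf)))) 2175812 6662 (.node (.node (.node (.node (.node .leaf 2176020 2434 .leaf) 2176035 6978 (.node .leaf 2176036 4482 .leaf)) 2176051 4482 (.node (.node .leaf 2176053 4613 .leaf) 2176066 4676 .leaf)) 2176070 6790 (.node (.node (.node .leaf 2176083 8582 .leaf) 2176275 4482 (.node .leaf 2176291 6466 .leaf)) 2176292 4482 (.node (.node .leaf 2176294 4742 .leaf) 2176307 4482 .leaf))) 2176308 4482 (.node (.node (.node (.node .leaf 2176310 4742 .leaf) 2176327 6920 (.node .leaf 2176343 9097 .leaf)) 2176358 7114 (.node (.node .leaf 2176359 11146 .leaf) 2176532 2434 .leaf)) 2176533 2565 (.node (.node (.node .leaf 2176547 6850 .leaf) 2176548 4482 (.node .leaf 2176550 2694 .leaf)) 2176563 4482 (.node (.node .leaf 2176579 6468 .leaf) 2176597 8712 .leaf)))))) 2176599 8969 (.node (.node (.node (.node (.node (.node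 (.node .leaf 2176614 7114 .leaf) 2176615 13066 (.node .leaf 2176788 2434 .leaf)) 2176789 2565 (.node (.node .leaf 2176803 7362 .leaf) 2176804 4482 .leaf)) 2176806 2694 (.node (.node (.node .leaf 2176807 4872 .leaf) 2176819 3010 (.node .leaf 2176824 5001 .leaf)) 2176839 8969 (.node (.node .leaf 2176853 8712 .leaf) 2176856 9098 .leaf))) 2176870 6986 (.node (.node (.node (.node .leaf 2177059 7106 .leaf) 2177060 2434 (.node .leaf 2177061 4613 .leaf)) 2177075 3138 (.node (.node .leaf 2177076 4482 .leaf) 2177299 7234 .leaf)) 2177300 2434 (.node (.node (.node .leaf 2177316 2434 .leaf) 2177331 4482 (.node .leaf 2179619 8385 .leaf)) 2179635 9155 (.node (.node .leaf 2179636 4483 .leaf) 2179651 6468 .leaf)))) 2179666 8324 (.node (.node (.node (.node (.node .leaf 2179667 14661 .leaf) 2179685 10758 (.node .leaf 2179875 8385 .leaf)) 2179876 4483 (.node (.node .leaf 2179892 4483 .leaf) 2179906 6531 .leaf)) 2179922 8325 (.node (.node (.node .leaf 2179923 8453 .leaf) 2179924 8518 (.node .leaf 2179940 10631 .leaf)) 2179941 12808 (.node (.node .leaf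 2179942 12937 .leaf) 2180131 8385 .leaf))) 2180132 4483 (.node (.node (.node (.node .leaf 2180147 2626 .leaf) 2180148 4483 (.node .leaf 2180149 6726 .leaf)) 2180162 6531 (.node (.node .leaf 2180163 6531 .leaf) 2180165 6662 .leaf)) 2180166 8839 (.node (.node (.node .leaf 2180178 8453 .leaf) 2180180 8518 (.node .leaf 2180181 8839 .leaf)) 2180182 8839 (.node (.node .leaf 2180197 8521 .leaf) 2180387 8385 .leaf))))) 2180388 6531 (.node (.node (.node (.node (.node (.node .leaf 2180403 2754 .leaf) 2180404 6531 (.node .leaf 2180405 6662 .leaf)) 2180418 6531 (.node (.node .leaf 2180419 6531 .leaf) 2180422 6791 .leaf)) 2180435 8453 (.node (.node (.node .leaf 2180438 8969 .leaf) 2180454 11018 (.node .leaf 2180455 11018 .leaf)) 2180471 13068 (.node (.node .leaf 2180643 8385 .leaf) 2180644 4483 .leaf))) 2180645 6662 (.node (.node (.node (.node .leaf 2180659 2882 .leaf) 2180660 4483 (.node .leaf 2180661 6662 .leaf)) 2180677 6662 (.node (.node .leaf 2180694 8839 .leaf) 2180711 11019 .leaf)) 2180885 7110 (.node (.node (.node .leaf 2180899 8385 .leaf)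 2180900 6531 (.node .leaf 2180915 3010 .leaf)) 2180916 6531 (.node (.node .leaf 2180917 4614 .leaf) 2180918 6791 .leaf)))) 2180919 6921 (.node (.node (.node (.node (.node .leaf 2181155 8385 .leaf) 2181156 6531 (.node .leaf 2181171 3138 .leaf)) 2181173 4614 (.node (.node .leaf 2181411 8385 .leaf) 2181412 4483 .leaf)) 2181427 3266 (.node (.node (.node .leaf 2181429 4614 .leaf) 2183715 10433 (.node .leaf 2183732 6531 .leaf)) 2183747 6531 (.node (.node .leaf 2183748 6531 .leaf) 2183761 8324 .leaf))) 2183778 10629 (.node (.node (.node (.node .leaf 2183779 10629 .leaf) 2183780 10629 (.node .leaf 2183781 10757 .leaf)) 2183782 12935 (.node (.node .leaf 2183795 12550 .leaf) 2183797 12935 .leaf)) 2183798 14983 (.node (.node (.node .leaf 2183812 14727 .leaf) 2183814 14983 (.node .leaf 2183971 10433 .leaf)) 2184002 6531 (.node (.node .leaf 2184003 6531 .leaf) 2184018 8581 .leaf)))))))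

def c12 : NatMap := (.node (.node (.node (.node (.node (.node (.node (.node .leaf 2184034 10566 .leaf) 2184035 10567 (.node .leaf 2184036 10567 .leaf)) 2184037 10567 (.node (.node .leaf 2184038 12938 .leaf) 2184051 10567 (.node .leaf 2184052 10567 .leaf))) 2184054 12938 (.node (.node (.node .leaf 2184055 13067 .leaf) 2184068 10568 (.node .leaf 2184227 10433 .leaf)) 2184228 6531 (.node (.node .leaf 2184243 2626 .leaf) 2184244 6531 .leaf))) 2184258 6531 (.node (.node (.node (.node .leaf 2184259 6531 .leaf) 2184260 6531 (.node .leaf 2184261 8775 .leaf)) 2184275 8453 (.node (.node .leaf 2184277 10567 .leaf) 2184292 10567 .leaf)) 2184293 10567 (.node (.node (.node .leaf 2184294 10890 .leaf) 2184309 10567 (.node .leaf 2184311 13068 .leaf)) 2184326 10571 (.node (.node .leaf 2184483 10433 .leaf) 2184484 6531 .leaf)))) 2184499 2754 (.node (.node (.node (.node (.node .leaf 2184500 6531 .leaf) 2184514 6531 (.node .leaf 2184515 6531 .leaf)) 2184517 6663 (.node (.node .leaf 2184531 8453 .leaf) 2184532 8582 .leaf)) 2184548 10567 (.node (.node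 (.node .leaf 2184549 10567 .leaf) 2184550 12939 (.node .leaf 2184566 12939 .leaf)) 2184567 6860 (.node (.node .leaf 2184739 10433 .leaf) 2184740 6531 .leaf))) 2184755 2882 (.node (.node (.node (.node .leaf 2184756 6531 .leaf) 2184757 4614 (.node .leaf 2184772 6531 .leaf)) 2184774 6793 (.node (.node .leaf 2184789 8713 .leaf) 2184806 6986 .leaf)) 2184823 6988 (.node (.node (.node .leaf 2184995 10433 .leaf) 2184996 4483 (.node .leaf 2185011 3010 .leaf)) 2185012 4483 (.node (.node .leaf 2185013 4614 .leaf) 2185030 6793 .leaf))))) 2185031 6922 (.node (.node (.node (.node (.node (.node .leaf 2185079 7116 .leaf) 2185251 10433 (.node .leaf 2185252 4483 .leaf)) 2185267 3138 (.node (.node .leaf 2185268 4483 .leaf) 2185269 4614 .leaf)) 2185507 10433 (.node (.node (.node .leaf 2185508 4483 .leaf) 2185523 3266 (.node .leaf 2187811 12481 .leaf)) 2187828 6531 (.node (.node .leaf 2187843 6531 .leaf) 2187844 6531 .leaf))) 2187845 6661 (.node (.node (.node (.node .leaf 2187857 8324 .leaf) 2187861 10757 (.node .leaf 2187875 10757 .leaf)) 2187876 10757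 (.node (.node .leaf 2187877 10757 .leaf) 2187892 12807 .leaf)) 2187893 12935 (.node (.node (.node .leaf 2187894 14983 .leaf) 2187895 15113 (.node .leaf 2187909 14983 .leaf)) 2188067 12481 (.node (.node .leaf 2188083 13251 .leaf) 2188098 6531 .leaf)))) 2188099 6531 (.node (.node (.node (.node (.node .leaf 2188100 6531 .leaf) 2188114 8325 (.node .leaf 2188117 12615 .leaf)) 2188132 12615 (.node (.node .leaf 2188133 12615 .leaf) 2188149 12615 .leaf)) 2188150 12617 (.node (.node (.node .leaf 2188166 12617 .leaf) 2188339 2626 (.node .leaf 2188354 6531 .leaf)) 2188355 6531 (.node (.node .leaf 2188356 6531 .leaf) 2188370 8453 .leaf))) 2188371 8453 (.node (.node (.node (.node .leaf 2188372 12613 .leaf) 2188387 10503 (.node .leaf 2188389 12615 .leaf)) 2188404 12615 (.node (.node .leaf 2188405 12615 .leaf) 2188406 12617 .leaf)) 2188595 2754 (.node (.node (.node .leaf 2188596 4483 .leaf) 2188610 6531 (.node .leaf 2188611 6531 .leaf)) 2188612 6531 (.node (.node .leaf 2188627 8453 .leaf) 2188644 10633 .leaf)))))) 2188647 6859 (.node (.node (.node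 (.node (.node (.node (.node .leaf 2188661 12615 .leaf) 2188835 12481 (.node .leaf 2188836 6531 .leaf)) 2188851 2882 (.node (.node .leaf 2188852 6531 .leaf) 2188866 6531 .leaf)) 2188867 6531 (.node (.node (.node .leaf 2188868 6531 .leaf) 2188883 8453 (.node .leaf 2188884 12613 .leaf)) 2188918 12617 (.node (.node .leaf 2189091 12481 .leaf) 2189092 6531 .leaf))) 2189107 3010 (.node (.node (.node (.node .leaf 2189108 6531 .leaf) 2189124 6531 (.node .leaf 2189347 12481 .leaf)) 2189348 4483 (.node (.node .leaf 2189363 3138 .leaf) 2189364 4483 .leaf)) 2191907 14529 (.node (.node (.node .leaf 2191924 6531 .leaf) 2191939 6531 (.node .leaf 2191940 6531 .leaf)) 2191953 8324 (.node (.node .leaf 2191957 10757 .leaf) 2191971 10629 .leaf)))) 2191972 10757 (.node (.node (.node (.node (.node .leaf 2191973 10757 .leaf) 2191974 10887 (.node .leaf 2191985 12422 .leaf)) 2191988 12935 (.node (.node .leaf 2191990 12935 .leaf) 2191991 13065 .leaf)) 2192002 14727 (.node (.node (.node .leaf 2192003 14855 .leaf) 2192004 14855 (.node .leaf 2192005 14855 .leaf))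 2192006 14983 (.node (.node .leaf 2192007 15113 .leaf) 2192019 16648 .leaf))) 2192020 17033 (.node (.node (.node (.node .leaf 2192022 17161 .leaf) 2192036 18825 (.node .leaf 2192163 14529 .leaf)) 2192179 14531 (.node (.node .leaf 2192194 6531 .leaf) 2192195 6531 .leaf)) 2192210 8581 (.node (.node (.node .leaf 2192226 10503 .leaf) 2192229 14663 (.node .leaf 2192242 12552 .leaf)) 2192244 14663 (.node (.node .leaf 2192246 14665 .leaf) 2192247 14667 .leaf))))) 2192259 14601 (.node (.node (.node (.node (.node (.node .leaf 2192261 14665 .leaf) 2192262 14665 (.node .leaf 2192263 14667 .leaf)) 2192275 14665 (.node (.node .leaf 2192276 14665 .leaf) 2192278 14665 .leaf)) 2192279 14667 (.node (.node (.node .leaf 2192292 14666 .leaf) 2192295 14667 (.node .leaf 2192435 2626 .leaf)) 2192450 6531 (.node (.node .leaf 2192451 6531 .leaf) 2192452 6531 .leaf))) 2192466 8453 (.node (.node (.node (.node .leaf 2192467 8453 .leaf) 2192468 14661 (.node .leaf 2192482 10503 .leaf)) 2192483 10503 (.node (.node .leaf 2192485 14663 .leaf) 2192499 12681 .leaf))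 2192516 14665 (.node (.node (.node .leaf 2192518 14665 .leaf) 2192691 2754 (.node .leaf 2192706 6531 .leaf)) 2192707 6531 (.node (.node .leaf 2192708 6531 .leaf) 2192723 8453 .leaf)))) 2192725 14663 (.node (.node (.node (.node (.node .leaf 2192739 14663 .leaf) 2192740 14663 (.node .leaf 2192742 14665 .leaf)) 2192773 14665 (.node (.node .leaf 2192931 14529 .leaf) 2192947 2882 .leaf)) 2192962 6531 (.node (.node (.node .leaf 2192963 6531 .leaf) 2192964 6531 (.node .leaf 2192979 8453 .leaf)) 2192980 14661 (.node (.node .leaf 2193187 14529 .leaf) 2193203 3010 .leaf))) 2193204 4483 (.node (.node (.node (.node .leaf 2193219 6531 .leaf) 2193220 6531 (.node .leaf 2193459 3138 .leaf)) 2193475 6531 (.node (.node .leaf 2193476 6531 .leaf) 2193715 3266 .leaf)) 2196003 16577 (.node (.node (.node .leaf 2196020 6531 .leaf) 2196035 6531 (.node .leaf 2196036 6531 .leaf)) 2196049 8324 (.node (.node .leaf 2196051 14661 .leaf) 2196052 12613 .leaf)))))))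

def c13 : NatMap := (.node (.node (.node (.node (.node (.node (.node (.node .leaf 2196067 10757 .leaf) 2196068 10757 (.node .leaf 2196069 10757 .leaf)) 2196070 12935 (.node (.node .leaf 2196081 12422 .leaf) 2196084 12935 (.node .leaf 2196085 12807 .leaf))) 2196086 12935 (.node (.node (.node .leaf 2196097 18760 .leaf) 2196099 14855 (.node .leaf 2196100 14855 .leaf)) 2196101 14855 (.node (.node .leaf 2196102 14983 .leaf) 2196113 16520 .leaf))) 2196115 16905 (.node (.node (.node (.node .leaf 2196117 17161 .leaf) 2196118 14665 (.node .leaf 2196119 17161 .leaf)) 2196259 16577 (.node (.node .leaf 2196275 16579 .leaf) 2196290 6531 .leaf)) 2196291 6531 (.node (.node (.node .leaf 2196305 8453 .leaf) 2196306 8453 (.node .leaf 2196309 16711 .leaf)) 2196322 10375 (.node (.node .leaf 2196325 16711 .leaf) 2196338 12552 .leaf)))) 2196340 16711 (.node (.node (.node (.node (.node .leaf 2196342 16713 .leaf) 2196356 16713 (.node .leaf 2196358 16713 .leaf)) 2196373 16713 (.node (.node .leaf 2196374 16713 .leaf) 2196531 2626 .leaf)) 2196546 6531 (.node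 (.node (.node .leaf 2196547 6531 .leaf) 2196562 8453 (.node .leaf 2196563 8453 .leaf)) 2196564 16709 (.node (.node .leaf 2196579 16711 .leaf) 2196596 16711 .leaf))) 2196787 2754 (.node (.node (.node (.node .leaf 2196788 4483 .leaf) 2196802 6531 (.node .leaf 2196817 8453 .leaf)) 2196819 8453 (.node (.node .leaf 2196835 16711 .leaf) 2197027 16577 .leaf)) 2197058 6531 (.node (.node (.node .leaf 2197059 6531 .leaf) 2197075 8453 (.node .leaf 2197091 16711 .leaf)) 2197283 16577 (.node (.node .leaf 2197299 3010 .leaf) 2197300 6531 .leaf))))) 2197314 6531 (.node (.node (.node (.node (.node (.node .leaf 2197331 8453 .leaf) 2197555 3138 (.node .leaf 2197556 4483 .leaf)) 2197811 3266 (.node (.node .leaf 2197812 4483 .leaf) 2200099 18625 .leaf)) 2200116 6531 (.node (.node (.node .leaf 2200131 6531 .leaf) 2200145 8324 (.node .leaf 2200147 14661 .leaf)) 2200163 10757 (.node (.node .leaf 2200164 10757 .leaf) 2200165 10757 .leaf))) 2200177 12422 (.node (.node (.node (.node .leaf 2200179 12807 .leaf) 2200180 12679 (.node .leaf 2200181 10567 .leaf))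 2200193 16712 (.node (.node .leaf 2200195 14727 .leaf) 2200196 14983 .leaf)) 2200198 14983 (.node (.node (.node .leaf 2200212 16777 .leaf) 2200213 17161 (.node .leaf 2200215 17161 .leaf)) 2200228 18953 (.node (.node .leaf 2200229 18953 .leaf) 2200230 19081 .leaf)))) 2200355 18625 (.node (.node (.node (.node (.node .leaf 2200386 6531 .leaf) 2200387 6531 (.node .leaf 2200401 8453 .leaf)) 2200402 8453 (.node (.node .leaf 2200418 10503 .leaf) 2200420 18759 .leaf)) 2200434 12552 (.node (.node (.node .leaf 2200436 18759 .leaf) 2200437 18759 (.node .leaf 2200450 14601 .leaf)) 2200452 18761 (.node (.node .leaf 2200454 18761 .leaf) 2200468 18761 .leaf))) 2200469 18761 (.node (.node (.node (.node .leaf 2200484 18763 .leaf) 2200485 18763 (.node .leaf 2200486 18763 .leaf)) 2200627 2626 (.node (.node .leaf 2200642 6531 .leaf) 2200658 8453 .leaf)) 2200659 8453 (.node (.node (.node .leaf 2200675 18759 .leaf) 2200691 18759 (.node .leaf 2200692 18759 .leaf)) 2200707 18761 (.node (.node .leaf 2200708 18761 .leaf) 2200867 18625 .leaf)))))) 2200883 2754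 (.node (.node (.node (.node (.node (.node (.node .leaf 2200884 4483 .leaf) 2200898 6531 (.node .leaf 2200913 8453 .leaf)) 2200915 8453 (.node (.node .leaf 2200931 18759 .leaf) 2200948 18759 .leaf)) 2200963 18761 (.node (.node (.node .leaf 2201123 18625 .leaf) 2201139 2882 (.node .leaf 2201140 6531 .leaf)) 2201154 6531 (.node (.node .leaf 2201171 8453 .leaf) 2201187 18759 .leaf))) 2201395 3010 (.node (.node (.node (.node .leaf 2201396 4483 .leaf) 2201410 6531 (.node .leaf 2201411 6531 .leaf)) 2201426 8453 (.node (.node .leaf 2201651 3138 .leaf) 2201652 4483 .leaf)) 2201907 3266 (.node (.node (.node .leaf 2201908 4483 .leaf) 2204195 20673 (.node .leaf 2204212 6531 .leaf)) 2204227 6531 (.node (.node .leaf 2204241 8324 .leaf) 2204259 10629 .leaf)))) 2204260 10629 (.node (.node (.node (.node (.node .leaf 2204273 12422 .leaf) 2204275 18759 (.node .leaf 2204276 12679 .leaf)) 2204291 14727 (.node (.node .leaf 2204293 14855 .leaf) 2204305 16520 .leaf)) 2204307 16777 (.node (.node (.node .leaf 2204308 18761 .leaf) 2204311 17161 (.node .leaf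 2204321 18570 .leaf)) 2204323 18953 (.node (.node .leaf 2204324 18953 .leaf) 2204451 20673 .leaf))) 2204482 6531 (.node (.node (.node (.node .leaf 2204483 6531 .leaf) 2204497 8453 (.node .leaf 2204498 8453 .leaf)) 2204514 10375 (.node (.node .leaf 2204530 12552 .leaf) 2204532 20807 .leaf)) 2204546 14601 (.node (.node (.node .leaf 2204561 20810 .leaf) 2204564 20809 (.node .leaf 2204738 6531 .leaf)) 2204739 6531 (.node (.node .leaf 2204754 8453 .leaf) 2204755 8453 .leaf))))) 2204771 10503 (.node (.node (.node (.node (.node (.node .leaf 2204787 20807 .leaf) 2204803 20809 (.node .leaf 2204979 2754 .leaf)) 2204980 4483 (.node (.node .leaf 2204994 6531 .leaf) 2204995 6531 .leaf)) 2205011 8453 (.node (.node (.node .leaf 2205027 20807 .leaf) 2205044 20807 (.node .leaf 2205059 20809 .leaf)) 2205219 20673 (.node (.node .leaf 2205235 2882 .leaf) 2205236 4483 .leaf))) 2205250 6531 (.node (.node (.node (.node .leaf 2205251 6531 .leaf) 2205265 8453 (.node .leaf 2205267 8453 .leaf)) 2205475 20673 (.node (.node .leaf 2205491 3010 .leaf) 2205492 4483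 .leaf)) 2205506 6531 (.node (.node (.node .leaf 2205521 8453 .leaf) 2205747 3138 (.node .leaf 2205748 4483 .leaf)) 2206003 3266 (.node (.node .leaf 2206004 4483 .leaf) 2208291 22721 .leaf)))) 2208308 6531 (.node (.node (.node (.node (.node .leaf 2208323 6531 .leaf) 2208337 8324 (.node .leaf 2208339 14661 .leaf)) 2208355 10629 (.node (.node .leaf 2208371 20807 .leaf) 2208372 20807 .leaf)) 2208388 14855 (.node (.node (.node .leaf 2208547 22721 .leaf) 2208578 6531 (.node .leaf 2208579 6531 .leaf)) 2208593 8453 (.node (.node .leaf 2208594 8453 .leaf) 2208595 8453 .leaf))) 2208610 10631 (.node (.node (.node (.node .leaf 2208626 12552 .leaf) 2208628 22855 (.node .leaf 2208644 22857 .leaf)) 2208834 6531 (.node (.node .leaf 2208851 8453 .leaf) 2208867 22855 .leaf)) 2208883 22855 (.node (.node (.node .leaf 2209075 2754 .leaf) 2209076 4483 (.node .leaf 2209090 6531 .leaf)) 2209091 6531 (.node (.node .leaf 2209107 8453 .leaf) 2209123 22855 .leaf)))))))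

def c14 : NatMap := (.node (.node (.node (.node (.node (.node (.node (.node .leaf 2209332 4483 .leaf) 2209346 6531 (.node .leaf 2209361 8453 .leaf)) 2209363 8453 (.node (.node .leaf 2209587 3010 .leaf) 2209588 4483 (.node .leaf 2209602 6531 .leaf))) 2209617 8453 (.node (.node (.node .leaf 2209843 3138 .leaf) 2209844 4483 (.node .leaf 2210099 3266 .leaf)) 2210100 4483 (.node (.node .leaf 2233154 8644 .leaf) 2233171 8647 .leaf))) 2233186 10695 (.node (.node (.node (.node .leaf 2233188 8648 .leaf) 2233202 22985 (.node .leaf 2233204 10697 .leaf)) 2233220 10698 (.node (.node .leaf 2233410 4677 .leaf) 2233427 8454 .leaf)) 2233442 10633 (.node (.node (.node .leaf 2233444 10633 .leaf) 2233459 12554 (.node .leaf 2233476 14924 .leaf)) 2233652 8902 (.node (.node .leaf 2233667 4805 .leaf) 2233683 8583 .leaf)))) 2233700 10634 (.node (.node (.node (.node (.node .leaf 2233716 12812 .leaf) 2233908 9030 (.node .leaf 2241332 8581 .leaf)) 2241556 4612 (.node (.node .leaf 2241572 7364 .leaf) 2241573 4612 .leaf)) 2241589 4612 (.node (.node (.node .leaf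 2241603 6597 .leaf) 2241604 6791 (.node .leaf 2241605 6791 .leaf)) 2241619 8454 (.node (.node .leaf 2241829 4612 .leaf) 2241844 4612 .leaf))) 2241846 4871 (.node (.node (.node (.node .leaf 2241862 6920 .leaf) 2241863 6920 (.node .leaf 2241878 9097 .leaf)) 2241879 9097 (.node (.node .leaf 2241895 11146 .leaf) 2241911 13067 .leaf)) 2242068 4612 (.node (.node (.node .leaf 2242069 4612 .leaf) 2242085 4612 (.node .leaf 2242086 2695 .leaf)) 2242100 4612 (.node (.node .leaf 2242103 4872 .leaf) 2242116 6599 .leaf))))) 2242118 6728 (.node (.node (.node (.node (.node (.node .leaf 2242132 8583 .leaf) 2242133 7113 (.node .leaf 2242135 6858 .leaf)) 2242150 10889 (.node (.node .leaf 2242151 11147 .leaf) 2242167 13067 .leaf)) 2242324 4612 (.node (.node (.node .leaf 2242325 4612 .leaf) 2242341 4612 (.node .leaf 2242342 2695 .leaf)) 2242343 4872 (.node (.node .leaf 2242356 4612 .leaf) 2242360 5001 .leaf))) 2242372 6599 (.node (.node (.node (.node .leaf 2242374 6728 .leaf) 2242375 6857 (.node .leaf 2242376 7178 .leaf)) 2242389 6985 (.node (.node .leaf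 2242392 9098 .leaf) 2242406 10889 .leaf)) 2242423 13067 (.node (.node (.node .leaf 2242596 7364 .leaf) 2242597 4612 (.node .leaf 2242598 4743 .leaf)) 2242612 4612 (.node (.node .leaf 2242645 7113 .leaf) 2242836 4612 .leaf)))) 2242853 4612 (.node (.node (.node (.node (.node .leaf 2242868 4612 .leaf) 2244917 4614 (.node .leaf 2245428 6597 .leaf)) 2245429 4614 (.node (.node .leaf 2245441 8452 .leaf) 2245442 12740 .leaf)) 2245458 8452 (.node (.node (.node .leaf 2245459 8452 .leaf) 2245460 10631 (.node .leaf 2245476 10631 .leaf)) 2245477 12808 (.node (.node .leaf 2245478 12937 .leaf) 2245668 6724 .leaf))) 2245669 4614 (.node (.node (.node (.node .leaf 2245684 8517 .leaf) 2245685 4614 (.node .leaf 2245698 8644 .leaf)) 2245699 4677 (.node (.node .leaf 2245701 6662 .leaf) 2245702 6728 .leaf)) 2245714 8454 (.node (.node (.node .leaf 2245715 8454 .leaf) 2245716 8582 (.node .leaf 2245717 8841 .leaf)) 2245718 8841 (.node (.node .leaf 2245733 8649 .leaf) 2245924 6852 .leaf)))))) 2245925 6662 (.node (.node (.node (.node (.node (.node (.node .leaf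 2245940 8517 .leaf) 2245941 6662 (.node .leaf 2245954 8644 .leaf)) 2245956 6662 (.node (.node .leaf 2245958 6792 .leaf) 2245971 8454 .leaf)) 2245972 8583 (.node (.node (.node .leaf 2245973 8969 .leaf) 2245974 8969 (.node .leaf 2245990 11019 .leaf)) 2245991 11019 (.node (.node .leaf 2246007 13068 .leaf) 2246180 6980 .leaf))) 2246181 6662 (.node (.node (.node (.node .leaf 2246196 8517 .leaf) 2246197 6662 (.node .leaf 2246198 6792 .leaf)) 2246212 6662 (.node (.node .leaf 2246213 6662 .leaf) 2246230 8841 .leaf)) 2246247 6988 (.node (.node (.node .leaf 2246421 4614 .leaf) 2246436 7108 (.node .leaf 2246437 4614 .leaf)) 2246438 7112 (.node (.node .leaf 2246452 8517 .leaf) 2246453 4614 .leaf)))) 2246454 6792 (.node (.node (.node (.node (.node .leaf 2246455 6921 .leaf) 2246468 6662 (.node .leaf 2246472 7051 .leaf)) 2246692 7236 (.node (.node .leaf 2246693 4614 .leaf) 2246709 4614 .leaf)) 2246948 7364 (.node (.node (.node .leaf 2246949 4614 .leaf) 2246965 4614 (.node .leaf 2249012 10565 .leaf)) 2249013 6663 (.node (.node .leaf 2249027 8454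 .leaf) 2249028 6663 .leaf))) 2249045 8713 (.node (.node (.node (.node .leaf 2249539 8452 .leaf) 2249554 8452 (.node .leaf 2249556 8583 .leaf)) 2249571 12551 (.node (.node .leaf 2249572 8648 .leaf) 2249573 8649 .leaf)) 2249574 12938 (.node (.node (.node .leaf 2249587 12551 .leaf) 2249588 12680 (.node .leaf 2249591 15115 .leaf)) 2249604 14857 (.node (.node .leaf 2249764 6724 .leaf) 2249781 4614 .leaf))))) 2249794 10692 (.node (.node (.node (.node (.node (.node .leaf 2249795 4677 .leaf) 2249796 8582 (.node .leaf 2249797 6663 .leaf)) 2249798 6728 (.node (.node .leaf 2249810 8582 .leaf) 2249811 8582 .leaf)) 2249813 12809 (.node (.node (.node .leaf 2249826 10695 .leaf) 2249828 10632 (.node .leaf 2249829 12809 .leaf)) 2249830 12939 (.node (.node .leaf 2249845 12809 .leaf) 2249847 13068 .leaf))) 2249862 14987 (.node (.node (.node (.node .leaf 2250020 6852 .leaf) 2250036 10565 (.node .leaf 2250037 4614 .leaf)) 2250050 10692 (.node (.node .leaf 2250051 4805 .leaf) 2250053 6663 .leaf)) 2250067 8454 (.node (.node (.node .leaf 2250068 8583 .leaf)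 2250084 10825 (.node .leaf 2250085 10698 .leaf)) 2250086 6859 (.node (.node .leaf 2250087 6859 .leaf) 2250102 10699 .leaf)))) 2250103 13069 (.node (.node (.node (.node (.node .leaf 2250276 6980 .leaf) 2250292 10565 (.node .leaf 2250293 4614 .leaf)) 2250307 4933 (.node (.node .leaf 2250308 6663 .leaf) 2250309 6663 .leaf)) 2250310 6793 (.node (.node (.node .leaf 2250325 6985 .leaf) 2250327 8971 (.node .leaf 2250342 10699 .leaf)) 2250359 13069 (.node (.node .leaf 2250532 7108 .leaf) 2250548 10565 .leaf))) 2250549 4614 (.node (.node (.node (.node .leaf 2250550 6793 .leaf) 2250564 6663 (.node .leaf 2250565 6663 .leaf)) 2250566 6793 (.node (.node .leaf 2250567 8971 .leaf) 2250584 7117 .leaf)) 2250615 10829 (.node (.node (.node .leaf 2250788 7236 .leaf) 2250804 10565 (.node .leaf 2250805 4614 .leaf)) 2250821 6663 (.node (.node .leaf 2251061 4614 .leaf) 2251075 5317 .leaf)))))))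

def c15 : NatMap := (.node (.node (.node (.node (.node (.node (.node (.node .leaf 2253124 8583 .leaf) 2253139 8454 (.node .leaf 2253633 8452 .leaf)) 2253635 8452 (.node (.node .leaf 2253636 6599 .leaf) 2253650 8452 .leaf)) 2253668 8648 (.node (.node (.node .leaf 2253669 10889 .leaf) 2253685 12810 (.node .leaf 2253686 10699 .leaf)) 2253702 14987 (.node (.node .leaf 2253890 12740 .leaf) 2253891 4677 .leaf))) 2253892 8582 (.node (.node (.node (.node .leaf 2253906 8582 .leaf) 2253907 8582 (.node .leaf 2253908 8582 .leaf)) 2253909 12745 (.node (.node .leaf 2253923 10632 .leaf) 2253925 10761 .leaf)) 2253940 12681 (.node (.node (.node .leaf 2253941 14859 .leaf) 2253942 14988 (.node .leaf 2253943 10829 .leaf)) 2253957 14859 (.node (.node .leaf 2253959 15117 .leaf) 2254132 12613 .leaf)))) 2254146 12740 (.node (.node (.node (.node (.node .leaf 2254147 4805 .leaf) 2254148 8583 (.node .leaf 2254163 8454 .leaf)) 2254180 10633 (.node (.node .leaf 2254183 6859 .leaf) 2254197 12811 .leaf)) 2254199 13197 (.node (.node (.node .leaf 2254372 6980 .leaf)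 2254388 12613 (.node .leaf 2254389 4614 .leaf)) 2254402 12740 (.node (.node .leaf 2254403 4933 .leaf) 2254404 8583 .leaf))) 2254419 8454 (.node (.node (.node (.node .leaf 2254420 8583 .leaf) 2254454 12748 (.node .leaf 2254628 7108 .leaf)) 2254644 12613 (.node (.node .leaf 2254645 4614 .leaf) 2254660 6663 .leaf)) 2254661 6663 (.node (.node (.node .leaf 2254677 7113 .leaf) 2254884 7236 (.node .leaf 2254900 12613 .leaf)) 2254901 4614 (.node (.node .leaf 2254915 5189 .leaf) 2257219 8454 .leaf))))) 2257220 8583 (.node (.node (.node (.node (.node (.node .leaf 2257730 8644 .leaf) 2257731 8452 (.node .leaf 2257746 8452 .leaf)) 2257762 10695 (.node (.node .leaf 2257765 8649 .leaf) 2257778 12552 .leaf)) 2257780 10697 (.node (.node (.node .leaf 2257782 10699 .leaf) 2257783 15115 (.node .leaf 2257795 14601 .leaf)) 2257797 14858 (.node (.node .leaf 2257798 15115 .leaf) 2257799 15115 .leaf))) 2257811 16778 (.node (.node (.node (.node .leaf 2257812 16778 .leaf) 2257814 17037 (.node .leaf 2257815 17165 .leaf)) 2257828 18956 (.node (.node .leaf 2257831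 19214 .leaf) 2257986 14788 .leaf)) 2257987 4677 (.node (.node (.node .leaf 2257988 8582 .leaf) 2258002 8582 (.node .leaf 2258003 8582 .leaf)) 2258004 8582 (.node (.node .leaf 2258005 8713 .leaf) 2258018 10632 .leaf)))) 2258019 10632 (.node (.node (.node (.node (.node .leaf 2258021 10761 .leaf) 2258035 12681 (.node .leaf 2258038 14795 .leaf)) 2258052 14731 (.node (.node .leaf 2258053 16908 .leaf) 2258054 10828 .leaf)) 2258055 14797 (.node (.node (.node .leaf 2258242 14788 .leaf) 2258243 4805 (.node .leaf 2258244 8583 .leaf)) 2258259 8454 (.node (.node .leaf 2258260 8583 .leaf) 2258261 8713 .leaf))) 2258275 10633 (.node (.node (.node (.node .leaf 2258276 10633 .leaf) 2258278 6859 (.node .leaf 2258292 12811 .leaf)) 2258295 13069 (.node (.node .leaf 2258309 14797 .leaf) 2258310 14797 .leaf)) 2258326 17038 (.node (.node (.node .leaf 2258498 14788 .leaf) 2258499 4933 (.node .leaf 2258500 8583 .leaf)) 2258515 8454 (.node (.node .leaf 2258516 8583 .leaf) 2258532 10633 .leaf)))))) 2258740 14661 (.node (.node (.node (.node (.node (.node (.node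 .leaf 2258755 5061 .leaf) 2258756 8583 (.node .leaf 2258757 6663 .leaf)) 2259011 5189 (.node (.node .leaf 2259012 8583 .leaf) 2261826 20932 .leaf)) 2261827 8452 (.node (.node (.node .leaf 2261841 8452 .leaf) 2261842 8452 (.node .leaf 2261845 12745 .leaf)) 2261858 10695 (.node (.node .leaf 2261861 8649 .leaf) 2261874 12552 .leaf))) 2261892 14858 (.node (.node (.node (.node .leaf 2261894 15115 .leaf) 2261909 16908 (.node .leaf 2261910 19085 .leaf)) 2262082 16836 (.node (.node .leaf 2262083 4677 .leaf) 2262098 8582 .leaf)) 2262099 8582 (.node (.node (.node .leaf 2262100 8582 .leaf) 2262101 10761 (.node .leaf 2262115 10632 .leaf)) 2262117 10761 (.node (.node .leaf 2262132 12681 .leaf) 2262149 14859 .leaf)))) 2262324 16709 (.node (.node (.node (.node (.node .leaf 2262338 16836 .leaf) 2262339 4805 (.node .leaf 2262353 8454 .leaf)) 2262355 8454 (.node (.node .leaf 2262371 10633 .leaf) 2262372 10633 .leaf)) 2262388 16842 (.node (.node (.node .leaf 2262594 16836 .leaf) 2262595 4933 (.node .leaf 2262611 8454 .leaf)) 2262612 8583 (.node (.node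 .leaf 2262627 16969 .leaf) 2262628 10633 .leaf))) 2262644 16842 (.node (.node (.node (.node .leaf 2262836 16709 .leaf) 2262850 16836 (.node .leaf 2262852 6663 .leaf)) 2262867 8454 (.node (.node .leaf 2263092 16709 .leaf) 2263107 5189 .leaf)) 2263348 16709 (.node (.node (.node .leaf 2263363 5317 .leaf) 2265922 20932 (.node .leaf 2265923 8452 .leaf)) 2265937 8452 (.node (.node .leaf 2265938 8452 .leaf) 2265954 10695 .leaf))))) 2265956 8648 (.node (.node (.node (.node (.node (.node .leaf 2265970 12552 .leaf) 2265986 14601 (.node .leaf 2265988 10698 .leaf)) 2265990 14987 (.node (.node .leaf 2266004 16908 .leaf) 2266005 16908 .leaf)) 2266020 14796 (.node (.node (.node .leaf 2266021 19085 .leaf) 2266022 19085 (.node .leaf 2266178 18884 .leaf)) 2266194 8454 (.node (.node .leaf 2266195 8454 .leaf) 2266211 10632 .leaf))) 2266227 12681 (.node (.node (.node (.node .leaf 2266228 12681 .leaf) 2266243 14731 (.node .leaf 2266244 14731 .leaf)) 2266245 14859 (.node (.node .leaf 2266259 16780 .leaf) 2266261 16908 .leaf)) 2266278 18895 (.node (.node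 (.node .leaf 2266420 18757 .leaf) 2266434 18884 (.node .leaf 2266435 4805 .leaf)) 2266449 8454 (.node (.node .leaf 2266451 8454 .leaf) 2266467 19017 .leaf)))) 2266468 10633 (.node (.node (.node (.node (.node .leaf 2266484 18890 .leaf) 2266499 19020 (.node .leaf 2266516 16782 .leaf)) 2266676 18757 (.node (.node .leaf 2266690 18884 .leaf) 2266692 6663 .leaf)) 2266707 8454 (.node (.node (.node .leaf 2266709 6985 .leaf) 2266723 19017 (.node .leaf 2266724 10633 .leaf)) 2266740 18890 (.node (.node .leaf 2266932 18757 .leaf) 2266946 18884 .leaf))) 2266947 5061 (.node (.node (.node (.node .leaf 2266962 8454 .leaf) 2267188 18757 (.node .leaf 2267444 18757 .leaf)) 2270018 14788 (.node (.node .leaf 2270019 8452 .leaf) 2270033 8452 .leaf)) 2270034 8452 (.node (.node (.node .leaf 2270050 10695 .leaf) 2270066 12552 (.node .leaf 2270097 16650 .leaf)) 2270100 14796 (.node (.node .leaf 2270274 20932 .leaf) 2270275 4677 .leaf)))))))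

def c16 : NatMap := (.node (.node (.node (.node (.node (.node (.node (.node .leaf 2270291 8582 .leaf) 2270307 10632 (.node .leaf 2270323 12681 .leaf)) 2270339 14731 (.node (.node .leaf 2270355 16780 .leaf) 2270516 20805 (.node .leaf 2270530 20932 .leaf))) 2270531 4805 (.node (.node (.node .leaf 2270547 8454 .leaf) 2270548 8583 (.node .leaf 2270563 10633 .leaf)) 2270564 10633 (.node (.node .leaf 2270580 20938 .leaf) 2270595 21068 .leaf))) 2270772 20805 (.node (.node (.node (.node .leaf 2270786 20932 .leaf) 2270787 4933 (.node .leaf 2270801 8454 .leaf)) 2270803 8454 (.node (.node .leaf 2270804 8583 .leaf) 2270820 10633 .leaf)) 2271028 20805 (.node (.node (.node .leaf 2271042 20932 .leaf) 2271057 8454 (.node .leaf 2271059 8454 .leaf)) 2271284 20805 (.node (.node .leaf 2271540 20805 .leaf) 2274114 18884 .leaf)))) 2274115 8452 (.node (.node (.node (.node (.node .leaf 2274129 8452 .leaf) 2274130 8452 (.node .leaf 2274131 8452 .leaf)) 2274146 10695 (.node (.node .leaf 2274162 12552 .leaf) 2274180 14858 .leaf)) 2274370 22980 (.node (.node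 (.node .leaf 2274386 8454 .leaf) 2274387 8454 (.node .leaf 2274403 10632 .leaf)) 2274419 12681 (.node (.node .leaf 2274612 22853 .leaf) 2274626 22980 .leaf))) 2274627 4805 (.node (.node (.node (.node .leaf 2274643 8454 .leaf) 2274644 8583 (.node .leaf 2274659 10633 .leaf)) 2274660 10633 (.node (.node .leaf 2274676 22986 .leaf) 2274868 22853 .leaf)) 2274882 22980 (.node (.node (.node .leaf 2274883 4933 .leaf) 2274897 8454 (.node .leaf 2274899 8454 .leaf)) 2275124 22853 (.node (.node .leaf 2275138 22980 .leaf) 2275153 8454 .leaf))))) 2275155 8454 (.node (.node (.node (.node (.node (.node .leaf 2275380 22853 .leaf) 2275636 22853 (.node .leaf 2275651 5317 .leaf)) 2298946 19013 (.node (.node .leaf 2298963 14920 .leaf) 2298978 10825 .leaf)) 2298980 10825 (.node (.node (.node .leaf 2298995 19019 .leaf) 2299012 14924 (.node .leaf 2299203 4806 .leaf)) 2299219 8584 (.node (.node .leaf 2299236 17099 .leaf) 2299252 12812 .leaf))) 2299253 12812 (.node (.node (.node (.node .leaf 2299460 6984 .leaf) 2307089 7256 (.node .leaf 2307125 4742 .leaf))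 2307138 19013 (.node (.node .leaf 2307142 6791 .leaf) 2307155 8582 .leaf)) 2307345 7256 (.node (.node (.node .leaf 2307366 4742 .leaf) 2307382 4742 (.node .leaf 2307398 6920 .leaf)) 2307399 6920 (.node (.node .leaf 2307415 8969 .leaf) 2307430 11146 .leaf)))) 2307431 11018 (.node (.node (.node (.node (.node .leaf 2307605 7110 .leaf) 2307622 4742 (.node .leaf 2307637 4742 .leaf)) 2307639 4872 (.node (.node .leaf 2307651 6726 .leaf) 2307652 6728 .leaf)) 2307654 7049 (.node (.node (.node .leaf 2307668 8712 .leaf) 2307669 8712 (.node .leaf 2307671 6858 .leaf)) 2307686 10890 (.node (.node .leaf 2307687 11147 .leaf) 2307861 6982 .leaf))) 2307862 2694 (.node (.node (.node (.node .leaf 2307878 2694 .leaf) 2307879 4872 (.node .leaf 2307893 4742 .leaf)) 2307896 5001 (.node (.node .leaf 2307909 6728 .leaf) 2307911 6857 .leaf)) 2307912 7179 (.node (.node (.node .leaf 2307925 8712 .leaf) 2307928 9228 (.node .leaf 2307942 10890 .leaf)) 2308133 6854 (.node (.node .leaf 2308134 4742 .leaf) 2308149 4742 .leaf)))))) 2308165 6728 (.node (.node (.node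 (.node (.node (.node (.node .leaf 2308166 6857 .leaf) 2308369 7256 (.node .leaf 2310453 8647 .leaf)) 2311205 6726 (.node (.node .leaf 2311221 8647 .leaf) 2311222 4744 .leaf)) 2311234 23109 (.node (.node (.node .leaf 2311235 8453 .leaf) 2311237 6728 (.node .leaf 2311238 8841 .leaf)) 2311250 8453 (.node (.node .leaf 2311251 8453 .leaf) 2311252 8582 .leaf))) 2311253 8841 (.node (.node (.node (.node .leaf 2311254 8841 .leaf) 2311269 10761 (.node .leaf 2311461 6854 .leaf)) 2311462 4744 (.node (.node .leaf 2311477 8647 .leaf) 2311478 6792 .leaf)) 2311490 8773 (.node (.node (.node .leaf 2311491 4806 .leaf) 2311492 6792 (.node .leaf 2311494 6792 .leaf)) 2311507 8712 (.node (.node .leaf 2311508 8712 .leaf) 2311509 8712 .leaf)))) 2311510 6858 (.node (.node (.node (.node (.node .leaf 2311511 6858 .leaf) 2311526 11019 (.node .leaf 2311527 11019 .leaf)) 2311543 13068 (.node (.node .leaf 2311717 6982 .leaf) 2311718 6792 .leaf)) 2311733 8647 (.node (.node (.node .leaf 2311734 6792 .leaf) 2311749 6792 (.node .leaf 2311751 6922 .leaf)) 2311765 8712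 (.node (.node .leaf 2311766 8778 .leaf) 2311783 6988 .leaf))) 2311957 7110 (.node (.node (.node (.node .leaf 2311973 7110 .leaf) 2311974 7112 (.node .leaf 2311989 8647 .leaf)) 2311990 6792 (.node (.node .leaf 2311991 6922 .leaf) 2312004 6792 .leaf)) 2312005 8712 (.node (.node (.node .leaf 2312008 7051 .leaf) 2312022 8778 (.node .leaf 2312024 7117 .leaf)) 2312229 7238 (.node (.node .leaf 2312230 7240 .leaf) 2312245 8647 .leaf))))) 2312246 6792 (.node (.node (.node (.node (.node (.node .leaf 2312261 6792 .leaf) 2312277 8778 (.node .leaf 2312485 7366 .leaf)) 2312501 8647 (.node (.node .leaf 2312502 6792 .leaf) 2312516 6792 .leaf)) 2312533 8778 (.node (.node (.node .leaf 2314562 10821 .leaf) 2314564 8584 (.node .leaf 2314566 6794 .leaf)) 2314581 8714 (.node (.node .leaf 2315075 10822 .leaf) 2315317 6727 .leaf))) 2315331 8453 (.node (.node (.node (.node .leaf 2315332 8582 .leaf) 2315334 6793 (.node .leaf 2315346 8453 .leaf)) 2315347 8453 (.node (.node .leaf 2315349 12809 .leaf) 2315364 10632 .leaf)) 2315365 12809 (.node (.node (.node .leaf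 2315366 12939 .leaf) 2315381 12809 (.node .leaf 2315383 13068 .leaf)) 2315398 14987 (.node (.node .leaf 2315573 8904 .leaf) 2315574 6856 .leaf)))) 2315586 10821 (.node (.node (.node (.node (.node .leaf 2315587 10822 .leaf) 2315588 8904 (.node .leaf 2315589 6793 .leaf)) 2315603 8584 (.node (.node .leaf 2315604 8584 .leaf) 2315606 6858 .leaf)) 2315620 10825 (.node (.node (.node .leaf 2315621 10827 .leaf) 2315622 10828 (.node .leaf 2315623 8908 .leaf)) 2315637 12811 (.node (.node .leaf 2315638 12940 .leaf) 2315639 13197 .leaf))) 2315829 9032 (.node (.node (.node (.node .leaf 2315844 6984 .leaf) 2315845 6793 (.node .leaf 2315846 6793 .leaf)) 2315860 8584 (.node (.node .leaf 2315861 8713 .leaf) 2315863 6987 .leaf)) 2315878 10828 (.node (.node (.node .leaf 2315895 10829 .leaf) 2316085 9160 (.node .leaf 2316086 6793 .leaf)) 2316100 9160 (.node (.node .leaf 2316101 6793 .leaf) 2316102 6793 .leaf)))))))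

def c17 : NatMap := (.node (.node (.node (.node (.node (.node (.node (.node .leaf 2316117 8713 .leaf) 2316120 7117 (.node .leaf 2316151 10829 .leaf)) 2316341 9288 (.node (.node .leaf 2316357 6793 .leaf) 2316358 6793 (.node .leaf 2316597 9416 .leaf))) 2316612 8584 (.node (.node (.node .leaf 2318658 12869 .leaf) 2318659 12870 (.node .leaf 2318660 8584 .leaf)) 2318675 8584 (.node (.node .leaf 2318676 8584 .leaf) 2319427 8453 .leaf))) 2319428 8582 (.node (.node (.node (.node .leaf 2319442 8453 .leaf) 2319443 8453 (.node .leaf 2319444 8582 .leaf)) 2319445 8778 (.node (.node .leaf 2319459 10632 .leaf) 2319461 8778 .leaf)) 2319476 12681 (.node (.node (.node .leaf 2319477 14859 .leaf) 2319478 14988 (.node .leaf 2319479 15117 .leaf)) 2319495 15117 (.node (.node .leaf 2319682 12869 .leaf) 2319683 4806 .leaf)))) 2319684 8904 (.node (.node (.node (.node (.node .leaf 2319699 8584 .leaf) 2319716 10634 (.node .leaf 2319719 8908 .leaf)) 2319733 12811 (.node (.node .leaf 2319734 14989 .leaf) 2319735 10958 .leaf)) 2319736 13198 (.node (.node (.node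 .leaf 2319925 9032 .leaf) 2319938 12869 (.node .leaf 2319939 12870 .leaf)) 2319940 6984 (.node (.node .leaf 2319941 6793 .leaf) 2319942 6793 .leaf))) 2319955 12872 (.node (.node (.node (.node .leaf 2319956 8584 .leaf) 2319989 12876 (.node .leaf 2319990 12877 .leaf)) 2320181 9160 (.node (.node .leaf 2320196 9160 .leaf) 2320197 8713 .leaf)) 2320198 6793 (.node (.node (.node .leaf 2320213 8713 .leaf) 2320230 7116 (.node .leaf 2320437 9288 .leaf)) 2320452 8584 (.node (.node .leaf 2320454 6793 .leaf) 2322754 14917 .leaf))))) 2322755 14918 (.node (.node (.node (.node (.node (.node .leaf 2322756 8584 .leaf) 2322772 8584 (.node .leaf 2323523 8453 .leaf)) 2323524 8582 (.node (.node .leaf 2323538 8453 .leaf) 2323539 8453 .leaf)) 2323540 8582 (.node (.node (.node .leaf 2323541 8778 .leaf) 2323555 10632 (.node .leaf 2323557 8778 .leaf)) 2323571 12681 (.node (.node .leaf 2323574 12940 .leaf) 2323588 14731 .leaf))) 2323589 16908 (.node (.node (.node (.node .leaf 2323590 10828 .leaf) 2323591 15117 (.node .leaf 2323778 14917 .leaf)) 2323779 14918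 (.node (.node .leaf 2323780 8904 .leaf) 2323795 14920 .leaf)) 2323796 8584 (.node (.node (.node .leaf 2323797 8713 .leaf) 2323811 14921 (.node .leaf 2323812 10634 .leaf)) 2323814 8908 (.node (.node .leaf 2323828 12811 .leaf) 2323831 10958 .leaf)))) 2323845 14861 (.node (.node (.node (.node (.node .leaf 2323846 17038 .leaf) 2323848 15247 (.node .leaf 2323862 17038 .leaf)) 2324034 14917 (.node (.node .leaf 2324035 14918 .leaf) 2324036 6984 .leaf)) 2324051 14920 (.node (.node (.node .leaf 2324052 8584 .leaf) 2324068 10634 (.node .leaf 2324085 12813 .leaf)) 2324102 14927 (.node (.node .leaf 2324291 14918 .leaf) 2324292 9160 .leaf))) 2324293 8713 (.node (.node (.node (.node .leaf 2324308 8584 .leaf) 2324309 8713 (.node .leaf 2324547 14918 .leaf)) 2324548 8584 (.node (.node .leaf 2327619 8453 .leaf) 2327634 8453 .leaf)) 2327635 8453 (.node (.node (.node .leaf 2327636 8582 .leaf) 2327637 8778 (.node .leaf 2327651 10632 .leaf)) 2327653 8778 (.node (.node .leaf 2327668 12681 .leaf) 2327685 12876 .leaf)))))) 2327874 16965 (.node (.node (.node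 (.node (.node (.node (.node .leaf 2327875 4806 .leaf) 2327891 8584 (.node .leaf 2327907 16969 .leaf)) 2327908 10634 (.node (.node .leaf 2327924 12811 .leaf) 2328130 16965 .leaf)) 2328131 16966 (.node (.node (.node .leaf 2328132 6984 .leaf) 2328147 16968 (.node .leaf 2328148 8584 .leaf)) 2328163 16969 (.node (.node .leaf 2328164 10634 .leaf) 2328180 12813 .leaf))) 2328386 16965 (.node (.node (.node (.node .leaf 2328388 9160 .leaf) 2328403 16968 (.node .leaf 2328405 8713 .leaf)) 2328644 8584 (.node (.node .leaf 2328661 7242 .leaf) 2328900 8584 .leaf)) 2331665 16988 (.node (.node (.node .leaf 2331714 16965 .leaf) 2331730 8453 (.node .leaf 2331731 8453 .leaf)) 2331747 10632 (.node (.node .leaf 2331763 12681 .leaf) 2331764 12681 .leaf)))) 2331779 14731 (.node (.node (.node (.node (.node .leaf 2331780 14731 .leaf) 2331781 12876 (.node .leaf 2331795 16780 .leaf)) 2331814 19087 (.node (.node .leaf 2331970 19013 .leaf) 2331971 4806 .leaf)) 2331987 8584 (.node (.node (.node .leaf 2332003 19017 .leaf) 2332004 10634 (.node .leaf 2332020 12811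 .leaf)) 2332035 19020 (.node (.node .leaf 2332052 16782 .leaf) 2332069 18960 .leaf))) 2332226 19013 (.node (.node (.node (.node .leaf 2332228 6984 .leaf) 2332243 19016 (.node .leaf 2332245 8713 .leaf)) 2332259 19017 (.node (.node .leaf 2332260 10634 .leaf) 2332276 12813 .leaf)) 2332293 14862 (.node (.node (.node .leaf 2332482 19013 .leaf) 2332484 9160 (.node .leaf 2332498 8584 .leaf)) 2335811 8453 (.node (.node .leaf 2335826 8453 .leaf) 2335827 8453 .leaf))))) 2335843 10632 (.node (.node (.node (.node (.node (.node .leaf 2335859 12681 .leaf) 2335875 14731 (.node .leaf 2335891 16780 .leaf)) 2336066 21061 (.node (.node .leaf 2336067 4806 .leaf) 2336082 8584 .leaf)) 2336083 8584 (.node (.node (.node .leaf 2336084 8584 .leaf) 2336099 21065 (.node .leaf 2336100 10634 .leaf)) 2336116 12811 (.node (.node .leaf 2336131 21068 .leaf) 2336322 21061 .leaf))) 2336323 21062 (.node (.node (.node (.node .leaf 2336324 6984 .leaf) 2336339 21064 (.node .leaf 2336340 8584 .leaf)) 2336356 10634 (.node (.node .leaf 2336372 12813 .leaf) 2336578 21061 .leaf))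 2336580 9160 (.node (.node (.node .leaf 2336595 21064 .leaf) 2339345 23134 (.node .leaf 2339857 16988 .leaf)) 2339906 21061 (.node (.node .leaf 2339922 8453 .leaf) 2339923 8453 .leaf)))) 2339939 10632 (.node (.node (.node (.node (.node .leaf 2339955 12681 .leaf) 2340113 6877 (.node .leaf 2340162 23109 .leaf)) 2340163 4806 (.node (.node .leaf 2340178 8584 .leaf) 2340179 8584 .leaf)) 2340180 8584 (.node (.node (.node .leaf 2340195 23113 .leaf) 2340196 10634 (.node .leaf 2340211 12811 .leaf)) 2340212 12811 (.node (.node .leaf 2340418 23109 .leaf) 2340420 6984 .leaf))) 2340435 23112 (.node (.node (.node (.node .leaf 2340436 8584 .leaf) 2340674 23109 (.node .leaf 2340676 9160 .leaf)) 2340691 23112 (.node (.node .leaf 2341188 8584 .leaf) 2364739 10951 .leaf)) 2364755 19146 (.node (.node (.node .leaf 2364772 17099 .leaf) 2364788 23245 (.node .leaf 2364789 13005 .leaf)) 2365012 8713 (.node (.node .leaf 2365253 7113 .leaf) 2365269 7115 .leaf)))))))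

def c18 : NatMap := (.node (.node (.node (.node (.node (.node (.node (.node .leaf 2372898 7254 .leaf) 2372903 4871 (.node .leaf 2372918 4871 .leaf)) 2372934 6920 (.node (.node .leaf 2372935 6920 .leaf) 2372950 8969 (.node .leaf 2372951 8969 .leaf))) 2373158 6855 (.node (.node (.node .leaf 2373159 4872 .leaf) 2373175 4872 (.node .leaf 2373188 4935 .leaf)) 2373189 7113 (.node (.node .leaf 2373190 6857 .leaf) 2373191 7050 .leaf))) 2373204 8713 (.node (.node (.node (.node .leaf 2373205 8713 .leaf) 2373207 8970 (.node .leaf 2373223 11147 .leaf)) 2373399 2824 (.node (.node .leaf 2373414 6855 .leaf) 2373415 4872 .leaf)) 2373432 5002 (.node (.node (.node .leaf 2373444 5063 .leaf) 2373445 7241 (.node .leaf 2373448 7179 .leaf)) 2373461 8841 (.node (.node .leaf 2373464 9228 .leaf) 2373478 10891 .leaf)))) 2373649 4374 (.node (.node (.node (.node (.node .leaf 2373670 6855 .leaf) 2373700 13385 (.node .leaf 2373701 7113 .leaf)) 2373702 6857 (.node (.node .leaf 2373717 8841 .leaf) 2373922 7254 .leaf)) 2373956 9417 (.node (.node (.node .leaf 2373957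 7113 .leaf) 2373958 6857 (.node .leaf 2377014 6856 .leaf)) 2377015 4874 (.node (.node .leaf 2377027 15047 .leaf) 2377028 8583 .leaf))) 2377030 6857 (.node (.node (.node (.node .leaf 2377043 8583 .leaf) 2377044 8583 (.node .leaf 2377045 8713 .leaf)) 2377046 8970 (.node (.node .leaf 2377062 11019 .leaf) 2377063 11019 .leaf)) 2377254 6984 (.node (.node (.node .leaf 2377270 8777 .leaf) 2377271 4874 (.node .leaf 2377284 4935 .leaf)) 2377285 9161 (.node (.node .leaf 2377287 6922 .leaf) 2377301 8841 .leaf))))) 2377302 8841 (.node (.node (.node (.node (.node (.node .leaf 2377303 8907 .leaf) 2377319 8908 (.node .leaf 2377510 7112 .leaf)) 2377511 4874 (.node (.node .leaf 2377526 8777 .leaf) 2377527 6922 .leaf)) 2377540 5063 (.node (.node (.node .leaf 2377541 8713 .leaf) 2377542 8841 (.node .leaf 2377544 7116 .leaf)) 2377557 8713 (.node (.node .leaf 2377558 8841 .leaf) 2377560 7117 .leaf))) 2377766 7240 (.node (.node (.node (.node .leaf 2377782 8777 .leaf) 2377783 6922 (.node .leaf 2377797 9161 .leaf)) 2377798 8841 (.node (.node .leaf 2377813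 8841 .leaf) 2377814 8841 .leaf)) 2378018 7385 (.node (.node (.node .leaf 2378038 8777 .leaf) 2378052 9161 (.node .leaf 2378053 8713 .leaf)) 2378054 6922 (.node (.node .leaf 2378069 8713 .leaf) 2378070 8907 .leaf)))) 2380099 10951 (.node (.node (.node (.node (.node .leaf 2380100 10697 .leaf) 2380101 8713 (.node .leaf 2380102 10827 .leaf)) 2381110 6856 (.node (.node .leaf 2381122 8583 .leaf) 2381123 17095 .leaf)) 2381125 8713 (.node (.node (.node .leaf 2381127 6923 .leaf) 2381139 8583 (.node .leaf 2381140 8583 .leaf)) 2381142 8907 (.node (.node .leaf 2381156 10634 .leaf) 2381157 12811 .leaf))) 2381158 12940 (.node (.node (.node (.node .leaf 2381159 8908 .leaf) 2381173 12811 (.node .leaf 2381174 12940 .leaf)) 2381175 13197 (.node (.node .leaf 2381379 10951 .leaf) 2381380 4935 .leaf)) 2381381 9033 (.node (.node (.node .leaf 2381382 10827 .leaf) 2381396 8713 (.node .leaf 2381397 8713 .leaf)) 2381399 6987 (.node (.node .leaf 2381413 10956 .leaf) 2381414 10957 .leaf)))))) 2381415 10957 (.node (.node (.node (.node (.node (.node (.node .leaf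 2381429 10957 .leaf) 2381431 13070 (.node .leaf 2381622 9162 .leaf)) 2381636 5063 (.node (.node .leaf 2381637 9161 .leaf) 2381638 10827 .leaf)) 2381639 6923 (.node (.node (.node .leaf 2381653 8713 .leaf) 2381654 8843 (.node .leaf 2381656 7117 .leaf)) 2381687 10958 (.node (.node .leaf 2381893 7241 .leaf) 2381894 10827 .leaf))) 2381910 8843 (.node (.node (.node (.node .leaf 2382147 10951 .leaf) 2382149 8713 (.node .leaf 2384195 12999 .leaf)) 2384197 8713 (.node (.node .leaf 2384211 8713 .leaf) 2384212 8713 .leaf)) 2385219 21191 (.node (.node (.node .leaf 2385235 8583 .leaf) 2385252 10634 (.node .leaf 2385255 8908 .leaf)) 2385269 12811 (.node (.node .leaf 2385271 15118 .leaf) 2385272 13198 .leaf)))) 2385475 12999 (.node (.node (.node (.node (.node .leaf 2385476 4935 .leaf) 2385477 9033 (.node .leaf 2385478 8843 .leaf)) 2385491 8713 (.node (.node .leaf 2385492 8713 .leaf) 2385495 6987 .leaf)) 2385508 13003 (.node (.node (.node .leaf 2385509 10765 .leaf) 2385511 13006 (.node .leaf 2385525 13005 .leaf)) 2385526 13006 (.node (.node .leaf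 2385527 11087 .leaf) 2385732 5063 .leaf))) 2385733 9161 (.node (.node (.node (.node .leaf 2385734 8843 .leaf) 2385749 8713 (.node .leaf 2385750 8843 .leaf)) 2385766 7117 (.node (.node .leaf 2385783 13071 .leaf) 2385987 12999 .leaf)) 2385988 13257 (.node (.node (.node .leaf 2385989 7241 .leaf) 2385990 7243 (.node .leaf 2386005 8713 .leaf)) 2388291 15047 (.node (.node .leaf 2388293 8713 .leaf) 2388308 8713 .leaf))))) 2389314 8583 (.node (.node (.node (.node (.node (.node .leaf 2389315 19143 .leaf) 2389316 8583 (.node .leaf 2389317 8713 .leaf)) 2389331 8583 (.node (.node .leaf 2389332 8583 .leaf) 2389333 8713 .leaf)) 2389348 10634 (.node (.node (.node .leaf 2389350 8908 .leaf) 2389364 12811 (.node .leaf 2389367 10958 .leaf)) 2389381 14861 (.node (.node .leaf 2389382 17038 .leaf) 2389384 15247 .leaf))) 2389398 17038 (.node (.node (.node (.node .leaf 2389571 15047 .leaf) 2389572 4935 (.node .leaf 2389587 8713 .leaf)) 2389588 8713 (.node (.node .leaf 2389589 8713 .leaf) 2389604 15051 .leaf)) 2389621 12814 (.node (.node (.node .leaf 2389638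 14991 .leaf) 2389639 17168 (.node .leaf 2389827 15047 .leaf)) 2389828 5063 (.node (.node .leaf 2389829 9161 .leaf) 2389844 8713 .leaf)))) 2389845 8713 (.node (.node (.node (.node (.node .leaf 2389862 7117 .leaf) 2390083 15047 (.node .leaf 2390085 7241 .leaf)) 2390101 8713 (.node (.node .leaf 2393410 8583 .leaf) 2393411 21191 .leaf)) 2393427 8583 (.node (.node (.node .leaf 2393444 10634 .leaf) 2393460 12811 (.node .leaf 2393667 17095 .leaf)) 2393668 4935 (.node (.node .leaf 2393683 8713 .leaf) 2393684 8713 .leaf))) 2393700 17099 (.node (.node (.node (.node .leaf 2393716 17101 .leaf) 2393924 5063 (.node .leaf 2393925 9161 .leaf)) 2393939 8713 (.node (.node .leaf 2393941 8713 .leaf) 2394179 17095 .leaf)) 2394181 7241 (.node (.node (.node .leaf 2394197 8713 .leaf) 2394435 17095 (.node .leaf 2394437 8713 .leaf)) 2394453 8713 (.node (.node .leaf 2397474 8925 .leaf) 2397506 8583 .leaf)))))))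

def c19 : NatMap := (.node (.node (.node (.node (.node (.node (.node (.node .leaf 2397523 8583 .leaf) 2397539 10634 (.node .leaf 2397540 10634 .leaf)) 2397556 12811 (.node (.node .leaf 2397571 14861 .leaf) 2397588 16782 (.node .leaf 2397605 18960 .leaf))) 2397764 4935 (.node (.node (.node .leaf 2397779 8713 .leaf) 2397780 8713 (.node .leaf 2397781 8713 .leaf)) 2397795 19147 (.node (.node .leaf 2397796 19147 .leaf) 2397812 19149 .leaf))) 2397813 12814 (.node (.node (.node (.node .leaf 2397829 14863 .leaf) 2397844 17040 (.node .leaf 2398019 19143 .leaf)) 2398021 9161 (.node (.node .leaf 2398037 8713 .leaf) 2401602 8583 .leaf)) 2401603 15047 (.node (.node (.node .leaf 2401619 8583 .leaf) 2401620 8583 (.node .leaf 2401635 10506 .leaf)) 2401636 10634 (.node (.node .leaf 2401652 12811 .leaf) 2401667 14861 .leaf)))) 2401859 21191 (.node (.node (.node (.node (.node .leaf 2401860 4935 .leaf) 2401875 8713 (.node .leaf 2401876 8713 .leaf)) 2401891 21195 (.node (.node .leaf 2401892 21195 .leaf) 2401908 21197 .leaf)) 2402117 9161 (.node (.node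 (.node .leaf 2402131 8713 .leaf) 2402133 8713 (.node .leaf 2404881 23267 .leaf)) 2405649 4385 (.node (.node .leaf 2405666 8925 .leaf) 2405699 21191 .leaf))) 2405715 8583 (.node (.node (.node (.node .leaf 2405716 8583 .leaf) 2405731 10506 (.node .leaf 2405732 10634 .leaf)) 2405747 12811 (.node (.node .leaf 2405748 12683 .leaf) 2405955 23239 .leaf)) 2405956 4935 (.node (.node (.node .leaf 2405971 8713 .leaf) 2405972 8713 (.node .leaf 2405987 23243 .leaf)) 2405988 23243 (.node (.node .leaf 2406213 7113 .leaf) 2406227 8713 .leaf))))) 2406229 8713 (.node (.node (.node (.node (.node (.node .leaf 2406723 23239 .leaf) 2406725 8713 (.node .leaf 2430532 11080 .leaf)) 2430548 17229 (.node (.node .leaf 2430805 8842 .leaf) 2438711 5001 .leaf)) 2438724 17224 (.node (.node (.node .leaf 2438726 7049 .leaf) 2438740 8842 (.node .leaf 2438743 8970 .leaf)) 2438951 6985 (.node (.node .leaf 2438952 2953 .leaf) 2438968 5002 .leaf))) 2438980 8842 (.node (.node (.node (.node .leaf 2438981 5064 .leaf) 2438982 8842 (.node .leaf 2438983 7179 .leaf)) 2438984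 7179 (.node (.node .leaf 2438997 8842 .leaf) 2439000 9228 .leaf)) 2439014 10892 (.node (.node (.node .leaf 2439202 6549 .leaf) 2439219 8721 (.node .leaf 2439236 8844 .leaf)) 2439237 5192 (.node (.node .leaf 2439238 7370 .leaf) 2439253 8970 .leaf)))) 2439254 8970 (.node (.node (.node (.node (.node .leaf 2439441 4379 .leaf) 2439458 6552 (.node .leaf 2439475 8724 .leaf)) 2439492 8847 (.node (.node .leaf 2439493 7114 .leaf) 2439494 7242 .leaf)) 2439495 8970 (.node (.node (.node .leaf 2439510 8970 .leaf) 2442807 6985 (.node .leaf 2442820 23368 .leaf)) 2442821 8712 (.node (.node .leaf 2442823 6987 .leaf) 2442837 8712 .leaf))) 2442838 8842 (.node (.node (.node (.node .leaf 2442839 9100 .leaf) 2442855 11149 (.node .leaf 2443047 7114 .leaf)) 2443063 8907 (.node (.node .leaf 2443064 7115 .leaf) 2443076 9032 .leaf)) 2443077 5064 (.node (.node (.node .leaf 2443078 8842 .leaf) 2443080 7116 (.node .leaf 2443093 8842 .leaf)) 2443094 8842 (.node (.node .leaf 2443095 8971 .leaf) 2443096 7117 .leaf)))))) 2443319 8907 (.node (.node (.node (.node (.node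 (.node (.node .leaf 2443333 5192 .leaf) 2443334 7242 (.node .leaf 2443335 8971 .leaf)) 2443349 8842 (.node (.node .leaf 2443350 8842 .leaf) 2443554 7387 .leaf)) 2443571 8727 (.node (.node (.node .leaf 2443588 9032 .leaf) 2443589 9290 (.node .leaf 2443590 7370 .leaf)) 2443605 8842 (.node (.node .leaf 2443606 8842 .leaf) 2443607 8971 .leaf))) 2445636 11080 (.node (.node (.node (.node .leaf 2445638 8842 .leaf) 2446148 11080 (.node .leaf 2446406 8842 .leaf)) 2446915 8712 (.node (.node .leaf 2446916 17224 .leaf) 2446918 8842 .leaf)) 2446932 8712 (.node (.node (.node .leaf 2446933 8712 .leaf) 2446950 12941 (.node .leaf 2446951 13070 .leaf)) 2446965 12941 (.node (.node .leaf 2446967 13070 .leaf) 2447172 11080 .leaf)))) 2447173 5064 (.node (.node (.node (.node (.node .leaf 2447174 8842 .leaf) 2447189 8842 (.node .leaf 2447190 8842 .leaf)) 2447192 7117 (.node (.node .leaf 2447205 11085 .leaf) 2447206 10894 .leaf)) 2447207 11279 (.node (.node (.node .leaf 2447223 11087 .leaf) 2447429 5192 (.node .leaf 2447430 8842 .leaf)) 2447446 8842 (.node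 (.node .leaf 2447447 8972 .leaf) 2447684 11080 .leaf))) 2447686 7370 (.node (.node (.node (.node .leaf 2447702 8842 .leaf) 2449732 13128 (.node .leaf 2449748 8842 .leaf)) 2450995 8712 (.node (.node .leaf 2451012 23368 .leaf) 2451013 8712 .leaf)) 2451014 8842 (.node (.node (.node .leaf 2451028 8712 .leaf) 2451044 21325 (.node .leaf 2451047 11150 .leaf)) 2451061 12813 (.node (.node .leaf 2451062 12942 .leaf) 2451063 11087 .leaf))))) 2451251 8718 (.node (.node (.node (.node (.node (.node .leaf 2451268 13128 .leaf) 2451269 5064 (.node .leaf 2451270 8842 .leaf)) 2451285 8842 (.node (.node .leaf 2451286 8842 .leaf) 2451302 10894 .leaf)) 2451318 13071 (.node (.node (.node .leaf 2451319 13071 .leaf) 2451507 8723 (.node .leaf 2451524 13128 .leaf)) 2451526 7242 (.node (.node .leaf 2451541 8842 .leaf) 2451542 8842 .leaf))) 2453828 15176 (.node (.node (.node (.node .leaf 2453844 8842 .leaf) 2454869 8842 (.node .leaf 2455091 8712 .leaf)) 2455108 23368 (.node (.node .leaf 2455124 8712 .leaf) 2455125 8712 .leaf)) 2455140 21325 (.node (.node (.node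 .leaf 2455157 12813 .leaf) 2455174 14991 (.node .leaf 2455175 17168 .leaf)) 2455347 8718 (.node (.node .leaf 2455364 15176 .leaf) 2455365 5064 .leaf)))) 2455380 8842 (.node (.node (.node (.node (.node .leaf 2455381 8842 .leaf) 2455398 10894 (.node .leaf 2455414 13071 .leaf)) 2455620 15176 (.node (.node .leaf 2455622 7242 .leaf) 2455637 8842 .leaf)) 2455638 8842 (.node (.node (.node .leaf 2459204 15176 .leaf) 2459220 8712 (.node .leaf 2459236 19277 .leaf)) 2459252 12813 (.node (.node .leaf 2459460 17224 .leaf) 2459461 5064 .leaf))) 2459477 8842 (.node (.node (.node (.node .leaf 2459716 17224 .leaf) 2459718 7242 (.node .leaf 2459733 8842 .leaf)) 2459734 8842 (.node (.node .leaf 2459972 17224 .leaf) 2459974 7370 .leaf)) 2459989 8842 (.node (.node (.node .leaf 2459990 8842 .leaf) 2463300 23368 (.node .leaf 2463316 8712 .leaf)) 2463317 8712 (.node (.node .leaf 2463331 12813 .leaf) 2463332 23373 .leaf)))))))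

def c20 : NatMap := (.node (.node (.node (.node (.node (.node (.node (.node .leaf 2463349 12813 .leaf) 2463365 14863 (.node .leaf 2463380 17040 .leaf)) 2463556 19272 (.node (.node .leaf 2463557 5064 .leaf) 2463573 8842 (.node .leaf 2463588 19277 .leaf))) 2467396 19272 (.node (.node (.node .leaf 2467412 8712 .leaf) 2467427 12813 (.node .leaf 2467444 12813 .leaf)) 2467652 21320 (.node (.node .leaf 2467653 5064 .leaf) 2467669 8842 .leaf))) 2471492 17224 (.node (.node (.node (.node .leaf 2471508 8712 .leaf) 2471523 12813 (.node .leaf 2471748 23368 .leaf)) 2471749 5064 (.node (.node .leaf 2471765 8842 .leaf) 2472005 5192 .leaf)) 2472006 7242 (.node (.node (.node .leaf 2472260 23368 .leaf) 2472262 7370 (.node .leaf 2472278 8842 .leaf)) 2496325 15305 (.node (.node .leaf 2496341 17358 .leaf) 2504504 5130 .leaf)))) 2504516 15310 (.node (.node (.node (.node (.node .leaf 2504517 19401 .leaf) 2504520 7179 (.node .leaf 2504533 8971 .leaf)) 2504536 9100 (.node (.node .leaf 2504755 8724 .leaf) 2504772 8848 .leaf)) 2504773 8971 (.node (.node (.node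 .leaf 2504774 5193 .leaf) 2504775 8971 (.node .leaf 2504789 8971 .leaf)) 2504790 8971 (.node (.node .leaf 2504994 6554 .leaf) 2505011 8727 .leaf))) 2505028 8851 (.node (.node (.node (.node .leaf 2505029 8974 .leaf) 2505030 5321 (.node .leaf 2505031 7116 .leaf)) 2505046 9099 (.node (.node .leaf 2505047 9099 .leaf) 2508600 7115 .leaf)) 2508612 8841 (.node (.node (.node .leaf 2508613 11209 .leaf) 2508614 8841 (.node .leaf 2508616 7116 .leaf)) 2508629 8841 (.node (.node .leaf 2508630 8841 .leaf) 2508631 8971 .leaf))))) 2508632 9229 (.node (.node (.node (.node (.node (.node .leaf 2508868 13395 .leaf) 2508869 9161 (.node .leaf 2508870 5193 .leaf)) 2508871 8971 (.node (.node .leaf 2508885 8971 .leaf) 2508886 8971 .leaf)) 2508887 8971 (.node (.node (.node .leaf 2508888 9101 .leaf) 2509107 8729 (.node .leaf 2509124 8854 .leaf)) 2509125 9161 (.node (.node .leaf 2509126 5321 .leaf) 2509127 7371 .leaf))) 2509141 8971 (.node (.node (.node (.node .leaf 2509142 8971 .leaf) 2509143 8971 (.node .leaf 2511173 11209 .leaf)) 2511941 11209 (.node (.node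 .leaf 2512199 8971 .leaf) 2512692 8841 .leaf)) 2512709 15305 (.node (.node (.node .leaf 2512725 8841 .leaf) 2512726 8841 (.node .leaf 2512728 9166 .leaf)) 2512741 10894 (.node (.node .leaf 2512743 11279 .leaf) 2512759 13071 .leaf)))) 2512948 8847 (.node (.node (.node (.node (.node .leaf 2512965 11209 .leaf) 2512966 5193 (.node .leaf 2512982 8971 .leaf)) 2512983 8971 (.node (.node .leaf 2513221 11209 .leaf) 2513223 7371 .leaf)) 2513238 8971 (.node (.node (.node .leaf 2513239 8971 .leaf) 2515269 13257 (.node .leaf 2516787 8718 .leaf)) 2516804 8841 (.node (.node .leaf 2516805 15305 .leaf) 2516821 8841 .leaf))) 2516822 8841 (.node (.node (.node (.node .leaf 2516838 10894 .leaf) 2516854 13071 (.node .leaf 2516855 13071 .leaf)) 2517043 8723 (.node (.node .leaf 2517060 13262 .leaf) 2517061 13257 .leaf)) 2517062 5193 (.node (.node (.node .leaf 2517077 8971 .leaf) 2517078 8971 (.node .leaf 2519365 15305 .leaf)) 2520389 15305 (.node (.node .leaf 2520883 8718 .leaf) 2520900 8841 .leaf)))))) 2520901 13257 (.node (.node (.node (.node (.node (.node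 (.node .leaf 2520917 8841 .leaf) 2520934 10894 (.node .leaf 2520950 13071 .leaf)) 2521157 15305 (.node (.node .leaf 2521158 5193 .leaf) 2521173 8971 .leaf)) 2521174 8971 (.node (.node (.node .leaf 2524996 8841 .leaf) 2524997 19401 (.node .leaf 2525013 8841 .leaf)) 2525252 17358 (.node (.node .leaf 2525253 17353 .leaf) 2525254 5193 .leaf))) 2525269 8971 (.node (.node (.node (.node .leaf 2525270 8971 .leaf) 2525286 10895 (.node .leaf 2525508 17358 .leaf)) 2525509 17353 (.node (.node .leaf 2525511 7371 .leaf) 2525525 8971 .leaf)) 2525526 8971 (.node (.node (.node .leaf 2525527 8971 .leaf) 2529093 11209 (.node .leaf 2529109 8841 .leaf)) 2529124 10894 (.node (.node .leaf 2529350 5193 .leaf) 2529606 5321 .leaf)))) 2529607 7371 (.node (.node (.node (.node (.node .leaf 2533189 13257 .leaf) 2533205 8841 (.node .leaf 2537285 15305 .leaf)) 2537301 8841 (.node (.node .leaf 2537541 23497 .leaf) 2537542 5193 .leaf)) 2537558 8971 (.node (.node (.node .leaf 2537797 23497 .leaf) 2537799 7371 (.node .leaf 2537814 8971 .leaf)) 2537815 8971 (.node (.node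 .leaf 2570308 13395 .leaf) 2570309 11343 .leaf))) 2570310 17482 (.node (.node (.node (.node .leaf 2570326 9100 .leaf) 2570547 8729 (.node .leaf 2570564 8854 .leaf)) 2570565 8978 (.node (.node .leaf 2570566 9101 .leaf) 2570567 5322 .leaf)) 2570568 9101 (.node (.node (.node .leaf 2570582 9101 .leaf) 2570583 9101 (.node .leaf 2574404 13395 .leaf)) 2574405 8970 (.node (.node .leaf 2574406 13386 .leaf) 2574407 8970 .leaf))))) 2574422 8970 (.node (.node (.node (.node (.node (.node .leaf 2574423 8970 .leaf) 2574424 9100 (.node .leaf 2574660 17624 .leaf)) 2574661 23765 (.node (.node .leaf 2574662 9290 .leaf) 2574663 5322 .leaf)) 2574677 9299 (.node (.node (.node .leaf 2574678 9100 .leaf) 2574679 9100 (.node .leaf 2574680 9100 .leaf)) 2577734 11338 (.node (.node .leaf 2578484 8847 .leaf) 2578485 8970 .leaf))) 2578501 8970 (.node (.node (.node (.node .leaf 2578502 19530 .leaf) 2578518 8970 (.node .leaf 2578519 8970 .leaf)) 2578758 11338 (.node (.node .leaf 2578759 5322 .leaf) 2578774 9100 .leaf)) 2578775 9100 (.node (.node (.node .leaf 2582579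 8723 .leaf) 2582581 8970 (.node .leaf 2582596 10895 .leaf)) 2582598 19530 (.node (.node .leaf 2582613 8970 .leaf) 2582614 8970 .leaf)))) 2586694 9290 (.node (.node (.node (.node (.node .leaf 2586710 8970 .leaf) 2590773 8970 (.node .leaf 2590788 10895 .leaf)) 2590789 8970 (.node (.node .leaf 2590790 23626 .leaf) 2590805 8970 .leaf)) 2590806 8970 (.node (.node (.node .leaf 2591044 17491 .leaf) 2591046 17482 (.node .leaf 2591047 5322 .leaf)) 2591061 17487 (.node (.node .leaf 2591062 9100 .leaf) 2591063 9100 .leaf))) 2591078 17488 (.node (.node (.node (.node .leaf 2594869 8970 .leaf) 2595125 8977 (.node .leaf 2595142 19530 .leaf)) 2595143 5322 (.node (.node .leaf 2595159 9100 .leaf) 2603077 8970 .leaf)) 2603078 19530 (.node (.node (.node .leaf 2603094 8970 .leaf) 2603333 23631 (.node .leaf 2603334 23626 .leaf)) 2603335 5322 (.node (.node .leaf 2603350 9100 .leaf) 2603351 9100 .leaf)))))))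

def c21 : NatMap := (.node (.node (.node (.node (.node (.node (.node (.node .leaf 2636101 23765 .leaf) 2636102 19665 (.node .leaf 2636103 17611 .leaf)) 2636119 9230 (.node (.node .leaf 2640199 17611 .leaf) 2640213 17621 (.node .leaf 2640214 9099 .leaf))) 2640215 9099 (.node (.node (.node .leaf 2640216 9099 .leaf) 2644295 19659 (.node .leaf 2644311 9099 .leaf)) 2656580 10901 (.node (.node .leaf 2656582 9099 .leaf) 2656583 19659 .leaf))) 2656597 8977 (.node (.node (.node (.node .leaf 2656599 9099 .leaf) 2656614 11025 (.node .leaf 2660661 8977 .leaf)) 2660678 9099 (.node (.node .leaf 2660679 23755 .leaf) 2660695 9099 .leaf)) 2668854 9099 (.node (.node (.node .leaf 2668869 11025 .leaf) 2668871 19659 (.node .leaf 2668886 9099 .leaf)) 2668887 9099 (.node (.node .leaf 3215955 8581 .leaf) 3215970 10630 .leaf)))) 3215971 10630 (.node (.node (.node (.node (.node .leaf 3215972 10630 .leaf) 3215986 12551 (.node .leaf 3215987 12679 .leaf)) 3215988 12679 (.node (.node .leaf 3216002 14600 .leaf) 3216003 14728 .leaf)) 3216004 14728 (.node (.node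 (.node .leaf 3216019 16777 .leaf) 3216020 16905 (.node .leaf 3216211 2374 .leaf)) 3216226 2375 (.node (.node .leaf 3216227 2375 .leaf) 3216228 10632 .leaf))) 3216242 2376 (.node (.node (.node (.node .leaf 3216243 2376 .leaf) 3216244 2376 (.node .leaf 3216259 2377 .leaf)) 3216260 2377 (.node (.node .leaf 3216435 2241 .leaf) 3216467 2374 .leaf)) 3216482 2375 (.node (.node (.node .leaf 3216499 2376 .leaf) 3216516 2377 (.node .leaf 3216691 2241 .leaf)) 3216692 6531 (.node (.node .leaf 3216707 4802 .leaf) 3216708 6531 .leaf))))) 3216723 2374 (.node (.node (.node (.node (.node (.node .leaf 3216740 2376 .leaf) 3216947 2241 (.node .leaf 3216948 6531 .leaf)) 3216963 4930 (.node (.node .leaf 3216964 6531 .leaf) 3217203 2241 .leaf)) 3217459 2241 (.node (.node (.node .leaf 3217715 2241 .leaf) 3220547 4802 (.node .leaf 3220803 4930 .leaf)) 3221059 4802 (.node (.node .leaf 3221315 4930 .leaf) 3221571 4930 .leaf))) 3221827 4930 (.node (.node (.node (.node .leaf 3228195 8642 .leaf) 3228212 6532 (.node .leaf 3228244 8581 .leaf)) 3228259 10501 (.node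 (.node .leaf 3228261 18760 .leaf) 3228451 8898 .leaf)) 3228452 4482 (.node (.node (.node .leaf 3228467 4482 .leaf) 3228468 4482 (.node .leaf 3228498 8517 .leaf)) 3228499 8518 (.node (.node .leaf 3228500 10631 .leaf) 3228516 10631 .leaf)))) 3228517 12808 (.node (.node (.node (.node (.node .leaf 3228707 8642 .leaf) 3228708 4482 (.node .leaf 3228723 4482 .leaf)) 3228724 4482 (.node (.node .leaf 3228739 4674 .leaf) 3228741 6662 .leaf)) 3228742 6791 (.node (.node (.node .leaf 3228754 8517 .leaf) 3228756 8582 (.node .leaf 3228757 8839 .leaf)) 3228758 8839 (.node (.node .leaf 3228771 10503 .leaf) 3228773 10761 .leaf))) 3228964 4482 (.node (.node (.node (.node .leaf 3228979 4482 .leaf) 3228980 4482 (.node .leaf 3228981 6662 .leaf)) 3228995 4802 (.node (.node .leaf 3228998 6791 .leaf) 3229011 8518 .leaf)) 3229014 8969 (.node (.node (.node .leaf 3229028 10632 .leaf) 3229030 11018 (.node .leaf 3229031 11018 .leaf)) 3229047 13068 (.node (.node .leaf 3229219 8642 .leaf) 3229220 4482 .leaf)))))) 3229236 4482 (.node (.node (.node (.node (.node (.node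 (.node .leaf 3229237 6662 .leaf) 3229253 6662 (.node .leaf 3229270 8906 .leaf)) 3229287 11019 (.node (.node .leaf 3229476 4482 .leaf) 3229491 4482 .leaf)) 3229492 4482 (.node (.node (.node .leaf 3229493 4614 .leaf) 3229494 6791 (.node .leaf 3229495 6921 .leaf)) 3229732 4482 (.node (.node .leaf 3229747 4482 .leaf) 3229749 4614 .leaf))) 3229987 8642 (.node (.node (.node (.node .leaf 3229988 4482 .leaf) 3230005 4614 (.node .leaf 3232307 10433 .leaf)) 3232308 8580 (.node (.node .leaf 3232323 14660 .leaf) 3232339 8580 .leaf)) 3232340 8580 (.node (.node (.node .leaf 3232341 8710 .leaf) 3232354 10373 (.node .leaf 3232355 12550 .leaf)) 3232356 12678 (.node (.node .leaf 3232357 12806 .leaf) 3232370 12678 .leaf)))) 3232371 12678 (.node (.node (.node (.node (.node .leaf 3232372 12678 .leaf) 3232373 12806 (.node .leaf 3232387 14727 .leaf)) 3232388 14727 (.node (.node .leaf 3232390 14666 .leaf) 3232563 10433 .leaf)) 3232579 10564 (.node (.node (.node .leaf 3232594 8581 .leaf) 3232610 10566 (.node .leaf 3232611 10566 .leaf)) 3232612 10566 (.node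 (.node .leaf 3232613 12809 .leaf) 3232614 12938 .leaf))) 3232628 12680 (.node (.node (.node (.node .leaf 3232630 12938 .leaf) 3232644 14857 (.node .leaf 3232804 6531 .leaf)) 3232819 10433 (.node (.node .leaf 3232820 6531 .leaf) 3232821 8775 .leaf)) 3232835 4674 (.node (.node (.node .leaf 3232836 6531 .leaf) 3232837 8775 (.node .leaf 3232851 8582 .leaf)) 3232853 8841 (.node (.node .leaf 3232867 10566 .leaf) 3232868 10566 .leaf))))) 3232869 12810 (.node (.node (.node (.node (.node (.node .leaf 3232870 10890 .leaf) 3232885 12810 (.node .leaf 3232886 12939 .leaf)) 3232887 13068 (.node (.node .leaf 3232902 14987 .leaf) 3233060 6531 .leaf)) 3233075 10433 (.node (.node (.node .leaf 3233076 6531 .leaf) 3233077 8903 (.node .leaf 3233091 4802 .leaf)) 3233092 6531 (.node (.node .leaf 3233093 6664 .leaf) 3233107 8582 .leaf))) 3233110 8841 (.node (.node (.node (.node .leaf 3233124 10566 .leaf) 3233125 12810 (.node .leaf 3233126 10828 .leaf)) 3233142 12940 (.node (.node .leaf 3233143 13069 .leaf) 3233158 10572 .leaf)) 3233159 15117 (.node (.node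 (.node .leaf 3233316 6531 .leaf) 3233331 10433 (.node .leaf 3233332 6531 .leaf)) 3233333 9031 (.node (.node .leaf 3233347 4930 .leaf) 3233348 6531 .leaf)))) 3233350 6793 (.node (.node (.node (.node (.node .leaf 3233365 8713 .leaf) 3233367 8971 (.node .leaf 3233380 10566 .leaf)) 3233382 10890 (.node (.node .leaf 3233399 13069 .leaf) 3233571 9154 .leaf)) 3233572 6531 (.node (.node (.node .leaf 3233587 10433 .leaf) 3233588 6531 (.node .leaf 3233589 9159 .leaf)) 3233590 6793 (.node (.node .leaf 3233606 6793 .leaf) 3233607 8971 .leaf))) 3233655 10829 (.node (.node (.node (.node .leaf 3233672 15247 .leaf) 3233827 9282 (.node .leaf 3233828 6531 .leaf)) 3233843 10433 (.node (.node .leaf 3233844 6531 .leaf) 3233845 9287 .leaf)) 3234083 9410 (.node (.node (.node .leaf 3234084 6531 .leaf) 3234099 10433 (.node .leaf 3234100 6531 .leaf)) 3236403 12481 (.node (.node .leaf 3236404 8580 .leaf) 3236419 18756 .leaf)))))))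

def c22 : NatMap := (.node (.node (.node (.node (.node (.node (.node (.node .leaf 3236435 8580 .leaf) 3236436 8580 (.node .leaf 3236437 8710 .leaf)) 3236449 10373 (.node (.node .leaf 3236452 10566 .leaf) 3236453 12806 (.node .leaf 3236454 12936 .leaf))) 3236466 12678 (.node (.node (.node .leaf 3236467 12806 .leaf) 3236468 12678 (.node .leaf 3236469 12806 .leaf)) 3236470 14984 (.node (.node .leaf 3236485 14856 .leaf) 3236486 17032 .leaf))) 3236503 20812 (.node (.node (.node (.node .leaf 3236659 12481 .leaf) 3236675 12612 (.node .leaf 3236676 6532 .leaf)) 3236690 8581 (.node (.node .leaf 3236691 8581 .leaf) 3236693 12616 .leaf)) 3236706 10503 (.node (.node (.node .leaf 3236708 12614 .leaf) 3236725 12616 (.node .leaf 3236726 14987 .leaf)) 3236742 14987 (.node (.node .leaf 3236915 12481 .leaf) 3236931 4674 .leaf)))) 3236932 6531 (.node (.node (.node (.node (.node .leaf 3236946 8582 .leaf) 3236947 8582 (.node .leaf 3236948 8582 .leaf)) 3236949 12616 (.node (.node .leaf 3236963 10503 .leaf) 3236965 12616 .leaf)) 3236980 12616 (.node (.node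 (.node .leaf 3236981 12616 .leaf) 3236982 12939 (.node .leaf 3236997 12616 .leaf)) 3237155 8898 (.node (.node .leaf 3237171 12481 .leaf) 3237172 6531 .leaf))) 3237187 4802 (.node (.node (.node (.node .leaf 3237188 6531 .leaf) 3237189 12616 (.node .leaf 3237203 8582 .leaf)) 3237205 12616 (.node (.node .leaf 3237220 10633 .leaf) 3237223 8908 .leaf)) 3237237 12616 (.node (.node (.node .leaf 3237254 14988 .leaf) 3237412 6531 (.node .leaf 3237427 12481 .leaf)) 3237428 6531 (.node (.node .leaf 3237443 4930 .leaf) 3237444 6531 .leaf))))) 3237445 12616 (.node (.node (.node (.node (.node (.node .leaf 3237459 8582 .leaf) 3237460 8582 (.node .leaf 3237477 10762 .leaf)) 3237493 12616 (.node (.node .leaf 3237494 12748 .leaf) 3237495 12622 .leaf)) 3237668 6531 (.node (.node (.node .leaf 3237683 12481 .leaf) 3237684 6531 (.node .leaf 3237699 5058 .leaf)) 3237700 6531 (.node (.node .leaf 3237701 12616 .leaf) 3237751 12622 .leaf))) 3237923 9282 (.node (.node (.node (.node .leaf 3237924 6531 .leaf) 3237940 6531 (.node .leaf 3237955 5186 .leaf)) 3237956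 6531 (.node (.node .leaf 3238211 5314 .leaf) 3240499 14529 .leaf)) 3240500 8580 (.node (.node (.node .leaf 3240515 12612 .leaf) 3240516 8580 (.node .leaf 3240531 8580 .leaf)) 3240532 8580 (.node (.node .leaf 3240533 8710 .leaf) 3240545 10373 .leaf)))) 3240547 10566 (.node (.node (.node (.node (.node .leaf 3240548 12614 .leaf) 3240549 12806 (.node .leaf 3240550 12936 .leaf)) 3240563 12678 (.node (.node .leaf 3240564 12678 .leaf) 3240565 12806 .leaf)) 3240566 12936 (.node (.node (.node .leaf 3240567 13066 .leaf) 3240578 14471 (.node .leaf 3240579 14856 .leaf)) 3240580 16776 (.node (.node .leaf 3240581 14856 .leaf) 3240582 17032 .leaf))) 3240583 17162 (.node (.node (.node (.node .leaf 3240595 16648 .leaf) 3240596 16904 (.node .leaf 3240597 16904 .leaf)) 3240598 17032 (.node (.node .leaf 3240599 17162 .leaf) 3240612 18825 .leaf)) 3240615 19210 (.node (.node (.node .leaf 3240722 4497 .leaf) 3240739 8642 (.node .leaf 3240755 14529 .leaf)) 3240756 6532 (.node (.node .leaf 3240771 6532 .leaf) 3240772 6532 .leaf)))))) 3240786 8581 (.node (.node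 (.node (.node (.node (.node (.node .leaf 3240787 8581 .leaf) 3240788 8581 (.node .leaf 3240802 10503 .leaf)) 3240804 14662 (.node (.node .leaf 3240805 14664 .leaf) 3240806 14666 .leaf)) 3240818 12552 (.node (.node (.node .leaf 3240820 14664 .leaf) 3240822 14666 (.node .leaf 3240834 14664 .leaf)) 3240835 14664 (.node (.node .leaf 3240836 14664 .leaf) 3240837 14664 .leaf))) 3240838 14666 (.node (.node (.node (.node .leaf 3240839 15116 .leaf) 3240851 14665 (.node .leaf 3240852 14666 .leaf)) 3240854 14666 (.node (.node .leaf 3240855 17166 .leaf) 3240868 14666 .leaf)) 3240871 19214 (.node (.node (.node .leaf 3241011 14529 .leaf) 3241027 4674 (.node .leaf 3241028 6531 .leaf)) 3241042 8582 (.node (.node .leaf 3241043 8582 .leaf) 3241044 8582 .leaf)))) 3241058 10503 (.node (.node (.node (.node (.node .leaf 3241059 14662 .leaf) 3241075 12553 (.node .leaf 3241092 14664 .leaf)) 3241093 14664 (.node (.node .leaf 3241094 14666 .leaf) 3241267 14529 .leaf)) 3241283 4802 (.node (.node (.node .leaf 3241284 6531 .leaf) 3241299 8582 (.node .leaf 3241315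 14662 .leaf)) 3241316 14662 (.node (.node .leaf 3241318 14666 .leaf) 3241349 14664 .leaf))) 3241350 14666 (.node (.node (.node (.node .leaf 3241366 14666 .leaf) 3241523 14529 (.node .leaf 3241539 4930 .leaf)) 3241540 6531 (.node (.node .leaf 3241555 8582 .leaf) 3241557 14664 .leaf)) 3241606 14666 (.node (.node (.node .leaf 3241763 9154 .leaf) 3241779 14529 (.node .leaf 3241780 6531 .leaf)) 3241795 5058 (.node (.node .leaf 3241796 6531 .leaf) 3241862 14666 .leaf))))) 3242035 14529 (.node (.node (.node (.node (.node (.node .leaf 3242051 5186 .leaf) 3242052 6531 (.node .leaf 3242069 14664 .leaf)) 3242307 5314 (.node (.node .leaf 3242308 6531 .leaf) 3244561 14674 .leaf)) 3244595 16577 (.node (.node (.node .leaf 3244596 8580 .leaf) 3244627 8580 (.node .leaf 3244628 8580 .leaf)) 3244629 10758 (.node (.node .leaf 3244641 10373 .leaf) 3244643 14662 .leaf))) 3244644 12678 (.node (.node (.node (.node .leaf 3244645 10758 .leaf) 3244659 12678 (.node .leaf 3244660 12678 .leaf)) 3244661 12806 (.node (.node .leaf 3244662 12936 .leaf) 3244673 14471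 .leaf)) 3244676 14984 (.node (.node (.node .leaf 3244677 14856 .leaf) 3244678 14984 (.node .leaf 3244690 16776 .leaf)) 3244691 16904 (.node (.node .leaf 3244692 16904 .leaf) 3244693 16904 .leaf)))) 3244694 17032 (.node (.node (.node (.node (.node .leaf 3244708 18826 .leaf) 3244817 16724 (.node .leaf 3244818 4499 .leaf)) 3244835 8642 (.node (.node .leaf 3244851 16577 .leaf) 3244852 6532 .leaf)) 3244867 6532 (.node (.node (.node .leaf 3244881 16709 .leaf) 3244882 8581 (.node .leaf 3244883 8581 .leaf)) 3244884 8581 (.node (.node .leaf 3244885 16712 .leaf) 3244898 10375 .leaf))) 3244900 16710 (.node (.node (.node (.node .leaf 3244901 16712 .leaf) 3244902 16714 (.node .leaf 3244914 12552 .leaf)) 3244916 16712 (.node (.node .leaf 3244917 16712 .leaf) 3244918 16714 .leaf)) 3244929 16713 (.node (.node (.node .leaf 3244932 16712 .leaf) 3244934 16714 (.node .leaf 3244947 16714 .leaf)) 3244949 16714 (.node (.node .leaf 3244950 16714 .leaf) 3244951 16716 .leaf)))))))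

def c23 : NatMap := (.node (.node (.node (.node (.node (.node (.node (.node .leaf 3245108 6531 .leaf) 3245123 4674 (.node .leaf 3245139 8582 .leaf)) 3245140 8582 (.node (.node .leaf 3245154 10503 .leaf) 3245155 16710 (.node .leaf 3245172 16712 .leaf))) 3245205 16714 (.node (.node (.node .leaf 3245347 8898 .leaf) 3245363 16577 (.node .leaf 3245364 6531 .leaf)) 3245379 4802 (.node (.node .leaf 3245380 6531 .leaf) 3245395 16710 .leaf))) 3245410 10375 (.node (.node (.node (.node .leaf 3245411 16710 .leaf) 3245619 16577 (.node .leaf 3245635 4930 .leaf)) 3245651 16710 (.node (.node .leaf 3245667 16710 .leaf) 3245875 16577 .leaf)) 3245876 6531 (.node (.node (.node .leaf 3245891 5058 .leaf) 3245892 6531 (.node .leaf 3245907 16710 .leaf)) 3246115 9282 (.node (.node .leaf 3246132 6531 .leaf) 3246147 5186 .leaf)))) 3246148 6531 (.node (.node (.node (.node (.node .leaf 3246371 9410 .leaf) 3246388 6531 (.node .leaf 3246403 5314 .leaf)) 3246404 6531 (.node (.node .leaf 3248691 18625 .leaf) 3248692 8580 .leaf)) 3248723 8580 (.node (.node (.node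 .leaf 3248724 8580 .leaf) 3248737 10373 (.node .leaf 3248739 14662 .leaf)) 3248740 10630 (.node (.node .leaf 3248742 12936 .leaf) 3248755 12806 .leaf))) 3248756 12806 (.node (.node (.node (.node .leaf 3248757 12806 .leaf) 3248769 14471 (.node .leaf 3248771 14856 .leaf)) 3248772 14728 (.node (.node .leaf 3248773 16904 .leaf) 3248774 14984 .leaf)) 3248785 16521 (.node (.node (.node .leaf 3248787 16904 .leaf) 3248788 16904 (.node .leaf 3248789 16904 .leaf)) 3248803 18954 (.node (.node .leaf 3248804 18954 .leaf) 3248805 18954 .leaf))))) 3248806 19082 (.node (.node (.node (.node (.node (.node .leaf 3248913 18775 .leaf) 3248947 18625 (.node .leaf 3248963 18756 .leaf)) 3248977 18757 (.node (.node .leaf 3248978 8581 .leaf) 3248979 8581 .leaf)) 3248994 10503 (.node (.node (.node .leaf 3248996 18758 .leaf) 3249010 12552 (.node .leaf 3249012 18760 .leaf)) 3249013 18760 (.node (.node .leaf 3249025 14601 .leaf) 3249026 14601 .leaf))) 3249028 18760 (.node (.node (.node (.node .leaf 3249030 18762 .leaf) 3249042 16651 (.node .leaf 3249044 18762 .leaf))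 3249045 18762 (.node (.node .leaf 3249047 18764 .leaf) 3249060 18762 .leaf)) 3249061 18762 (.node (.node (.node .leaf 3249062 18762 .leaf) 3249203 18625 (.node .leaf 3249204 6531 .leaf)) 3249219 4674 (.node (.node .leaf 3249220 6531 .leaf) 3249235 18758 .leaf)))) 3249250 10503 (.node (.node (.node (.node (.node .leaf 3249251 18758 .leaf) 3249267 18760 (.node .leaf 3249268 18760 .leaf)) 3249283 18760 (.node (.node .leaf 3249284 18760 .leaf) 3249301 18762 .leaf)) 3249443 8898 (.node (.node (.node .leaf 3249459 18625 .leaf) 3249460 6531 (.node .leaf 3249475 4802 .leaf)) 3249476 6531 (.node (.node .leaf 3249491 18758 .leaf) 3249506 10375 .leaf))) 3249507 18758 (.node (.node (.node (.node .leaf 3249524 18760 .leaf) 3249539 18760 (.node .leaf 3249715 18625 .leaf)) 3249716 6531 (.node (.node .leaf 3249731 4930 .leaf) 3249732 6531 .leaf)) 3249747 18758 (.node (.node (.node .leaf 3249763 18758 .leaf) 3249955 9154 (.node .leaf 3249971 18625 .leaf)) 3249972 6531 (.node (.node .leaf 3249987 5058 .leaf) 3249988 6531 .leaf)))))) 3250002 8582 (.node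 (.node (.node (.node (.node (.node (.node .leaf 3250211 9282 .leaf) 3250228 6531 (.node .leaf 3250243 5186 .leaf)) 3250244 6531 (.node (.node .leaf 3250467 9410 .leaf) 3250484 6531 .leaf)) 3250499 5314 (.node (.node (.node .leaf 3250500 6531 .leaf) 3252787 20673 (.node .leaf 3252788 8580 .leaf)) 3252819 8580 (.node (.node .leaf 3252833 10373 .leaf) 3252835 14662 .leaf))) 3252836 14662 (.node (.node (.node (.node .leaf 3252849 18759 .leaf) 3252851 12678 (.node .leaf 3252852 12678 .leaf)) 3252853 12806 (.node (.node .leaf 3252865 14471 .leaf) 3252867 18760 .leaf)) 3252868 16712 (.node (.node (.node .leaf 3252870 17032 .leaf) 3252881 16713 (.node .leaf 3252883 16776 .leaf)) 3252884 16776 (.node (.node .leaf 3252897 18569 .leaf) 3252900 18826 .leaf)))) 3252914 20874 (.node (.node (.node (.node (.node .leaf 3252917 21002 .leaf) 3253043 20673 (.node .leaf 3253059 20804 .leaf)) 3253073 20805 (.node (.node .leaf 3253074 8581 .leaf) 3253075 8581 .leaf)) 3253090 10375 (.node (.node (.node .leaf 3253105 20807 .leaf) 3253106 12552 (.node .leaf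 3253108 20808 .leaf)) 3253121 14601 (.node (.node .leaf 3253122 14601 .leaf) 3253137 20809 .leaf))) 3253140 20810 (.node (.node (.node (.node .leaf 3253153 20811 .leaf) 3253156 20810 (.node .leaf 3253299 20673 .leaf)) 3253315 4674 (.node (.node .leaf 3253330 8582 .leaf) 3253331 8582 .leaf)) 3253346 10503 (.node (.node (.node .leaf 3253347 20806 .leaf) 3253363 20808 (.node .leaf 3253379 20808 .leaf)) 3253539 8898 (.node (.node .leaf 3253555 20673 .leaf) 3253556 6531 .leaf))))) 3253571 4802 (.node (.node (.node (.node (.node (.node .leaf 3253572 6531 .leaf) 3253587 8582 (.node .leaf 3253603 20806 .leaf)) 3253619 20808 (.node (.node .leaf 3253620 20808 .leaf) 3253635 20808 .leaf)) 3253651 20810 (.node (.node (.node .leaf 3253795 9026 .leaf) 3253811 20673 (.node .leaf 3253812 6531 .leaf)) 3253827 4930 (.node (.node .leaf 3253828 6531 .leaf) 3253843 8582 .leaf))) 3253858 10375 (.node (.node (.node (.node .leaf 3253859 20806 .leaf) 3254051 9154 (.node .leaf 3254067 20673 .leaf)) 3254068 6531 (.node (.node .leaf 3254083 5058 .leaf) 3254084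 6531 .leaf)) 3254114 10375 (.node (.node (.node .leaf 3254307 9282 .leaf) 3254324 6531 (.node .leaf 3254339 5186 .leaf)) 3254340 6531 (.node (.node .leaf 3254563 9410 .leaf) 3254580 6531 .leaf)))) 3254595 5314 (.node (.node (.node (.node (.node .leaf 3254596 6531 .leaf) 3256883 22721 (.node .leaf 3256884 8580 .leaf)) 3256915 8580 (.node (.node .leaf 3256929 10373 .leaf) 3256931 14662 .leaf)) 3256932 10630 (.node (.node (.node .leaf 3256947 12678 .leaf) 3256948 12678 (.node .leaf 3256964 18760 .leaf)) 3257105 22872 (.node (.node .leaf 3257139 22721 .leaf) 3257155 22852 .leaf))) 3257169 22853 (.node (.node (.node (.node .leaf 3257170 8581 .leaf) 3257171 8581 (.node .leaf 3257186 10631 .leaf)) 3257202 12552 (.node (.node .leaf 3257204 22856 .leaf) 3257220 22856 .leaf)) 3257395 22721 (.node (.node (.node .leaf 3257411 4674 .leaf) 3257427 22854 (.node .leaf 3257443 22854 .leaf)) 3257459 22856 (.node (.node .leaf 3257635 8898 .leaf) 3257651 22721 .leaf)))))))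

def c24 : NatMap := (.node (.node (.node (.node (.node (.node (.node (.node .leaf 3257667 4802 .leaf) 3257668 6531 (.node .leaf 3257683 22854 .leaf)) 3257699 22854 (.node (.node .leaf 3257715 22856 .leaf) 3257891 9026 (.node .leaf 3257907 22721 .leaf))) 3257908 6531 (.node (.node (.node .leaf 3257923 4930 .leaf) 3257924 6531 (.node .leaf 3257939 22854 .leaf)) 3257954 10375 (.node (.node .leaf 3258147 9154 .leaf) 3258163 22721 .leaf))) 3258164 6531 (.node (.node (.node (.node .leaf 3258179 5058 .leaf) 3258180 6531 (.node .leaf 3258210 10375 .leaf)) 3258403 9282 (.node (.node .leaf 3258420 6531 .leaf) 3258435 5186 .leaf)) 3258436 6531 (.node (.node (.node .leaf 3258659 9410 .leaf) 3258676 6531 (.node .leaf 3258691 5314 .leaf)) 3258692 6531 (.node (.node .leaf 3281747 8647 .leaf) 3281762 10632 .leaf)))) 3281763 10632 (.node (.node (.node (.node (.node .leaf 3281764 10632 .leaf) 3281779 12553 (.node .leaf 3281780 10697 .leaf)) 3281795 14858 (.node (.node .leaf 3281796 14858 .leaf) 3282003 6727 .leaf)) 3282018 10633 (.node (.node (.node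 .leaf 3282020 10633 .leaf) 3282034 2506 (.node .leaf 3282035 12554 .leaf)) 3282052 2507 (.node (.node .leaf 3282069 16909 .leaf) 3282244 6664 .leaf))) 3282259 2504 (.node (.node (.node (.node .leaf 3282276 10634 .leaf) 3282292 2506 (.node .leaf 3282500 6664 .leaf)) 3282532 2506 (.node (.node .leaf 3293476 9157 .leaf) 3293493 9032 .leaf)) 3293988 9285 (.node (.node (.node .leaf 3294005 6662 .leaf) 3294035 10502 (.node .leaf 3294052 10631 .leaf)) 3294053 10760 (.node (.node .leaf 3294244 9285 .leaf) 3294245 4613 .leaf))))) 3294260 4613 (.node (.node (.node (.node (.node (.node .leaf 3294261 4613 .leaf) 3294277 6662 (.node .leaf 3294290 8646 .leaf)) 3294291 6727 (.node (.node .leaf 3294292 8648 .leaf) 3294293 8841 .leaf)) 3294294 8841 (.node (.node (.node .leaf 3294307 10504 .leaf) 3294309 10761 (.node .leaf 3294501 4613 .leaf)) 3294516 4613 (.node (.node .leaf 3294517 4613 .leaf) 3294532 6662 .leaf))) 3294534 6792 (.node (.node (.node (.node .leaf 3294547 8647 .leaf) 3294550 8969 (.node .leaf 3294564 10633 .leaf)) 3294566 11019 (.node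 (.node .leaf 3294567 11019 .leaf) 3294757 4613 .leaf)) 3294772 4613 (.node (.node (.node .leaf 3294773 4613 .leaf) 3294774 6792 (.node .leaf 3294788 6662 .leaf)) 3294789 6662 (.node (.node .leaf 3294806 8778 .leaf) 3295012 9285 .leaf)))) 3295013 4613 (.node (.node (.node (.node (.node .leaf 3295028 4613 .leaf) 3295029 4613 (.node .leaf 3295030 6792 .leaf)) 3295031 6921 (.node (.node .leaf 3295044 6662 .leaf) 3295048 7051 .leaf)) 3295268 9413 (.node (.node (.node .leaf 3295269 4613 .leaf) 3295285 4613 (.node .leaf 3295524 9157 .leaf)) 3295525 4613 (.node (.node .leaf 3295541 4613 .leaf) 3297588 10566 .leaf))) 3297589 6664 (.node (.node (.node (.node .leaf 3297604 10824 .leaf) 3297621 8714 (.node .leaf 3297638 10892 .leaf)) 3298146 10502 (.node (.node .leaf 3298147 10502 .leaf) 3298148 12680 .leaf)) 3298149 12809 (.node (.node (.node .leaf 3298150 12938 .leaf) 3298164 12680 (.node .leaf 3298166 12938 .leaf)) 3298180 14857 (.node (.node .leaf 3298340 8773 .leaf) 3298356 10566 .leaf)))))) 3298357 8712 (.node (.node (.node (.node (.node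 (.node (.node .leaf 3298372 14920 .leaf) 3298373 8712 (.node .leaf 3298374 8778 .leaf)) 3298386 10694 (.node (.node .leaf 3298387 6727 .leaf) 3298389 8712 .leaf)) 3298402 10632 (.node (.node (.node .leaf 3298403 10632 .leaf) 3298404 10632 (.node .leaf 3298405 12810 .leaf)) 3298406 12939 (.node (.node .leaf 3298421 12810 .leaf) 3298422 12939 .leaf))) 3298423 13068 (.node (.node (.node (.node .leaf 3298438 14987 .leaf) 3298596 8901 (.node .leaf 3298612 10566 .leaf)) 3298613 8904 (.node (.node .leaf 3298628 10824 .leaf) 3298629 6664 .leaf)) 3298644 10633 (.node (.node (.node .leaf 3298646 8907 .leaf) 3298660 10633 (.node .leaf 3298661 10698 .leaf)) 3298662 10828 (.node (.node .leaf 3298663 8908 .leaf) 3298678 12940 .leaf)))) 3298679 13069 (.node (.node (.node (.node (.node .leaf 3298694 15117 .leaf) 3298695 15117 (.node .leaf 3298852 9029 .leaf)) 3298868 10566 (.node (.node .leaf 3298869 9032 .leaf) 3298884 10824 .leaf)) 3298885 6664 (.node (.node (.node .leaf 3298886 6794 .leaf) 3298901 8713 (.node .leaf 3298903 8971 .leaf)) 3298916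 10697 (.node (.node .leaf 3298918 10828 .leaf) 3298919 9037 .leaf))) 3298935 13070 (.node (.node (.node (.node .leaf 3298952 15247 .leaf) 3299108 9157 (.node .leaf 3299124 10566 .leaf)) 3299125 9160 (.node (.node .leaf 3299126 9161 .leaf) 3299140 10824 .leaf)) 3299141 6664 (.node (.node (.node .leaf 3299142 6794 .leaf) 3299143 8971 (.node .leaf 3299160 9101 .leaf)) 3299173 10698 (.node (.node .leaf 3299191 10958 .leaf) 3299208 15247 .leaf))))) 3299364 9285 (.node (.node (.node (.node (.node (.node .leaf 3299380 10566 .leaf) 3299381 9288 (.node .leaf 3299397 6664 .leaf)) 3299398 6794 (.node (.node .leaf 3299620 9413 .leaf) 3299636 10566 .leaf)) 3299637 9416 (.node (.node (.node .leaf 3301700 12872 .leaf) 3301715 12872 (.node .leaf 3301717 8713 .leaf)) 3302212 12872 (.node (.node .leaf 3302226 14790 .leaf) 3302227 10502 .leaf))) 3302229 8712 (.node (.node (.node (.node .leaf 3302242 10502 .leaf) 3302244 10697 (.node .leaf 3302261 12810 .leaf)) 3302262 14987 (.node (.node .leaf 3302468 14920 .leaf) 3302482 12742 .leaf)) 3302483 6727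 (.node (.node (.node .leaf 3302484 8712 .leaf) 3302485 8712 (.node .leaf 3302498 10632 .leaf)) 3302499 10632 (.node (.node .leaf 3302501 8778 .leaf) 3302516 12682 .leaf)))) 3302517 14859 (.node (.node (.node (.node (.node .leaf 3302518 12748 .leaf) 3302519 15118 (.node .leaf 3302533 14859 .leaf)) 3302534 12748 (.node (.node .leaf 3302535 15118 .leaf) 3302724 12872 .leaf)) 3302725 6664 (.node (.node (.node .leaf 3302739 12872 .leaf) 3302741 8713 (.node .leaf 3302756 10633 .leaf)) 3302759 8908 (.node (.node .leaf 3302773 12747 .leaf) 3302775 8909 .leaf))) 3302790 12748 (.node (.node (.node (.node .leaf 3302948 9029 .leaf) 3302965 9032 (.node .leaf 3302980 12872 .leaf)) 3302981 6664 (.node (.node .leaf 3302995 12872 .leaf) 3302996 8713 .leaf)) 3303012 10633 (.node (.node (.node .leaf 3303013 10763 .leaf) 3303029 12747 (.node .leaf 3303030 12748 .leaf)) 3303031 15119 (.node (.node .leaf 3303204 9157 .leaf) 3303220 9158 .leaf)))))))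

def c25 : NatMap := (.node (.node (.node (.node (.node (.node (.node (.node .leaf 3303236 12872 .leaf) 3303237 6664 (.node .leaf 3303253 8713 .leaf)) 3303287 11215 (.node (.node .leaf 3303460 9285 .leaf) 3303477 9288 (.node .leaf 3303492 12872 .leaf))) 3303493 6664 (.node (.node (.node .leaf 3305796 14920 .leaf) 3305813 8713 (.node .leaf 3306292 8646 .leaf)) 3306308 14920 (.node (.node .leaf 3306322 10694 .leaf) 3306323 10502 .leaf))) 3306324 8648 (.node (.node (.node (.node .leaf 3306338 10502 .leaf) 3306340 10697 (.node .leaf 3306341 10698 .leaf)) 3306342 12938 (.node (.node .leaf 3306354 12552 .leaf) 3306356 10697 .leaf)) 3306358 12938 (.node (.node (.node .leaf 3306370 14601 .leaf) 3306371 14601 (.node .leaf 3306372 2507 .leaf)) 3306373 15116 (.node (.node .leaf 3306374 12748 .leaf) 3306375 15116 .leaf)))) 3306388 18827 (.node (.node (.node (.node (.node .leaf 3306390 17037 .leaf) 3306404 18827 (.node .leaf 3306564 12872 .leaf)) 3306578 14790 (.node (.node .leaf 3306579 6727 .leaf) 3306580 10632 .leaf)) 3306581 8712 (.node (.node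 (.node .leaf 3306594 10632 .leaf) 3306595 10632 (.node .leaf 3306597 8778 .leaf)) 3306611 12682 (.node (.node .leaf 3306614 14796 .leaf) 3306627 14795 .leaf))) 3306628 14731 (.node (.node (.node (.node .leaf 3306629 16909 .leaf) 3306630 14798 (.node .leaf 3306631 14798 .leaf)) 3306645 16909 (.node (.node .leaf 3306647 17167 .leaf) 3306820 14920 .leaf)) 3306835 14920 (.node (.node (.node .leaf 3306836 10633 .leaf) 3306851 10633 (.node .leaf 3306852 10633 .leaf)) 3306854 8908 (.node (.node .leaf 3306868 12683 .leaf) 3306871 8909 .leaf))))) 3306885 14797 (.node (.node (.node (.node (.node (.node .leaf 3306886 14798 .leaf) 3306887 14798 (.node .leaf 3306902 14798 .leaf)) 3306903 14799 (.node (.node .leaf 3306919 14799 .leaf) 3307076 14920 .leaf)) 3307091 14920 (.node (.node (.node .leaf 3307093 8713 .leaf) 3307108 10633 (.node .leaf 3307142 14798 .leaf)) 3307316 9158 (.node (.node .leaf 3307332 14920 .leaf) 3307333 6664 .leaf))) 3307349 8713 (.node (.node (.node (.node .leaf 3307398 14798 .leaf) 3307588 14920 (.node .leaf 3307605 8713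 .leaf)) 3307844 14920 (.node (.node .leaf 3310354 14805 .leaf) 3310388 8646 .leaf)) 3310417 20934 (.node (.node (.node .leaf 3310419 10502 .leaf) 3310420 8648 (.node .leaf 3310434 10502 .leaf)) 3310436 10697 (.node (.node .leaf 3310437 10890 .leaf) 3310438 10890 .leaf)))) 3310452 10697 (.node (.node (.node (.node (.node .leaf 3310453 12938 .leaf) 3310454 12938 (.node .leaf 3310465 14601 .leaf)) 3310468 2507 (.node (.node .leaf 3310470 12748 .leaf) 3310483 14795 .leaf)) 3310485 17164 (.node (.node (.node .leaf 3310487 17164 .leaf) 3310609 16856 (.node .leaf 3310610 16855 .leaf)) 3310644 8774 (.node (.node .leaf 3310674 16838 .leaf) 3310675 6727 .leaf))) 3310676 10632 (.node (.node (.node (.node .leaf 3310677 8778 .leaf) 3310690 10632 (.node .leaf 3310691 10632 .leaf)) 3310693 8778 (.node (.node .leaf 3310708 12682 .leaf) 3310725 14859 .leaf)) 3310741 16846 (.node (.node (.node .leaf 3310742 16846 .leaf) 3310916 6664 (.node .leaf 3310929 16838 .leaf)) 3310931 16968 (.node (.node .leaf 3310946 16840 .leaf) 3310947 10633 .leaf)))))) 3310948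 10633 (.node (.node (.node (.node (.node (.node (.node .leaf 3310964 12683 .leaf) 3311187 16968 (.node .leaf 3311203 10633 .leaf)) 3311204 10633 (.node (.node .leaf 3311205 16842 .leaf) 3311220 12683 .leaf)) 3311412 9158 (.node (.node (.node .leaf 3311428 6664 .leaf) 3311443 16968 (.node .leaf 3311445 16842 .leaf)) 3311460 10633 (.node (.node .leaf 3311684 6664 .leaf) 3311701 16842 .leaf))) 3311940 6664 (.node (.node (.node (.node .leaf 3314514 12742 .leaf) 3314515 10502 (.node .leaf 3314530 10374 .leaf)) 3314546 12552 (.node (.node .leaf 3314548 10697 .leaf) 3314549 12810 .leaf)) 3314561 14601 (.node (.node (.node .leaf 3314562 14601 .leaf) 3314564 2507 (.node .leaf 3314566 12748 .leaf)) 3314578 16651 (.node (.node .leaf 3314581 16908 .leaf) 3314583 17164 .leaf)))) 3314596 14797 (.node (.node (.node (.node (.node .leaf 3314597 18957 .leaf) 3314598 21134 (.node .leaf 3314705 18906 .leaf)) 3314740 8774 (.node (.node .leaf 3314756 14920 .leaf) 3314770 18886 .leaf)) 3314771 6727 (.node (.node (.node .leaf 3314773 8778 .leaf) 3314786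 10632 (.node .leaf 3314787 10632 .leaf)) 3314789 8778 (.node (.node .leaf 3314803 12682 .leaf) 3314804 12682 .leaf))) 3314819 14731 (.node (.node (.node (.node .leaf 3314820 14731 .leaf) 3314821 14859 (.node .leaf 3314835 16781 .leaf)) 3314837 16909 (.node (.node .leaf 3314852 18894 .leaf) 3314854 18894 .leaf)) 3315012 6664 (.node (.node (.node .leaf 3315025 18886 .leaf) 3315027 19016 (.node .leaf 3315042 18888 .leaf)) 3315043 10633 (.node (.node .leaf 3315044 10633 .leaf) 3315060 12683 .leaf))))) 3315075 14861 (.node (.node (.node (.node (.node (.node .leaf 3315092 16782 .leaf) 3315109 18894 (.node .leaf 3315252 9030 .leaf)) 3315268 6664 (.node (.node .leaf 3315283 19016 .leaf) 3315299 10633 .leaf)) 3315300 10633 (.node (.node (.node .leaf 3315316 12683 .leaf) 3315524 6664 (.node .leaf 3315555 10505 .leaf)) 3315780 6664 (.node (.node .leaf 3316036 6664 .leaf) 3318609 16838 .leaf))) 3318611 10502 (.node (.node (.node (.node .leaf 3318626 10374 .leaf) 3318641 12552 (.node .leaf 3318642 12552 .leaf)) 3318644 10697 (.node (.node .leaf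 3318657 14601 .leaf) 3318658 14601 .leaf)) 3318676 14796 (.node (.node (.node .leaf 3318689 18571 .leaf) 3318692 18957 (.node .leaf 3318866 20934 .leaf)) 3318867 6727 (.node (.node .leaf 3318882 10632 .leaf) 3318883 10632 .leaf)))) 3318898 20937 (.node (.node (.node (.node (.node .leaf 3318899 12682 .leaf) 3318915 14731 (.node .leaf 3318931 16781 .leaf)) 3319108 6664 (.node (.node .leaf 3319123 21064 .leaf) 3319124 10633 .leaf)) 3319139 10633 (.node (.node (.node .leaf 3319140 10633 .leaf) 3319155 21067 (.node .leaf 3319156 12683 .leaf)) 3319171 14861 (.node (.node .leaf 3319187 16782 .leaf) 3319188 20941 .leaf))) 3319364 6664 (.node (.node (.node (.node .leaf 3319377 20934 .leaf) 3319379 21064 (.node .leaf 3319394 20936 .leaf)) 3319395 10633 (.node (.node .leaf 3319396 10633 .leaf) 3319620 6664 .leaf)) 3319633 20934 (.node (.node (.node .leaf 3319635 21064 .leaf) 3319650 20936 (.node .leaf 3319876 6664 .leaf)) 3320132 6664 (.node (.node .leaf 3322707 10502 .leaf) 3322722 10502 .leaf)))))))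

def c26 : NatMap := (.node (.node (.node (.node (.node (.node (.node (.node .leaf 3322740 10697 .leaf) 3322897 23005 (.node .leaf 3322962 22982 .leaf)) 3322963 6727 (.node (.node .leaf 3322978 10632 .leaf) 3322979 10632 (.node .leaf 3322994 22985 .leaf))) 3322995 12682 (.node (.node (.node .leaf 3323011 14731 .leaf) 3323204 6664 (.node .leaf 3323219 23112 .leaf)) 3323220 10633 (.node (.node .leaf 3323235 10633 .leaf) 3323236 10633 .leaf))) 3323251 23115 (.node (.node (.node (.node .leaf 3323252 12683 .leaf) 3323268 22988 (.node .leaf 3323460 6664 .leaf)) 3323473 22982 (.node (.node .leaf 3323475 23112 .leaf) 3323490 22984 .leaf)) 3323491 10633 (.node (.node (.node .leaf 3323716 6664 .leaf) 3323729 22982 (.node .leaf 3323731 23112 .leaf)) 3323746 22984 (.node (.node .leaf 3323972 6664 .leaf) 3324228 6664 .leaf)))) 3347539 14920 (.node (.node (.node (.node (.node .leaf 3347554 10633 .leaf) 3347570 12554 (.node .leaf 3347571 12554 .leaf)) 3347588 14732 (.node (.node .leaf 3347605 16909 .leaf) 3347795 2633 .leaf)) 3347812 10635 (.node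 (.node (.node .leaf 3347828 12812 .leaf) 3347829 12812 (.node .leaf 3347845 14862 .leaf)) 3348068 2635 (.node (.node .leaf 3351057 22887 .leaf) 3359781 8903 .leaf))) 3359798 6792 (.node (.node (.node (.node .leaf 3359813 6792 .leaf) 3359814 6792 (.node .leaf 3359826 21063 .leaf)) 3359828 10632 (.node (.node .leaf 3359829 10761 .leaf) 3359830 8841 .leaf)) 3359843 10632 (.node (.node (.node .leaf 3359845 10761 .leaf) 3360037 9415 (.node .leaf 3360038 4743 .leaf)) 3360053 4743 (.node (.node .leaf 3360054 4743 .leaf) 3360070 6792 .leaf))))) 3360083 8776 (.node (.node (.node (.node (.node (.node .leaf 3360084 8777 .leaf) 3360085 8778 (.node .leaf 3360086 8970 .leaf)) 3360087 8970 (.node (.node .leaf 3360100 10634 .leaf) 3360102 11019 .leaf)) 3360103 11019 (.node (.node (.node .leaf 3360119 13196 .leaf) 3360294 4743 (.node .leaf 3360309 4743 .leaf)) 3360310 4743 (.node (.node .leaf 3360325 6792 .leaf) 3360327 6922 .leaf))) 3360359 11020 (.node (.node (.node (.node .leaf 3360550 4743 .leaf) 3360565 4743 (.node .leaf 3360566 4743 .leaf))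 3360567 6922 (.node (.node .leaf 3360581 6792 .leaf) 3360584 7051 .leaf)) 3360598 8907 (.node (.node (.node .leaf 3360600 9229 .leaf) 3360806 4743 (.node .leaf 3360821 4743 .leaf)) 3360822 4743 (.node (.node .leaf 3360837 6792 .leaf) 3360853 8778 .leaf)))) 3361077 4743 (.node (.node (.node (.node (.node .leaf 3361078 4743 .leaf) 3361109 8778 (.node .leaf 3363125 8393 .leaf)) 3363142 10827 (.node (.node .leaf 3363157 10827 .leaf) 3363174 10828 .leaf)) 3363893 8776 (.node (.node (.node .leaf 3363909 8777 .leaf) 3363910 6794 (.node .leaf 3363923 10503 .leaf)) 3363925 8778 (.node (.node .leaf 3363938 10503 .leaf) 3363939 10503 .leaf))) 3363940 10632 (.node (.node (.node (.node .leaf 3363941 12810 .leaf) 3363942 10891 (.node .leaf 3363957 12810 .leaf)) 3363958 14987 (.node (.node .leaf 3363959 13068 .leaf) 3363974 14987 .leaf)) 3364149 8904 (.node (.node (.node .leaf 3364150 6794 .leaf) 3364165 11210 (.node .leaf 3364166 6794 .leaf)) 3364179 10824 (.node (.node .leaf 3364180 8842 .leaf) 3364182 8842 .leaf)))))) 3364196 10826 (.node (.node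 (.node (.node (.node (.node (.node .leaf 3364197 10762 .leaf) 3364198 10828 (.node .leaf 3364199 8908 .leaf)) 3364213 10827 (.node (.node .leaf 3364214 12940 .leaf) 3364215 13197 .leaf)) 3364230 15117 (.node (.node (.node .leaf 3364231 15117 .leaf) 3364405 9032 (.node .leaf 3364421 11338 .leaf)) 3364422 8842 (.node (.node .leaf 3364439 8972 .leaf) 3364452 10826 .leaf))) 3364454 10828 (.node (.node (.node (.node .leaf 3364455 11149 .leaf) 3364471 13070 (.node .leaf 3364472 15247 .leaf)) 3364488 15247 (.node (.node .leaf 3364661 9160 .leaf) 3364662 8842 .leaf)) 3364677 11338 (.node (.node (.node .leaf 3364678 8842 .leaf) 3364679 8972 (.node .leaf 3364693 8842 .leaf)) 3364696 9101 (.node (.node .leaf 3364709 10827 .leaf) 3364712 11279 .leaf)))) 3364727 10958 (.node (.node (.node (.node (.node .leaf 3364744 15248 .leaf) 3364917 9288 (.node .leaf 3364918 8842 .leaf)) 3364933 11210 (.node (.node .leaf 3364934 8842 .leaf) 3364967 10957 .leaf)) 3365173 9416 (.node (.node (.node .leaf 3365174 6794 .leaf) 3367252 10634 (.node .leaf 3367253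 12876 .leaf)) 3368019 10503 (.node (.node .leaf 3368020 10632 .leaf) 3368021 8778 .leaf))) 3368034 10503 (.node (.node (.node (.node .leaf 3368035 10503 .leaf) 3368052 12682 (.node .leaf 3368053 14859 .leaf)) 3368054 12940 (.node (.node .leaf 3368069 14859 .leaf) 3368070 14989 .leaf)) 3368275 12872 (.node (.node (.node .leaf 3368291 10634 .leaf) 3368292 10634 (.node .leaf 3368294 8908 .leaf)) 3368295 8908 (.node (.node .leaf 3368309 12812 .leaf) 3368310 14989 .leaf))))) 3368311 10958 (.node (.node (.node (.node (.node (.node .leaf 3368312 15247 .leaf) 3368326 14989 (.node .leaf 3368501 9032 .leaf)) 3368517 11082 (.node (.node .leaf 3368518 6794 .leaf) 3368531 12872 .leaf)) 3368532 6986 (.node (.node (.node .leaf 3368548 10634 .leaf) 3368565 13005 (.node .leaf 3368566 12878 .leaf)) 3368567 11087 (.node (.node .leaf 3368583 12879 .leaf) 3368757 9160 .leaf))) 3368773 11210 (.node (.node (.node (.node .leaf 3368774 6794 .leaf) 3368789 12876 (.node .leaf 3368790 8844 .leaf)) 3368806 10894 (.node (.node .leaf 3368823 12879 .leaf) 3369013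 9288 .leaf)) 3369029 11338 (.node (.node (.node .leaf 3369030 6794 .leaf) 3371348 15050 (.node .leaf 3371349 14924 .leaf)) 3372115 10503 (.node (.node .leaf 3372116 10632 .leaf) 3372117 8778 .leaf)))) 3372130 10503 (.node (.node (.node (.node (.node .leaf 3372131 10503 .leaf) 3372133 10827 (.node .leaf 3372147 12682 .leaf)) 3372150 12940 (.node (.node .leaf 3372163 14731 .leaf) 3372164 14731 .leaf)) 3372165 16909 (.node (.node (.node .leaf 3372166 17038 .leaf) 3372167 15118 (.node .leaf 3372181 16909 .leaf)) 3372183 17167 (.node (.node .leaf 3372371 14920 .leaf) 3372387 10762 .leaf))) 3372388 10634 (.node (.node (.node (.node .leaf 3372390 8908 .leaf) 3372404 12812 (.node .leaf 3372407 10958 .leaf)) 3372420 14925 (.node (.node .leaf 3372421 14861 .leaf) 3372422 14927 .leaf)) 3372423 14928 (.node (.node (.node .leaf 3372424 15248 .leaf) 3372438 17039 (.node .leaf 3372439 17168 .leaf)) 3372455 19216 (.node (.node .leaf 3372627 14920 .leaf) 3372628 15050 .leaf)))))))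

def c27 : NatMap := (.node (.node (.node (.node (.node (.node (.node (.node .leaf 3372644 10634 .leaf) 3372661 12813 (.node .leaf 3372678 14927 .leaf)) 3372679 14928 (.node (.node .leaf 3372869 11210 .leaf) 3372884 15050 (.node .leaf 3372885 14924 .leaf))) 3372886 8844 (.node (.node (.node .leaf 3372901 14924 .leaf) 3372934 14927 (.node .leaf 3373141 14924 .leaf)) 3376145 2331 (.node (.node .leaf 3376211 10503 .leaf) 3376212 10632 .leaf))) 3376213 8778 (.node (.node (.node (.node .leaf 3376226 10503 .leaf) 3376227 10503 (.node .leaf 3376229 10827 .leaf)) 3376244 12682 (.node (.node .leaf 3376277 17038 .leaf) 3376278 17038 .leaf)) 3376467 16968 (.node (.node (.node .leaf 3376482 10634 .leaf) 3376483 10634 (.node .leaf 3376484 10634 .leaf)) 3376486 8908 (.node (.node .leaf 3376500 12812 .leaf) 3376502 10957 .leaf)))) 3376516 14861 (.node (.node (.node (.node (.node .leaf 3376723 16968 .leaf) 3376724 6986 (.node .leaf 3376739 16970 .leaf)) 3376740 10634 (.node (.node .leaf 3376741 16972 .leaf) 3376756 12813 .leaf)) 3376773 14863 (.node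 (.node (.node .leaf 3376979 16968 .leaf) 3376981 16972 (.node .leaf 3376996 10634 .leaf)) 3377237 16972 (.node (.node .leaf 3380307 10503 .leaf) 3380309 8778 .leaf))) 3380322 10503 (.node (.node (.node (.node .leaf 3380323 10503 .leaf) 3380325 10827 (.node .leaf 3380339 12682 .leaf)) 3380340 12682 (.node (.node .leaf 3380355 14731 .leaf) 3380356 14731 .leaf)) 3380371 16781 (.node (.node (.node .leaf 3380373 17038 .leaf) 3380388 18830 (.node .leaf 3380563 19016 .leaf)) 3380579 10634 (.node (.node .leaf 3380580 10634 .leaf) 3380596 12812 .leaf))))) 3380611 14861 (.node (.node (.node (.node (.node (.node .leaf 3380628 16783 .leaf) 3380645 18960 (.node .leaf 3380646 19024 .leaf)) 3380819 19016 (.node (.node .leaf 3380835 19018 .leaf) 3380836 10634 .leaf)) 3380852 12813 (.node (.node (.node .leaf 3380869 19022 .leaf) 3381074 19015 (.node .leaf 3381091 19018 .leaf)) 3384403 10503 (.node (.node .leaf 3384418 10503 .leaf) 3384419 10503 .leaf))) 3384434 12682 (.node (.node (.node (.node .leaf 3384435 12682 .leaf) 3384451 14731 (.node .leaf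 3384467 16781 .leaf)) 3384658 21063 (.node (.node .leaf 3384659 21064 .leaf) 3384675 10762 .leaf)) 3384676 10634 (.node (.node (.node .leaf 3384691 21067 .leaf) 3384692 12812 (.node .leaf 3384707 14861 .leaf)) 3384708 14861 (.node (.node .leaf 3384723 21070 .leaf) 3384724 16783 .leaf)))) 3384915 21064 (.node (.node (.node (.node (.node .leaf 3384931 21066 .leaf) 3384932 10634 (.node .leaf 3384948 12813 .leaf)) 3385186 10634 (.node (.node .leaf 3388433 19037 .leaf) 3388499 10503 .leaf)) 3388514 10503 (.node (.node (.node .leaf 3388515 10503 .leaf) 3388530 12682 (.node .leaf 3388531 12682 .leaf)) 3388547 14731 (.node (.node .leaf 3388689 23137 .leaf) 3388754 23111 .leaf))) 3388755 23112 (.node (.node (.node (.node .leaf 3388771 10762 .leaf) 3388772 10634 (.node .leaf 3388787 23115 .leaf)) 3388788 12812 (.node (.node .leaf 3388804 14861 .leaf) 3389011 23112 .leaf)) 3389027 23114 (.node (.node (.node .leaf 3389028 10634 .leaf) 3389044 23245 (.node .leaf 3389282 10634 .leaf)) 3413331 19145 (.node (.node .leaf 3413348 10635 .leaf) 3413364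 12812 .leaf)))))) 3413381 14990 (.node (.node (.node (.node (.node (.node (.node .leaf 3413588 6987 .leaf) 3413604 2764 (.node .leaf 3413620 2766 .leaf)) 3413621 2766 (.node (.node .leaf 3413845 11213 .leaf) 3425570 9436 .leaf)) 3425574 9033 (.node (.node (.node .leaf 3425591 6921 .leaf) 3425606 6921 (.node .leaf 3425619 13001 .leaf)) 3425622 8970 (.node (.node .leaf 3425623 8970 .leaf) 3425636 10762 .leaf))) 3425638 10891 (.node (.node (.node (.node .leaf 3425639 11019 .leaf) 3425830 9161 (.node .leaf 3425846 4873 .leaf)) 3425847 4873 (.node (.node .leaf 3425863 6922 .leaf) 3425877 8907 .leaf)) 3425878 8907 (.node (.node (.node .leaf 3425879 9100 .leaf) 3426086 9033 (.node .leaf 3426087 4873 .leaf)) 3426102 4873 (.node (.node .leaf 3426103 4873 .leaf) 3426118 6922 .leaf)))) 3426120 7052 (.node (.node (.node (.node (.node .leaf 3426133 8907 .leaf) 3426136 9229 (.node .leaf 3426149 11021 .leaf)) 3426358 8905 (.node (.node .leaf 3426359 4873 .leaf) 3426374 6922 .leaf)) 3426390 8907 (.node (.node (.node .leaf 3426614 8905 .leaf) 3426630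 6922 (.node .leaf 3426646 8907 .leaf)) 3428693 8972 (.node (.node .leaf 3428710 10957 .leaf) 3429686 8905 .leaf))) 3429702 8906 (.node (.node (.node (.node .leaf 3429703 6924 .leaf) 3429715 21193 (.node .leaf 3429716 10633 .leaf)) 3429718 8907 (.node (.node .leaf 3429732 10633 .leaf) 3429733 10763 .leaf)) 3429734 12940 (.node (.node (.node .leaf 3429735 11020 .leaf) 3429749 12940 (.node .leaf 3429750 12940 .leaf)) 3429751 13197 (.node (.node .leaf 3429958 10827 .leaf) 3429972 6987 .leaf))))) 3429973 8972 (.node (.node (.node (.node (.node (.node .leaf 3429975 8972 .leaf) 3429989 10956 (.node .leaf 3429990 10957 .leaf)) 3429991 10957 (.node (.node .leaf 3430005 10957 .leaf) 3430007 13070 .leaf)) 3430008 15247 (.node (.node (.node .leaf 3430024 15247 .leaf) 3430198 9162 (.node .leaf 3430199 6924 .leaf)) 3430214 10827 (.node (.node .leaf 3430215 6924 .leaf) 3430229 8972 .leaf))) 3430230 8972 (.node (.node (.node (.node .leaf 3430232 9166 .leaf) 3430245 10956 (.node .leaf 3430247 10957 .leaf)) 3430248 11279 (.node (.node .leaf 3430261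 10957 .leaf) 3430263 10958 .leaf)) 3430280 15249 (.node (.node (.node .leaf 3430454 9290 .leaf) 3430470 10827 (.node .leaf 3430471 8972 .leaf)) 3430486 8972 (.node (.node .leaf 3430502 10957 .leaf) 3430503 10957 .leaf)))) 3430710 9418 (.node (.node (.node (.node (.node .leaf 3430758 10957 .leaf) 3432787 13001 (.node .leaf 3432789 10765 .leaf)) 3433811 19145 (.node (.node .leaf 3433827 10633 .leaf) 3433828 10633 .leaf)) 3433830 10957 (.node (.node (.node .leaf 3433831 10957 .leaf) 3433845 12812 (.node .leaf 3433846 14989 .leaf)) 3433847 10958 (.node (.node .leaf 3433862 14989 .leaf) 3434054 11084 .leaf))) 3434067 13001 (.node (.node (.node (.node .leaf 3434068 6987 .leaf) 3434071 8973 (.node .leaf 3434084 13004 .leaf)) 3434085 10765 (.node (.node .leaf 3434087 9038 .leaf) 3434101 13005 .leaf)) 3434102 14991 (.node (.node (.node .leaf 3434103 11087 .leaf) 3434104 13008 (.node .leaf 3434118 14991 .leaf)) 3434119 15120 (.node (.node .leaf 3434310 11212 .leaf) 3434325 11213 .leaf)))))))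

def c28 : NatMap := (.node (.node (.node (.node (.node (.node (.node (.node .leaf 3434327 8973 .leaf) 3434342 10894 (.node .leaf 3434359 13007 .leaf)) 3434566 11340 (.node (.node .leaf 3434581 8973 .leaf) 3436885 10765 (.node .leaf 3437907 19145 .leaf))) 3437908 10633 (.node (.node (.node .leaf 3437923 10633 .leaf) 3437924 10633 (.node .leaf 3437926 10957 .leaf)) 3437940 12812 (.node (.node .leaf 3437943 10958 .leaf) 3437956 14861 .leaf))) 3437957 14861 (.node (.node (.node (.node .leaf 3437958 17039 .leaf) 3437959 17168 (.node .leaf 3437974 17039 .leaf)) 3437975 17168 (.node (.node .leaf 3437991 19216 .leaf) 3438163 15049 .leaf)) 3438164 6987 (.node (.node (.node .leaf 3438165 10765 .leaf) 3438180 15052 (.node .leaf 3438181 10765 .leaf)) 3438183 9038 (.node (.node .leaf 3438197 12814 .leaf) 3438213 14991 .leaf)))) 3438214 14991 (.node (.node (.node (.node (.node .leaf 3438215 17169 .leaf) 3438216 15058 (.node .leaf 3438421 11213 .leaf)) 3438422 9165 (.node (.node .leaf 3438437 10765 .leaf) 3438438 10894 .leaf)) 3438677 9293 (.node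 (.node (.node .leaf 3438694 15054 .leaf) 3442003 23241 (.node .leaf 3442019 10633 .leaf)) 3442020 10633 (.node (.node .leaf 3442022 10957 .leaf) 3442036 12812 .leaf))) 3442038 10957 (.node (.node (.node (.node .leaf 3442052 14861 .leaf) 3442259 17097 (.node .leaf 3442260 6987 .leaf)) 3442276 17100 (.node (.node .leaf 3442277 10765 .leaf) 3442292 17101 .leaf)) 3442309 14863 (.node (.node (.node .leaf 3442515 17097 .leaf) 3442517 11213 (.node .leaf 3442532 17100 .leaf)) 3442534 10894 (.node (.node .leaf 3442773 9293 .leaf) 3442790 10894 .leaf))))) 3443029 9421 (.node (.node (.node (.node (.node (.node .leaf 3446099 17097 .leaf) 3446115 10633 (.node .leaf 3446116 10633 .leaf)) 3446132 12812 (.node (.node .leaf 3446147 14861 .leaf) 3446164 16783 .leaf)) 3446181 18960 (.node (.node (.node .leaf 3446182 21137 .leaf) 3446355 19145 (.node .leaf 3446356 6987 .leaf)) 3446371 19148 (.node (.node .leaf 3446372 19148 .leaf) 3446388 19149 .leaf))) 3446389 12814 (.node (.node (.node (.node .leaf 3446403 14863 .leaf) 3446405 14863 (.node .leaf 3446420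 19152 .leaf)) 3446437 19153 (.node (.node .leaf 3446613 11213 .leaf) 3446627 19148 .leaf)) 3450146 19168 (.node (.node (.node .leaf 3450194 10633 .leaf) 3450195 23241 (.node .leaf 3450196 10633 .leaf)) 3450211 10633 (.node (.node .leaf 3450212 10633 .leaf) 3450227 12684 .leaf)))) 3450228 12812 (.node (.node (.node (.node (.node .leaf 3450243 14861 .leaf) 3450244 14861 (.node .leaf 3450260 16783 .leaf)) 3450451 21193 (.node (.node .leaf 3450452 6987 .leaf) 3450467 21196 .leaf)) 3450468 21196 (.node (.node (.node .leaf 3450484 21197 .leaf) 3450499 14863 (.node .leaf 3450707 21193 .leaf)) 3450709 11213 (.node (.node .leaf 3453457 23267 .leaf) 3454225 4386 .leaf))) 3454242 19168 (.node (.node (.node (.node .leaf 3454290 10633 .leaf) 3454291 21193 (.node .leaf 3454292 10633 .leaf)) 3454307 10633 (.node (.node .leaf 3454308 10633 .leaf) 3454323 12684 .leaf)) 3454324 12812 (.node (.node (.node .leaf 3454340 14733 .leaf) 3454547 23241 (.node .leaf 3454548 6987 .leaf)) 3454563 23244 (.node (.node .leaf 3454564 23244 .leaf) 3454579 23245 .leaf))))))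 3454580 23245 (.node (.node (.node (.node (.node (.node (.node .leaf 3454803 23241 .leaf) 3454805 11213 (.node .leaf 3479140 10766 .leaf)) 3479156 17231 (.node (.node .leaf 3479157 19279 .leaf) 3479381 7116 .leaf)) 3479397 10895 (.node (.node (.node .leaf 3491399 7051 .leaf) 3491415 9100 (.node .leaf 3491431 11020 .leaf)) 3491639 9035 (.node (.node .leaf 3491640 5003 .leaf) 3491656 7052 .leaf))) 3491670 9036 (.node (.node (.node (.node .leaf 3491671 9229 .leaf) 3491672 9229 (.node .leaf 3491685 10894 .leaf)) 3491911 7052 (.node (.node .leaf 3491925 7244 .leaf) 3491926 9036 .leaf)) 3491942 11022 (.node (.node (.node .leaf 3492130 6554 .leaf) 3492181 9036 (.node .leaf 3492182 9036 .leaf)) 3492183 9037 (.node (.node .leaf 3495511 9037 .leaf) 3495525 10764 .leaf)))) 3495526 10893 (.node (.node (.node (.node (.node .leaf 3495527 13070 .leaf) 3495543 13070 (.node .leaf 3495544 13199 .leaf)) 3495735 9164 (.node (.node .leaf 3495751 10957 .leaf) 3495752 9165 .leaf)) 3495765 7116 (.node (.node (.node .leaf 3495768 9166 .leaf) 3495781 10894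 (.node .leaf 3495782 10894 .leaf)) 3495783 11022 (.node (.node .leaf 3495784 11279 .leaf) 3495797 11087 .leaf))) 3495799 11087 (.node (.node (.node (.node .leaf 3495816 15249 .leaf) 3496007 10957 (.node .leaf 3496022 9294 .leaf)) 3496023 11022 (.node (.node .leaf 3496038 11022 .leaf) 3496039 11022 .leaf)) 3496278 9422 (.node (.node (.node .leaf 3496294 11086 .leaf) 3496295 11087 (.node .leaf 3498324 13132 .leaf)) 3499604 17228 (.node (.node .leaf 3499607 9037 .leaf) 3499620 10764 .leaf))))) 3499621 10764 (.node (.node (.node (.node (.node (.node .leaf 3499637 12814 .leaf) 3499638 14991 (.node .leaf 3499639 11087 .leaf)) 3499640 13200 (.node (.node .leaf 3499654 14991 .leaf) 3499655 15120 .leaf)) 3499861 7116 (.node (.node (.node .leaf 3499862 10894 .leaf) 3499863 11023 (.node .leaf 3499877 10894 .leaf)) 3499878 10894 (.node (.node .leaf 3499894 13136 .leaf) 3499895 13137 .leaf))) 3499912 15250 (.node (.node (.node (.node .leaf 3500117 7244 .leaf) 3500118 9294 (.node .leaf 3500134 10894 .leaf)) 3502420 15180 (.node (.node .leaf 3503700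 17228 .leaf) 3503716 10764 .leaf)) 3503717 10764 (.node (.node (.node .leaf 3503719 11087 .leaf) 3503733 12814 (.node .leaf 3503749 14991 .leaf)) 3503750 14991 (.node (.node .leaf 3503751 17169 .leaf) 3503752 17298 .leaf)))) 3503956 15180 (.node (.node (.node (.node (.node .leaf 3503957 7116 .leaf) 3503958 10894 (.node .leaf 3503973 10894 .leaf)) 3503974 10894 (.node (.node .leaf 3503990 13073 .leaf) 3504006 15185 .leaf)) 3504214 9294 (.node (.node (.node .leaf 3504230 10894 .leaf) 3507796 15180 (.node .leaf 3507812 10764 .leaf)) 3507828 12814 (.node (.node .leaf 3507845 14863 .leaf) 3508053 7116 .leaf))) 3508068 10894 (.node (.node (.node (.node .leaf 3508069 10894 .leaf) 3508070 10894 (.node .leaf 3508309 7244 .leaf)) 3508310 10894 (.node (.node .leaf 3508326 10894 .leaf) 3508565 17486 .leaf)) 3508566 9422 (.node (.node (.node .leaf 3508582 10894 .leaf) 3511908 10764 (.node .leaf 3511924 12686 .leaf)) 3511939 14863 (.node (.node .leaf 3511941 14991 .leaf) 3511973 18961 .leaf)))))))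

def c29 : NatMap := (.node (.node (.node (.node (.node (.node (.node (.node .leaf 3512164 10894 .leaf) 3512165 10894 (.node .leaf 3512180 19279 .leaf)) 3516004 10764 (.node (.node .leaf 3516020 12686 .leaf) 3516035 14863 (.node .leaf 3516245 7116 .leaf))) 3516261 10894 (.node (.node (.node .leaf 3520100 10764 .leaf) 3520115 12686 (.node .leaf 3520116 12686 .leaf)) 3520341 7116 (.node (.node .leaf 3520357 10894 .leaf) 3520854 9422 .leaf))) 3544917 13261 (.node (.node (.node (.node .leaf 3544933 10895 .leaf) 3557192 7180 (.node .leaf 3557205 13261 .leaf)) 3557208 9229 (.node (.node .leaf 3557221 11021 .leaf) 3557461 11023 .leaf)) 3557462 9165 (.node (.node (.node .leaf 3557463 9166 .leaf) 3557464 9166 (.node .leaf 3557478 11023 .leaf)) 3557683 8729 (.node (.node .leaf 3557700 10902 .leaf) 3557717 11026 .leaf)))) 3557718 9165 (.node (.node (.node (.node (.node .leaf 3557719 9166 .leaf) 3557735 11152 (.node .leaf 3561288 9165 .leaf)) 3561301 13261 (.node (.node .leaf 3561302 10893 .leaf) 3561304 9166 .leaf)) 3561317 10893 (.node (.node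 (.node .leaf 3561318 10893 .leaf) 3561319 11279 (.node .leaf 3561320 11279 .leaf)) 3561333 12944 (.node (.node .leaf 3561335 13200 .leaf) 3561558 7245 .leaf))) 3561559 11023 (.node (.node (.node (.node .leaf 3561574 11151 .leaf) 3561575 11023 (.node .leaf 3561576 11151 .leaf)) 3561815 11343 (.node (.node .leaf 3561830 11023 .leaf) 3561831 11023 .leaf)) 3565380 10893 (.node (.node (.node .leaf 3565397 15309 .leaf) 3565398 10893 (.node .leaf 3565399 11023 .leaf)) 3565413 10893 (.node (.node .leaf 3565414 10893 .leaf) 3565431 15121 .leaf))))) 3565448 15250 (.node (.node (.node (.node (.node (.node .leaf 3565636 10898 .leaf) 3565653 13261 (.node .leaf 3565654 7245 .leaf)) 3565670 11023 (.node (.node .leaf 3569476 10893 .leaf) 3569493 17357 .leaf)) 3569509 10893 (.node (.node (.node .leaf 3569510 10893 .leaf) 3569542 15122 (.node .leaf 3569749 15309 .leaf)) 3569750 7245 (.node (.node .leaf 3569766 11023 .leaf) 3573572 10893 .leaf))) 3573589 19405 (.node (.node (.node (.node .leaf 3573605 10893 .leaf) 3573606 10893 (.node .leaf 3573828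 10898 .leaf)) 3573845 17357 (.node (.node .leaf 3573846 7245 .leaf) 3573862 11023 .leaf)) 3574084 10903 (.node (.node (.node .leaf 3574101 17357 .leaf) 3574103 11023 (.node .leaf 3574118 11023 .leaf)) 3574119 11023 (.node (.node .leaf 3577685 11213 .leaf) 3577701 10893 .leaf)))) 3577716 12817 (.node (.node (.node (.node (.node .leaf 3581781 15309 .leaf) 3581797 10893 (.node .leaf 3585877 15309 .leaf)) 3585893 10893 (.node (.node .leaf 3586134 7245 .leaf) 3586390 7374 .leaf)) 3586391 11023 (.node (.node (.node .leaf 3622997 13394 .leaf) 3622998 11342 (.node .leaf 3623014 11151 .leaf)) 3623236 10904 (.node (.node .leaf 3623237 11029 .leaf) 3623253 11029 .leaf))) 3623254 11153 (.node (.node (.node (.node .leaf 3623255 9295 .leaf) 3623256 9295 (.node .leaf 3623271 11153 .leaf)) 3627077 11022 (.node (.node .leaf 3627094 23630 .leaf) 3627095 11022 .leaf)) 3627111 11022 (.node (.node (.node .leaf 3627112 11152 .leaf) 3627350 11342 (.node .leaf 3627351 7375 .leaf)) 3627367 11153 (.node (.node .leaf 3627368 11153 .leaf) 3631172 10898 .leaf))))))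 3631189 11022 (.node (.node (.node (.node (.node (.node (.node .leaf 3631190 17486 .leaf) 3631206 11022 (.node .leaf 3635286 17486 .leaf)) 3635302 11022 (.node (.node .leaf 3639364 10898 .leaf) 3639381 11022 .leaf)) 3639382 11342 (.node (.node (.node .leaf 3639398 11022 .leaf) 3639620 10903 (.node .leaf 3639637 17490 .leaf)) 3639638 17486 (.node (.node .leaf 3639639 7375 .leaf) 3639654 11153 .leaf))) 3639655 11153 (.node (.node (.node (.node .leaf 3643735 7375 .leaf) 3651653 11022 (.node .leaf 3651909 11028 .leaf)) 3651926 23630 (.node (.node .leaf 3651927 7375 .leaf) 3651943 11153 .leaf)) 3688789 17623 (.node (.node (.node .leaf 3688790 23764 .leaf) 3688791 17616 (.node .leaf 3688807 11280 .leaf)) 3692887 17616 (.node (.node .leaf 3692903 11152 .leaf) 3692904 11152 .leaf)))) 3705156 10903 (.node (.node (.node (.node (.node .leaf 3705158 11152 .leaf) 3705173 13076 (.node .leaf 3705174 11152 .leaf)) 3705175 19664 (.node (.node .leaf 3705190 11152 .leaf) 3705191 11152 .leaf)) 3709254 11152 (.node (.node (.node .leaf 3717445 11028 .leaf)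 3717462 11152 (.node .leaf 3717463 19664 .leaf)) 3717479 11152 (.node (.node .leaf 4264515 2241 .leaf) 4264531 14661 .leaf))) 4264546 10566 (.node (.node (.node (.node .leaf 4264547 10630 .leaf) 4264548 10630 (.node .leaf 4264562 12679 .leaf)) 4264563 12551 (.node (.node .leaf 4264564 12679 .leaf) 4264578 14600 .leaf)) 4264579 14856 (.node (.node (.node .leaf 4264580 14856 .leaf) 4264594 16649 (.node .leaf 4264595 16777 .leaf)) 4264596 16777 (.node (.node .leaf 4264611 18826 .leaf) 4264612 18954 .leaf))))) 4264787 6594 (.node (.node (.node (.node (.node (.node .leaf 4264802 2375 .leaf) 4264803 2375 (.node .leaf 4264804 10632 .leaf)) 4264818 2376 (.node (.node .leaf 4264819 2376 .leaf) 4264820 2376 .leaf)) 4264834 2377 (.node (.node (.node .leaf 4264835 2377 .leaf) 4264836 2377 (.node .leaf 4264851 2378 .leaf)) 4264852 2378 (.node (.node .leaf 4265043 6722 .leaf) 4265058 2375 .leaf))) 4265074 2376 (.node (.node (.node (.node .leaf 4265075 2376 .leaf) 4265092 2377 (.node .leaf 4265267 10946 .leaf)) 4265268 8579 (.node (.node .leaf 4265284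 8579 .leaf) 4265299 6850 .leaf)) 4265300 8579 (.node (.node (.node .leaf 4265316 2376 .leaf) 4265523 11074 (.node .leaf 4265524 8579 .leaf)) 4265540 8579 (.node (.node .leaf 4265555 6978 .leaf) 4265556 8579 .leaf)))) 4269123 4289 (.node (.node (.node (.node (.node .leaf 4269379 4289 .leaf) 4269635 4289 (.node .leaf 4269891 4289 .leaf)) 4270147 4289 (.node (.node .leaf 4270403 4289 .leaf) 4273235 6850 .leaf)) 4273732 10626 (.node (.node (.node .leaf 4273747 6850 .leaf) 4277315 10819 (.node .leaf 4280884 8581 .leaf)) 4280899 10947 (.node (.node .leaf 4280900 8581 .leaf) 4280930 10629 .leaf))) 4280931 10629 (.node (.node (.node (.node .leaf 4280932 10629 .leaf) 4280947 12550 (.node .leaf 4280966 20811 .leaf)) 4281155 6530 (.node (.node .leaf 4281186 10566 .leaf) 4281187 10567 .leaf)) 4281188 12680 (.node (.node (.node .leaf 4281189 12809 .leaf) 4281202 12680 (.node .leaf 4281204 12680 .leaf)) 4281395 10690 (.node (.node .leaf 4281396 6530 .leaf) 4281397 4616 .leaf)))))))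

def c30 : NatMap := (.node (.node (.node (.node (.node (.node (.node (.node .leaf 4281412 6530 .leaf) 4281413 6664 (.node .leaf 4281427 6722 .leaf)) 4281429 8841 (.node (.node .leaf 4281444 10632 .leaf) 4281445 10890 (.node .leaf 4281446 10890 .leaf))) 4281459 12681 (.node (.node (.node .leaf 4281461 12810 .leaf) 4281462 14987 (.node .leaf 4281463 13068 .leaf)) 4281651 10690 (.node (.node .leaf 4281652 6530 .leaf) 4281653 6664 .leaf))) 4281667 6530 (.node (.node (.node (.node .leaf 4281668 6530 .leaf) 4281669 6664 (.node .leaf 4281683 6850 .leaf)) 4281686 8841 (.node (.node .leaf 4281700 10697 .leaf) 4281701 12810 .leaf)) 4281702 11020 (.node (.node (.node .leaf 4281718 12940 .leaf) 4281719 15117 (.node .leaf 4281734 10828 .leaf)) 4281735 15117 (.node (.node .leaf 4281907 10690 .leaf) 4281908 6530 .leaf)))) 4281909 4616 (.node (.node (.node (.node (.node .leaf 4281924 6530 .leaf) 4281926 6793 (.node .leaf 4281939 6978 .leaf)) 4281940 8579 (.node (.node .leaf 4281941 8713 .leaf) 4281943 8971 .leaf)) 4281956 10697 (.node (.node (.node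 .leaf 4281958 10891 .leaf) 4281975 13069 (.node .leaf 4282163 10946 .leaf)) 4282164 6530 (.node (.node .leaf 4282165 4616 .leaf) 4282182 6793 .leaf))) 4282183 8971 (.node (.node (.node (.node .leaf 4282231 10829 .leaf) 4282248 15247 (.node .leaf 4282419 11074 .leaf)) 4282420 6530 (.node (.node .leaf 4282421 6664 .leaf) 4282675 10946 .leaf)) 4282676 6530 (.node (.node (.node .leaf 4284995 12481 .leaf) 4284996 8581 (.node .leaf 4284997 8711 .leaf)) 4285011 14661 (.node (.node .leaf 4285013 8711 .leaf) 4285027 10629 .leaf))))) 4285028 10629 (.node (.node (.node (.node (.node (.node .leaf 4285029 12807 .leaf) 4285042 12422 (.node .leaf 4285043 12807 .leaf)) 4285044 12807 (.node (.node .leaf 4285045 12807 .leaf) 4285047 13069 .leaf)) 4285061 14855 (.node (.node (.node .leaf 4285235 10690 .leaf) 4285236 8581 (.node .leaf 4285251 12481 .leaf)) 4285252 8581 (.node (.node .leaf 4285267 8581 .leaf) 4285282 10631 .leaf))) 4285284 10631 (.node (.node (.node (.node .leaf 4285298 12615 .leaf) 4285299 12615 (.node .leaf 4285300 12615 .leaf)) 4285301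 12810 (.node (.node .leaf 4285302 14987 .leaf) 4285318 14987 .leaf)) 4285491 10818 (.node (.node (.node .leaf 4285492 8579 .leaf) 4285507 12481 (.node .leaf 4285508 8579 .leaf)) 4285523 6722 (.node (.node .leaf 4285524 8579 .leaf) 4285525 8713 .leaf)))) 4285539 10632 (.node (.node (.node (.node (.node .leaf 4285541 10890 .leaf) 4285556 12615 (.node .leaf 4285557 10827 .leaf)) 4285558 12939 (.node (.node .leaf 4285573 12619 .leaf) 4285747 10946 .leaf)) 4285748 8579 (.node (.node (.node .leaf 4285763 12481 .leaf) 4285764 8579 (.node .leaf 4285765 10953 .leaf)) 4285779 6850 (.node (.node .leaf 4285780 8579 .leaf) 4285781 8713 .leaf))) 4285782 8842 (.node (.node (.node (.node .leaf 4285796 10633 .leaf) 4285798 10890 (.node .leaf 4285813 12619 .leaf)) 4285814 14989 (.node (.node .leaf 4285815 10958 .leaf) 4285830 14989 .leaf)) 4285847 12623 (.node (.node (.node .leaf 4286003 11074 .leaf) 4286004 8579 (.node .leaf 4286019 12481 .leaf)) 4286020 8579 (.node (.node .leaf 4286021 8713 .leaf) 4286035 6978 .leaf)))))) 4286036 8579 (.node (.node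 (.node (.node (.node (.node (.node .leaf 4286037 8713 .leaf) 4286053 10762 (.node .leaf 4286069 12747 .leaf)) 4286070 12940 (.node (.node .leaf 4286071 15119 .leaf) 4286259 11202 .leaf)) 4286260 8579 (.node (.node (.node .leaf 4286275 12481 .leaf) 4286276 8579 (.node .leaf 4286277 8713 .leaf)) 4286278 8842 (.node (.node .leaf 4286327 11215 .leaf) 4286515 11330 .leaf))) 4286516 8579 (.node (.node (.node (.node .leaf 4286531 12481 .leaf) 4286532 8579 (.node .leaf 4286533 8713 .leaf)) 4286771 11458 (.node (.node .leaf 4286787 12481 .leaf) 4286788 8579 .leaf)) 4289041 4369 (.node (.node (.node .leaf 4289075 8583 .leaf) 4289091 14529 (.node .leaf 4289092 10629 .leaf)) 4289107 16709 (.node (.node .leaf 4289108 10629 .leaf) 4289109 8711 .leaf)))) 4289123 10629 (.node (.node (.node (.node (.node .leaf 4289124 10629 .leaf) 4289125 12807 (.node .leaf 4289126 10889 .leaf)) 4289137 12422 (.node (.node .leaf 4289140 12679 .leaf) 4289142 14985 .leaf)) 4289154 14727 (.node (.node (.node .leaf 4289155 14727 .leaf) 4289156 14727 (.node .leaf 4289157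 14855 .leaf)) 4289158 14985 (.node (.node .leaf 4289171 16648 .leaf) 4289172 16905 .leaf))) 4289173 17033 (.node (.node (.node (.node .leaf 4289174 17033 .leaf) 4289188 18825 (.node .leaf 4289298 4500 .leaf)) 4289315 6672 (.node (.node .leaf 4289331 10690 .leaf) 4289332 8581 .leaf)) 4289347 14529 (.node (.node (.node .leaf 4289348 8581 .leaf) 4289363 14661 (.node .leaf 4289364 8581 .leaf)) 4289365 14665 (.node (.node .leaf 4289378 10631 .leaf) 4289380 10631 .leaf))))) 4289381 14665 (.node (.node (.node (.node (.node (.node .leaf 4289382 12939 .leaf) 4289393 12552 (.node .leaf 4289394 12552 .leaf)) 4289398 12939 (.node (.node .leaf 4289410 14664 .leaf) 4289411 14665 .leaf)) 4289412 14665 (.node (.node (.node .leaf 4289413 14665 .leaf) 4289414 17037 (.node .leaf 4289415 15117 .leaf)) 4289427 14665 (.node (.node .leaf 4289428 14665 .leaf) 4289430 17037 .leaf))) 4289431 17166 (.node (.node (.node (.node .leaf 4289444 14666 .leaf) 4289447 19214 (.node .leaf 4289587 10818 .leaf)) 4289603 14529 (.node (.node .leaf 4289604 8579 .leaf) 4289619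 6722 .leaf)) 4289620 8579 (.node (.node (.node .leaf 4289634 10632 .leaf) 4289635 14663 (.node .leaf 4289636 14663 .leaf)) 4289637 14665 (.node (.node .leaf 4289651 12553 .leaf) 4289653 14665 .leaf)))) 4289668 14665 (.node (.node (.node (.node (.node .leaf 4289669 14665 .leaf) 4289670 10828 (.node .leaf 4289685 14665 .leaf)) 4289843 10946 (.node (.node .leaf 4289859 14529 .leaf) 4289860 8579 .leaf)) 4289875 6850 (.node (.node (.node .leaf 4289876 8579 .leaf) 4289877 14665 (.node .leaf 4289891 14663 .leaf)) 4289925 14665 (.node (.node .leaf 4289926 14669 .leaf) 4289942 14669 .leaf))) 4289959 14671 (.node (.node (.node (.node .leaf 4290099 11074 .leaf) 4290115 14529 (.node .leaf 4290116 8579 .leaf)) 4290131 6978 (.node (.node .leaf 4290132 8579 .leaf) 4290133 14665 .leaf)) 4290148 14663 (.node (.node (.node .leaf 4290150 10891 .leaf) 4290167 11087 (.node .leaf 4290182 14669 .leaf)) 4290199 14671 (.node (.node .leaf 4290355 11202 .leaf) 4290356 8579 .leaf)))))))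

def c31 : NatMap := (.node (.node (.node (.node (.node (.node (.node (.node .leaf 4290373 8713 .leaf) 4290387 7106 (.node .leaf 4290388 8579 .leaf)) 4290404 14663 (.node (.node .leaf 4290438 14669 .leaf) 4290439 14671 .leaf)) 4290611 11330 (.node (.node (.node .leaf 4290628 8579 .leaf) 4290643 7234 (.node .leaf 4290644 8579 .leaf)) 4290645 14665 (.node (.node .leaf 4290662 10891 .leaf) 4290867 11458 .leaf))) 4290884 8579 (.node (.node (.node (.node .leaf 4290899 7362 .leaf) 4290900 8579 (.node .leaf 4293137 4243 .leaf)) 4293154 6542 (.node (.node .leaf 4293187 16577 .leaf) 4293203 14661 .leaf)) 4293204 10629 (.node (.node (.node .leaf 4293205 10759 .leaf) 4293219 10629 (.node .leaf 4293220 10629 .leaf)) 4293221 12807 (.node (.node .leaf 4293222 10889 .leaf) 4293233 12422 .leaf)))) 4293235 12679 (.node (.node (.node (.node (.node .leaf 4293236 14727 .leaf) 4293237 14855 (.node .leaf 4293238 14985 .leaf)) 4293249 18760 (.node (.node .leaf 4293251 14855 .leaf) 4293252 14855 .leaf)) 4293253 14855 (.node (.node (.node .leaf 4293254 14985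 .leaf) 4293265 16520 (.node .leaf 4293266 16520 .leaf)) 4293267 18697 (.node (.node .leaf 4293268 14665 .leaf) 4293269 17033 .leaf))) 4293270 19081 (.node (.node (.node (.node .leaf 4293271 19211 .leaf) 4293284 18953 (.node .leaf 4293393 16727 .leaf)) 4293394 4502 (.node (.node .leaf 4293410 6546 .leaf) 4293411 6546 .leaf)) 4293427 10690 (.node (.node (.node .leaf 4293428 8581 .leaf) 4293443 16577 (.node .leaf 4293444 8581 .leaf)) 4293459 8581 (.node (.node .leaf 4293460 8581 .leaf) 4293461 16713 .leaf))))) 4293474 10631 (.node (.node (.node (.node (.node (.node .leaf 4293476 16711 .leaf) 4293477 16713 (.node .leaf 4293478 12939 .leaf)) 4293489 12552 (.node (.node .leaf 4293490 12552 .leaf) 4293492 16711 .leaf)) 4293493 16713 (.node (.node (.node .leaf 4293494 12939 .leaf) 4293505 16712 (.node .leaf 4293510 16715 .leaf)) 4293522 16713 (.node (.node .leaf 4293523 16713 .leaf) 4293524 16713 .leaf))) 4293525 16713 (.node (.node (.node (.node .leaf 4293526 16715 .leaf) 4293527 17165 (.node .leaf 4293540 16715 .leaf)) 4293683 10818 (.node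 (.node .leaf 4293684 8579 .leaf) 4293699 16577 .leaf)) 4293701 10825 (.node (.node (.node .leaf 4293715 6722 .leaf) 4293716 8579 (.node .leaf 4293731 16711 .leaf)) 4293732 16711 (.node (.node .leaf 4293746 12553 .leaf) 4293747 16711 .leaf)))) 4293748 16711 (.node (.node (.node (.node (.node .leaf 4293765 16713 .leaf) 4293781 16713 (.node .leaf 4293782 16715 .leaf)) 4293939 10946 (.node (.node .leaf 4293940 8579 .leaf) 4293956 8579 .leaf)) 4293971 6850 (.node (.node (.node .leaf 4293972 8579 .leaf) 4293986 16840 (.node .leaf 4293987 16711 .leaf)) 4293989 16713 (.node (.node .leaf 4294003 16711 .leaf) 4294227 6978 .leaf))) 4294228 8579 (.node (.node (.node (.node .leaf 4294243 16711 .leaf) 4294245 16713 (.node .leaf 4294262 16715 .leaf)) 4294451 11202 (.node (.node .leaf 4294452 8579 .leaf) 4294468 8579 .leaf)) 4294483 7106 (.node (.node (.node .leaf 4294484 8579 .leaf) 4294707 11330 (.node .leaf 4294708 8579 .leaf)) 4294724 8579 (.node (.node .leaf 4294739 7234 .leaf) 4294740 8579 .leaf)))))) 4294963 11458 (.node (.node (.node (.node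 (.node (.node (.node .leaf 4294964 8579 .leaf) 4294980 8579 (.node .leaf 4294995 7362 .leaf)) 4294996 8579 (.node (.node .leaf 4297233 4246 .leaf) 4297250 6544 .leaf)) 4297283 18625 (.node (.node (.node .leaf 4297299 14661 .leaf) 4297315 10629 (.node .leaf 4297316 10629 .leaf)) 4297317 12807 (.node (.node .leaf 4297318 14985 .leaf) 4297329 12422 .leaf))) 4297331 12807 (.node (.node (.node (.node .leaf 4297332 12615 .leaf) 4297333 12807 (.node .leaf 4297345 16712 .leaf)) 4297347 14727 (.node (.node .leaf 4297348 14855 .leaf) 4297349 14855 .leaf)) 4297350 14985 (.node (.node (.node .leaf 4297361 16520 .leaf) 4297364 17033 (.node .leaf 4297365 14665 .leaf)) 4297367 17163 (.node (.node .leaf 4297378 18825 .leaf) 4297379 18825 .leaf)))) 4297380 18953 (.node (.node (.node (.node (.node .leaf 4297381 19081 .leaf) 4297382 19081 (.node .leaf 4297489 4377 .leaf)) 4297506 6549 (.node (.node .leaf 4297523 10690 .leaf) 4297539 18625 .leaf)) 4297540 8581 (.node (.node (.node .leaf 4297555 8581 .leaf) 4297570 10631 (.node .leaf 4297572 18759 .leaf))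 4297574 18763 (.node (.node .leaf 4297585 12552 .leaf) 4297586 12552 .leaf))) 4297589 18761 (.node (.node (.node (.node .leaf 4297601 18760 .leaf) 4297602 14602 (.node .leaf 4297604 18761 .leaf)) 4297605 18761 (.node (.node .leaf 4297606 18763 .leaf) 4297617 18762 .leaf)) 4297618 16651 (.node (.node (.node .leaf 4297620 18761 .leaf) 4297621 18761 (.node .leaf 4297623 17165 .leaf)) 4297635 18763 (.node (.node .leaf 4297636 18763 .leaf) 4297637 18763 .leaf))))) 4297638 18763 (.node (.node (.node (.node (.node (.node .leaf 4297762 18774 .leaf) 4297779 10818 (.node .leaf 4297780 8579 .leaf)) 4297796 8579 (.node (.node .leaf 4297811 6722 .leaf) 4297812 8579 .leaf)) 4297827 18759 (.node (.node (.node .leaf 4297828 18759 .leaf) 4297842 12553 (.node .leaf 4297843 18759 .leaf)) 4297844 18759 (.node (.node .leaf 4297858 18891 .leaf) 4297859 18761 .leaf))) 4297860 18761 (.node (.node (.node (.node .leaf 4297877 18761 .leaf) 4298035 10946 (.node .leaf 4298036 8579 .leaf)) 4298052 8579 (.node (.node .leaf 4298067 6850 .leaf) 4298068 8579 .leaf))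 4298083 18759 (.node (.node (.node .leaf 4298084 18759 .leaf) 4298098 12553 (.node .leaf 4298100 18759 .leaf)) 4298115 18761 (.node (.node .leaf 4298291 11074 .leaf) 4298292 8579 .leaf)))) 4298308 8579 (.node (.node (.node (.node (.node .leaf 4298323 6978 .leaf) 4298324 8579 (.node .leaf 4298339 18759 .leaf)) 4298340 18759 (.node (.node .leaf 4298547 11202 .leaf) 4298548 8579 .leaf)) 4298563 18625 (.node (.node (.node .leaf 4298564 8579 .leaf) 4298579 7106 (.node .leaf 4298580 8579 .leaf)) 4298803 11330 (.node (.node .leaf 4298804 8579 .leaf) 4298820 8579 .leaf))) 4298835 7234 (.node (.node (.node (.node .leaf 4298836 8579 .leaf) 4299059 11458 (.node .leaf 4299060 8579 .leaf)) 4299076 8579 (.node (.node .leaf 4299091 7362 .leaf) 4299092 8579 .leaf)) 4301379 20673 (.node (.node (.node .leaf 4301411 10629 .leaf) 4301412 10629 (.node .leaf 4301414 14985 .leaf)) 4301425 12422 (.node (.node .leaf 4301427 12679 .leaf) 4301428 12679 .leaf)))))))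

def c32 : NatMap := (.node (.node (.node (.node (.node (.node (.node (.node .leaf 4301441 14472 .leaf) 4301443 14727 (.node .leaf 4301444 14727 .leaf)) 4301445 14855 (.node (.node .leaf 4301446 14985 .leaf) 4301457 16520 (.node .leaf 4301459 16713 .leaf))) 4301460 16777 (.node (.node (.node .leaf 4301461 18953 .leaf) 4301463 17163 (.node .leaf 4301473 18570 .leaf)) 4301475 18825 (.node (.node .leaf 4301476 18825 .leaf) 4301490 20618 .leaf))) 4301491 21003 (.node (.node (.node (.node .leaf 4301492 21003 .leaf) 4301493 21003 (.node .leaf 4301602 6550 .leaf)) 4301635 20673 (.node (.node .leaf 4301651 8581 .leaf) 4301666 10631 .leaf)) 4301681 12552 (.node (.node (.node .leaf 4301682 12552 .leaf) 4301684 20807 (.node .leaf 4301685 20809 .leaf)) 4301697 20808 (.node (.node .leaf 4301698 14602 .leaf) 4301700 20809 .leaf)))) 4301713 20810 (.node (.node (.node (.node (.node .leaf 4301714 16651 .leaf) 4301716 20809 (.node .leaf 4301729 20810 .leaf)) 4301732 20811 (.node (.node .leaf 4301746 20811 .leaf) 4301749 20811 .leaf)) 4301875 10818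 (.node (.node (.node .leaf 4301891 20673 .leaf) 4301892 8579 (.node .leaf 4301907 6722 .leaf)) 4301908 8579 (.node (.node .leaf 4301923 20807 .leaf) 4301924 20807 .leaf))) 4301938 12553 (.node (.node (.node (.node .leaf 4301939 20807 .leaf) 4301954 20939 (.node .leaf 4301955 20809 .leaf)) 4301971 20809 (.node (.node .leaf 4302131 10946 .leaf) 4302132 8579 .leaf)) 4302147 20673 (.node (.node (.node .leaf 4302148 8579 .leaf) 4302163 6850 (.node .leaf 4302164 8579 .leaf)) 4302179 20807 (.node (.node .leaf 4302180 20807 .leaf) 4302193 20808 .leaf))))) 4302195 20807 (.node (.node (.node (.node (.node (.node .leaf 4302196 20807 .leaf) 4302211 20809 (.node .leaf 4302227 20809 .leaf)) 4302228 20809 (.node (.node .leaf 4302387 11074 .leaf) 4302388 8579 .leaf)) 4302403 20673 (.node (.node (.node .leaf 4302404 8579 .leaf) 4302419 6978 (.node .leaf 4302420 8579 .leaf)) 4302435 20807 (.node (.node .leaf 4302450 12553 .leaf) 4302643 11202 .leaf))) 4302644 8579 (.node (.node (.node (.node .leaf 4302660 8579 .leaf) 4302675 7106 (.node .leaf 4302676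 8579 .leaf)) 4302690 20936 (.node (.node .leaf 4302899 11330 .leaf) 4302900 8579 .leaf)) 4302916 8579 (.node (.node (.node .leaf 4302931 7234 .leaf) 4302932 8579 (.node .leaf 4303155 11458 .leaf)) 4303156 8579 (.node (.node .leaf 4303172 8579 .leaf) 4303187 7362 .leaf)))) 4303188 8579 (.node (.node (.node (.node (.node .leaf 4305425 16727 .leaf) 4305442 14673 (.node .leaf 4305475 22721 .leaf)) 4305491 16709 (.node (.node .leaf 4305507 10629 .leaf) 4305521 12422 .leaf)) 4305523 12679 (.node (.node (.node .leaf 4305524 14727 .leaf) 4305539 14727 (.node .leaf 4305540 14727 .leaf)) 4305541 14855 (.node (.node .leaf 4305556 20809 .leaf) 4305681 4380 .leaf))) 4305698 6550 (.node (.node (.node (.node .leaf 4305715 10690 .leaf) 4305731 22721 (.node .leaf 4305747 8581 .leaf)) 4305762 10631 (.node (.node .leaf 4305778 12552 .leaf) 4305796 22857 .leaf)) 4305954 22871 (.node (.node (.node .leaf 4305971 10818 .leaf) 4305988 8579 (.node .leaf 4306003 6722 .leaf)) 4306004 8579 (.node (.node .leaf 4306019 22855 .leaf) 4306035 22855 .leaf)))))) 4306227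 10946 (.node (.node (.node (.node (.node (.node (.node .leaf 4306228 8579 .leaf) 4306244 8579 (.node .leaf 4306259 6850 .leaf)) 4306260 8579 (.node (.node .leaf 4306275 22855 .leaf) 4306276 22855 .leaf)) 4306291 22855 (.node (.node (.node .leaf 4306483 11074 .leaf) 4306484 8579 (.node .leaf 4306500 8579 .leaf)) 4306515 6978 (.node (.node .leaf 4306516 8579 .leaf) 4306546 12553 .leaf))) 4306739 11202 (.node (.node (.node (.node .leaf 4306740 8579 .leaf) 4306756 8579 (.node .leaf 4306771 7106 .leaf)) 4306772 8579 (.node (.node .leaf 4306786 22984 .leaf) 4306995 11330 .leaf)) 4306996 8579 (.node (.node (.node .leaf 4307012 8579 .leaf) 4307027 7234 (.node .leaf 4307028 8579 .leaf)) 4307251 11458 (.node (.node .leaf 4307252 8579 .leaf) 4307268 8579 .leaf)))) 4307283 7362 (.node (.node (.node (.node (.node .leaf 4307284 8579 .leaf) 4330338 10695 (.node .leaf 4330339 10696 .leaf)) 4330340 10697 (.node (.node .leaf 4330354 12553 .leaf) 4330355 12553 .leaf)) 4330356 12681 (.node (.node (.node .leaf 4330370 14730 .leaf) 4330372 14730 (.node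 .leaf 4330387 16779 .leaf)) 4330388 16907 (.node (.node .leaf 4330594 2505 .leaf) 4330596 10826 .leaf))) 4330610 12554 (.node (.node (.node (.node .leaf 4330611 12554 .leaf) 4330627 2507 (.node .leaf 4330628 2507 .leaf)) 4330644 16909 (.node (.node .leaf 4330645 16909 .leaf) 4330804 10951 .leaf)) 4330836 8713 (.node (.node (.node .leaf 4330852 8907 .leaf) 4330868 2507 (.node .leaf 4331060 11079 .leaf)) 4331092 8713 (.node (.node .leaf 4331093 8713 .leaf) 4331108 11083 .leaf))))) 4331124 2507 (.node (.node (.node (.node (.node (.node .leaf 4339284 8713 .leaf) 4346164 11335 (.node .leaf 4346165 10954 .leaf)) 4346180 12489 (.node (.node .leaf 4346197 10827 .leaf) 4346214 10828 .leaf)) 4346723 12551 (.node (.node (.node .leaf 4346724 12680 .leaf) 4346725 12809 (.node .leaf 4346738 12551 .leaf)) 4346740 12680 (.node (.node .leaf 4346916 6663 .leaf) 4346932 11335 .leaf))) 4346933 6663 (.node (.node (.node (.node .leaf 4346948 6663 .leaf) 4346949 6663 (.node .leaf 4346950 6794 .leaf)) 4346965 8713 (.node (.node .leaf 4346979 10696 .leaf)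 4346980 10697 .leaf)) 4346981 12810 (.node (.node (.node .leaf 4346982 10891 .leaf) 4346995 12810 (.node .leaf 4346997 12810 .leaf)) 4346999 15116 (.node (.node .leaf 4347014 14987 .leaf) 4347188 11335 .leaf)))) 4347189 6663 (.node (.node (.node (.node (.node .leaf 4347205 6663 .leaf) 4347220 8713 (.node .leaf 4347222 8843 .leaf)) 4347236 10697 (.node (.node .leaf 4347237 12811 .leaf) 4347238 11020 .leaf)) 4347239 11020 (.node (.node (.node .leaf 4347252 12811 .leaf) 4347254 12940 (.node .leaf 4347255 15117 .leaf)) 4347428 6663 (.node (.node .leaf 4347444 10823 .leaf) 4347445 6663 .leaf))) 4347460 6663 (.node (.node (.node (.node .leaf 4347461 6663 .leaf) 4347462 6794 (.node .leaf 4347476 8713 .leaf)) 4347477 8713 (.node (.node .leaf 4347479 8971 .leaf) 4347494 10828 .leaf)) 4347495 11149 (.node (.node (.node .leaf 4347511 13070 .leaf) 4347528 15247 (.node .leaf 4347684 6663 .leaf)) 4347700 10951 (.node (.node .leaf 4347701 6663 .leaf) 4347717 6663 .leaf)))))))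

def c33 : NatMap := (.node (.node (.node (.node (.node (.node (.node (.node .leaf 4347719 8971 .leaf) 4347736 9101 (.node .leaf 4347749 10827 .leaf)) 4347767 10958 (.node (.node .leaf 4347784 15247 .leaf) 4347956 11079 (.node .leaf 4347957 6663 .leaf))) 4347973 6663 (.node (.node (.node .leaf 4347974 6794 .leaf) 4348213 6663 (.node .leaf 4350276 12615 .leaf)) 4350293 8713 (.node (.node .leaf 4350310 10894 .leaf) 4350772 8713 .leaf))) 4350788 12615 (.node (.node (.node (.node .leaf 4350820 10697 .leaf) 4350834 12552 (.node .leaf 4350835 12552 .leaf)) 4350836 12810 (.node (.node .leaf 4350837 12810 .leaf) 4350838 14987 .leaf)) 4350854 14987 (.node (.node (.node .leaf 4351028 10823 .leaf) 4351044 12615 (.node .leaf 4351060 16969 .leaf)) 4351061 8713 (.node (.node .leaf 4351074 12744 .leaf) 4351075 8777 .leaf)))) 4351077 10761 (.node (.node (.node (.node (.node .leaf 4351091 12682 .leaf) 4351092 12682 (.node .leaf 4351093 10827 .leaf)) 4351094 10828 (.node (.node .leaf 4351095 15118 .leaf) 4351109 14860 .leaf)) 4351110 17037 (.node (.node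 (.node .leaf 4351111 15118 .leaf) 4351284 10951 (.node .leaf 4351300 12615 .leaf)) 4351301 8713 (.node (.node .leaf 4351316 8713 .leaf) 4351317 8713 .leaf))) 4351318 10956 (.node (.node (.node (.node .leaf 4351332 8907 .leaf) 4351334 10957 (.node .leaf 4351349 12747 .leaf)) 4351350 10957 (.node (.node .leaf 4351351 10958 .leaf) 4351366 10958 .leaf)) 4351383 17167 (.node (.node (.node .leaf 4351540 11079 .leaf) 4351541 8713 (.node .leaf 4351556 12615 .leaf)) 4351557 8713 (.node (.node .leaf 4351572 8713 .leaf) 4351573 8713 .leaf))))) 4351574 8845 (.node (.node (.node (.node (.node (.node .leaf 4351588 11083 .leaf) 4351589 10763 (.node .leaf 4351605 12747 .leaf)) 4351606 14990 (.node (.node .leaf 4351607 11087 .leaf) 4351623 15248 .leaf)) 4351796 11207 (.node (.node (.node .leaf 4351797 8713 .leaf) 4351812 12615 (.node .leaf 4351813 8713 .leaf)) 4351814 11211 (.node (.node .leaf 4351815 11213 .leaf) 4351829 8713 .leaf))) 4351862 12878 (.node (.node (.node (.node .leaf 4351863 11215 .leaf) 4351880 15248 (.node .leaf 4352052 11335 .leaf))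 4352053 8713 (.node (.node .leaf 4352068 12615 .leaf) 4352069 8713 .leaf)) 4352324 12615 (.node (.node (.node .leaf 4354372 14663 .leaf) 4354388 14793 (.node .leaf 4354389 8715 .leaf)) 4354406 14797 (.node (.node .leaf 4354437 14797 .leaf) 4354834 4500 .leaf)))) 4354851 6672 (.node (.node (.node (.node (.node .leaf 4354868 8715 .leaf) 4354884 14663 (.node .leaf 4354900 16841 .leaf)) 4354901 10761 (.node (.node .leaf 4354914 10695 .leaf) 4354917 10761 .leaf)) 4354929 12552 (.node (.node (.node .leaf 4354930 12552 .leaf) 4354934 12939 (.node .leaf 4354947 14602 .leaf)) 4354948 16779 (.node (.node .leaf 4354949 16908 .leaf) 4354950 17037 .leaf))) 4354951 15117 (.node (.node (.node (.node .leaf 4354963 16650 .leaf) 4354964 16779 (.node .leaf 4354966 17037 .leaf)) 4354967 17166 (.node (.node .leaf 4354980 18956 .leaf) 4354983 19214 .leaf)) 4355140 14663 (.node (.node (.node .leaf 4355156 8713 .leaf) 4355157 8713 (.node .leaf 4355170 14792 .leaf)) 4355171 8777 (.node (.node .leaf 4355172 10761 .leaf) 4355173 10761 .leaf)))))) 4355186 12682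 (.node (.node (.node (.node (.node (.node (.node .leaf 4355187 12682 .leaf) 4355189 10827 (.node .leaf 4355190 10828 .leaf)) 4355203 14795 (.node (.node .leaf 4355204 14796 .leaf) 4355205 14797 .leaf)) 4355206 17038 (.node (.node (.node .leaf 4355207 17167 .leaf) 4355221 16909 (.node .leaf 4355223 17167 .leaf)) 4355412 14793 (.node (.node .leaf 4355413 8713 .leaf) 4355427 14922 .leaf))) 4355428 8907 (.node (.node (.node (.node .leaf 4355429 14795 .leaf) 4355444 12683 (.node .leaf 4355447 10958 .leaf)) 4355461 14797 (.node (.node .leaf 4355462 10958 .leaf) 4355463 10958 .leaf)) 4355478 14798 (.node (.node (.node .leaf 4355479 17168 .leaf) 4355495 19216 (.node .leaf 4355652 14663 .leaf)) 4355668 14793 (.node (.node .leaf 4355669 8713 .leaf) 4355684 11083 .leaf)))) 4355686 14797 (.node (.node (.node (.node (.node .leaf 4355703 11087 .leaf) 4355718 14798 (.node .leaf 4355735 17168 .leaf)) 4355892 11207 (.node (.node .leaf 4355908 14663 .leaf) 4355909 8713 .leaf)) 4355924 14793 (.node (.node (.node .leaf 4355925 8713 .leaf) 4355940 14795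 (.node .leaf 4355974 14798 .leaf)) 4355975 17168 (.node (.node .leaf 4355976 11217 .leaf) 4356164 14663 .leaf))) 4356180 14793 (.node (.node (.node (.node .leaf 4356181 8713 .leaf) 4356198 14797 (.node .leaf 4356420 14663 .leaf)) 4356436 8713 (.node (.node .leaf 4356437 8713 .leaf) 4358502 16845 .leaf)) 4358929 4374 (.node (.node (.node .leaf 4358930 4502 .leaf) 4358947 6674 (.node .leaf 4358980 12745 .leaf)) 4358996 14793 (.node (.node .leaf 4358997 10761 .leaf) 4359010 10695 .leaf))))) 4359012 10697 (.node (.node (.node (.node (.node (.node .leaf 4359013 10761 .leaf) 4359014 12939 (.node .leaf 4359025 12552 .leaf)) 4359026 12552 (.node (.node .leaf 4359028 12939 .leaf) 4359029 12939 .leaf)) 4359030 12939 (.node (.node (.node .leaf 4359046 14987 .leaf) 4359058 16522 (.node .leaf 4359060 18828 .leaf)) 4359061 17165 (.node (.node .leaf 4359062 17165 .leaf) 4359076 18828 .leaf))) 4359186 16858 (.node (.node (.node (.node .leaf 4359203 6677 .leaf) 4359220 10823 (.node .leaf 4359237 10761 .leaf)) 4359252 16841 (.node (.node .leaf 4359253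 10761 .leaf) 4359266 16840 .leaf)) 4359267 10761 (.node (.node (.node .leaf 4359268 10761 .leaf) 4359269 10761 (.node .leaf 4359282 12682 .leaf)) 4359283 12682 (.node (.node .leaf 4359284 12682 .leaf) 4359285 10827 .leaf)))) 4359301 12877 (.node (.node (.node (.node (.node .leaf 4359317 16846 .leaf) 4359318 19087 (.node .leaf 4359319 16847 .leaf)) 4359476 10951 (.node (.node .leaf 4359508 16969 .leaf) 4359509 8713 .leaf)) 4359523 16970 (.node (.node (.node .leaf 4359524 8907 .leaf) 4359525 16843 (.node .leaf 4359539 12555 .leaf)) 4359540 12683 (.node (.node .leaf 4359764 16969 .leaf) 4359779 16970 .leaf))) 4359780 11083 (.node (.node (.node (.node .leaf 4359781 16843 .leaf) 4359796 12683 (.node .leaf 4359798 16845 .leaf)) 4359988 11207 (.node (.node .leaf 4360005 8713 .leaf) 4360020 16969 .leaf)) 4360021 8713 (.node (.node (.node .leaf 4360036 16843 .leaf) 4360244 11335 (.node .leaf 4360276 16841 .leaf)) 4360277 8713 (.node (.node .leaf 4360500 11463 .leaf) 4360516 15561 .leaf)))))))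

def c34 : NatMap := (.node (.node (.node (.node (.node (.node (.node (.node .leaf 4360533 8713 .leaf) 4363025 4377 (.node .leaf 4363042 16854 .leaf)) 4363076 12745 (.node (.node .leaf 4363106 10695 .leaf) 4363108 10697 (.node .leaf 4363110 14987 .leaf))) 4363121 12552 (.node (.node (.node .leaf 4363122 12552 .leaf) 4363125 12747 (.node .leaf 4363137 14602 .leaf)) 4363138 14602 (.node (.node .leaf 4363140 2507 .leaf) 4363141 14987 .leaf))) 4363142 14987 (.node (.node (.node (.node .leaf 4363153 16522 .leaf) 4363154 16522 (.node .leaf 4363156 14796 .leaf)) 4363171 18700 (.node (.node .leaf 4363172 19085 .leaf) 4363173 19085 .leaf)) 4363174 19085 (.node (.node (.node .leaf 4363281 4380 .leaf) 4363298 18905 (.node .leaf 4363299 6680 .leaf)) 4363316 10823 (.node (.node .leaf 4363332 14921 .leaf) 4363333 8713 .leaf)))) 4363348 16969 (.node (.node (.node (.node (.node .leaf 4363349 8713 .leaf) 4363362 18888 (.node .leaf 4363363 8777 .leaf)) 4363364 12682 (.node (.node .leaf 4363365 10827 .leaf) 4363378 12682 .leaf)) 4363379 12682 (.node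 (.node (.node .leaf 4363380 12682 .leaf) 4363381 10827 (.node .leaf 4363394 18891 .leaf)) 4363395 14732 (.node (.node .leaf 4363396 14732 .leaf) 4363397 12877 .leaf))) 4363411 16781 (.node (.node (.node (.node .leaf 4363413 18893 .leaf) 4363428 18894 (.node .leaf 4363429 18895 .leaf)) 4363430 19087 (.node (.node .leaf 4363572 10951 .leaf) 4363589 8713 .leaf)) 4363604 8713 (.node (.node (.node .leaf 4363605 8713 .leaf) 4363618 18888 (.node .leaf 4363619 19018 .leaf)) 4363620 8907 (.node (.node .leaf 4363634 18890 .leaf) 4363636 12683 .leaf))))) 4363651 19021 (.node (.node (.node (.node (.node (.node .leaf 4363668 16783 .leaf) 4363671 18896 (.node .leaf 4363685 18895 .leaf)) 4363686 18896 (.node (.node .leaf 4363828 11079 .leaf) 4363860 8713 .leaf)) 4363875 19018 (.node (.node (.node .leaf 4363876 11083 .leaf) 4363892 12683 (.node .leaf 4364084 11207 .leaf)) 4364116 8713 (.node (.node .leaf 4364131 19018 .leaf) 4364340 11335 .leaf))) 4364372 8713 (.node (.node (.node (.node .leaf 4364373 8713 .leaf) 4364596 11463 (.node .leaf 4364628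 8713 .leaf)) 4367202 10695 (.node (.node .leaf 4367217 12552 .leaf) 4367218 12552 .leaf)) 4367220 2507 (.node (.node (.node .leaf 4367221 12747 .leaf) 4367233 14474 (.node .leaf 4367234 14474 .leaf)) 4367236 2507 (.node (.node .leaf 4367249 16522 .leaf) 4367250 16522 .leaf)))) 4367252 14796 (.node (.node (.node (.node (.node .leaf 4367268 18957 .leaf) 4367282 20620 (.node .leaf 4367285 21006 .leaf)) 4367394 20955 (.node (.node .leaf 4367428 14921 .leaf) 4367444 16969 .leaf)) 4367458 20936 (.node (.node (.node .leaf 4367459 8777 .leaf) 4367460 12682 (.node .leaf 4367461 10827 .leaf)) 4367474 12682 (.node (.node .leaf 4367475 12682 .leaf) 4367477 10827 .leaf))) 4367490 20939 (.node (.node (.node (.node .leaf 4367491 14732 .leaf) 4367507 16781 (.node .leaf 4367668 10951 .leaf)) 4367700 8713 (.node (.node .leaf 4367715 21066 .leaf) 4367716 8907 .leaf)) 4367729 20938 (.node (.node (.node .leaf 4367731 12683 .leaf) 4367732 12683 (.node .leaf 4367747 14733 .leaf)) 4367764 20941 (.node (.node .leaf 4367780 18831 .leaf) 4367924 11079 .leaf))))))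 4367956 8713 (.node (.node (.node (.node (.node (.node (.node .leaf 4367970 20936 .leaf) 4367972 11083 (.node .leaf 4367986 20938 .leaf)) 4367988 12683 (.node (.node .leaf 4368180 11207 .leaf) 4368212 8713 .leaf)) 4368243 12555 (.node (.node (.node .leaf 4368436 11335 .leaf) 4368468 8713 (.node .leaf 4368692 11463 .leaf)) 4368724 8713 (.node (.node .leaf 4371217 4380 .leaf) 4371234 16854 .leaf))) 4371298 10695 (.node (.node (.node (.node .leaf 4371314 12552 .leaf) 4371332 2507 (.node .leaf 4371473 4384 .leaf)) 4371490 23004 (.node (.node .leaf 4371524 14921 .leaf) 4371540 16969 .leaf)) 4371554 22984 (.node (.node (.node .leaf 4371555 8777 .leaf) 4371557 10827 (.node .leaf 4371570 12682 .leaf)) 4371571 12682 (.node (.node .leaf 4371587 14732 .leaf) 4371589 12877 .leaf)))) 4371746 23004 (.node (.node (.node (.node (.node .leaf 4371764 10951 .leaf) 4371796 8713 (.node .leaf 4371811 23114 .leaf)) 4371812 8907 (.node (.node .leaf 4371827 12683 .leaf) 4371828 12683 .leaf)) 4371843 14733 (.node (.node (.node .leaf 4371844 14733 .leaf) 4372020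 11079 (.node .leaf 4372052 8713 .leaf)) 4372066 22984 (.node (.node .leaf 4372067 23114 .leaf) 4372082 22986 .leaf))) 4372276 11207 (.node (.node (.node (.node .leaf 4372308 8713 .leaf) 4372339 12555 (.node .leaf 4372532 11335 .leaf)) 4372564 8713 (.node (.node .leaf 4372788 11463 .leaf) 4372820 8713 .leaf)) 4396130 19017 (.node (.node (.node .leaf 4396132 10826 .leaf) 4396146 12554 (.node .leaf 4396147 12554 .leaf)) 4396163 14604 (.node (.node .leaf 4396164 14732 .leaf) 4396180 16909 .leaf))))) 4396181 16909 (.node (.node (.node (.node (.node (.node .leaf 4396388 8907 .leaf) 4396403 12812 (.node .leaf 4396404 12812 .leaf)) 4396405 12812 (.node (.node .leaf 4396421 14862 .leaf) 4396437 2639 .leaf)) 4396629 12813 (.node (.node (.node .leaf 4396644 2764 .leaf) 4396660 12813 (.node .leaf 4396661 12813 .leaf)) 4411718 6795 (.node (.node .leaf 4411733 10827 .leaf) 4412469 11081 .leaf))) 4412486 8842 (.node (.node (.node (.node .leaf 4412501 8842 .leaf) 4412516 12681 (.node .leaf 4412517 12810 .leaf)) 4412518 12939 (.node (.node .leaf 4412531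 12681 .leaf) 4412533 12810 .leaf)) 4412534 12939 (.node (.node (.node .leaf 4412725 11081 .leaf) 4412726 6793 (.node .leaf 4412741 6793 .leaf)) 4412742 6793 (.node (.node .leaf 4412758 8843 .leaf) 4412772 10826 .leaf)))) 4412773 10827 (.node (.node (.node (.node (.node .leaf 4412774 11020 .leaf) 4412775 11020 (.node .leaf 4412788 12940 .leaf)) 4412789 12940 (.node (.node .leaf 4412790 12940 .leaf) 4412791 13069 .leaf)) 4412806 15117 (.node (.node (.node .leaf 4412807 15117 .leaf) 4412981 11209 (.node .leaf 4412997 6793 .leaf)) 4412998 6793 (.node (.node .leaf 4413015 8972 .leaf) 4413028 10826 .leaf))) 4413030 10957 (.node (.node (.node (.node .leaf 4413031 11149 .leaf) 4413047 13070 (.node .leaf 4413048 13199 .leaf)) 4413237 11337 (.node (.node .leaf 4413238 6793 .leaf) 4413253 6793 .leaf)) 4413254 6793 (.node (.node (.node .leaf 4413255 8972 .leaf) 4413269 8843 (.node .leaf 4413272 9101 .leaf)) 4413285 10827 (.node (.node .leaf 4413288 11279 .leaf) 4413303 10958 .leaf)))))))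

def c35 : NatMap := (.node (.node (.node (.node (.node (.node (.node (.node .leaf 4413493 10953 .leaf) 4413494 6793 (.node .leaf 4413509 6793 .leaf)) 4413510 6793 (.node (.node .leaf 4413543 10957 .leaf) 4413749 11209 (.node .leaf 4413750 6793 .leaf))) 4415829 10445 (.node (.node (.node .leaf 4415846 10894 .leaf) 4416597 10827 (.node .leaf 4416611 12553 .leaf)) 4416613 10827 (.node (.node .leaf 4416627 12553 .leaf) 4416628 12682 .leaf))) 4416629 14860 (.node (.node (.node (.node .leaf 4416630 14989 .leaf) 4416631 15118 (.node .leaf 4416645 14860 .leaf)) 4416647 17166 (.node (.node .leaf 4416837 10955 .leaf) 4416853 12812 .leaf)) 4416854 10956 (.node (.node (.node .leaf 4416867 12874 .leaf) 4416868 8907 (.node .leaf 4416870 10957 .leaf)) 4416884 12812 (.node (.node .leaf 4416885 12812 .leaf) 4416886 10957 .leaf)))) 4416887 10958 (.node (.node (.node (.node (.node .leaf 4416888 15247 .leaf) 4416902 12878 (.node .leaf 4416919 17167 .leaf)) 4417077 11081 (.node (.node .leaf 4417093 11083 .leaf) 4417094 11084 .leaf)) 4417110 8845 (.node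 (.node (.node .leaf 4417124 13004 .leaf) 4417127 11087 (.node .leaf 4417141 12813 .leaf)) 4417142 12878 (.node (.node .leaf 4417143 11087 .leaf) 4417159 15120 .leaf))) 4417160 11088 (.node (.node (.node (.node .leaf 4417333 11209 .leaf) 4417349 11211 (.node .leaf 4417350 11212 .leaf)) 4417351 11213 (.node (.node .leaf 4417365 12877 .leaf) 4417366 8845 .leaf)) 4417368 11215 (.node (.node (.node .leaf 4417398 12878 .leaf) 4417399 13007 (.node .leaf 4417416 11218 .leaf)) 4417589 11337 (.node (.node .leaf 4417605 11339 .leaf) 4417606 11340 .leaf))))) 4417622 8845 (.node (.node (.node (.node (.node (.node .leaf 4419925 10445 .leaf) 4419942 10894 (.node .leaf 4419973 14926 .leaf)) 4420693 10827 (.node (.node .leaf 4420707 12553 .leaf) 4420708 12682 .leaf)) 4420709 10827 (.node (.node (.node .leaf 4420722 12553 .leaf) 4420723 12553 (.node .leaf 4420726 12941 .leaf)) 4420740 16780 (.node (.node .leaf 4420741 16909 .leaf) 4420742 12878 .leaf))) 4420743 17167 (.node (.node (.node (.node .leaf 4420757 16909 .leaf) 4420963 14922 (.node .leaf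 4420964 8907 .leaf)) 4420965 12812 (.node (.node .leaf 4420966 10957 .leaf) 4420979 12812 .leaf)) 4420980 12812 (.node (.node (.node .leaf 4420982 10957 .leaf) 4420983 10958 (.node .leaf 4420996 14925 .leaf)) 4420997 14926 (.node (.node .leaf 4420998 14927 .leaf) 4420999 17168 .leaf)))) 4421000 17297 (.node (.node (.node (.node (.node .leaf 4421014 17039 .leaf) 4421015 17168 (.node .leaf 4421031 19216 .leaf)) 4421205 14925 (.node (.node .leaf 4421220 15052 .leaf) 4421222 10894 .leaf)) 4421237 12813 (.node (.node (.node .leaf 4421239 11087 .leaf) 4421254 14927 (.node .leaf 4421255 14928 .leaf)) 4421271 14928 (.node (.node .leaf 4421445 11211 .leaf) 4421461 14925 .leaf))) 4421462 8845 (.node (.node (.node (.node .leaf 4421476 15052 .leaf) 4421477 11213 (.node .leaf 4421478 10894 .leaf)) 4421510 14927 (.node (.node .leaf 4421511 14928 .leaf) 4421512 11218 .leaf)) 4421717 14925 (.node (.node (.node .leaf 4421734 10894 .leaf) 4421973 14925 (.node .leaf 4424038 10446 .leaf)) 4424722 4505 (.node (.node .leaf 4424773 10826 .leaf) 4424789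 10827 .leaf)))))) 4424803 12553 (.node (.node (.node (.node (.node (.node (.node .leaf 4424804 12682 .leaf) 4424805 10827 (.node .leaf 4424818 12553 .leaf)) 4424819 12553 (.node (.node .leaf 4424820 12682 .leaf) 4424821 12941 .leaf)) 4424837 12877 (.node (.node (.node .leaf 4424853 14926 .leaf) 4424854 19087 (.node .leaf 4424855 19216 .leaf)) 4425045 12812 (.node (.node .leaf 4425058 16969 .leaf) 4425059 16970 .leaf))) 4425060 8907 (.node (.node (.node (.node .leaf 4425061 12812 .leaf) 4425062 10957 (.node .leaf 4425075 12812 .leaf)) 4425076 12812 (.node (.node .leaf 4425078 10957 .leaf) 4425092 14862 .leaf)) 4425109 16975 (.node (.node (.node .leaf 4425110 16976 .leaf) 4425111 15057 (.node .leaf 4425315 16970 .leaf)) 4425316 17100 (.node (.node .leaf 4425317 16973 .leaf) 4425332 12813 .leaf)))) 4425333 12813 (.node (.node (.node (.node (.node .leaf 4425334 12943 .leaf) 4425349 14863 (.node .leaf 4425541 11211 .leaf)) 4425557 16973 (.node (.node .leaf 4425572 17100 .leaf) 4425574 10894 .leaf)) 4425589 12813 (.node (.node (.node .leaf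 4425813 16973 .leaf) 4425830 10894 (.node .leaf 4426069 16973 .leaf)) 4428817 4380 (.node (.node .leaf 4428834 4507 .leaf) 4428835 16985 .leaf))) 4428869 10826 (.node (.node (.node (.node .leaf 4428899 12553 .leaf) 4428900 12682 (.node .leaf 4428901 10827 .leaf)) 4428914 12553 (.node (.node .leaf 4428915 12553 .leaf) 4428916 12682 .leaf)) 4428917 12941 (.node (.node (.node .leaf 4428930 14732 .leaf) 4428931 14732 (.node .leaf 4428932 14732 .leaf)) 4428933 12877 (.node (.node .leaf 4428947 16781 .leaf) 4428949 14926 .leaf))))) 4428964 18830 (.node (.node (.node (.node (.node (.node .leaf 4428965 21007 .leaf) 4428966 19087 (.node .leaf 4429090 19036 .leaf)) 4429091 19035 (.node (.node .leaf 4429125 10955 .leaf) 4429141 12812 .leaf)) 4429155 19018 (.node (.node (.node .leaf 4429156 8907 .leaf) 4429158 10957 (.node .leaf 4429170 12684 .leaf)) 4429171 12812 (.node (.node .leaf 4429172 12684 .leaf) 4429174 10957 .leaf))) 4429187 19021 (.node (.node (.node (.node .leaf 4429190 13007 .leaf) 4429204 16783 (.node .leaf 4429207 15057 .leaf))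 4429221 18960 (.node (.node .leaf 4429222 21137 .leaf) 4429223 15057 .leaf)) 4429411 19018 (.node (.node (.node .leaf 4429412 19148 .leaf) 4429428 12813 (.node .leaf 4429429 12813 .leaf)) 4429445 14863 (.node (.node .leaf 4429684 12685 .leaf) 4429909 19021 .leaf)))) 4432930 19036 (.node (.node (.node (.node (.node .leaf 4432995 12553 .leaf) 4432996 12682 (.node .leaf 4432997 10827 .leaf)) 4433010 12553 (.node (.node .leaf 4433011 12553 .leaf) 4433013 12877 .leaf)) 4433026 14604 (.node (.node (.node .leaf 4433027 14604 .leaf) 4433043 16781 (.node .leaf 4433186 21086 .leaf)) 4433251 21066 (.node (.node .leaf 4433252 8907 .leaf) 4433267 12812 .leaf))) 4433268 12812 (.node (.node (.node (.node .leaf 4433283 21069 .leaf) 4433284 14862 (.node .leaf 4433286 13007 .leaf)) 4433299 21070 (.node (.node .leaf 4433300 16783 .leaf) 4433316 18960 .leaf)) 4433507 21066 (.node (.node (.node .leaf 4433508 21196 .leaf) 4433522 21068 (.node .leaf 4433524 12813 .leaf)) 4433525 12813 (.node (.node .leaf 4433762 21065 .leaf) 4433779 21068 .leaf)))))))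

def c36 : NatMap := (.node (.node (.node (.node (.node (.node (.node (.node .leaf 4437009 4384 .leaf) 4437026 19036 (.node .leaf 4437091 12553 .leaf)) 4437093 10827 (.node (.node .leaf 4437106 12553 .leaf) 4437107 12553 (.node .leaf 4437123 14604 .leaf))) 4437125 12877 (.node (.node (.node .leaf 4437265 4386 .leaf) 4437282 23136 (.node .leaf 4437347 23114 .leaf)) 4437348 8907 (.node (.node .leaf 4437350 10957 .leaf) 4437363 12812 .leaf))) 4437364 12812 (.node (.node (.node (.node .leaf 4437379 23117 .leaf) 4437380 14862 (.node .leaf 4437382 13007 .leaf)) 4437396 16911 (.node (.node .leaf 4437604 23244 .leaf) 4437618 23116 .leaf)) 4437620 12685 (.node (.node (.node .leaf 4437858 23113 .leaf) 4437875 23116 (.node .leaf 4461924 10955 .leaf)) 4461939 12812 (.node (.node .leaf 4461940 12812 .leaf) 4461941 12812 .leaf)))) 4461973 17039 (.node (.node (.node (.node (.node .leaf 4462180 2764 .leaf) 4462196 2766 (.node .leaf 4462197 12815 .leaf)) 4462213 2767 (.node (.node .leaf 4477254 10955 .leaf) 4477286 10957 .leaf)) 4478262 11211 (.node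 (.node (.node .leaf 4478279 8971 .leaf) 4478294 8971 (.node .leaf 4478309 12811 .leaf)) 4478310 12940 (.node (.node .leaf 4478311 11020 .leaf) 4478324 12811 .leaf))) 4478325 12811 (.node (.node (.node (.node .leaf 4478326 12940 .leaf) 4478327 13069 (.node .leaf 4478534 10955 .leaf)) 4478551 8972 (.node (.node .leaf 4478565 10956 .leaf) 4478566 10957 .leaf)) 4478567 13070 (.node (.node (.node .leaf 4478581 13070 .leaf) 4478583 13070 (.node .leaf 4478600 15247 .leaf)) 4478774 11467 (.node (.node .leaf 4478775 6923 .leaf) 4478790 6923 .leaf))))) 4478791 6923 (.node (.node (.node (.node (.node (.node .leaf 4478806 8972 .leaf) 4478808 9102 (.node .leaf 4478821 10956 .leaf)) 4478823 11279 (.node (.node .leaf 4478837 12943 .leaf) 4478839 11087 .leaf)) 4478856 15249 (.node (.node (.node .leaf 4479046 10955 .leaf) 4479047 6923 (.node .leaf 4479062 8972 .leaf)) 4479078 10957 (.node (.node .leaf 4479334 10957 .leaf) 4481382 13006 .leaf))) 4482390 10956 (.node (.node (.node (.node .leaf 4482404 10955 .leaf) 4482406 10957 (.node .leaf 4482420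 12683 .leaf)) 4482421 12812 (.node (.node .leaf 4482422 13070 .leaf) 4482423 13070 .leaf)) 4482424 15247 (.node (.node (.node .leaf 4482438 14990 .leaf) 4482630 11084 (.node .leaf 4482646 8974 .leaf)) 4482647 8974 (.node (.node .leaf 4482660 13004 .leaf) 4482661 12814 .leaf)))) 4482663 11087 (.node (.node (.node (.node (.node .leaf 4482677 12814 .leaf) 4482678 13007 (.node .leaf 4482679 11087 .leaf)) 4482680 11088 (.node (.node .leaf 4482694 13007 .leaf) 4482695 15120 .leaf)) 4482696 17297 (.node (.node (.node .leaf 4482886 11212 .leaf) 4482887 8974 (.node .leaf 4482902 8974 .leaf)) 4482903 8974 (.node (.node .leaf 4482904 11215 .leaf) 4482918 11023 .leaf))) 4482920 11216 (.node (.node (.node (.node .leaf 4482934 13007 .leaf) 4482935 13007 (.node .leaf 4482950 13007 .leaf)) 4482952 11218 (.node (.node .leaf 4483142 11340 .leaf) 4483158 8974 .leaf)) 4485478 15055 (.node (.node (.node .leaf 4486500 10955 .leaf) 4486501 12812 (.node .leaf 4486502 10957 .leaf)) 4486515 12683 (.node (.node .leaf 4486516 12683 .leaf) 4486518 13071 .leaf))))))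 4486519 13071 (.node (.node (.node (.node (.node (.node (.node .leaf 4486533 16910 .leaf) 4486534 17039 (.node .leaf 4486535 17168 .leaf)) 4486536 17297 (.node (.node .leaf 4486550 17039 .leaf) 4486551 17168 .leaf)) 4486567 19216 (.node (.node (.node .leaf 4486756 15052 .leaf) 4486757 12814 (.node .leaf 4486758 15055 .leaf)) 4486759 11087 (.node (.node .leaf 4486772 12814 .leaf) 4486773 12814 .leaf))) 4486775 11087 (.node (.node (.node (.node .leaf 4486789 15055 .leaf) 4486790 15056 (.node .leaf 4486791 15057 .leaf)) 4486792 17298 (.node (.node .leaf 4486807 15057 .leaf) 4487014 15055 .leaf)) 4487015 11024 (.node (.node (.node .leaf 4487030 12944 .leaf) 4487046 15056 (.node .leaf 4487047 15057 .leaf)) 4487048 11218 (.node (.node .leaf 4487270 15055 .leaf) 4487271 11344 .leaf)))) 4489574 17103 (.node (.node (.node (.node (.node .leaf 4490596 10955 .leaf) 4490597 12812 (.node .leaf 4490598 10957 .leaf)) 4490611 12683 (.node (.node .leaf 4490612 12683 .leaf) 4490628 14862 .leaf)) 4490645 16911 (.node (.node (.node .leaf 4490646 15056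 .leaf) 4490647 15057 (.node .leaf 4490852 17100 .leaf)) 4490853 12814 (.node (.node .leaf 4490868 12814 .leaf) 4490869 12814 .leaf))) 4490871 11087 (.node (.node (.node (.node .leaf 4490885 14864 .leaf) 4490901 17041 (.node .leaf 4491108 17100 .leaf)) 4491110 17103 (.node (.node .leaf 4491125 12815 .leaf) 4491126 17104 .leaf)) 4491366 17103 (.node (.node (.node .leaf 4491382 17104 .leaf) 4494626 4511 (.node .leaf 4494691 21195 .leaf)) 4494692 12683 (.node (.node .leaf 4494694 10957 .leaf) 4494707 12683 .leaf))))) 4494708 12683 (.node (.node (.node (.node (.node (.node .leaf 4494710 13007 .leaf) 4494723 14862 (.node .leaf 4494726 13007 .leaf)) 4494740 16783 (.node (.node .leaf 4494743 15057 .leaf) 4494757 18960 .leaf)) 4494758 21137 (.node (.node (.node .leaf 4494759 15057 .leaf) 4494947 19147 (.node .leaf 4494948 19148 .leaf)) 4494964 12814 (.node (.node .leaf 4494965 12814 .leaf) 4494979 19151 .leaf))) 4494981 14864 (.node (.node (.node (.node .leaf 4494996 19152 .leaf) 4495013 19153 (.node .leaf 4495014 19155 .leaf)) 4495203 19147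 (.node (.node .leaf 4495220 19150 .leaf) 4495237 19281 .leaf)) 4498787 19147 (.node (.node (.node .leaf 4498788 12683 .leaf) 4498803 12683 (.node .leaf 4498804 12683 .leaf)) 4498819 14734 (.node (.node .leaf 4498820 14734 .leaf) 4498822 13007 .leaf)))) 4498836 16911 (.node (.node (.node (.node (.node .leaf 4498852 18960 .leaf) 4499043 21195 (.node .leaf 4499044 21196 .leaf)) 4499060 12814 (.node (.node .leaf 4499061 12814 .leaf) 4499075 21199 .leaf)) 4499076 21199 (.node (.node (.node .leaf 4499077 14864 .leaf) 4499092 21200 (.node .leaf 4499315 21198 .leaf)) 4502033 23270 (.node (.node .leaf 4502801 4386 .leaf) 4502818 21217 .leaf))) 4502883 19147 (.node (.node (.node (.node .leaf 4502884 10955 .leaf) 4502886 10957 (.node .leaf 4502899 12683 .leaf)) 4502900 12683 (.node (.node .leaf 4502915 14734 .leaf) 4502916 14734 .leaf)) 4502918 13007 (.node (.node (.node .leaf 4502932 16911 .leaf) 4503139 23243 (.node .leaf 4503140 23244 .leaf)) 4503155 23246 (.node (.node .leaf 4503156 12814 .leaf) 4503172 23247 .leaf)))))))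

def c37 : NatMap := (.node (.node (.node (.node (.node (.node (.node (.node .leaf 4503411 23246 .leaf) 4527716 13133 (.node .leaf 4527732 12815 .leaf)) 4527733 12815 (.node (.node .leaf 4527749 14864 .leaf) 4527973 9167 (.node .leaf 4527989 2897 .leaf))) 4544102 12941 (.node (.node (.node .leaf 4544103 13070 .leaf) 4544117 12941 (.node .leaf 4544119 13070 .leaf)) 4544120 13199 (.node (.node .leaf 4544327 7053 .leaf) 4544328 7053 .leaf))) 4544344 9102 (.node (.node (.node (.node .leaf 4544357 11085 .leaf) 4544358 11086 (.node .leaf 4544359 11279 .leaf)) 4544360 11279 (.node (.node .leaf 4544373 12944 .leaf) 4544375 13200 .leaf)) 4544392 15249 (.node (.node (.node .leaf 4544599 9102 .leaf) 4544615 11087 (.node .leaf 4544871 11087 .leaf)) 4548183 11086 (.node (.node .leaf 4548196 15181 .leaf) 4548199 11087 .leaf)))) 4548213 12813 (.node (.node (.node (.node (.node .leaf 4548214 12943 .leaf) 4548215 15120 (.node .leaf 4548231 15120 .leaf)) 4548232 17297 (.node (.node .leaf 4548423 11214 .leaf) 4548440 11215 .leaf)) 4548453 9167 (.node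 (.node (.node .leaf 4548454 11152 .leaf) 4548456 11152 (.node .leaf 4548470 13072 .leaf)) 4548471 13072 (.node (.node .leaf 4548472 13137 .leaf) 4548486 13137 .leaf))) 4548488 15250 (.node (.node (.node (.node .leaf 4548710 13264 .leaf) 4552292 21325 (.node .leaf 4552294 12943 .leaf)) 4552308 12813 (.node (.node .leaf 4552309 12813 .leaf) 4552311 13201 .leaf)) 4552326 17040 (.node (.node (.node .leaf 4552327 13137 .leaf) 4552343 17298 (.node .leaf 4552549 9167 .leaf)) 4552550 13264 (.node (.node .leaf 4552551 15185 .leaf) 4552565 13073 .leaf))))) 4552566 13073 (.node (.node (.node (.node (.node (.node .leaf 4552582 15186 .leaf) 4552583 15186 (.node .leaf 4552584 15187 .leaf)) 4552806 11344 (.node (.node .leaf 4552807 15185 .leaf) 4552823 13073 .leaf)) 4555110 17489 (.node (.node (.node .leaf 4556388 21325 .leaf) 4556404 12813 (.node .leaf 4556405 12813 .leaf)) 4556407 13137 (.node (.node .leaf 4556421 14864 .leaf) 4556437 17041 .leaf))) 4556644 17229 (.node (.node (.node (.node .leaf 4556645 9167 .leaf) 4556646 13264 (.node .leaf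 4556661 13073 .leaf)) 4556662 13073 (.node (.node .leaf 4556902 11344 .leaf) 4556918 13073 .leaf)) 4556919 13073 (.node (.node (.node .leaf 4557158 11472 .leaf) 4560483 12813 (.node .leaf 4560484 17229 .leaf)) 4560500 12813 (.node (.node .leaf 4560501 12813 .leaf) 4560517 14864 .leaf)))) 4560532 16784 (.node (.node (.node (.node (.node .leaf 4560550 21139 .leaf) 4560740 19277 (.node .leaf 4560741 9167 .leaf)) 4560756 19280 (.node (.node .leaf 4560757 11217 .leaf) 4560773 19281 .leaf)) 4564579 12813 (.node (.node (.node .leaf 4564580 17229 .leaf) 4564596 12813 (.node .leaf 4564597 12813 .leaf)) 4564612 14864 (.node (.node .leaf 4564613 14864 .leaf) 4564628 16784 .leaf))) 4564837 9167 (.node (.node (.node (.node .leaf 4564853 11217 .leaf) 4568675 12813 (.node .leaf 4568676 19277 .leaf)) 4568692 12813 (.node (.node .leaf 4568708 14736 .leaf) 4568709 14864 .leaf)) 4568933 9167 (.node (.node (.node .leaf 4568949 11217 .leaf) 4593525 12944 (.node .leaf 4609880 9230 .leaf)) 4609893 13071 (.node (.node .leaf 4609895 13071 .leaf) 4609909 13071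 .leaf)))))) 4609911 13071 (.node (.node (.node (.node (.node (.node (.node .leaf 4610150 11215 .leaf) 4610151 11216 (.node .leaf 4610152 11216 .leaf)) 4610406 11215 (.node (.node .leaf 4610407 11216 .leaf) 4610423 13202 .leaf)) 4613976 11215 (.node (.node (.node .leaf 4613990 11215 .leaf) 4613992 11216 (.node .leaf 4614006 12944 .leaf)) 4614007 13073 (.node (.node .leaf 4614008 15250 .leaf) 4614022 15250 .leaf))) 4614024 15250 (.node (.node (.node (.node .leaf 4614246 9296 .leaf) 4614263 13074 (.node .leaf 4618086 11215 .leaf)) 4618087 13073 (.node (.node .leaf 4618101 12944 .leaf) 4618102 12944 .leaf)) 4618119 17171 (.node (.node (.node .leaf 4618120 13267 .leaf) 4618342 9296 (.node .leaf 4618343 11346 .leaf)) 4618358 13074 (.node (.node .leaf 4618359 13074 .leaf) 4622182 11215 .leaf)))) 4622197 12944 (.node (.node (.node (.node (.node .leaf 4622198 12944 .leaf) 4622438 9296 (.node .leaf 4622454 13074 .leaf)) 4622455 13074 (.node (.node .leaf 4622694 17361 .leaf) 4622695 13074 .leaf)) 4626276 12944 (.node (.node (.node .leaf 4626293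 12944 .leaf) 4626309 14867 (.node .leaf 4630389 12944 .leaf)) 4634485 12944 (.node (.node .leaf 4675687 13329 .leaf) 4675943 11345 .leaf))) 4675944 11345 (.node (.node (.node (.node .leaf 4675959 13203 .leaf) 4679765 13073 (.node .leaf 4679782 17489 .leaf)) 4679799 13073 (.node (.node .leaf 4683878 13393 .leaf) 4683894 13073 .leaf)) 4683895 13073 (.node (.node (.node .leaf 4687957 13073 .leaf) 4687974 13393 (.node .leaf 4687990 13073 .leaf)) 4687991 13073 (.node (.node .leaf 4688213 13078 .leaf) 4688230 17489 .leaf))))) 4688231 9426 (.node (.node (.node (.node (.node (.node .leaf 4688247 13204 .leaf) 4700519 9426 (.node .leaf 4741479 13330 .leaf)) 4741495 13330 (.node (.node .leaf 4753749 13078 .leaf) 4753766 13203 .leaf)) 4753767 23763 (.node (.node (.node .leaf 4753783 13203 .leaf) 4766038 13203 (.node .leaf 5313107 2241 .leaf)) 5313123 16710 (.node (.node .leaf 5313124 12679 .leaf) 5313138 12679 .leaf))) 5313139 12679 (.node (.node (.node (.node .leaf 5313140 12679 .leaf) 5313154 14728 (.node .leaf 5313155 14728 .leaf)) 5313156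 14728 (.node (.node .leaf 5313170 16649 .leaf) 5313171 16649 .leaf)) 5313172 16905 (.node (.node (.node .leaf 5313186 18698 .leaf) 5313187 18826 (.node .leaf 5313188 18954 .leaf)) 5313204 20875 (.node (.node .leaf 5313363 2241 .leaf) 5313379 8642 .leaf)))) 5313394 2376 (.node (.node (.node (.node (.node .leaf 5313395 2376 .leaf) 5313396 12681 (.node .leaf 5313410 2377 .leaf)) 5313411 2377 (.node (.node .leaf 5313412 2377 .leaf) 5313426 2378 .leaf)) 5313427 2378 (.node (.node (.node .leaf 5313428 2378 .leaf) 5313443 2379 (.node .leaf 5313444 2379 .leaf)) 5313635 8770 (.node (.node .leaf 5313650 2376 .leaf) 5313651 2376 .leaf))) 5313652 2377 (.node (.node (.node (.node .leaf 5313667 2377 .leaf) 5313668 2377 (.node .leaf 5313859 12994 .leaf)) 5313860 10627 (.node (.node .leaf 5313876 10627 .leaf) 5313891 8898 .leaf)) 5313892 10627 (.node (.node (.node .leaf 5314115 13122 .leaf) 5314116 10627 (.node .leaf 5314132 10627 .leaf)) 5314147 9026 (.node (.node .leaf 5314148 10627 .leaf) 5321555 6337 .leaf)))))))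

def c38 : NatMap := (.node (.node (.node (.node (.node (.node (.node (.node .leaf 5322067 6337 .leaf) 5322308 10627 (.node .leaf 5322323 6337 .leaf)) 5322579 6337 (.node (.node .leaf 5322835 6337 .leaf) 5323091 6337 (.node .leaf 5325923 8898 .leaf))) 5326164 12674 (.node (.node (.node .leaf 5326179 9026 .leaf) 5326180 12674 (.node .leaf 5330003 21059 .leaf)) 5330516 10627 (.node (.node .leaf 5330517 13130 .leaf) 5333571 12738 .leaf))) 5333572 10630 (.node (.node (.node (.node .leaf 5333587 12867 .leaf) 5333604 10630 (.node .leaf 5333606 20812 .leaf)) 5333618 12678 (.node (.node .leaf 5333619 12678 .leaf) 5333620 12678 .leaf)) 5333621 20810 (.node (.node (.node .leaf 5333637 22858 .leaf) 5333655 20814 (.node .leaf 5333827 12994 .leaf)) 5333828 8578 (.node (.node .leaf 5333843 8578 .leaf) 5333860 10630 .leaf)))) 5333874 12615 (.node (.node (.node (.node (.node .leaf 5333875 12616 .leaf) 5333876 12810 (.node .leaf 5333877 12810 .leaf)) 5334083 12994 (.node (.node .leaf 5334084 8578 .leaf) 5334099 8578 .leaf)) 5334100 8578 (.node (.node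 (.node .leaf 5334101 8713 .leaf) 5334115 8770 (.node .leaf 5334117 10890 .leaf)) 5334132 12682 (.node (.node .leaf 5334133 12939 .leaf) 5334134 12939 .leaf))) 5334149 14860 (.node (.node (.node (.node .leaf 5334339 13122 .leaf) 5334340 8578 (.node .leaf 5334341 8713 .leaf)) 5334355 8578 (.node (.node .leaf 5334356 8578 .leaf) 5334357 8713 .leaf)) 5334358 10890 (.node (.node (.node .leaf 5334371 8898 .leaf) 5334372 10627 (.node .leaf 5334374 10890 .leaf)) 5334389 12747 (.node (.node .leaf 5334390 14989 .leaf) 5334391 13070 .leaf))))) 5334406 14989 (.node (.node (.node (.node (.node (.node .leaf 5334423 17167 .leaf) 5334595 13250 (.node .leaf 5334596 8578 .leaf)) 5334597 8713 (.node (.node .leaf 5334612 8578 .leaf) 5334627 9026 .leaf)) 5334628 10627 (.node (.node (.node .leaf 5334629 10890 .leaf) 5334645 12747 (.node .leaf 5334646 12940 .leaf)) 5334647 15119 (.node (.node .leaf 5334836 8578 .leaf) 5334851 13122 .leaf))) 5334852 8578 (.node (.node (.node (.node .leaf 5334853 6665 .leaf) 5334854 8842 (.node .leaf 5334903 13007 .leaf))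 5335092 8578 (.node (.node .leaf 5335107 12994 .leaf) 5335108 8578 .leaf)) 5335363 13378 (.node (.node (.node .leaf 5335364 8578 .leaf) 5337634 6544 (.node .leaf 5337667 10630 .leaf)) 5337668 10630 (.node (.node .leaf 5337683 14529 .leaf) 5337684 10630 .leaf)))) 5337685 10760 (.node (.node (.node (.node (.node .leaf 5337699 16710 .leaf) 5337700 10630 (.node .leaf 5337701 10760 .leaf)) 5337715 12678 (.node (.node .leaf 5337716 12678 .leaf) 5337717 14856 .leaf)) 5337730 14471 (.node (.node (.node .leaf 5337731 14856 .leaf) 5337732 16776 (.node .leaf 5337733 14856 .leaf)) 5337734 17036 (.node (.node .leaf 5337735 17166 .leaf) 5337747 16648 .leaf))) 5337748 16776 (.node (.node (.node (.node .leaf 5337749 16904 .leaf) 5337750 17036 (.node .leaf 5337751 17166 .leaf)) 5337764 18825 (.node (.node .leaf 5337767 19214 .leaf) 5337891 6675 .leaf)) 5337908 12750 (.node (.node (.node .leaf 5337923 12738 .leaf) 5337924 10630 (.node .leaf 5337939 14529 .leaf)) 5337940 10630 (.node (.node .leaf 5337941 10762 .leaf) 5337956 10630 .leaf)))))) 5337957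 10762 (.node (.node (.node (.node (.node (.node (.node .leaf 5337958 10892 .leaf) 5337969 14663 (.node .leaf 5337970 10697 .leaf)) 5337974 12940 (.node (.node .leaf 5337986 14664 .leaf) 5337987 14664 .leaf)) 5337988 14664 (.node (.node (.node .leaf 5337989 16908 .leaf) 5337990 17037 (.node .leaf 5338004 14666 .leaf)) 5338006 17037 (.node (.node .leaf 5338164 12873 .leaf) 5338179 12866 .leaf))) 5338180 10627 (.node (.node (.node (.node .leaf 5338181 8714 .leaf) 5338195 14529 (.node .leaf 5338196 10627 .leaf)) 5338197 8714 (.node (.node .leaf 5338211 8770 .leaf) 5338212 10627 .leaf)) 5338213 10762 (.node (.node (.node .leaf 5338229 12939 .leaf) 5338244 14664 (.node .leaf 5338245 14668 .leaf)) 5338246 14988 (.node (.node .leaf 5338261 14668 .leaf) 5338262 17038 .leaf)))) 5338435 12994 (.node (.node (.node (.node (.node .leaf 5338436 10627 .leaf) 5338437 13002 (.node .leaf 5338451 14529 .leaf)) 5338452 10627 (.node (.node .leaf 5338453 13002 .leaf) 5338467 8898 .leaf)) 5338470 10891 (.node (.node (.node .leaf 5338487 13007 .leaf) 5338499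 14664 (.node .leaf 5338500 14664 .leaf)) 5338501 14668 (.node (.node .leaf 5338502 14670 .leaf) 5338518 14670 .leaf))) 5338519 17168 (.node (.node (.node (.node .leaf 5338535 19216 .leaf) 5338691 13122 (.node .leaf 5338692 10627 .leaf)) 5338707 14529 (.node (.node .leaf 5338708 10627 .leaf) 5338709 13130 .leaf)) 5338723 9026 (.node (.node (.node .leaf 5338724 10627 .leaf) 5338725 10762 (.node .leaf 5338726 10891 .leaf)) 5338741 12812 (.node (.node .leaf 5338743 13071 .leaf) 5338758 14670 .leaf))))) 5338760 15248 (.node (.node (.node (.node (.node (.node .leaf 5338775 17168 .leaf) 5338931 13257 (.node .leaf 5338932 13257 .leaf)) 5338947 13250 (.node (.node .leaf 5338948 10627 .leaf) 5338949 8714 .leaf)) 5338963 14529 (.node (.node (.node .leaf 5338964 10627 .leaf) 5338966 8843 (.node .leaf 5338979 9154 .leaf)) 5338980 10627 (.node (.node .leaf 5338997 12812 .leaf) 5339014 14670 .leaf))) 5339015 17168 (.node (.node (.node (.node .leaf 5339203 13378 .leaf) 5339204 10627 (.node .leaf 5339205 13386 .leaf)) 5339219 14529 (.node (.node .leaf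 5339220 10627 .leaf) 5339221 10762 .leaf)) 5339238 10891 (.node (.node (.node .leaf 5339443 13513 .leaf) 5339459 13506 (.node .leaf 5339460 10627 .leaf)) 5339475 14529 (.node (.node .leaf 5339476 10627 .leaf) 5341713 4374 .leaf)))) 5341729 6418 (.node (.node (.node (.node (.node .leaf 5341747 8589 .leaf) 5341763 10632 (.node .leaf 5341779 16577 .leaf)) 5341780 12678 (.node (.node .leaf 5341781 10760 .leaf) 5341795 10566 .leaf)) 5341796 12678 (.node (.node (.node .leaf 5341797 10760 .leaf) 5341811 12678 (.node .leaf 5341812 12678 .leaf)) 5341813 14856 (.node (.node .leaf 5341814 12938 .leaf) 5341825 14471 .leaf))) 5341828 14856 (.node (.node (.node (.node .leaf 5341829 14856 .leaf) 5341830 17034 (.node .leaf 5341842 16776 .leaf)) 5341843 16776 (.node (.node .leaf 5341844 16776 .leaf) 5341845 16904 .leaf)) 5341846 17034 (.node (.node (.node .leaf 5341860 19082 .leaf) 5341970 4505 (.node .leaf 5341986 6549 .leaf)) 5341987 6549 (.node (.node .leaf 5342003 8721 .leaf) 5342004 12750 .leaf)))))))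

def c39 : NatMap := (.node (.node (.node (.node (.node (.node (.node (.node .leaf 5342020 10630 .leaf) 5342035 16577 (.node .leaf 5342036 10630 .leaf)) 5342051 10630 (.node (.node .leaf 5342052 10630 .leaf) 5342053 16714 (.node .leaf 5342054 12940 .leaf))) 5342065 16711 (.node (.node (.node .leaf 5342066 10697 .leaf) 5342068 16712 (.node .leaf 5342069 16714 .leaf)) 5342070 14988 (.node (.node .leaf 5342081 16713 .leaf) 5342082 14602 .leaf))) 5342084 16712 (.node (.node (.node (.node .leaf 5342086 14988 .leaf) 5342098 16713 (.node .leaf 5342099 16714 .leaf)) 5342100 16714 (.node (.node .leaf 5342101 16714 .leaf) 5342102 19086 .leaf)) 5342103 17166 (.node (.node (.node .leaf 5342116 16714 .leaf) 5342260 12873 (.node .leaf 5342275 12866 .leaf)) 5342277 10762 (.node (.node .leaf 5342292 10627 .leaf) 5342307 8770 .leaf)))) 5342308 10627 (.node (.node (.node (.node (.node .leaf 5342323 16712 .leaf) 5342324 16712 (.node .leaf 5342339 14603 .leaf)) 5342341 16714 (.node (.node .leaf 5342357 16714 .leaf) 5342358 17038 .leaf)) 5342531 12994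 (.node (.node (.node .leaf 5342532 10627 .leaf) 5342548 10627 (.node .leaf 5342549 13002 .leaf)) 5342563 8898 (.node (.node .leaf 5342564 10627 .leaf) 5342565 10762 .leaf))) 5342566 12940 (.node (.node (.node (.node .leaf 5342579 16712 .leaf) 5342580 16712 (.node .leaf 5342581 16714 .leaf)) 5342613 16714 (.node (.node .leaf 5342787 13122 .leaf) 5342804 10627 .leaf)) 5342819 9026 (.node (.node (.node .leaf 5342820 10627 .leaf) 5342821 16714 (.node .leaf 5342838 12940 .leaf)) 5343028 13257 (.node (.node .leaf 5343043 13250 .leaf) 5343044 10627 .leaf))))) 5343060 10627 (.node (.node (.node (.node (.node (.node .leaf 5343075 9154 .leaf) 5343076 10627 (.node .leaf 5343299 13378 .leaf)) 5343300 10627 (.node (.node .leaf 5343316 10627 .leaf) 5343317 16714 .leaf)) 5343331 9282 (.node (.node (.node .leaf 5343332 10627 .leaf) 5343333 16714 (.node .leaf 5343539 13513 .leaf)) 5343555 13506 (.node (.node .leaf 5343556 10627 .leaf) 5343572 10627 .leaf))) 5343587 9410 (.node (.node (.node (.node .leaf 5343588 10627 .leaf) 5345825 6421 (.node .leaf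 5345826 6421 .leaf)) 5345842 8591 (.node (.node .leaf 5345843 8591 .leaf) 5345875 18625 .leaf)) 5345891 16710 (.node (.node (.node .leaf 5345892 12678 .leaf) 5345893 12808 (.node .leaf 5345894 12938 .leaf)) 5345907 12678 (.node (.node .leaf 5345908 12678 .leaf) 5345909 12808 .leaf)))) 5345921 14471 (.node (.node (.node (.node (.node .leaf 5345923 14664 .leaf) 5345924 14664 (.node .leaf 5345925 14856 .leaf)) 5345926 17034 (.node (.node .leaf 5345937 16521 .leaf) 5345939 16776 .leaf)) 5345940 16776 (.node (.node (.node .leaf 5345941 16904 .leaf) 5345954 18569 (.node .leaf 5345955 18954 .leaf)) 5345956 18954 (.node (.node .leaf 5345957 19082 .leaf) 5345958 19082 .leaf))) 5346082 6552 (.node (.node (.node (.node .leaf 5346098 8596 .leaf) 5346099 8596 (.node .leaf 5346115 12738 .leaf)) 5346116 10630 (.node (.node .leaf 5346131 18625 .leaf) 5346132 10630 .leaf)) 5346147 10630 (.node (.node (.node .leaf 5346148 10630 .leaf) 5346150 18764 (.node .leaf 5346161 18759 .leaf)) 5346162 10697 (.node (.node .leaf 5346164 18760 .leaf) 5346165 18762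 .leaf)))))) 5346177 18761 (.node (.node (.node (.node (.node (.node (.node .leaf 5346178 14602 .leaf) 5346180 18760 (.node .leaf 5346181 18762 .leaf)) 5346182 14988 (.node (.node .leaf 5346193 18761 .leaf) 5346194 16523 .leaf)) 5346197 18762 (.node (.node (.node .leaf 5346199 17167 .leaf) 5346210 18762 (.node .leaf 5346211 18762 .leaf)) 5346212 18762 (.node (.node .leaf 5346213 18762 .leaf) 5346214 18764 .leaf))) 5346338 18777 (.node (.node (.node (.node .leaf 5346356 12873 .leaf) 5346371 12866 (.node .leaf 5346372 10627 .leaf)) 5346388 10627 (.node (.node .leaf 5346389 12874 .leaf) 5346403 8770 .leaf)) 5346404 10627 (.node (.node (.node .leaf 5346419 18760 .leaf) 5346420 18760 (.node .leaf 5346433 18761 .leaf)) 5346434 14603 (.node (.node .leaf 5346435 18760 .leaf) 5346453 18762 .leaf)))) 5346468 18762 (.node (.node (.node (.node (.node .leaf 5346627 12994 .leaf) 5346628 10627 (.node .leaf 5346644 10627 .leaf)) 5346659 8898 (.node (.node .leaf 5346660 10627 .leaf) 5346661 18762 .leaf)) 5346674 18890 (.node (.node (.node .leaf 5346676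 18760 .leaf) 5346677 18762 (.node .leaf 5346689 18761 .leaf)) 5346690 14603 (.node (.node .leaf 5346691 18760 .leaf) 5346883 13122 .leaf))) 5346884 10627 (.node (.node (.node (.node .leaf 5346900 10627 .leaf) 5346915 9026 (.node .leaf 5346916 10627 .leaf)) 5346933 18762 (.node (.node .leaf 5347139 13250 .leaf) 5347140 10627 .leaf)) 5347156 10627 (.node (.node (.node .leaf 5347171 9154 .leaf) 5347172 10627 (.node .leaf 5347395 13378 .leaf)) 5347396 10627 (.node (.node .leaf 5347412 10627 .leaf) 5347427 9282 .leaf))))) 5347428 10627 (.node (.node (.node (.node (.node (.node .leaf 5347429 18762 .leaf) 5347651 13506 (.node .leaf 5347652 10627 .leaf)) 5347668 10627 (.node (.node .leaf 5347683 9410 .leaf) 5347684 10627 .leaf)) 5349939 14672 (.node (.node (.node .leaf 5349971 20673 .leaf) 5349987 10566 (.node .leaf 5349988 12678 .leaf)) 5350001 14663 (.node (.node .leaf 5350003 12678 .leaf) 5350004 12678 .leaf))) 5350005 14856 (.node (.node (.node (.node .leaf 5350017 14471 .leaf) 5350019 14856 (.node .leaf 5350020 14856 .leaf)) 5350021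 14856 (.node (.node .leaf 5350022 14986 .leaf) 5350033 18761 .leaf)) 5350035 16904 (.node (.node (.node .leaf 5350036 16776 .leaf) 5350037 16904 (.node .leaf 5350038 17034 .leaf)) 5350049 18569 (.node (.node .leaf 5350052 18954 .leaf) 5350054 19082 .leaf)))) 5350066 20874 (.node (.node (.node (.node (.node .leaf 5350067 20874 .leaf) 5350068 20874 (.node .leaf 5350069 21002 .leaf)) 5350178 6426 (.node (.node .leaf 5350194 8598 .leaf) 5350195 16853 .leaf)) 5350211 12738 (.node (.node (.node .leaf 5350227 20673 .leaf) 5350228 10630 (.node .leaf 5350243 10630 .leaf)) 5350257 20807 (.node (.node .leaf 5350258 10697 .leaf) 5350260 20808 .leaf))) 5350261 20810 (.node (.node (.node (.node .leaf 5350273 20809 .leaf) 5350274 14602 (.node .leaf 5350276 20808 .leaf)) 5350277 20810 (.node (.node .leaf 5350278 20812 .leaf) 5350289 20809 .leaf)) 5350290 16523 (.node (.node (.node .leaf 5350292 20810 .leaf) 5350293 20810 (.node .leaf 5350305 20811 .leaf)) 5350308 20810 (.node (.node .leaf 5350322 20811 .leaf) 5350323 20812 .leaf)))))))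

def c40 : NatMap := (.node (.node (.node (.node (.node (.node (.node (.node .leaf 5350325 20812 .leaf) 5350451 12873 (.node .leaf 5350467 12866 .leaf)) 5350468 10627 (.node (.node .leaf 5350484 10627 .leaf) 5350485 12874 (.node .leaf 5350499 8770 .leaf))) 5350500 10627 (.node (.node (.node .leaf 5350515 20808 .leaf) 5350516 20808 (.node .leaf 5350529 20809 .leaf)) 5350530 14603 (.node (.node .leaf 5350531 20808 .leaf) 5350546 20940 .leaf))) 5350547 20810 (.node (.node (.node (.node .leaf 5350723 12994 .leaf) 5350724 10627 (.node .leaf 5350740 10627 .leaf)) 5350755 8898 (.node (.node .leaf 5350756 10627 .leaf) 5350771 20808 .leaf)) 5350785 20809 (.node (.node (.node .leaf 5350786 14475 .leaf) 5350803 20810 (.node .leaf 5350804 20810 .leaf)) 5350979 13122 (.node (.node .leaf 5350980 10627 .leaf) 5350996 10627 .leaf)))) 5351011 9026 (.node (.node (.node (.node (.node .leaf 5351012 10627 .leaf) 5351026 20938 (.node .leaf 5351235 13250 .leaf)) 5351236 10627 (.node (.node .leaf 5351252 10627 .leaf) 5351267 9154 .leaf)) 5351268 10627 (.node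 (.node (.node .leaf 5351491 13378 .leaf) 5351492 10627 (.node .leaf 5351508 10627 .leaf)) 5351523 9282 (.node (.node .leaf 5351524 10627 .leaf) 5351747 13506 .leaf))) 5351748 10627 (.node (.node (.node (.node .leaf 5351764 10627 .leaf) 5351779 9410 (.node .leaf 5351780 10627 .leaf)) 5354018 16726 (.node (.node .leaf 5354035 14672 .leaf) 5354067 22721 .leaf)) 5354083 16710 (.node (.node (.node .leaf 5354084 12678 .leaf) 5354099 12678 (.node .leaf 5354100 12678 .leaf)) 5354113 14471 (.node (.node .leaf 5354115 14664 .leaf) 5354116 16712 .leaf))))) 5354117 16904 (.node (.node (.node (.node (.node (.node .leaf 5354132 16776 .leaf) 5354133 16904 (.node .leaf 5354274 6555 .leaf)) 5354291 16853 (.node (.node .leaf 5354307 12738 .leaf) 5354323 22721 .leaf)) 5354339 10630 (.node (.node (.node .leaf 5354354 10697 .leaf) 5354356 22856 (.node .leaf 5354372 22856 .leaf)) 5354373 22858 (.node (.node .leaf 5354388 22858 .leaf) 5354530 22876 .leaf))) 5354547 12873 (.node (.node (.node (.node .leaf 5354563 12866 .leaf) 5354564 10627 (.node .leaf 5354580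 10627 .leaf)) 5354595 8770 (.node (.node .leaf 5354596 10627 .leaf) 5354611 22856 .leaf)) 5354612 22856 (.node (.node (.node .leaf 5354627 22856 .leaf) 5354819 12994 (.node .leaf 5354820 10627 .leaf)) 5354836 10627 (.node (.node .leaf 5354851 8898 .leaf) 5354852 10627 .leaf)))) 5354867 22856 (.node (.node (.node (.node (.node .leaf 5355075 13122 .leaf) 5355076 10627 (.node .leaf 5355092 10627 .leaf)) 5355107 9026 (.node (.node .leaf 5355108 10627 .leaf) 5355122 22986 .leaf)) 5355331 13250 (.node (.node (.node .leaf 5355332 10627 .leaf) 5355348 10627 (.node .leaf 5355363 9154 .leaf)) 5355364 10627 (.node (.node .leaf 5355587 13378 .leaf) 5355588 10627 .leaf))) 5355604 10627 (.node (.node (.node (.node .leaf 5355619 9282 .leaf) 5355620 10627 (.node .leaf 5355843 13506 .leaf)) 5355844 10627 (.node (.node .leaf 5355860 10627 .leaf) 5355875 9410 .leaf)) 5355876 10627 (.node (.node (.node .leaf 5378931 12745 .leaf) 5378932 14730 (.node .leaf 5378946 14602 .leaf)) 5378947 14602 (.node (.node .leaf 5378948 14730 .leaf) 5378962 16651 .leaf))))))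 5378963 16651 (.node (.node (.node (.node (.node (.node (.node .leaf 5378964 16908 .leaf) 5378979 18828 (.node .leaf 5378980 18828 .leaf)) 5379186 2506 (.node (.node .leaf 5379187 2506 .leaf) 5379188 12876 .leaf)) 5379202 2507 (.node (.node (.node .leaf 5379203 14604 .leaf) 5379204 14732 (.node .leaf 5379205 12877 .leaf)) 5379219 2508 (.node (.node .leaf 5379220 2508 .leaf) 5379221 16910 .leaf))) 5379396 13000 (.node (.node (.node (.node .leaf 5379428 10762 .leaf) 5379444 12812 (.node .leaf 5379460 2508 .leaf)) 5379652 13128 (.node (.node .leaf 5379669 10762 .leaf) 5379684 10762 .leaf)) 5379685 10762 (.node (.node (.node .leaf 5379700 2508 .leaf) 5387844 13128 (.node .leaf 5391716 10762 .leaf)) 5396053 10762 (.node (.node .leaf 5398852 13128 .leaf) 5398869 12877 .leaf)))) 5398886 13006 (.node (.node (.node (.node (.node .leaf 5399348 13389 .leaf) 5399364 13256 (.node .leaf 5399396 14729 .leaf)) 5399413 12810 (.node (.node .leaf 5399603 8712 .leaf) 5399604 8712 .leaf)) 5399620 13512 (.node (.node (.node .leaf 5399636 8712 .leaf) 5399637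 8712 (.node .leaf 5399653 10762 .leaf)) 5399667 12745 (.node (.node .leaf 5399668 12747 .leaf) 5399669 14860 .leaf))) 5399670 14989 (.node (.node (.node (.node .leaf 5399685 14860 .leaf) 5399686 14989 (.node .leaf 5399876 13256 .leaf)) 5399877 8712 (.node (.node .leaf 5399893 8712 .leaf) 5399908 10762 .leaf)) 5399910 11021 (.node (.node (.node .leaf 5399925 12812 .leaf) 5399926 13070 (.node .leaf 5399927 13070 .leaf)) 5399942 14990 (.node (.node .leaf 5400132 13512 .leaf) 5400133 8712 .leaf))))) 5400148 8712 (.node (.node (.node (.node (.node (.node .leaf 5400149 8712 .leaf) 5400150 8845 (.node .leaf 5400164 10762 .leaf)) 5400165 10762 (.node (.node .leaf 5400181 12877 .leaf) 5400182 14990 .leaf)) 5400183 13007 (.node (.node (.node .leaf 5400199 15248 .leaf) 5400371 8712 (.node .leaf 5400372 8712 .leaf)) 5400388 12872 (.node (.node .leaf 5400389 8712 .leaf) 5400391 8973 .leaf))) 5400438 12878 (.node (.node (.node (.node .leaf 5400439 13007 .leaf) 5400456 15248 (.node .leaf 5400644 13256 .leaf)) 5400645 8712 (.node (.node .leaf 5400883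 8712 .leaf) 5402948 10762 .leaf)) 5402965 10762 (.node (.node (.node .leaf 5402982 15439 .leaf) 5402999 13072 (.node .leaf 5403014 17039 .leaf)) 5403427 6675 (.node (.node .leaf 5403444 8719 .leaf) 5403460 10762 .leaf)))) 5403476 14664 (.node (.node (.node (.node (.node .leaf 5403477 10762 .leaf) 5403492 16842 (.node .leaf 5403493 10762 .leaf)) 5403494 10892 (.node (.node .leaf 5403506 12745 .leaf) 5403510 12940 .leaf)) 5403522 14473 (.node (.node (.node .leaf 5403523 14602 .leaf) 5403524 16779 (.node .leaf 5403525 16908 .leaf)) 5403526 17037 (.node (.node .leaf 5403540 16779 .leaf) 5403542 17037 .leaf))) 5403700 15314 (.node (.node (.node (.node .leaf 5403716 12872 .leaf) 5403717 10762 (.node .leaf 5403732 14664 .leaf)) 5403733 10762 (.node (.node .leaf 5403748 10762 .leaf) 5403749 10762 .leaf)) 5403762 14794 (.node (.node (.node .leaf 5403763 10827 .leaf) 5403765 12811 (.node .leaf 5403779 14795 .leaf)) 5403780 14796 (.node (.node .leaf 5403781 12877 .leaf) 5403782 17038 .leaf)))))))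

def c41 : NatMap := (.node (.node (.node (.node (.node (.node (.node (.node .leaf 5403797 16909 .leaf) 5403798 17038 (.node .leaf 5403799 17167 .leaf)) 5403972 13000 (.node (.node .leaf 5403973 10762 .leaf) 5403988 14664 (.node .leaf 5403989 10762 .leaf))) 5404004 10762 (.node (.node (.node .leaf 5404005 10762 .leaf) 5404006 13006 (.node .leaf 5404022 13007 .leaf)) 5404023 13007 (.node (.node .leaf 5404035 14795 .leaf) 5404036 14796 .leaf))) 5404037 14797 (.node (.node (.node (.node .leaf 5404038 14927 .leaf) 5404039 17168 (.node .leaf 5404054 17039 .leaf)) 5404055 17168 (.node (.node .leaf 5404071 19216 .leaf) 5404228 13128 .leaf)) 5404244 14664 (.node (.node (.node .leaf 5404245 10762 .leaf) 5404260 10762 (.node .leaf 5404261 10762 .leaf)) 5404262 10894 (.node (.node .leaf 5404277 12813 .leaf) 5404279 13071 .leaf)))) 5404293 14797 (.node (.node (.node (.node (.node .leaf 5404294 14927 .leaf) 5404296 19346 (.node .leaf 5404311 17169 .leaf)) 5404328 19346 (.node (.node .leaf 5404467 8718 .leaf) 5404468 13261 .leaf)) 5404484 13256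 (.node (.node (.node .leaf 5404485 10762 .leaf) 5404500 14664 (.node .leaf 5404501 10762 .leaf)) 5404502 8846 (.node (.node .leaf 5404516 10762 .leaf) 5404533 12813 .leaf))) 5404550 14927 (.node (.node (.node (.node .leaf 5404551 17169 .leaf) 5404552 17298 (.node .leaf 5404740 13384 .leaf)) 5404741 10762 (.node (.node .leaf 5404756 14664 .leaf) 5404757 10762 .leaf)) 5404774 10894 (.node (.node (.node .leaf 5404979 8718 .leaf) 5404996 13512 (.node .leaf 5405012 14664 .leaf)) 5405013 10762 (.node (.node .leaf 5407076 16842 .leaf) 5407077 16844 .leaf))))) 5407078 16846 (.node (.node (.node (.node (.node (.node .leaf 5407095 13073 .leaf) 5407506 4505 (.node .leaf 5407522 6549 .leaf)) 5407523 6549 (.node (.node .leaf 5407539 8721 .leaf) 5407540 8721 .leaf)) 5407556 10764 (.node (.node (.node .leaf 5407572 16712 .leaf) 5407573 12810 (.node .leaf 5407588 18890 .leaf)) 5407589 12810 (.node (.node .leaf 5407590 12940 .leaf) 5407602 12745 .leaf))) 5407605 12810 (.node (.node (.node (.node .leaf 5407606 12940 .leaf) 5407617 14473 (.node .leaf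 5407618 14473 .leaf)) 5407620 14860 (.node (.node .leaf 5407622 14988 .leaf) 5407635 18699 .leaf)) 5407636 2508 (.node (.node (.node .leaf 5407637 18957 .leaf) 5407639 17166 (.node .leaf 5407779 6680 .leaf)) 5407796 8852 (.node (.node .leaf 5407813 10762 .leaf) 5407828 16712 .leaf)))) 5407829 10762 (.node (.node (.node (.node (.node .leaf 5407844 16842 .leaf) 5407845 10762 (.node .leaf 5407858 16842 .leaf)) 5407859 10827 (.node (.node .leaf 5407860 12811 .leaf) 5407861 12811 .leaf)) 5407874 14732 (.node (.node (.node .leaf 5407875 14732 .leaf) 5407877 12877 (.node .leaf 5407892 16845 .leaf)) 5407893 16846 (.node (.node .leaf 5407894 16847 .leaf) 5407895 19217 .leaf))) 5408068 13000 (.node (.node (.node (.node .leaf 5408084 16712 .leaf) 5408085 10762 (.node .leaf 5408100 16842 .leaf)) 5408101 10762 (.node (.node .leaf 5408102 13006 .leaf) 5408116 16844 .leaf)) 5408117 16844 (.node (.node (.node .leaf 5408132 14733 .leaf) 5408149 16846 (.node .leaf 5408150 16847 .leaf)) 5408356 16842 (.node (.node .leaf 5408357 10762 .leaf) 5408372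 16844 .leaf)))))) 5408374 16846 (.node (.node (.node (.node (.node (.node (.node .leaf 5408391 15120 .leaf) 5408564 13261 (.node .leaf 5408580 13256 .leaf)) 5408581 10762 (.node (.node .leaf 5408597 10762 .leaf) 5408612 10762 .leaf)) 5408613 10762 (.node (.node (.node .leaf 5408836 13384 .leaf) 5408853 10762 (.node .leaf 5408868 16842 .leaf)) 5408869 10762 (.node (.node .leaf 5409075 8723 .leaf) 5409092 13512 .leaf))) 5409108 16712 (.node (.node (.node (.node .leaf 5409109 10762 .leaf) 5409124 16842 (.node .leaf 5409125 10762 .leaf)) 5411172 18890 (.node (.node .leaf 5411174 18895 .leaf) 5411189 18892 .leaf)) 5411618 6552 (.node (.node (.node .leaf 5411635 8724 .leaf) 5411668 14794 (.node .leaf 5411684 16842 .leaf)) 5411685 12810 (.node (.node .leaf 5411686 14988 .leaf) 5411698 14473 .leaf)))) 5411700 12810 (.node (.node (.node (.node (.node .leaf 5411701 12810 .leaf) 5411713 14473 (.node .leaf 5411714 14473 .leaf)) 5411716 14988 (.node (.node .leaf 5411717 16908 .leaf) 5411718 17036 .leaf)) 5411730 16523 (.node (.node (.node .leaf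 5411733 17036 .leaf) 5411735 17167 (.node .leaf 5411746 18571 .leaf)) 5411748 20877 (.node (.node .leaf 5411749 21006 .leaf) 5411750 21135 .leaf))) 5411874 18907 (.node (.node (.node (.node .leaf 5411875 6682 .leaf) 5411891 8727 (.node .leaf 5411892 8727 .leaf)) 5411908 12872 (.node (.node .leaf 5411909 10762 .leaf) 5411925 10762 .leaf)) 5411940 10762 (.node (.node (.node .leaf 5411941 10762 .leaf) 5411954 18890 (.node .leaf 5411955 10827 .leaf)) 5411956 12811 (.node (.node .leaf 5411957 12811 .leaf) 5411969 18891 .leaf))))) 5411970 14732 (.node (.node (.node (.node (.node (.node .leaf 5411971 14732 .leaf) 5411973 18892 (.node .leaf 5411986 18892 .leaf)) 5411987 16653 (.node (.node .leaf 5411989 14926 .leaf) 5412004 18894 .leaf)) 5412005 18895 (.node (.node (.node .leaf 5412006 18896 .leaf) 5412164 13000 (.node .leaf 5412165 10762 .leaf)) 5412181 10762 (.node (.node .leaf 5412196 18890 .leaf) 5412197 10762 .leaf))) 5412210 18890 (.node (.node (.node (.node .leaf 5412212 12812 .leaf) 5412213 12812 (.node .leaf 5412225 18891 .leaf))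 5412226 18892 (.node (.node .leaf 5412227 14605 .leaf) 5412228 18892 .leaf)) 5412244 16783 (.node (.node (.node .leaf 5412247 13008 .leaf) 5412261 18895 (.node .leaf 5412262 18896 .leaf)) 5412263 15057 (.node (.node .leaf 5412420 13128 .leaf) 5412452 18890 .leaf)))) 5412453 10762 (.node (.node (.node (.node (.node .leaf 5412468 12813 .leaf) 5412469 18892 (.node .leaf 5412484 18892 .leaf)) 5412676 13256 (.node (.node .leaf 5412708 18890 .leaf) 5412709 10762 .leaf)) 5412932 13384 (.node (.node (.node .leaf 5412949 10762 .leaf) 5412964 18890 (.node .leaf 5412965 10762 .leaf)) 5413188 13512 (.node (.node .leaf 5413204 19146 .leaf) 5413205 10762 .leaf))) 5413220 10762 (.node (.node (.node (.node .leaf 5413221 10762 .leaf) 5415285 20941 (.node .leaf 5415714 6426 .leaf)) 5415730 18904 (.node (.node .leaf 5415731 16853 .leaf) 5415764 14794 .leaf)) 5415793 18889 (.node (.node (.node .leaf 5415794 14473 .leaf) 5415796 12747 (.node .leaf 5415797 18892 .leaf)) 5415809 14473 (.node (.node .leaf 5415810 14473 .leaf) 5415812 14860 .leaf)))))))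

def c42 : NatMap := (.node (.node (.node (.node (.node (.node (.node (.node .leaf 5415814 14989 .leaf) 5415826 16523 (.node .leaf 5415828 2508 .leaf)) 5415829 16909 (.node (.node .leaf 5415841 18571 .leaf) 5415844 16845 (.node .leaf 5415859 22797 .leaf))) 5415860 21006 (.node (.node (.node .leaf 5415861 21006 .leaf) 5415970 6557 (.node .leaf 5415987 8729 .leaf)) 5416004 12872 (.node (.node .leaf 5416021 10762 .leaf) 5416036 10762 .leaf))) 5416037 10762 (.node (.node (.node (.node .leaf 5416050 20938 .leaf) 5416051 10827 (.node .leaf 5416052 14732 .leaf)) 5416053 12812 (.node (.node .leaf 5416065 20939 .leaf) 5416066 14732 .leaf)) 5416067 14732 (.node (.node (.node .leaf 5416082 20940 .leaf) 5416083 16653 (.node .leaf 5416260 13000 .leaf)) 5416277 10762 (.node (.node .leaf 5416292 10762 .leaf) 5416293 10762 .leaf)))) 5416305 20937 (.node (.node (.node (.node (.node .leaf 5416307 12812 .leaf) 5416308 12812 (.node .leaf 5416321 20939 .leaf)) 5416322 20940 (.node (.node .leaf 5416323 14733 .leaf) 5416324 14733 .leaf)) 5416339 21070 (.node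 (.node (.node .leaf 5416340 20942 .leaf) 5416356 18960 (.node .leaf 5416373 20944 .leaf)) 5416516 13128 (.node (.node .leaf 5416548 10762 .leaf) 5416549 10762 .leaf))) 5416564 20940 (.node (.node (.node (.node .leaf 5416565 20941 .leaf) 5416579 14605 (.node .leaf 5416580 20941 .leaf)) 5416772 13256 (.node (.node .leaf 5416804 10762 .leaf) 5416819 21068 .leaf)) 5417028 13384 (.node (.node (.node .leaf 5417060 10762 .leaf) 5417061 10762 (.node .leaf 5417284 13512 .leaf)) 5417316 10762 (.node (.node .leaf 5417317 10762 .leaf) 5419810 18907 .leaf))))) 5419827 16853 (.node (.node (.node (.node (.node (.node .leaf 5419890 12745 .leaf) 5419892 12747 (.node .leaf 5419908 18892 .leaf)) 5419909 18892 (.node (.node .leaf 5419924 2508 .leaf) 5420049 4386 .leaf)) 5420066 6559 (.node (.node (.node .leaf 5420083 8730 .leaf) 5420100 12872 (.node .leaf 5420132 10762 .leaf)) 5420133 10762 (.node (.node .leaf 5420146 22986 .leaf) 5420147 10827 .leaf))) 5420148 14732 (.node (.node (.node (.node .leaf 5420163 14732 .leaf) 5420165 12877 (.node .leaf 5420181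 14926 .leaf)) 5420322 23008 (.node (.node .leaf 5420339 23003 .leaf) 5420356 13000 .leaf)) 5420373 10762 (.node (.node (.node .leaf 5420388 10762 .leaf) 5420389 10762 (.node .leaf 5420403 12812 .leaf)) 5420404 12812 (.node (.node .leaf 5420419 14733 .leaf) 5420420 14733 .leaf)))) 5420612 13128 (.node (.node (.node (.node (.node .leaf 5420644 10762 .leaf) 5420645 10762 (.node .leaf 5420675 14605 .leaf)) 5420868 13256 (.node (.node .leaf 5420900 10762 .leaf) 5420901 10762 .leaf)) 5420915 23116 (.node (.node (.node .leaf 5421124 13384 .leaf) 5421156 10762 (.node .leaf 5421380 13512 .leaf)) 5421412 10762 (.node (.node .leaf 5421413 10762 .leaf) 5444722 14731 .leaf))) 5444723 14603 (.node (.node (.node (.node .leaf 5444724 14731 .leaf) 5444738 14603 (.node .leaf 5444739 14603 .leaf)) 5444740 14731 (.node (.node .leaf 5444741 16910 .leaf) 5444755 16781 .leaf)) 5444757 16910 (.node (.node (.node .leaf 5444979 2635 .leaf) 5444980 10957 (.node .leaf 5444995 2637 .leaf)) 5444996 14862 (.node (.node .leaf 5444997 14862 .leaf) 5445012 2638 .leaf))))))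 5445013 2640 (.node (.node (.node (.node (.node (.node (.node .leaf 5445221 10894 .leaf) 5445237 14863 (.node .leaf 5445253 14863 .leaf)) 5464405 12876 (.node (.node .leaf 5465173 12940 .leaf) 5465204 14731 .leaf)) 5465205 14860 (.node (.node (.node .leaf 5465206 12940 .leaf) 5465221 14860 (.node .leaf 5465222 14989 .leaf)) 5465430 8844 (.node (.node .leaf 5465446 10893 .leaf) 5465460 12876 .leaf))) 5465461 12877 (.node (.node (.node (.node .leaf 5465462 13070 .leaf) 5465463 13070 (.node .leaf 5465478 14990 .leaf)) 5465495 17167 (.node (.node .leaf 5465669 13388 .leaf) 5465670 8844 .leaf)) 5465686 8844 (.node (.node (.node .leaf 5465703 11023 .leaf) 5465717 12877 (.node .leaf 5465718 14991 .leaf)) 5465719 13007 (.node (.node .leaf 5465735 15120 .leaf) 5465736 17297 .leaf)))) 5465908 8844 (.node (.node (.node (.node (.node .leaf 5465925 13388 .leaf) 5465926 8844 (.node .leaf 5465942 8844 .leaf)) 5465944 9103 (.node (.node .leaf 5465974 13007 .leaf) 5465975 13007 .leaf)) 5465992 15250 (.node (.node (.node .leaf 5466164 8844 .leaf) 5466181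 13260 (.node .leaf 5466182 8844 .leaf)) 5466198 8844 (.node (.node .leaf 5468501 14796 .leaf) 5468518 10895 .leaf))) 5468535 13073 (.node (.node (.node (.node .leaf 5468549 14926 .leaf) 5468550 14927 (.node .leaf 5469253 10894 .leaf)) 5469269 12876 (.node (.node .leaf 5469285 12876 .leaf) 5469301 12877 .leaf)) 5469315 14603 (.node (.node (.node .leaf 5469316 14732 .leaf) 5469317 16909 (.node .leaf 5469318 17038 .leaf)) 5469319 17167 (.node (.node .leaf 5469333 16909 .leaf) 5469334 19086 .leaf))))) 5469335 17167 (.node (.node (.node (.node (.node (.node .leaf 5469509 13004 .leaf) 5469525 14796 (.node .leaf 5469541 17102 .leaf)) 5469542 13006 (.node (.node .leaf 5469555 14924 .leaf) 5469556 10957 .leaf)) 5469558 12942 (.node (.node (.node .leaf 5469559 13007 .leaf) 5469572 14925 (.node .leaf 5469573 14926 .leaf)) 5469574 14927 (.node (.node .leaf 5469575 17168 .leaf) 5469590 17039 .leaf))) 5469591 19216 (.node (.node (.node (.node .leaf 5469607 19216 .leaf) 5469781 14796 (.node .leaf 5469782 10894 .leaf)) 5469797 10894 (.node (.node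 .leaf 5469798 10894 .leaf) 5469813 13135 .leaf)) 5469815 13137 (.node (.node (.node .leaf 5469829 14926 .leaf) 5469830 14927 (.node .leaf 5469831 17169 .leaf)) 5469832 15250 (.node (.node .leaf 5469847 17169 .leaf) 5469864 19347 .leaf)))) 5470004 8849 (.node (.node (.node (.node (.node .leaf 5470021 13260 .leaf) 5470037 14796 (.node .leaf 5470038 10894 .leaf)) 5470053 10894 (.node (.node .leaf 5470054 10894 .leaf) 5470086 14927 .leaf)) 5470087 17169 (.node (.node (.node .leaf 5470088 13267 .leaf) 5470104 17428 (.node .leaf 5470277 13388 .leaf)) 5470293 14796 (.node (.node .leaf 5470294 10894 .leaf) 5470310 10894 .leaf))) 5470549 14796 (.node (.node (.node (.node .leaf 5470566 10894 .leaf) 5472613 17102 (.node .leaf 5472614 12495 .leaf)) 5472631 13073 (.node (.node .leaf 5473315 6680 .leaf) 5473332 8852 .leaf)) 5473349 10896 (.node (.node (.node .leaf 5473365 12876 .leaf) 5473381 12876 (.node .leaf 5473382 12942 .leaf)) 5473395 2635 (.node (.node .leaf 5473396 14732 .leaf) 5473410 14603 .leaf)))))))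

def c43 : NatMap := (.node (.node (.node (.node (.node (.node (.node (.node .leaf 5473428 2638 .leaf) 5473429 14926 (.node .leaf 5473430 17039 .leaf)) 5473621 16844 (.node (.node .leaf 5473637 10894 .leaf) 5473638 10894 (.node .leaf 5473651 16972 .leaf))) 5473652 10957 (.node (.node (.node .leaf 5473653 12942 .leaf) 5473654 12942 (.node .leaf 5473667 14862 .leaf)) 5473668 14862 (.node (.node .leaf 5473685 16976 .leaf) 5473686 15056 .leaf))) 5473687 15057 (.node (.node (.node (.node .leaf 5473893 17102 .leaf) 5473908 17102 (.node .leaf 5473909 13135 .leaf)) 5473910 12943 (.node (.node .leaf 5473925 14863 .leaf) 5473927 13137 .leaf)) 5473943 16978 (.node (.node (.node .leaf 5474100 8854 .leaf) 5474117 13260 (.node .leaf 5474133 16844 .leaf)) 5474134 10894 (.node (.node .leaf 5474149 10894 .leaf) 5474150 10894 .leaf)))) 5474165 16975 (.node (.node (.node (.node (.node .leaf 5474166 13264 .leaf) 5474389 16844 (.node .leaf 5474390 10894 .leaf)) 5474405 10894 (.node (.node .leaf 5474406 10894 .leaf) 5474645 16844 .leaf)) 5474661 17102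 (.node (.node (.node .leaf 5476710 12495 .leaf) 5476725 19023 (.node .leaf 5477410 6554 .leaf)) 5477411 6554 (.node (.node .leaf 5477428 8855 .leaf) 5477461 12876 .leaf))) 5477477 12876 (.node (.node (.node (.node .leaf 5477491 2635 .leaf) 5477492 14732 (.node .leaf 5477493 12877 .leaf)) 5477506 14603 (.node (.node .leaf 5477507 14603 .leaf) 5477509 14926 .leaf)) 5477522 16653 (.node (.node (.node .leaf 5477523 16653 .leaf) 5477525 14926 (.node .leaf 5477540 18830 .leaf)) 5477541 21008 (.node (.node .leaf 5477542 21137 .leaf) 5477667 19038 .leaf))))) 5477684 8857 (.node (.node (.node (.node (.node (.node .leaf 5477701 13004 .leaf) 5477717 13005 (.node .leaf 5477718 10894 .leaf)) 5477733 17102 (.node (.node .leaf 5477734 10894 .leaf) 5477746 19019 .leaf)) 5477747 19020 (.node (.node (.node .leaf 5477748 10957 .leaf) 5477750 13007 (.node .leaf 5477762 19021 .leaf)) 5477763 14862 (.node (.node .leaf 5477764 14862 .leaf) 5477766 13007 .leaf))) 5477780 16783 (.node (.node (.node (.node .leaf 5477783 15057 .leaf) 5477797 18960 (.node .leaf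 5477798 21138 .leaf)) 5477799 21267 (.node (.node .leaf 5477800 19347 .leaf) 5477989 19022 .leaf)) 5478004 19150 (.node (.node (.node .leaf 5478005 19023 .leaf) 5478020 14863 (.node .leaf 5478021 14863 .leaf)) 5478245 19022 (.node (.node .leaf 5478260 19150 .leaf) 5478262 13264 .leaf)))) 5478277 19023 (.node (.node (.node (.node (.node .leaf 5478486 10894 .leaf) 5478501 19022 (.node .leaf 5478502 10894 .leaf)) 5478741 17614 (.node (.node .leaf 5478757 19022 .leaf) 5480821 21071 .leaf)) 5481506 6557 (.node (.node (.node .leaf 5481523 19034 .leaf) 5481557 12876 (.node .leaf 5481586 19019 .leaf)) 5481587 14603 (.node (.node .leaf 5481588 14732 .leaf) 5481589 12877 .leaf))) 5481602 14603 (.node (.node (.node (.node .leaf 5481603 14603 .leaf) 5481618 16653 (.node .leaf 5481619 16653 .leaf)) 5481762 21088 (.node (.node .leaf 5481779 21085 .leaf) 5481813 13005 .leaf)) 5481829 17102 (.node (.node (.node .leaf 5481843 21068 .leaf) 5481844 10957 (.node .leaf 5481846 13007 .leaf)) 5481858 21069 (.node (.node .leaf 5481859 14862 .leaf) 5481860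 14862 .leaf)))))) 5481862 13007 (.node (.node (.node (.node (.node (.node (.node .leaf 5481875 21070 .leaf) 5481876 16783 (.node .leaf 5481892 18960 .leaf)) 5481909 21009 (.node (.node .leaf 5482085 21070 .leaf) 5482098 21067 .leaf)) 5482100 21198 (.node (.node (.node .leaf 5482101 21071 .leaf) 5482115 21070 (.node .leaf 5482116 14863 .leaf)) 5482117 14863 (.node (.node .leaf 5482372 14735 .leaf) 5482597 21070 .leaf))) 5482853 21070 (.node (.node (.node (.node .leaf 5484902 12495 .leaf) 5485585 4386 (.node .leaf 5485602 6559 .leaf)) 5485619 19034 (.node (.node .leaf 5485682 19019 .leaf) 5485683 14603 .leaf)) 5485684 14732 (.node (.node (.node .leaf 5485699 14603 .leaf) 5485701 14926 (.node .leaf 5485717 14926 .leaf)) 5485841 4389 (.node (.node .leaf 5485858 6561 .leaf) 5485875 23135 .leaf)))) 5485909 13005 (.node (.node (.node (.node (.node .leaf 5485925 17102 .leaf) 5485926 13006 (.node .leaf 5485939 23116 .leaf)) 5485940 10957 (.node (.node .leaf 5485942 13007 .leaf) 5485955 14862 .leaf)) 5485956 14862 (.node (.node (.node .leaf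 5485958 13007 .leaf) 5485972 16783 (.node .leaf 5486181 23118 .leaf)) 5486194 23115 (.node (.node .leaf 5486196 23246 .leaf) 5486211 23118 .leaf))) 5486213 23119 (.node (.node (.node (.node .leaf 5486437 23118 .leaf) 5486468 14735 (.node .leaf 5486949 23118 .leaf)) 5510516 13005 (.node (.node .leaf 5510531 14733 .leaf) 5510532 14733 .leaf)) 5510533 14862 (.node (.node (.node .leaf 5510548 23248 .leaf) 5510772 2766 (.node .leaf 5510773 15184 .leaf)) 5510788 14992 (.node (.node .leaf 5510789 14992 .leaf) 5510805 2769 .leaf))))) 5529958 13006 (.node (.node (.node (.node (.node (.node .leaf 5530982 11021 .leaf) 5530997 14861 (.node .leaf 5530998 13070 .leaf)) 5530999 13070 (.node (.node .leaf 5531014 14990 .leaf) 5531206 13389 .leaf)) 5531222 8973 (.node (.node (.node .leaf 5531223 8973 .leaf) 5531239 11023 (.node .leaf 5531253 13006 .leaf)) 5531254 13007 (.node (.node .leaf 5531255 15120 .leaf) 5531256 13200 .leaf))) 5531270 15120 (.node (.node (.node (.node .leaf 5531271 15120 .leaf) 5531462 13389 (.node .leaf 5531463 8973 .leaf)) 5531478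 8973 (.node (.node .leaf 5531479 8973 .leaf) 5531494 11023 .leaf)) 5531496 11280 (.node (.node (.node .leaf 5531510 13007 .leaf) 5531511 15121 (.node .leaf 5531526 15121 .leaf)) 5531528 15250 (.node (.node .leaf 5531718 13133 .leaf) 5534054 15184 .leaf)))) 5534071 15057 (.node (.node (.node (.node (.node .leaf 5534086 15056 .leaf) 5535078 13006 (.node .leaf 5535094 13007 .leaf)) 5535095 15120 (.node (.node .leaf 5535108 14733 .leaf) 5535109 14862 .leaf)) 5535110 17039 (.node (.node (.node .leaf 5535111 17168 .leaf) 5535126 17039 (.node .leaf 5535127 19216 .leaf)) 5535143 19216 (.node (.node .leaf 5535318 13135 .leaf) 5535334 14992 .leaf))) 5535335 13072 (.node (.node (.node (.node .leaf 5535348 15054 .leaf) 5535349 13072 (.node .leaf 5535351 13072 .leaf)) 5535365 15055 (.node (.node .leaf 5535366 14992 .leaf) 5535367 15057 .leaf)) 5535368 15250 (.node (.node (.node .leaf 5535383 15057 .leaf) 5535400 19347 (.node .leaf 5535574 13263 .leaf)) 5535590 15184 (.node (.node .leaf 5535591 13073 .leaf) 5535606 13073 .leaf)))))))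

def c44 : NatMap := (.node (.node (.node (.node (.node (.node (.node (.node .leaf 5535623 15057 .leaf) 5535624 13267 (.node .leaf 5535640 17300 .leaf)) 5535830 13391 (.node (.node .leaf 5535846 15184 .leaf) 5535847 13073 (.node .leaf 5536102 15184 .leaf))) 5538150 17104 (.node (.node (.node .leaf 5538167 13074 .leaf) 5539174 13006 (.node .leaf 5539175 13072 .leaf)) 5539188 13005 (.node (.node .leaf 5539189 14862 .leaf) 5539190 13007 .leaf))) 5539203 14733 (.node (.node (.node (.node .leaf 5539204 14733 .leaf) 5539221 16912 (.node .leaf 5539222 15056 .leaf)) 5539223 15057 (.node (.node .leaf 5539444 17102 .leaf) 5539445 15184 .leaf)) 5539446 14992 (.node (.node (.node .leaf 5539447 13137 .leaf) 5539460 14992 (.node .leaf 5539461 14992 .leaf)) 5539463 13137 (.node (.node .leaf 5539464 13138 .leaf) 5539477 17105 .leaf)))) 5539478 17106 (.node (.node (.node (.node (.node .leaf 5539479 17107 .leaf) 5539670 13263 (.node .leaf 5539686 17104 .leaf)) 5539702 13073 (.node (.node .leaf 5539703 13073 .leaf) 5539718 14994 .leaf)) 5539926 13391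 (.node (.node (.node .leaf 5539942 17104 .leaf) 5539958 13073 (.node .leaf 5539959 13073 .leaf)) 5542246 19152 (.node (.node .leaf 5542261 19280 .leaf) 5543203 6685 .leaf))) 5543254 13005 (.node (.node (.node (.node .leaf 5543270 13006 .leaf) 5543284 13005 (.node .leaf 5543286 13007 .leaf)) 5543299 14733 (.node (.node .leaf 5543300 14733 .leaf) 5543302 15056 .leaf)) 5543316 16783 (.node (.node (.node .leaf 5543319 17169 .leaf) 5543333 18960 (.node .leaf 5543334 21138 .leaf)) 5543335 21267 (.node (.node .leaf 5543336 19347 .leaf) 5543540 19150 .leaf))))) 5543541 15184 (.node (.node (.node (.node (.node (.node .leaf 5543543 13137 .leaf) 5543555 19151 (.node .leaf 5543556 14992 .leaf)) 5543557 14864 (.node (.node .leaf 5543572 19152 .leaf) 5543575 15187 .leaf)) 5543589 19154 (.node (.node (.node .leaf 5543590 19155 .leaf) 5543591 19156 (.node .leaf 5543798 19153 .leaf)) 5543813 14865 (.node (.node .leaf 5543814 19153 .leaf) 5544022 13391 .leaf))) 5544038 19152 (.node (.node (.node (.node .leaf 5546357 21328 .leaf) 5547298 6560 (.node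 .leaf 5547379 23245 .leaf)) 5547380 13005 (.node (.node .leaf 5547382 13007 .leaf) 5547395 14733 .leaf)) 5547396 14733 (.node (.node (.node .leaf 5547398 15056 .leaf) 5547411 16783 (.node .leaf 5547412 16783 .leaf)) 5547428 18960 (.node (.node .leaf 5547445 21009 .leaf) 5547636 21198 .leaf)))) 5547637 19280 (.node (.node (.node (.node (.node .leaf 5547651 21199 .leaf) 5547652 14992 (.node .leaf 5547653 14864 .leaf)) 5547655 13137 (.node (.node .leaf 5547668 21200 .leaf) 5547684 21201 .leaf)) 5547891 21197 (.node (.node (.node .leaf 5547908 21200 .leaf) 5547910 21201 (.node .leaf 5550438 23248 .leaf)) 5551377 4389 (.node (.node .leaf 5551394 6561 .leaf) 5551411 21216 .leaf))) 5551475 21197 (.node (.node (.node (.node .leaf 5551476 13005 .leaf) 5551478 13007 (.node .leaf 5551491 14733 .leaf)) 5551492 14733 (.node (.node .leaf 5551494 15056 .leaf) 5551508 16783 .leaf)) 5551731 23245 (.node (.node (.node .leaf 5551732 23246 .leaf) 5551735 13137 (.node .leaf 5551747 23247 .leaf)) 5551748 14864 (.node (.node .leaf 5551749 14864 .leaf) 5551987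 23245 .leaf)))))) 5552004 23248 (.node (.node (.node (.node (.node (.node (.node .leaf 5552006 23249 .leaf) 5576308 17231 (.node .leaf 5576309 13135 .leaf)) 5576324 14864 (.node (.node .leaf 5576325 14864 .leaf) 5576341 17042 .leaf)) 5576565 2897 (.node (.node (.node .leaf 5576581 2898 .leaf) 5596775 11151 (.node .leaf 5596790 14991 .leaf)) 5596791 15120 (.node (.node .leaf 5596792 13200 .leaf) 5596806 14991 .leaf))) 5596807 15120 (.node (.node (.node (.node .leaf 5596808 15249 .leaf) 5597015 9103 (.node .leaf 5597016 9103 .leaf)) 5597046 13136 (.node (.node .leaf 5597047 13137 .leaf) 5597048 13329 .leaf)) 5597064 15250 (.node (.node (.node .leaf 5600871 13136 .leaf) 5600885 13135 (.node .leaf 5600887 13137 .leaf)) 5600901 14863 (.node (.node .leaf 5600902 14993 .leaf) 5600903 17169 .leaf)))) 5600904 15250 (.node (.node (.node (.node (.node .leaf 5600919 17169 .leaf) 5601127 15122 (.node .leaf 5601141 15185 .leaf)) 5601142 13202 (.node (.node .leaf 5601144 13202 .leaf) 5601158 15185 .leaf)) 5601159 15122 (.node (.node (.node .leaf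 5601160 13267 .leaf) 5601176 17300 (.node .leaf 5601383 15314 .leaf)) 5601399 13203 (.node (.node .leaf 5603703 17235 .leaf) 5604980 23375 .leaf))) 5604981 14863 (.node (.node (.node (.node .leaf 5604982 14993 .leaf) 5604996 14863 (.node .leaf 5604997 14863 .leaf)) 5604999 15251 (.node (.node .leaf 5605000 15251 .leaf) 5605014 19090 .leaf)) 5605015 15187 (.node (.node (.node .leaf 5605237 11217 .leaf) 5605238 15314 (.node .leaf 5605239 17235 .leaf)) 5605254 15123 (.node (.node .leaf 5605256 13267 .leaf) 5605495 17235 .leaf))))) 5605511 15124 (.node (.node (.node (.node (.node (.node .leaf 5609076 21327 .leaf) 5609077 14863 (.node .leaf 5609079 13137 .leaf)) 5609091 14863 (.node (.node .leaf 5609092 14863 .leaf) 5609093 14863 .leaf)) 5609111 15187 (.node (.node (.node .leaf 5609125 18962 .leaf) 5609127 21268 (.node .leaf 5609332 19279 .leaf)) 5609333 11217 (.node (.node .leaf 5609334 15314 .leaf) 5609349 19282 .leaf))) 5609350 13267 (.node (.node (.node (.node .leaf 5609366 17044 .leaf) 5613172 19279 (.node .leaf 5613173 13135 .leaf))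 5613187 14863 (.node (.node .leaf 5613188 14863 .leaf) 5613189 14863 .leaf)) 5613191 15187 (.node (.node (.node .leaf 5613220 18962 .leaf) 5613429 11217 (.node .leaf 5613444 21330 .leaf)) 5613445 21330 (.node (.node .leaf 5613446 13267 .leaf) 5617267 14863 .leaf)))) 5617268 19279 (.node (.node (.node (.node (.node .leaf 5617271 13137 .leaf) 5617284 14863 (.node .leaf 5617285 14863 .leaf)) 5617525 11217 (.node (.node .leaf 5617540 23378 .leaf) 5617541 23378 .leaf)) 5617542 13267 (.node (.node (.node .leaf 5642117 14994 .leaf) 5662568 11280 (.node .leaf 5662583 15121 .leaf)) 5662598 15121 (.node (.node .leaf 5662600 15250 .leaf) 5662839 13266 .leaf))) 5666678 13265 (.node (.node (.node (.node .leaf 5666680 13267 .leaf) 5666694 14994 (.node .leaf 5666695 15123 .leaf)) 5666696 17300 (.node (.node .leaf 5666712 17300 .leaf) 5666934 15315 .leaf)) 5666951 15252 (.node (.node (.node .leaf 5670774 13265 .leaf) 5670775 15123 (.node .leaf 5670790 14994 .leaf)) 5670792 15317 (.node (.node .leaf 5671030 17363 .leaf) 5671031 15444 .leaf)))))))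

def c45 : NatMap := (.node (.node (.node (.node (.node (.node (.node (.node .leaf 5674868 14994 .leaf) 5674885 14994 (.node .leaf 5674886 14994 .leaf)) 5674902 17044 (.node (.node .leaf 5678981 14994 .leaf) 5678982 14994 (.node .leaf 5683077 14994 .leaf))) 5683078 14994 (.node (.node (.node .leaf 5732471 13395 .leaf) 5732487 15124 (.node .leaf 5736567 13395 .leaf)) 5736583 15124 (.node (.node .leaf 5736823 11476 .leaf) 5802342 15253 .leaf))) 6361699 2241 (.node (.node (.node (.node .leaf 6361715 18759 .leaf) 6361716 14728 (.node .leaf 6361730 14728 .leaf)) 6361731 14728 (.node (.node .leaf 6361732 14728 .leaf) 6361746 16649 .leaf)) 6361747 16649 (.node (.node (.node .leaf 6361748 16777 .leaf) 6361762 18698 (.node .leaf 6361763 18826 .leaf)) 6361764 18954 (.node (.node .leaf 6361780 20875 .leaf) 6361955 2241 .leaf)))) 6361971 10690 (.node (.node (.node (.node (.node .leaf 6361972 14730 .leaf) 6361986 2377 (.node .leaf 6361987 2377 .leaf)) 6361988 14730 (.node (.node .leaf 6362002 2378 .leaf) 6362003 2378 .leaf)) 6362004 2378 (.node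 (.node (.node .leaf 6362018 2379 .leaf) 6362019 2379 (.node .leaf 6362020 2379 .leaf)) 6362036 2380 (.node (.node .leaf 6362227 10818 .leaf) 6362228 12675 .leaf))) 6362243 2377 (.node (.node (.node (.node .leaf 6362244 2378 .leaf) 6362259 2378 (.node .leaf 6362451 15042 .leaf)) 6362452 12675 (.node (.node .leaf 6362468 12675 .leaf) 6362483 10946 .leaf)) 6362484 12675 (.node (.node (.node .leaf 6362515 2378 .leaf) 6362707 15170 (.node .leaf 6362708 12675 .leaf)) 6362724 12675 (.node (.node .leaf 6362739 11074 .leaf) 6362740 12675 .leaf))))) 6370899 15170 (.node (.node (.node (.node (.node (.node .leaf 6374243 8385 .leaf) 6374499 8385 (.node .leaf 6374740 12675 .leaf)) 6374755 8385 (.node (.node .leaf 6375011 8385 .leaf) 6375267 8385 .leaf)) 6375523 8385 (.node (.node (.node .leaf 6375779 8385 .leaf) 6378083 11075 (.node .leaf 6378611 10946 .leaf)) 6378627 14722 (.node (.node .leaf 6378852 14722 .leaf) 6378867 10690 .leaf))) 6379091 15170 (.node (.node (.node (.node .leaf 6379092 12675 .leaf) 6382691 14915 (.node .leaf 6382948 12675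 .leaf)) 6383204 12675 (.node (.node .leaf 6383205 15179 .leaf) 6386227 15311 .leaf)) 6386259 15170 (.node (.node (.node .leaf 6386260 12679 .leaf) 6386275 15043 (.node .leaf 6386292 12679 .leaf)) 6386306 14727 (.node (.node .leaf 6386307 14727 .leaf) 6386308 14727 .leaf)))) 6386309 22859 (.node (.node (.node (.node (.node .leaf 6386310 20813 .leaf) 6386323 16648 (.node .leaf 6386324 16777 .leaf)) 6386325 22859 (.node (.node .leaf 6386326 20813 .leaf) 6386484 15311 .leaf)) 6386500 10626 (.node (.node (.node .leaf 6386515 15426 .leaf) 6386516 10626 (.node .leaf 6386517 10762 .leaf)) 6386532 10626 (.node (.node .leaf 6386533 10762 .leaf) 6386562 14664 .leaf))) 6386563 14665 (.node (.node (.node (.node .leaf 6386564 16779 .leaf) 6386565 16908 (.node .leaf 6386756 10626 .leaf)) 6386757 8714 (.node (.node .leaf 6386771 15170 .leaf) 6386772 10626 .leaf)) 6386773 8714 (.node (.node (.node .leaf 6386788 10626 .leaf) 6386789 10762 (.node .leaf 6386805 12939 .leaf)) 6386820 14796 (.node (.node .leaf 6386821 14988 .leaf) 6386822 14988 .leaf))))))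 6386837 16909 (.node (.node (.node (.node (.node (.node (.node .leaf 6386838 17038 .leaf) 6387012 10626 (.node .leaf 6387013 8714 .leaf)) 6387027 14786 (.node (.node .leaf 6387028 10626 .leaf) 6387029 8714 .leaf)) 6387046 10891 (.node (.node (.node .leaf 6387063 13071 .leaf) 6387076 14796 (.node .leaf 6387077 14797 .leaf)) 6387078 14927 (.node (.node .leaf 6387092 16780 .leaf) 6387094 17039 .leaf))) 6387095 17168 (.node (.node (.node (.node .leaf 6387111 19216 .leaf) 6387283 15554 (.node .leaf 6387284 10626 .leaf)) 6387285 10762 (.node (.node .leaf 6387300 10626 .leaf) 6387302 10891 .leaf)) 6387315 11074 (.node (.node (.node .leaf 6387316 12675 .leaf) 6387319 13071 (.node .leaf 6387334 14990 .leaf)) 6387336 15248 (.node (.node .leaf 6387351 17168 .leaf) 6387508 8714 .leaf)))) 6387524 10626 (.node (.node (.node (.node (.node .leaf 6387525 8714 .leaf) 6387539 15554 (.node .leaf 6387540 10626 .leaf)) 6387542 8843 (.node (.node .leaf 6387556 10626 .leaf) 6387571 11202 .leaf)) 6387572 12675 (.node (.node (.node .leaf 6387590 14990 .leaf)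 6387591 17168 (.node .leaf 6387780 10626 .leaf)) 6387781 8714 (.node (.node .leaf 6387795 15170 .leaf) 6387796 10626 .leaf))) 6387797 8714 (.node (.node (.node (.node .leaf 6387814 10891 .leaf) 6388036 10626 (.node .leaf 6388051 15426 .leaf)) 6388052 10626 (.node (.node .leaf 6390306 6549 .leaf) 6390322 8593 .leaf)) 6390339 10636 (.node (.node (.node .leaf 6390355 12679 .leaf) 6390356 12679 (.node .leaf 6390357 12809 .leaf)) 6390371 16577 (.node (.node .leaf 6390372 12679 .leaf) 6390373 12809 .leaf))))) 6390387 12679 (.node (.node (.node (.node (.node (.node .leaf 6390388 12679 .leaf) 6390389 12809 (.node .leaf 6390401 18760 .leaf)) 6390403 14727 (.node (.node .leaf 6390404 14727 .leaf) 6390405 16905 .leaf)) 6390418 16520 (.node (.node (.node .leaf 6390419 18697 .leaf) 6390420 18825 (.node .leaf 6390421 16905 .leaf)) 6390436 18825 (.node (.node .leaf 6390563 6680 .leaf) 6390579 17620 .leaf))) 6390580 14803 (.node (.node (.node (.node .leaf 6390596 14799 .leaf) 6390611 14786 (.node .leaf 6390612 12679 .leaf)) 6390613 12811 (.node (.node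 .leaf 6390627 16577 .leaf) 6390628 12679 .leaf)) 6390629 12811 (.node (.node (.node .leaf 6390630 12941 .leaf) 6390643 12679 (.node .leaf 6390644 12679 .leaf)) 6390645 12811 (.node (.node .leaf 6390646 12941 .leaf) 6390657 16712 .leaf)))) 6390658 20939 (.node (.node (.node (.node (.node .leaf 6390660 16713 .leaf) 6390662 14989 (.node .leaf 6390674 16713 .leaf)) 6390675 16713 (.node (.node .leaf 6390676 16713 .leaf) 6390677 16717 .leaf)) 6390678 19086 (.node (.node (.node .leaf 6390692 16715 .leaf) 6390836 14931 (.node .leaf 6390852 14922 .leaf)) 6390853 14923 (.node (.node .leaf 6390867 14914 .leaf) 6390868 12675 .leaf))) 6390869 14923 (.node (.node (.node (.node .leaf 6390883 16577 .leaf) 6390884 12675 (.node .leaf 6390885 14923 .leaf)) 6390899 10818 (.node (.node .leaf 6390900 12675 .leaf) 6390915 14732 .leaf)) 6390917 14860 (.node (.node (.node .leaf 6390932 16713 .leaf) 6390933 16717 (.node .leaf 6390934 17038 .leaf)) 6391107 15050 (.node (.node .leaf 6391109 10763 .leaf) 6391123 15042 .leaf)))))))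

def c46 : NatMap := (.node (.node (.node (.node (.node (.node (.node (.node .leaf 6391125 10763 .leaf) 6391139 16577 (.node .leaf 6391140 12675 .leaf)) 6391141 10763 (.node (.node .leaf 6391142 10892 .leaf) 6391155 10946 (.node .leaf 6391156 12675 .leaf))) 6391157 12811 (.node (.node (.node .leaf 6391158 12940 .leaf) 6391159 15056 (.node .leaf 6391174 14989 .leaf)) 6391188 16713 (.node (.node .leaf 6391189 16717 .leaf) 6391190 16719 .leaf))) 6391191 15057 (.node (.node (.node (.node .leaf 6391379 15170 .leaf) 6391380 12675 (.node .leaf 6391395 16577 .leaf)) 6391396 12675 (.node (.node .leaf 6391397 15179 .leaf) 6391413 12811 .leaf)) 6391414 12940 (.node (.node (.node .leaf 6391415 15184 .leaf) 6391431 15120 (.node .leaf 6391604 15311 .leaf)) 6391621 15307 (.node (.node .leaf 6391635 15298 .leaf) 6391636 12675 .leaf)))) 6391651 16577 (.node (.node (.node (.node (.node .leaf 6391652 12675 .leaf) 6391653 12811 (.node .leaf 6391669 12811 .leaf)) 6391876 15434 (.node (.node .leaf 6391877 15435 .leaf) 6391891 15426 .leaf)) 6391892 12675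 (.node (.node (.node .leaf 6391893 15435 .leaf) 6391894 10892 (.node .leaf 6391907 16577 .leaf)) 6391908 12675 (.node (.node .leaf 6391909 12811 .leaf) 6391910 10892 .leaf))) 6391926 12940 (.node (.node (.node (.node .leaf 6392115 15567 .leaf) 6392131 15562 (.node .leaf 6392132 15562 .leaf)) 6392147 15554 (.node (.node .leaf 6392148 12675 .leaf) 6392149 10763 .leaf)) 6392163 16577 (.node (.node (.node .leaf 6392164 12675 .leaf) 6394402 6424 (.node .leaf 6394418 8468 .leaf)) 6394419 8468 (.node (.node .leaf 6394435 10638 .leaf) 6394451 12681 .leaf))))) 6394467 18625 (.node (.node (.node (.node (.node (.node .leaf 6394468 14727 .leaf) 6394469 12809 (.node .leaf 6394470 12939 .leaf)) 6394483 16711 (.node (.node .leaf 6394484 14727 .leaf) 6394485 12809 .leaf)) 6394497 16712 (.node (.node (.node .leaf 6394499 14727 .leaf) 6394500 14727 (.node .leaf 6394501 16905 .leaf)) 6394513 16520 (.node (.node .leaf 6394516 16777 .leaf) 6394517 16905 .leaf))) 6394530 18825 (.node (.node (.node (.node .leaf 6394531 18825 .leaf) 6394532 18825 (.node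 .leaf 6394533 18953 .leaf)) 6394534 19083 (.node (.node .leaf 6394658 6554 .leaf) 6394674 8599 .leaf)) 6394675 8599 (.node (.node (.node .leaf 6394691 10771 .leaf) 6394692 14799 (.node .leaf 6394707 14786 .leaf)) 6394708 12679 (.node (.node .leaf 6394724 12679 .leaf) 6394726 14990 .leaf)))) 6394739 12679 (.node (.node (.node (.node (.node .leaf 6394740 12679 .leaf) 6394741 18763 (.node .leaf 6394753 18760 .leaf)) 6394754 20939 (.node (.node .leaf 6394756 18761 .leaf) 6394757 18763 .leaf)) 6394758 14990 (.node (.node (.node .leaf 6394769 18762 .leaf) 6394770 16523 (.node .leaf 6394773 18763 .leaf)) 6394786 18762 (.node (.node .leaf 6394787 18763 .leaf) 6394788 18763 .leaf))) 6394789 18763 (.node (.node (.node (.node .leaf 6394790 18767 .leaf) 6394932 14931 (.node .leaf 6394948 14922 .leaf)) 6394949 14923 (.node (.node .leaf 6394963 14914 .leaf) 6394964 12675 .leaf)) 6394965 14923 (.node (.node (.node .leaf 6394980 12675 .leaf) 6394995 10818 (.node .leaf 6394996 12675 .leaf)) 6395010 18891 (.node (.node .leaf 6395011 18761 .leaf) 6395026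 16524 .leaf)))))) 6395027 16653 (.node (.node (.node (.node (.node (.node (.node .leaf 6395044 18763 .leaf) 6395045 18763 (.node .leaf 6395219 15042 .leaf)) 6395220 12675 (.node (.node .leaf 6395236 12675 .leaf) 6395237 12811 .leaf)) 6395251 10946 (.node (.node (.node .leaf 6395252 12675 .leaf) 6395253 12811 (.node .leaf 6395254 12941 .leaf)) 6395266 18891 (.node (.node .leaf 6395267 18761 .leaf) 6395270 14989 .leaf))) 6395282 16524 (.node (.node (.node (.node .leaf 6395301 18763 .leaf) 6395302 18767 (.node .leaf 6395475 15170 .leaf)) 6395476 12675 (.node (.node .leaf 6395492 12675 .leaf) 6395507 11074 .leaf)) 6395508 12675 (.node (.node (.node .leaf 6395509 18763 .leaf) 6395526 14989 (.node .leaf 6395557 18763 .leaf)) 6395731 15298 (.node (.node .leaf 6395732 12675 .leaf) 6395748 12675 .leaf)))) 6395763 11202 (.node (.node (.node (.node (.node .leaf 6395764 12675 .leaf) 6395987 15426 (.node .leaf 6395988 12675 .leaf)) 6396004 12675 (.node (.node .leaf 6396005 12811 .leaf) 6396006 12941 .leaf)) 6396019 11330 (.node (.node (.node .leaf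 6396020 12675 .leaf) 6396211 15567 (.node .leaf 6396227 15562 .leaf)) 6396228 15562 (.node (.node .leaf 6396243 15554 .leaf) 6396244 12675 .leaf))) 6396260 12675 (.node (.node (.node (.node .leaf 6396275 11458 .leaf) 6396276 12675 (.node .leaf 6398515 16725 .leaf)) 6398531 10640 (.node (.node .leaf 6398547 12683 .leaf) 6398563 20673 .leaf)) 6398566 14987 (.node (.node (.node .leaf 6398579 18759 .leaf) 6398580 14727 (.node .leaf 6398581 14857 .leaf)) 6398593 16712 (.node (.node .leaf 6398595 14727 .leaf) 6398596 14727 .leaf))))) 6398597 16905 (.node (.node (.node (.node (.node (.node .leaf 6398598 14987 .leaf) 6398609 16520 (.node .leaf 6398611 16905 .leaf)) 6398612 16777 (.node (.node .leaf 6398613 16905 .leaf) 6398615 17165 .leaf)) 6398625 18570 (.node (.node (.node .leaf 6398627 18953 .leaf) 6398628 18825 (.node .leaf 6398629 18953 .leaf)) 6398642 20618 (.node (.node .leaf 6398643 22795 .leaf) 6398644 21003 .leaf))) 6398645 21003 (.node (.node (.node (.node .leaf 6398770 8601 .leaf) 6398787 10645 (.node .leaf 6398803 14786 .leaf))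 6398804 12679 (.node (.node .leaf 6398820 12679 .leaf) 6398835 12679 .leaf)) 6398836 12679 (.node (.node (.node .leaf 6398837 20811 .leaf) 6398849 20808 (.node .leaf 6398850 18891 .leaf)) 6398852 20809 (.node (.node .leaf 6398853 20811 .leaf) 6398854 20813 .leaf)))) 6398865 20810 (.node (.node (.node (.node (.node .leaf 6398866 16523 .leaf) 6398868 20809 (.node .leaf 6398869 20811 .leaf)) 6398881 20810 (.node (.node .leaf 6398884 20811 .leaf) 6398886 20813 .leaf)) 6398898 20811 (.node (.node (.node .leaf 6398899 20811 .leaf) 6398900 20811 (.node .leaf 6398901 20811 .leaf)) 6399027 20826 (.node (.node .leaf 6399044 14922 .leaf) 6399059 14914 .leaf))) 6399060 12675 (.node (.node (.node (.node .leaf 6399061 14923 .leaf) 6399076 12675 (.node .leaf 6399091 10818 .leaf)) 6399092 12675 (.node (.node .leaf 6399106 20939 .leaf) 6399107 20809 .leaf)) 6399122 16524 (.node (.node (.node .leaf 6399123 20809 .leaf) 6399315 15042 (.node .leaf 6399316 12675 .leaf)) 6399332 12675 (.node (.node .leaf 6399347 10946 .leaf) 6399348 12675 .leaf)))))))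

def c47 : NatMap := (.node (.node (.node (.node (.node (.node (.node (.node .leaf 6399362 20939 .leaf) 6399378 16524 (.node .leaf 6399379 20809 .leaf)) 6399380 20809 (.node (.node .leaf 6399571 15170 .leaf) 6399572 12675 .leaf)) 6399588 12675 (.node (.node (.node .leaf 6399603 11074 .leaf) 6399604 12675 (.node .leaf 6399605 20811 .leaf)) 6399827 15298 (.node (.node .leaf 6399828 12675 .leaf) 6399844 12675 .leaf))) 6399859 11202 (.node (.node (.node (.node .leaf 6399860 12675 .leaf) 6400083 15426 (.node .leaf 6400084 12675 .leaf)) 6400100 12675 (.node (.node .leaf 6400115 11330 .leaf) 6400116 12675 .leaf)) 6400117 20811 (.node (.node (.node .leaf 6400339 15554 .leaf) 6400340 12675 (.node .leaf 6400356 12675 .leaf)) 6400371 11458 (.node (.node .leaf 6400372 12675 .leaf) 6402594 6555 .leaf)))) 6402611 16725 (.node (.node (.node (.node (.node .leaf 6402643 16716 .leaf) 6402659 22721 (.node .leaf 6402675 18759 .leaf)) 6402676 14727 (.node (.node .leaf 6402691 14727 .leaf) 6402692 14727 .leaf)) 6402693 16905 (.node (.node (.node .leaf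 6402694 17035 .leaf) 6402705 16520 (.node .leaf 6402708 16905 .leaf)) 6402709 16905 (.node (.node .leaf 6402710 19083 .leaf) 6402850 6559 .leaf))) 6402867 18906 (.node (.node (.node (.node .leaf 6402884 14799 .leaf) 6402899 14786 (.node .leaf 6402916 12679 .leaf)) 6402931 12679 (.node (.node .leaf 6402932 12679 .leaf) 6402948 22857 .leaf)) 6402949 22859 (.node (.node (.node .leaf 6402964 22857 .leaf) 6402965 22859 (.node .leaf 6403106 22880 .leaf)) 6403123 22875 (.node (.node .leaf 6403140 14922 .leaf) 6403155 14914 .leaf))))) 6403156 12675 (.node (.node (.node (.node (.node (.node .leaf 6403157 14923 .leaf) 6403172 12675 (.node .leaf 6403187 10818 .leaf)) 6403188 12675 (.node (.node .leaf 6403203 22857 .leaf) 6403411 15042 .leaf)) 6403412 12675 (.node (.node (.node .leaf 6403428 12675 .leaf) 6403443 10946 (.node .leaf 6403444 12675 .leaf)) 6403667 15170 (.node (.node .leaf 6403668 12675 .leaf) 6403684 12675 .leaf))) 6403699 11074 (.node (.node (.node (.node .leaf 6403700 12675 .leaf) 6403923 15298 (.node .leaf 6403924 12675 .leaf))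 6403940 12675 (.node (.node .leaf 6403955 11202 .leaf) 6403956 12675 .leaf)) 6404179 15426 (.node (.node (.node .leaf 6404180 12675 .leaf) 6404196 12675 (.node .leaf 6404211 11330 .leaf)) 6404212 12675 (.node (.node .leaf 6404435 15554 .leaf) 6404436 12675 .leaf)))) 6404452 12675 (.node (.node (.node (.node (.node .leaf 6404467 11458 .leaf) 6404468 12675 (.node .leaf 6427508 18891 .leaf)) 6427522 14794 (.node (.node .leaf 6427524 16779 .leaf) 6427538 16651 .leaf)) 6427539 16651 (.node (.node (.node .leaf 6427540 16779 .leaf) 6427554 18700 (.node .leaf 6427555 18700 .leaf)) 6427556 20877 (.node (.node .leaf 6427572 21005 .leaf) 6427778 2507 .leaf))) 6427779 2507 (.node (.node (.node (.node .leaf 6427780 16781 .leaf) 6427781 14861 (.node .leaf 6427794 2508 .leaf)) 6427795 16781 (.node (.node .leaf 6427796 16781 .leaf) 6427797 14926 .leaf)) 6427811 2509 (.node (.node (.node .leaf 6427988 15049 .leaf) 6428004 2891 (.node .leaf 6428020 12811 .leaf)) 6428036 2509 (.node (.node .leaf 6428051 2509 .leaf) 6428052 2509 .leaf)))))) 6428244 15177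 (.node (.node (.node (.node (.node (.node (.node .leaf 6428245 12811 .leaf) 6428261 12811 (.node .leaf 6428276 12811 .leaf)) 6428277 12811 (.node (.node .leaf 6440276 15049 .leaf) 6444404 12811 .leaf)) 6444628 15177 (.node (.node (.node .leaf 6448484 21195 .leaf) 6448741 12811 (.node .leaf 6451540 15305 .leaf)) 6451541 14926 (.node (.node .leaf 6451558 15439 .leaf) 6451575 15057 .leaf))) 6451589 14926 (.node (.node (.node (.node .leaf 6451590 14927 .leaf) 6452020 15314 (.node .leaf 6452036 15310 .leaf)) 6452052 14921 (.node (.node .leaf 6452053 12811 .leaf) 6452069 12811 .leaf)) 6452099 16650 (.node (.node (.node .leaf 6452100 16779 .leaf) 6452101 16908 (.node .leaf 6452276 15314 .leaf)) 6452292 10761 (.node (.node .leaf 6452293 10761 .leaf) 6452308 15049 .leaf)))) 6452309 10761 (.node (.node (.node (.node (.node .leaf 6452324 10761 .leaf) 6452325 10761 (.node .leaf 6452341 12811 .leaf)) 6452355 14795 (.node (.node .leaf 6452356 14796 .leaf) 6452357 16909 .leaf)) 6452358 17038 (.node (.node (.node .leaf 6452373 16909 .leaf) 6452547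 10761 (.node .leaf 6452548 10761 .leaf)) 6452564 15433 (.node (.node .leaf 6452565 10761 .leaf) 6452581 10761 .leaf))) 6452582 10894 (.node (.node (.node (.node .leaf 6452598 13071 .leaf) 6452599 13071 (.node .leaf 6452611 14795 .leaf)) 6452613 14926 (.node (.node .leaf 6452614 14927 .leaf) 6452628 16910 .leaf)) 6452630 17039 (.node (.node (.node .leaf 6452631 19216 .leaf) 6452647 19216 (.node .leaf 6452820 15049 .leaf)) 6452821 10761 (.node (.node .leaf 6452836 10761 .leaf) 6452837 10761 .leaf))))) 6452838 10894 (.node (.node (.node (.node (.node (.node .leaf 6452852 12811 .leaf) 6452853 12811 (.node .leaf 6452855 13071 .leaf)) 6452869 14926 (.node (.node .leaf 6452870 14927 .leaf) 6452872 19346 .leaf)) 6452887 17169 (.node (.node (.node .leaf 6452904 19346 .leaf) 6453043 8718 (.node .leaf 6453044 8718 .leaf)) 6453060 10761 (.node (.node .leaf 6453061 10761 .leaf) 6453076 15561 .leaf))) 6453077 10761 (.node (.node (.node (.node .leaf 6453092 10761 .leaf) 6453108 12811 (.node .leaf 6453109 12811 .leaf)) 6453126 14927 (.node (.node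 .leaf 6453127 17169 .leaf) 6453128 17298 .leaf)) 6453316 10761 (.node (.node (.node .leaf 6453317 10761 .leaf) 6453332 15561 (.node .leaf 6453333 10761 .leaf)) 6453350 10894 (.node (.node .leaf 6453555 8718 .leaf) 6453571 10761 .leaf)))) 6453572 10761 (.node (.node (.node (.node (.node .leaf 6453588 15433 .leaf) 6453589 10761 (.node .leaf 6455653 12811 .leaf)) 6455654 17104 (.node (.node .leaf 6455671 13073 .leaf) 6456099 6680 .leaf)) 6456115 8724 (.node (.node (.node .leaf 6456116 8724 .leaf) 6456132 10768 (.node .leaf 6456148 12811 .leaf)) 6456149 12811 (.node (.node .leaf 6456164 16713 .leaf) 6456165 12811 .leaf))) 6456166 12941 (.node (.node (.node (.node .leaf 6456180 12811 .leaf) 6456181 12811 (.node .leaf 6456182 12941 .leaf)) 6456196 14796 (.node (.node .leaf 6456198 14989 .leaf) 6456210 16522 .leaf)) 6456211 16652 (.node (.node (.node .leaf 6456212 18828 .leaf) 6456213 16909 (.node .leaf 6456214 19086 .leaf)) 6456228 18828 (.node (.node .leaf 6456372 17367 .leaf) 6456388 17619 .leaf)))))))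

def c48 : NatMap := (.node (.node (.node (.node (.node (.node (.node (.node .leaf 6456404 14921 .leaf) 6456405 12811 (.node .leaf 6456420 16713 .leaf)) 6456421 12811 (.node (.node .leaf 6456436 12811 .leaf) 6456437 12811 (.node .leaf 6456450 16844 .leaf))) 6456451 10829 (.node (.node (.node .leaf 6456453 14861 .leaf) 6456467 16844 (.node .leaf 6456468 16781 .leaf)) 6456469 14926 (.node (.node .leaf 6456470 14927 .leaf) 6456471 19217 .leaf))) 6456643 10767 (.node (.node (.node (.node .leaf 6456645 15054 .leaf) 6456660 15049 (.node .leaf 6456661 12811 .leaf)) 6456662 10895 (.node (.node .leaf 6456676 16713 .leaf) 6456677 12811 .leaf)) 6456678 10895 (.node (.node (.node .leaf 6456692 12811 .leaf) 6456693 12811 (.node .leaf 6456694 12943 .leaf)) 6456695 13072 (.node (.node .leaf 6456708 14862 .leaf) 6456710 15056 .leaf)))) 6456724 16846 (.node (.node (.node (.node (.node .leaf 6456725 16846 .leaf) 6456726 15056 (.node .leaf 6456727 15057 .leaf)) 6456742 19089 (.node (.node .leaf 6456743 15057 .leaf) 6456916 15177 .leaf)) 6456932 16713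 (.node (.node (.node .leaf 6456933 12811 .leaf) 6456934 15183 (.node .leaf 6456948 12811 .leaf)) 6456949 12811 (.node (.node .leaf 6456950 12943 .leaf) 6456951 15120 .leaf))) 6456967 15120 (.node (.node (.node (.node .leaf 6456968 15187 .leaf) 6456983 15186 (.node .leaf 6457140 15314 .leaf)) 6457157 15310 (.node (.node .leaf 6457172 15305 .leaf) 6457173 12811 .leaf)) 6457174 15311 (.node (.node (.node .leaf 6457188 16713 .leaf) 6457189 12811 (.node .leaf 6457205 12811 .leaf)) 6457412 15438 (.node (.node .leaf 6457413 15438 .leaf) 6457428 15433 .leaf))))) 6457429 12811 (.node (.node (.node (.node (.node (.node .leaf 6457430 10895 .leaf) 6457444 16713 (.node .leaf 6457445 12811 .leaf)) 6457446 10895 (.node (.node .leaf 6457462 12943 .leaf) 6457651 8723 .leaf)) 6457667 10767 (.node (.node (.node .leaf 6457668 15566 .leaf) 6457684 15561 (.node .leaf 6457685 12811 .leaf)) 6457700 16713 (.node (.node .leaf 6457701 12811 .leaf) 6457717 12811 .leaf))) 6459750 18896 (.node (.node (.node (.node .leaf 6459764 18891 .leaf) 6459765 12813 (.node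 .leaf 6459767 13075 .leaf)) 6460194 6554 (.node (.node .leaf 6460210 8599 .leaf) 6460211 8599 .leaf)) 6460227 10771 (.node (.node (.node .leaf 6460228 10771 .leaf) 6460244 12814 (.node .leaf 6460260 18761 .leaf)) 6460261 14859 (.node (.node .leaf 6460262 14990 .leaf) 6460276 20940 .leaf)))) 6460277 14859 (.node (.node (.node (.node (.node .leaf 6460289 20938 .leaf) 6460290 14794 (.node .leaf 6460292 14859 .leaf)) 6460293 14859 (.node (.node .leaf 6460294 14990 .leaf) 6460305 16522 .leaf)) 6460306 16522 (.node (.node (.node .leaf 6460309 16846 .leaf) 6460323 20748 (.node .leaf 6460324 2509 .leaf)) 6460325 21006 (.node (.node .leaf 6460326 19087 .leaf) 6460451 6685 .leaf))) 6460467 8729 (.node (.node (.node (.node .leaf 6460468 8729 .leaf) 6460484 10902 (.node .leaf 6460485 14930 .leaf)) 6460500 14921 (.node (.node .leaf 6460501 12811 .leaf) 6460516 18761 .leaf)) 6460517 12811 (.node (.node (.node .leaf 6460532 18891 .leaf) 6460533 12811 (.node .leaf 6460545 18890 .leaf)) 6460546 18892 (.node (.node .leaf 6460547 10829 .leaf) 6460549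 14861 .leaf)))))) 6460562 16781 (.node (.node (.node (.node (.node (.node (.node .leaf 6460563 16653 .leaf) 6460580 18894 (.node .leaf 6460581 21008 .leaf)) 6460582 18896 (.node (.node .leaf 6460741 15054 .leaf) 6460756 15049 .leaf)) 6460757 12811 (.node (.node (.node .leaf 6460772 18761 .leaf) 6460773 12811 (.node .leaf 6460788 12811 .leaf)) 6460789 12811 (.node (.node .leaf 6460790 12943 .leaf) 6460801 18890 .leaf))) 6460803 19021 (.node (.node (.node (.node .leaf 6460804 18894 .leaf) 6460805 14862 (.node .leaf 6460806 15056 .leaf)) 6460818 18893 (.node (.node .leaf 6460819 16654 .leaf) 6460820 16783 .leaf)) 6460823 15057 (.node (.node (.node .leaf 6460837 18896 .leaf) 6460838 18896 (.node .leaf 6460839 15057 .leaf)) 6461012 15177 (.node (.node .leaf 6461028 18761 .leaf) 6461029 12811 .leaf)))) 6461044 12811 (.node (.node (.node (.node (.node .leaf 6461045 12811 .leaf) 6461060 18894 (.node .leaf 6461061 18894 .leaf)) 6461062 14992 (.node (.node .leaf 6461093 18896 .leaf) 6461094 18896 .leaf)) 6461268 15305 (.node (.node (.node .leaf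 6461285 12811 .leaf) 6461300 18891 (.node .leaf 6461301 12811 .leaf)) 6461509 15438 (.node (.node .leaf 6461524 15433 .leaf) 6461525 12811 .leaf))) 6461540 18761 (.node (.node (.node (.node .leaf 6461541 12811 .leaf) 6461542 15439 (.node .leaf 6461556 12811 .leaf)) 6461557 12811 (.node (.node .leaf 6461747 8728 .leaf) 6461763 10773 .leaf)) 6461764 15566 (.node (.node (.node .leaf 6461780 15561 .leaf) 6461781 12811 (.node .leaf 6461796 18761 .leaf)) 6461797 12811 (.node (.node .leaf 6461812 12811 .leaf) 6461813 12811 .leaf))))) 6463860 20940 (.node (.node (.node (.node (.node (.node .leaf 6463861 20942 .leaf) 6463878 20944 (.node .leaf 6464306 8601 .leaf)) 6464323 10773 (.node (.node .leaf 6464356 21067 .leaf) 6464372 18891 .leaf)) 6464373 14860 (.node (.node (.node .leaf 6464385 18890 .leaf) 6464386 14794 (.node .leaf 6464388 14860 .leaf)) 6464389 14860 (.node (.node .leaf 6464390 14990 .leaf) 6464401 16522 .leaf))) 6464402 16522 (.node (.node (.node (.node .leaf 6464404 2509 .leaf) 6464405 16910 (.node .leaf 6464420 2509 .leaf))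 6464422 19086 (.node (.node .leaf 6464434 20620 .leaf) 6464436 22926 .leaf)) 6464437 23055 (.node (.node (.node .leaf 6464546 6559 .leaf) 6464563 8732 (.node .leaf 6464580 10904 .leaf)) 6464596 14921 (.node (.node .leaf 6464597 12811 .leaf) 6464612 21579 .leaf)))) 6464613 12811 (.node (.node (.node (.node (.node .leaf 6464628 12811 .leaf) 6464629 12811 (.node .leaf 6464641 20938 .leaf)) 6464642 20940 (.node (.node .leaf 6464643 19021 .leaf) 6464645 14861 .leaf)) 6464658 16781 (.node (.node (.node .leaf 6464659 16781 .leaf) 6464675 18702 (.node .leaf 6464852 15049 .leaf)) 6464853 12811 (.node (.node .leaf 6464868 23243 .leaf) 6464869 12811 .leaf))) 6464870 15055 (.node (.node (.node (.node .leaf 6464884 12811 .leaf) 6464885 12811 (.node .leaf 6464897 20938 .leaf)) 6464899 21069 (.node (.node .leaf 6464900 20942 .leaf) 6464914 20941 .leaf)) 6464915 16654 (.node (.node (.node .leaf 6464916 20942 .leaf) 6464932 18832 (.node .leaf 6464949 20944 .leaf)) 6465108 15177 (.node (.node .leaf 6465124 21195 .leaf) 6465125 12811 .leaf)))))))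

def c49 : NatMap := (.node (.node (.node (.node (.node (.node (.node (.node .leaf 6465141 12811 .leaf) 6465155 21069 (.node .leaf 6465156 20942 .leaf)) 6465157 20942 (.node (.node .leaf 6465172 20942 .leaf) 6465364 15305 (.node .leaf 6465396 12811 .leaf))) 6465620 15433 (.node (.node (.node .leaf 6465621 12811 .leaf) 6465637 12811 (.node .leaf 6465652 12811 .leaf)) 6465653 12811 (.node (.node .leaf 6465876 15561 .leaf) 6465893 12811 .leaf))) 6465908 12811 (.node (.node (.node (.node .leaf 6465909 12811 .leaf) 6467973 22990 (.node .leaf 6468386 6559 .leaf)) 6468403 18906 (.node (.node .leaf 6468420 16852 .leaf) 6468452 14795 .leaf)) 6468468 18891 (.node (.node (.node .leaf 6468484 14796 .leaf) 6468485 14861 (.node .leaf 6468500 2509 .leaf)) 6468501 17038 (.node (.node .leaf 6468642 6561 .leaf) 6468659 8734 .leaf)))) 6468676 19033 (.node (.node (.node (.node (.node .leaf 6468692 14921 .leaf) 6468693 12811 (.node .leaf 6468709 12811 .leaf)) 6468724 12811 (.node (.node .leaf 6468739 21069 .leaf) 6468741 14861 .leaf)) 6468757 14926 (.node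 (.node (.node .leaf 6468898 23010 .leaf) 6468915 23007 (.node .leaf 6468932 15054 .leaf)) 6468948 15049 (.node (.node .leaf 6468949 12811 .leaf) 6468964 19147 .leaf))) 6468965 12811 (.node (.node (.node (.node .leaf 6468966 15055 .leaf) 6468980 12811 (.node .leaf 6468981 12811 .leaf)) 6468995 23117 (.node (.node .leaf 6468996 22990 .leaf) 6468997 22990 .leaf)) 6469204 15177 (.node (.node (.node .leaf 6469221 12811 .leaf) 6469236 12811 (.node .leaf 6469237 12811 .leaf)) 6469251 23117 (.node (.node .leaf 6469253 22990 .leaf) 6469268 22990 .leaf))))) 6469460 15305 (.node (.node (.node (.node (.node (.node .leaf 6469477 12811 .leaf) 6469492 12811 (.node .leaf 6469493 12811 .leaf)) 6469716 15433 (.node (.node .leaf 6469748 12811 .leaf) 6469972 15561 .leaf)) 6469989 12811 (.node (.node (.node .leaf 6470004 12811 .leaf) 6470005 12811 (.node .leaf 6493315 16652 .leaf)) 6493316 16781 (.node (.node .leaf 6493330 16652 .leaf) 6493331 16652 .leaf))) 6493332 16781 (.node (.node (.node (.node .leaf 6493333 16911 .leaf) 6493347 18830 (.node .leaf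 6493571 2637 .leaf)) 6493572 21199 (.node (.node .leaf 6493587 2638 .leaf) 6493588 16911 .leaf)) 6493589 16911 (.node (.node (.node .leaf 6493781 15181 .leaf) 6493813 12943 (.node .leaf 6493829 2640 .leaf)) 6509699 14924 (.node (.node .leaf 6517077 15181 .leaf) 6517094 10895 .leaf)))) 6517125 14926 (.node (.node (.node (.node (.node .leaf 6517829 15313 .leaf) 6517845 15309 (.node .leaf 6517892 16780 .leaf)) 6517893 16909 (.node (.node .leaf 6517894 14990 .leaf) 6517909 16909 .leaf)) 6517910 17038 (.node (.node (.node .leaf 6518084 10893 .leaf) 6518085 10893 (.node .leaf 6518101 15181 .leaf)) 6518117 10893 (.node (.node .leaf 6518118 10893 .leaf) 6518134 12943 .leaf))) 6518135 15120 (.node (.node (.node (.node .leaf 6518148 14925 .leaf) 6518149 14926 (.node .leaf 6518150 17039 .leaf)) 6518151 15120 (.node (.node .leaf 6518164 17039 .leaf) 6518166 17039 .leaf)) 6518167 19216 (.node (.node (.node .leaf 6518183 19216 .leaf) 6518357 15565 (.node .leaf 6518358 10893 .leaf)) 6518374 10893 (.node (.node .leaf 6518389 12943 .leaf) 6518391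 17169 .leaf)))))) 6518406 17040 (.node (.node (.node (.node (.node (.node (.node .leaf 6518407 17169 .leaf) 6518408 15250 (.node .leaf 6518423 17169 .leaf)) 6518580 8849 (.node (.node .leaf 6518596 10893 .leaf) 6518597 10893 .leaf)) 6518613 15565 (.node (.node (.node .leaf 6518614 10893 .leaf) 6518630 10893 (.node .leaf 6518662 15056 .leaf)) 6518663 17169 (.node (.node .leaf 6518664 15187 .leaf) 6518680 17428 .leaf))) 6518852 10893 (.node (.node (.node (.node .leaf 6518853 10893 .leaf) 6518869 15181 (.node .leaf 6518870 10893 .leaf)) 6518886 10893 (.node (.node .leaf 6519108 10893 .leaf) 6519125 15437 .leaf)) 6519142 10893 (.node (.node (.node .leaf 6521189 16845 .leaf) 6521190 12944 (.node .leaf 6521207 13074 .leaf)) 6521224 15252 (.node (.node .leaf 6521908 8855 .leaf) 6521925 10899 .leaf)))) 6521941 12943 (.node (.node (.node (.node (.node .leaf 6521957 16845 .leaf) 6521958 12943 (.node .leaf 6521973 14926 .leaf)) 6521987 14924 (.node (.node .leaf 6521989 14926 .leaf) 6522003 16653 .leaf)) 6522004 16782 (.node (.node (.node .leaf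 6522005 18959 .leaf) 6522006 19088 (.node .leaf 6522007 19217 .leaf)) 6522181 17366 (.node (.node .leaf 6522197 15053 .leaf) 6522198 12943 .leaf))) 6522213 16845 (.node (.node (.node (.node .leaf 6522214 12943 .leaf) 6522229 12943 (.node .leaf 6522230 12943 .leaf)) 6522243 16974 (.node (.node .leaf 6522244 21199 .leaf) 6522246 14991 .leaf)) 6522260 16911 (.node (.node (.node .leaf 6522261 16911 .leaf) 6522262 15056 (.node .leaf 6522263 15057 .leaf)) 6522278 19089 (.node (.node .leaf 6522279 19218 .leaf) 6522469 16845 .leaf))))) 6522470 12943 (.node (.node (.node (.node (.node (.node .leaf 6522485 12943 .leaf) 6522486 12943 (.node .leaf 6522487 15186 .leaf)) 6522501 15184 (.node (.node .leaf 6522503 15122 .leaf) 6522504 15187 .leaf)) 6522519 17299 (.node (.node (.node .leaf 6522520 17299 .leaf) 6522536 15188 (.node .leaf 6522676 8854 .leaf)) 6522693 15313 (.node (.node .leaf 6522709 15309 .leaf) 6522710 12943 .leaf))) 6522725 16845 (.node (.node (.node (.node .leaf 6522726 12943 .leaf) 6522741 12943 (.node .leaf 6522742 12943 .leaf))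 6522948 10898 (.node (.node .leaf 6522949 15441 .leaf) 6522965 15437 .leaf)) 6522966 12943 (.node (.node (.node .leaf 6522981 16845 .leaf) 6522982 12943 (.node .leaf 6522998 12943 .leaf)) 6523204 10898 (.node (.node .leaf 6523221 15565 .leaf) 6523237 16845 .leaf)))) 6523238 12943 (.node (.node (.node (.node (.node .leaf 6523253 12943 .leaf) 6523254 12943 (.node .leaf 6525286 14993 .leaf)) 6525301 19024 (.node (.node .leaf 6525303 14546 .leaf) 6525987 6685 .leaf)) 6526003 8729 (.node (.node (.node .leaf 6526004 8729 .leaf) 6526020 10902 (.node .leaf 6526021 10902 .leaf)) 6526037 12946 (.node (.node .leaf 6526053 14925 .leaf) 6526069 14926 .leaf))) 6526070 14992 (.node (.node (.node (.node .leaf 6526082 2636 .leaf) 6526083 14924 (.node .leaf 6526085 14926 .leaf)) 6526098 16653 (.node (.node .leaf 6526099 16653 .leaf) 6526116 18831 .leaf)) 6526117 21008 (.node (.node (.node .leaf 6526118 21137 .leaf) 6526260 8860 (.node .leaf 6526277 10904 .leaf)) 6526293 15053 (.node (.node .leaf 6526294 12943 .leaf) 6526309 18894 .leaf)))))))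

def c50 : NatMap := (.node (.node (.node (.node (.node (.node (.node (.node .leaf 6526325 12943 .leaf) 6526326 12943 (.node .leaf 6526327 15057 .leaf)) 6526338 19021 (.node (.node .leaf 6526339 19022 .leaf) 6526340 21199 (.node .leaf 6526341 16911 .leaf))) 6526342 15056 (.node (.node (.node .leaf 6526354 19022 .leaf) 6526355 16911 (.node .leaf 6526356 16911 .leaf)) 6526358 15056 (.node (.node .leaf 6526359 15057 .leaf) 6526373 18961 .leaf))) 6526374 21138 (.node (.node (.node (.node .leaf 6526375 21267 .leaf) 6526376 21396 (.node .leaf 6526581 12943 .leaf)) 6526597 15184 (.node (.node .leaf 6526598 14993 .leaf) 6526613 16913 .leaf)) 6526629 19025 (.node (.node (.node .leaf 6526630 19026 .leaf) 6526837 12943 (.node .leaf 6526838 12943 .leaf)) 6526853 19024 (.node (.node .leaf 6526854 15313 .leaf) 6527045 15441 .leaf)))) 6527061 15437 (.node (.node (.node (.node (.node .leaf 6527062 12943 .leaf) 6527078 12943 (.node .leaf 6527093 12943 .leaf)) 6527094 12943 (.node (.node .leaf 6527300 10903 .leaf) 6527317 15565 .leaf)) 6527333 18894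 (.node (.node (.node .leaf 6527334 12943 .leaf) 6527349 12943 (.node .leaf 6527350 12943 .leaf)) 6529397 21072 (.node (.node .leaf 6529398 14993 .leaf) 6529414 14993 .leaf))) 6530082 6559 (.node (.node (.node (.node .leaf 6530099 8732 .leaf) 6530116 10904 (.node .leaf 6530133 16979 .leaf)) 6530149 14925 (.node (.node .leaf 6530165 14926 .leaf) 6530178 2636 .leaf)) 6530179 14924 (.node (.node (.node .leaf 6530181 14926 .leaf) 6530194 16653 (.node .leaf 6530195 16653 .leaf)) 6530211 18702 (.node (.node .leaf 6530355 21087 .leaf) 6530372 10907 .leaf))))) 6530389 15053 (.node (.node (.node (.node (.node (.node .leaf 6530406 12943 .leaf) 6530421 12943 (.node .leaf 6530422 12943 .leaf)) 6530434 21069 (.node (.node .leaf 6530435 21070 .leaf) 6530436 16783 .leaf)) 6530438 15056 (.node (.node (.node .leaf 6530450 21070 .leaf) 6530451 16783 (.node .leaf 6530452 16783 .leaf)) 6530455 15057 (.node (.node .leaf 6530468 18832 .leaf) 6530485 21009 .leaf))) 6530486 23187 (.node (.node (.node (.node .leaf 6530677 12943 .leaf) 6530693 15184 (.node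 .leaf 6530694 14993 .leaf)) 6530708 16784 (.node (.node .leaf 6530709 16913 .leaf) 6530948 21199 .leaf)) 6531157 15437 (.node (.node (.node .leaf 6531174 12943 .leaf) 6531189 12943 (.node .leaf 6531190 12943 .leaf)) 6531445 12943 (.node (.node .leaf 6533478 14545 .leaf) 6533509 23120 .leaf)))) 6533510 14545 (.node (.node (.node (.node (.node .leaf 6534178 6561 .leaf) 6534195 8734 (.node .leaf 6534212 19033 .leaf)) 6534229 16979 (.node (.node .leaf 6534245 14925 .leaf) 6534275 14924 .leaf)) 6534277 14926 (.node (.node (.node .leaf 6534434 6564 .leaf) 6534451 8736 (.node .leaf 6534468 10909 .leaf)) 6534485 15053 (.node (.node .leaf 6534502 12943 .leaf) 6534517 12943 .leaf))) 6534518 12943 (.node (.node (.node (.node .leaf 6534531 23118 .leaf) 6534532 21199 (.node .leaf 6534533 16911 .leaf)) 6534534 15056 (.node (.node .leaf 6534548 16911 .leaf) 6534773 12943 .leaf)) 6534774 12943 (.node (.node (.node .leaf 6534789 15184 .leaf) 6534804 16784 (.node .leaf 6534805 23121 .leaf)) 6535029 12943 (.node (.node .leaf 6535044 23247 .leaf) 6535046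 15313 .leaf)))))) 6535541 12943 (.node (.node (.node (.node (.node (.node (.node .leaf 6559108 16782 .leaf) 6559123 16782 (.node .leaf 6559124 16782 .leaf)) 6559125 16912 (.node (.node .leaf 6559364 2768 .leaf) 6559365 17233 .leaf)) 6559380 2769 (.node (.node (.node .leaf 6559381 17042 .leaf) 6582630 15055 (.node .leaf 6582647 13073 .leaf)) 6582662 15056 (.node (.node .leaf 6583670 13071 .leaf) 6583671 13071 .leaf))) 6583685 16910 (.node (.node (.node (.node .leaf 6583686 17039 .leaf) 6583687 15120 (.node .leaf 6583700 16910 .leaf)) 6583702 17039 (.node (.node .leaf 6583703 17168 .leaf) 6583910 15055 .leaf)) 6583911 11024 (.node (.node (.node .leaf 6583927 13073 .leaf) 6583941 15055 (.node .leaf 6583942 15056 .leaf)) 6583943 15250 (.node (.node .leaf 6583944 15250 .leaf) 6583959 17170 .leaf)))) 6583976 19347 (.node (.node (.node (.node (.node .leaf 6584133 11024 .leaf) 6584166 15055 (.node .leaf 6584167 11024 .leaf)) 6584182 13073 (.node (.node .leaf 6584198 15056 .leaf) 6584199 17171 .leaf)) 6584200 15187 (.node (.node (.node .leaf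 6584216 17300 .leaf) 6584389 11024 (.node .leaf 6584422 15055 .leaf)) 6584423 11024 (.node (.node .leaf 6586726 16976 .leaf) 6586743 13074 .leaf))) 6586760 15253 (.node (.node (.node (.node .leaf 6587734 13074 .leaf) 6587750 15055 (.node .leaf 6587751 13074 .leaf)) 6587766 15056 (.node (.node .leaf 6587780 15054 .leaf) 6587782 15056 .leaf)) 6587796 16783 (.node (.node (.node .leaf 6587797 16912 .leaf) 6587798 19089 (.node .leaf 6587799 19218 .leaf)) 6587814 19089 (.node (.node .leaf 6587815 19218 .leaf) 6588006 16976 .leaf))))) 6588022 17041 (.node (.node (.node (.node (.node (.node .leaf 6588023 15186 .leaf) 6588036 17104 (.node .leaf 6588039 15122 .leaf)) 6588040 15187 (.node (.node .leaf 6588053 17041 .leaf) 6588054 17041 .leaf)) 6588055 17107 (.node (.node (.node .leaf 6588056 17300 .leaf) 6588072 19349 (.node .leaf 6588229 11029 .leaf)) 6588246 15312 (.node (.node .leaf 6588262 16976 .leaf) 6588263 13074 .leaf))) 6588278 13074 (.node (.node (.node (.node .leaf 6588279 13074 .leaf) 6588294 15123 (.node .leaf 6588296 15317 .leaf))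 6588312 15317 (.node (.node .leaf 6588485 11029 .leaf) 6588502 15440 .leaf)) 6588518 16976 (.node (.node (.node .leaf 6588519 13074 .leaf) 6588534 13074 (.node .leaf 6588535 13074 .leaf)) 6588774 16976 (.node (.node .leaf 6588790 17106 .leaf) 6590839 13075 .leaf)))) 6591796 8860 (.node (.node (.node (.node (.node .leaf 6591813 11032 .leaf) 6591830 13076 (.node .leaf 6591846 15055 .leaf)) 6591862 15056 (.node (.node .leaf 6591863 15122 .leaf) 6591875 2766 .leaf)) 6591876 15054 (.node (.node (.node .leaf 6591877 16912 .leaf) 6591878 15056 (.node .leaf 6591891 16783 .leaf)) 6591892 16783 (.node (.node .leaf 6591894 17170 .leaf) 6591895 17170 .leaf))) 6591909 18961 (.node (.node (.node (.node .leaf 6591910 21138 .leaf) 6591911 21267 (.node .leaf 6592119 15186 .leaf)) 6592132 19152 (.node (.node .leaf 6592133 17233 .leaf) 6592134 17042 .leaf)) 6592135 15187 (.node (.node (.node .leaf 6592148 19153 .leaf) 6592149 17042 (.node .leaf 6592151 15187 .leaf)) 6592165 19154 (.node (.node .leaf 6592166 19155 .leaf) 6592167 19156 .leaf)))))))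

def c51 : NatMap := (.node (.node (.node (.node (.node (.node (.node (.node .leaf 6592374 19154 .leaf) 6592389 19282 (.node .leaf 6592390 19154 .leaf)) 6592391 15123 (.node (.node .leaf 6592405 17043 .leaf) 6592406 17043 (.node .leaf 6592581 11034 .leaf))) 6592598 15440 (.node (.node (.node .leaf 6592614 15441 .leaf) 6592615 13074 (.node .leaf 6592630 13074 .leaf)) 6592631 13074 (.node (.node .leaf 6592870 15569 .leaf) 6592886 19154 .leaf))) 6594934 21202 (.node (.node (.node (.node .leaf 6594950 21202 .leaf) 6595891 8734 (.node .leaf 6595942 15055 .leaf)) 6595958 15056 (.node (.node .leaf 6595971 2766 .leaf) 6595972 15054 .leaf)) 6595974 15056 (.node (.node (.node .leaf 6595987 16783 .leaf) 6595988 16783 (.node .leaf 6595991 17170 .leaf)) 6596004 18832 (.node (.node .leaf 6596021 21009 .leaf) 6596022 23187 .leaf)))) 6596227 21199 (.node (.node (.node (.node (.node .leaf 6596228 21200 .leaf) 6596229 17233 (.node .leaf 6596230 21202 .leaf)) 6596231 15187 (.node (.node .leaf 6596244 21201 .leaf) 6596245 17042 .leaf)) 6596247 15187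 (.node (.node (.node .leaf 6596260 21201 .leaf) 6596277 21203 (.node .leaf 6596486 21202 .leaf)) 6596501 16915 (.node (.node .leaf 6596710 15441 .leaf) 6596726 21202 .leaf))) 6599031 13075 (.node (.node (.node (.node .leaf 6599045 23378 .leaf) 6599046 23250 (.node .leaf 6599970 6564 .leaf)) 6599987 8736 (.node (.node .leaf 6600004 21214 .leaf) 6600038 15055 .leaf)) 6600067 2766 (.node (.node (.node .leaf 6600068 15054 .leaf) 6600069 16912 (.node .leaf 6600070 15056 .leaf)) 6600084 16783 (.node (.node .leaf 6600310 23250 .leaf) 6600311 15186 .leaf))))) 6600323 23247 (.node (.node (.node (.node (.node (.node .leaf 6600324 23248 .leaf) 6600325 17233 (.node .leaf 6600340 23249 .leaf)) 6600341 17042 (.node (.node .leaf 6600343 15187 .leaf) 6600582 23250 .leaf)) 6600597 16915 (.node (.node (.node .leaf 6624901 15184 .leaf) 6624916 16913 (.node .leaf 6624917 16913 .leaf)) 6625157 2898 (.node (.node .leaf 6625173 2899 .leaf) 6649463 13201 .leaf))) 6649478 17040 (.node (.node (.node (.node .leaf 6649479 17170 .leaf) 6649480 15250 (.node .leaf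 6649495 17170 .leaf)) 6649703 15185 (.node (.node .leaf 6649720 13203 .leaf) 6649734 15186 .leaf)) 6649735 15187 (.node (.node (.node .leaf 6649736 17300 .leaf) 6649752 17300 (.node .leaf 6649959 15185 .leaf)) 6649975 13203 (.node (.node .leaf 6652279 17364 .leaf) 6652296 17237 .leaf)))) 6653559 15186 (.node (.node (.node (.node (.node .leaf 6653573 15184 .leaf) 6653575 15187 (.node .leaf 6653576 17300 .leaf)) 6653589 16913 (.node (.node .leaf 6653591 19219 .leaf) 6653592 17300 .leaf)) 6653608 19349 (.node (.node (.node .leaf 6653799 15315 .leaf) 6653815 17172 (.node .leaf 6653816 15252 .leaf)) 6653832 15252 (.node (.node .leaf 6653848 15317 .leaf) 6654055 17107 .leaf))) 6654071 17364 (.node (.node (.node (.node .leaf 6654072 15253 .leaf) 6654087 15253 (.node .leaf 6656375 19284 .leaf)) 6657669 15184 (.node (.node .leaf 6657670 17042 .leaf) 6657671 15187 .leaf)) 6657684 16913 (.node (.node (.node .leaf 6657685 16913 .leaf) 6657702 21139 (.node .leaf 6657704 21397 .leaf)) 6657925 19282 (.node (.node .leaf 6657926 17364 .leaf) 6657927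 17172 .leaf)))))) 6657941 17172 (.node (.node (.node (.node (.node (.node (.node .leaf 6657942 17172 .leaf) 6657959 19285 (.node .leaf 6658151 15443 .leaf)) 6658167 19284 (.node (.node .leaf 6660486 21460 .leaf) 6661764 23377 .leaf)) 6661765 15184 (.node (.node (.node .leaf 6661766 17042 .leaf) 6661767 15187 (.node .leaf 6661780 16913 .leaf)) 6661781 16913 (.node (.node .leaf 6661783 17301 .leaf) 6661813 21011 .leaf))) 6662020 21329 (.node (.node (.node (.node .leaf 6662021 21330 .leaf) 6662037 17172 (.node .leaf 6662038 17172 .leaf)) 6664567 23381 (.node (.node .leaf 6664582 23508 .leaf) 6665860 21329 .leaf)) 6665861 15184 (.node (.node (.node .leaf 6665876 16913 .leaf) 6665877 16913 (.node .leaf 6665879 19285 .leaf)) 6666116 23377 (.node (.node .leaf 6666117 23378 .leaf) 6666118 17364 .leaf)))) 6666120 15317 (.node (.node (.node (.node (.node .leaf 6666133 17172 .leaf) 6666134 17172 (.node .leaf 6690709 17043 .leaf)) 6715271 17171 (.node (.node .leaf 6715272 15380 .leaf) 6715288 17300 .leaf)) 6715527 15316 (.node (.node (.node .leaf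 6719352 15316 .leaf) 6719366 15315 (.node .leaf 6719368 15317 .leaf)) 6719384 17430 (.node (.node .leaf 6719608 17302 .leaf) 6723461 3027 .leaf))) 6723462 17043 (.node (.node (.node (.node .leaf 6723463 17173 .leaf) 6723477 17043 (.node .leaf 6723478 17043 .leaf)) 6723495 19222 (.node (.node .leaf 6727558 15315 .leaf) 6727573 17043 .leaf)) 6727574 17043 (.node (.node (.node .leaf 6731654 15315 .leaf) 6731656 15317 (.node .leaf 6731669 17043 .leaf)) 6731670 17043 (.node (.node .leaf 6785159 15445 .leaf) 7410291 2241 .leaf))))) 7410307 20808 (.node (.node (.node (.node (.node (.node .leaf 7410308 16777 .leaf) 7410322 16777 (.node .leaf 7410323 16777 .leaf)) 7410324 16777 (.node (.node .leaf 7410338 18698 .leaf) 7410339 18826 .leaf)) 7410340 18826 (.node (.node (.node .leaf 7410356 21003 .leaf) 7410547 2241 (.node .leaf 7410563 12738 .leaf)) 7410564 2379 (.node (.node .leaf 7410578 2378 .leaf) 7410579 2378 .leaf))) 7410580 2379 (.node (.node (.node (.node .leaf 7410594 2379 .leaf) 7410595 2379 (.node .leaf 7410596 2379 .leaf)) 7410612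 2380 (.node (.node .leaf 7410787 16962 .leaf) 7410804 14723 .leaf)) 7410819 12866 (.node (.node (.node .leaf 7410820 14723 .leaf) 7410835 2378 (.node .leaf 7410851 2379 .leaf)) 7411043 17090 (.node (.node .leaf 7411044 14723 .leaf) 7411060 14723 .leaf)))) 7411075 12994 (.node (.node (.node (.node (.node .leaf 7411076 14723 .leaf) 7411091 2378 (.node .leaf 7411107 2379 .leaf)) 7411299 17218 (.node (.node .leaf 7411300 14723 .leaf) 7411316 14723 .leaf)) 7411331 13122 (.node (.node (.node .leaf 7411332 14723 .leaf) 7423331 17090 (.node .leaf 7426931 10433 .leaf)) 7427187 10433 (.node (.node .leaf 7427203 12866 .leaf) 7427428 14723 .leaf))) 7427443 10433 (.node (.node (.node (.node .leaf 7427683 17218 .leaf) 7427699 10433 (.node .leaf 7427955 10433 .leaf)) 7428211 10433 (.node (.node .leaf 7428467 10433 .leaf) 7431299 12994 .leaf)) 7431300 16770 (.node (.node (.node .leaf 7431523 17090 .leaf) 7431540 16770 (.node .leaf 7431555 12738 .leaf)) 7431556 16770 (.node (.node .leaf 7431779 17218 .leaf) 7431780 14723 .leaf)))))))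

def c52 : NatMap := (.node (.node (.node (.node (.node (.node (.node (.node .leaf 7435893 17228 .leaf) 7436148 14723 (.node .leaf 7436149 17356 .leaf)) 7438899 17620 (.node (.node .leaf 7438915 17104 .leaf) 7438931 17483 (.node .leaf 7438947 16834 .leaf))) 7438948 14728 (.node (.node (.node .leaf 7438963 17091 .leaf) 7438980 14728 (.node .leaf 7438994 16776 .leaf)) 7438995 16776 (.node (.node .leaf 7438996 16776 .leaf) 7438997 22860 .leaf))) 7438998 22862 (.node (.node (.node (.node .leaf 7439012 18826 .leaf) 7439156 17364 (.node .leaf 7439172 17616 .leaf)) 7439188 12674 (.node (.node .leaf 7439203 17602 .leaf) 7439204 12674 .leaf)) 7439205 12811 (.node (.node (.node .leaf 7439220 12674 .leaf) 7439221 12811 (.node .leaf 7439236 14728 .leaf)) 7439250 16713 (.node (.node .leaf 7439251 16714 .leaf) 7439252 18829 .leaf)))) 7439253 16909 (.node (.node (.node (.node (.node .leaf 7439429 10763 .leaf) 7439445 10763 (.node .leaf 7439459 17090 .leaf)) 7439460 12674 (.node (.node .leaf 7439475 12674 .leaf) 7439476 12674 .leaf)) 7439491 12866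 (.node (.node (.node .leaf 7439493 14860 .leaf) 7439508 17038 (.node .leaf 7439509 17038 .leaf)) 7439510 17038 (.node (.node .leaf 7439685 10763 .leaf) 7439700 12674 .leaf))) 7439701 10763 (.node (.node (.node (.node .leaf 7439715 17346 .leaf) 7439716 12674 (.node .leaf 7439717 10763 .leaf)) 7439718 10892 (.node (.node .leaf 7439732 12674 .leaf) 7439733 12811 .leaf)) 7439734 12940 (.node (.node (.node .leaf 7439750 14988 .leaf) 7439764 16846 (.node .leaf 7439765 16846 .leaf)) 7439766 16977 (.node (.node .leaf 7439971 16962 .leaf) 7439972 12674 .leaf))))) 7439973 12811 (.node (.node (.node (.node (.node (.node .leaf 7439990 12940 .leaf) 7439991 15120 (.node .leaf 7440007 15120 .leaf)) 7440180 8848 (.node (.node .leaf 7440197 10763 .leaf) 7440212 12674 .leaf)) 7440227 17218 (.node (.node (.node .leaf 7440228 12674 .leaf) 7440229 10763 (.node .leaf 7440452 10635 .leaf)) 7440453 10763 (.node (.node .leaf 7440469 10763 .leaf) 7440470 12940 .leaf))) 7440483 17346 (.node (.node (.node (.node .leaf 7440484 12674 .leaf) 7440485 10763 (.node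 .leaf 7440486 12940 .leaf)) 7440502 12940 (.node (.node .leaf 7440691 8720 .leaf) 7440708 10763 .leaf)) 7440724 12674 (.node (.node (.node .leaf 7440725 10763 .leaf) 7440739 17218 (.node .leaf 7440740 12674 .leaf)) 7442994 8599 (.node (.node .leaf 7443010 10643 .leaf) 7443027 12685 .leaf)))) 7443043 14728 (.node (.node (.node (.node (.node .leaf 7443044 14728 .leaf) 7443045 14858 (.node .leaf 7443059 18625 .leaf)) 7443060 14728 (.node (.node .leaf 7443061 14858 .leaf) 7443075 20808 .leaf)) 7443076 14728 (.node (.node (.node .leaf 7443077 14858 .leaf) 7443089 22857 (.node .leaf 7443091 16776 .leaf)) 7443092 16776 (.node (.node .leaf 7443093 18954 .leaf) 7443105 18569 .leaf))) 7443106 18569 (.node (.node (.node (.node .leaf 7443107 20746 .leaf) 7443108 18954 (.node .leaf 7443109 18954 .leaf)) 7443110 21134 (.node (.node .leaf 7443251 19673 .leaf) 7443267 19670 .leaf)) 7443268 16852 (.node (.node (.node .leaf 7443284 16848 .leaf) 7443285 16848 (.node .leaf 7443299 16834 .leaf)) 7443300 14728 (.node (.node .leaf 7443302 14991 .leaf) 7443315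 18625 .leaf)))))) 7443316 14728 (.node (.node (.node (.node (.node (.node (.node .leaf 7443317 19277 .leaf) 7443331 14728 (.node .leaf 7443332 14728 .leaf)) 7443333 14861 (.node (.node .leaf 7443345 18761 .leaf) 7443346 2508 .leaf)) 7443348 18762 (.node (.node (.node .leaf 7443349 16846 .leaf) 7443362 18762 (.node .leaf 7443363 18762 .leaf)) 7443364 18762 (.node (.node .leaf 7443365 18766 .leaf) 7443366 19087 .leaf))) 7443508 16984 (.node (.node (.node (.node .leaf 7443524 16980 .leaf) 7443525 16980 (.node .leaf 7443541 16972 .leaf)) 7443555 16962 (.node (.node .leaf 7443556 14723 .leaf) 7443557 16972 .leaf)) 7443571 18625 (.node (.node (.node .leaf 7443572 14723 .leaf) 7443573 14860 (.node .leaf 7443587 12866 .leaf)) 7443588 14723 (.node (.node .leaf 7443602 18892 .leaf) 7443603 18702 .leaf)))) 7443620 18762 (.node (.node (.node (.node (.node .leaf 7443621 18766 .leaf) 7443797 17100 (.node .leaf 7443811 17090 .leaf)) 7443812 14723 (.node (.node .leaf 7443813 17100 .leaf) 7443814 14989 .leaf)) 7443827 18625 (.node (.node (.node .leaf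 7443828 14723 .leaf) 7443829 12812 (.node .leaf 7443830 14989 .leaf)) 7443831 17105 (.node (.node .leaf 7443843 12994 .leaf) 7443844 14723 .leaf))) 7443846 14989 (.node (.node (.node (.node .leaf 7443858 18892 .leaf) 7443860 16782 (.node .leaf 7443863 17106 .leaf)) 7443877 18766 (.node (.node .leaf 7443878 18770 .leaf) 7444051 17227 .leaf)) 7444067 17218 (.node (.node (.node .leaf 7444068 14723 .leaf) 7444083 18625 (.node .leaf 7444084 14723 .leaf)) 7444085 17228 (.node (.node .leaf 7444100 14723 .leaf) 7444102 14989 .leaf))))) 7444133 18766 (.node (.node (.node (.node (.node (.node .leaf 7444323 17346 .leaf) 7444324 14723 (.node .leaf 7444339 18625 .leaf)) 7444340 14723 (.node (.node .leaf 7444548 17488 .leaf) 7444549 17488 .leaf)) 7444565 17484 (.node (.node (.node .leaf 7444579 17474 .leaf) 7444580 14723 (.node .leaf 7444581 17484 .leaf)) 7444582 12941 (.node (.node .leaf 7444595 18625 .leaf) 7444596 14723 .leaf))) 7444597 14860 (.node (.node (.node (.node .leaf 7444598 12941 .leaf) 7444787 17620 (.node .leaf 7444803 17616 .leaf))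 7444804 17616 (.node (.node .leaf 7444819 17611 .leaf) 7444820 17611 .leaf)) 7444835 17602 (.node (.node (.node .leaf 7444836 14723 .leaf) 7444837 12812 (.node .leaf 7444851 18625 .leaf)) 7444852 14723 (.node (.node .leaf 7444853 12812 .leaf) 7447091 8601 .leaf)))) 7447108 10645 (.node (.node (.node (.node (.node .leaf 7447123 12687 .leaf) 7447139 14858 (.node .leaf 7447155 20673 .leaf)) 7447156 16776 (.node (.node .leaf 7447157 14858 .leaf) 7447171 14664 .leaf)) 7447172 16776 (.node (.node (.node .leaf 7447173 14858 .leaf) 7447174 17036 (.node .leaf 7447185 22857 .leaf)) 7447187 16776 (.node (.node .leaf 7447188 16776 .leaf) 7447189 18954 .leaf))) 7447190 19084 (.node (.node (.node (.node .leaf 7447201 18569 .leaf) 7447204 18826 (.node .leaf 7447206 19084 .leaf)) 7447218 20874 (.node (.node .leaf 7447219 20874 .leaf) 7447220 20874 .leaf)) 7447221 21002 (.node (.node (.node .leaf 7447363 10648 .leaf) 7447379 12820 (.node .leaf 7447380 16848 .leaf)) 7447381 16848 (.node (.node .leaf 7447395 16834 .leaf) 7447396 14728 .leaf)))))))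

def c53 : NatMap := (.node (.node (.node (.node (.node (.node (.node (.node .leaf 7447413 20812 .leaf) 7447427 20808 (.node .leaf 7447428 14728 .leaf)) 7447429 20812 (.node (.node .leaf 7447430 17039 .leaf) 7447441 20809 (.node .leaf 7447442 2508 .leaf))) 7447444 20810 (.node (.node (.node .leaf 7447445 20812 .leaf) 7447457 20811 (.node .leaf 7447458 18700 .leaf)) 7447461 20812 (.node (.node .leaf 7447462 19087 .leaf) 7447474 20811 .leaf))) 7447475 20812 (.node (.node (.node (.node .leaf 7447476 20812 .leaf) 7447477 20812 (.node .leaf 7447603 20829 .leaf)) 7447620 16980 (.node (.node .leaf 7447637 16972 .leaf) 7447651 16962 .leaf)) 7447652 14723 (.node (.node (.node .leaf 7447668 14723 .leaf) 7447683 12866 (.node .leaf 7447684 14723 .leaf)) 7447698 20940 (.node (.node .leaf 7447715 18702 .leaf) 7447907 17090 .leaf)))) 7447908 14723 (.node (.node (.node (.node (.node .leaf 7447924 14723 .leaf) 7447925 20812 (.node .leaf 7447939 12994 .leaf)) 7447940 14723 (.node (.node .leaf 7447941 20812 .leaf) 7447942 14990 .leaf)) 7447954 20940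 (.node (.node (.node .leaf 7447955 20810 .leaf) 7447956 20810 (.node .leaf 7448147 17227 .leaf)) 7448163 17218 (.node (.node .leaf 7448164 14723 .leaf) 7448180 14723 .leaf))) 7448181 14860 (.node (.node (.node (.node .leaf 7448195 13122 .leaf) 7448196 14723 (.node .leaf 7448198 14990 .leaf)) 7448419 17346 (.node (.node .leaf 7448420 14723 .leaf) 7448436 14723 .leaf)) 7448451 13250 (.node (.node (.node .leaf 7448452 14723 .leaf) 7448644 17488 (.node .leaf 7448675 17474 .leaf)) 7448676 14723 (.node (.node .leaf 7448692 14723 .leaf) 7448693 20812 .leaf))))) 7448694 14990 (.node (.node (.node (.node (.node (.node .leaf 7448707 13378 .leaf) 7448708 14723 (.node .leaf 7448931 17602 .leaf)) 7448932 14723 (.node (.node .leaf 7448948 14723 .leaf) 7448949 20812 .leaf)) 7448963 13506 (.node (.node (.node .leaf 7448964 14723 .leaf) 7451170 6559 (.node .leaf 7451187 18778 .leaf)) 7451202 10647 (.node (.node .leaf 7451251 22721 .leaf) 7451267 20808 .leaf))) 7451268 16776 (.node (.node (.node (.node .leaf 7451269 16906 .leaf) 7451283 16776 (.node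 .leaf 7451284 16776 .leaf)) 7451285 16906 (.node (.node .leaf 7451301 18954 .leaf) 7451302 19084 .leaf)) 7451426 6561 (.node (.node (.node .leaf 7451443 8734 .leaf) 7451460 16852 (.node .leaf 7451477 16848 .leaf)) 7451491 16834 (.node (.node .leaf 7451492 14728 .leaf) 7451508 14728 .leaf)))) 7451523 14728 (.node (.node (.node (.node (.node .leaf 7451524 14728 .leaf) 7451525 22860 (.node .leaf 7451526 22862 .leaf)) 7451540 22858 (.node (.node .leaf 7451541 22860 .leaf) 7451699 22879 .leaf)) 7451716 16980 (.node (.node (.node .leaf 7451733 16972 .leaf) 7451747 16962 (.node .leaf 7451748 14723 .leaf)) 7451764 14723 (.node (.node .leaf 7451779 12866 .leaf) 7451780 14723 .leaf))) 7452003 17090 (.node (.node (.node (.node .leaf 7452004 14723 .leaf) 7452020 14723 (.node .leaf 7452035 12994 .leaf)) 7452036 14723 (.node (.node .leaf 7452259 17218 .leaf) 7452260 14723 .leaf)) 7452276 14723 (.node (.node (.node .leaf 7452291 13122 .leaf) 7452292 14723 (.node .leaf 7452515 17346 .leaf)) 7452516 14723 (.node (.node .leaf 7452532 14723 .leaf) 7452547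 13250 .leaf)))))) 7452548 14723 (.node (.node (.node (.node (.node (.node (.node .leaf 7452771 17474 .leaf) 7452772 14723 (.node .leaf 7452788 14723 .leaf)) 7452803 13378 (.node (.node .leaf 7452804 14723 .leaf) 7452805 22860 .leaf)) 7453027 17602 (.node (.node (.node .leaf 7453028 14723 .leaf) 7453044 14723 (.node .leaf 7453059 13506 .leaf)) 7453060 14723 (.node (.node .leaf 7476100 18828 .leaf) 7476114 16843 .leaf))) 7476115 18700 (.node (.node (.node (.node .leaf 7476116 18828 .leaf) 7476130 18828 (.node .leaf 7476131 18700 .leaf)) 7476132 18828 (.node (.node .leaf 7476340 2892 .leaf) 7476356 12878 .leaf)) 7476357 16910 (.node (.node (.node .leaf 7476370 2508 .leaf) 7476371 2508 (.node .leaf 7476386 2509 .leaf)) 7476387 18830 (.node (.node .leaf 7476580 17098 .leaf) 7476612 14860 .leaf)))) 7476628 2510 (.node (.node (.node (.node (.node .leaf 7476643 2510 .leaf) 7476644 2510 (.node .leaf 7476836 17226 .leaf)) 7476837 14860 (.node (.node .leaf 7476853 14860 .leaf) 7476868 14860 .leaf)) 7492964 17098 (.node (.node (.node .leaf 7497092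 14860 .leaf) 7497316 17226 (.node .leaf 7501429 14860 .leaf)) 7501685 14860 (.node (.node .leaf 7504228 17226 .leaf) 7504229 17359 .leaf))) 7504230 17104 (.node (.node (.node (.node .leaf 7504247 17235 .leaf) 7504692 17367 (.node .leaf 7504708 17619 .leaf)) 7504724 17103 (.node (.node .leaf 7504725 17487 .leaf) 7504740 16970 .leaf)) 7504741 14860 (.node (.node (.node .leaf 7504757 14860 .leaf) 7504772 14860 (.node .leaf 7504787 18699 .leaf)) 7504788 18829 (.node (.node .leaf 7504789 16909 .leaf) 7504948 17367 .leaf))))) 7504964 17619 (.node (.node (.node (.node (.node (.node .leaf 7504965 17363 .leaf) 7504980 12810 (.node .leaf 7504981 12810 .leaf)) 7504996 17098 (.node (.node .leaf 7504997 12810 .leaf) 7505012 12810 .leaf)) 7505013 12810 (.node (.node (.node .leaf 7505029 14860 .leaf) 7505043 16845 (.node .leaf 7505044 16846 .leaf)) 7505045 18959 (.node (.node .leaf 7505046 19088 .leaf) 7505219 10767 .leaf))) 7505236 12810 (.node (.node (.node (.node .leaf 7505237 12810 .leaf) 7505238 10895 (.node .leaf 7505252 17482 .leaf)) 7505253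 12810 (.node (.node .leaf 7505254 10895 .leaf) 7505268 12810 .leaf)) 7505269 12810 (.node (.node (.node .leaf 7505271 13072 .leaf) 7505284 14860 (.node .leaf 7505301 18960 .leaf)) 7505302 19089 (.node (.node .leaf 7505303 17169 .leaf) 7505318 19089 .leaf)))) 7505319 19218 (.node (.node (.node (.node (.node .leaf 7505491 12810 .leaf) 7505508 17354 (.node .leaf 7505509 12810 .leaf)) 7505510 12943 (.node (.node .leaf 7505525 12810 .leaf) 7505526 12943 .leaf)) 7505543 15120 (.node (.node (.node .leaf 7505544 15251 .leaf) 7505559 17299 (.node .leaf 7505716 8851 .leaf)) 7505733 10767 (.node (.node .leaf 7505748 12810 .leaf) 7505750 12943 .leaf))) 7505764 17482 (.node (.node (.node (.node .leaf 7505765 12810 .leaf) 7505781 12810 (.node .leaf 7505988 10895 .leaf)) 7505989 10895 (.node (.node .leaf 7506003 12810 .leaf) 7506004 12810 .leaf)) 7506005 12810 (.node (.node (.node .leaf 7506006 10895 .leaf) 7506020 17610 (.node .leaf 7506021 12810 .leaf)) 7506227 8723 (.node (.node .leaf 7506243 10767 .leaf) 7506244 10767 .leaf)))))))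

def c54 : NatMap := (.node (.node (.node (.node (.node (.node (.node (.node .leaf 7506260 12810 .leaf) 7506261 12810 (.node .leaf 7506276 17354 .leaf)) 7506277 12810 (.node (.node .leaf 7506293 12810 .leaf) 7508324 14860 (.node .leaf 7508326 19538 .leaf))) 7508341 14860 (.node (.node (.node .leaf 7508343 13075 .leaf) 7508787 8729 (.node .leaf 7508803 10774 .leaf)) 7508804 10774 (.node (.node .leaf 7508820 12818 .leaf) 7508821 12818 .leaf))) 7508836 14861 (.node (.node (.node (.node .leaf 7508837 14861 .leaf) 7508838 14991 (.node .leaf 7508852 18762 .leaf)) 7508853 14861 (.node (.node .leaf 7508868 14861 .leaf) 7508869 14861 .leaf)) 7508882 16843 (.node (.node (.node .leaf 7508884 20877 .leaf) 7508885 16910 (.node .leaf 7508898 18571 .leaf)) 7508899 18701 (.node (.node .leaf 7508900 20877 .leaf) 7508901 19087 .leaf)))) 7508902 19087 (.node (.node (.node (.node (.node .leaf 7509044 8860 .leaf) 7509060 19672 (.node .leaf 7509061 16983 .leaf)) 7509077 16979 (.node (.node .leaf 7509092 16970 .leaf) 7509093 14860 .leaf)) 7509108 18762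 (.node (.node (.node .leaf 7509109 14860 .leaf) 7509124 14860 (.node .leaf 7509125 14860 .leaf)) 7509138 18893 (.node (.node .leaf 7509139 18702 .leaf) 7509141 18895 .leaf))) 7509155 18893 (.node (.node (.node (.node .leaf 7509156 18831 .leaf) 7509157 21008 (.node .leaf 7509158 21137 .leaf)) 7509317 17111 (.node (.node .leaf 7509333 17103 .leaf) 7509348 17098 .leaf)) 7509349 14860 (.node (.node (.node .leaf 7509350 17104 .leaf) 7509364 18762 (.node .leaf 7509365 14860 .leaf)) 7509366 17104 (.node (.node .leaf 7509367 15122 .leaf) 7509380 14860 .leaf))))) 7509381 14860 (.node (.node (.node (.node (.node (.node .leaf 7509382 14993 .leaf) 7509395 18703 (.node .leaf 7509396 15056 .leaf)) 7509399 17170 (.node (.node .leaf 7509413 18896 .leaf) 7509414 21138 .leaf)) 7509415 21267 (.node (.node (.node .leaf 7509587 12817 .leaf) 7509604 17226 (.node .leaf 7509605 14860 .leaf)) 7509620 18762 (.node (.node .leaf 7509621 14860 .leaf) 7509636 14860 .leaf))) 7509637 14860 (.node (.node (.node (.node .leaf 7509638 14993 .leaf) 7509639 17170 (.node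 .leaf 7509655 17170 .leaf)) 7509669 18896 (.node (.node .leaf 7509670 21138 .leaf) 7509860 17354 .leaf)) 7509861 14860 (.node (.node (.node .leaf 7509876 18762 .leaf) 7509877 14860 (.node .leaf 7510084 17491 .leaf)) 7510085 17491 (.node (.node .leaf 7510101 17487 .leaf) 7510102 17488 .leaf)))) 7510116 17482 (.node (.node (.node (.node (.node .leaf 7510117 14860 .leaf) 7510118 17488 (.node .leaf 7510132 18762 .leaf)) 7510133 14860 (.node (.node .leaf 7510134 17488 .leaf) 7510323 8728 .leaf)) 7510339 10773 (.node (.node (.node .leaf 7510340 17619 .leaf) 7510355 12817 (.node .leaf 7510356 17615 .leaf)) 7510357 17615 (.node (.node .leaf 7510372 17610 .leaf) 7510373 14860 .leaf))) 7510388 18762 (.node (.node (.node (.node .leaf 7510389 14860 .leaf) 7512437 14863 (.node .leaf 7512452 20941 .leaf)) 7512453 14863 (.node (.node .leaf 7512454 20945 .leaf) 7512471 17172 .leaf)) 7512899 10648 (.node (.node (.node .leaf 7512915 12820 .leaf) 7512916 12820 (.node .leaf 7512917 12820 .leaf)) 7512932 14863 (.node (.node .leaf 7512948 20810 .leaf)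 7512949 16909 .leaf)))))) 7512964 22989 (.node (.node (.node (.node (.node (.node (.node .leaf 7512965 16909 .leaf) 7512966 17039 (.node .leaf 7512978 16843 .leaf)) 7512980 16909 (.node (.node .leaf 7512981 16909 .leaf) 7512993 18571 .leaf)) 7512994 18571 (.node (.node (.node .leaf 7512997 18959 .leaf) 7513011 22797 (.node .leaf 7513012 2510 .leaf)) 7513013 23055 (.node (.node .leaf 7513139 8734 .leaf) 7513156 10907 .leaf))) 7513173 16979 (.node (.node (.node (.node .leaf 7513188 16970 .leaf) 7513189 14860 (.node .leaf 7513204 20810 .leaf)) 7513205 14860 (.node (.node .leaf 7513220 14860 .leaf) 7513221 14860 .leaf)) 7513234 20941 (.node (.node (.node .leaf 7513235 18702 .leaf) 7513250 18702 (.node .leaf 7513251 18702 .leaf)) 7513268 20943 (.node (.node .leaf 7513429 17103 .leaf) 7513444 17098 .leaf)))) 7513445 14860 (.node (.node (.node (.node (.node .leaf 7513446 17104 .leaf) 7513461 14860 (.node .leaf 7513476 14860 .leaf)) 7513477 14860 (.node (.node .leaf 7513478 20945 .leaf) 7513491 2767 .leaf)) 7513492 20943 (.node (.node (.node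 .leaf 7513493 20943 .leaf) 7513507 18703 (.node .leaf 7513508 18832 .leaf)) 7513510 20945 (.node (.node .leaf 7513525 20945 .leaf) 7513683 12822 .leaf))) 7513700 17226 (.node (.node (.node (.node .leaf 7513701 14860 .leaf) 7513716 20810 (.node .leaf 7513717 14860 .leaf)) 7513732 14860 (.node (.node .leaf 7513733 14860 .leaf) 7513734 20945 .leaf)) 7513748 20943 (.node (.node (.node .leaf 7513956 17354 .leaf) 7513988 14860 (.node .leaf 7513989 14860 .leaf)) 7514180 17491 (.node (.node .leaf 7514197 17487 .leaf) 7514212 17482 .leaf))))) 7514213 14860 (.node (.node (.node (.node (.node (.node .leaf 7514229 14860 .leaf) 7514230 17488 (.node .leaf 7514244 14860 .leaf)) 7514245 14860 (.node (.node .leaf 7514468 17610 .leaf) 7514469 14860 .leaf)) 7514485 14860 (.node (.node (.node .leaf 7514500 14860 .leaf) 7514501 14860 (.node .leaf 7516548 22989 .leaf)) 7516549 22991 (.node (.node .leaf 7516962 6561 .leaf) 7516979 8734 .leaf))) 7516996 18905 (.node (.node (.node (.node .leaf 7517013 12822 .leaf) 7517028 14865 (.node .leaf 7517044 23116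 .leaf)) 7517060 20941 (.node (.node .leaf 7517061 16909 .leaf) 7517062 17039 .leaf)) 7517076 16909 (.node (.node (.node .leaf 7517077 16909 .leaf) 7517235 8736 (.node .leaf 7517252 10909 .leaf)) 7517269 16979 (.node (.node .leaf 7517284 16970 .leaf) 7517285 14860 .leaf)))) 7517300 19020 (.node (.node (.node (.node (.node .leaf 7517301 14860 .leaf) 7517316 14860 (.node .leaf 7517317 14860 .leaf)) 7517333 22991 (.node (.node .leaf 7517491 23009 .leaf) 7517508 23006 .leaf)) 7517525 17103 (.node (.node (.node .leaf 7517540 17098 .leaf) 7517541 14860 (.node .leaf 7517542 17104 .leaf)) 7517557 14860 (.node (.node .leaf 7517572 14860 .leaf) 7517573 14860 .leaf))) 7517796 17226 (.node (.node (.node (.node .leaf 7517797 14860 .leaf) 7517813 14860 (.node .leaf 7517828 14860 .leaf)) 7517829 14860 (.node (.node .leaf 7517844 22991 .leaf) 7518052 17354 .leaf)) 7518053 14860 (.node (.node (.node .leaf 7518069 14860 .leaf) 7518084 14860 (.node .leaf 7518085 14860 .leaf)) 7518308 17482 (.node (.node .leaf 7518340 14860 .leaf) 7518341 14860 .leaf)))))))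

def c55 : NatMap := (.node (.node (.node (.node (.node (.node (.node (.node .leaf 7518565 14860 .leaf) 7518581 14860 (.node .leaf 7518596 14860 .leaf)) 7518597 14860 (.node (.node .leaf 7541893 16975 .leaf) 7541907 18701 (.node .leaf 7541922 18701 .leaf))) 7541923 18701 (.node (.node (.node .leaf 7542163 2638 .leaf) 7542164 15056 (.node .leaf 7542165 18960 .leaf)) 7542179 2639 (.node (.node .leaf 7542180 18960 .leaf) 7542373 17230 .leaf))) 7542405 14993 (.node (.node (.node (.node .leaf 7569765 17230 .leaf) 7569766 12944 (.node .leaf 7569783 13074 .leaf)) 7569800 15252 (.node (.node .leaf 7570501 17366 .leaf) 7570517 17490 .leaf)) 7570533 17358 (.node (.node (.node .leaf 7570534 14991 .leaf) 7570580 18830 (.node .leaf 7570581 18959 .leaf)) 7570582 17039 (.node (.node .leaf 7570757 17366 .leaf) 7570772 12942 .leaf)))) 7570773 12942 (.node (.node (.node (.node (.node .leaf 7570789 17230 .leaf) 7570790 12942 (.node .leaf 7570805 12942 .leaf)) 7570806 12942 (.node (.node .leaf 7570822 14992 .leaf) 7570836 16975 .leaf)) 7570837 16976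 (.node (.node (.node .leaf 7570838 19089 .leaf) 7570839 19218 (.node .leaf 7571045 17614 .leaf)) 7571046 12942 (.node (.node .leaf 7571062 12942 .leaf) 7571063 13074 .leaf))) 7571077 14992 (.node (.node (.node (.node .leaf 7571079 15122 .leaf) 7571080 17299 (.node .leaf 7571095 17299 .leaf)) 7571096 17299 (.node (.node .leaf 7571112 19349 .leaf) 7571252 8854 .leaf)) 7571269 11026 (.node (.node (.node .leaf 7571284 12942 .leaf) 7571286 12942 (.node .leaf 7571301 17614 .leaf)) 7571302 12942 (.node (.node .leaf 7571318 12942 .leaf) 7571524 10898 .leaf))))) 7571525 10898 (.node (.node (.node (.node (.node (.node .leaf 7571541 12942 .leaf) 7571542 12942 (.node .leaf 7571557 17102 .leaf)) 7571558 12942 (.node (.node .leaf 7571574 12942 .leaf) 7571780 10898 .leaf)) 7571796 12942 (.node (.node (.node .leaf 7571797 12942 .leaf) 7571813 17358 (.node .leaf 7571814 12942 .leaf)) 7571830 12942 (.node (.node .leaf 7573862 14994 .leaf) 7573877 18895 .leaf))) 7573878 14994 (.node (.node (.node (.node .leaf 7573879 16596 .leaf) 7573896 15253 (.node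 .leaf 7574580 8860 .leaf)) 7574596 10904 (.node (.node .leaf 7574597 10904 .leaf) 7574613 12949 .leaf)) 7574629 14993 (.node (.node (.node .leaf 7574645 16975 .leaf) 7574646 14993 (.node .leaf 7574661 16975 .leaf)) 7574674 2637 (.node (.node .leaf 7574675 18702 .leaf) 7574677 16976 .leaf)))) 7574691 18702 (.node (.node (.node (.node (.node .leaf 7574692 18831 .leaf) 7574693 21008 (.node .leaf 7574694 21137 .leaf)) 7574853 19547 (.node (.node .leaf 7574869 19543 .leaf) 7574870 17110 .leaf)) 7574885 17102 (.node (.node (.node .leaf 7574886 14993 .leaf) 7574901 18895 (.node .leaf 7574902 14993 .leaf)) 7574903 15123 (.node (.node .leaf 7574917 14993 .leaf) 7574918 14993 .leaf))) 7574930 19022 (.node (.node (.node (.node .leaf 7574931 19023 .leaf) 7574932 15056 (.node .leaf 7574934 17041 .leaf)) 7574935 17107 (.node (.node .leaf 7574948 18832 .leaf) 7574949 18961 .leaf)) 7574950 21138 (.node (.node (.node .leaf 7574951 21267 .leaf) 7574952 21396 (.node .leaf 7575141 17230 .leaf)) 7575157 18895 (.node (.node .leaf 7575158 14993 .leaf) 7575173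 14993 .leaf)))))) 7575174 14993 (.node (.node (.node (.node (.node (.node (.node .leaf 7575175 17235 .leaf) 7575176 17237 (.node .leaf 7575189 17042 .leaf)) 7575191 21268 (.node (.node .leaf 7575205 19025 .leaf) 7575206 19026 .leaf)) 7575207 21268 (.node (.node (.node .leaf 7575397 17358 .leaf) 7575413 18895 (.node .leaf 7575414 14993 .leaf)) 7575429 14993 (.node (.node .leaf 7575430 14993 .leaf) 7575462 19026 .leaf))) 7575620 10903 (.node (.node (.node (.node .leaf 7575621 17494 .leaf) 7575637 17490 (.node .leaf 7575638 17490 .leaf)) 7575653 17486 (.node (.node .leaf 7575654 14993 .leaf) 7575669 18895 .leaf)) 7575670 14993 (.node (.node (.node .leaf 7575876 10903 .leaf) 7575892 12948 (.node .leaf 7575893 17618 .leaf)) 7575909 17614 (.node (.node .leaf 7575910 14993 .leaf) 7575925 18895 .leaf)))) 7575926 14993 (.node (.node (.node (.node (.node .leaf 7577973 20943 .leaf) 7577974 14995 (.node .leaf 7577989 21073 .leaf)) 7577990 14995 (.node (.node .leaf 7578007 17172 .leaf) 7578675 8734 .leaf)) 7578692 10907 (.node (.node (.node .leaf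 7578709 12951 .leaf) 7578725 14995 (.node .leaf 7578741 20943 .leaf)) 7578757 16975 (.node (.node .leaf 7578758 17041 .leaf) 7578770 2637 .leaf))) 7578786 18702 (.node (.node (.node (.node .leaf 7578787 18702 .leaf) 7578804 20880 (.node .leaf 7578948 10909 .leaf)) 7578965 13082 (.node (.node .leaf 7578981 17102 .leaf) 7578982 14993 .leaf)) 7578998 14993 (.node (.node (.node .leaf 7579013 14993 .leaf) 7579014 14993 (.node .leaf 7579026 21070 .leaf)) 7579027 21071 (.node (.node .leaf 7579028 15056 .leaf) 7579029 18961 .leaf))))) 7579031 17107 (.node (.node (.node (.node (.node (.node .leaf 7579043 21072 .leaf) 7579044 18832 (.node .leaf 7579046 17106 .leaf)) 7579047 17107 (.node (.node .leaf 7579061 21010 .leaf) 7579062 23187 .leaf)) 7579237 17230 (.node (.node (.node .leaf 7579253 20943 .leaf) 7579269 21073 (.node .leaf 7579270 14993 .leaf)) 7579285 17042 (.node (.node .leaf 7579301 18962 .leaf) 7579525 21073 .leaf))) 7579716 10908 (.node (.node (.node (.node .leaf 7579733 17490 .leaf) 7579749 17486 (.node .leaf 7579750 14993 .leaf))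 7579765 20943 (.node (.node .leaf 7579766 14993 .leaf) 7579781 14993 .leaf)) 7579782 14993 (.node (.node (.node .leaf 7580005 17614 .leaf) 7580021 20943 (.node .leaf 7580022 14993 .leaf)) 7580037 14993 (.node (.node .leaf 7580038 14993 .leaf) 7582054 16594 .leaf)))) 7582085 23121 (.node (.node (.node (.node (.node .leaf 7582086 17043 .leaf) 7582771 8736 (.node .leaf 7582788 10909 .leaf)) 7582805 19032 (.node (.node .leaf 7582821 19029 .leaf) 7582837 16975 .leaf)) 7582853 16975 (.node (.node (.node .leaf 7582854 17041 .leaf) 7582869 16976 (.node .leaf 7583027 8739 .leaf)) 7583044 10911 (.node (.node .leaf 7583061 13084 .leaf) 7583077 17102 .leaf))) 7583078 14993 (.node (.node (.node (.node .leaf 7583094 14993 .leaf) 7583109 14993 (.node .leaf 7583110 14993 .leaf)) 7583124 15056 (.node (.node .leaf 7583126 17041 .leaf) 7583333 17230 .leaf)) 7583350 14993 (.node (.node (.node .leaf 7583365 14993 .leaf) 7583381 17042 (.node .leaf 7583382 17042 .leaf)) 7583383 17237 (.node (.node .leaf 7583397 18962 .leaf) 7583589 17358 .leaf)))))))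

def c56 : NatMap := (.node (.node (.node (.node (.node (.node (.node (.node .leaf 7583622 14993 .leaf) 7583877 23121 (.node .leaf 7584101 17614 .leaf)) 7584117 17616 (.node (.node .leaf 7584133 23121 .leaf) 7584134 14993 (.node .leaf 7607700 18831 .leaf))) 7607715 18831 (.node (.node (.node .leaf 7607716 18831 .leaf) 7607956 2769 (.node .leaf 7607957 2770 .leaf)) 7635302 17489 (.node (.node .leaf 7635319 13073 .leaf) 7636310 17493 .leaf))) 7636326 16593 (.node (.node (.node (.node .leaf 7636327 15121 .leaf) 7636342 17169 (.node .leaf 7636373 18960 .leaf)) 7636374 19089 (.node (.node .leaf 7636375 17169 .leaf) 7636390 19089 .leaf)) 7636391 19218 (.node (.node (.node .leaf 7636582 17361 .leaf) 7636598 17105 (.node .leaf 7636599 13073 .leaf)) 7636615 15122 (.node (.node .leaf 7636616 17300 .leaf) 7636629 17105 .leaf)))) 7636630 17106 (.node (.node (.node (.node (.node .leaf 7636631 17300 .leaf) 7636805 11029 (.node .leaf 7636822 13073 .leaf)) 7636838 17617 (.node (.node .leaf 7636839 13073 .leaf) 7636854 17105 .leaf)) 7636855 13073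 (.node (.node (.node .leaf 7636870 15123 .leaf) 7636872 17237 (.node .leaf 7636888 17237 .leaf)) 7637061 11029 (.node (.node .leaf 7637077 13073 .leaf) 7637078 13073 .leaf))) 7637094 17361 (.node (.node (.node (.node .leaf 7637095 13073 .leaf) 7637111 13073 (.node .leaf 7637333 13073 .leaf)) 7639398 16593 (.node (.node .leaf 7639414 19026 .leaf) 7639415 19156 .leaf)) 7639432 16598 (.node (.node (.node .leaf 7640389 11035 .leaf) 7640405 13079 (.node .leaf 7640406 13079 .leaf)) 7640422 15123 (.node (.node .leaf 7640438 17105 .leaf) 7640439 15123 .leaf))))) 7640454 17105 (.node (.node (.node (.node (.node (.node .leaf 7640467 2767 .leaf) 7640468 18832 (.node .leaf 7640470 17106 .leaf)) 7640471 19219 (.node (.node .leaf 7640484 18832 .leaf) 7640485 18961 .leaf)) 7640486 21138 (.node (.node (.node .leaf 7640487 19219 .leaf) 7640488 21396 (.node .leaf 7640694 19026 .leaf)) 7640695 17171 (.node (.node .leaf 7640710 19091 .leaf) 7640711 17171 .leaf))) 7640712 17237 (.node (.node (.node (.node .leaf 7640724 19153 .leaf) 7640725 17171 (.node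 .leaf 7640727 17171 .leaf)) 7640741 19154 (.node (.node .leaf 7640742 19091 .leaf) 7640743 19156 .leaf)) 7640744 17238 (.node (.node (.node .leaf 7640950 19026 .leaf) 7640951 19156 (.node .leaf 7640966 19283 .leaf)) 7640967 15124 (.node (.node .leaf 7640981 19283 .leaf) 7640982 17173 .leaf)))) 7640998 19155 (.node (.node (.node (.node (.node .leaf 7640999 19156 .leaf) 7641157 11034 (.node .leaf 7641173 13078 .leaf)) 7641174 17493 (.node (.node .leaf 7641190 17489 .leaf) 7641191 15124 .leaf)) 7641206 19026 (.node (.node (.node .leaf 7641207 15124 .leaf) 7641429 13078 (.node .leaf 7641446 17617 .leaf)) 7641462 19026 (.node (.node .leaf 7641463 19156 .leaf) 7641479 15124 .leaf))) 7643511 15124 (.node (.node (.node (.node .leaf 7643526 21203 .leaf) 7643543 17173 (.node .leaf 7644484 10909 .leaf)) 7644501 13082 (.node (.node .leaf 7644518 15126 .leaf) 7644534 17105 .leaf)) 7644550 17105 (.node (.node (.node .leaf 7644551 17171 .leaf) 7644563 2767 (.node .leaf 7644564 17104 .leaf)) 7644565 18961 (.node (.node .leaf 7644567 17171 .leaf)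 7644579 18832 .leaf)))))) 7644580 18832 (.node (.node (.node (.node (.node (.node (.node .leaf 7644582 19155 .leaf) 7644583 19156 (.node .leaf 7644597 21010 .leaf)) 7644806 21203 (.node (.node .leaf 7644807 17172 .leaf) 7644808 17237 .leaf)) 7644820 21201 (.node (.node (.node .leaf 7644823 17172 .leaf) 7644836 21202 (.node .leaf 7644837 19091 .leaf)) 7644853 21203 (.node (.node .leaf 7644854 21204 .leaf) 7645062 21203 .leaf))) 7645077 21331 (.node (.node (.node (.node .leaf 7645079 21205 .leaf) 7645269 13083 (.node .leaf 7645286 17489 .leaf)) 7645302 17491 (.node (.node .leaf 7645303 15124 .leaf) 7645318 21203 .leaf)) 7645558 17619 (.node (.node (.node .leaf 7645574 21203 .leaf) 7647590 16593 (.node .leaf 7647607 16597 .leaf)) 7647622 23251 (.node (.node .leaf 7647623 17173 .leaf) 7648563 8739 .leaf)))) 7648580 10911 (.node (.node (.node (.node (.node .leaf 7648597 13084 .leaf) 7648614 19159 (.node .leaf 7648630 17105 .leaf)) 7648646 17105 (.node (.node .leaf 7648660 17104 .leaf) 7648662 17106 .leaf)) 7648887 15124 (.node (.node (.node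 .leaf 7648916 23249 .leaf) 7648917 21331 (.node .leaf 7648918 19091 .leaf)) 7648919 17237 (.node (.node .leaf 7648933 19091 .leaf) 7649158 23251 .leaf))) 7649173 23379 (.node (.node (.node (.node .leaf 7649175 17173 .leaf) 7649670 23251 (.node .leaf 7673493 18962 .leaf)) 7673749 2899 (.node (.node .leaf 7700855 17235 .leaf) 7700872 15253 .leaf)) 7702151 15251 (.node (.node (.node .leaf 7702152 15251 .leaf) 7702166 19090 (.node .leaf 7702167 17300 .leaf)) 7702168 17300 (.node (.node .leaf 7702184 19349 .leaf) 7702358 13204 .leaf))))) 7702391 17235 (.node (.node (.node (.node (.node (.node .leaf 7702392 13204 .leaf) 7702408 15253 (.node .leaf 7702424 17430 .leaf)) 7702614 13204 (.node (.node .leaf 7702647 17235 .leaf) 7702648 13204 .leaf)) 7702663 15253 (.node (.node (.node .leaf 7704951 19156 .leaf) 7704968 15254 (.node .leaf 7706231 17235 .leaf)) 7706247 17236 (.node (.node .leaf 7706248 17302 .leaf) 7706261 18962 .leaf))) 7706263 21268 (.node (.node (.node (.node .leaf 7706277 18962 .leaf) 7706278 19092 (.node .leaf 7706279 21268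 .leaf)) 7706487 19156 (.node (.node .leaf 7706503 19286 .leaf) 7706504 17302 .leaf)) 7706517 19284 (.node (.node (.node .leaf 7706518 19093 .leaf) 7706520 17302 (.node .leaf 7706534 19284 .leaf)) 7706535 19222 (.node (.node .leaf 7706536 19287 .leaf) 7706710 13209 .leaf)))) 7706727 17492 (.node (.node (.node (.node (.node .leaf 7706743 19156 .leaf) 7706744 15254 (.node .leaf 7706999 19156 .leaf)) 7707015 19286 (.node (.node .leaf 7709047 16597 .leaf) 7710343 17236 .leaf)) 7710344 17302 (.node (.node (.node .leaf 7710357 18962 .leaf) 7710359 17237 (.node .leaf 7710372 18962 .leaf)) 7710373 18962 (.node (.node .leaf 7710390 23188 .leaf) 7710614 19093 .leaf))) 7710615 21334 (.node (.node (.node (.node .leaf 7710839 17493 .leaf) 7713159 15254 (.node .leaf 7713160 15254 .leaf)) 7714423 17235 (.node (.node .leaf 7714440 19350 .leaf) 7714453 18962 .leaf)) 7714454 19092 (.node (.node (.node .leaf 7714455 17237 .leaf) 7714469 18962 (.node .leaf 7714696 17366 .leaf)) 7714710 19093 (.node (.node .leaf 7714711 23382 .leaf) 7714712 17367 .leaf)))))))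

def c57 : NatMap := (.node (.node (.node (.node (.node (.node (.node (.node .leaf 7767960 17430 .leaf) 7772040 17366 (.node .leaf 7772053 3028 .leaf)) 7772054 19093 (.node (.node .leaf 7772056 17367 .leaf) 7772070 19093 (.node .leaf 7772071 19222 .leaf))) 7772072 21399 (.node (.node (.node .leaf 7772280 17495 .leaf) 7776149 3028 (.node .leaf 7776151 19222 .leaf)) 7778696 23513 (.node (.node .leaf 7780245 3028 .leaf) 7780247 19222 .leaf))) 7780248 17367 (.node (.node (.node (.node .leaf 8458883 2241 .leaf) 8458884 18826 (.node .leaf 8458899 22857 .leaf)) 8458900 18826 (.node (.node .leaf 8458914 18826 .leaf) 8458915 18826 .leaf)) 8458916 18826 (.node (.node (.node .leaf 8458932 20875 .leaf) 8459155 14786 (.node .leaf 8459156 2380 .leaf)) 8459170 2379 (.node (.node .leaf 8459171 2379 .leaf) 8459172 2380 .leaf)))) 8459188 2380 (.node (.node (.node (.node (.node .leaf 8459379 19010 .leaf) 8459396 16771 (.node .leaf 8459411 14914 .leaf)) 8459427 2379 (.node (.node .leaf 8459635 19138 .leaf) 8459636 16771 .leaf)) 8459652 16771 (.node (.node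 (.node .leaf 8459667 15042 .leaf) 8459668 16771 (.node .leaf 8459683 2379 .leaf)) 8459891 19266 (.node (.node .leaf 8459892 16771 .leaf) 8459908 16771 .leaf))) 8459923 15170 (.node (.node (.node (.node .leaf 8476019 19138 .leaf) 8479619 12481 (.node .leaf 8479875 12481 .leaf)) 8479876 16771 (.node (.node .leaf 8480116 16771 .leaf) 8480131 12481 .leaf)) 8480132 16771 (.node (.node (.node .leaf 8480147 15042 .leaf) 8480371 19266 (.node .leaf 8480387 12481 .leaf)) 8480643 12481 (.node (.node .leaf 8480899 12481 .leaf) 8481155 12481 .leaf))))) 8483459 15171 (.node (.node (.node (.node (.node (.node .leaf 8484228 18818 .leaf) 8484243 14914 (.node .leaf 8484244 18818 .leaf)) 8484467 19266 (.node (.node .leaf 8484468 16771 .leaf) 8484723 19394 .leaf)) 8484724 16771 (.node (.node (.node .leaf 8491571 19673 .leaf) 8491587 19670 (.node .leaf 8491603 19282 .leaf)) 8491619 19276 (.node (.node .leaf 8491635 18882 .leaf) 8491636 16777 .leaf))) 8491651 19011 (.node (.node (.node (.node .leaf 8491668 16777 .leaf) 8491682 18825 (.node .leaf 8491683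 18825 .leaf)) 8491684 18825 (.node (.node .leaf 8491685 22861 .leaf) 8491686 22865 .leaf)) 8491844 19670 (.node (.node (.node .leaf 8491860 19666 .leaf) 8491876 14722 (.node .leaf 8491891 19010 .leaf)) 8491892 14722 (.node (.node .leaf 8491893 14860 .leaf) 8491908 14722 .leaf)))) 8491924 16777 (.node (.node (.node (.node (.node .leaf 8491925 16910 .leaf) 8491938 18762 (.node .leaf 8491939 18763 .leaf)) 8491940 20878 (.node (.node .leaf 8491941 21007 .leaf) 8492101 10902 .leaf)) 8492117 12812 (.node (.node (.node .leaf 8492133 14860 .leaf) 8492147 18882 (.node .leaf 8492148 14722 .leaf)) 8492164 14722 (.node (.node .leaf 8492179 14914 .leaf) 8492196 18831 .leaf))) 8492197 21008 (.node (.node (.node (.node .leaf 8492373 12812 .leaf) 8492388 14722 (.node .leaf 8492390 14989 .leaf)) 8492403 19650 (.node (.node .leaf 8492404 14722 .leaf) 8492405 14860 .leaf)) 8492406 14989 (.node (.node (.node .leaf 8492407 15122 .leaf) 8492419 14722 (.node .leaf 8492420 14722 .leaf)) 8492422 14989 (.node (.node .leaf 8492435 15042 .leaf) 8492436 16771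 .leaf)))))) 8492453 18896 (.node (.node (.node (.node (.node (.node (.node .leaf 8492454 21138 .leaf) 8492644 14722 (.node .leaf 8492659 19394 .leaf)) 8492660 14722 (.node (.node .leaf 8492661 12812 .leaf) 8492676 14722 .leaf)) 8492678 14989 (.node (.node (.node .leaf 8492709 18896 .leaf) 8492915 19266 (.node .leaf 8492916 14722 .leaf)) 8493124 10898 (.node (.node .leaf 8493125 10898 .leaf) 8493141 12812 .leaf))) 8493157 12812 (.node (.node (.node (.node .leaf 8493158 12941 .leaf) 8493171 19650 (.node .leaf 8493172 14722 .leaf)) 8493174 14989 (.node (.node .leaf 8493363 8726 .leaf) 8493379 10770 .leaf)) 8493380 10770 (.node (.node (.node .leaf 8493396 12812 .leaf) 8493412 14722 (.node .leaf 8493413 12812 .leaf)) 8493427 19394 (.node (.node .leaf 8493428 14722 .leaf) 8495667 8732 .leaf)))) 8495683 10648 (.node (.node (.node (.node (.node .leaf 8495699 12692 .leaf) 8495715 14734 (.node .leaf 8495732 16777 .leaf)) 8495733 16907 (.node (.node .leaf 8495747 20673 .leaf) 8495748 16777 .leaf)) 8495749 16907 (.node (.node (.node .leaf 8495763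 22857 .leaf) 8495764 16777 (.node .leaf 8495765 16907 .leaf)) 8495777 18762 (.node (.node .leaf 8495779 18825 .leaf) 8495780 18825 .leaf))) 8495781 21003 (.node (.node (.node (.node .leaf 8495794 20618 .leaf) 8495795 21003 (.node .leaf 8495796 21003 .leaf)) 8495797 21003 (.node (.node .leaf 8495940 18905 .leaf) 8495955 21335 .leaf)) 8495957 18902 (.node (.node (.node .leaf 8495972 18898 .leaf) 8495987 18882 (.node .leaf 8495988 16777 .leaf)) 8496003 20673 (.node (.node .leaf 8496004 16777 .leaf) 8496005 21198 .leaf))))) 8496006 17040 (.node (.node (.node (.node (.node (.node .leaf 8496019 16777 .leaf) 8496020 16777 (.node .leaf 8496021 16910 .leaf)) 8496033 20810 (.node (.node .leaf 8496034 2509 .leaf) 8496036 20811 .leaf)) 8496037 18959 (.node (.node (.node .leaf 8496038 21136 .leaf) 8496050 20811 (.node .leaf 8496051 20811 .leaf)) 8496052 20811 (.node (.node .leaf 8496053 21136 .leaf) 8496196 19033 .leaf))) 8496213 19030 (.node (.node (.node (.node .leaf 8496229 19021 .leaf) 8496243 19010 (.node .leaf 8496244 16771 .leaf)) 8496245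 19021 (.node (.node .leaf 8496259 20673 .leaf) 8496260 16771 .leaf)) 8496276 16771 (.node (.node (.node .leaf 8496291 2639 .leaf) 8496308 20811 (.node .leaf 8496469 19154 .leaf)) 8496486 14990 (.node (.node .leaf 8496499 19138 .leaf) 8496500 16771 .leaf)))) 8496501 19149 (.node (.node (.node (.node (.node .leaf 8496515 20673 .leaf) 8496516 16771 (.node .leaf 8496517 16909 .leaf)) 8496518 17038 (.node (.node .leaf 8496531 15042 .leaf) 8496532 16771 .leaf)) 8496534 17038 (.node (.node (.node .leaf 8496535 19155 .leaf) 8496548 18960 (.node .leaf 8496723 19282 .leaf)) 8496739 19276 (.node (.node .leaf 8496740 19276 .leaf) 8496755 19266 .leaf))) 8496756 16771 (.node (.node (.node (.node .leaf 8496757 14861 .leaf) 8496771 20673 (.node .leaf 8496772 16771 .leaf)) 8496774 14990 (.node (.node .leaf 8497011 19394 .leaf) 8497012 16771 .leaf)) 8497027 20673 (.node (.node (.node .leaf 8497028 16771 .leaf) 8497220 19542 (.node .leaf 8497237 19538 .leaf)) 8497254 14990 (.node (.node .leaf 8497267 19522 .leaf) 8497268 16771 .leaf)))))))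

def c58 : NatMap := (.node (.node (.node (.node (.node (.node (.node (.node .leaf 8497270 14990 .leaf) 8497271 15123 (.node .leaf 8497283 20673 .leaf)) 8497284 16771 (.node (.node .leaf 8497285 16909 .leaf) 8497286 14990 (.node .leaf 8497491 19666 .leaf))) 8497508 19660 (.node (.node (.node .leaf 8497509 19661 .leaf) 8497523 19650 (.node .leaf 8497524 16771 .leaf)) 8497525 19661 (.node (.node .leaf 8497526 14990 .leaf) 8497539 20673 .leaf))) 8497540 16771 (.node (.node (.node (.node .leaf 8497541 16909 .leaf) 8497542 14990 (.node .leaf 8499763 8478 .leaf)) 8499795 12566 (.node (.node .leaf 8499827 16907 .leaf) 8499843 22721 .leaf)) 8499844 18825 (.node (.node (.node .leaf 8499845 16907 .leaf) 8499846 17037 (.node .leaf 8499859 20809 .leaf)) 8499860 18825 (.node (.node .leaf 8499861 16907 .leaf) 8499862 19085 .leaf)))) 8499877 18955 (.node (.node (.node (.node (.node .leaf 8500019 8736 .leaf) 8500036 18905 (.node .leaf 8500053 18902 .leaf)) 8500068 18898 (.node (.node .leaf 8500083 18882 .leaf) 8500084 16777 .leaf)) 8500100 16777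 (.node (.node (.node .leaf 8500101 22861 .leaf) 8500102 19088 (.node .leaf 8500115 16777 .leaf)) 8500116 16777 (.node (.node .leaf 8500117 22861 .leaf) 8500292 19033 .leaf))) 8500309 19030 (.node (.node (.node (.node .leaf 8500339 19010 .leaf) 8500340 16771 (.node .leaf 8500356 16771 .leaf)) 8500371 14914 (.node (.node .leaf 8500372 16771 .leaf) 8500595 19138 .leaf)) 8500596 16771 (.node (.node (.node .leaf 8500612 16771 .leaf) 8500627 15042 (.node .leaf 8500628 16771 .leaf)) 8500851 19266 (.node (.node .leaf 8500852 16771 .leaf) 8500868 16771 .leaf))))) 8500869 22861 (.node (.node (.node (.node (.node (.node .leaf 8500883 15170 .leaf) 8500884 16771 (.node .leaf 8501107 19394 .leaf)) 8501108 16771 (.node (.node .leaf 8501124 16771 .leaf) 8501139 15298 .leaf)) 8501140 16771 (.node (.node (.node .leaf 8501363 19522 .leaf) 8501364 16771 (.node .leaf 8501380 16771 .leaf)) 8501382 17039 (.node (.node .leaf 8501395 15426 .leaf) 8501396 16771 .leaf))) 8501397 22861 (.node (.node (.node (.node .leaf 8501604 19660 .leaf) 8501619 19650 (.node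 .leaf 8501620 16771 .leaf)) 8501636 16771 (.node (.node .leaf 8501651 15554 .leaf) 8501652 16771 .leaf)) 8524692 20877 (.node (.node (.node .leaf 8524706 18892 .leaf) 8524707 20749 (.node .leaf 8524708 20877 .leaf)) 8524724 20877 (.node (.node .leaf 8524932 2893 .leaf) 8524962 2509 .leaf)))) 8524963 2509 (.node (.node (.node (.node (.node .leaf 8525172 19147 .leaf) 8525204 16909 (.node .leaf 8525220 20880 .leaf)) 8525428 19275 (.node (.node .leaf 8525429 16909 .leaf) 8545412 13005 .leaf)) 8545652 19147 (.node (.node (.node .leaf 8549780 16909 .leaf) 8550004 19275 (.node .leaf 8550260 19403 .leaf)) 8556902 19538 (.node (.node .leaf 8556916 19019 .leaf) 8556917 19153 .leaf))) 8556919 19156 (.node (.node (.node (.node .leaf 8557380 19672 .leaf) 8557396 19669 (.node .leaf 8557397 19541 .leaf)) 8557412 19281 (.node (.node .leaf 8557428 19019 .leaf) 8557429 16910 .leaf)) 8557444 19277 (.node (.node (.node .leaf 8557461 16910 .leaf) 8557475 20748 (.node .leaf 8557476 20878 .leaf)) 8557477 18958 (.node (.node .leaf 8557636 19672 .leaf) 8557637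 19544 .leaf)))))) 8557653 19541 (.node (.node (.node (.node (.node (.node (.node .leaf 8557668 14859 .leaf) 8557669 14859 (.node .leaf 8557684 19147 .leaf)) 8557685 14859 (.node (.node .leaf 8557701 14859 .leaf) 8557717 16909 .leaf)) 8557731 18894 (.node (.node (.node .leaf 8557732 18895 .leaf) 8557733 21008 (.node .leaf 8557734 21137 .leaf)) 8557909 12817 (.node (.node .leaf 8557924 14859 .leaf) 8557926 14993 .leaf))) 8557940 19659 (.node (.node (.node (.node .leaf 8557941 14859 .leaf) 8557942 14993 (.node .leaf 8557957 14859 .leaf)) 8557958 14993 (.node (.node .leaf 8557972 16909 .leaf) 8557975 17170 .leaf)) 8557989 18961 (.node (.node (.node .leaf 8557990 21138 .leaf) 8557991 21267 (.node .leaf 8558163 12817 .leaf)) 8558179 14859 (.node (.node .leaf 8558180 14859 .leaf) 8558196 19019 .leaf)))) 8558197 14859 (.node (.node (.node (.node (.node .leaf 8558213 14859 .leaf) 8558214 14993 (.node .leaf 8558215 17170 .leaf)) 8558231 17170 (.node (.node .leaf 8558245 19025 .leaf) 8558246 21138 .leaf)) 8558452 19275 (.node (.node (.node .leaf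 8558453 14859 .leaf) 8558660 10901 (.node .leaf 8558661 10901 .leaf)) 8558677 12945 (.node (.node .leaf 8558678 12945 .leaf) 8558692 14859 .leaf))) 8558693 14859 (.node (.node (.node (.node .leaf 8558694 12945 .leaf) 8558708 19403 (.node .leaf 8558709 14859 .leaf)) 8558899 8728 (.node (.node .leaf 8558915 10773 .leaf) 8558916 10773 .leaf)) 8558931 12817 (.node (.node (.node .leaf 8558932 12817 .leaf) 8558933 12817 (.node .leaf 8558948 14859 .leaf)) 8558949 14859 (.node (.node .leaf 8558964 19531 .leaf) 8558965 14859 .leaf))))) 8560998 14996 (.node (.node (.node (.node (.node (.node .leaf 8561012 16910 .leaf) 8561013 16910 (.node .leaf 8561029 16910 .leaf)) 8561030 17043 (.node (.node .leaf 8561047 17172 .leaf) 8561476 10907 .leaf)) 8561491 12823 (.node (.node (.node .leaf 8561493 12823 .leaf) 8561508 14867 (.node .leaf 8561524 16910 .leaf)) 8561525 16910 (.node (.node .leaf 8561540 20811 .leaf) 8561541 16910 .leaf))) 8561542 17040 (.node (.node (.node (.node .leaf 8561556 22990 .leaf) 8561557 16910 (.node .leaf 8561572 22926 .leaf))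 8561573 18959 (.node (.node .leaf 8561574 21136 .leaf) 8561586 20620 .leaf)) 8561587 20750 (.node (.node (.node .leaf 8561588 22926 .leaf) 8561589 21136 (.node .leaf 8561732 21597 .leaf)) 8561749 19032 (.node (.node .leaf 8561765 19029 .leaf) 8561780 19019 .leaf)))) 8561781 16909 (.node (.node (.node (.node (.node .leaf 8561796 20811 .leaf) 8561797 16909 (.node .leaf 8561812 16909 .leaf)) 8561813 16909 (.node (.node .leaf 8561826 20942 .leaf) 8561827 2639 .leaf)) 8561829 20944 (.node (.node (.node .leaf 8561843 20942 .leaf) 8561844 20880 (.node .leaf 8561845 20945 .leaf)) 8562005 19160 (.node (.node .leaf 8562022 19154 .leaf) 8562036 19147 .leaf))) 8562037 16909 (.node (.node (.node (.node .leaf 8562038 19154 .leaf) 8562052 20811 (.node .leaf 8562053 16909 .leaf)) 8562054 17042 (.node (.node .leaf 8562068 16909 .leaf) 8562069 16909 .leaf)) 8562070 17042 (.node (.node (.node .leaf 8562071 17171 .leaf) 8562083 21072 (.node .leaf 8562084 18961 .leaf)) 8562086 19155 (.node (.node .leaf 8562101 20945 .leaf) 8562259 12822 .leaf)))))))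

def c59 : NatMap := (.node (.node (.node (.node (.node (.node (.node (.node .leaf 8562276 19281 .leaf) 8562292 19275 (.node .leaf 8562293 16909 .leaf)) 8562308 20811 (.node (.node .leaf 8562309 16909 .leaf) 8562310 14994 (.node .leaf 8562324 16909 .leaf))) 8562325 16909 (.node (.node (.node .leaf 8562327 17171 .leaf) 8562548 19403 (.node .leaf 8562564 20811 .leaf)) 8562565 16909 (.node (.node .leaf 8562756 19544 .leaf) 8562773 19541 .leaf))) 8562789 19537 (.node (.node (.node (.node .leaf 8562790 19538 .leaf) 8562804 19531 (.node .leaf 8562805 16909 .leaf)) 8562806 19538 (.node (.node .leaf 8562807 15123 .leaf) 8562820 20811 .leaf)) 8562821 16909 (.node (.node (.node .leaf 8562822 14994 .leaf) 8562823 15123 (.node .leaf 8563027 12822 .leaf)) 8563044 19665 (.node (.node .leaf 8563045 19665 .leaf) 8563060 19659 .leaf)))) 8563061 16909 (.node (.node (.node (.node (.node .leaf 8563062 14994 .leaf) 8563076 20811 (.node .leaf 8563077 16909 .leaf)) 8563078 14994 (.node (.node .leaf 8565125 16912 .leaf) 8565126 22994 .leaf)) 8565140 22990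 (.node (.node (.node .leaf 8565141 16912 .leaf) 8565555 8736 (.node .leaf 8565572 10909 .leaf)) 8565589 12825 (.node (.node .leaf 8565604 14869 .leaf) 8565620 16912 .leaf))) 8565636 22859 (.node (.node (.node (.node .leaf 8565637 18958 .leaf) 8565652 18894 (.node .leaf 8565653 18958 .leaf)) 8565828 10911 (.node (.node .leaf 8565845 19032 .leaf) 8565861 19029 .leaf)) 8565876 19019 (.node (.node (.node .leaf 8565877 16909 .leaf) 8565893 16909 (.node .leaf 8565908 16909 .leaf)) 8565909 16909 (.node (.node .leaf 8566084 23008 .leaf) 8566101 19160 .leaf))))) 8566118 19154 (.node (.node (.node (.node (.node (.node .leaf 8566132 19147 .leaf) 8566133 16909 (.node .leaf 8566149 16909 .leaf)) 8566164 16909 (.node (.node .leaf 8566165 16909 .leaf) 8566388 19275 .leaf)) 8566389 16909 (.node (.node (.node .leaf 8566404 22859 .leaf) 8566405 16909 (.node .leaf 8566420 16909 .leaf)) 8566421 16909 (.node (.node .leaf 8566644 19403 .leaf) 8566645 16909 .leaf))) 8566661 16909 (.node (.node (.node (.node .leaf 8566676 16909 .leaf) 8566677 16909 (.node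 .leaf 8566900 19531 .leaf)) 8566917 16909 (.node (.node .leaf 8566918 22994 .leaf) 8566932 16909 .leaf)) 8566933 16909 (.node (.node (.node .leaf 8567140 19665 .leaf) 8567156 19659 (.node .leaf 8567157 16909 .leaf)) 8567173 16909 (.node (.node .leaf 8567188 16909 .leaf) 8567189 16909 .leaf)))) 8590499 20750 (.node (.node (.node (.node (.node .leaf 8590741 21009 .leaf) 8590755 2639 (.node .leaf 8590965 19280 .leaf)) 8622438 14994 (.node (.node .leaf 8622453 19280 .leaf) 8622454 14994 .leaf)) 8622455 13076 (.node (.node (.node .leaf 8622472 15253 .leaf) 8623173 19547 (.node .leaf 8623189 19543 .leaf)) 8623205 19668 (.node (.node .leaf 8623221 19536 .leaf) 8623222 17040 .leaf))) 8623268 20879 (.node (.node (.node (.node .leaf 8623269 21008 .leaf) 8623270 19089 (.node .leaf 8623445 19671 .leaf)) 8623446 19543 (.node (.node .leaf 8623460 14992 .leaf) 8623462 14992 .leaf)) 8623477 19536 (.node (.node (.node .leaf 8623478 14992 .leaf) 8623479 15123 (.node .leaf 8623493 14992 .leaf)) 8623494 14992 (.node (.node .leaf 8623510 17042 .leaf)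 8623524 19024 .leaf)))))) 8623525 19025 (.node (.node (.node (.node (.node (.node (.node .leaf 8623526 21138 .leaf) 8623527 21267 (.node .leaf 8623716 14992 .leaf)) 8623733 19152 (.node (.node .leaf 8623734 14992 .leaf) 8623749 19024 .leaf)) 8623750 14992 (.node (.node (.node .leaf 8623752 17300 .leaf) 8623765 17042 (.node .leaf 8623781 19025 .leaf)) 8623782 21139 (.node (.node .leaf 8623783 21268 .leaf) 8623989 19664 .leaf))) 8623990 14992 (.node (.node (.node (.node .leaf 8624006 14992 .leaf) 8624038 19155 (.node .leaf 8624196 10903 .leaf)) 8624197 10903 (.node (.node .leaf 8624213 13076 .leaf) 8624214 13076 .leaf)) 8624229 14992 (.node (.node (.node .leaf 8624230 14992 .leaf) 8624245 19664 (.node .leaf 8624246 14992 .leaf)) 8624452 10903 (.node (.node .leaf 8624468 12948 .leaf) 8624469 12948 .leaf)))) 8624484 14992 (.node (.node (.node (.node (.node .leaf 8624485 14992 .leaf) 8624486 14992 (.node .leaf 8624501 19152 .leaf)) 8624502 14992 (.node (.node .leaf 8626534 18644 .leaf) 8626549 18642 .leaf)) 8626550 17043 (.node (.node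 (.node .leaf 8626551 18645 .leaf) 8626565 20944 (.node .leaf 8626566 17043 .leaf)) 8626568 19350 (.node (.node .leaf 8626583 17173 .leaf) 8627268 10909 .leaf))) 8627285 12954 (.node (.node (.node (.node .leaf 8627301 14998 .leaf) 8627317 17042 (.node .leaf 8627333 20944 .leaf)) 8627334 17042 (.node (.node .leaf 8627349 19025 .leaf) 8627363 2639 .leaf)) 8627365 19025 (.node (.node (.node .leaf 8627379 20751 .leaf) 8627380 20880 (.node .leaf 8627381 23057 .leaf)) 8627541 21596 (.node (.node .leaf 8627558 19159 .leaf) 8627573 19152 .leaf))))) 8627574 17042 (.node (.node (.node (.node (.node (.node .leaf 8627589 20944 .leaf) 8627590 17042 (.node .leaf 8627605 17042 .leaf)) 8627606 17042 (.node (.node .leaf 8627607 19156 .leaf) 8627619 21072 .leaf)) 8627620 2769 (.node (.node (.node .leaf 8627622 19090 .leaf) 8627623 21268 (.node .leaf 8627636 20881 .leaf)) 8627637 21010 (.node (.node .leaf 8627638 23187 .leaf) 8627812 14997 .leaf))) 8627829 19280 (.node (.node (.node (.node .leaf 8627845 20944 .leaf) 8627846 17042 (.node .leaf 8627847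 19284 .leaf)) 8627861 17042 (.node (.node .leaf 8627862 17042 .leaf) 8627863 17173 .leaf)) 8627877 19283 (.node (.node (.node .leaf 8628101 20944 .leaf) 8628102 17042 (.node .leaf 8628292 10908 .leaf)) 8628309 19543 (.node (.node .leaf 8628325 19540 .leaf) 8628326 19540 .leaf)))) 8628341 19536 (.node (.node (.node (.node (.node .leaf 8628342 17042 .leaf) 8628343 15125 (.node .leaf 8628357 20944 .leaf)) 8628358 17042 (.node (.node .leaf 8628359 15125 .leaf) 8628580 14997 .leaf)) 8628581 19668 (.node (.node (.node .leaf 8628597 19664 .leaf) 8628598 17042 (.node .leaf 8628613 20944 .leaf)) 8628614 17042 (.node (.node .leaf 8630661 22992 .leaf) 8630662 17044 .leaf))) 8630677 23122 (.node (.node (.node (.node .leaf 8630678 17044 .leaf) 8631364 10911 (.node .leaf 8631381 12956 .leaf)) 8631397 15000 (.node (.node .leaf 8631413 17044 .leaf) 8631429 22992 .leaf)) 8631430 19090 (.node (.node (.node .leaf 8631445 19025 .leaf) 8631446 19090 (.node .leaf 8631620 10914 .leaf)) 8631637 13086 (.node (.node .leaf 8631654 19159 .leaf) 8631669 19152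 .leaf)))))))

def c60 : NatMap := (.node (.node (.node (.node (.node (.node (.node (.node .leaf 8631685 22992 .leaf) 8631686 17042 (.node .leaf 8631701 23122 .leaf)) 8631702 17042 (.node (.node .leaf 8631925 19280 .leaf) 8631926 17042 (.node .leaf 8631941 22992 .leaf))) 8631957 17042 (.node (.node (.node .leaf 8631958 17042 .leaf) 8631959 19285 (.node .leaf 8631973 19283 .leaf)) 8632181 19408 (.node (.node .leaf 8632198 17042 .leaf) 8632213 17042 .leaf))) 8632214 17042 (.node (.node (.node (.node .leaf 8632454 17042 .leaf) 8632469 17042 (.node .leaf 8632470 17042 .leaf)) 8632676 15002 (.node (.node .leaf 8632693 19664 .leaf) 8632694 17042 .leaf)) 8632710 17042 (.node (.node (.node .leaf 8632725 23122 .leaf) 8632726 17042 (.node .leaf 8656292 20880 .leaf)) 8687974 15123 (.node (.node .leaf 8687991 15123 .leaf) 8688982 19546 .leaf)))) 8688998 19670 (.node (.node (.node (.node (.node .leaf 8689014 17170 .leaf) 8689015 17170 (.node .leaf 8689046 17170 .leaf)) 8689047 17170 (.node (.node .leaf 8689061 21009 .leaf) 8689062 21138 .leaf))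 8689063 21267 (.node (.node (.node .leaf 8689286 19154 .leaf) 8689287 15123 (.node .leaf 8689303 17172 .leaf)) 8689317 19154 (.node (.node .leaf 8689318 19155 .leaf) 8689319 21269 .leaf))) 8689320 21398 (.node (.node (.node (.node .leaf 8689526 19667 .leaf) 8689527 15123 (.node .leaf 8689542 19154 .leaf)) 8689543 15123 (.node (.node .leaf 8689558 17172 .leaf) 8689575 21270 .leaf)) 8689733 11034 (.node (.node (.node .leaf 8689749 13078 .leaf) 8689750 13078 (.node .leaf 8689765 15123 .leaf)) 8689766 15123 (.node (.node .leaf 8689767 15123 .leaf) 8689782 18643 .leaf))))) 8689783 15123 (.node (.node (.node (.node (.node (.node .leaf 8690005 13078 .leaf) 8690021 15123 (.node .leaf 8690022 15123 .leaf)) 8690038 19539 (.node (.node .leaf 8690039 15123 .leaf) 8690055 15123 .leaf)) 8692070 18646 (.node (.node (.node .leaf 8692086 18643 .leaf) 8692087 17173 (.node .leaf 8692102 21075 .leaf)) 8692103 17173 (.node (.node .leaf 8692104 18647 .leaf) 8692119 17173 .leaf))) 8693077 13084 (.node (.node (.node (.node .leaf 8693094 15129 .leaf) 8693110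 17173 (.node .leaf 8693126 19154 .leaf)) 8693127 17173 (.node (.node .leaf 8693142 19155 .leaf) 8693143 21268 .leaf)) 8693155 2768 (.node (.node (.node .leaf 8693156 20881 .leaf) 8693158 19155 (.node .leaf 8693172 20881 .leaf)) 8693173 21010 (.node (.node .leaf 8693174 23187 .leaf) 8693382 21075 .leaf)))) 8693383 17173 (.node (.node (.node (.node (.node .leaf 8693384 19287 .leaf) 8693398 21140 (.node .leaf 8693399 17173 .leaf)) 8693412 21202 (.node (.node .leaf 8693415 21205 .leaf) 8693429 21203 .leaf)) 8693430 21140 (.node (.node (.node .leaf 8693638 21075 .leaf) 8693655 21205 (.node .leaf 8693845 13083 .leaf)) 8693861 15128 (.node (.node .leaf 8693862 19542 .leaf) 8693878 19539 .leaf))) 8693879 17173 (.node (.node (.node (.node .leaf 8693894 21075 .leaf) 8693895 17173 (.node .leaf 8694117 15128 .leaf)) 8694134 19667 (.node (.node .leaf 8694150 21075 .leaf) 8694151 17173 .leaf)) 8696183 17173 (.node (.node (.node .leaf 8696198 23124 .leaf) 8696199 17173 (.node .leaf 8696214 17173 .leaf)) 8696215 17173 (.node (.node .leaf 8697156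 10914 .leaf) 8697173 13086 .leaf)))))) 8697190 15131 (.node (.node (.node (.node (.node (.node (.node .leaf 8697206 17175 .leaf) 8697222 19154 (.node .leaf 8697238 19155 .leaf)) 8697239 19221 (.node (.node .leaf 8697462 19283 .leaf) 8697494 21140 .leaf)) 8697495 19221 (.node (.node (.node .leaf 8697496 19351 .leaf) 8697734 23124 (.node .leaf 8697750 23253 .leaf)) 8697751 17173 (.node (.node .leaf 8698006 23253 .leaf) 8698230 19667 .leaf))) 8698246 23124 (.node (.node (.node (.node .leaf 8698247 17173 .leaf) 8698262 17173 (.node .leaf 8753510 15253 .leaf)) 8753527 19669 (.node (.node .leaf 8753544 15253 .leaf) 8754823 19349 .leaf)) 8754824 19349 (.node (.node (.node .leaf 8754854 21139 .leaf) 8754855 21269 (.node .leaf 8754856 19349 .leaf)) 8755079 19285 (.node (.node .leaf 8755080 15253 .leaf) 8755096 17303 .leaf)))) 8755110 19285 (.node (.node (.node (.node (.node .leaf 8755111 19286 .leaf) 8755112 21399 (.node .leaf 8755286 13209 .leaf)) 8755302 15253 (.node (.node .leaf 8755303 15253 .leaf) 8755319 18645 .leaf)) 8755320 15253 (.node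 (.node (.node .leaf 8755558 15253 .leaf) 8757606 15258 (.node .leaf 8757623 18645 .leaf)) 8757639 21206 (.node (.node .leaf 8757640 21336 .leaf) 8758919 19285 .leaf))) 8758920 17303 (.node (.node (.node (.node .leaf 8758935 19285 .leaf) 8758949 19283 (.node .leaf 8758951 23317 .leaf)) 8758965 21011 (.node (.node .leaf 8759191 21335 .leaf) 8759208 19351 .leaf)) 8759398 15258 (.node (.node (.node .leaf 8759415 19541 .leaf) 8759431 21206 (.node .leaf 8759432 21336 .leaf)) 8759687 21206 (.node (.node .leaf 8761719 18645 .leaf) 8761736 17304 .leaf))))) 8761751 23383 (.node (.node (.node (.node (.node (.node .leaf 8761752 17304 .leaf) 8763016 19351 (.node .leaf 8763031 19285 .leaf)) 8763032 19351 (.node (.node .leaf 8763045 19283 .leaf) 8763272 19352 .leaf)) 8763287 23383 (.node (.node (.node .leaf 8763288 19352 .leaf) 8763783 19671 (.node .leaf 8820647 21270 .leaf)) 8820839 15384 (.node (.node .leaf 8823176 21336 .leaf) 8824744 19416 .leaf))) 8824968 21336 (.node (.node (.node (.node .leaf 8827272 23385 .leaf) 8827288 17434 (.node .leaf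 8828808 19415 .leaf)) 8828824 19416 (.node (.node .leaf 8828825 19482 .leaf) 9507475 2241 .leaf)) 9507476 20875 (.node (.node (.node .leaf 9507491 20810 .leaf) 9507492 20875 (.node .leaf 9507508 20875 .leaf)) 9507747 16834 (.node (.node .leaf 9507971 21058 .leaf) 9508003 16962 .leaf)))) 9508227 21186 (.node (.node (.node (.node (.node .leaf 9508228 18819 .leaf) 9508244 18819 (.node .leaf 9508259 17090 .leaf)) 9508483 21314 (.node (.node .leaf 9508484 18819 .leaf) 9528451 21058 .leaf)) 9528707 21186 (.node (.node (.node .leaf 9528708 18819 .leaf) 9532307 14529 (.node .leaf 9532563 14529 .leaf)) 9532804 18819 (.node (.node .leaf 9532819 14529 .leaf) 9533059 21314 .leaf))) 9533075 14529 (.node (.node (.node (.node .leaf 9533315 21442 .leaf) 9533331 14529 (.node .leaf 9533587 14529 .leaf)) 9533843 14529 (.node (.node .leaf 9540755 23107 .leaf) 9541012 18819 .leaf)) 9544260 21595 (.node (.node (.node .leaf 9544275 21335 .leaf) 9544291 21331 (.node .leaf 9544307 21709 .leaf)) 9544323 21186 (.node (.node .leaf 9544324 18826 .leaf) 9544339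 21187 .leaf)))))))

def c61 : NatMap := (.node (.node (.node (.node (.node (.node (.node (.node .leaf 9544370 20874 .leaf) 9544371 20874 (.node .leaf 9544372 20874 .leaf)) 9544533 21591 (.node (.node .leaf 9544548 21331 .leaf) 9544564 16770 (.node .leaf 9544579 21186 .leaf))) 9544580 16770 (.node (.node (.node .leaf 9544581 16909 .leaf) 9544596 16770 (.node .leaf 9544612 18826 .leaf)) 9544613 18959 (.node (.node .leaf 9544626 20811 .leaf) 9544627 20812 .leaf))) 9544628 22927 (.node (.node (.node (.node .leaf 9544629 21136 .leaf) 9544789 21591 (.node .leaf 9544805 14861 .leaf)) 9544821 14861 (.node (.node .leaf 9544835 21570 .leaf) 9544836 16770 .leaf)) 9544852 16770 (.node (.node (.node .leaf 9544867 16962 .leaf) 9544884 20880 (.node .leaf 9545045 13075 .leaf)) 9545062 14990 (.node (.node .leaf 9545077 16909 .leaf) 9545091 21314 .leaf)))) 9545092 16770 (.node (.node (.node (.node (.node .leaf 9545093 16909 .leaf) 9545094 17038 (.node .leaf 9545108 16770 .leaf)) 9545110 17038 (.node (.node .leaf 9545111 17171 .leaf) 9545124 18819 .leaf))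 9545299 12819 (.node (.node (.node .leaf 9545316 14861 .leaf) 9545332 16770 (.node .leaf 9545333 14861 .leaf)) 9545347 20930 (.node (.node .leaf 9545348 16770 .leaf) 9545350 14990 .leaf))) 9545603 21570 (.node (.node (.node (.node .leaf 9545604 16770 .leaf) 9545796 10903 (.node .leaf 9545813 13075 .leaf)) 9545830 14990 (.node (.node .leaf 9545844 16770 .leaf) 9545845 16909 .leaf)) 9545846 14990 (.node (.node (.node .leaf 9545859 21186 .leaf) 9545860 16770 (.node .leaf 9545862 14990 .leaf)) 9546084 14733 (.node (.node .leaf 9546085 14861 .leaf) 9546101 14861 .leaf))))) 9546102 14990 (.node (.node (.node (.node (.node (.node .leaf 9546115 21570 .leaf) 9546116 16770 (.node .leaf 9546118 14990 .leaf)) 9548354 10653 (.node (.node .leaf 9548386 14741 .leaf) 9548420 18826 .leaf)) 9548421 18956 (.node (.node (.node .leaf 9548435 22721 .leaf) 9548436 18826 (.node .leaf 9548437 18956 .leaf)) 9548451 18826 (.node (.node .leaf 9548453 18956 .leaf) 9548454 21136 .leaf))) 9548612 20958 (.node (.node (.node (.node .leaf 9548629 20955 .leaf) 9548644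 20951 (.node .leaf 9548660 20947 .leaf)) 9548675 20930 (.node (.node .leaf 9548676 18826 .leaf) 9548678 19089 .leaf)) 9548691 22721 (.node (.node (.node .leaf 9548692 18826 .leaf) 9548693 23631 (.node .leaf 9548708 18826 .leaf)) 9548885 21083 (.node (.node .leaf 9548917 21070 .leaf) 9548931 21058 .leaf)))) 9548932 18819 (.node (.node (.node (.node (.node .leaf 9548947 22721 .leaf) 9548948 18819 (.node .leaf 9548963 16962 .leaf)) 9548965 18958 (.node (.node .leaf 9549187 21186 .leaf) 9549188 18819 .leaf)) 9549203 22721 (.node (.node (.node .leaf 9549204 18819 .leaf) 9549220 18819 (.node .leaf 9549427 21325 .leaf)) 9549428 21325 (.node (.node .leaf 9549443 21314 .leaf) 9549444 18819 .leaf))) 9549445 16910 (.node (.node (.node (.node .leaf 9549459 22721 .leaf) 9549460 18819 (.node .leaf 9549699 21442 .leaf)) 9549700 18819 (.node (.node .leaf 9549715 22721 .leaf) 9549716 18819 .leaf)) 9549909 21591 (.node (.node (.node .leaf 9549926 21587 .leaf) 9549941 21582 (.node .leaf 9549943 21588 .leaf)) 9549955 21570 (.node (.node .leaf 9549956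 18819 .leaf) 9549957 21582 .leaf)))))) 9549958 19087 (.node (.node (.node (.node (.node (.node (.node .leaf 9549971 22721 .leaf) 9549972 18819 (.node .leaf 9549973 18958 .leaf)) 9550163 21719 (.node (.node .leaf 9550180 21715 .leaf) 9550197 21710 .leaf)) 9550211 21698 (.node (.node (.node .leaf 9550212 18819 .leaf) 9550213 21710 (.node .leaf 9550227 22721 .leaf)) 9550228 18819 (.node (.node .leaf 9573764 21196 .leaf) 9573796 18959 .leaf))) 9574020 21324 (.node (.node (.node (.node .leaf 9594244 21196 .leaf) 9598340 21196 (.node .leaf 9606548 23246 .leaf)) 9609574 21590 (.node (.node .leaf 9609589 21202 .leaf) 9609604 21068 .leaf)) 9609605 21202 (.node (.node (.node .leaf 9609606 21331 .leaf) 9609623 21205 (.node .leaf 9610052 21597 .leaf)) 9610069 21594 (.node (.node .leaf 9610084 21334 .leaf) 9610100 21330 .leaf)))) 9610116 21324 (.node (.node (.node (.node (.node .leaf 9610117 18959 .leaf) 9610132 21198 (.node .leaf 9610149 18959 .leaf)) 9610163 22797 (.node (.node .leaf 9610165 21007 .leaf) 9610325 21594 .leaf)) 9610341 14998 (.node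 (.node (.node .leaf 9610356 16908 .leaf) 9610357 16908 (.node .leaf 9610372 21708 .leaf)) 9610373 16908 (.node (.node .leaf 9610389 16908 .leaf) 9610405 18958 .leaf))) 9610419 20943 (.node (.node (.node (.node .leaf 9610420 20944 .leaf) 9610421 23057 (.node .leaf 9610598 14994 .leaf)) 9610613 16908 (.node (.node .leaf 9610614 14994 .leaf) 9610628 21324 .leaf)) 9610629 16908 (.node (.node (.node .leaf 9610630 14994 .leaf) 9610644 16908 (.node .leaf 9610645 16908 .leaf)) 9610660 18958 (.node (.node .leaf 9610662 19219 .leaf) 9610677 21010 .leaf))))) 9610835 12822 (.node (.node (.node (.node (.node (.node .leaf 9610851 14866 .leaf) 9610852 14866 (.node .leaf 9610867 16908 .leaf)) 9610868 16908 (.node (.node .leaf 9610869 16908 .leaf) 9610884 21068 .leaf)) 9610885 16908 (.node (.node (.node .leaf 9610886 14994 .leaf) 9610901 16908 (.node .leaf 9610903 17171 .leaf)) 9611140 21324 (.node (.node .leaf 9611141 16908 .leaf) 9611332 10906 .leaf))) 9611349 13078 (.node (.node (.node (.node .leaf 9611365 14866 .leaf) 9611366 14994 (.node .leaf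 9611381 16908 .leaf)) 9611382 14994 (.node (.node .leaf 9611383 15123 .leaf) 9611396 21196 .leaf)) 9611397 16908 (.node (.node (.node .leaf 9611399 17171 .leaf) 9611603 12822 (.node .leaf 9611620 14994 .leaf)) 9611621 14994 (.node (.node .leaf 9611635 16908 .leaf) 9611636 16908 .leaf)))) 9611637 16908 (.node (.node (.node (.node (.node .leaf 9611638 14994 .leaf) 9611652 21196 (.node .leaf 9611653 16908 .leaf)) 9613687 17173 (.node (.node .leaf 9613700 18959 .leaf) 9613701 18959 .leaf)) 9613702 23636 (.node (.node (.node .leaf 9613717 18959 .leaf) 9614148 10911 (.node .leaf 9614165 12828 .leaf)) 9614180 14872 (.node (.node .leaf 9614196 16916 .leaf) 9614212 18959 .leaf))) 9614213 18959 (.node (.node (.node (.node .leaf 9614214 19089 .leaf) 9614228 22860 (.node .leaf 9614229 18959 .leaf)) 9614244 18959 (.node (.node .leaf 9614421 21085 .leaf) 9614437 21082 .leaf)) 9614453 21078 (.node (.node (.node .leaf 9614468 21068 .leaf) 9614469 18958 (.node .leaf 9614484 22860 .leaf)) 9614485 18958 (.node (.node .leaf 9614501 18958 .leaf) 9614677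 21213 .leaf)))))))

def c62 : NatMap := (.node (.node (.node (.node (.node (.node (.node (.node .leaf 9614724 21196 .leaf) 9614725 18958 (.node .leaf 9614740 22860 .leaf)) 9614741 18958 (.node (.node .leaf 9614756 18958 .leaf) 9614963 16915 (.node .leaf 9614964 21330 .leaf))) 9614980 21324 (.node (.node (.node .leaf 9614981 18958 .leaf) 9614996 22860 (.node .leaf 9614997 18958 .leaf)) 9614998 17043 (.node (.node .leaf 9615236 21452 .leaf) 9615237 18958 .leaf))) 9615252 22860 (.node (.node (.node (.node .leaf 9615253 18958 .leaf) 9615445 21594 (.node .leaf 9615462 21590 .leaf)) 9615477 21586 (.node (.node .leaf 9615479 17172 .leaf) 9615492 21580 .leaf)) 9615493 18958 (.node (.node (.node .leaf 9615494 21587 .leaf) 9615508 22860 (.node .leaf 9615509 18958 .leaf)) 9615699 12827 (.node (.node .leaf 9615716 21718 .leaf) 9615717 21718 .leaf)))) 9615733 21714 (.node (.node (.node (.node (.node .leaf 9615734 21715 .leaf) 9615748 21708 (.node .leaf 9615749 18958 .leaf)) 9615750 21715 (.node (.node .leaf 9615764 22860 .leaf) 9615765 18958 .leaf))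 9675110 14997 (.node (.node (.node .leaf 9675125 17043 .leaf) 9675127 17173 (.node .leaf 9675141 21329 .leaf)) 9675142 17043 (.node (.node .leaf 9675144 19350 .leaf) 9675159 17173 .leaf))) 9675861 21596 (.node (.node (.node (.node .leaf 9675877 21593 .leaf) 9675893 21333 (.node .leaf 9675909 21585 .leaf)) 9675910 19090 (.node (.node .leaf 9675956 22928 .leaf) 9676117 21596 .leaf)) 9676134 21593 (.node (.node (.node .leaf 9676149 17041 .leaf) 9676150 17041 (.node .leaf 9676165 21329 .leaf)) 9676166 17041 (.node (.node .leaf 9676181 17041 .leaf) 9676182 17041 .leaf))))) 9676183 21268 (.node (.node (.node (.node (.node (.node .leaf 9676198 19091 .leaf) 9676199 21268 (.node .leaf 9676212 21073 .leaf)) 9676213 21074 (.node (.node .leaf 9676214 23187 .leaf) 9676388 14997 .leaf)) 9676404 17041 (.node (.node (.node .leaf 9676405 17041 .leaf) 9676421 21713 (.node .leaf 9676422 17041 .leaf)) 9676423 17173 (.node (.node .leaf 9676438 17041 .leaf) 9676453 19091 .leaf))) 9676677 21713 (.node (.node (.node (.node .leaf 9676678 17041 .leaf) 9676868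 10908 (.node .leaf 9676885 13081 .leaf)) 9676902 15125 (.node (.node .leaf 9676916 17041 .leaf) 9676917 17041 .leaf)) 9676918 17041 (.node (.node (.node .leaf 9676919 15125 .leaf) 9676933 21201 (.node .leaf 9676934 17041 .leaf)) 9677156 14997 (.node (.node .leaf 9677157 14997 .leaf) 9677173 17041 .leaf)))) 9677174 17041 (.node (.node (.node (.node (.node .leaf 9677189 21329 .leaf) 9677190 17041 (.node .leaf 9679206 20697 .leaf)) 9679223 17174 (.node (.node .leaf 9679237 20691 .leaf) 9679238 19092 .leaf)) 9679253 22993 (.node (.node (.node .leaf 9679254 19092 .leaf) 9679255 17174 (.node .leaf 9679957 12958 .leaf)) 9679973 15003 (.node (.node .leaf 9679989 17047 .leaf) 9680005 19091 .leaf))) 9680006 19091 (.node (.node (.node (.node .leaf 9680021 22993 .leaf) 9680022 19091 (.node .leaf 9680037 21074 .leaf)) 9680213 13089 (.node (.node .leaf 9680230 21212 .leaf) 9680246 21209 .leaf)) 9680261 21201 (.node (.node (.node .leaf 9680262 19091 .leaf) 9680277 22993 (.node .leaf 9680278 19091 .leaf)) 9680294 19091 (.node (.node .leaf 9680500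 17046 .leaf) 9680517 21329 .leaf)))))) 9680533 22993 (.node (.node (.node (.node (.node (.node (.node .leaf 9680534 19091 .leaf) 9680535 21334 (.node .leaf 9680549 19091 .leaf)) 9680773 21457 (.node (.node .leaf 9680774 19091 .leaf) 9680789 22993 .leaf)) 9680790 19091 (.node (.node (.node .leaf 9680981 21596 .leaf) 9680998 21593 (.node .leaf 9681015 21590 .leaf)) 9681029 21585 (.node (.node .leaf 9681030 19091 .leaf) 9681031 21590 .leaf))) 9681045 22993 (.node (.node (.node (.node .leaf 9681046 19091 .leaf) 9681252 15002 (.node .leaf 9681253 21721 .leaf)) 9681269 21717 (.node (.node .leaf 9681270 21717 .leaf) 9681285 21713 .leaf)) 9681286 19091 (.node (.node (.node .leaf 9681301 22993 .leaf) 9681302 19091 (.node .leaf 9740646 15256 .leaf)) 9740661 17172 (.node (.node .leaf 9740663 17172 .leaf) 9740678 21716 .leaf)))) 9740679 17172 (.node (.node (.node (.node (.node .leaf 9740695 17172 .leaf) 9741670 21595 (.node .leaf 9741686 21592 .leaf)) 9741702 21588 (.node (.node .leaf 9741703 19220 .leaf) 9741719 21268 .leaf)) 9741734 23187 (.node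 (.node (.node .leaf 9741735 19220 .leaf) 9741749 23058 (.node .leaf 9741941 17172 .leaf)) 9741958 21588 (.node (.node .leaf 9741959 17172 .leaf) 9741960 17303 .leaf))) 9741975 17172 (.node (.node (.node (.node .leaf 9741991 19221 .leaf) 9742005 21203 (.node .leaf 9742006 21204 .leaf)) 9742231 17172 (.node (.node .leaf 9742421 13083 .leaf) 9742437 15128 .leaf)) 9742438 15128 (.node (.node (.node .leaf 9742454 17172 .leaf) 9742455 17172 (.node .leaf 9742470 21716 .leaf)) 9742471 17172 (.node (.node .leaf 9742693 15128 .leaf) 9742709 17172 .leaf))))) 9742710 17172 (.node (.node (.node (.node (.node (.node .leaf 9742726 21588 .leaf) 9742727 17172 (.node .leaf 9744742 20699 .leaf)) 9744759 20696 (.node (.node .leaf 9744774 20692 .leaf) 9744775 19222 .leaf)) 9744776 20697 (.node (.node (.node .leaf 9744790 23124 .leaf) 9744791 19222 (.node .leaf 9745749 13089 .leaf)) 9745766 15133 (.node (.node .leaf 9745782 17178 .leaf) 9745798 19222 .leaf))) 9745814 21204 (.node (.node (.node (.node .leaf 9745815 19222 .leaf) 9745830 21204 (.node .leaf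 9746070 23124 .leaf)) 9746071 19222 (.node (.node .leaf 9746072 19352 .leaf) 9746087 19222 .leaf)) 9746310 21460 (.node (.node (.node .leaf 9746326 23124 .leaf) 9746327 19222 (.node .leaf 9746534 21595 .leaf)) 9746551 21592 (.node (.node .leaf 9746566 21588 .leaf) 9746567 19222 .leaf)))) 9746582 23124 (.node (.node (.node (.node (.node .leaf 9746583 19222 .leaf) 9746789 15132 (.node .leaf 9746805 17177 .leaf)) 9746806 21720 (.node (.node .leaf 9746822 21716 .leaf) 9746823 19222 .leaf)) 9746838 23124 (.node (.node (.node .leaf 9746839 19222 .leaf) 9806182 15258 (.node .leaf 9806199 17303 .leaf)) 9806216 17303 (.node (.node .leaf 9807495 19350 .leaf) 9807496 19350 .leaf))) 9807511 21398 (.node (.node (.node (.node .leaf 9807542 23188 .leaf) 9807767 21334 (.node .leaf 9807784 19352 .leaf)) 9807974 15258 (.node (.node .leaf 9807990 17303 .leaf) 9807991 17303 .leaf)) 9808008 17303 (.node (.node (.node .leaf 9808246 17303 .leaf) 9810278 15263 (.node .leaf 9810295 20698 .leaf)) 9810311 20695 (.node (.node .leaf 9810312 19353 .leaf) 9810327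 23255 .leaf)))))))

def c63 : NatMap := (.node (.node (.node (.node (.node (.node (.node (.node .leaf 9811592 19352 .leaf) 9811607 21334 (.node .leaf 9811608 19352 .leaf)) 9811623 21334 (.node (.node .leaf 9811863 23255 .leaf) 9811864 23385 .leaf)) 9811880 19353 (.node (.node (.node .leaf 9812087 21594 .leaf) 9812103 21591 (.node .leaf 9812119 23255 .leaf)) 9812120 23385 (.node (.node .leaf 9812342 17307 .leaf) 9812359 21719 .leaf))) 9812375 23255 (.node (.node (.node (.node .leaf 9812376 23385 .leaf) 9871735 17433 (.node .leaf 9873527 17433 .leaf)) 9875831 17438 (.node (.node .leaf 9875848 20697 .leaf) 9875864 23385 .leaf)) 9875865 19483 (.node (.node (.node .leaf 9877400 23385 .leaf) 9877401 19483 (.node .leaf 9877416 21465 .leaf)) 9877656 23385 (.node (.node .leaf 9877912 23385 .leaf) 9941401 23516 .leaf)))) 10556067 2241 (.node (.node (.node (.node (.node .leaf 10556819 23234 .leaf) 10556820 23246 (.node .leaf 10557075 23362 .leaf)) 10577299 23234 (.node (.node .leaf 10581395 23234 .leaf) 10584995 16577 .leaf)) 10585251 16577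 (.node (.node (.node .leaf 10585507 16577 .leaf) 10589587 23234 (.node .leaf 10593443 23107 .leaf)) 10593700 23247 (.node (.node .leaf 10596947 23772 .leaf) 10596979 23380 .leaf))) 10597011 22978 (.node (.node (.node (.node .leaf 10597012 20875 .leaf) 10597029 23119 (.node .leaf 10597205 23644 .leaf)) 10597220 23768 (.node (.node .leaf 10597236 16916 .leaf) 10597252 18818 .leaf)) 10597267 23746 (.node (.node (.node .leaf 10597268 18818 .leaf) 10597269 18958 (.node .leaf 10597284 18818 .leaf)) 10597493 16910 (.node (.node .leaf 10597523 22978 .leaf) 10597524 18818 .leaf))))) 10597779 23362 (.node (.node (.node (.node (.node (.node .leaf 10597780 18818 .leaf) 10597796 18818 (.node .leaf 10598004 16910 .leaf)) 10598020 18818 (.node (.node .leaf 10598021 16910 .leaf) 10598035 23746 .leaf)) 10598036 18818 (.node (.node (.node .leaf 10598291 23362 .leaf) 10598292 18818 (.node .leaf 10598485 13080 .leaf)) 10598502 14996 (.node (.node .leaf 10598519 17172 .leaf) 10598532 18818 .leaf))) 10598534 19087 (.node (.node (.node (.node .leaf 10598547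 23746 .leaf) 10598548 18818 (.node .leaf 10598549 18958 .leaf)) 10598756 14996 (.node (.node .leaf 10598773 16910 .leaf) 10598788 18818 .leaf)) 10598789 16910 (.node (.node (.node .leaf 10598803 23234 .leaf) 10598804 18818 (.node .leaf 10622356 23245 .leaf)) 10659236 23247 (.node (.node .leaf 10662263 23639 .leaf) 10662278 23636 .leaf)))) 10662292 23245 (.node (.node (.node (.node (.node .leaf 10662293 23635 .leaf) 10662741 23646 (.node .leaf 10662756 23771 .leaf)) 10662772 23383 (.node (.node .leaf 10662788 23379 .leaf) 10662804 23373 .leaf)) 10662805 21008 (.node (.node (.node .leaf 10663013 15003 .leaf) 10663029 23767 (.node .leaf 10663044 18957 .leaf)) 10663045 18957 (.node (.node .leaf 10663060 23629 .leaf) 10663061 18957 .leaf))) 10663077 18957 (.node (.node (.node (.node .leaf 10663270 23643 .leaf) 10663316 23117 (.node .leaf 10663317 18957 .leaf)) 10663332 18957 (.node (.node .leaf 10663539 16915 .leaf) 10663556 18957 .leaf)) 10663557 18957 (.node (.node (.node .leaf 10663572 23629 .leaf) 10663573 18957 (.node .leaf 10663574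 17043 .leaf)) 10663828 23117 (.node (.node .leaf 10663829 18957 .leaf) 10664021 13083 .leaf)))))) 10664038 15255 (.node (.node (.node (.node (.node (.node (.node .leaf 10664053 16915 .leaf) 10664055 17172 (.node .leaf 10664070 19091 .leaf)) 10664084 23373 (.node (.node .leaf 10664085 18957 .leaf) 10664275 12827 .leaf)) 10664292 14999 (.node (.node (.node .leaf 10664293 14999 .leaf) 10664309 16915 (.node .leaf 10664310 17043 .leaf)) 10664324 18957 (.node (.node .leaf 10664326 17043 .leaf) 10664340 23373 .leaf))) 10664341 18957 (.node (.node (.node (.node .leaf 10727782 15258 .leaf) 10727814 19092 (.node .leaf 10727829 23634 .leaf)) 10727830 19092 (.node (.node .leaf 10727831 17174 .leaf) 10728549 23773 .leaf)) 10728565 23770 (.node (.node (.node .leaf 10728581 23382 .leaf) 10728597 23378 (.node .leaf 10728598 21139 .leaf)) 10728806 23645 (.node (.node .leaf 10728822 23770 .leaf) 10728838 19090 .leaf)))) 10728853 23762 (.node (.node (.node (.node (.node .leaf 10728854 19090 .leaf) 10728870 19090 (.node .leaf 10729076 17046 .leaf)) 10729092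 19090 (.node (.node .leaf 10729093 19090 .leaf) 10729109 23250 .leaf)) 10729110 19090 (.node (.node (.node .leaf 10729111 19222 .leaf) 10729365 23634 (.node .leaf 10729366 19090 .leaf)) 10729557 13085 (.node (.node .leaf 10729574 15258 .leaf) 10729591 17174 .leaf))) 10729604 19090 (.node (.node (.node (.node .leaf 10729606 19090 .leaf) 10729607 17174 (.node .leaf 10729621 23762 .leaf)) 10729622 19090 (.node (.node .leaf 10729828 15002 .leaf) 10729845 17174 .leaf)) 10729846 17174 (.node (.node (.node .leaf 10729860 19090 .leaf) 10729861 19090 (.node .leaf 10729862 19090 .leaf)) 10729877 23378 (.node (.node .leaf 10729878 19090 .leaf) 10793335 17177 .leaf))))) 10793350 19221 (.node (.node (.node (.node (.node (.node .leaf 10793352 19353 .leaf) 10793366 23381 (.node .leaf 10793367 19221 .leaf)) 10794342 22752 (.node (.node .leaf 10794358 23772 .leaf) 10794374 22745 .leaf)) 10794390 23637 (.node (.node (.node .leaf 10794391 21269 .leaf) 10794629 19221 (.node .leaf 10794646 23637 .leaf)) 10794647 19221 (.node (.node .leaf 10794648 19352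 .leaf) 10794663 19221 .leaf))) 10794902 23637 (.node (.node (.node (.node .leaf 10794903 19221 .leaf) 10795110 15260 (.node .leaf 10795127 17305 .leaf)) 10795142 19221 (.node (.node .leaf 10795143 19221 .leaf) 10795158 22741 .leaf)) 10795159 19221 (.node (.node (.node .leaf 10795365 15132 .leaf) 10795381 17177 (.node .leaf 10795382 17177 .leaf)) 10795398 19221 (.node (.node .leaf 10795399 19221 .leaf) 10795414 23637 .leaf)))) 10795415 19221 (.node (.node (.node (.node (.node .leaf 10858854 15263 .leaf) 10858871 17435 (.node .leaf 10858886 19352 .leaf)) 10858888 19352 (.node (.node .leaf 10858903 23512 .leaf) 10858904 19352 .leaf)) 10860183 21399 (.node (.node (.node .leaf 10860184 21399 .leaf) 10860439 22744 (.node .leaf 10860440 19352 .leaf)) 10860456 19352 (.node (.node .leaf 10860663 17307 .leaf) 10860679 19352 .leaf))) 10860696 19352 (.node (.node (.node (.node .leaf 10860918 17307 .leaf) 10860934 19352 (.node .leaf 10860935 19352 .leaf)) 10860952 19352 (.node (.node .leaf 10924407 17438 .leaf) 10924424 19482 .leaf)) 10924440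 23770 (.node (.node (.node .leaf 10924441 19482 .leaf) 10925976 23642 (.node .leaf 10925977 21530 .leaf)) 10926215 19482 (.node (.node .leaf 10926471 19482 .leaf) 10989960 19613 .leaf)))))))

def table : NatMap := (.node (.node (.node (.node (.node (.node c0 1135717 10566 c1) 1151603 12806 (.node c2 1193270 4807 c3)) 1205827 6531 (.node (.node c4 1254468 6532 c5) 1267251 2881 (.node c6 1290804 18754 c7))) 1333060 6659 (.node (.node (.node c8 1390148 6658 c9) 1452087 5063 (.node c10 1542485 17484 c11)) 2184020 8581 (.node (.node c12 2196053 10757 c13) 2209331 2882 (.node c14 2253123 8454 c15)))) 2270290 8582 (.node (.node (.node (.node c16 2316103 6923 c17) 2372881 7388 (.node c18 2397507 21191 c19)) 2463348 12813 (.node (.node c20 2636100 17624 c21) 3236420 8580 (.node c22 3245107 16577 c23))) 3257652 6531 (.node (.node (.node c24 3303221 9160 c25) 3322738 12552 (.node c26 3372629 14924 c27)) 3434326 8973 (.node (.node c28 3512149 7116 c29) 4281411 6530 (.node c30 4290372 8579 c31))))) 4301429 12807 (.node (.node (.node (.node (.node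 c32 4347718 6794 c33) 4360532 16841 (.node c34 4413320 15248 c35)) 4436497 23139 (.node (.node c36 4503173 14864 c37) 5321811 6337 (.node c38 5342019 12738 c39))) 5350324 20812 (.node (.node (.node c40 5403783 17167 c41) 5415813 14860 (.node c42 5473411 14603 c43)) 5535622 15056 (.node (.node c44 5671047 15253 c45) 6391124 12675 (.node c46 6399349 20811 c47)))) 6456389 14930 (.node (.node (.node (.node c48 6465140 12811 c49) 6526310 12943 (.node c50 6592168 19157 c51)) 7435892 14723 (.node (.node c52 7447412 14728 c53) 7506259 12810 (.node c54 7518564 17610 c55))) 7583621 23121 (.node (.node (.node c56 7767944 15381 c57) 8497269 19533 (.node c58 8562275 14866 c59)) 8631670 17042 (.node (.node c60 9544356 18826 c61) 9614694 21210 (.node c62 9810328 19353 c63))))))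

end Pool.Agent.R186.KRK.WinData
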