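import Pool.Agent.R186.KRK.Win
import Pool.Agent.R186.KRK.WinData

/-!
# Kernel check of the winning strategy for White
-/

set_option autoImplicit false

namespace Pool.Agent.R186.KRK

open WinData

theorem allNode {p : ℕ → ℕ → Bool} {l r : NatMap} {k v : ℕ} (h : p k v = true)
    (hl : l.all p = true) (hr : r.all p = true) : (NatMap.node l k v r).all p = true := by
  rw [NatMap.all, h, hl, hr]
  rfl

theorem h0 : c0.all (chkW table) = true := by decide +kernel

theorem h1 : c1.all (chkW table) = true := by decide +kernel

theorem h2 : c2.all (chkW table) = true := by decide +kernel

theorem h3 : c3.all (chkW table) = true := by decide +kernel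

theorem h4 : c4.all (chkW table) = true := by decide +kernel

theorem h5 : c5.all (chkW table) = true := by decide +kernel

theorem h6 : c6.all (chkW table) = true := by decide +kernel

theorem h7 : c7.all (chkW table) = true := by decide +kernel

theorem h8 : c8.all (chkW table) = true := by decide +kernel

theorem h9 : c9.all (chkW table) = true := by decide +kernel

theorem h10 : c10.all (chkW table) = true := by decide +kernel

theorem h11 : c11.all (chkW table) = true := by decide +kernel

theorem h12 : c12.all (chkW table) = true := by decide +kernel

theorem h13 : c13.all (chkW table) = true := by decide +kernel

theorem h14 : c14.all (chkW table) = true := by decide +kernel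

theorem h15 : c15.all (chkW table) = true := by decide +kernel

theorem h16 : c16.all (chkW table) = true := by decide +kernel

theorem h17 : c17.all (chkW table) = true := by decide +kernel

theorem h18 : c18.all (chkW table) = true := by decide +kernel

theorem h19 : c19.all (chkW table) = true := by decide +kernel

theorem h20 : c20.all (chkW table) = true := by decide +kernel

theorem h21 : c21.all (chkW table) = true := by decide +kernel

theorem h22 : c22.all (chkW table) = true := by decide +kernel

theorem h23 : c23.all (chkW table) = true := by decide +kernel

theorem h24 : c24.all (chkW table) = true := by decide +kernel

theorem h25 : c25.all (chkW table) = true := by decide +kernel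

theorem h26 : c26.all (chkW table) = true := by decide +kernel

theorem h27 : c27.all (chkW table) = true := by decide +kernel

theorem h28 : c28.all (chkW table) = true := by decide +kernel

theorem h29 : c29.all (chkW table) = true := by decide +kernel

theorem h30 : c30.all (chkW table) = true := by decide +kernel

theorem h31 : c31.all (chkW table) = true := by decide +kernel

theorem h32 : c32.all (chkW table) = true := by decide +kernel

theorem h33 : c33.all (chkW table) = true := by decide +kernel

theorem h34 : c34.all (chkW table) = true := by decide +kernel

theorem h35 : c35.all (chkW table) = true := by decide +kernel

theorem h36 : c36.all (chkW table) = true := by decide +kernel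

theorem h37 : c37.all (chkW table) = true := by decide +kernel

theorem h38 : c38.all (chkW table) = true := by decide +kernel

theorem h39 : c39.all (chkW table) = true := by decide +kernel

theorem h40 : c40.all (chkW table) = true := by decide +kernel

theorem h41 : c41.all (chkW table) = true := by decide +kernel

theorem h42 : c42.all (chkW table) = true := by decide +kernel

theorem h43 : c43.all (chkW table) = true := by decide +kernel

theorem h44 : c44.all (chkW table) = true := by decide +kernel

theorem h45 : c45.all (chkW table) = true := by decide +kernel

theorem h46 : c46.all (chkW table) = true := by decide +kernel

theorem h47 : c47.all (chkW table) = true := by decide +kernel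

theorem h48 : c48.all (chkW table) = true := by decide +kernel

theorem h49 : c49.all (chkW table) = true := by decide +kernel

theorem h50 : c50.all (chkW table) = true := by decide +kernel

theorem h51 : c51.all (chkW table) = true := by decide +kernel

theorem h52 : c52.all (chkW table) = true := by decide +kernel

theorem h53 : c53.all (chkW table) = true := by decide +kernel

theorem h54 : c54.all (chkW table) = true := by decide +kernel

theorem h55 : c55.all (chkW table) = true := by decide +kernel

theorem h56 : c56.all (chkW table) = true := by decide +kernel

theorem h57 : c57.all (chkW table) = true := by decide +kernel

theorem h58 : c58.all (chkW table) = true := by decide +kernel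

theorem h59 : c59.all (chkW table) = true := by decide +kernel

theorem h60 : c60.all (chkW table) = true := by decide +kernel

theorem h61 : c61.all (chkW table) = true := by decide +kernel

theorem h62 : c62.all (chkW table) = true := by decide +kernel

theorem h63 : c63.all (chkW table) = true := by decide +kernel

theorem table_ok : table.all (chkW table) = true :=
  (allNode (by decide +kernel) (allNode (by decide +kernel) (allNode (by decide +kernel) (allNode (by decide +kernel) (allNode (by decide +kernel) (allNode (by decide +kernel) h0 h1) (allNode (by decide +kernel) h2 h3)) (allNode (by decide +kernel) (allNode (by decide +kernel) h4 h5) (allNode (by decide +kernel) h6 h7))) (allNode (by decide +kernel) (allNode (by decide +kernel) (allNode (by decide +kernel) h8 h9) (allNode (by decide +kernel) h10 h11)) (allNode (by decide +kernel) (allNode (by decide +kernel) h12 h13) (allNode (by decide +kernel) h14 h15)))) (allNode (by decide +kernel) (allNode (by decide +kernel) (allNode (by decide +kernel) (allNode (by decide +kernel) h16 h17) (allNode (by decide +kernel) h18 h19)) (allNode (by decide +kernel) (allNode (by decide +kernel) h20 h21) (allNode (by decide +kernel) h22 h23))) (allNode (by decide +kernel) (allNode (by decide +kernel) (allNode (by decide +kernel) h24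 h25) (allNode (by decide +kernel) h26 h27)) (allNode (by decide +kernel) (allNode (by decide +kernel) h28 h29) (allNode (by decide +kernel) h30 h31))))) (allNode (by decide +kernel) (allNode (by decide +kernel) (allNode (by decide +kernel) (allNode (by decide +kernel) (allNode (by decide +kernel) h32 h33) (allNode (by decide +kernel) h34 h35)) (allNode (by decide +kernel) (allNode (by decide +kernel) h36 h37) (allNode (by decide +kernel) h38 h39))) (allNode (by decide +kernel) (allNode (by decide +kernel) (allNode (by decide +kernel) h40 h41) (allNode (by decide +kernel) h42 h43)) (allNode (by decide +kernel) (allNode (by decide +kernel) h44 h45) (allNode (by decide +kernel) h46 h47)))) (allNode (by decide +kernel) (allNode (by decide +kernel) (allNode (by decide +kernel) (allNode (by decide +kernel) h48 h49) (allNode (by decide +kernel) h50 h51)) (allNode (by decide +kernel) (allNode (by decide +kernel) h52 h53) (allNode (by decide +kernel) h54 h55))) (allNode (by decide +kernel) (allNode (by decide +kernel) (allNode (by decide +kernel) h56 h57) (allNode (by decide +kernel) h58 h59)) (allNode (by decide +kernel) (allNode (by decide +kernel) h60 h61) (allNode (by decide +kernel) h62 h63))))))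

theorem start_value : WinData.table.get 0 (code 1 1 2 2 3 3) % 64 = 39 := by decide +kernel

theorem win_9_11 : WinsIn 9 11 39 start := by
  have h := win_sound table_ok 39 1 1 2 2 3 3 (by decide) (by decide) (by decide) (by decide)
    (by decide) (by decide)
  rw [start_value] at h
  exact h (by decide) le_rfl

end Pool.Agent.R186.KRK
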